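import Pool.Agent.helper51.WR.Null

/-!
# WR-Loc: orders at a sheet

`al(τ) = s^N be(τ)`. Finite centre `t`: value at `s = 0`: `al(t) = 0`, so `be(t) ≠ 0` (coprime), `be(τ)` has
order `0`; `ord_aeval`: `e_t * order(τ - t) = N`. Centre infinity: `ord_aeval_inf`:
`deg al * order τ = N + deg be * order τ`, so `P = none` (at finite places `deg al = n ≥ deg be` would
give `N ≤ 0`), `(n - k) order τ = - N`. The order of `jac` at `t` is `e_t - 1` (write
`al = (X-t)^e A`: `jac = (X-t)^(e-1) (e A be + (X-t)(..))`, value `e A(t) be(t) ≠ 0` of the cofactor).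
-/

namespace WR

open Polynomial

namespace Cur

variable {S : Cur}

theorem Loc_cen_some {τ : M} {t : ℂ} (h : cen τ = some t) : Ge τ 0 ∧ τ.coeff 0 = t := by
  unfold cen at h
  split_ifs at h with h1
  exact ⟨h1, Option.some.inj h⟩

theorem Loc_cen_none {τ : M} (h : cen τ = none) : ¬ Ge τ 0 := by
  intro h1
  unfold cen at h
  rw [if_pos h1] at h
  exact absurd h (by simp)

theorem Loc_be_eval {P : Option ℂ} {t : ℂ} (h : (S.al P).IsRoot t) : (S.be P).eval t ≠ 0 := by
  intro hb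
  obtain ⟨u, w, huw⟩ := S.coprime P
  have h2 := congrArg (eval t) huw
  rw [eval_add, eval_mul, eval_mul, hb, (h : (S.al P).eval t = 0), mul_zero, mul_zero,
    add_zero, eval_one] at h2
  exact zero_ne_one h2

theorem Loc_aeval_algebraMap (t : ℂ) (p : ℂ[X]) :
    aeval (algebraMap ℂ M t) p = algebraMap ℂ M (p.eval t) := by
  rw [aeval_def, eval₂_at_apply]

theorem loc_fin {P : Option ℂ} {N : ℕ} (hN : 0 < N) {τ : M} (hτ : τ ∈ S.sh P N) {t : ℂ}
    (ht : cen τ = some t) : (S.al P).IsRoot t ∧ (S.be P).eval t ≠ 0 ∧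
      ∃ h : ℕ, 0 < h ∧ N = S.e P t * h ∧ Ge (τ - algebraMap ℂ M t) h ∧
        τ - algebraMap ℂ M t ≠ 0 ∧ (τ - algebraMap ℂ M t).order = h := by
  have hs := (S.mem_sh P hN τ).1 hτ
  obtain ⟨hg, h0⟩ := Loc_cen_some ht
  have hroot : (S.al P).IsRoot t := by
    have h1 : (aeval τ (S.al P)).coeff 0 = (S.al P).eval t := by
      rw [(ge_aeval hg (S.al P)).2, h0]
    have h2 : (aeval τ (S.al P)).coeff 0 = 0 := by
      rw [hs, coeff_sp_mul]
      exact (ge_aeval hg (S.be P)).1 _ (by omega)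
    show (S.al P).eval t = 0
    rw [← h1, h2]
  have hbe := Loc_be_eval hroot
  have hne : τ - algebraMap ℂ M t ≠ 0 := by
    intro h1
    have h2 : τ = algebraMap ℂ M t := sub_eq_zero.1 h1
    have h3 : aeval τ (S.al P) = 0 := by
      rw [h2, Loc_aeval_algebraMap, (hroot : (S.al P).eval t = 0), map_zero]
    rw [h3] at hs
    exact mul_ne_zero (sp_ne N) (be_ne ((S.mem_sh P hN τ).1 hτ)) hs.symm
  have hne' : τ - algebraMap ℂ M (τ.coeff 0) ≠ 0 := by rw [h0]; exact hne
  have ha := ord_aeval hg hne' (S.al_ne P)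
  have hb := ord_aeval hg hne' (S.be_ne' P)
  rw [h0] at ha hb
  have hb0 : rootMultiplicity t (S.be P) = 0 := rootMultiplicity_eq_zero hbe
  have ho : (S.e P t : ℤ) * (τ - algebraMap ℂ M t).order = N := by
    have h1 := congrArg HahnSeries.order hs
    rw [ord_mul (sp_ne N) hb.1, ord_sp, ha.2, hb.2, hb0] at h1
    simpa [e] using h1
  have he : 0 < S.e P t := (rootMultiplicity_pos (S.al_ne P)).2 hroot
  have hpos : 0 < (τ - algebraMap ℂ M t).order := by
    by_contra hle
    push Not at hle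
    have h1 : (S.e P t : ℤ) * (τ - algebraMap ℂ M t).order ≤ 0 :=
      mul_nonpos_of_nonneg_of_nonpos (by omega) hle
    omega
  obtain ⟨h, hh⟩ := Int.eq_ofNat_of_zero_le hpos.le
  refine ⟨hroot, hbe, h, by omega, ?_, ?_, hne, hh⟩
  · rw [hh] at ho
    have h2 : ((S.e P t * h : ℕ) : ℤ) = N := by push_cast; exact ho
    exact_mod_cast h2.symm
  · rw [ge_iff hne, hh]

theorem loc_inf {P : Option ℂ} {N : ℕ} (hN : 0 < N) {τ : M} (hτ : τ ∈ S.sh P N)
    (ht : cen τ = none) : P = none ∧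
      ∃ h : ℕ, 0 < h ∧ N = (S.n - S.k) * h ∧ τ ≠ 0 ∧ τ.order = -(h : ℤ) := by
  have hs := (S.mem_sh P hN τ).1 hτ
  have hg := Loc_cen_none ht
  have hne : τ ≠ 0 := by
    rintro rfl
    exact hg (ge_zero 0)
  have hneg : τ.order < 0 := by
    by_contra h1
    push Not at h1
    exact hg ((ge_iff hne).2 h1)
  have ha := ord_aeval_inf hg (S.al_ne P)
  have hb := ord_aeval_inf hg (S.be_ne' P)
  have ho : ((S.al P).natDegree : ℤ) * τ.order = N + ((S.be P).natDegree : ℤ) * τ.order := by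
    have h1 := congrArg HahnSeries.order hs
    rw [ord_mul (sp_ne N) hb.1, ord_sp, ha.2, hb.2] at h1
    exact h1
  have hkn := S.hkn
  rw [S.natDegree_al P] at ho
  cases P with
  | some v =>
    exfalso
    have h1 : (S.be (some v)).natDegree = S.k := S.hb
    rw [h1, if_neg (by simp)] at ho
    have h2 : ((S.n : ℤ) - S.k) * τ.order = N := by linarith
    have h3 : ((S.n : ℤ) - S.k) * τ.order ≤ 0 :=
      mul_nonpos_of_nonneg_of_nonpos (by omega) hneg.le
    omega
  | none =>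
    have h1 : (S.be none).natDegree = S.n := S.ha
    rw [h1, if_pos rfl] at ho
    obtain ⟨h, hh⟩ := Int.eq_ofNat_of_zero_le (show 0 ≤ -τ.order by omega)
    refine ⟨rfl, h, by omega, ?_, hne, by omega⟩
    have h2 : τ.order = -(h : ℤ) := by omega
    rw [h2] at ho
    have h3 : (((S.n - S.k) * h : ℕ) : ℤ) = N := by
      push_cast [Nat.cast_sub hkn.le]
      linarith
    exact_mod_cast h3.symm

theorem rootMult_jac {P : Option ℂ} {t : ℂ} (ht : (S.al P).IsRoot t) :
    S.jac P ≠ 0 ∧ rootMultiplicity t (S.jac P) = S.e P t - 1 := by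
  have he : 0 < S.e P t := (rootMultiplicity_pos (S.al_ne P)).2 ht
  obtain ⟨A, hA, hA0⟩ := exists_eq_pow_rootMultiplicity_mul_and_not_dvd (S.al P) (S.al_ne P) t
  obtain ⟨r, hr⟩ : ∃ r, S.e P t = r + 1 := ⟨S.e P t - 1, by omega⟩
  have hA1 : S.al P = (X - C t) ^ (r + 1) * A := by
    have h1 : rootMultiplicity t (S.al P) = r + 1 := hr
    rw [h1] at hA
    exact hA
  have hAt : A.eval t ≠ 0 := fun h => hA0 (dvd_iff_isRoot.2 h)
  have hbe := Loc_be_eval ht
  have hj : S.jac P = (C ((r : ℂ) + 1) * A * S.be P +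
      (X - C t) * (derivative A * S.be P - A * derivative (S.be P))) * (X - C t) ^ r := by
    unfold jac
    rw [hA1, derivative_mul, derivative_X_sub_C_pow]
    push_cast
    simp only [C_add, C_1, C_eq_natCast]
    ring
  have hq : (C ((r : ℂ) + 1) * A * S.be P +
      (X - C t) * (derivative A * S.be P - A * derivative (S.be P))).eval t ≠ 0 := by
    rw [eval_add, eval_mul, eval_mul, eval_C, eval_mul, eval_sub, eval_X, eval_C, sub_self,
      zero_mul, add_zero]
    have h1 : (r : ℂ) + 1 ≠ 0 := by exact_mod_cast Nat.succ_ne_zero r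
    exact mul_ne_zero (mul_ne_zero h1 hAt) hbe
  have hq0 : (C ((r : ℂ) + 1) * A * S.be P +
      (X - C t) * (derivative A * S.be P - A * derivative (S.be P))) ≠ 0 := by
    intro h
    rw [h, eval_zero] at hq
    exact hq rfl
  refine ⟨?_, ?_⟩
  · rw [hj]
    exact mul_ne_zero hq0 (pow_ne_zero _ (X_sub_C_ne_zero t))
  · rw [hj, rootMultiplicity_mul_X_sub_C_pow hq0, rootMultiplicity_eq_zero hq, hr]
    omega

theorem y_fin {P : Option ℂ} {N : ℕ} (hN : 0 < N) {τ : M} (hτ : τ ∈ S.sh P N) {t : ℂ}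
    (ht : cen τ = some t) : Ge (S.y P τ) 0 ∧
      (S.y P τ).coeff 0 = S.c.eval t / (S.be P).eval t := by
  obtain ⟨hroot, hbe, -⟩ := loc_fin hN hτ ht
  obtain ⟨hg, h0⟩ := Loc_cen_some ht
  have hb := be_ne ((S.mem_sh P hN τ).1 hτ)
  have hob : (aeval τ (S.be P)).order = 0 := by
    have h1 := ge_aeval hg (S.be P)
    rw [h0] at h1
    exact (ord_eq h1.1 (by rw [h1.2]; exact hbe)).2
  have hy : Ge (S.y P τ) 0 := by
    have h1 := ge_div (ge_aeval hg S.c).1 hb
    rw [hob, sub_zero] at h1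
    exact h1
  refine ⟨hy, ?_⟩
  have h1 : S.y P τ * aeval τ (S.be P) = aeval τ S.c := div_mul_cancel₀ _ hb
  have h2 := coeff_mul_ord hy (ge_aeval hg (S.be P)).1
  rw [h1, add_zero, (ge_aeval hg (S.be P)).2, (ge_aeval hg S.c).2, h0] at h2
  rw [eq_div_iff hbe]
  exact h2.symm

/-- at infinity `y = c / a` has a pole of order `m h` -/
theorem y_inf {P : Option ℂ} {N : ℕ} (hN : 0 < N) {τ : M} (hτ : τ ∈ S.sh P N)
    (ht : cen τ = none) : S.y P τ ≠ 0 ∧
      ((S.n - S.k : ℕ) : ℤ) * (S.y P τ).order = -((S.m * N : ℕ) : ℤ) := by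
  obtain ⟨hP, h, h0, hh, hne, ho⟩ := loc_inf hN hτ ht
  have hg := Loc_cen_none ht
  have hc0 : S.c ≠ 0 := by
    intro h1
    have h2 := S.hc
    have h3 := S.hm
    rw [h1, natDegree_zero] at h2
    omega
  have hc := ord_aeval_inf hg hc0
  have hb := ord_aeval_inf hg (S.be_ne' P)
  have hd : (S.be P).natDegree = S.n := by
    rw [hP]
    exact S.ha
  refine ⟨div_ne_zero hc.1 hb.1, ?_⟩
  have h1 : (S.y P τ).order = -((S.m * h : ℕ) : ℤ) := by
    unfold y
    rw [ord_div hc.1 hb.1, hc.2, hb.2, hd, S.hc, ho]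
    push_cast
    ring
  rw [h1, hh]
  push_cast
  ring

theorem Loc_jac_order {P : Option ℂ} {N h : ℕ} (hN : 0 < N) {τ : M} (hτ : τ ∈ S.sh P N) {t : ℂ}
    (ht : cen τ = some t) (hh : N = S.e P t * h) :
    aeval τ (S.jac P) ≠ 0 ∧ (aeval τ (S.jac P)).order = (N : ℤ) - h := by
  obtain ⟨hroot, hbe, h', h0', hh', hG, hne, ho⟩ := loc_fin hN hτ ht
  obtain ⟨hg, h0⟩ := Loc_cen_some ht
  have he : 0 < S.e P t := (rootMultiplicity_pos (S.al_ne P)).2 hroot
  have heq : h' = h := Nat.eq_of_mul_eq_mul_left he (by rw [← hh', hh])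
  subst heq
  obtain ⟨hj, hm⟩ := rootMult_jac hroot
  have hne' : τ - algebraMap ℂ M (τ.coeff 0) ≠ 0 := by rw [h0]; exact hne
  have h1 := ord_aeval hg hne' hj
  rw [h0, hm, ho] at h1
  refine ⟨h1.1, ?_⟩
  rw [h1.2]
  have h2 : (N : ℤ) = (S.e P t : ℤ) * h' := by exact_mod_cast hh'
  rw [h2, Nat.cast_sub he]
  push_cast
  ring

theorem g_fin {P : Option ℂ} {N h : ℕ} (hN : 0 < N) {τ : M} (hτ : τ ∈ S.sh P N) {t : ℂ}
    (ht : cen τ = some t) (hh : N = S.e P t * h) : Ge (S.g P τ) ((h : ℤ) - N) := by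
  obtain ⟨hj, ho⟩ := Loc_jac_order hN hτ ht hh
  obtain ⟨hg, h0⟩ := Loc_cen_some ht
  have h1 := ge_div (ge_aeval hg (S.num P)).1 hj
  rw [ho] at h1
  have h2 : (0 : ℤ) - ((N : ℤ) - h) = (h : ℤ) - N := by ring
  rw [h2] at h1
  exact h1

/-- at a cusp the numerator of `g` vanishes -/
theorem g_cusp {P : Option ℂ} {N h : ℕ} (hN : 0 < N) {τ : M} (hτ : τ ∈ S.sh P N) {t : ℂ}
    (ht : cen τ = some t) (hh : N = S.e P t * h) (hc : S.IsCusp t) :
    Ge (S.g P τ) (2 * (h : ℤ) - N) := by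
  obtain ⟨hj, ho⟩ := Loc_jac_order hN hτ ht hh
  obtain ⟨hroot, hbe, h', h0', hh', hG, hne, ho'⟩ := loc_fin hN hτ ht
  obtain ⟨hg, h0⟩ := Loc_cen_some ht
  have he : 0 < S.e P t := (rootMultiplicity_pos (S.al_ne P)).2 hroot
  have heq : h' = h := Nat.eq_of_mul_eq_mul_left he (by rw [← hh', hh])
  subst heq
  have hnum : (S.num P).IsRoot t := by
    show (S.num P).eval t = 0
    cases P with
    | none =>
      show (derivative S.c * S.a - S.c * derivative S.a).eval t = 0
      rw [eval_sub, eval_mul, eval_mul]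
      linear_combination hc.2.2
    | some v =>
      show (derivative S.c * S.b - S.c * derivative S.b).eval t = 0
      rw [eval_sub, eval_mul, eval_mul]
      linear_combination hc.2.1
  obtain ⟨Q, hQ⟩ := dvd_iff_isRoot.2 hnum
  have h1 : aeval τ (S.num P) = (τ - algebraMap ℂ M t) * aeval τ Q := by
    rw [hQ, map_mul, map_sub, aeval_X, aeval_C]
  have h2 : Ge (aeval τ (S.num P)) (h' + 0) := by
    rw [h1]
    exact ge_mul hG (ge_aeval hg Q).1
  have h3 := ge_div h2 hj
  rw [ho] at h3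
  have h4 : (h' : ℤ) + 0 - ((N : ℤ) - h') = 2 * (h' : ℤ) - N := by ring
  rw [h4] at h3
  exact h3

/-- different centres have different values of `y` (`S.inj`) -/
theorem y_val_ne {P : Option ℂ} {t t' : ℂ} (ht : (S.al P).IsRoot t) (ht' : (S.al P).IsRoot t')
    (hne : t ≠ t') : S.c.eval t / (S.be P).eval t ≠ S.c.eval t' / (S.be P).eval t' := by
  intro heq
  have hb := Loc_be_eval ht
  have hb' := Loc_be_eval ht'
  rw [div_eq_div_iff hb hb'] at heq
  cases P with
  | none =>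
    have h1 : S.b.eval t = 0 := ht
    have h2 : S.b.eval t' = 0 := ht'
    have h3 : S.c.eval t * S.a.eval t' = S.c.eval t' * S.a.eval t := heq
    refine hne (S.inj t t' ?_ ?_ ?_)
    · rw [h1, h2, mul_zero, mul_zero]
    · rw [h1, h2, zero_mul, zero_mul]
    · linear_combination -h3
  | some v =>
    have h1 : S.a.eval t - v * S.b.eval t = 0 := by
      have h : (S.a - C v * S.b).eval t = 0 := ht
      rw [eval_sub, eval_mul, eval_C] at h
      exact h
    have h2 : S.a.eval t' - v * S.b.eval t' = 0 := by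
      have h : (S.a - C v * S.b).eval t' = 0 := ht'
      rw [eval_sub, eval_mul, eval_C] at h
      exact h
    have h3 : S.c.eval t * S.b.eval t' = S.c.eval t' * S.b.eval t := heq
    refine hne (S.inj t t' ?_ ?_ ?_)
    · linear_combination S.b.eval t' * h1 - S.b.eval t * h2
    · linear_combination -h3
    · linear_combination S.c.eval t' * h1 - S.c.eval t * h2 - v * h3

end Cur

end WR
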