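import Pool.Agent.helper51.WR.Root
import Pool.Agent.helper51.WR.Loc

/-!
# WR-RH: Riemann-Hurwitz

`jac (some v) = a'b - ab'` does not depend on `v` and `jac none` is its negative; its degree is
`n + k - 1` (leading coefficient `(n - k) lc(a) lc(b)`); `rootMult_jac`: the order at `t` is `e_t - 1` if `t`
lies over `P`. Different places have disjoint fibres.
-/

namespace WR

open Polynomial

namespace Cur

variable (S : Cur)

theorem RH_some (v : ℂ) : S.jac (some v) = derivative S.a * S.b - S.a * derivative S.b := by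
  simp only [jac, al, be, derivative_sub, derivative_C_mul]
  ring

theorem RH_none : S.jac none = -(derivative S.a * S.b - S.a * derivative S.b) := by
  simp only [jac, al, be]
  ring

theorem jac_eq (P : Option ℂ) : S.jac P = S.jac (some 0) ∨ S.jac P = - S.jac (some 0) := by
  cases P with
  | none => right; rw [RH_none, RH_some]
  | some v => left; rw [RH_some, RH_some]

theorem natDegree_jac : (S.jac (some 0)).natDegree = S.n + S.k - 1 := by
  rw [RH_some]
  have hkn := S.hkn
  have hk := S.hk
  have ha := S.ha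
  have hb := S.hb
  have ha0 : S.a.coeff S.n ≠ 0 := by
    rw [← ha]
    refine leadingCoeff_ne_zero.2 fun h => ?_
    rw [h, natDegree_zero] at ha
    omega
  have hb0 : S.b.coeff S.k ≠ 0 := by
    rw [← hb]
    refine leadingCoeff_ne_zero.2 fun h => ?_
    rw [h, natDegree_zero] at hb
    omega
  have hda : (derivative S.a).natDegree ≤ S.n - 1 := by
    have := natDegree_derivative_le S.a
    rwa [ha] at this
  have hdb : (derivative S.b).natDegree ≤ S.k - 1 := by
    have := natDegree_derivative_le S.b
    rwa [hb] at this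
  have e1 : S.n + S.k - 1 = (S.n - 1) + S.k := by omega
  have e2 : S.n + S.k - 1 = S.n + (S.k - 1) := by omega
  refine natDegree_eq_of_le_of_coeff_ne_zero ?_ ?_
  · refine (natDegree_sub_le _ _).trans (max_le ?_ ?_)
    · refine natDegree_mul_le.trans ?_
      rw [hb]
      omega
    · refine natDegree_mul_le.trans ?_
      rw [ha]
      omega
  · have h1 : (derivative S.a * S.b).coeff (S.n + S.k - 1) = S.a.coeff S.n * S.n * S.b.coeff S.k := by
      rw [e1, coeff_mul_add_eq_of_natDegree_le hda hb.le, coeff_derivative, Nat.sub_add_cancel (by omega)]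
      congr 2
      have : ((S.n - 1 : ℕ) : ℂ) + 1 = ((S.n - 1 + 1 : ℕ) : ℂ) := by push_cast; rfl
      rw [this, Nat.sub_add_cancel (by omega)]
    have h2 : (S.a * derivative S.b).coeff (S.n + S.k - 1) = S.a.coeff S.n * (S.b.coeff S.k * S.k) := by
      rw [e2, coeff_mul_add_eq_of_natDegree_le ha.le hdb, coeff_derivative, Nat.sub_add_cancel (by omega)]
      congr 2
      have : ((S.k - 1 : ℕ) : ℂ) + 1 = ((S.k - 1 + 1 : ℕ) : ℂ) := by push_cast; rfl
      rw [this, Nat.sub_add_cancel (by omega)]
    rw [coeff_sub, h1, h2]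
    have h3 : S.a.coeff S.n * S.n * S.b.coeff S.k - S.a.coeff S.n * (S.b.coeff S.k * S.k) =
        S.a.coeff S.n * S.b.coeff S.k * ((S.n : ℂ) - S.k) := by ring
    rw [h3]
    refine mul_ne_zero (mul_ne_zero ha0 hb0) (sub_ne_zero.2 ?_)
    intro h4
    have h5 : S.n = S.k := by exact_mod_cast h4
    omega

/-- the sum of the root multiplicities over a finite set -/
theorem RH_sum_le (J : ℂ[X]) (T : Finset ℂ) : ∑ t ∈ T, rootMultiplicity t J ≤ J.natDegree := by
  classical
  have h1 : ∑ t ∈ T, rootMultiplicity t J ≤ ∑ t ∈ J.roots.toFinset, Multiset.count t J.roots := by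
    have h2 : ∑ t ∈ T, rootMultiplicity t J = ∑ t ∈ T ∩ J.roots.toFinset, Multiset.count t J.roots := by
      rw [← Finset.sum_subset (Finset.inter_subset_left (s₁ := T) (s₂ := J.roots.toFinset))]
      · exact Finset.sum_congr rfl fun t _ => (count_roots J).symm
      · intro t ht hnt
        have h3 : t ∉ J.roots := fun h => hnt (Finset.mem_inter.2 ⟨ht, Multiset.mem_toFinset.2 h⟩)
        rw [← count_roots, Multiset.count_eq_zero_of_notMem h3]
    rw [h2]
    exact Finset.sum_le_sum_of_subset Finset.inter_subset_right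
  rw [Multiset.toFinset_sum_count_eq] at h1
  exact h1.trans (card_roots' J)

theorem RH_al_ne (P : Option ℂ) : S.al P ≠ 0 := by
  intro h0
  have h1 : (S.al P).IsRoot 0 := by rw [h0]; exact eval_zero
  refine (rootMult_jac h1).1 ?_
  rw [jac, h0, derivative_zero, zero_mul, zero_mul, sub_zero]

theorem RH_mem (P : Option ℂ) (t : ℂ) : t ∈ (S.al P).roots.toFinset ↔ (S.al P).IsRoot t := by
  classical
  rw [Multiset.mem_toFinset, mem_roots (RH_al_ne S P)]

theorem RH_disj {P Q : Option ℂ} (hPQ : P ≠ Q) {t : ℂ} (h : (S.al P).IsRoot t)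
    (h' : (S.al Q).IsRoot t) : False := by
  rcases S.nz t with h0 | h0
  all_goals
    cases P with
    | none =>
      cases Q with
      | none => exact hPQ rfl
      | some v =>
        have e1 : S.b.eval t = 0 := h
        have e2 : S.a.eval t - v * S.b.eval t = 0 := by
          have : (S.a - C v * S.b).eval t = 0 := h'
          simpa using this
        rw [e1, mul_zero, sub_zero] at e2
        first | exact h0 e2 | exact h0 e1
    | some w =>
      have e2 : S.a.eval t - w * S.b.eval t = 0 := by
        have : (S.a - C w * S.b).eval t = 0 := h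
        simpa using this
      cases Q with
      | none =>
        have e1 : S.b.eval t = 0 := h'
        rw [e1, mul_zero, sub_zero] at e2
        first | exact h0 e2 | exact h0 e1
      | some v =>
        have e3 : S.a.eval t - v * S.b.eval t = 0 := by
          have : (S.a - C v * S.b).eval t = 0 := h'
          simpa using this
        have e4 : (v - w) * S.b.eval t = 0 := by linear_combination e2 - e3
        have e5 : S.b.eval t = 0 := by
          rcases mul_eq_zero.1 e4 with h5 | h5
          · exact absurd (by rw [sub_eq_zero.1 h5]) hPQ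
          · exact h5
        rw [e5, mul_zero, sub_zero] at e2
        first | exact h0 e2 | exact h0 e5

theorem RH_mult {P : Option ℂ} {t : ℂ} (ht : (S.al P).IsRoot t) :
    rootMultiplicity t (S.jac (some 0)) = S.e P t - 1 := by
  have h1 := (rootMult_jac ht).2
  rcases S.jac_eq P with h2 | h2
  · rw [← h2, h1]
  · rw [h2, ← count_roots, roots_neg, count_roots] at h1
    exact h1

theorem ram_le (V : Finset ℂ) : ∑ v ∈ V, S.Ram (some v) + S.Ram none ≤ S.n + S.k - 1 := by
  classical
  have h1 : ∀ P, S.Ram P = ∑ t ∈ (S.al P).roots.toFinset, rootMultiplicity t (S.jac (some 0)) := by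
    intro P
    unfold Ram
    refine Finset.sum_congr rfl fun t ht => ?_
    rw [RH_mult S ((RH_mem S P t).1 ht)]
  set I : Finset (Option ℂ) := insert none (V.image some) with hI
  have h2 : ∑ v ∈ V, S.Ram (some v) + S.Ram none = ∑ P ∈ I, S.Ram P := by
    rw [hI, Finset.sum_insert (by simp), Finset.sum_image (fun x _ y _ h => Option.some.inj h),
      add_comm]
  rw [h2, Finset.sum_congr rfl fun P _ => h1 P, ← Finset.sum_biUnion, ← S.natDegree_jac]
  · exact RH_sum_le _ _
  · intro P _ Q _ hPQ
    rw [Function.onFun, Finset.disjoint_left]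
    intro t ht ht'
    exact RH_disj S hPQ ((RH_mem S P t).1 ht) ((RH_mem S Q t).1 ht')

/-- if `t₁` over `v₁` is totally ramified, the other places have total ramification at most `k` -/
theorem ram_le_tot {v₁ t₁ : ℂ} (he : S.e (some v₁) t₁ = S.n) (V : Finset ℂ) (hv : v₁ ∉ V) :
    ∑ v ∈ V, S.Ram (some v) + S.Ram none ≤ S.k := by
  classical
  have hkn := S.hkn
  have hk := S.hk
  have h1 := S.ram_le (insert v₁ V)
  rw [Finset.sum_insert hv] at h1
  have ht : (S.al (some v₁)).IsRoot t₁ := by
    have h2 : 0 < rootMultiplicity t₁ (S.al (some v₁)) := by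
      have : rootMultiplicity t₁ (S.al (some v₁)) = S.n := he
      omega
    exact (rootMultiplicity_pos (RH_al_ne S _)).1 h2
  have h3 : S.n - 1 ≤ S.Ram (some v₁) := by
    unfold Ram
    rw [← he]
    exact Finset.single_le_sum (f := fun t => S.e (some v₁) t - 1) (fun _ _ => Nat.zero_le _)
      ((RH_mem S _ _).2 ht)
  omega

open Classical in
/-- the sum of `1 - 1/e` over the sheets with finite centre (`card_cen`) -/
theorem sum_ep (P : Option ℂ) {N : ℕ} (hN : S.Adm P N) :
    ∑ τ ∈ (S.sh P N).filter (fun τ => cen τ ≠ none),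
      (1 - 1 / (S.e P ((cen τ).getD 0) : ℚ)) = S.Ram P := by
  have hmap : ∀ τ ∈ (S.sh P N).filter (fun τ => cen τ ≠ none),
      (cen τ).getD 0 ∈ (S.al P).roots.toFinset := by
    intro τ hτ
    obtain ⟨h1, h2⟩ := Finset.mem_filter.1 hτ
    obtain ⟨t, ht⟩ := Option.ne_none_iff_exists'.1 h2
    rw [ht, RH_mem]
    exact (loc_fin hN.1 h1 ht).1
  rw [← Finset.sum_fiberwise_of_maps_to hmap]
  unfold Ram
  rw [Nat.cast_sum]
  refine Finset.sum_congr rfl fun t ht => ?_
  have hroot := (RH_mem S P t).1 ht
  have he : 0 < S.e P t := (rootMultiplicity_pos (RH_al_ne S P)).2 hroot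
  have h1 : ((S.sh P N).filter (fun τ => cen τ ≠ none)).filter (fun τ => (cen τ).getD 0 = t) =
      (S.sh P N).filter (fun τ => cen τ = some t) := by
    ext τ
    simp only [Finset.mem_filter]
    constructor
    · rintro ⟨⟨h1, h2⟩, h3⟩
      obtain ⟨t', ht'⟩ := Option.ne_none_iff_exists'.1 h2
      rw [ht', Option.getD_some] at h3
      exact ⟨h1, by rw [ht', h3]⟩
    · rintro ⟨h1, h2⟩
      exact ⟨⟨h1, by rw [h2]; exact Option.some_ne_none t⟩, by rw [h2, Option.getD_some]⟩
  rw [h1]
  have h2 : ∀ τ ∈ (S.sh P N).filter (fun τ => cen τ = some t),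
      (1 - 1 / (S.e P ((cen τ).getD 0) : ℚ)) = 1 - 1 / (S.e P t : ℚ) := by
    intro τ hτ
    rw [(Finset.mem_filter.1 hτ).2, Option.getD_some]
  rw [Finset.sum_congr rfl h2, Finset.sum_const, S.card_cen P hN t, nsmul_eq_mul,
    Nat.cast_sub he]
  have he' : (S.e P t : ℚ) ≠ 0 := by exact_mod_cast he.ne'
  field_simp
  simp

end Cur

end WR
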