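import Pool.Agent.helper51.WR.Loc

/-!
# WR-Rho: normalized orders of pairs and triples of sheets
-/

namespace WR

open Polynomial

namespace Cur

variable {S : Cur} {P : Option ℂ} {N : ℕ} {τ τ' τ₁ τ₂ τ₃ : M} {t t' : ℂ}

/-! ### auxiliary facts -/

theorem Rho_sub_comm (f g : M) : (f - g).order = (g - f).order := by
  rw [← neg_sub, HahnSeries.order_neg]

theorem Rho_nat {N : ℕ} (hN : 0 < N) : (N : M) ≠ 0 ∧ (N : M).order = 0 := by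
  have h1 : (N : M) = algebraMap ℂ M (N : ℂ) := by rw [map_natCast]
  rw [h1]
  refine ord_eq (ge_algebraMap _) ?_
  rw [coeff_algebraMap, if_pos rfl]
  exact_mod_cast hN.ne'

theorem Rho_const {c : ℂ} (hc : c ≠ 0) : algebraMap ℂ M c ≠ 0 ∧ (algebraMap ℂ M c).order = 0 := by
  refine ord_eq (ge_algebraMap _) ?_
  rw [coeff_algebraMap, if_pos rfl]
  exact hc

theorem Rho_nsW (hN : 0 < N) {W : M} (hW : W ≠ 0) :
    (N : M) * sp N * W ≠ 0 ∧ ((N : M) * sp N * W).order = N + W.order := by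
  have h1 := Rho_nat hN
  have h2 : (N : M) * sp N ≠ 0 := mul_ne_zero h1.1 (sp_ne _)
  refine ⟨mul_ne_zero h2 hW, ?_⟩
  rw [ord_mul h2 hW, ord_mul h1.1 (sp_ne _), h1.2, ord_sp, zero_add]

theorem Rho_order_ge {f : M} {r : ℤ} (h : Ge f r) (hr : r ≤ 0) : r ≤ f.order := by
  by_cases hf : f = 0
  · rw [hf, HahnSeries.order_zero]
    exact hr
  · exact (ge_iff hf).mp h

theorem Rho_ge {f : M} {r : ℤ} (h : r ≤ f.order) : Ge f r := by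
  by_cases hf : f = 0
  · rw [hf]
    exact ge_zero r
  · exact (ge_iff hf).mpr h

theorem rho_symm : S.rho P N τ τ' = S.rho P N τ' τ := by
  unfold rho
  rw [Rho_sub_comm]

theorem Y_ne (hN : 0 < N) (h : τ ∈ S.sh P N) (h' : τ' ∈ S.sh P N) (hne : τ ≠ τ') :
    S.y P τ - S.y P τ' ≠ 0 :=
  sub_ne_zero.mpr (S.y_ne P ((S.mem_sh P hN τ).mp h) ((S.mem_sh P hN τ').mp h') hne)

theorem rho_diff (hN : 0 < N) (h : τ ∈ S.sh P N) (h' : τ' ∈ S.sh P N)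
    (ht : cen τ = some t) (ht' : cen τ' = some t') (hne : t ≠ t') : S.rho P N τ τ' = 0 := by
  have h1 := y_fin hN h ht
  have h2 := y_fin hN h' ht'
  have h3 := (loc_fin hN h ht).1
  have h4 := (loc_fin hN h' ht').1
  have h5 := y_val_ne h3 h4 hne
  have h6 : (S.y P τ - S.y P τ').coeff 0 ≠ 0 := by
    rw [HahnSeries.coeff_sub, h1.2, h2.2]
    exact sub_ne_zero.mpr h5
  have h7 := ord_eq (ge_sub h1.1 h2.1) h6
  unfold rho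
  rw [h7.2]
  simp

theorem Rho_fin (hN : 0 < N) (h : τ ∈ S.sh P N) (ht : cen τ ≠ none) : Ge (S.y P τ) 0 := by
  obtain ⟨t, ht⟩ := Option.ne_none_iff_exists'.mp ht
  exact (y_fin hN h ht).1

theorem rho_nonneg (hN : 0 < N) (h : τ ∈ S.sh P N) (h' : τ' ∈ S.sh P N)
    (ht : cen τ ≠ none) (ht' : cen τ' ≠ none) : 0 ≤ S.rho P N τ τ' := by
  have h1 := Rho_order_ge (ge_sub (Rho_fin hN h ht) (Rho_fin hN h' ht')) le_rfl
  unfold rho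
  have h2 : (0 : ℚ) ≤ ((S.y P τ - S.y P τ').order : ℚ) := by exact_mod_cast h1
  positivity

theorem Rho_q (hN : 0 < N) {o : ℤ}
    (h : ((S.n - S.k : ℕ) : ℤ) * o = -((S.m * N : ℕ) : ℤ)) :
    o < 0 ∧ (o : ℚ) / N = - ((S.m : ℚ) / ((S.n : ℚ) - S.k)) := by
  have hk := S.hkn
  have hm := S.hm
  have h0 : (0 : ℤ) < ((S.n - S.k : ℕ) : ℤ) := by exact_mod_cast Nat.sub_pos_of_lt hk
  have h1 : 0 < S.m * N := Nat.mul_pos (by omega) hN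
  constructor
  · by_contra hc
    push Not at hc
    have h2 := mul_nonneg h0.le hc
    rw [h] at h2
    have h3 : (0 : ℤ) < ((S.m * N : ℕ) : ℤ) := by exact_mod_cast h1
    linarith
  · have h2 : ((S.n : ℚ) - S.k) * o = -((S.m : ℚ) * N) := by
      have h3 : (((S.n - S.k : ℕ) : ℤ) : ℚ) * o = -(((S.m * N : ℕ) : ℤ) : ℚ) := by
        exact_mod_cast h
      push_cast [Nat.cast_sub hk.le] at h3
      exact h3
    have h4 : (0 : ℚ) < (S.n : ℚ) - S.k := by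
      have : (S.k : ℚ) < S.n := by exact_mod_cast hk
      linarith
    have h5 : (0 : ℚ) < N := by exact_mod_cast hN
    rw [← neg_div, div_eq_div_iff h5.ne' h4.ne']
    linarith

theorem rho_mix (hN : 0 < N) (h : τ ∈ S.sh P N) (h' : τ' ∈ S.sh P N)
    (ht : cen τ = none) (ht' : cen τ' ≠ none) :
    S.rho P N τ τ' = - ((S.m : ℚ) / ((S.n : ℚ) - S.k)) := by
  have h1 := y_inf hN h ht
  have h2 := Rho_q hN h1.2
  have h3 := Rho_fin hN h' ht'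
  have h4 := ord_sub_of_lt h1.1 (ge_mono h3 (by omega))
  unfold rho
  rw [h4.2]
  exact h2.2

theorem rho_inf (hN : 0 < N) (h : τ ∈ S.sh P N) (h' : τ' ∈ S.sh P N)
    (ht : cen τ = none) (ht' : cen τ' = none) :
    - ((S.m : ℚ) / ((S.n : ℚ) - S.k)) ≤ S.rho P N τ τ' := by
  have h1 := y_inf hN h ht
  have h1' := y_inf hN h' ht'
  have h2 := Rho_q hN h1.2
  have h0 : (0 : ℤ) < ((S.n - S.k : ℕ) : ℤ) := by exact_mod_cast Nat.sub_pos_of_lt S.hkn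
  have h3 : (S.y P τ').order = (S.y P τ).order :=
    mul_left_cancel₀ h0.ne' (h1'.2.trans h1.2.symm)
  have h4 : Ge (S.y P τ) (S.y P τ).order := Rho_ge le_rfl
  have h5 : Ge (S.y P τ') (S.y P τ).order := Rho_ge h3.ge
  have h6 := Rho_order_ge (ge_sub h4 h5) h2.1.le
  rw [← h2.2]
  unfold rho
  have h7 : (0 : ℚ) < N := by exact_mod_cast hN
  exact div_le_div_of_nonneg_right (by exact_mod_cast h6) h7.le

theorem Rho_ultra (h23 : S.y P τ₂ - S.y P τ₃ ≠ 0) :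
    min (S.y P τ₁ - S.y P τ₂).order (S.y P τ₁ - S.y P τ₃).order ≤
      (S.y P τ₂ - S.y P τ₃).order := by
  have h1 : Ge (S.y P τ₁ - S.y P τ₂)
      (min (S.y P τ₁ - S.y P τ₂).order (S.y P τ₁ - S.y P τ₃).order) := Rho_ge (min_le_left _ _)
  have h2 : Ge (S.y P τ₁ - S.y P τ₃)
      (min (S.y P τ₁ - S.y P τ₂).order (S.y P τ₁ - S.y P τ₃).order) := Rho_ge (min_le_right _ _)
  have h3 := ge_sub h2 h1
  have h4 : S.y P τ₁ - S.y P τ₃ - (S.y P τ₁ - S.y P τ₂) = S.y P τ₂ - S.y P τ₃ := by ring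
  rw [h4] at h3
  exact (ge_iff h23).mp h3

/-- ultrametric inequality -/
theorem rho_ultra (hN : 0 < N) (h₁ : τ₁ ∈ S.sh P N) (h₂ : τ₂ ∈ S.sh P N) (h₃ : τ₃ ∈ S.sh P N)
    (h12 : τ₁ ≠ τ₂) (h13 : τ₁ ≠ τ₃) (h23 : τ₂ ≠ τ₃) :
    min (S.rho P N τ₁ τ₂) (S.rho P N τ₁ τ₃) ≤ S.rho P N τ₂ τ₃ := by
  have h1 := Rho_ultra (τ₁ := τ₁) (Y_ne hN h₂ h₃ h23)
  have h7 : (0 : ℚ) < N := by exact_mod_cast hN
  unfold rho
  rcases min_le_iff.mp h1 with h2 | h2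
  · exact (min_le_left _ _).trans (div_le_div_of_nonneg_right (by exact_mod_cast h2) h7.le)
  · exact (min_le_right _ _).trans (div_le_div_of_nonneg_right (by exact_mod_cast h2) h7.le)

/-- permutations of the triple order -/
theorem om_swap12 : S.om P N τ₂ τ₁ τ₃ = S.om P N τ₁ τ₂ τ₃ := by
  unfold om
  rw [S.W_swap12 P τ₁ τ₂ τ₃, neg_eq_zero, HahnSeries.order_neg, rho_symm (τ := τ₂) (τ' := τ₁)]
  split_ifs
  · ring
  · rfl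

theorem om_swap23 : S.om P N τ₁ τ₃ τ₂ = S.om P N τ₁ τ₂ τ₃ := by
  unfold om
  rw [S.W_swap23 P τ₁ τ₂ τ₃, neg_eq_zero, HahnSeries.order_neg, rho_symm (τ := τ₃) (τ' := τ₂)]
  split_ifs
  · ring
  · rfl

/-- the naive bound for the orders -/
theorem Rho_naive (hN : 0 < N) (h₁ : τ₁ ∈ S.sh P N) (h₂ : τ₂ ∈ S.sh P N) (h₃ : τ₃ ∈ S.sh P N)
    (hW : S.W P τ₁ τ₂ τ₃ ≠ 0) :
    (S.y P τ₁ - S.y P τ₂).order + (S.y P τ₁ - S.y P τ₃).order - N ≤ (S.W P τ₁ τ₂ τ₃).order := by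
  have h1 := Rho_nsW hN hW
  have h2 : Ge ((N : M) * sp N * S.W P τ₁ τ₂ τ₃)
      ((S.y P τ₂ - S.y P τ₁).order + (S.y P τ₃ - S.y P τ₁).order) := by
    rw [W_eul hN h₁ h₂ h₃]
    exact wr_ge (Rho_ge le_rfl) (Rho_ge le_rfl)
  have h3 := (ge_iff h1.1).mp h2
  rw [h1.2, Rho_sub_comm (S.y P τ₂), Rho_sub_comm (S.y P τ₃)] at h3
  linarith

theorem Rho_equal (hN : 0 < N) (h₁ : τ₁ ∈ S.sh P N) (h₂ : τ₂ ∈ S.sh P N) (h₃ : τ₃ ∈ S.sh P N)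
    (hW : S.W P τ₁ τ₂ τ₃ ≠ 0)
    (he : (S.y P τ₁ - S.y P τ₂).order = (S.y P τ₁ - S.y P τ₃).order) :
    2 * (S.y P τ₁ - S.y P τ₂).order + 1 - N ≤ (S.W P τ₁ τ₂ τ₃).order := by
  have h1 := Rho_nsW hN hW
  have h2 : Ge ((N : M) * sp N * S.W P τ₁ τ₂ τ₃) (2 * (S.y P τ₁ - S.y P τ₂).order + 1) := by
    rw [W_eul hN h₁ h₂ h₃]
    refine wr_ge_eq (Rho_ge ?_) (Rho_ge ?_)
    · rw [Rho_sub_comm]
    · rw [Rho_sub_comm (S.y P τ₃), he]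
  have h3 := (ge_iff h1.1).mp h2
  rw [h1.2] at h3
  linarith

theorem Rho_om (hW : S.W P τ₁ τ₂ τ₃ ≠ 0) :
    S.om P N τ₁ τ₂ τ₃ = ((S.W P τ₁ τ₂ τ₃).order : ℚ) / N := by
  unfold om
  rw [if_neg hW]

/-- the naive bound (`W_eul`, `wr_ge`) -/
theorem om_naive (hN : 0 < N) (h₁ : τ₁ ∈ S.sh P N) (h₂ : τ₂ ∈ S.sh P N) (h₃ : τ₃ ∈ S.sh P N)
    (h12 : τ₁ ≠ τ₂) (h13 : τ₁ ≠ τ₃) (h23 : τ₂ ≠ τ₃) (hW : S.W P τ₁ τ₂ τ₃ ≠ 0) :
    S.rho P N τ₁ τ₂ + S.rho P N τ₁ τ₃ - 1 ≤ S.om P N τ₁ τ₂ τ₃ := by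
  have h1 := Rho_naive hN h₁ h₂ h₃ hW
  have h7 : (0 : ℚ) < N := by exact_mod_cast hN
  rw [Rho_om hW]
  unfold rho
  rw [← add_div, div_sub_one h7.ne']
  refine div_le_div_of_nonneg_right ?_ h7.le
  exact_mod_cast h1

/-- equal orders (`wr_ge_eq`) -/
theorem om_eq (hN : 0 < N) (h₁ : τ₁ ∈ S.sh P N) (h₂ : τ₂ ∈ S.sh P N) (h₃ : τ₃ ∈ S.sh P N)
    (h12 : τ₁ ≠ τ₂) (h13 : τ₁ ≠ τ₃) (h23 : τ₂ ≠ τ₃) (hW : S.W P τ₁ τ₂ τ₃ ≠ 0)
    (he : S.rho P N τ₁ τ₂ = S.rho P N τ₁ τ₃) :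
    2 * S.rho P N τ₁ τ₂ - 1 + 1 / (N : ℚ) ≤ S.om P N τ₁ τ₂ τ₃ := by
  have h7 : (0 : ℚ) < N := by exact_mod_cast hN
  have he' : (S.y P τ₁ - S.y P τ₂).order = (S.y P τ₁ - S.y P τ₃).order := by
    unfold rho at he
    rw [div_left_inj' h7.ne'] at he
    exact_mod_cast he
  have h1 := Rho_equal hN h₁ h₂ h₃ hW he'
  rw [Rho_om hW]
  unfold rho
  have h2 : 2 * (((S.y P τ₁ - S.y P τ₂).order : ℚ) / N) - 1 + 1 / (N : ℚ) =
      (2 * ((S.y P τ₁ - S.y P τ₂).order : ℚ) + 1 - N) / N := by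
    field_simp
    ring
  rw [h2]
  refine div_le_div_of_nonneg_right ?_ h7.le
  exact_mod_cast h1

/-- Integrality: all orders are integers divided by `N`. Two of the three pair orders are equal and the
third is not smaller: if it is equal use `om_eq`, otherwise it is larger by at least `1/N` and the naive
bound with the largest and one other pair suffices (`om_swap12`, `om_swap23`). -/
theorem om_int (hN : 0 < N) (h₁ : τ₁ ∈ S.sh P N) (h₂ : τ₂ ∈ S.sh P N) (h₃ : τ₃ ∈ S.sh P N)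
    (h12 : τ₁ ≠ τ₂) (h13 : τ₁ ≠ τ₃) (h23 : τ₂ ≠ τ₃) (hW : S.W P τ₁ τ₂ τ₃ ≠ 0) :
    2 / 3 * (S.rho P N τ₁ τ₂ + S.rho P N τ₁ τ₃ + S.rho P N τ₂ τ₃) - 1 + 1 / (3 * (N : ℚ)) ≤
      S.om P N τ₁ τ₂ τ₃ := by
  have h7 : (0 : ℚ) < N := by exact_mod_cast hN
  have hW2 : S.W P τ₂ τ₁ τ₃ ≠ 0 := by
    rw [S.W_swap12 P τ₁ τ₂ τ₃]
    exact neg_ne_zero.mpr hW
  have hW3 : S.W P τ₃ τ₁ τ₂ ≠ 0 := by
    rw [S.W_swap12 P τ₁ τ₃ τ₂, S.W_swap23 P τ₁ τ₂ τ₃, neg_neg]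
    exact hW
  have e2 : (S.W P τ₂ τ₁ τ₃).order = (S.W P τ₁ τ₂ τ₃).order := by
    rw [S.W_swap12 P τ₁ τ₂ τ₃, HahnSeries.order_neg]
  have e3 : (S.W P τ₃ τ₁ τ₂).order = (S.W P τ₁ τ₂ τ₃).order := by
    rw [S.W_swap12 P τ₁ τ₃ τ₂, S.W_swap23 P τ₁ τ₂ τ₃, neg_neg]
  have a1 := Rho_naive hN h₁ h₂ h₃ hW
  have a2 := Rho_naive hN h₂ h₁ h₃ hW2
  have a3 := Rho_naive hN h₃ h₁ h₂ hW3
  have b1 := Rho_equal hN h₁ h₂ h₃ hW
  have u1 := Rho_ultra (τ₁ := τ₁) (Y_ne hN h₂ h₃ h23)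
  have u2 := Rho_ultra (τ₁ := τ₂) (Y_ne hN h₁ h₃ h13)
  have u3 := Rho_ultra (τ₁ := τ₃) (Y_ne hN h₁ h₂ h12)
  rw [e2, Rho_sub_comm (S.y P τ₂) (S.y P τ₁)] at a2
  rw [e3, Rho_sub_comm (S.y P τ₃) (S.y P τ₁), Rho_sub_comm (S.y P τ₃) (S.y P τ₂)] at a3
  rw [Rho_sub_comm (S.y P τ₂) (S.y P τ₁)] at u2
  rw [Rho_sub_comm (S.y P τ₃) (S.y P τ₁), Rho_sub_comm (S.y P τ₃) (S.y P τ₂)] at u3
  have key : 2 * ((S.y P τ₁ - S.y P τ₂).order + (S.y P τ₁ - S.y P τ₃).order +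
      (S.y P τ₂ - S.y P τ₃).order) - 3 * N + 1 ≤ 3 * (S.W P τ₁ τ₂ τ₃).order := by
    generalize (S.y P τ₁ - S.y P τ₂).order = o12 at *
    generalize (S.y P τ₁ - S.y P τ₃).order = o13 at *
    generalize (S.y P τ₂ - S.y P τ₃).order = o23 at *
    generalize (S.W P τ₁ τ₂ τ₃).order = w at *
    omega
  rw [Rho_om hW]
  unfold rho
  have h2 : 2 / 3 * (((S.y P τ₁ - S.y P τ₂).order : ℚ) / N +
      ((S.y P τ₁ - S.y P τ₃).order : ℚ) / N + ((S.y P τ₂ - S.y P τ₃).order : ℚ) / N) - 1 +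
      1 / (3 * (N : ℚ)) = (2 * (((S.y P τ₁ - S.y P τ₂).order : ℚ) +
      ((S.y P τ₁ - S.y P τ₃).order : ℚ) + ((S.y P τ₂ - S.y P τ₃).order : ℚ)) - 3 * N + 1) / 3 / N := by
    field_simp
  rw [h2]
  refine div_le_div_of_nonneg_right ?_ h7.le
  rw [div_le_iff₀ (by norm_num)]
  have h3 : (2 * (((S.y P τ₁ - S.y P τ₂).order : ℚ) +
      ((S.y P τ₁ - S.y P τ₃).order : ℚ) + ((S.y P τ₂ - S.y P τ₃).order : ℚ)) - 3 * N + 1) ≤
      3 * ((S.W P τ₁ τ₂ τ₃).order : ℚ) := by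
    exact_mod_cast key
  linarith

/-- collinear triples: `W_eul`, `wr_zero`: the differences are proportional, all pair orders are equal -/
theorem om_col (hN : 0 < N) (h₁ : τ₁ ∈ S.sh P N) (h₂ : τ₂ ∈ S.sh P N) (h₃ : τ₃ ∈ S.sh P N)
    (h12 : τ₁ ≠ τ₂) (h13 : τ₁ ≠ τ₃) (h23 : τ₂ ≠ τ₃) (hW : S.W P τ₁ τ₂ τ₃ = 0) :
    S.rho P N τ₁ τ₂ = S.rho P N τ₁ τ₃ ∧ S.rho P N τ₁ τ₂ = S.rho P N τ₂ τ₃ ∧
      S.om P N τ₁ τ₂ τ₃ = 2 * S.rho P N τ₁ τ₂ := by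
  have h0 := W_eul hN h₁ h₂ h₃
  rw [hW, mul_zero] at h0
  have n21 := Y_ne hN h₂ h₁ h12.symm
  have n31 := Y_ne hN h₃ h₁ h13.symm
  have n32 := Y_ne hN h₃ h₂ h23.symm
  obtain ⟨c, hc⟩ := wr_zero n21 h0.symm
  have hc0 : c ≠ 0 := by
    rintro rfl
    rw [map_zero, zero_mul] at hc
    exact n31 hc
  have hc1 : c - 1 ≠ 0 := by
    intro h
    have h' : c = 1 := by linear_combination h
    rw [h', map_one, one_mul] at hc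
    apply n32
    linear_combination hc
  have e32 : S.y P τ₃ - S.y P τ₂ = algebraMap ℂ M (c - 1) * (S.y P τ₂ - S.y P τ₁) := by
    rw [map_sub, map_one]
    linear_combination hc
  have o31 : (S.y P τ₃ - S.y P τ₁).order = (S.y P τ₂ - S.y P τ₁).order := by
    rw [hc, ord_mul (Rho_const hc0).1 n21, (Rho_const hc0).2, zero_add]
  have o32 : (S.y P τ₃ - S.y P τ₂).order = (S.y P τ₂ - S.y P τ₁).order := by
    rw [e32, ord_mul (Rho_const hc1).1 n21, (Rho_const hc1).2, zero_add]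
  have r1 : S.rho P N τ₁ τ₂ = S.rho P N τ₁ τ₃ := by
    unfold rho
    rw [Rho_sub_comm (S.y P τ₁) (S.y P τ₂), Rho_sub_comm (S.y P τ₁) (S.y P τ₃), o31]
  have r2 : S.rho P N τ₁ τ₂ = S.rho P N τ₂ τ₃ := by
    unfold rho
    rw [Rho_sub_comm (S.y P τ₁) (S.y P τ₂), Rho_sub_comm (S.y P τ₂) (S.y P τ₃), o32]
  refine ⟨r1, r2, ?_⟩
  unfold om
  rw [if_pos hW, ← r1, ← r2]
  ring

/-- three finite centres: `g` has order at least `h - N`, normalized `-(1 - 1/e)`, and the `y` have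
nonnegative orders -/
theorem om_fin (hN : 0 < N) (h₁ : τ₁ ∈ S.sh P N) (h₂ : τ₂ ∈ S.sh P N) (h₃ : τ₃ ∈ S.sh P N)
    {t₁ t₂ t₃ : ℂ} (c₁ : cen τ₁ = some t₁) (c₂ : cen τ₂ = some t₂) (c₃ : cen τ₃ = some t₃)
    (hW : S.W P τ₁ τ₂ τ₃ ≠ 0) :
    -((1 - 1 / (S.e P t₁ : ℚ)) + (1 - 1 / (S.e P t₂ : ℚ)) + (1 - 1 / (S.e P t₃ : ℚ))) ≤
      S.om P N τ₁ τ₂ τ₃ := by
  have h7 : (0 : ℚ) < N := by exact_mod_cast hN
  have key : ∀ {τ : M} {t : ℂ}, τ ∈ S.sh P N → cen τ = some t →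
      ∃ h : ℤ, h ≤ N ∧ Ge (S.g P τ) (h - N) ∧ ((h - N : ℤ) : ℚ) / N = -(1 - 1 / (S.e P t : ℚ)) := by
    intro τ t hτ ct
    obtain ⟨-, -, h, hpos, hNh, -⟩ := loc_fin hN hτ ct
    have he : 0 < S.e P t := by
      rcases Nat.eq_zero_or_pos (S.e P t) with h0 | h0
      · rw [h0, zero_mul] at hNh
        omega
      · exact h0
    refine ⟨h, ?_, g_fin hN hτ ct hNh, ?_⟩
    · have : h ≤ N := by
        rw [hNh]
        exact Nat.le_mul_of_pos_left h he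
      exact_mod_cast this
    · have e0 : (0 : ℚ) < S.e P t := by exact_mod_cast he
      have e1 : (N : ℚ) = S.e P t * h := by exact_mod_cast hNh
      have e2 : (0 : ℚ) < h := by exact_mod_cast hpos
      push_cast
      rw [e1]
      field_simp
      ring
  obtain ⟨a1, b1, g1, r1⟩ := key h₁ c₁
  obtain ⟨a2, b2, g2, r2⟩ := key h₂ c₂
  obtain ⟨a3, b3, g3, r3⟩ := key h₃ c₃
  obtain ⟨R, hR⟩ : ∃ R : ℤ, R = (a1 - N) + (a2 - N) + (a3 - N) := ⟨_, rfl⟩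
  have g1' := ge_mono g1 (show R ≤ _ by omega)
  have g2' := ge_mono g2 (show R ≤ _ by omega)
  have g3' := ge_mono g3 (show R ≤ _ by omega)
  have y1 := (y_fin hN h₁ c₁).1
  have y2 := (y_fin hN h₂ c₂).1
  have y3 := (y_fin hN h₃ c₃).1
  have hG : Ge (S.W P τ₁ τ₂ τ₃) R := by
    unfold W
    have p1 := ge_mul (ge_sub y2 y1) (ge_sub g3' g1')
    have p2 := ge_mul (ge_sub y3 y1) (ge_sub g2' g1')
    rw [zero_add] at p1 p2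
    exact ge_sub p1 p2
  have hO := (ge_iff hW).mp hG
  rw [Rho_om hW]
  have h8 : -((1 - 1 / (S.e P t₁ : ℚ)) + (1 - 1 / (S.e P t₂ : ℚ)) + (1 - 1 / (S.e P t₃ : ℚ))) =
      (R : ℚ) / N := by
    rw [hR]
    push_cast at r1 r2 r3 ⊢
    rw [add_div, add_div, r1, r2, r3]
    ring
  rw [h8]
  exact div_le_div_of_nonneg_right (by exact_mod_cast hO) h7.le

end Cur

end WR
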