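import Pool.Agent.helper51.WR.Comb
import Pool.Agent.helper51.WR.Rho
import Pool.Agent.helper51.WR.RH

/-!
# WR-PlF: the inequalities F1, F2 at a place

Pointwise: let `i, j, l` be three sheets with finite centres, `ep = 1 - 1/e` of the centre.
Collinear (`om_col`): `om = 2/3 sigma`; if exactly two centres agree, all three `rho` are `0`, the gain is `0`.
Not collinear: (a) different centres: all `rho = 0`, `om_fin`. (b) exactly two centres agree (`j`, `l`):
`rho i j = rho i l = 0`, `om ≥ rho j l + 0 - 1` (`om_naive` after a permutation), `ep j + ep l ≥ 1` because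
`e ≥ 2` (two sheets in one class, `card_cen`). (c) the three centres agree: naive bound with the two
largest `rho` (at least `2/3` of the sum), `3 (1 - 1/e) ≥ 1`.
F2, F2int: `om_naive`/`om_int` with `F2_abs`, `cl` = collinear.
-/

namespace WR

open Polynomial

namespace Cur

variable {S : Cur}

/-- the three naive bounds -/
theorem PlF_naive {P : Option ℂ} {N : ℕ} (hN : 0 < N) {i j l : M} (hi : i ∈ S.sh P N)
    (hj : j ∈ S.sh P N) (hl : l ∈ S.sh P N) (hij : i ≠ j) (hil : i ≠ l) (hjl : j ≠ l)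
    (hW : S.W P i j l ≠ 0) :
    S.rho P N i j + S.rho P N i l - 1 ≤ S.om P N i j l ∧
    S.rho P N i j + S.rho P N j l - 1 ≤ S.om P N i j l ∧
    S.rho P N i l + S.rho P N j l - 1 ≤ S.om P N i j l := by
  have hW2 : S.W P j i l ≠ 0 := by
    rw [S.W_swap12 P i j l]
    exact neg_ne_zero.2 hW
  have hW3 : S.W P i l j ≠ 0 := by
    rw [S.W_swap23 P i j l]
    exact neg_ne_zero.2 hW
  have hW4 : S.W P l i j ≠ 0 := by
    rw [S.W_swap12 P i l j]
    exact neg_ne_zero.2 hW3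
  have h1 := om_naive hN hi hj hl hij hil hjl hW
  have h2 := om_naive hN hj hi hl hij.symm hjl hil hW2
  have h3 := om_naive hN hl hi hj hil.symm hjl.symm hij hW4
  have e2 : S.om P N j i l = S.om P N i j l := om_swap12
  have e3 : S.om P N l i j = S.om P N i l j := om_swap12
  have e4 : S.om P N i l j = S.om P N i j l := om_swap23
  have s1 : S.rho P N j i = S.rho P N i j := rho_symm
  have s2 : S.rho P N l i = S.rho P N i l := rho_symm
  have s3 : S.rho P N l j = S.rho P N j l := rho_symm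
  rw [e2, s1] at h2
  rw [e3, e4, s2, s3] at h3
  exact ⟨h1, h2, h3⟩

/-- the cost of a sheet -/
noncomputable def PlF_ep (S : Cur) (P : Option ℂ) (τ : M) : ℚ :=
  1 - 1 / (S.e P ((cen τ).getD 0) : ℚ)

theorem PlF_cost {r : ℕ} (h : 1 ≤ r) : 0 ≤ 1 - 1 / (r : ℚ) := by
  have h1 : (1 : ℚ) ≤ (r : ℚ) := by exact_mod_cast h
  have h2 : 1 / (r : ℚ) ≤ 1 := by
    rw [div_le_one (by linarith)]
    exact h1
  linarith

theorem PlF_cost2 {r : ℕ} (h : 2 ≤ r) : 1 / 2 ≤ 1 - 1 / (r : ℚ) := by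
  have h1 : (2 : ℚ) ≤ (r : ℚ) := by exact_mod_cast h
  have h2 : 1 / (r : ℚ) ≤ 1 / 2 := by
    rw [div_le_div_iff₀ (by linarith) (by norm_num)]
    linarith
  linarith

theorem PlF_ep_nonneg (S : Cur) (P : Option ℂ) (τ : M) : 0 ≤ S.PlF_ep P τ := by
  unfold PlF_ep
  rcases Nat.eq_zero_or_pos (S.e P ((cen τ).getD 0)) with h | h
  · rw [h]
    norm_num
  · exact PlF_cost h

/-- two different sheets with the same centre: the cost is at least `1/2` -/
theorem PlF_two {P : Option ℂ} {N : ℕ} (hN : S.Adm P N) {i j : M} (hi : i ∈ S.sh P N)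
    (hj : j ∈ S.sh P N) (hij : i ≠ j) (hc : cen i = cen j) (hn : cen i ≠ none) :
    1 / 2 ≤ S.PlF_ep P i := by
  classical
  obtain ⟨t, ht⟩ := Option.ne_none_iff_exists'.1 hn
  have h1 := S.card_cen P hN t
  have h2 : 1 < ((S.sh P N).filter (fun τ => cen τ = some t)).card := by
    rw [Finset.one_lt_card]
    refine ⟨i, Finset.mem_filter.2 ⟨hi, ht⟩, j, Finset.mem_filter.2 ⟨hj, ?_⟩, hij⟩
    rw [← hc]
    exact ht
  unfold PlF_ep
  rw [ht]
  apply PlF_cost2
  change 2 ≤ S.e P t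
  have h3 : ((S.sh P N).filter (fun τ => cen τ = some t)).card = S.e P t := by
    convert h1
  omega

/-- the pointwise inequality for three sheets with finite centres -/
theorem pw_fin {P : Option ℂ} {N : ℕ} (hN : S.Adm P N) {τ₁ τ₂ τ₃ : M} (h₁ : τ₁ ∈ S.sh P N)
    (h₂ : τ₂ ∈ S.sh P N) (h₃ : τ₃ ∈ S.sh P N) (h12 : τ₁ ≠ τ₂) (h13 : τ₁ ≠ τ₃) (h23 : τ₂ ≠ τ₃)
    (c₁ : cen τ₁ ≠ none) (c₂ : cen τ₂ ≠ none) (c₃ : cen τ₃ ≠ none) :
    2 / 3 * (S.rho P N τ₁ τ₂ + S.rho P N τ₁ τ₃ + S.rho P N τ₂ τ₃)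
      - ((1 - 1 / (S.e P ((cen τ₁).getD 0) : ℚ)) + (1 - 1 / (S.e P ((cen τ₂).getD 0) : ℚ))
        + (1 - 1 / (S.e P ((cen τ₃).getD 0) : ℚ)))
      + 1 / 3 * (gn cen (S.rho P N) τ₁ τ₂ τ₃ + gn cen (S.rho P N) τ₂ τ₁ τ₃
        + gn cen (S.rho P N) τ₃ τ₁ τ₂) ≤ S.om P N τ₁ τ₂ τ₃ := by
  change 2 / 3 * (S.rho P N τ₁ τ₂ + S.rho P N τ₁ τ₃ + S.rho P N τ₂ τ₃)
      - (S.PlF_ep P τ₁ + S.PlF_ep P τ₂ + S.PlF_ep P τ₃)
      + 1 / 3 * (gn cen (S.rho P N) τ₁ τ₂ τ₃ + gn cen (S.rho P N) τ₂ τ₁ τ₃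
        + gn cen (S.rho P N) τ₃ τ₁ τ₂) ≤ S.om P N τ₁ τ₂ τ₃
  have hN0 : 0 < N := hN.1
  have n1 := S.PlF_ep_nonneg P τ₁
  have n2 := S.PlF_ep_nonneg P τ₂
  have n3 := S.PlF_ep_nonneg P τ₃
  have diff : ∀ {x y : M}, x ∈ S.sh P N → y ∈ S.sh P N → cen x ≠ none → cen y ≠ none →
      cen x ≠ cen y → S.rho P N x y = 0 := by
    intro x y hx hy hcx hcy hne
    obtain ⟨t, ht⟩ := Option.ne_none_iff_exists'.1 hcx
    obtain ⟨t', ht'⟩ := Option.ne_none_iff_exists'.1 hcy
    refine rho_diff hN0 hx hy ht ht' ?_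
    rintro rfl
    exact hne (ht.trans ht'.symm)
  by_cases hW : S.W P τ₁ τ₂ τ₃ = 0
  · -- collinear
    obtain ⟨g1, g2, g3⟩ := om_col hN0 h₁ h₂ h₃ h12 h13 h23 hW
    have z1 : gn cen (S.rho P N) τ₁ τ₂ τ₃ = 0 := by
      unfold gn
      split_ifs with h
      · have := diff h₁ h₂ c₁ c₂ h.2
        linarith
      · rfl
    have z2 : gn cen (S.rho P N) τ₂ τ₁ τ₃ = 0 := by
      unfold gn
      split_ifs with h
      · have := diff h₁ h₂ c₁ c₂ (Ne.symm h.2)
        linarith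
      · rfl
    have z3 : gn cen (S.rho P N) τ₃ τ₁ τ₂ = 0 := by
      unfold gn
      split_ifs with h
      · have := diff h₁ h₃ c₁ c₃ (Ne.symm h.2)
        linarith
      · rfl
    rw [z1, z2, z3]
    linarith
  · obtain ⟨b1, b2, b3⟩ := PlF_naive hN0 h₁ h₂ h₃ h12 h13 h23 hW
    by_cases e12 : cen τ₁ = cen τ₂
    · by_cases e13 : cen τ₁ = cen τ₃
      · -- all centres agree
        have e23 : cen τ₂ = cen τ₃ := e12.symm.trans e13
        have k1 := PlF_two hN h₁ h₂ h12 e12 c₁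
        have k2 := PlF_two hN h₂ h₃ h23 e23 c₂
        have z1 : gn cen (S.rho P N) τ₁ τ₂ τ₃ = 0 := by
          unfold gn
          rw [if_neg]
          exact fun h => h.2 e12
        have z2 : gn cen (S.rho P N) τ₂ τ₁ τ₃ = 0 := by
          unfold gn
          rw [if_neg]
          exact fun h => h.2 e12.symm
        have z3 : gn cen (S.rho P N) τ₃ τ₁ τ₂ = 0 := by
          unfold gn
          rw [if_neg]
          exact fun h => h.2 e13.symm
        rw [z1, z2, z3]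
        linarith
      · -- `1`, `2` agree
        have e23 : cen τ₂ ≠ cen τ₃ := fun h => e13 (e12.trans h)
        have r13 := diff h₁ h₃ c₁ c₃ e13
        have r23 := diff h₂ h₃ c₂ c₃ e23
        have k1 := PlF_two hN h₁ h₂ h12 e12 c₁
        have k2 := PlF_two hN h₂ h₁ h12.symm e12.symm c₂
        have z1 : gn cen (S.rho P N) τ₁ τ₂ τ₃ = 0 := by
          unfold gn
          rw [if_neg]
          exact fun h => e23 h.1
        have z2 : gn cen (S.rho P N) τ₂ τ₁ τ₃ = 0 := by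
          unfold gn
          rw [if_neg]
          exact fun h => e13 h.1
        have z3 : gn cen (S.rho P N) τ₃ τ₁ τ₂ = S.rho P N τ₁ τ₂ := by
          unfold gn
          rw [if_pos]
          exact ⟨e12, fun h => e13 h.symm⟩
        rw [z1, z2, z3]
        linarith
    · by_cases e13 : cen τ₁ = cen τ₃
      · -- `1`, `3` agree
        have e23 : cen τ₂ ≠ cen τ₃ := fun h => e12 (e13.trans h.symm)
        have r12 := diff h₁ h₂ c₁ c₂ e12
        have r23 := diff h₂ h₃ c₂ c₃ e23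
        have k1 := PlF_two hN h₁ h₃ h13 e13 c₁
        have k2 := PlF_two hN h₃ h₁ h13.symm e13.symm c₃
        have z1 : gn cen (S.rho P N) τ₁ τ₂ τ₃ = 0 := by
          unfold gn
          rw [if_neg]
          exact fun h => e23 h.1
        have z2 : gn cen (S.rho P N) τ₂ τ₁ τ₃ = S.rho P N τ₁ τ₃ := by
          unfold gn
          rw [if_pos]
          exact ⟨e13, fun h => e12 h.symm⟩
        have z3 : gn cen (S.rho P N) τ₃ τ₁ τ₂ = 0 := by
          unfold gn
          rw [if_neg]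
          exact fun h => e12 h.1
        rw [z1, z2, z3]
        linarith
      · have r12 := diff h₁ h₂ c₁ c₂ e12
        have r13 := diff h₁ h₃ c₁ c₃ e13
        have z2 : gn cen (S.rho P N) τ₂ τ₁ τ₃ = 0 := by
          unfold gn
          rw [if_neg]
          exact fun h => e13 h.1
        have z3 : gn cen (S.rho P N) τ₃ τ₁ τ₂ = 0 := by
          unfold gn
          rw [if_neg]
          exact fun h => e12 h.1
        by_cases e23 : cen τ₂ = cen τ₃
        · have k1 := PlF_two hN h₂ h₃ h23 e23 c₂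
          have k2 := PlF_two hN h₃ h₂ h23.symm e23.symm c₃
          have z1 : gn cen (S.rho P N) τ₁ τ₂ τ₃ = S.rho P N τ₂ τ₃ := by
            unfold gn
            rw [if_pos]
            exact ⟨e23, e12⟩
          rw [z1, z2, z3]
          linarith
        · have r23 := diff h₂ h₃ c₂ c₃ e23
          have z1 : gn cen (S.rho P N) τ₁ τ₂ τ₃ = 0 := by
            unfold gn
            rw [if_neg]
            exact fun h => e23 h.1
          obtain ⟨t₁, ht₁⟩ := Option.ne_none_iff_exists'.1 c₁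
          obtain ⟨t₂, ht₂⟩ := Option.ne_none_iff_exists'.1 c₂
          obtain ⟨t₃, ht₃⟩ := Option.ne_none_iff_exists'.1 c₃
          have hf := om_fin hN0 h₁ h₂ h₃ ht₁ ht₂ ht₃ hW
          have q1 : S.PlF_ep P τ₁ = 1 - 1 / (S.e P t₁ : ℚ) := by
            unfold PlF_ep
            rw [ht₁]
            rfl
          have q2 : S.PlF_ep P τ₂ = 1 - 1 / (S.e P t₂ : ℚ) := by
            unfold PlF_ep
            rw [ht₂]
            rfl
          have q3 : S.PlF_ep P τ₃ = 1 - 1 / (S.e P t₃ : ℚ) := by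
            unfold PlF_ep
            rw [ht₃]
            rfl
          rw [z1, z2, z3, q1, q2, q3, r12, r13, r23]
          linarith

theorem PlF_mem_tri {A : Type} {R : Finset A} {p : A × A × A} (hp : p ∈ tri R) :
    p.1 ∈ R ∧ p.2.1 ∈ R ∧ p.2.2 ∈ R ∧ p.1 ≠ p.2.1 ∧ p.1 ≠ p.2.2 ∧ p.2.1 ≠ p.2.2 := by
  classical
  unfold tri at hp
  rw [Finset.mem_filter, Finset.mem_product, Finset.mem_product] at hp
  exact ⟨hp.1.1, hp.1.2.1, hp.1.2.2, hp.2.1, hp.2.2.1, hp.2.2.2⟩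

theorem PlF_mem_prs {A : Type} {R : Finset A} {p : A × A} (hp : p ∈ prs R) :
    p.1 ∈ R ∧ p.2 ∈ R ∧ p.1 ≠ p.2 := by
  classical
  unfold prs at hp
  rw [Finset.mem_filter, Finset.mem_product] at hp
  exact ⟨hp.1.1, hp.1.2, hp.2⟩

/-- at a finite place all centres are finite -/
theorem PlF_cen {v : ℂ} {N : ℕ} (hN : S.Adm (some v) N) {τ : M} (h : τ ∈ S.sh (some v) N) :
    cen τ ≠ none := by
  intro hc
  have := (loc_inf hN.1 h hc).1
  exact absurd this (by simp)

theorem PlF_sum {v : ℂ} {N : ℕ} (hN : S.Adm (some v) N) :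
    ∑ τ ∈ S.sh (some v) N, S.PlF_ep (some v) τ = S.Ram (some v) := by
  classical
  have h := S.sum_ep (some v) hN
  rw [← h]
  unfold PlF_ep
  refine Finset.sum_congr ?_ (fun _ _ => rfl)
  ext τ
  simp only [Finset.mem_filter]
  exact ⟨fun h' => ⟨h', PlF_cen hN h'⟩, fun h' => h'.1⟩

theorem F1a {v : ℂ} {N : ℕ} (hN : S.Adm (some v) N) (hlt : ∀ t, S.e (some v) t < S.n) :
    (2 * ((S.n : ℚ) - 2) + 1) * S.S2 (some v) N
      - 3 * ((S.n : ℚ) - 1) * ((S.n : ℚ) - 2) * S.Ram (some v) ≤ S.S3 (some v) N := by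
  classical
  have hn : (S.sh (some v) N).card = S.n := S.sh_card (some v) hN
  have key := F1a_abs (S.sh (some v) N) cen (S.rho (some v) N) (fun i j => rho_symm)
    (S.om (some v) N) (S.PlF_ep (some v))
    (by
      intro p hp
      obtain ⟨a1, a2, a3, a4, a5, a6⟩ := PlF_mem_tri hp
      exact pw_fin hN a1 a2 a3 a4 a5 a6 (PlF_cen hN a1) (PlF_cen hN a2) (PlF_cen hN a3))
    (by
      intro p hp hne
      obtain ⟨a1, a2, a3⟩ := PlF_mem_prs hp
      obtain ⟨t, ht⟩ := Option.ne_none_iff_exists'.1 (PlF_cen hN a1)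
      obtain ⟨t', ht'⟩ := Option.ne_none_iff_exists'.1 (PlF_cen hN a2)
      refine rho_diff hN.1 a1 a2 ht ht' ?_
      rintro rfl
      exact hne (ht.trans ht'.symm))
    (by
      intro p hp
      obtain ⟨a1, a2, a3⟩ := PlF_mem_prs hp
      exact rho_nonneg hN.1 a1 a2 (PlF_cen hN a1) (PlF_cen hN a2))
    (by
      intro i hi
      obtain ⟨t, ht⟩ := Option.ne_none_iff_exists'.1 (PlF_cen hN hi)
      have h1 := S.card_cen (some v) hN t
      have h2 := hlt t
      rw [hn, ht]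
      have h3 : ((S.sh (some v) N).filter (fun τ => cen τ = some t)).card = S.e (some v) t := by
        convert h1
      omega)
  rw [hn, PlF_sum hN] at key
  exact key

theorem F1b {v : ℂ} {N : ℕ} (hN : S.Adm (some v) N) :
    2 * ((S.n : ℚ) - 2) * S.S2 (some v) N
      - 3 * ((S.n : ℚ) - 1) * ((S.n : ℚ) - 2) * S.Ram (some v) ≤ S.S3 (some v) N := by
  classical
  have hn : (S.sh (some v) N).card = S.n := S.sh_card (some v) hN
  have key := F1b_abs (S.sh (some v) N) cen (S.rho (some v) N) (fun i j => rho_symm)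
    (S.om (some v) N) (S.PlF_ep (some v))
    (by
      intro p hp
      obtain ⟨a1, a2, a3, a4, a5, a6⟩ := PlF_mem_tri hp
      exact pw_fin hN a1 a2 a3 a4 a5 a6 (PlF_cen hN a1) (PlF_cen hN a2) (PlF_cen hN a3))
    (by
      intro p hp
      obtain ⟨a1, a2, a3⟩ := PlF_mem_prs hp
      exact rho_nonneg hN.1 a1 a2 (PlF_cen hN a1) (PlF_cen hN a2))
  rw [hn, PlF_sum hN] at key
  exact key

open Classical in
/-- number of noncollinear triples -/
theorem PlF_ncol {P : Option ℂ} {N : ℕ} (hN : S.Adm P N) :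
    (((tri (S.sh P N)).filter (fun p => ¬ (S.W P p.1 p.2.1 p.2.2 = 0))).card : ℚ) =
      (S.n : ℚ) * (S.n - 1) * (S.n - 2) - S.col P N := by
  classical
  have hn : (S.sh P N).card = S.n := S.sh_card P hN
  have h1 := Finset.card_filter_add_card_filter_not (s := tri (S.sh P N))
    (fun p => S.W P p.1 p.2.1 p.2.2 = 0)
  have h2 : S.col P N = ((tri (S.sh P N)).filter
    (fun p => S.W P p.1 p.2.1 p.2.2 = 0)).card := by
    unfold col
    congr
  have h3 := card_tri (S.sh P N)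
  rw [hn] at h3
  have h4 : (((tri (S.sh P N)).filter (fun p => S.W P p.1 p.2.1 p.2.2 = 0)).card : ℚ) +
    (((tri (S.sh P N)).filter
    (fun p => ¬ (S.W P p.1 p.2.1 p.2.2 = 0))).card : ℚ) = ((tri (S.sh P N)).card : ℚ) := by
    exact_mod_cast h1
  rw [h2]
  linarith

theorem PlF_F2 {P : Option ℂ} {N : ℕ} (hN : S.Adm P N) (κ : ℚ)
    (h : ∀ i j l : M, i ∈ S.sh P N → j ∈ S.sh P N → l ∈ S.sh P N → i ≠ j → i ≠ l → j ≠ l →
      S.W P i j l ≠ 0 →
      2 / 3 * (S.rho P N i j + S.rho P N i l + S.rho P N j l) - κ ≤ S.om P N i j l) :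
    2 * ((S.n : ℚ) - 2) * S.S2 P N
      - κ * ((S.n : ℚ) * (S.n - 1) * (S.n - 2) - S.col P N) ≤ S.S3 P N := by
  classical
  have hn : (S.sh P N).card = S.n := S.sh_card P hN
  have key := F2_abs (S.sh P N) (S.rho P N) (fun i j => rho_symm) (S.om P N)
    (fun x y z => S.W P x y z = 0) κ
    (by
      intro p hp hc
      obtain ⟨a1, a2, a3, a4, a5, a6⟩ := PlF_mem_tri hp
      obtain ⟨g1, g2, g3⟩ := om_col hN.1 a1 a2 a3 a4 a5 a6 hc
      linarith)
    (by
      intro p hp hc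
      obtain ⟨a1, a2, a3, a4, a5, a6⟩ := PlF_mem_tri hp
      exact h _ _ _ a1 a2 a3 a4 a5 a6 hc)
  have hc := PlF_ncol hN
  have hc' : (((tri (S.sh P N)).filter (fun p => ¬ (S.W P p.1 p.2.1 p.2.2 = 0))).card : ℚ) =
      (S.n : ℚ) * (S.n - 1) * (S.n - 2) - S.col P N := by
    convert hc
  rw [← hc', ← hn]
  change 2 * (((S.sh P N).card : ℚ) - 2) * sum2 (S.sh P N) (S.rho P N) - _ ≤
    sum3 (S.sh P N) (S.om P N)
  convert key

theorem F2 {P : Option ℂ} {N : ℕ} (hN : S.Adm P N) :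
    2 * ((S.n : ℚ) - 2) * S.S2 P N
      - ((S.n : ℚ) * (S.n - 1) * (S.n - 2) - S.col P N) ≤ S.S3 P N := by
  have h := PlF_F2 hN 1 (by
    intro i j l hi hj hl hij hil hjl hW
    obtain ⟨b1, b2, b3⟩ := PlF_naive hN.1 hi hj hl hij hil hjl hW
    linarith)
  linarith

theorem F2int {P : Option ℂ} {N : ℕ} (hN : S.Adm P N) :
    2 * ((S.n : ℚ) - 2) * S.S2 P N
      - (1 - 1 / (3 * (N : ℚ))) * ((S.n : ℚ) * (S.n - 1) * (S.n - 2) - S.col P N) ≤
        S.S3 P N := by
  refine PlF_F2 hN _ ?_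
  intro i j l hi hj hl hij hil hjl hW
  have := om_int hN.1 hi hj hl hij hil hjl hW
  linarith

/-- `S2` is nonnegative at finite places -/
theorem S2_nonneg {v : ℂ} {N : ℕ} (hN : S.Adm (some v) N) : 0 ≤ S.S2 (some v) N := by
  unfold S2 sum2
  refine Finset.sum_nonneg ?_
  intro p hp
  obtain ⟨a1, a2, a3⟩ := PlF_mem_prs hp
  exact rho_nonneg hN.1 a1 a2 (PlF_cen hN a1) (PlF_cen hN a2)

/-- at unramified finite places `S2 = 0` -/
theorem S2_unram {v : ℂ} {N : ℕ} (hN : S.Adm (some v) N) (h : S.Ram (some v) = 0) :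
    S.S2 (some v) N = 0 := by
  have hs := PlF_sum hN
  rw [h, Nat.cast_zero] at hs
  have hz := (Finset.sum_eq_zero_iff_of_nonneg
    (fun τ _ => S.PlF_ep_nonneg (some v) τ)).1 hs
  unfold S2 sum2
  refine Finset.sum_eq_zero ?_
  intro p hp
  obtain ⟨a1, a2, a3⟩ := PlF_mem_prs hp
  obtain ⟨t, ht⟩ := Option.ne_none_iff_exists'.1 (PlF_cen hN a1)
  obtain ⟨t', ht'⟩ := Option.ne_none_iff_exists'.1 (PlF_cen hN a2)
  refine rho_diff hN.1 a1 a2 ht ht' ?_
  rintro rfl
  have h1 := PlF_two hN a1 a2 a3 (ht.trans ht'.symm) (PlF_cen hN a1)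
  have h2 := hz _ a1
  linarith

end Cur

end WR
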