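import Pool.Agent.helper51.WR.CombI
import Pool.Agent.helper51.WR.PlF

/-!
# WR-PlI: the inequality I1 at infinity

`I1_abs` with `q = m/(n-k)`, `e0 = n - k`, `ep = 1 - 1/e` for finite centres (and `0` for centre
infinity), `cl` = collinear. Pointwise inequality: all centres finite: `pw_fin` (`gi`, `ci` reduce to
`gn`, `ep`). Otherwise, not collinear: exactly one sheet `i` with centre infinity: `rho i j = rho i l = - q`,
`om_naive` (permuted): `om ≥ - q + rho j l - 1`. Exactly two (`i`, `j`): `rho i l = rho j l = - q`,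
`om ≥ - q + rho i j - 1`. Three: the two largest. Collinear (`om_col`): all three `rho` equal, so exactly
one sheet with centre infinity is impossible (`- q < 0 ≤ rho j l`, `m ≥ 2`), exactly two gives
`rho i j = - q`: gain `0`.
-/

namespace WR

open Polynomial

namespace Cur

variable {S : Cur}

/-- the three naive bounds -/
theorem PlI_naive {P : Option ℂ} {N : ℕ} (hN : 0 < N) {i j l : M} (hi : i ∈ S.sh P N)
    (hj : j ∈ S.sh P N) (hl : l ∈ S.sh P N) (hij : i ≠ j) (hil : i ≠ l) (hjl : j ≠ l)
    (hW : S.W P i j l ≠ 0) :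
    S.rho P N i j + S.rho P N i l - 1 ≤ S.om P N i j l ∧
    S.rho P N i j + S.rho P N j l - 1 ≤ S.om P N i j l ∧
    S.rho P N i l + S.rho P N j l - 1 ≤ S.om P N i j l := by
  have hW2 : S.W P j i l ≠ 0 := by
    rw [S.W_swap12 P i j l]
    exact neg_ne_zero.2 hW
  have hW3 : S.W P i l j ≠ 0 := by
    rw [S.W_swap23 P i j l]
    exact neg_ne_zero.2 hW
  have hW4 : S.W P l i j ≠ 0 := by
    rw [S.W_swap12 P i l j]
    exact neg_ne_zero.2 hW3
  have h1 := om_naive hN hi hj hl hij hil hjl hW
  have h2 := om_naive hN hj hi hl hij.symm hjl hil hW2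
  have h3 := om_naive hN hl hi hj hil.symm hjl.symm hij hW4
  have e2 : S.om P N j i l = S.om P N i j l := om_swap12
  have e3 : S.om P N l i j = S.om P N i l j := om_swap12
  have e4 : S.om P N i l j = S.om P N i j l := om_swap23
  have s1 : S.rho P N j i = S.rho P N i j := rho_symm
  have s2 : S.rho P N l i = S.rho P N i l := rho_symm
  have s3 : S.rho P N l j = S.rho P N j l := rho_symm
  rw [e2, s1] at h2
  rw [e3, e4, s2, s3] at h3
  exact ⟨h1, h2, h3⟩

/-- the number `q` -/
noncomputable def PlIq (S : Cur) : ℚ := (S.m : ℚ) / ((S.n : ℚ) - S.k)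

theorem PlIq_pos (S : Cur) : 0 < S.PlIq := by
  have h1 : (S.k : ℚ) < S.n := by exact_mod_cast S.hkn
  have h2 : (0 : ℚ) < S.m := by
    have := S.hm
    exact_mod_cast (by omega : 0 < S.m)
  unfold PlIq
  exact div_pos h2 (by linarith)

/-- the cost of one sheet -/
noncomputable def PlIep (S : Cur) (τ : M) : ℚ := 1 - 1 / (S.e none ((cen τ).getD 0) : ℚ)

theorem PlIep_nonneg (S : Cur) (τ : M) : 0 ≤ S.PlIep τ := by
  unfold PlIep
  rcases Nat.eq_zero_or_pos (S.e none ((cen τ).getD 0)) with h | h
  · rw [h]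
    norm_num
  · have h1 : (1 : ℚ) ≤ (S.e none ((cen τ).getD 0) : ℚ) := by exact_mod_cast h
    have h2 : 1 / (S.e none ((cen τ).getD 0) : ℚ) ≤ 1 := by
      rw [div_le_one (by linarith)]
      exact h1
    linarith

/-- the pointwise inequality at infinity -/
theorem PlI_pw {N : ℕ} (hN : S.Adm none N) {i j l : M} (hi : i ∈ S.sh none N)
    (hj : j ∈ S.sh none N) (hl : l ∈ S.sh none N) (hij : i ≠ j) (hil : i ≠ l) (hjl : j ≠ l) :
    2 / 3 * (S.rho none N i j + S.rho none N i l + S.rho none N j l)
      - ci cen S.PlIep (fun x y z => S.W none x y z = 0) i j l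
      + 1 / 3 * (gi cen (S.rho none N) S.PlIq i j l + gi cen (S.rho none N) S.PlIq j i l
        + gi cen (S.rho none N) S.PlIq l i j) ≤ S.om none N i j l := by
  have hN0 : 0 < N := hN.1
  have hq := S.PlIq_pos
  have mix : ∀ {x y : M}, x ∈ S.sh none N → y ∈ S.sh none N → cen x = none → cen y ≠ none →
      S.rho none N x y = - S.PlIq := fun hx hy h h' => rho_mix hN0 hx hy h h'
  have mix' : ∀ {x y : M}, x ∈ S.sh none N → y ∈ S.sh none N → cen x ≠ none → cen y = none →
      S.rho none N x y = - S.PlIq := fun {x y} hx hy h h' => by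
    have h1 : S.rho none N x y = S.rho none N y x := rho_symm
    rw [h1]
    exact mix hy hx h' h
  have nn : ∀ {x y : M}, x ∈ S.sh none N → y ∈ S.sh none N → cen x ≠ none → cen y ≠ none →
      0 ≤ S.rho none N x y := fun hx hy h h' => rho_nonneg hN0 hx hy h h'
  by_cases ci0 : cen i = none <;> by_cases cj0 : cen j = none <;> by_cases cl0 : cen l = none
  · by_cases hW : S.W none i j l = 0
    · obtain ⟨h1, h2, h3⟩ := om_col hN0 hi hj hl hij hil hjl hW
      simp only [gi, ci, ci0, cj0, cl0, hW, ne_eq, not_true_eq_false, and_false, false_and,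
        if_false, and_self, if_true]
      linarith
    · obtain ⟨h1, h2, h3⟩ := PlI_naive hN0 hi hj hl hij hil hjl hW
      simp only [gi, ci, ci0, cj0, cl0, hW, ne_eq, not_true_eq_false, and_false, false_and,
        if_false, and_self, if_true]
      linarith
  · have m1 := mix hi hl ci0 cl0
    have m2 := mix hj hl cj0 cl0
    by_cases hW : S.W none i j l = 0
    · obtain ⟨h1, h2, h3⟩ := om_col hN0 hi hj hl hij hil hjl hW
      simp only [gi, ci, ci0, cj0, cl0, hW, ne_eq, not_true_eq_false, not_false_eq_true,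
        and_false, false_and, and_true, true_and, if_false, and_self, if_true]
      linarith
    · obtain ⟨h1, h2, h3⟩ := PlI_naive hN0 hi hj hl hij hil hjl hW
      simp only [gi, ci, ci0, cj0, cl0, hW, ne_eq, not_true_eq_false, not_false_eq_true,
        and_false, false_and, and_true, true_and, if_false, and_self, if_true]
      linarith
  · have m1 := mix hi hj ci0 cj0
    have m2 := mix' hj hl cj0 cl0
    by_cases hW : S.W none i j l = 0
    · obtain ⟨h1, h2, h3⟩ := om_col hN0 hi hj hl hij hil hjl hW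
      simp only [gi, ci, ci0, cj0, cl0, hW, ne_eq, not_true_eq_false, not_false_eq_true,
        and_false, false_and, and_true, true_and, if_false, and_self, if_true]
      linarith
    · obtain ⟨h1, h2, h3⟩ := PlI_naive hN0 hi hj hl hij hil hjl hW
      simp only [gi, ci, ci0, cj0, cl0, hW, ne_eq, not_true_eq_false, not_false_eq_true,
        and_false, false_and, and_true, true_and, if_false, and_self, if_true]
      linarith
  · have m1 := mix hi hj ci0 cj0
    have m2 := mix hi hl ci0 cl0
    have m3 := nn hj hl cj0 cl0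
    by_cases hW : S.W none i j l = 0
    · obtain ⟨h1, h2, h3⟩ := om_col hN0 hi hj hl hij hil hjl hW
      exfalso
      linarith
    · obtain ⟨h1, h2, h3⟩ := PlI_naive hN0 hi hj hl hij hil hjl hW
      simp only [gi, ci, ci0, cj0, cl0, hW, ne_eq, not_true_eq_false, not_false_eq_true,
        and_false, false_and, and_true, true_and, if_false, and_self, if_true]
      linarith
  · have m1 := mix' hi hj ci0 cj0
    have m2 := mix' hi hl ci0 cl0
    by_cases hW : S.W none i j l = 0
    · obtain ⟨h1, h2, h3⟩ := om_col hN0 hi hj hl hij hil hjl hW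
      simp only [gi, ci, ci0, cj0, cl0, hW, ne_eq, not_true_eq_false, not_false_eq_true,
        and_false, false_and, and_true, true_and, if_false, and_self, if_true]
      linarith
    · obtain ⟨h1, h2, h3⟩ := PlI_naive hN0 hi hj hl hij hil hjl hW
      simp only [gi, ci, ci0, cj0, cl0, hW, ne_eq, not_true_eq_false, not_false_eq_true,
        and_false, false_and, and_true, true_and, if_false, and_self, if_true]
      linarith
  · have m1 := mix' hi hj ci0 cj0
    have m2 := mix hj hl cj0 cl0
    have m3 := nn hi hl ci0 cl0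
    by_cases hW : S.W none i j l = 0
    · obtain ⟨h1, h2, h3⟩ := om_col hN0 hi hj hl hij hil hjl hW
      exfalso
      linarith
    · obtain ⟨h1, h2, h3⟩ := PlI_naive hN0 hi hj hl hij hil hjl hW
      simp only [gi, ci, ci0, cj0, cl0, hW, ne_eq, not_true_eq_false, not_false_eq_true,
        and_false, false_and, and_true, true_and, if_false, and_self, if_true]
      linarith
  · have m1 := mix' hi hl ci0 cl0
    have m2 := mix' hj hl cj0 cl0
    have m3 := nn hi hj ci0 cj0
    by_cases hW : S.W none i j l = 0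
    · obtain ⟨h1, h2, h3⟩ := om_col hN0 hi hj hl hij hil hjl hW
      exfalso
      linarith
    · obtain ⟨h1, h2, h3⟩ := PlI_naive hN0 hi hj hl hij hil hjl hW
      simp only [gi, ci, ci0, cj0, cl0, hW, ne_eq, not_true_eq_false, not_false_eq_true,
        and_false, false_and, and_true, true_and, if_false, and_self, if_true]
      linarith
  · have h := pw_fin hN hi hj hl hij hil hjl ci0 cj0 cl0
    have g : ∀ x y z : M, cen x ≠ none → cen y ≠ none → cen z ≠ none →
        gi cen (S.rho none N) S.PlIq x y z = gn cen (S.rho none N) x y z := by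
      intro x y z hx hy hz
      unfold gi gn
      rw [if_pos ⟨hy, hz⟩, if_neg hx]
    have hc : ci cen S.PlIep (fun x y z => S.W none x y z = 0) i j l =
        S.PlIep i + S.PlIep j + S.PlIep l := by
      unfold ci
      rw [if_pos ⟨ci0, cj0, cl0⟩]
    rw [g i j l ci0 cj0 cl0, g j i l cj0 ci0 cl0, g l i j cl0 ci0 cj0, hc]
    exact h

open Classical in
theorem PlI_main {N : ℕ} (hN : S.Adm none N) :
    (2 * ((S.n : ℚ) - 2) + 1) * S.S2 none N
      - ((S.n : ℚ) * (S.n - 1) * (S.n - 2) - S.col none N)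
      - 3 * ((S.n : ℚ) - 1) * ((S.n : ℚ) - 2) * S.Ram none
      + S.m * ((S.k : ℚ) ^ 2 + S.n - 1) ≤ S.S3 none N ∧
    2 * ((S.n : ℚ) - 2) * S.S2 none N
      - ((S.n : ℚ) * (S.n - 1) * (S.n - 2) - S.col none N)
      - 3 * ((S.n : ℚ) - 1) * ((S.n : ℚ) - 2) * S.Ram none
      + S.m * ((S.k : ℚ) * (S.k - 1)) ≤ S.S3 none N := by
  have hN0 : 0 < N := hN.1
  have hkn := S.hkn
  have hn : (S.sh none N).card = S.n := S.sh_card none hN
  have he : ((S.sh none N).filter (fun τ => cen τ = none)).card = S.n - S.k := by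
    have := S.card_cen_none none hN
    rwa [if_pos rfl] at this
  have hk : ((S.sh none N).filter (fun τ => cen τ ≠ none)).card = S.k := by
    have h1 := Finset.card_filter_add_card_filter_not (s := S.sh none N) (fun τ => cen τ = none)
    have h2 : ((S.sh none N).filter (fun τ => cen τ ≠ none)).card =
        ((S.sh none N).filter (fun τ => ¬ cen τ = none)).card := rfl
    rw [h2]
    omega
  have hcast : ((S.n - S.k : ℕ) : ℚ) = (S.n : ℚ) - S.k := Nat.cast_sub (le_of_lt hkn)
  have hne : (S.n : ℚ) - S.k ≠ 0 := by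
    have : (S.k : ℚ) < S.n := by exact_mod_cast hkn
    intro h
    linarith
  have hq : S.PlIq * ((S.n - S.k : ℕ) : ℚ) = S.m := by
    rw [hcast]
    unfold PlIq
    field_simp
  have hcol : (((tri (S.sh none N)).filter
      (fun p => ¬ (S.W none p.1 p.2.1 p.2.2 = 0))).card : ℚ) =
      (S.n : ℚ) * (S.n - 1) * (S.n - 2) - S.col none N := by
    have h1 := Finset.card_filter_add_card_filter_not (s := tri (S.sh none N))
      (fun p => S.W none p.1 p.2.1 p.2.2 = 0)
    have h2 : S.col none N = ((tri (S.sh none N)).filter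
      (fun p => S.W none p.1 p.2.1 p.2.2 = 0)).card := rfl
    have h3 := card_tri (S.sh none N)
    rw [hn] at h3
    have h4 : (((tri (S.sh none N)).filter (fun p => S.W none p.1 p.2.1 p.2.2 = 0)).card : ℚ) +
      (((tri (S.sh none N)).filter
      (fun p => ¬ (S.W none p.1 p.2.1 p.2.2 = 0))).card : ℚ) = ((tri (S.sh none N)).card : ℚ) := by
      exact_mod_cast h1
    rw [h2]
    linarith
  have hram : ∑ τ ∈ (S.sh none N).filter (fun τ => cen τ ≠ none), S.PlIep τ = S.Ram none :=
    S.sum_ep none hN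
  have key := I1_abs (S.sh none N) cen (S.rho none N) (fun i j => rho_symm) (S.om none N) S.PlIep
    (fun x y z => S.W none x y z = 0) S.PlIq S.k (S.n - S.k) S.m hk he S.hk (by omega) hq
    (by
      intro p hp
      unfold tri at hp
      rw [Finset.mem_filter, Finset.mem_product, Finset.mem_product] at hp
      exact PlI_pw hN hp.1.1 hp.1.2.1 hp.1.2.2 hp.2.1 hp.2.2.1 hp.2.2.2)
    (fun i _ => S.PlIep_nonneg i)
    (by
      intro p hp h1 h2
      unfold prs at hp
      rw [Finset.mem_filter, Finset.mem_product] at hp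
      exact rho_nonneg hN0 hp.1.1 hp.1.2 h1 h2)
    (by
      intro p hp h1 h2
      unfold prs at hp
      rw [Finset.mem_filter, Finset.mem_product] at hp
      exact rho_mix hN0 hp.1.1 hp.1.2 h1 h2)
    (by
      intro p hp h1 h2
      unfold prs at hp
      rw [Finset.mem_filter, Finset.mem_product] at hp
      exact rho_inf hN0 hp.1.1 hp.1.2 h1 h2)
  rw [hn, hram, hcol, hcast] at key
  obtain ⟨k1, k2⟩ := key
  refine ⟨?_, k2⟩
  have h5 : (S.m : ℚ) * ((S.k : ℚ) ^ 2 + S.n - 1) =
      S.m * ((S.k : ℚ) ^ 2 + S.k + ((S.n : ℚ) - S.k) - 1) := by ring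
  rw [h5]
  exact k1

theorem I1a {N : ℕ} (hN : S.Adm none N) :
    (2 * ((S.n : ℚ) - 2) + 1) * S.S2 none N
      - ((S.n : ℚ) * (S.n - 1) * (S.n - 2) - S.col none N)
      - 3 * ((S.n : ℚ) - 1) * ((S.n : ℚ) - 2) * S.Ram none
      + S.m * ((S.k : ℚ) ^ 2 + S.n - 1) ≤ S.S3 none N :=
  (PlI_main hN).1

theorem I1b {N : ℕ} (hN : S.Adm none N) :
    2 * ((S.n : ℚ) - 2) * S.S2 none N
      - ((S.n : ℚ) * (S.n - 1) * (S.n - 2) - S.col none N)
      - 3 * ((S.n : ℚ) - 1) * ((S.n : ℚ) - 2) * S.Ram none
      + S.m * ((S.k : ℚ) * (S.k - 1)) ≤ S.S3 none N :=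
  (PlI_main hN).2

end Cur

end WR
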