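import Pool.Agent.helper51.WR.Rot
import Pool.Agent.helper51.WR.PlI

/-!
# WR-BlkE: the blocks at infinity

The sheets with centre infinity are the rotations `rot (ζ^i) τ`, `i < e0 = n - k`, of one of them, `ζ` a
primitive `N`-th root of unity. The coefficient of `y τ` at `s^(- m h)`, `N = e0 h`, does not vanish, so
`rho > - q` for the pair `rot (ζ^i) τ, τ` implies `e0 ∣ i m`. There are `gcd (e0, m)` such `i`.
-/

namespace WR

open Polynomial

namespace Cur

variable {S : Cur}

theorem BlkE_dvd {e0 m i : ℕ} (he : 0 < e0) (h : e0 ∣ i * m) : e0 / Nat.gcd e0 m ∣ i := by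
  have hg : 0 < Nat.gcd e0 m := Nat.gcd_pos_of_pos_left m he
  have hc : Nat.Coprime (e0 / Nat.gcd e0 m) (m / Nat.gcd e0 m) := Nat.coprime_div_gcd_div_gcd hg
  have h1 : Nat.gcd e0 m * (e0 / Nat.gcd e0 m) = e0 := Nat.mul_div_cancel' (Nat.gcd_dvd_left e0 m)
  have h2 : Nat.gcd e0 m * (m / Nat.gcd e0 m) = m := Nat.mul_div_cancel' (Nat.gcd_dvd_right e0 m)
  have h3 : Nat.gcd e0 m * (e0 / Nat.gcd e0 m) ∣ Nat.gcd e0 m * (i * (m / Nat.gcd e0 m)) := by
    rw [h1]
    have h4 : Nat.gcd e0 m * (i * (m / Nat.gcd e0 m)) = i * m := by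
      rw [mul_left_comm, h2]
    rw [h4]
    exact h
  exact hc.dvd_of_dvd_mul_right (Nat.dvd_of_mul_dvd_mul_left hg h3)

open Classical in
theorem BlkE_class {N : ℕ} (hN : S.Adm none N) {ζ : ℂ} (hζ : IsPrimitiveRoot ζ N) {τ : M}
    (hτ : τ ∈ S.sh none N) (hc : cen τ = none) :
    (S.sh none N).filter (fun τ' => cen τ' = none) =
      (Finset.range (S.n - S.k)).image (fun i => rot (ζ ^ i) τ) := by
  obtain ⟨-, h, hh, hNh, hne, hord⟩ := loc_inf hN.1 hτ hc
  have hz : ζ ≠ 0 := hζ.ne_zero hN.1.ne'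
  have hkn := S.hkn
  have hcoef : τ.coeff (-(h : ℤ)) ≠ 0 := by
    rw [← hord]
    exact coeff_order_ne hne
  have hinj : Set.InjOn (fun i => rot (ζ ^ i) τ) (Finset.range (S.n - S.k) : Set ℕ) := by
    intro i hi j hj hij
    simp only [Finset.coe_range, Set.mem_Iio] at hi hj
    have hij' : rot (ζ ^ i) τ = rot (ζ ^ j) τ := hij
    have h1 := (rot_sub_coeff hN.1 hζ τ i j (-(h : ℤ))).mp
      (by rw [hij', sub_self, HahnSeries.coeff_zero])
    have h2 := h1.resolve_left hcoef
    have h3 : ((S.n - S.k : ℕ) : ℤ) ∣ (i : ℤ) - j := by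
      rw [hNh, mul_neg, dvd_neg] at h2
      push_cast at h2
      have h4 : ((h : ℤ)) ≠ 0 := by exact_mod_cast hh.ne'
      exact (mul_dvd_mul_iff_right h4).1 (by
        have h5 : ((S.n - S.k : ℕ) : ℤ) * (h : ℤ) ∣ ((i : ℤ) - j) * h := h2
        exact h5)
    have h0 : (i : ℤ) - j = 0 := by
      apply Int.eq_zero_of_abs_lt_dvd h3
      rw [abs_lt]
      constructor <;> omega
    omega
  symm
  apply Finset.eq_of_subset_of_card_le
  · intro x hx
    obtain ⟨i, hi, rfl⟩ := Finset.mem_image.mp hx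
    rw [Finset.mem_filter]
    refine ⟨rot_sh hN.1 (Rot_pow hζ.pow_eq_one i) hτ, ?_⟩
    rw [cen_rot (pow_ne_zero i hz) τ]
    exact hc
  · have h1 := S.card_cen_none none hN
    rw [if_pos rfl] at h1
    rw [Finset.card_image_of_injOn hinj, Finset.card_range]
    exact le_of_eq (by convert h1)

open Classical in
/-- the size of the blocks at infinity -/
theorem blkE {N : ℕ} (hN : S.Adm none N) {τ : M} (hτ : τ ∈ S.sh none N) (hc : cen τ = none) :
    ((S.sh none N).filter (fun τ' => cen τ' = none ∧ (τ' = τ ∨ - S.PlIq < S.rho none N τ' τ))).card ≤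
      Nat.gcd (S.n - S.k) S.m := by
  have hζ := Complex.isPrimitiveRoot_exp N hN.1.ne'
  set ζ := Complex.exp (2 * Real.pi * Complex.I / N) with hζdef
  have hz : ζ ≠ 0 := hζ.ne_zero hN.1.ne'
  have hkn := S.hkn
  have he0 : 0 < S.n - S.k := by omega
  have hcl := BlkE_class hN hζ hτ hc
  obtain ⟨-, h, hh, hNh, hne, hord⟩ := loc_inf hN.1 hτ hc
  obtain ⟨hy, hyo⟩ := y_inf hN.1 hτ hc
  have hq := Rho_q hN.1 hyo
  have hyo' : (S.y none τ).order = -((S.m * h : ℕ) : ℤ) := by
    have h1 : ((S.n - S.k : ℕ) : ℤ) * (S.y none τ).order =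
        ((S.n - S.k : ℕ) : ℤ) * (-((S.m * h : ℕ) : ℤ)) := by
      rw [hyo, hNh]
      push_cast
      ring
    have h2 : ((S.n - S.k : ℕ) : ℤ) ≠ 0 := by exact_mod_cast he0.ne'
    exact mul_left_cancel₀ h2 h1
  have hyc : (S.y none τ).coeff (-((S.m * h : ℕ) : ℤ)) ≠ 0 := by
    rw [← hyo']
    exact coeff_order_ne hy
  set g := Nat.gcd (S.n - S.k) S.m with hgdef
  have hsub : (S.sh none N).filter (fun τ' => cen τ' = none ∧ (τ' = τ ∨ - S.PlIq < S.rho none N τ' τ)) ⊆
      (Finset.range g).image (fun a => rot (ζ ^ (a * ((S.n - S.k) / g))) τ) := by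
    intro x hx
    obtain ⟨hx1, hx2, hx3⟩ := Finset.mem_filter.1 hx
    have hx4 : x ∈ (S.sh none N).filter (fun τ' => cen τ' = none) := Finset.mem_filter.2 ⟨hx1, hx2⟩
    rw [hcl] at hx4
    obtain ⟨i, hi, rfl⟩ := Finset.mem_image.1 hx4
    rw [Finset.mem_range] at hi
    have hd : (S.n - S.k) / g ∣ i := by
      apply BlkE_dvd he0
      rcases hx3 with hx3 | hx3
      · -- the rotation is trivial
        have h1 := (rot_sub_coeff hN.1 hζ τ i 0 (-(h : ℤ))).mp
          (by rw [pow_zero, rot_one, hx3, sub_self, HahnSeries.coeff_zero])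
        have hcoef : τ.coeff (-(h : ℤ)) ≠ 0 := by
          rw [← hord]
          exact coeff_order_ne hne
        have h2 := h1.resolve_left hcoef
        rw [hNh, mul_neg, dvd_neg] at h2
        push_cast at h2
        rw [sub_zero] at h2
        have h3 : (S.n - S.k) * h ∣ i * h := by
          have h5 : (((S.n - S.k) * h : ℕ) : ℤ) ∣ ((i * h : ℕ) : ℤ) := by
            push_cast
            exact h2
          exact_mod_cast h5
        have h4 : (S.n - S.k) ∣ i := Nat.dvd_of_mul_dvd_mul_right hh h3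
        exact Dvd.dvd.mul_right h4 _
      · have hlt : -((S.m * h : ℕ) : ℤ) < (S.y none (rot (ζ ^ i) τ) - S.y none τ).order := by
          have h7 : (0 : ℚ) < N := by exact_mod_cast hN.1
          have h8 : - S.PlIq = ((S.y none τ).order : ℚ) / N := by
            rw [hq.2]
            rfl
          rw [h8] at hx3
          unfold rho at hx3
          have h9 := (div_lt_div_iff_of_pos_right h7).1 hx3
          rw [← hyo']
          exact_mod_cast h9
        have h1 : (rot (ζ ^ i) (S.y none τ) - rot (ζ ^ 0) (S.y none τ)).coeff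
            (-((S.m * h : ℕ) : ℤ)) = 0 := by
          rw [pow_zero, rot_one, ← rot_y (pow_ne_zero i hz)]
          exact HahnSeries.coeff_eq_zero_of_lt_order hlt
        have h2 := ((rot_sub_coeff hN.1 hζ (S.y none τ) i 0 _).mp h1).resolve_left hyc
        rw [hNh, mul_neg, dvd_neg] at h2
        push_cast at h2
        rw [sub_zero] at h2
        have h3 : (S.n - S.k) * h ∣ (i * S.m) * h := by
          have h5 : (((S.n - S.k) * h : ℕ) : ℤ) ∣ (((i * S.m) * h : ℕ) : ℤ) := by
            push_cast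
            rw [mul_assoc]
            exact h2
          exact_mod_cast h5
        exact Nat.dvd_of_mul_dvd_mul_right hh h3
    obtain ⟨a, ha⟩ := hd
    refine Finset.mem_image.2 ⟨a, ?_, ?_⟩
    · rw [Finset.mem_range]
      by_contra hcon
      push Not at hcon
      have h1 : g * ((S.n - S.k) / g) = S.n - S.k := Nat.mul_div_cancel' (Nat.gcd_dvd_left _ _)
      have h2 : g * ((S.n - S.k) / g) ≤ a * ((S.n - S.k) / g) := Nat.mul_le_mul_right _ hcon
      rw [h1, mul_comm a, ← ha] at h2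
      omega
    · rw [ha, mul_comm a]
  calc _ ≤ ((Finset.range g).image (fun a => rot (ζ ^ (a * ((S.n - S.k) / g))) τ)).card :=
        Finset.card_le_card hsub
    _ ≤ (Finset.range g).card := Finset.card_image_le
    _ = g := Finset.card_range g

end Cur

end WR
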