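import Pool.Agent.helper51.WR.Eul

/-!
# WR-Chain: `N s^N g = E y` on sheets, `N s^N W` is the Wronskian of the differences

`τ` is a sheet at `P`: `al(τ) = s^N be(τ)`. `be(τ) ≠ 0`: otherwise `al(τ) = 0`, but `al`, `be` have no
common zero (`nz` gives `IsCoprime S.a S.b`: no common root over `ℂ`), Bezout. Apply `eul` to
`al(τ) = s^N be(τ)` and multiply by `be(τ)`: `jac(τ) E τ = N s^N be(τ)^2`.
`E y = num(τ) E τ / be(τ)^2`.
-/

namespace WR

open Polynomial

namespace Cur

variable (S : Cur)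

theorem coprime_ab : IsCoprime S.a S.b := by
  refine (Polynomial.isCoprime_iff_aeval_ne_zero_of_isAlgClosed (k := ℂ) (K := ℂ) S.a S.b).2 ?_
  intro t
  have h := S.nz t
  rw [coe_aeval_eq_eval]
  exact h

theorem coprime (P : Option ℂ) : IsCoprime (S.al P) (S.be P) := by
  cases P with
  | none => exact S.coprime_ab.symm
  | some v =>
    have h := S.coprime_ab
    have h1 := IsCoprime.add_mul_right_left h (-C v)
    have e : S.a + -C v * S.b = S.al (some v) := by
      show S.a + -C v * S.b = S.a - C v * S.b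
      ring
    rw [e] at h1
    exact h1

theorem Chain_b_ne : S.b ≠ 0 := by
  intro h
  have h1 := S.hb
  have h2 := S.hk
  rw [h, natDegree_zero] at h1
  omega

theorem Chain_a_ne : S.a ≠ 0 := by
  intro h
  have h1 := S.ha
  have h2 := S.hkn
  rw [h, natDegree_zero] at h1
  omega

/-- `deg al`: `n` at finite places, `k` at infinity -/
theorem natDegree_al (P : Option ℂ) : (S.al P).natDegree = if P = none then S.k else S.n := by
  cases P with
  | none => simpa [al] using S.hb
  | some v =>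
    have h1 : (C v * S.b).natDegree < S.a.natDegree := by
      rw [S.ha]
      refine lt_of_le_of_lt (natDegree_C_mul_le v S.b) ?_
      rw [S.hb]
      exact S.hkn
    have h2 : (S.a - C v * S.b).natDegree = S.a.natDegree := natDegree_sub_eq_left_of_natDegree_lt h1
    show (S.a - C v * S.b).natDegree = _
    rw [h2, S.ha]
    simp

theorem al_ne (P : Option ℂ) : S.al P ≠ 0 := by
  intro h
  have h1 := S.natDegree_al P
  have h2 := S.hk
  have h3 := S.hkn
  rw [h, natDegree_zero] at h1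
  split_ifs at h1 <;> omega

theorem be_ne' (P : Option ℂ) : S.be P ≠ 0 := by
  cases P with
  | none => exact S.Chain_a_ne
  | some v => exact S.Chain_b_ne

theorem shp_ne (P : Option ℂ) {N : ℕ} (hN : 0 < N) : S.shp P N ≠ 0 := by
  intro h
  refine S.al_ne P ?_
  ext i
  have h1 : (S.shp P N).coeff i = 0 := by rw [h, coeff_zero]
  unfold shp at h1
  rw [coeff_sub, coeff_map, coeff_C_mul, coeff_map, sub_eq_zero] at h1
  have h2 : (algebraMap ℂ M ((S.al P).coeff i)).coeff 0 =
      (sp N * algebraMap ℂ M ((S.be P).coeff i)).coeff 0 := by rw [h1]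
  rw [coeff_sp_mul, coeff_algebraMap, coeff_algebraMap, if_pos rfl, if_neg (by omega)] at h2
  rw [h2, coeff_zero]

theorem mem_sh (P : Option ℂ) {N : ℕ} (hN : 0 < N) (τ : M) :
    τ ∈ S.sh P N ↔ aeval τ (S.al P) = sp N * aeval τ (S.be P) := by
  classical
  unfold sh
  simp only [Multiset.mem_toFinset]
  rw [mem_roots (S.shp_ne P hN), IsRoot.def]
  unfold shp
  rw [eval_sub, eval_mul, eval_C, eval_map_algebraMap, eval_map_algebraMap, sub_eq_zero]

variable {S}

/-- in every field: a solution of `al = z be` has `be ≠ 0` -/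
theorem be_ne {P : Option ℂ} {F : Type} [Field F] [Algebra ℂ F] {τ z : F}
    (h : aeval τ (S.al P) = z * aeval τ (S.be P)) : aeval τ (S.be P) ≠ 0 := by
  intro h0
  obtain ⟨u, v, huv⟩ := S.coprime P
  have h1 := congrArg (aeval τ) huv
  rw [map_add, map_mul, map_mul, map_one, h, h0] at h1
  simp at h1

theorem Chain_key {P : Option ℂ} {N : ℕ} {τ : M}
    (h : aeval τ (S.al P) = sp N * aeval τ (S.be P)) :
    aeval τ (S.jac P) * eul τ = (N : M) * sp N * aeval τ (S.be P) ^ 2 := by
  have h1 := congrArg eul h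
  rw [eul_mul, eul_sp, eul_aeval, eul_aeval] at h1
  have h2 : aeval τ (S.jac P) = aeval τ (derivative (S.al P)) * aeval τ (S.be P) -
      aeval τ (S.al P) * aeval τ (derivative (S.be P)) := by
    unfold jac
    rw [map_sub, map_mul, map_mul]
  have h3 : (((N : ℤ) : M)) = (N : M) := by push_cast; rfl
  rw [h3] at h1
  rw [h2]
  linear_combination aeval τ (S.be P) * h1 - aeval τ (derivative (S.be P)) * eul τ * h

theorem jac_ne {P : Option ℂ} {N : ℕ} (hN : 0 < N) {τ : M}
    (h : aeval τ (S.al P) = sp N * aeval τ (S.be P)) : aeval τ (S.jac P) ≠ 0 := by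
  intro h0
  have h1 := Chain_key h
  rw [h0, zero_mul] at h1
  haveI : CharZero M := charZero_of_injective_algebraMap (algebraMap ℂ M).injective
  have h2 : (N : M) ≠ 0 := Nat.cast_ne_zero.2 hN.ne'
  exact mul_ne_zero (mul_ne_zero h2 (sp_ne N)) (pow_ne_zero 2 (be_ne h)) h1.symm

theorem chain {P : Option ℂ} {N : ℕ} (hN : 0 < N) {τ : M}
    (h : aeval τ (S.al P) = sp N * aeval τ (S.be P)) :
    (N : M) * sp N * S.g P τ = eul (S.y P τ) := by
  have hb := be_ne h
  have hj := jac_ne hN h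
  have hk := Chain_key h
  unfold g y
  rw [eul_div _ hb, eul_aeval, eul_aeval]
  have h2 : aeval τ (S.num P) = aeval τ (derivative S.c) * aeval τ (S.be P) -
      aeval τ S.c * aeval τ (derivative (S.be P)) := by
    unfold num
    rw [map_sub, map_mul, map_mul]
  have h3 : aeval τ (derivative S.c) * eul τ * aeval τ (S.be P) -
      aeval τ S.c * (aeval τ (derivative (S.be P)) * eul τ) = aeval τ (S.num P) * eul τ := by
    rw [h2]; ring
  rw [h3, ← mul_div_assoc, div_eq_div_iff hj (pow_ne_zero 2 hb)]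
  linear_combination (-(aeval τ (S.num P))) * hk

theorem W_eul {P : Option ℂ} {N : ℕ} (hN : 0 < N) {τ₁ τ₂ τ₃ : M} (h₁ : τ₁ ∈ S.sh P N)
    (h₂ : τ₂ ∈ S.sh P N) (h₃ : τ₃ ∈ S.sh P N) :
    (N : M) * sp N * S.W P τ₁ τ₂ τ₃ =
      (S.y P τ₂ - S.y P τ₁) * eul (S.y P τ₃ - S.y P τ₁) -
        (S.y P τ₃ - S.y P τ₁) * eul (S.y P τ₂ - S.y P τ₁) := by
  have c1 := chain hN ((S.mem_sh P hN τ₁).1 h₁)
  have c2 := chain hN ((S.mem_sh P hN τ₂).1 h₂)
  have c3 := chain hN ((S.mem_sh P hN τ₃).1 h₃)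
  rw [eul_sub, eul_sub, ← c1, ← c2, ← c3]
  unfold W
  ring

/-- `W` is alternating -/
theorem W_swap12 (P : Option ℂ) {F : Type} [Field F] [Algebra ℂ F] (τ₁ τ₂ τ₃ : F) :
    S.W P τ₂ τ₁ τ₃ = - S.W P τ₁ τ₂ τ₃ := by
  unfold W
  ring

theorem W_swap23 (P : Option ℂ) {F : Type} [Field F] [Algebra ℂ F] (τ₁ τ₂ τ₃ : F) :
    S.W P τ₁ τ₃ τ₂ = - S.W P τ₁ τ₂ τ₃ := by
  unfold W
  ring

end Cur

end WR
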