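import Pool.Agent.helper51.WR.Defs

/-!
# WR-Comb: sums over ordered pairs and triples of distinct elements (no geometry)

`sum3` is invariant under permutations of the arguments; sums of functions of two or one argument.
Then the three abstract inequalities: sum the pointwise inequality over `tri R`.
-/

namespace WR

variable {A : Type}

open Classical in
theorem Comb_sum2 (R : Finset A) (f : A → A → ℚ) :
    sum2 R f = ∑ i ∈ R, ∑ j ∈ R, if i ≠ j then f i j else 0 := by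
  rw [sum2, prs, Finset.sum_filter, Finset.sum_product]

open Classical in
theorem Comb_sum3 (R : Finset A) (f : A → A → A → ℚ) :
    sum3 R f = ∑ i ∈ R, ∑ j ∈ R, ∑ l ∈ R, if i ≠ j ∧ i ≠ l ∧ j ≠ l then f i j l else 0 := by
  rw [sum3, tri, Finset.sum_filter, Finset.sum_product]
  refine Finset.sum_congr rfl fun i _ => ?_
  rw [Finset.sum_product]

theorem sum3_swap12 (R : Finset A) (f : A → A → A → ℚ) :
    sum3 R (fun i j l => f j i l) = sum3 R f := by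
  classical
  rw [Comb_sum3, Comb_sum3, Finset.sum_comm]
  refine Finset.sum_congr rfl fun i _ => Finset.sum_congr rfl fun j _ =>
    Finset.sum_congr rfl fun l _ => ?_
  have : (j ≠ i ∧ j ≠ l ∧ i ≠ l) ↔ (i ≠ j ∧ i ≠ l ∧ j ≠ l) := by
    constructor
    · rintro ⟨h1, h2, h3⟩
      exact ⟨h1.symm, h3, h2⟩
    · rintro ⟨h1, h2, h3⟩
      exact ⟨h1.symm, h3, h2⟩
  simp only [this]

theorem sum3_swap23 (R : Finset A) (f : A → A → A → ℚ) :
    sum3 R (fun i j l => f i l j) = sum3 R f := by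
  classical
  rw [Comb_sum3, Comb_sum3]
  refine Finset.sum_congr rfl fun i _ => ?_
  rw [Finset.sum_comm]
  refine Finset.sum_congr rfl fun j _ => Finset.sum_congr rfl fun l _ => ?_
  have : (i ≠ l ∧ i ≠ j ∧ l ≠ j) ↔ (i ≠ j ∧ i ≠ l ∧ j ≠ l) := by
    constructor
    · rintro ⟨h1, h2, h3⟩
      exact ⟨h2, h1, h3.symm⟩
    · rintro ⟨h1, h2, h3⟩
      exact ⟨h2, h1, h3.symm⟩
  simp only [this]

open Classical in
theorem Comb_one {R : Finset A} {i : A} (hi : i ∈ R) (c : ℚ) :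
    ∑ j ∈ R, (if i ≠ j then c else 0) = ((R.card : ℚ) - 1) * c := by
  rw [← Finset.sum_filter, Finset.sum_const, nsmul_eq_mul]
  have h1 : R.filter (fun j => i ≠ j) = R.erase i := by
    ext j
    rw [Finset.mem_filter, Finset.mem_erase]
    constructor
    · rintro ⟨h1, h2⟩
      exact ⟨h2.symm, h1⟩
    · rintro ⟨h1, h2⟩
      exact ⟨h2, h1.symm⟩
  rw [h1, Finset.card_erase_of_mem hi, Nat.cast_sub (Finset.card_pos.2 ⟨i, hi⟩), Nat.cast_one]

open Classical in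
theorem Comb_two {R : Finset A} {i j : A} (hi : i ∈ R) (hj : j ∈ R) (hij : i ≠ j) (c : ℚ) :
    ∑ l ∈ R, (if i ≠ l ∧ j ≠ l then c else 0) = ((R.card : ℚ) - 2) * c := by
  rw [← Finset.sum_filter, Finset.sum_const, nsmul_eq_mul]
  have h1 : R.filter (fun l => i ≠ l ∧ j ≠ l) = (R.erase i).erase j := by
    ext l
    rw [Finset.mem_filter, Finset.mem_erase, Finset.mem_erase]
    constructor
    · rintro ⟨h1, h2, h3⟩
      exact ⟨h3.symm, h2.symm, h1⟩
    · rintro ⟨h1, h2, h3⟩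
      exact ⟨h3, h2.symm, h1.symm⟩
  have hj' : j ∈ R.erase i := Finset.mem_erase.2 ⟨hij.symm, hj⟩
  have h2 : 1 ≤ (R.erase i).card := Finset.card_pos.2 ⟨j, hj'⟩
  rw [h1, Finset.card_erase_of_mem hj', Nat.cast_sub h2, Finset.card_erase_of_mem hi,
    Nat.cast_sub (Finset.card_pos.2 ⟨i, hi⟩), Nat.cast_one]
  ring

/-- the third element runs over `card - 2` values -/
theorem sum3_pair (R : Finset A) (f : A → A → ℚ) :
    sum3 R (fun i j _ => f i j) = ((R.card : ℚ) - 2) * sum2 R f := by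
  classical
  rw [Comb_sum3, Comb_sum2, Finset.mul_sum]
  refine Finset.sum_congr rfl fun i hi => ?_
  rw [Finset.mul_sum]
  refine Finset.sum_congr rfl fun j hj => ?_
  by_cases hij : i = j
  · simp [hij]
  · rw [if_pos hij, ← Comb_two hi hj hij (f i j)]
    refine Finset.sum_congr rfl fun l _ => ?_
    have : (i ≠ j ∧ i ≠ l ∧ j ≠ l) ↔ (i ≠ l ∧ j ≠ l) := ⟨fun h => h.2, fun h => ⟨hij, h⟩⟩
    simp only [this]

theorem Comb_sum2_one (R : Finset A) (f : A → ℚ) :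
    sum2 R (fun i _ => f i) = ((R.card : ℚ) - 1) * ∑ i ∈ R, f i := by
  classical
  rw [Comb_sum2, Finset.mul_sum]
  exact Finset.sum_congr rfl fun i hi => Comb_one hi (f i)

theorem sum3_one (R : Finset A) (f : A → ℚ) :
    sum3 R (fun i _ _ => f i) = ((R.card : ℚ) - 1) * ((R.card : ℚ) - 2) * ∑ i ∈ R, f i := by
  rw [sum3_pair R (fun i _ => f i), Comb_sum2_one]
  ring

theorem card_prs (R : Finset A) : ((prs R).card : ℚ) = R.card * (R.card - 1) := by
  have h1 : ((prs R).card : ℚ) = sum2 R (fun _ _ => 1) := by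
    rw [sum2, Finset.sum_const, nsmul_eq_mul, mul_one]
  rw [h1, Comb_sum2_one R (fun _ => 1), Finset.sum_const, nsmul_eq_mul, mul_one]
  ring

theorem card_tri (R : Finset A) :
    ((tri R).card : ℚ) = R.card * (R.card - 1) * (R.card - 2) := by
  have h1 : ((tri R).card : ℚ) = sum3 R (fun _ _ _ => 1) := by
    rw [sum3, Finset.sum_const, nsmul_eq_mul, mul_one]
  rw [h1, sum3_one R (fun _ => 1), Finset.sum_const, nsmul_eq_mul, mul_one]
  ring

theorem Comb_sum3_13 (R : Finset A) (f : A → A → ℚ) :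
    sum3 R (fun i _ l => f i l) = ((R.card : ℚ) - 2) * sum2 R f := by
  rw [← sum3_pair R f]
  exact sum3_swap23 R (fun i j _ => f i j)

theorem Comb_sum3_23 (R : Finset A) (f : A → A → ℚ) :
    sum3 R (fun _ j l => f j l) = ((R.card : ℚ) - 2) * sum2 R f := by
  rw [← Comb_sum3_13 R f]
  exact sum3_swap12 R (fun i _ l => f i l)

theorem Comb_sum3_2 (R : Finset A) (f : A → ℚ) :
    sum3 R (fun _ j _ => f j) = ((R.card : ℚ) - 1) * ((R.card : ℚ) - 2) * ∑ i ∈ R, f i := by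
  rw [← sum3_one R f]
  exact sum3_swap12 R (fun i _ _ => f i)

theorem Comb_sum3_3 (R : Finset A) (f : A → ℚ) :
    sum3 R (fun _ _ l => f l) = ((R.card : ℚ) - 1) * ((R.card : ℚ) - 2) * ∑ i ∈ R, f i := by
  rw [← Comb_sum3_2 R f]
  exact sum3_swap23 R (fun _ j _ => f j)

/-- the sum of the pair terms -/
theorem Comb_pairs (R : Finset A) (ρ : A → A → ℚ) :
    ∑ p ∈ tri R, 2 / 3 * (ρ p.1 p.2.1 + ρ p.1 p.2.2 + ρ p.2.1 p.2.2) =
      2 * ((R.card : ℚ) - 2) * sum2 R ρ := by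
  have h1 := sum3_pair R ρ
  have h2 := Comb_sum3_13 R ρ
  have h3 := Comb_sum3_23 R ρ
  unfold sum3 at h1 h2 h3
  rw [← Finset.mul_sum, Finset.sum_add_distrib, Finset.sum_add_distrib, h1, h2, h3]
  ring

/-- the sum of the single terms -/
theorem Comb_singles (R : Finset A) (ep : A → ℚ) :
    ∑ p ∈ tri R, (ep p.1 + ep p.2.1 + ep p.2.2) =
      3 * ((R.card : ℚ) - 1) * ((R.card : ℚ) - 2) * ∑ i ∈ R, ep i := by
  have h1 := sum3_one R ep
  have h2 := Comb_sum3_2 R ep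
  have h3 := Comb_sum3_3 R ep
  unfold sum3 at h1 h2 h3
  rw [Finset.sum_add_distrib, Finset.sum_add_distrib, h1, h2, h3]
  ring

open Classical in
/-- gain of the pair `(j,l)` against the third element `i`: same centre, different from that of `i` -/
noncomputable def gn (cn : A → Option ℂ) (ρ : A → A → ℚ) (i j l : A) : ℚ :=
  if cn j = cn l ∧ cn i ≠ cn j then ρ j l else 0

theorem Comb_mem_tri {R : Finset A} {p : A × A × A} :
    p ∈ tri R ↔ (p.1 ∈ R ∧ p.2.1 ∈ R ∧ p.2.2 ∈ R) ∧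
      (p.1 ≠ p.2.1 ∧ p.1 ≠ p.2.2 ∧ p.2.1 ≠ p.2.2) := by
  classical
  rw [tri, Finset.mem_filter, Finset.mem_product, Finset.mem_product]

theorem Comb_mem_prs {R : Finset A} {p : A × A} :
    p ∈ prs R ↔ (p.1 ∈ R ∧ p.2 ∈ R) ∧ p.1 ≠ p.2 := by
  classical
  rw [prs, Finset.mem_filter, Finset.mem_product]

theorem Comb_gn_nonneg {R : Finset A} (cn : A → Option ℂ) {ρ : A → A → ℚ}
    (hs : ∀ p ∈ prs R, 0 ≤ ρ p.1 p.2) (i : A) {j l : A} (hj : j ∈ R) (hl : l ∈ R)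
    (hjl : j ≠ l) : 0 ≤ gn cn ρ i j l := by
  classical
  unfold gn
  split_ifs
  · exact hs (j, l) (Comb_mem_prs.2 ⟨⟨hj, hl⟩, hjl⟩)
  · exact le_rfl

/-- the sum of the gains -/
theorem Comb_gains (R : Finset A) (g : A → A → A → ℚ) :
    ∑ p ∈ tri R, 1 / 3 * (g p.1 p.2.1 p.2.2 + g p.2.1 p.1 p.2.2 + g p.2.2 p.1 p.2.1) =
      sum3 R g := by
  have h2 : sum3 R (fun i j l => g j i l) = sum3 R g := sum3_swap12 R g
  have h3 : sum3 R (fun i j l => g l i j) = sum3 R g := by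
    rw [← h2]
    exact sum3_swap23 R (fun i j l => g j i l)
  unfold sum3 at h2 h3 ⊢
  rw [← Finset.mul_sum, Finset.sum_add_distrib, Finset.sum_add_distrib, h2, h3]
  ring

/-- the pointwise inequality, summed -/
theorem Comb_F1 (R : Finset A) (cn : A → Option ℂ) (ρ : A → A → ℚ)
    (om : A → A → A → ℚ) (ep : A → ℚ)
    (h : ∀ p ∈ tri R, 2 / 3 * (ρ p.1 p.2.1 + ρ p.1 p.2.2 + ρ p.2.1 p.2.2)
      - (ep p.1 + ep p.2.1 + ep p.2.2)
      + 1 / 3 * (gn cn ρ p.1 p.2.1 p.2.2 + gn cn ρ p.2.1 p.1 p.2.2 + gn cn ρ p.2.2 p.1 p.2.1)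
        ≤ om p.1 p.2.1 p.2.2) :
    2 * ((R.card : ℚ) - 2) * sum2 R ρ
      - 3 * ((R.card : ℚ) - 1) * ((R.card : ℚ) - 2) * ∑ i ∈ R, ep i + sum3 R (gn cn ρ)
        ≤ sum3 R om := by
  have h1 := Finset.sum_le_sum h
  rw [Finset.sum_add_distrib, Finset.sum_sub_distrib, Comb_pairs, Comb_singles,
    Comb_gains R (gn cn ρ)] at h1
  exact h1

open Classical in
/-- Inequality F1, sharp form: the gains sum up to `∑ (card - #class) ρ` over pairs in one class. If all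
classes are smaller than `R`, this is at least `sum2 R ρ` (`ρ = 0` for pairs in different classes). -/
theorem F1a_abs (R : Finset A) (cn : A → Option ℂ) (ρ : A → A → ℚ) (hsym : ∀ i j, ρ i j = ρ j i)
    (om : A → A → A → ℚ) (ep : A → ℚ)
    (h : ∀ p ∈ tri R, 2 / 3 * (ρ p.1 p.2.1 + ρ p.1 p.2.2 + ρ p.2.1 p.2.2)
      - (ep p.1 + ep p.2.1 + ep p.2.2)
      + 1 / 3 * (gn cn ρ p.1 p.2.1 p.2.2 + gn cn ρ p.2.1 p.1 p.2.2 + gn cn ρ p.2.2 p.1 p.2.1)
        ≤ om p.1 p.2.1 p.2.2)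
    (hd : ∀ p ∈ prs R, cn p.1 ≠ cn p.2 → ρ p.1 p.2 = 0)
    (hs : ∀ p ∈ prs R, 0 ≤ ρ p.1 p.2)
    (hlt : ∀ i ∈ R, (R.filter (fun j => cn j = cn i)).card < R.card) :
    (2 * ((R.card : ℚ) - 2) + 1) * sum2 R ρ
      - 3 * ((R.card : ℚ) - 1) * ((R.card : ℚ) - 2) * ∑ i ∈ R, ep i ≤ sum3 R om := by
  have hF := Comb_F1 R cn ρ om ep h
  have hG : sum2 R ρ ≤ sum3 R (gn cn ρ) := by
    have e1 : sum3 R (gn cn ρ) =
        ∑ j ∈ R, ∑ l ∈ R, ∑ i ∈ R, if i ≠ j ∧ i ≠ l ∧ j ≠ l then gn cn ρ i j l else 0 := by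
      rw [Comb_sum3, Finset.sum_comm]
      refine Finset.sum_congr rfl fun j _ => ?_
      rw [Finset.sum_comm]
    rw [e1, Comb_sum2]
    refine Finset.sum_le_sum fun j hj => Finset.sum_le_sum fun l hl => ?_
    have hnn : ∀ i ∈ R, 0 ≤ (if i ≠ j ∧ i ≠ l ∧ j ≠ l then gn cn ρ i j l else 0) := by
      intro i _
      split_ifs with h1
      · exact Comb_gn_nonneg cn hs i hj hl h1.2.2
      · exact le_rfl
    by_cases hjl : j = l
    · rw [if_neg (fun h1 => h1 hjl)]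
      exact Finset.sum_nonneg hnn
    · rw [if_pos hjl]
      by_cases hc : cn j = cn l
      · -- an element with another centre
        have hex : ∃ i ∈ R, cn i ≠ cn j := by
          by_contra hcon
          push Not at hcon
          have h1 : R.filter (fun i => cn i = cn j) = R := Finset.filter_true_of_mem hcon
          have h2 := hlt j hj
          rw [h1] at h2
          exact lt_irrefl _ h2
        obtain ⟨i, hi, hij⟩ := hex
        have h2 : i ≠ j := fun h3 => hij (by rw [h3])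
        have h4 : i ≠ l := fun h3 => hij (by rw [h3, hc])
        have h5 : (if i ≠ j ∧ i ≠ l ∧ j ≠ l then gn cn ρ i j l else 0) = ρ j l := by
          rw [if_pos ⟨h2, h4, hjl⟩, gn, if_pos ⟨hc, hij⟩]
        rw [← h5]
        exact Finset.single_le_sum hnn hi
      · rw [hd (j, l) (Comb_mem_prs.2 ⟨⟨hj, hl⟩, hjl⟩) hc]
        exact Finset.sum_nonneg hnn
  linarith

/-- Inequality F1, weak form: gains are nonnegative. -/
theorem F1b_abs (R : Finset A) (cn : A → Option ℂ) (ρ : A → A → ℚ) (hsym : ∀ i j, ρ i j = ρ j i)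
    (om : A → A → A → ℚ) (ep : A → ℚ)
    (h : ∀ p ∈ tri R, 2 / 3 * (ρ p.1 p.2.1 + ρ p.1 p.2.2 + ρ p.2.1 p.2.2)
      - (ep p.1 + ep p.2.1 + ep p.2.2)
      + 1 / 3 * (gn cn ρ p.1 p.2.1 p.2.2 + gn cn ρ p.2.1 p.1 p.2.2 + gn cn ρ p.2.2 p.1 p.2.1)
        ≤ om p.1 p.2.1 p.2.2)
    (hs : ∀ p ∈ prs R, 0 ≤ ρ p.1 p.2) :
    2 * ((R.card : ℚ) - 2) * sum2 R ρ
      - 3 * ((R.card : ℚ) - 1) * ((R.card : ℚ) - 2) * ∑ i ∈ R, ep i ≤ sum3 R om := by
  have hF := Comb_F1 R cn ρ om ep h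
  have hG : 0 ≤ sum3 R (gn cn ρ) := by
    unfold sum3
    refine Finset.sum_nonneg fun p hp => ?_
    obtain ⟨⟨_, h2, h3⟩, _, _, h6⟩ := Comb_mem_tri.1 hp
    exact Comb_gn_nonneg cn hs p.1 h2 h3 h6
  linarith

open Classical in
/-- Inequality F2 with a uniform cost `κ` for the noncollinear triples. -/
theorem F2_abs (R : Finset A) (ρ : A → A → ℚ) (hsym : ∀ i j, ρ i j = ρ j i)
    (om : A → A → A → ℚ) (cl : A → A → A → Prop) (κ : ℚ)
    (h1 : ∀ p ∈ tri R, cl p.1 p.2.1 p.2.2 →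
      2 / 3 * (ρ p.1 p.2.1 + ρ p.1 p.2.2 + ρ p.2.1 p.2.2) ≤ om p.1 p.2.1 p.2.2)
    (h2 : ∀ p ∈ tri R, ¬ cl p.1 p.2.1 p.2.2 →
      2 / 3 * (ρ p.1 p.2.1 + ρ p.1 p.2.2 + ρ p.2.1 p.2.2) - κ ≤ om p.1 p.2.1 p.2.2) :
    2 * ((R.card : ℚ) - 2) * sum2 R ρ
      - κ * ((tri R).filter (fun p => ¬ cl p.1 p.2.1 p.2.2)).card ≤ sum3 R om := by
  have h3 : ∀ p ∈ tri R, 2 / 3 * (ρ p.1 p.2.1 + ρ p.1 p.2.2 + ρ p.2.1 p.2.2)
      - (if ¬ cl p.1 p.2.1 p.2.2 then κ else 0) ≤ om p.1 p.2.1 p.2.2 := by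
    intro p hp
    by_cases hc : cl p.1 p.2.1 p.2.2
    · rw [if_neg (fun h => h hc), sub_zero]
      exact h1 p hp hc
    · rw [if_pos hc]
      exact h2 p hp hc
  have h4 := Finset.sum_le_sum h3
  rw [Finset.sum_sub_distrib, Comb_pairs, ← Finset.sum_filter, Finset.sum_const,
    nsmul_eq_mul] at h4
  rw [mul_comm κ]
  exact h4

end WR
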