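import Pool.Agent.helper51.WR.CombI

/-!
# WR-CombC: the abstract inequalities with a weight `f`

`CombC_gain`: if every class has at most `card - f` elements, the gains sum up to at least `f sum2 R ρ`.
`F1c_abs`, `F2c_abs`: the inequalities F1, F2 with this gain. `I1c_abs`: the inequality at infinity with a
weight `f ≤ k`, `f ≤ e0`.
-/

namespace WR

variable {A : Type}

open Classical in
theorem CombC_gain (R : Finset A) (cn : A → Option ℂ) (ρ : A → A → ℚ) (f : ℕ)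
    (hd : ∀ p ∈ prs R, cn p.1 ≠ cn p.2 → ρ p.1 p.2 = 0)
    (hs : ∀ p ∈ prs R, 0 ≤ ρ p.1 p.2)
    (hlt : ∀ i ∈ R, (R.filter (fun j => cn j = cn i)).card + f ≤ R.card) :
    (f : ℚ) * sum2 R ρ ≤ sum3 R (gn cn ρ) := by
  have e1 : sum3 R (gn cn ρ) =
      ∑ j ∈ R, ∑ l ∈ R, ∑ i ∈ R, if i ≠ j ∧ i ≠ l ∧ j ≠ l then gn cn ρ i j l else 0 := by
    rw [Comb_sum3, Finset.sum_comm]
    refine Finset.sum_congr rfl fun j _ => ?_
    rw [Finset.sum_comm]
  rw [e1, Comb_sum2, Finset.mul_sum]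
  refine Finset.sum_le_sum fun j hj => ?_
  rw [Finset.mul_sum]
  refine Finset.sum_le_sum fun l hl => ?_
  have hnn : ∀ i ∈ R, 0 ≤ (if i ≠ j ∧ i ≠ l ∧ j ≠ l then gn cn ρ i j l else 0) := by
    intro i _
    split_ifs with h1
    · exact Comb_gn_nonneg cn hs i hj hl h1.2.2
    · exact le_rfl
  by_cases hjl : j = l
  · rw [if_neg (fun h1 => h1 hjl), mul_zero]
    exact Finset.sum_nonneg hnn
  · rw [if_pos hjl]
    by_cases hc : cn j = cn l
    · have h0 : 0 ≤ ρ j l := hs (j, l) (Comb_mem_prs.2 ⟨⟨hj, hl⟩, hjl⟩)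
      have h1 : ∀ i ∈ R, (if i ≠ j ∧ i ≠ l ∧ j ≠ l then gn cn ρ i j l else 0) =
          if cn i ≠ cn j then ρ j l else 0 := by
        intro i _
        by_cases hij : cn i = cn j
        · have h6 : gn cn ρ i j l = 0 := by
            unfold gn
            rw [if_neg (fun h : cn j = cn l ∧ cn i ≠ cn j => h.2 hij)]
          rw [h6, ite_self, if_neg (fun h : cn i ≠ cn j => h hij)]
        · have h2 : i ≠ j := fun h3 => hij (by rw [h3])
          have h4 : i ≠ l := fun h3 => hij (by rw [h3, hc])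
          rw [if_pos ⟨h2, h4, hjl⟩, if_pos hij]
          unfold gn
          rw [if_pos ⟨hc, hij⟩]
      rw [Finset.sum_congr rfl h1, ← Finset.sum_filter, Finset.sum_const, nsmul_eq_mul]
      have h2 := Finset.card_filter_add_card_filter_not (s := R) (fun i => cn i = cn j)
      have h3 := hlt j hj
      have h4 : f ≤ (R.filter (fun i => ¬ cn i = cn j)).card := by omega
      have h5 : (f : ℚ) ≤ ((R.filter (fun i => ¬ cn i = cn j)).card : ℚ) := by exact_mod_cast h4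
      exact mul_le_mul_of_nonneg_right h5 h0
    · rw [hd (j, l) (Comb_mem_prs.2 ⟨⟨hj, hl⟩, hjl⟩) hc, mul_zero]
      exact Finset.sum_nonneg hnn

open Classical in
/-- Inequality F1 with the weight `f`. -/
theorem F1c_abs (R : Finset A) (cn : A → Option ℂ) (ρ : A → A → ℚ)
    (om : A → A → A → ℚ) (ep : A → ℚ) (f : ℕ)
    (h : ∀ p ∈ tri R, 2 / 3 * (ρ p.1 p.2.1 + ρ p.1 p.2.2 + ρ p.2.1 p.2.2)
      - (ep p.1 + ep p.2.1 + ep p.2.2)
      + 1 / 3 * (gn cn ρ p.1 p.2.1 p.2.2 + gn cn ρ p.2.1 p.1 p.2.2 + gn cn ρ p.2.2 p.1 p.2.1)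
        ≤ om p.1 p.2.1 p.2.2)
    (hd : ∀ p ∈ prs R, cn p.1 ≠ cn p.2 → ρ p.1 p.2 = 0)
    (hs : ∀ p ∈ prs R, 0 ≤ ρ p.1 p.2)
    (hlt : ∀ i ∈ R, (R.filter (fun j => cn j = cn i)).card + f ≤ R.card) :
    (2 * ((R.card : ℚ) - 2) + f) * sum2 R ρ
      - 3 * ((R.card : ℚ) - 1) * ((R.card : ℚ) - 2) * ∑ i ∈ R, ep i ≤ sum3 R om := by
  have hF := Comb_F1 R cn ρ om ep h
  have hG := CombC_gain R cn ρ f hd hs hlt
  linarith

open Classical in
/-- Inequality F2 with the weight `f`. -/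
theorem F2c_abs (R : Finset A) (cn : A → Option ℂ) (ρ : A → A → ℚ)
    (om : A → A → A → ℚ) (cl : A → A → A → Prop) (f : ℕ)
    (h : ∀ p ∈ tri R, 2 / 3 * (ρ p.1 p.2.1 + ρ p.1 p.2.2 + ρ p.2.1 p.2.2)
      - (if ¬ cl p.1 p.2.1 p.2.2 then 1 else 0)
      + 1 / 3 * (gn cn ρ p.1 p.2.1 p.2.2 + gn cn ρ p.2.1 p.1 p.2.2 + gn cn ρ p.2.2 p.1 p.2.1)
        ≤ om p.1 p.2.1 p.2.2)
    (hd : ∀ p ∈ prs R, cn p.1 ≠ cn p.2 → ρ p.1 p.2 = 0)
    (hs : ∀ p ∈ prs R, 0 ≤ ρ p.1 p.2)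
    (hlt : ∀ i ∈ R, (R.filter (fun j => cn j = cn i)).card + f ≤ R.card) :
    (2 * ((R.card : ℚ) - 2) + f) * sum2 R ρ
      - ((tri R).filter (fun p => ¬ cl p.1 p.2.1 p.2.2)).card ≤ sum3 R om := by
  have h1 := Finset.sum_le_sum h
  rw [Finset.sum_add_distrib, Finset.sum_sub_distrib, Comb_pairs,
    Comb_gains R (gn cn ρ), ← Finset.sum_filter, Finset.sum_const, nsmul_eq_mul, mul_one] at h1
  have hG := CombC_gain R cn ρ f hd hs hlt
  change _ ≤ sum3 R om at h1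
  linarith

open Classical in
/-- Inequality I1 with the weight `f`. -/
theorem I1c_abs (R : Finset A) (cn : A → Option ℂ) (ρ : A → A → ℚ) (hsym : ∀ i j, ρ i j = ρ j i)
    (om : A → A → A → ℚ) (ep : A → ℚ) (cl : A → A → A → Prop) (q : ℚ) (k e0 m f : ℕ)
    (hk : (R.filter (fun i => cn i ≠ none)).card = k)
    (he : (R.filter (fun i => cn i = none)).card = e0) (hk1 : f ≤ k) (he1 : f ≤ e0)
    (hq : q * e0 = m)
    (h : ∀ p ∈ tri R, 2 / 3 * (ρ p.1 p.2.1 + ρ p.1 p.2.2 + ρ p.2.1 p.2.2)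
      - ci cn ep cl p.1 p.2.1 p.2.2
      + 1 / 3 * (gi cn ρ q p.1 p.2.1 p.2.2 + gi cn ρ q p.2.1 p.1 p.2.2 + gi cn ρ q p.2.2 p.1 p.2.1)
        ≤ om p.1 p.2.1 p.2.2)
    (hep : ∀ i ∈ R, 0 ≤ ep i)
    (hu : ∀ p ∈ prs R, cn p.1 ≠ none → cn p.2 ≠ none → 0 ≤ ρ p.1 p.2)
    (hm : ∀ p ∈ prs R, cn p.1 = none → cn p.2 ≠ none → ρ p.1 p.2 = - q)
    (h0 : ∀ p ∈ prs R, cn p.1 = none → cn p.2 = none → - q ≤ ρ p.1 p.2) :
    (2 * ((R.card : ℚ) - 2) + f) * sum2 R ρ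
        - ((tri R).filter (fun p => ¬ cl p.1 p.2.1 p.2.2)).card
        - 3 * ((R.card : ℚ) - 1) * ((R.card : ℚ) - 2) *
          (∑ i ∈ R.filter (fun i => cn i ≠ none), ep i)
        + m * (f * (2 * k + e0 - 1) + k * (k - 1)) ≤ sum3 R om := by
  have hsum := CombI_sum3_le R (fun i j l => 2 / 3 * (ρ i j + ρ i l + ρ j l)
      - ci cn ep cl i j l
      + 1 / 3 * (gi cn ρ q i j l + gi cn ρ q j i l + gi cn ρ q l i j)) om h
  rw [CombI_sum3_add, CombI_sum3_sub, CombI_sum3_mul, CombI_sum3_mul, CombI_sum3_add,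
    CombI_sum3_add, CombI_sum3_add, CombI_sum3_add] at hsum
  have p1 : sum3 R (fun i j _ => ρ i j) = ((R.card : ℚ) - 2) * sum2 R ρ := sum3_pair R ρ
  have p2 : sum3 R (fun i _ l => ρ i l) = ((R.card : ℚ) - 2) * sum2 R ρ := by
    rw [← p1]
    exact sum3_swap23 R (fun i j _ => ρ i j)
  have p3 : sum3 R (fun _ j l => ρ j l) = ((R.card : ℚ) - 2) * sum2 R ρ := by
    rw [← p2]
    exact sum3_swap12 R (fun i _ l => ρ i l)
  have g1 : sum3 R (fun i j l => gi cn ρ q j i l) = sum3 R (gi cn ρ q) :=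
    sum3_swap12 R (gi cn ρ q)
  have g2 : sum3 R (fun i j l => gi cn ρ q l i j) = sum3 R (gi cn ρ q) :=
    CombI_sum3_cyc R (gi cn ρ q)
  have g0 : sum3 R (fun i j l => gi cn ρ q i j l) = sum3 R (gi cn ρ q) := rfl
  have c0 : sum3 R (fun i j l => ci cn ep cl i j l) = sum3 R (ci cn ep cl) := rfl
  rw [p1, p2, p3, g0, g1, g2, c0] at hsum
  have hcost := CombI_cost R cn ep cl hep
  have hgain := CombI_gain R cn ρ q hu
  have hsplit := CombI_sum2_split R (fun i => cn i = none) (fun i => cn i ≠ none)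
    (fun i => Iff.rfl) ρ
  have hU0 : 0 ≤ sum2 (R.filter (fun i => cn i ≠ none)) ρ := by
    refine CombI_sum2_nonneg _ _ fun p hp => ?_
    obtain ⟨a, b, c⟩ := CombI_mem_prs_of_filter R _ p hp
    exact hu p a b c
  have hC0 : 0 ≤ sum2 (R.filter (fun i => cn i = none)) (fun j l => q + ρ j l) := by
    refine CombI_sum2_nonneg _ _ fun p hp => ?_
    obtain ⟨a, b, c⟩ := CombI_mem_prs_of_filter R _ p hp
    have := h0 p a b c
    linarith
  have mem : ∀ i ∈ R.filter (fun i => cn i = none), ∀ j ∈ R.filter (fun i => cn i ≠ none),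
      ρ i j = - q := by
    intro i hi j hj
    obtain ⟨hi1, hi2⟩ := Finset.mem_filter.1 hi
    obtain ⟨hj1, hj2⟩ := Finset.mem_filter.1 hj
    refine hm (i, j) ?_ hi2 hj2
    unfold prs
    refine Finset.mem_filter.2 ⟨Finset.mem_product.2 ⟨hi1, hj1⟩, ?_⟩
    intro hij
    dsimp only at hij
    exact hj2 (hij ▸ hi2)
  have x1 : ∑ i ∈ R.filter (fun i => cn i = none), ∑ j ∈ R.filter (fun i => cn i ≠ none), ρ i j
      = - ((e0 : ℚ) * k * q) := by
    rw [Finset.sum_congr rfl fun i hi => Finset.sum_congr rfl fun j hj => mem i hi j hj]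
    rw [Finset.sum_const, Finset.sum_const, nsmul_eq_mul, nsmul_eq_mul]
    rw [hk, he]
    ring
  have x2 : ∑ i ∈ R.filter (fun i => cn i ≠ none), ∑ j ∈ R.filter (fun i => cn i = none), ρ i j
      = - ((e0 : ℚ) * k * q) := by
    rw [Finset.sum_comm, ← x1]
    refine Finset.sum_congr rfl fun i _ => Finset.sum_congr rfl fun j _ => hsym _ _
  rw [x1, x2] at hsplit
  rw [CombI_sum2_add_const] at hgain hC0
  rw [CombI_sum2_add_const] at hgain
  rw [he] at hgain hC0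
  rw [hk] at hgain
  set SU := sum2 (R.filter (fun i => cn i ≠ none)) ρ
  set S0 := sum2 (R.filter (fun i => cn i = none)) ρ
  set G := sum3 R (gi cn ρ q)
  set K := sum3 R (ci cn ep cl)
  set S2 := sum2 R ρ
  have hk1' : (f : ℚ) ≤ k := by exact_mod_cast hk1
  have he1' : (f : ℚ) ≤ e0 := by exact_mod_cast he1
  have y1 : f * SU ≤ e0 * SU := mul_le_mul_of_nonneg_right he1' hU0
  have y2 : (f : ℚ) * ((e0 : ℚ) * (e0 - 1) * q + S0) ≤ k * ((e0 : ℚ) * (e0 - 1) * q + S0) :=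
    mul_le_mul_of_nonneg_right hk1' hC0
  have y3 : (e0 : ℚ) * (k * (k - 1) * q + SU) = m * (k * (k - 1)) + e0 * SU := by
    rw [← hq]; ring
  have y4 : (e0 : ℚ) * (e0 - 1) * q = m * (e0 - 1) := by rw [← hq]; ring
  have y5 : (e0 : ℚ) * k * q = m * k := by rw [← hq]; ring
  have : m * (f * (2 * (k : ℚ) + e0 - 1) + k * (k - 1)) + f * S2 ≤ G := by
    rw [hsplit, y5]
    calc m * (f * (2 * (k : ℚ) + e0 - 1) + k * (k - 1)) + f * (S0 + SU + -(m * k) + -(m * k))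
        = m * (k * (k - 1)) + f * SU + f * (m * (e0 - 1) + S0) := by ring
      _ ≤ e0 * (k * (k - 1) * q + SU) + k * (e0 * (e0 - 1) * q + S0) := by
          rw [y3]
          rw [y4] at y2 ⊢
          linarith
      _ ≤ G := hgain
  linarith

end WR
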