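import Pool.Agent.helper51.WR.CombC

/-!
# WR-CombD: the abstract inequality at infinity with cost one

As `I1c_abs`, with the cost `1` for the noncollinear triples only, and a weight `f ≤ k` such that every class
of finite centre has at most `card - f` elements. The gains against the pair `(j,l)` are at least
`e0 q + f ρ` (both in `U`), `k (q + ρ)` (both in `C0`).
-/

namespace WR

variable {A : Type}

open Classical in
/-- the gains of all triples containing the pair `(j,l)` -/
theorem CombD_pair (R : Finset A) (cn : A → Option ℂ) (ρ : A → A → ℚ) (q : ℚ) (f e0 k : ℕ)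
    (hk : (R.filter (fun i => cn i ≠ none)).card = k)
    (he : (R.filter (fun i => cn i = none)).card = e0)
    (hd : ∀ p ∈ prs R, cn p.1 ≠ none → cn p.2 ≠ none → cn p.1 ≠ cn p.2 → ρ p.1 p.2 = 0)
    (hu : ∀ p ∈ prs R, cn p.1 ≠ none → cn p.2 ≠ none → 0 ≤ ρ p.1 p.2)
    (hlt : ∀ i ∈ R, cn i ≠ none → (R.filter (fun j => cn j = cn i)).card + f ≤ R.card)
    {j l : A} (hj : j ∈ R) (hl : l ∈ R) (hjl : j ≠ l) :
    (if cn j = none ∧ cn l = none then (k : ℚ) * (q + ρ j l)
      else if cn j ≠ none ∧ cn l ≠ none then e0 * q + f * ρ j l else 0) ≤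
    ∑ i ∈ R, if i ≠ j ∧ i ≠ l ∧ j ≠ l then gi cn ρ q i j l else 0 := by
  have hp : (j, l) ∈ prs R := Comb_mem_prs.2 ⟨⟨hj, hl⟩, hjl⟩
  by_cases cj : cn j = none
  · by_cases cl : cn l = none
    · rw [if_pos ⟨cj, cl⟩]
      have h1 : ∀ i ∈ R, (if i ≠ j ∧ i ≠ l ∧ j ≠ l then gi cn ρ q i j l else 0) =
          if cn i ≠ none then q + ρ j l else 0 := by
        intro i _
        have hg : gi cn ρ q i j l = if cn i ≠ none then q + ρ j l else 0 := by
          unfold gi
          rw [if_neg (fun h : cn j ≠ none ∧ cn l ≠ none => h.1 cj)]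
          by_cases hi : cn i = none
          · rw [if_neg (fun h : cn j = none ∧ cn l = none ∧ cn i ≠ none => h.2.2 hi),
              if_neg (fun h : cn i ≠ none => h hi)]
          · rw [if_pos ⟨cj, cl, hi⟩, if_pos hi]
        by_cases hi : cn i = none
        · rw [hg, if_neg (fun h : cn i ≠ none => h hi), ite_self]
        · have h2 : i ≠ j := fun h => hi (h ▸ cj)
          have h3 : i ≠ l := fun h => hi (h ▸ cl)
          rw [if_pos ⟨h2, h3, hjl⟩, hg]
      rw [Finset.sum_congr rfl h1, ← Finset.sum_filter, Finset.sum_const, nsmul_eq_mul, hk]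
    · rw [if_neg (fun h : cn j = none ∧ cn l = none => cl h.2),
        if_neg (fun h : cn j ≠ none ∧ cn l ≠ none => h.1 cj)]
      refine Finset.sum_nonneg fun i _ => ?_
      have hg : gi cn ρ q i j l = 0 := by
        unfold gi
        rw [if_neg (fun h : cn j ≠ none ∧ cn l ≠ none => h.1 cj),
          if_neg (fun h : cn j = none ∧ cn l = none ∧ cn i ≠ none => cl h.2.1)]
      rw [hg, ite_self]
  · by_cases cl : cn l = none
    · rw [if_neg (fun h : cn j = none ∧ cn l = none => cj h.1),
        if_neg (fun h : cn j ≠ none ∧ cn l ≠ none => h.2 cl)]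
      refine Finset.sum_nonneg fun i _ => ?_
      have hg : gi cn ρ q i j l = 0 := by
        unfold gi
        rw [if_neg (fun h : cn j ≠ none ∧ cn l ≠ none => h.2 cl),
          if_neg (fun h : cn j = none ∧ cn l = none ∧ cn i ≠ none => cj h.1)]
      rw [hg, ite_self]
    · rw [if_neg (fun h : cn j = none ∧ cn l = none => cj h.1), if_pos ⟨cj, cl⟩]
      have h0 : 0 ≤ ρ j l := hu (j, l) hp cj cl
      by_cases hc : cn j = cn l
      · have h1 : ∀ i ∈ R, (if i ≠ j ∧ i ≠ l ∧ j ≠ l then gi cn ρ q i j l else 0) =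
            (if cn i = none then q else 0) + if cn i ≠ cn j then ρ j l else 0 := by
          intro i _
          have hg : gi cn ρ q i j l =
              (if cn i = none then q else 0) + if cn i ≠ cn j then ρ j l else 0 := by
            unfold gi
            rw [if_pos ⟨cj, cl⟩]
            by_cases hi : cn i = none
            · have h2 : cn i ≠ cn j := fun h => cj (h ▸ hi)
              rw [if_pos hi, if_pos hi, if_pos h2]
            · rw [if_neg hi, if_neg hi, zero_add]
              by_cases h2 : cn i = cn j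
              · rw [if_neg (fun h : cn j = cn l ∧ cn i ≠ cn j => h.2 h2),
                  if_neg (fun h : cn i ≠ cn j => h h2)]
              · rw [if_pos ⟨hc, h2⟩, if_pos h2]
          by_cases h2 : cn i = cn j
          · have h3 : cn i ≠ none := fun h => cj (h2 ▸ h)
            rw [hg, if_neg h3, if_neg (fun h : cn i ≠ cn j => h h2), add_zero, ite_self]
          · have h3 : i ≠ j := fun h => h2 (by rw [h])
            have h4 : i ≠ l := fun h => h2 (by rw [h, hc])
            rw [if_pos ⟨h3, h4, hjl⟩, hg]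
        rw [Finset.sum_congr rfl h1, Finset.sum_add_distrib, ← Finset.sum_filter,
          ← Finset.sum_filter, Finset.sum_const, Finset.sum_const, nsmul_eq_mul, nsmul_eq_mul, he]
        have h2 := Finset.card_filter_add_card_filter_not (s := R) (fun i => cn i = cn j)
        have h3 := hlt j hj cj
        have h4 : f ≤ (R.filter (fun i => ¬ cn i = cn j)).card := by omega
        have h5 : (f : ℚ) ≤ ((R.filter (fun i => ¬ cn i = cn j)).card : ℚ) := by exact_mod_cast h4
        have h6 := mul_le_mul_of_nonneg_right h5 h0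
        change (e0 : ℚ) * q + f * ρ j l ≤ e0 * q + ((R.filter (fun i => ¬ cn i = cn j)).card : ℚ) * ρ j l
        linarith
      · rw [hd (j, l) hp cj cl hc, mul_zero, add_zero]
        have h1 : ∀ i ∈ R, (if i ≠ j ∧ i ≠ l ∧ j ≠ l then gi cn ρ q i j l else 0) =
            if cn i = none then q else 0 := by
          intro i _
          have hg : gi cn ρ q i j l = if cn i = none then q else 0 := by
            unfold gi
            rw [if_pos ⟨cj, cl⟩, if_neg (fun h : cn j = cn l ∧ cn i ≠ cn j => hc h.1)]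
            have h7 : ρ j l = 0 := hd (j, l) hp cj cl hc
            rw [h7, add_zero]
          by_cases hi : cn i = none
          · have h3 : i ≠ j := fun h => cj (h ▸ hi)
            have h4 : i ≠ l := fun h => cl (h ▸ hi)
            rw [if_pos ⟨h3, h4, hjl⟩, hg]
          · rw [hg, if_neg hi, ite_self]
        rw [Finset.sum_congr rfl h1, ← Finset.sum_filter, Finset.sum_const, nsmul_eq_mul, he]

open Classical in
/-- the sum of the lower bounds over all pairs -/
theorem CombD_sum (R : Finset A) (cn : A → Option ℂ) (ρ : A → A → ℚ) (q : ℚ) (f e0 k : ℕ)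
    (hk : (R.filter (fun i => cn i ≠ none)).card = k)
    (he : (R.filter (fun i => cn i = none)).card = e0) :
    sum2 R (fun j l => if cn j = none ∧ cn l = none then (k : ℚ) * (q + ρ j l)
      else if cn j ≠ none ∧ cn l ≠ none then e0 * q + f * ρ j l else 0) =
    k * (e0 * (e0 - 1) * q + sum2 (R.filter (fun i => cn i = none)) ρ) +
      (k * (k - 1) * (e0 * q) + f * sum2 (R.filter (fun i => cn i ≠ none)) ρ) := by
  rw [CombI_sum2_split R (fun i => cn i = none) (fun i => cn i ≠ none) (fun i => Iff.rfl)]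
  have h1 : sum2 (R.filter (fun i => cn i = none)) (fun j l => if cn j = none ∧ cn l = none then
      (k : ℚ) * (q + ρ j l) else if cn j ≠ none ∧ cn l ≠ none then e0 * q + f * ρ j l else 0) =
      k * (e0 * (e0 - 1) * q + sum2 (R.filter (fun i => cn i = none)) ρ) := by
    have h2 : sum2 (R.filter (fun i => cn i = none)) (fun j l => q + ρ j l) =
        (e0 : ℚ) * (e0 - 1) * q + sum2 (R.filter (fun i => cn i = none)) ρ := by
      rw [CombI_sum2_add_const, he]
    rw [← h2]
    unfold sum2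
    rw [Finset.mul_sum]
    refine Finset.sum_congr rfl fun p hp => ?_
    obtain ⟨-, a, b⟩ := CombI_mem_prs_of_filter R _ p hp
    dsimp only
    rw [if_pos ⟨a, b⟩]
  have h3 : sum2 (R.filter (fun i => cn i ≠ none)) (fun j l => if cn j = none ∧ cn l = none then
      (k : ℚ) * (q + ρ j l) else if cn j ≠ none ∧ cn l ≠ none then e0 * q + f * ρ j l else 0) =
      k * (k - 1) * (e0 * q) + f * sum2 (R.filter (fun i => cn i ≠ none)) ρ := by
    have h2 : sum2 (R.filter (fun i => cn i ≠ none)) (fun j l => e0 * q + f * ρ j l) =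
        (k : ℚ) * (k - 1) * (e0 * q) + sum2 (R.filter (fun i => cn i ≠ none)) (fun j l => f * ρ j l) := by
      rw [CombI_sum2_add_const _ (fun j l => f * ρ j l), hk]
    have h4 : sum2 (R.filter (fun i => cn i ≠ none)) (fun j l => f * ρ j l) =
        f * sum2 (R.filter (fun i => cn i ≠ none)) ρ := by
      unfold sum2
      rw [Finset.mul_sum]
    rw [← h4, ← h2]
    unfold sum2
    refine Finset.sum_congr rfl fun p hp => ?_
    obtain ⟨-, a, b⟩ := CombI_mem_prs_of_filter R _ p hp
    dsimp only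
    rw [if_neg (fun h : cn p.1 = none ∧ cn p.2 = none => a h.1), if_pos ⟨a, b⟩]
  rw [h1, h3]
  have h5 : ∑ i ∈ R.filter (fun i => cn i = none), ∑ j ∈ R.filter (fun i => cn i ≠ none),
      (if cn i = none ∧ cn j = none then (k : ℚ) * (q + ρ i j)
        else if cn i ≠ none ∧ cn j ≠ none then e0 * q + f * ρ i j else 0) = 0 := by
    refine Finset.sum_eq_zero fun i hi => Finset.sum_eq_zero fun j hj => ?_
    have a := (Finset.mem_filter.1 hi).2
    have b := (Finset.mem_filter.1 hj).2
    rw [if_neg (fun h : cn i = none ∧ cn j = none => b h.2),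
      if_neg (fun h : cn i ≠ none ∧ cn j ≠ none => h.1 a)]
  have h6 : ∑ i ∈ R.filter (fun i => cn i ≠ none), ∑ j ∈ R.filter (fun i => cn i = none),
      (if cn i = none ∧ cn j = none then (k : ℚ) * (q + ρ i j)
        else if cn i ≠ none ∧ cn j ≠ none then e0 * q + f * ρ i j else 0) = 0 := by
    refine Finset.sum_eq_zero fun i hi => Finset.sum_eq_zero fun j hj => ?_
    have a := (Finset.mem_filter.1 hi).2
    have b := (Finset.mem_filter.1 hj).2
    rw [if_neg (fun h : cn i = none ∧ cn j = none => a h.1),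
      if_neg (fun h : cn i ≠ none ∧ cn j ≠ none => h.2 b)]
  rw [h5, h6, add_zero, add_zero]

open Classical in
/-- Inequality I1 with the weight `f`, cost one. -/
theorem I1d_abs (R : Finset A) (cn : A → Option ℂ) (ρ : A → A → ℚ) (hsym : ∀ i j, ρ i j = ρ j i)
    (om : A → A → A → ℚ) (cl : A → A → A → Prop) (q : ℚ) (k e0 m f : ℕ)
    (hk : (R.filter (fun i => cn i ≠ none)).card = k)
    (he : (R.filter (fun i => cn i = none)).card = e0) (hk1 : f ≤ k)
    (hq : q * e0 = m)
    (h : ∀ p ∈ tri R, 2 / 3 * (ρ p.1 p.2.1 + ρ p.1 p.2.2 + ρ p.2.1 p.2.2)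
      - (if ¬ cl p.1 p.2.1 p.2.2 then 1 else 0)
      + 1 / 3 * (gi cn ρ q p.1 p.2.1 p.2.2 + gi cn ρ q p.2.1 p.1 p.2.2 + gi cn ρ q p.2.2 p.1 p.2.1)
        ≤ om p.1 p.2.1 p.2.2)
    (hd : ∀ p ∈ prs R, cn p.1 ≠ none → cn p.2 ≠ none → cn p.1 ≠ cn p.2 → ρ p.1 p.2 = 0)
    (hu : ∀ p ∈ prs R, cn p.1 ≠ none → cn p.2 ≠ none → 0 ≤ ρ p.1 p.2)
    (hm : ∀ p ∈ prs R, cn p.1 = none → cn p.2 ≠ none → ρ p.1 p.2 = - q)
    (h0 : ∀ p ∈ prs R, cn p.1 = none → cn p.2 = none → - q ≤ ρ p.1 p.2)
    (hlt : ∀ i ∈ R, cn i ≠ none → (R.filter (fun j => cn j = cn i)).card + f ≤ R.card) :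
    (2 * ((R.card : ℚ) - 2) + f) * sum2 R ρ
        - ((tri R).filter (fun p => ¬ cl p.1 p.2.1 p.2.2)).card
        + m * (f * (2 * k + e0 - 1) + k * (k - 1)) ≤ sum3 R om := by
  have h1 := Finset.sum_le_sum h
  rw [Finset.sum_add_distrib, Finset.sum_sub_distrib, Comb_pairs,
    Comb_gains R (gi cn ρ q), ← Finset.sum_filter, Finset.sum_const, nsmul_eq_mul, mul_one] at h1
  change _ ≤ sum3 R om at h1
  have hgain : sum2 R (fun j l => if cn j = none ∧ cn l = none then (k : ℚ) * (q + ρ j l)
      else if cn j ≠ none ∧ cn l ≠ none then e0 * q + f * ρ j l else 0) ≤ sum3 R (gi cn ρ q) := by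
    have e1 : sum3 R (gi cn ρ q) =
        ∑ j ∈ R, ∑ l ∈ R, ∑ i ∈ R, if i ≠ j ∧ i ≠ l ∧ j ≠ l then gi cn ρ q i j l else 0 := by
      rw [Comb_sum3, Finset.sum_comm]
      refine Finset.sum_congr rfl fun j _ => ?_
      rw [Finset.sum_comm]
    rw [e1, Comb_sum2]
    refine Finset.sum_le_sum fun j hj => Finset.sum_le_sum fun l hl => ?_
    by_cases hjl : j = l
    · rw [if_neg (fun h1 => h1 hjl)]
      refine Finset.sum_nonneg fun i _ => ?_
      rw [if_neg (fun h2 : i ≠ j ∧ i ≠ l ∧ j ≠ l => h2.2.2 hjl)]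
    · rw [if_pos hjl]
      exact CombD_pair R cn ρ q f e0 k hk he hd hu hlt hj hl hjl
  rw [CombD_sum R cn ρ q f e0 k hk he] at hgain
  have hsplit := CombI_sum2_split R (fun i => cn i = none) (fun i => cn i ≠ none)
    (fun i => Iff.rfl) ρ
  have hC0 : 0 ≤ sum2 (R.filter (fun i => cn i = none)) (fun j l => q + ρ j l) := by
    refine CombI_sum2_nonneg _ _ fun p hp => ?_
    obtain ⟨a, b, c⟩ := CombI_mem_prs_of_filter R _ p hp
    have := h0 p a b c
    linarith
  have mem : ∀ i ∈ R.filter (fun i => cn i = none), ∀ j ∈ R.filter (fun i => cn i ≠ none),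
      ρ i j = - q := by
    intro i hi j hj
    obtain ⟨hi1, hi2⟩ := Finset.mem_filter.1 hi
    obtain ⟨hj1, hj2⟩ := Finset.mem_filter.1 hj
    refine hm (i, j) ?_ hi2 hj2
    unfold prs
    refine Finset.mem_filter.2 ⟨Finset.mem_product.2 ⟨hi1, hj1⟩, ?_⟩
    intro hij
    dsimp only at hij
    exact hj2 (hij ▸ hi2)
  have x1 : ∑ i ∈ R.filter (fun i => cn i = none), ∑ j ∈ R.filter (fun i => cn i ≠ none), ρ i j
      = - ((e0 : ℚ) * k * q) := by
    rw [Finset.sum_congr rfl fun i hi => Finset.sum_congr rfl fun j hj => mem i hi j hj]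
    rw [Finset.sum_const, Finset.sum_const, nsmul_eq_mul, nsmul_eq_mul]
    rw [hk, he]
    ring
  have x2 : ∑ i ∈ R.filter (fun i => cn i ≠ none), ∑ j ∈ R.filter (fun i => cn i = none), ρ i j
      = - ((e0 : ℚ) * k * q) := by
    rw [Finset.sum_comm, ← x1]
    refine Finset.sum_congr rfl fun i _ => Finset.sum_congr rfl fun j _ => hsym _ _
  rw [x1, x2] at hsplit
  rw [CombI_sum2_add_const, he] at hC0
  set SU := sum2 (R.filter (fun i => cn i ≠ none)) ρ
  set S0 := sum2 (R.filter (fun i => cn i = none)) ρ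
  set G := sum3 R (gi cn ρ q)
  set S2 := sum2 R ρ
  have hk1' : (f : ℚ) ≤ k := by exact_mod_cast hk1
  have y2 : (f : ℚ) * ((e0 : ℚ) * (e0 - 1) * q + S0) ≤ k * ((e0 : ℚ) * (e0 - 1) * q + S0) :=
    mul_le_mul_of_nonneg_right hk1' hC0
  have y3 : (k : ℚ) * (k - 1) * (e0 * q) = m * (k * (k - 1)) := by
    rw [← hq]; ring
  have y4 : (e0 : ℚ) * (e0 - 1) * q = m * (e0 - 1) := by rw [← hq]; ring
  have y5 : (e0 : ℚ) * k * q = m * k := by rw [← hq]; ring
  have : m * (f * (2 * (k : ℚ) + e0 - 1) + k * (k - 1)) + f * S2 ≤ G := by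
    rw [hsplit, y5]
    calc m * (f * (2 * (k : ℚ) + e0 - 1) + k * (k - 1)) + f * (S0 + SU + -(m * k) + -(m * k))
        = f * (m * (e0 - 1) + S0) + (m * (k * (k - 1)) + f * SU) := by ring
      _ ≤ k * (e0 * (e0 - 1) * q + S0) + (k * (k - 1) * (e0 * q) + f * SU) := by
          rw [y3]
          rw [y4] at y2 ⊢
          linarith
      _ ≤ G := hgain
  linarith

end WR
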