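import Pool.Agent.helper51.WR.CombD

/-!
# WR-CombE: the abstract inequality at infinity with blocks in `C0`

As `I1d_abs`, with additional gains of the triples in `C0` with `ρ i j = ρ i l = - q`. The blocks
`{i : i = j or - q < ρ i j}` in `C0` have at most `g` elements, so the gains against a pair `(j,l)` in `C0` are at
least `(card - g)(q + ρ j l)`.
-/

namespace WR

variable {A : Type}

open Classical in
/-- gains at infinity, with the gains in `C0` -/
noncomputable def gj (cn : A → Option ℂ) (ρ : A → A → ℚ) (q : ℚ) (i j l : A) : ℚ :=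
  gi cn ρ q i j l +
    if cn i = none ∧ cn j = none ∧ cn l = none ∧ ρ i j = - q ∧ ρ i l = - q then q + ρ j l else 0

open Classical in
/-- the gains of all triples containing the pair `(j,l)` -/
theorem CombE_pair (R : Finset A) (cn : A → Option ℂ) (ρ : A → A → ℚ) (hsym : ∀ i j, ρ i j = ρ j i)
    (q : ℚ) (f e0 k g : ℕ)
    (hk : (R.filter (fun i => cn i ≠ none)).card = k)
    (he : (R.filter (fun i => cn i = none)).card = e0)
    (hd : ∀ p ∈ prs R, cn p.1 ≠ none → cn p.2 ≠ none → cn p.1 ≠ cn p.2 → ρ p.1 p.2 = 0)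
    (hu : ∀ p ∈ prs R, cn p.1 ≠ none → cn p.2 ≠ none → 0 ≤ ρ p.1 p.2)
    (h0 : ∀ p ∈ prs R, cn p.1 = none → cn p.2 = none → - q ≤ ρ p.1 p.2)
    (hlt : ∀ i ∈ R, cn i ≠ none → (R.filter (fun j => cn j = cn i)).card + f ≤ R.card)
    (hg : ∀ j ∈ R, cn j = none →
      (R.filter (fun i => cn i = none ∧ (i = j ∨ - q < ρ i j))).card ≤ g)
    (hult : ∀ i ∈ R, ∀ j ∈ R, ∀ l ∈ R, i ≠ j → i ≠ l → j ≠ l → cn i = none → cn j = none →
      cn l = none → min (ρ i l) (ρ j l) ≤ ρ i j)
    {j l : A} (hj : j ∈ R) (hl : l ∈ R) (hjl : j ≠ l) :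
    (if cn j = none ∧ cn l = none then (((k : ℚ) + e0 - g)) * (q + ρ j l)
      else if cn j ≠ none ∧ cn l ≠ none then e0 * q + f * ρ j l else 0) ≤
    ∑ i ∈ R, if i ≠ j ∧ i ≠ l ∧ j ≠ l then gj cn ρ q i j l else 0 := by
  have hp : (j, l) ∈ prs R := Comb_mem_prs.2 ⟨⟨hj, hl⟩, hjl⟩
  have hD := CombD_pair R cn ρ q f e0 k hk he hd hu hlt hj hl hjl
  have hsplit : ∑ i ∈ R, (if i ≠ j ∧ i ≠ l ∧ j ≠ l then gj cn ρ q i j l else 0) =
      ∑ i ∈ R, (if i ≠ j ∧ i ≠ l ∧ j ≠ l then gi cn ρ q i j l else 0) +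
      ∑ i ∈ R, (if i ≠ j ∧ i ≠ l ∧ j ≠ l then
        (if cn i = none ∧ cn j = none ∧ cn l = none ∧ ρ i j = - q ∧ ρ i l = - q then q + ρ j l
          else 0) else 0) := by
    rw [← Finset.sum_add_distrib]
    refine Finset.sum_congr rfl fun i _ => ?_
    unfold gj
    split_ifs <;> ring
  rw [hsplit]
  by_cases hc : cn j = none ∧ cn l = none
  · rw [if_pos hc] at hD ⊢
    obtain ⟨cj, cl⟩ := hc
    have hq0 : 0 ≤ q + ρ j l := by
      have := h0 (j, l) hp cj cl
      dsimp only at this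
      linarith
    have hex : (((e0 : ℚ) - g)) * (q + ρ j l) ≤
        ∑ i ∈ R, (if i ≠ j ∧ i ≠ l ∧ j ≠ l then
          (if cn i = none ∧ cn j = none ∧ cn l = none ∧ ρ i j = - q ∧ ρ i l = - q then q + ρ j l
            else 0) else 0) := by
      by_cases hz : q + ρ j l = 0
      · rw [hz, mul_zero]
        refine Finset.sum_nonneg fun i _ => ?_
        rw [ite_self, ite_self]
      · have hpos : - q < ρ j l := by
          rcases lt_or_eq_of_le hq0 with h | h
          · linarith
          · exact absurd h.symm hz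
        -- the complement of the block of `j`
        have hsub : ∀ i ∈ R.filter (fun i => cn i = none ∧ ¬ (i = j ∨ - q < ρ i j)),
            (if i ≠ j ∧ i ≠ l ∧ j ≠ l then
              (if cn i = none ∧ cn j = none ∧ cn l = none ∧ ρ i j = - q ∧ ρ i l = - q then q + ρ j l
                else 0) else 0) = q + ρ j l := by
          intro i hi
          obtain ⟨hiR, ci0, hni⟩ := Finset.mem_filter.1 hi
          push Not at hni
          obtain ⟨hij, hle⟩ := hni
          have hil : i ≠ l := by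
            rintro rfl
            rw [hsym i j] at hle
            linarith
          have hpij : (i, j) ∈ prs R := Comb_mem_prs.2 ⟨⟨hiR, hj⟩, hij⟩
          have hpil : (i, l) ∈ prs R := Comb_mem_prs.2 ⟨⟨hiR, hl⟩, hil⟩
          have e1 : ρ i j = - q := le_antisymm hle (h0 (i, j) hpij ci0 cj)
          have e2 : ρ i l = - q := by
            refine le_antisymm ?_ (h0 (i, l) hpil ci0 cl)
            by_contra hcon
            push Not at hcon
            have h3 := hult i hiR j hj l hl hij hil hjl ci0 cj cl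
            rw [e1] at h3
            rcases min_le_iff.1 h3 with h4 | h4
            · linarith
            · linarith
          rw [if_pos ⟨hij, hil, hjl⟩, if_pos ⟨ci0, cj, cl, e1, e2⟩]
        have hnn : ∀ i ∈ R, 0 ≤ (if i ≠ j ∧ i ≠ l ∧ j ≠ l then
            (if cn i = none ∧ cn j = none ∧ cn l = none ∧ ρ i j = - q ∧ ρ i l = - q then q + ρ j l
              else 0) else 0) := by
          intro i _
          split_ifs
          · exact hq0
          · exact le_rfl
          · exact le_rfl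
        refine le_trans ?_ (Finset.sum_le_sum_of_subset_of_nonneg
          (Finset.filter_subset (fun i => cn i = none ∧ ¬ (i = j ∨ - q < ρ i j)) R)
          (fun i hi _ => hnn i hi))
        rw [Finset.sum_congr rfl hsub, Finset.sum_const, nsmul_eq_mul]
        refine mul_le_mul_of_nonneg_right ?_ hq0
        have h1 := Finset.card_filter_add_card_filter_not (s := R.filter (fun i => cn i = none))
          (fun i => i = j ∨ - q < ρ i j)
        rw [Finset.filter_filter, Finset.filter_filter, he] at h1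
        have h2 := hg j hj cj
        have h3 : (e0 : ℚ) = ((R.filter (fun i => cn i = none ∧ (i = j ∨ - q < ρ i j))).card : ℚ) +
            ((R.filter (fun i => cn i = none ∧ ¬ (i = j ∨ - q < ρ i j))).card : ℚ) := by
          exact_mod_cast h1.symm
        have h4 : ((R.filter (fun i => cn i = none ∧ (i = j ∨ - q < ρ i j))).card : ℚ) ≤ g := by
          exact_mod_cast h2
        linarith
    have h5 : (((k : ℚ) + e0 - g)) * (q + ρ j l) = k * (q + ρ j l) + (e0 - g) * (q + ρ j l) := by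
      ring
    rw [h5]
    linarith
  · rw [if_neg hc] at hD ⊢
    have h6 : ∑ i ∈ R, (if i ≠ j ∧ i ≠ l ∧ j ≠ l then
        (if cn i = none ∧ cn j = none ∧ cn l = none ∧ ρ i j = - q ∧ ρ i l = - q then q + ρ j l
          else 0) else 0) = 0 := by
      refine Finset.sum_eq_zero fun i _ => ?_
      rw [if_neg (fun h : cn i = none ∧ cn j = none ∧ cn l = none ∧ ρ i j = - q ∧ ρ i l = - q =>
        hc ⟨h.2.1, h.2.2.1⟩), ite_self]
    rw [h6, add_zero]
    exact hD

open Classical in
/-- the sum of the lower bounds over all pairs, with weights `w`, `f` -/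
theorem CombE_sum (R : Finset A) (cn : A → Option ℂ) (ρ : A → A → ℚ) (q w : ℚ) (f e0 k : ℕ)
    (hk : (R.filter (fun i => cn i ≠ none)).card = k)
    (he : (R.filter (fun i => cn i = none)).card = e0) :
    sum2 R (fun j l => if cn j = none ∧ cn l = none then w * (q + ρ j l)
      else if cn j ≠ none ∧ cn l ≠ none then e0 * q + f * ρ j l else 0) =
    w * (e0 * (e0 - 1) * q + sum2 (R.filter (fun i => cn i = none)) ρ) +
      (k * (k - 1) * (e0 * q) + f * sum2 (R.filter (fun i => cn i ≠ none)) ρ) := by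
  rw [CombI_sum2_split R (fun i => cn i = none) (fun i => cn i ≠ none) (fun i => Iff.rfl)]
  have h1 : sum2 (R.filter (fun i => cn i = none)) (fun j l => if cn j = none ∧ cn l = none then
      w * (q + ρ j l) else if cn j ≠ none ∧ cn l ≠ none then e0 * q + f * ρ j l else 0) =
      w * (e0 * (e0 - 1) * q + sum2 (R.filter (fun i => cn i = none)) ρ) := by
    have h2 : sum2 (R.filter (fun i => cn i = none)) (fun j l => q + ρ j l) =
        (e0 : ℚ) * (e0 - 1) * q + sum2 (R.filter (fun i => cn i = none)) ρ := by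
      rw [CombI_sum2_add_const, he]
    rw [← h2]
    unfold sum2
    rw [Finset.mul_sum]
    refine Finset.sum_congr rfl fun p hp => ?_
    obtain ⟨-, a, b⟩ := CombI_mem_prs_of_filter R _ p hp
    dsimp only
    rw [if_pos ⟨a, b⟩]
  have h3 : sum2 (R.filter (fun i => cn i ≠ none)) (fun j l => if cn j = none ∧ cn l = none then
      w * (q + ρ j l) else if cn j ≠ none ∧ cn l ≠ none then e0 * q + f * ρ j l else 0) =
      k * (k - 1) * (e0 * q) + f * sum2 (R.filter (fun i => cn i ≠ none)) ρ := by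
    have h2 : sum2 (R.filter (fun i => cn i ≠ none)) (fun j l => e0 * q + f * ρ j l) =
        (k : ℚ) * (k - 1) * (e0 * q) + sum2 (R.filter (fun i => cn i ≠ none)) (fun j l => f * ρ j l) := by
      rw [CombI_sum2_add_const _ (fun j l => f * ρ j l), hk]
    have h4 : sum2 (R.filter (fun i => cn i ≠ none)) (fun j l => f * ρ j l) =
        f * sum2 (R.filter (fun i => cn i ≠ none)) ρ := by
      unfold sum2
      rw [Finset.mul_sum]
    rw [← h4, ← h2]
    unfold sum2
    refine Finset.sum_congr rfl fun p hp => ?_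
    obtain ⟨-, a, b⟩ := CombI_mem_prs_of_filter R _ p hp
    dsimp only
    rw [if_neg (fun h : cn p.1 = none ∧ cn p.2 = none => a h.1), if_pos ⟨a, b⟩]
  rw [h1, h3]
  have h5 : ∑ i ∈ R.filter (fun i => cn i = none), ∑ j ∈ R.filter (fun i => cn i ≠ none),
      (if cn i = none ∧ cn j = none then w * (q + ρ i j)
        else if cn i ≠ none ∧ cn j ≠ none then e0 * q + f * ρ i j else 0) = 0 := by
    refine Finset.sum_eq_zero fun i hi => Finset.sum_eq_zero fun j hj => ?_
    have a := (Finset.mem_filter.1 hi).2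
    have b := (Finset.mem_filter.1 hj).2
    rw [if_neg (fun h : cn i = none ∧ cn j = none => b h.2),
      if_neg (fun h : cn i ≠ none ∧ cn j ≠ none => h.1 a)]
  have h6 : ∑ i ∈ R.filter (fun i => cn i ≠ none), ∑ j ∈ R.filter (fun i => cn i = none),
      (if cn i = none ∧ cn j = none then w * (q + ρ i j)
        else if cn i ≠ none ∧ cn j ≠ none then e0 * q + f * ρ i j else 0) = 0 := by
    refine Finset.sum_eq_zero fun i hi => Finset.sum_eq_zero fun j hj => ?_
    have a := (Finset.mem_filter.1 hi).2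
    have b := (Finset.mem_filter.1 hj).2
    rw [if_neg (fun h : cn i = none ∧ cn j = none => a h.1),
      if_neg (fun h : cn i ≠ none ∧ cn j ≠ none => h.2 b)]
  rw [h5, h6, add_zero, add_zero]

open Classical in
/-- Inequality I1 with the weight `f` and blocks of size at most `g` in `C0`, cost one. -/
theorem I1e_abs (R : Finset A) (cn : A → Option ℂ) (ρ : A → A → ℚ) (hsym : ∀ i j, ρ i j = ρ j i)
    (om : A → A → A → ℚ) (cl : A → A → A → Prop) (q : ℚ) (k e0 m f g : ℕ)
    (hk : (R.filter (fun i => cn i ≠ none)).card = k)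
    (he : (R.filter (fun i => cn i = none)).card = e0) (hfg : f + g ≤ k + e0)
    (hq : q * e0 = m)
    (h : ∀ p ∈ tri R, 2 / 3 * (ρ p.1 p.2.1 + ρ p.1 p.2.2 + ρ p.2.1 p.2.2)
      - (if ¬ cl p.1 p.2.1 p.2.2 then 1 else 0)
      + 1 / 3 * (gj cn ρ q p.1 p.2.1 p.2.2 + gj cn ρ q p.2.1 p.1 p.2.2 + gj cn ρ q p.2.2 p.1 p.2.1)
        ≤ om p.1 p.2.1 p.2.2)
    (hd : ∀ p ∈ prs R, cn p.1 ≠ none → cn p.2 ≠ none → cn p.1 ≠ cn p.2 → ρ p.1 p.2 = 0)
    (hu : ∀ p ∈ prs R, cn p.1 ≠ none → cn p.2 ≠ none → 0 ≤ ρ p.1 p.2)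
    (hm : ∀ p ∈ prs R, cn p.1 = none → cn p.2 ≠ none → ρ p.1 p.2 = - q)
    (h0 : ∀ p ∈ prs R, cn p.1 = none → cn p.2 = none → - q ≤ ρ p.1 p.2)
    (hlt : ∀ i ∈ R, cn i ≠ none → (R.filter (fun j => cn j = cn i)).card + f ≤ R.card)
    (hg : ∀ j ∈ R, cn j = none →
      (R.filter (fun i => cn i = none ∧ (i = j ∨ - q < ρ i j))).card ≤ g)
    (hult : ∀ i ∈ R, ∀ j ∈ R, ∀ l ∈ R, i ≠ j → i ≠ l → j ≠ l → cn i = none → cn j = none →
      cn l = none → min (ρ i l) (ρ j l) ≤ ρ i j) :
    (2 * ((R.card : ℚ) - 2) + f) * sum2 R ρ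
        - ((tri R).filter (fun p => ¬ cl p.1 p.2.1 p.2.2)).card
        + m * (f * (2 * k + e0 - 1) + k * (k - 1)) ≤ sum3 R om := by
  have h1 := Finset.sum_le_sum h
  rw [Finset.sum_add_distrib, Finset.sum_sub_distrib, Comb_pairs,
    Comb_gains R (gj cn ρ q), ← Finset.sum_filter, Finset.sum_const, nsmul_eq_mul, mul_one] at h1
  change _ ≤ sum3 R om at h1
  have hgain : sum2 R (fun j l => if cn j = none ∧ cn l = none then ((k : ℚ) + e0 - g) * (q + ρ j l)
      else if cn j ≠ none ∧ cn l ≠ none then e0 * q + f * ρ j l else 0) ≤ sum3 R (gj cn ρ q) := by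
    have e1 : sum3 R (gj cn ρ q) =
        ∑ j ∈ R, ∑ l ∈ R, ∑ i ∈ R, if i ≠ j ∧ i ≠ l ∧ j ≠ l then gj cn ρ q i j l else 0 := by
      rw [Comb_sum3, Finset.sum_comm]
      refine Finset.sum_congr rfl fun j _ => ?_
      rw [Finset.sum_comm]
    rw [e1, Comb_sum2]
    refine Finset.sum_le_sum fun j hj => Finset.sum_le_sum fun l hl => ?_
    by_cases hjl : j = l
    · rw [if_neg (fun h1 => h1 hjl)]
      refine Finset.sum_nonneg fun i _ => ?_
      rw [if_neg (fun h2 : i ≠ j ∧ i ≠ l ∧ j ≠ l => h2.2.2 hjl)]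
    · rw [if_pos hjl]
      exact CombE_pair R cn ρ hsym q f e0 k g hk he hd hu h0 hlt hg hult hj hl hjl
  rw [CombE_sum R cn ρ q _ f e0 k hk he] at hgain
  have hsplit := CombI_sum2_split R (fun i => cn i = none) (fun i => cn i ≠ none)
    (fun i => Iff.rfl) ρ
  have hC0 : 0 ≤ sum2 (R.filter (fun i => cn i = none)) (fun j l => q + ρ j l) := by
    refine CombI_sum2_nonneg _ _ fun p hp => ?_
    obtain ⟨a, b, c⟩ := CombI_mem_prs_of_filter R _ p hp
    have := h0 p a b c
    linarith
  have mem : ∀ i ∈ R.filter (fun i => cn i = none), ∀ j ∈ R.filter (fun i => cn i ≠ none),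
      ρ i j = - q := by
    intro i hi j hj
    obtain ⟨hi1, hi2⟩ := Finset.mem_filter.1 hi
    obtain ⟨hj1, hj2⟩ := Finset.mem_filter.1 hj
    refine hm (i, j) ?_ hi2 hj2
    unfold prs
    refine Finset.mem_filter.2 ⟨Finset.mem_product.2 ⟨hi1, hj1⟩, ?_⟩
    intro hij
    dsimp only at hij
    exact hj2 (hij ▸ hi2)
  have x1 : ∑ i ∈ R.filter (fun i => cn i = none), ∑ j ∈ R.filter (fun i => cn i ≠ none), ρ i j
      = - ((e0 : ℚ) * k * q) := by
    rw [Finset.sum_congr rfl fun i hi => Finset.sum_congr rfl fun j hj => mem i hi j hj]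
    rw [Finset.sum_const, Finset.sum_const, nsmul_eq_mul, nsmul_eq_mul]
    rw [hk, he]
    ring
  have x2 : ∑ i ∈ R.filter (fun i => cn i ≠ none), ∑ j ∈ R.filter (fun i => cn i = none), ρ i j
      = - ((e0 : ℚ) * k * q) := by
    rw [Finset.sum_comm, ← x1]
    refine Finset.sum_congr rfl fun i _ => Finset.sum_congr rfl fun j _ => hsym _ _
  rw [x1, x2] at hsplit
  rw [CombI_sum2_add_const, he] at hC0
  set SU := sum2 (R.filter (fun i => cn i ≠ none)) ρ
  set S0 := sum2 (R.filter (fun i => cn i = none)) ρ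
  set G := sum3 R (gj cn ρ q)
  set S2 := sum2 R ρ
  have hk1' : (f : ℚ) ≤ (k : ℚ) + e0 - g := by
    have h2 : (f : ℚ) + g ≤ k + e0 := by exact_mod_cast hfg
    linarith
  have y2 : (f : ℚ) * ((e0 : ℚ) * (e0 - 1) * q + S0) ≤
      ((k : ℚ) + e0 - g) * ((e0 : ℚ) * (e0 - 1) * q + S0) :=
    mul_le_mul_of_nonneg_right hk1' hC0
  have y3 : (k : ℚ) * (k - 1) * (e0 * q) = m * (k * (k - 1)) := by
    rw [← hq]; ring
  have y4 : (e0 : ℚ) * (e0 - 1) * q = m * (e0 - 1) := by rw [← hq]; ring
  have y5 : (e0 : ℚ) * k * q = m * k := by rw [← hq]; ring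
  have : m * (f * (2 * (k : ℚ) + e0 - 1) + k * (k - 1)) + f * S2 ≤ G := by
    rw [hsplit, y5]
    calc m * (f * (2 * (k : ℚ) + e0 - 1) + k * (k - 1)) + f * (S0 + SU + -(m * k) + -(m * k))
        = f * (m * (e0 - 1) + S0) + (m * (k * (k - 1)) + f * SU) := by ring
      _ ≤ ((k : ℚ) + e0 - g) * (e0 * (e0 - 1) * q + S0) + (k * (k - 1) * (e0 * q) + f * SU) := by
          rw [y3]
          rw [y4] at y2 ⊢
          linarith
      _ ≤ G := hgain
  linarith

end WR
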