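import Pool.Agent.helper51.WR.Comb

/-!
# WR-CombI: the abstract inequality at the place infinity

`R` is divided in `C0` (`cn = none`, `e0` elements) and `U` (`cn ≠ none`, `k` elements), `q e0 = m`.
Gain of the pair `(j,l)` against the third element `i` (`gi`): both in `U`: `q + ρ` if `i` in `C0`;
`ρ` if `i` in `U`, `cn j = cn l ≠ cn i`; both in `C0`: `q + ρ` if `i` in `U`; otherwise `0`.
Sum of the gains over `tri R` (using the symmetry, `1/3 * 3 = 1`):
`e0 (k(k-1) q + S_U) + (something ≥ 0) + k (e0(e0-1) q + S_0)`, where `S_U`, `S_0` are the sums of `ρ` over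
the pairs in `U`, `C0`; `sum2 R ρ = S_U + S_0 - 2 k e0 q`. With `e0, k ≥ 1`, `S_U ≥ 0`,
`e0(e0-1)q + S_0 ≥ 0` this is at least
`m k (k-1) + S_U + (m (e0-1) + S_0) = m k (k-1) + sum2 R ρ + 2 k m + m (e0 - 1)`.
-/

namespace WR

variable {A : Type}

open Classical in
/-- gains at infinity -/
noncomputable def gi (cn : A → Option ℂ) (ρ : A → A → ℚ) (q : ℚ) (i j l : A) : ℚ :=
  if cn j ≠ none ∧ cn l ≠ none then
    (if cn i = none then q + ρ j l else if cn j = cn l ∧ cn i ≠ cn j then ρ j l else 0)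
  else if cn j = none ∧ cn l = none ∧ cn i ≠ none then q + ρ j l else 0

open Classical in
/-- costs at infinity -/
noncomputable def ci (cn : A → Option ℂ) (ep : A → ℚ) (cl : A → A → A → Prop) (i j l : A) : ℚ :=
  if cn i ≠ none ∧ cn j ≠ none ∧ cn l ≠ none then ep i + ep j + ep l
  else if cl i j l then 0 else 1

open Classical in
theorem CombI_sum3_iter (R : Finset A) (f : A → A → A → ℚ) :
    sum3 R f = ∑ i ∈ R, ∑ j ∈ R, ∑ l ∈ R, if i ≠ j ∧ i ≠ l ∧ j ≠ l then f i j l else 0 := by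
  unfold sum3 tri
  rw [Finset.sum_filter, Finset.sum_product]
  refine Finset.sum_congr rfl fun i _ => ?_
  rw [Finset.sum_product]

open Classical in
theorem CombI_sum2_iter (R : Finset A) (f : A → A → ℚ) :
    sum2 R f = ∑ i ∈ R, ∑ j ∈ R, if i ≠ j then f i j else 0 := by
  unfold sum2 prs
  rw [Finset.sum_filter, Finset.sum_product]

theorem CombI_split (R : Finset A) (P Q : A → Prop) [DecidablePred P] [DecidablePred Q]
    (hQ : ∀ i, Q i ↔ ¬ P i) (F : A → A → ℚ) :
    sum3 R (fun i j l => if Q i ∧ P j ∧ P l then F j l else 0)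
      = ((R.filter Q).card : ℚ) * sum2 (R.filter P) F := by
  classical
  rw [CombI_sum3_iter, CombI_sum2_iter, Finset.card_filter, Nat.cast_sum, Finset.sum_mul]
  refine Finset.sum_congr rfl fun i _ => ?_
  rw [Finset.mul_sum, Finset.sum_filter]
  refine Finset.sum_congr rfl fun j _ => ?_
  by_cases hi : P i
  · have hq : ¬ Q i := fun h => (hQ i).1 h hi
    simp [hq]
  · have hq : Q i := (hQ i).2 hi
    by_cases hj : P j
    · have hij : i ≠ j := fun h => hi (h ▸ hj)
      rw [if_pos hj, Finset.sum_filter, Finset.mul_sum]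
      refine Finset.sum_congr rfl fun l _ => ?_
      by_cases hl : P l
      · have hil : i ≠ l := fun h => hi (h ▸ hl)
        simp [hq, hj, hl, hij, hil]
      · simp [hl]
    · simp [hj]

theorem CombI_sum2_split (R : Finset A) (P Q : A → Prop) [DecidablePred P] [DecidablePred Q]
    (hQ : ∀ i, Q i ↔ ¬ P i) (F : A → A → ℚ) :
    sum2 R F = sum2 (R.filter P) F + sum2 (R.filter Q) F
      + (∑ i ∈ R.filter P, ∑ j ∈ R.filter Q, F i j)
      + ∑ i ∈ R.filter Q, ∑ j ∈ R.filter P, F i j := by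
  classical
  have hR : ∀ f : A → ℚ, ∑ i ∈ R, f i = ∑ i ∈ R.filter P, f i + ∑ i ∈ R.filter Q, f i := by
    intro f
    rw [← Finset.sum_filter_add_sum_filter_not R P]
    congr 1
    refine Finset.sum_congr (Finset.filter_congr fun i _ => ?_) fun _ _ => rfl
    exact (hQ i).symm
  rw [CombI_sum2_iter, CombI_sum2_iter, CombI_sum2_iter, hR]
  have h1 : ∑ i ∈ R.filter P, ∑ j ∈ R, (if i ≠ j then F i j else 0)
      = ∑ i ∈ R.filter P, ∑ j ∈ R.filter P, (if i ≠ j then F i j else 0)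
        + ∑ i ∈ R.filter P, ∑ j ∈ R.filter Q, F i j := by
    rw [← Finset.sum_add_distrib]
    refine Finset.sum_congr rfl fun i hi => ?_
    rw [hR]
    congr 1
    refine Finset.sum_congr rfl fun j hj => ?_
    have hij : i ≠ j := fun h =>
      (hQ j).1 (Finset.mem_filter.1 hj).2 (h ▸ (Finset.mem_filter.1 hi).2)
    rw [if_pos hij]
  have h2 : ∑ i ∈ R.filter Q, ∑ j ∈ R, (if i ≠ j then F i j else 0)
      = ∑ i ∈ R.filter Q, ∑ j ∈ R.filter P, F i j
        + ∑ i ∈ R.filter Q, ∑ j ∈ R.filter Q, (if i ≠ j then F i j else 0) := by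
    rw [← Finset.sum_add_distrib]
    refine Finset.sum_congr rfl fun i hi => ?_
    rw [hR]
    congr 1
    refine Finset.sum_congr rfl fun j hj => ?_
    have hij : i ≠ j := fun h =>
      (hQ i).1 (Finset.mem_filter.1 hi).2 (h ▸ (Finset.mem_filter.1 hj).2)
    rw [if_pos hij]
  rw [h1, h2]
  ring

theorem CombI_sum2_nonneg (R : Finset A) (F : A → A → ℚ) (h : ∀ p ∈ prs R, 0 ≤ F p.1 p.2) :
    0 ≤ sum2 R F := Finset.sum_nonneg h

theorem CombI_sum2_add_const (R : Finset A) (F : A → A → ℚ) (q : ℚ) :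
    sum2 R (fun i j => q + F i j) = (R.card : ℚ) * (R.card - 1) * q + sum2 R F := by
  unfold sum2
  rw [Finset.sum_add_distrib, Finset.sum_const, nsmul_eq_mul, card_prs]

theorem CombI_sum3_le (R : Finset A) (f g : A → A → A → ℚ)
    (h : ∀ p ∈ tri R, f p.1 p.2.1 p.2.2 ≤ g p.1 p.2.1 p.2.2) : sum3 R f ≤ sum3 R g :=
  Finset.sum_le_sum h

theorem CombI_sum3_add (R : Finset A) (f g : A → A → A → ℚ) :
    sum3 R (fun i j l => f i j l + g i j l) = sum3 R f + sum3 R g :=
  Finset.sum_add_distrib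

theorem CombI_sum3_mul (R : Finset A) (c : ℚ) (f : A → A → A → ℚ) :
    sum3 R (fun i j l => c * f i j l) = c * sum3 R f := by
  unfold sum3
  rw [Finset.mul_sum]

theorem CombI_sum3_sub (R : Finset A) (f g : A → A → A → ℚ) :
    sum3 R (fun i j l => f i j l - g i j l) = sum3 R f - sum3 R g :=
  Finset.sum_sub_distrib _ _

/-- the cyclic permutation -/
theorem CombI_sum3_cyc (R : Finset A) (f : A → A → A → ℚ) :
    sum3 R (fun i j l => f l i j) = sum3 R f := by
  rw [← sum3_swap12 R f, ← sum3_swap23 R (fun i j l => f j i l)]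

theorem CombI_mem_prs_of_filter (R : Finset A) (P : A → Prop) [DecidablePred P] (p : A × A)
    (h : p ∈ prs (R.filter P)) : p ∈ prs R ∧ P p.1 ∧ P p.2 := by
  classical
  unfold prs at h ⊢
  simp only [Finset.mem_filter, Finset.mem_product] at h ⊢
  tauto

theorem CombI_mem_prs_of_tri (R : Finset A) (p : A × A × A) (h : p ∈ tri R) :
    (p.2.1, p.2.2) ∈ prs R ∧ (p.1, p.2.1) ∈ prs R ∧ (p.1, p.2.2) ∈ prs R ∧ p.1 ∈ R ∧ p.2.1 ∈ R
      ∧ p.2.2 ∈ R := by
  classical
  unfold tri at h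
  unfold prs
  simp only [Finset.mem_filter, Finset.mem_product] at h ⊢
  tauto

open Classical in
/-- lower bound for the sum of the gains -/
theorem CombI_gain (R : Finset A) (cn : A → Option ℂ) (ρ : A → A → ℚ) (q : ℚ)
    (hu : ∀ p ∈ prs R, cn p.1 ≠ none → cn p.2 ≠ none → 0 ≤ ρ p.1 p.2) :
    ((R.filter (fun i => cn i = none)).card : ℚ)
        * sum2 (R.filter (fun i => cn i ≠ none)) (fun j l => q + ρ j l)
      + ((R.filter (fun i => cn i ≠ none)).card : ℚ)
        * sum2 (R.filter (fun i => cn i = none)) (fun j l => q + ρ j l) ≤ sum3 R (gi cn ρ q) := by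
  have e1 := CombI_split R (fun i => cn i ≠ none) (fun i => cn i = none)
    (fun i => not_not.symm) (fun j l => q + ρ j l)
  have e2 := CombI_split R (fun i => cn i = none) (fun i => cn i ≠ none)
    (fun i => Iff.rfl) (fun j l => q + ρ j l)
  rw [← e1, ← e2, ← CombI_sum3_add]
  refine CombI_sum3_le R _ _ fun p hp => ?_
  obtain ⟨i, j, l⟩ := p
  have hm := (CombI_mem_prs_of_tri R _ hp).1
  have hjl := hu _ hm
  dsimp only at hjl ⊢
  unfold gi
  by_cases hi : cn i = none <;> by_cases hj : cn j = none <;> by_cases hl : cn l = none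
  all_goals simp [hi, hj, hl]
  have := hjl hj hl
  split_ifs <;> simp [this]

open Classical in
/-- upper bound for the sum of the costs -/
theorem CombI_cost (R : Finset A) (cn : A → Option ℂ) (ep : A → ℚ) (cl : A → A → A → Prop)
    (hep : ∀ i ∈ R, 0 ≤ ep i) :
    sum3 R (ci cn ep cl) ≤
      ((tri R).filter (fun p => ¬ cl p.1 p.2.1 p.2.2)).card
        + 3 * ((R.card : ℚ) - 1) * ((R.card : ℚ) - 2) *
          (∑ i ∈ R.filter (fun i => cn i ≠ none), ep i) := by
  set eU : A → ℚ := fun i => if cn i ≠ none then ep i else 0 with heU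
  have h1 : sum3 R (ci cn ep cl) ≤ sum3 R (fun i j l =>
      ((if ¬ cl i j l then (1 : ℚ) else 0) + (eU i + eU j + eU l))) := by
    refine CombI_sum3_le R _ _ fun p hp => ?_
    obtain ⟨i, j, l⟩ := p
    obtain ⟨-, -, -, hi, hj, hl⟩ := CombI_mem_prs_of_tri R _ hp
    have pi := hep i hi
    have pj := hep j hj
    have pl := hep l hl
    dsimp only
    unfold ci
    have nn : ∀ x, x ∈ R → 0 ≤ eU x := by
      intro x hx
      rw [heU]
      dsimp only
      split_ifs
      · exact hep x hx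
      · exact le_refl _
    have ni := nn i hi
    have nj := nn j hj
    have nl := nn l hl
    by_cases hc : cn i ≠ none ∧ cn j ≠ none ∧ cn l ≠ none
    · rw [if_pos hc]
      have a1 : eU i = ep i := by rw [heU]; dsimp only; rw [if_pos hc.1]
      have a2 : eU j = ep j := by rw [heU]; dsimp only; rw [if_pos hc.2.1]
      have a3 : eU l = ep l := by rw [heU]; dsimp only; rw [if_pos hc.2.2]
      rw [a1, a2, a3]
      split_ifs <;> linarith
    · rw [if_neg hc]
      split_ifs <;> linarith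
  refine h1.trans (le_of_eq ?_)
  rw [CombI_sum3_add, CombI_sum3_add, CombI_sum3_add]
  have s1 : sum3 R (fun i _ _ => eU i) = ((R.card : ℚ) - 1) * ((R.card : ℚ) - 2) * ∑ i ∈ R, eU i :=
    sum3_one R eU
  have s2 : sum3 R (fun _ j _ => eU j) = sum3 R (fun i _ _ => eU i) :=
    sum3_swap12 R (fun i _ _ => eU i)
  have s3 : sum3 R (fun _ _ l => eU l) = sum3 R (fun _ j _ => eU j) :=
    sum3_swap23 R (fun _ j _ => eU j)
  rw [s3, s2, s1]
  have s4 : ∑ i ∈ R, eU i = ∑ i ∈ R.filter (fun i => cn i ≠ none), ep i := by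
    rw [Finset.sum_filter]
  have s5 : sum3 R (fun i j l => if ¬ cl i j l then (1 : ℚ) else 0)
      = ((tri R).filter (fun p => ¬ cl p.1 p.2.1 p.2.2)).card := by
    unfold sum3
    rw [Finset.card_filter, Nat.cast_sum]
    refine Finset.sum_congr rfl fun p _ => ?_
    by_cases hcl : cl p.1 p.2.1 p.2.2 <;> simp [hcl]
  rw [s4, s5]
  ring

open Classical in
theorem I1_abs (R : Finset A) (cn : A → Option ℂ) (ρ : A → A → ℚ) (hsym : ∀ i j, ρ i j = ρ j i)
    (om : A → A → A → ℚ) (ep : A → ℚ) (cl : A → A → A → Prop) (q : ℚ) (k e0 m : ℕ)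
    (hk : (R.filter (fun i => cn i ≠ none)).card = k)
    (he : (R.filter (fun i => cn i = none)).card = e0) (hk1 : 1 ≤ k) (he1 : 1 ≤ e0)
    (hq : q * e0 = m)
    (h : ∀ p ∈ tri R, 2 / 3 * (ρ p.1 p.2.1 + ρ p.1 p.2.2 + ρ p.2.1 p.2.2)
      - ci cn ep cl p.1 p.2.1 p.2.2
      + 1 / 3 * (gi cn ρ q p.1 p.2.1 p.2.2 + gi cn ρ q p.2.1 p.1 p.2.2 + gi cn ρ q p.2.2 p.1 p.2.1)
        ≤ om p.1 p.2.1 p.2.2)
    (hep : ∀ i ∈ R, 0 ≤ ep i)
    (hu : ∀ p ∈ prs R, cn p.1 ≠ none → cn p.2 ≠ none → 0 ≤ ρ p.1 p.2)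
    (hm : ∀ p ∈ prs R, cn p.1 = none → cn p.2 ≠ none → ρ p.1 p.2 = - q)
    (h0 : ∀ p ∈ prs R, cn p.1 = none → cn p.2 = none → - q ≤ ρ p.1 p.2) :
    (2 * ((R.card : ℚ) - 2) + 1) * sum2 R ρ
        - ((tri R).filter (fun p => ¬ cl p.1 p.2.1 p.2.2)).card
        - 3 * ((R.card : ℚ) - 1) * ((R.card : ℚ) - 2) *
          (∑ i ∈ R.filter (fun i => cn i ≠ none), ep i)
        + m * (k ^ 2 + k + e0 - 1) ≤ sum3 R om ∧
    2 * ((R.card : ℚ) - 2) * sum2 R ρ
        - ((tri R).filter (fun p => ¬ cl p.1 p.2.1 p.2.2)).card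
        - 3 * ((R.card : ℚ) - 1) * ((R.card : ℚ) - 2) *
          (∑ i ∈ R.filter (fun i => cn i ≠ none), ep i)
        + m * (k * (k - 1)) ≤ sum3 R om := by
  have hsum := CombI_sum3_le R (fun i j l => 2 / 3 * (ρ i j + ρ i l + ρ j l)
      - ci cn ep cl i j l
      + 1 / 3 * (gi cn ρ q i j l + gi cn ρ q j i l + gi cn ρ q l i j)) om h
  rw [CombI_sum3_add, CombI_sum3_sub, CombI_sum3_mul, CombI_sum3_mul, CombI_sum3_add,
    CombI_sum3_add, CombI_sum3_add, CombI_sum3_add] at hsum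
  have p1 : sum3 R (fun i j _ => ρ i j) = ((R.card : ℚ) - 2) * sum2 R ρ := sum3_pair R ρ
  have p2 : sum3 R (fun i _ l => ρ i l) = ((R.card : ℚ) - 2) * sum2 R ρ := by
    rw [← p1]
    exact sum3_swap23 R (fun i j _ => ρ i j)
  have p3 : sum3 R (fun _ j l => ρ j l) = ((R.card : ℚ) - 2) * sum2 R ρ := by
    rw [← p2]
    exact sum3_swap12 R (fun i _ l => ρ i l)
  have g1 : sum3 R (fun i j l => gi cn ρ q j i l) = sum3 R (gi cn ρ q) :=
    sum3_swap12 R (gi cn ρ q)
  have g2 : sum3 R (fun i j l => gi cn ρ q l i j) = sum3 R (gi cn ρ q) :=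
    CombI_sum3_cyc R (gi cn ρ q)
  have g0 : sum3 R (fun i j l => gi cn ρ q i j l) = sum3 R (gi cn ρ q) := rfl
  have c0 : sum3 R (fun i j l => ci cn ep cl i j l) = sum3 R (ci cn ep cl) := rfl
  rw [p1, p2, p3, g0, g1, g2, c0] at hsum
  have hcost := CombI_cost R cn ep cl hep
  have hgain := CombI_gain R cn ρ q hu
  have hsplit := CombI_sum2_split R (fun i => cn i = none) (fun i => cn i ≠ none)
    (fun i => Iff.rfl) ρ
  have hU0 : 0 ≤ sum2 (R.filter (fun i => cn i ≠ none)) ρ := by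
    refine CombI_sum2_nonneg _ _ fun p hp => ?_
    obtain ⟨a, b, c⟩ := CombI_mem_prs_of_filter R _ p hp
    exact hu p a b c
  have hC0 : 0 ≤ sum2 (R.filter (fun i => cn i = none)) (fun j l => q + ρ j l) := by
    refine CombI_sum2_nonneg _ _ fun p hp => ?_
    obtain ⟨a, b, c⟩ := CombI_mem_prs_of_filter R _ p hp
    have := h0 p a b c
    linarith
  have mem : ∀ i ∈ R.filter (fun i => cn i = none), ∀ j ∈ R.filter (fun i => cn i ≠ none),
      ρ i j = - q := by
    intro i hi j hj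
    obtain ⟨hi1, hi2⟩ := Finset.mem_filter.1 hi
    obtain ⟨hj1, hj2⟩ := Finset.mem_filter.1 hj
    refine hm (i, j) ?_ hi2 hj2
    unfold prs
    refine Finset.mem_filter.2 ⟨Finset.mem_product.2 ⟨hi1, hj1⟩, ?_⟩
    intro hij
    dsimp only at hij
    exact hj2 (hij ▸ hi2)
  have x1 : ∑ i ∈ R.filter (fun i => cn i = none), ∑ j ∈ R.filter (fun i => cn i ≠ none), ρ i j
      = - ((e0 : ℚ) * k * q) := by
    rw [Finset.sum_congr rfl fun i hi => Finset.sum_congr rfl fun j hj => mem i hi j hj]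
    rw [Finset.sum_const, Finset.sum_const, nsmul_eq_mul, nsmul_eq_mul]
    rw [hk, he]
    ring
  have x2 : ∑ i ∈ R.filter (fun i => cn i ≠ none), ∑ j ∈ R.filter (fun i => cn i = none), ρ i j
      = - ((e0 : ℚ) * k * q) := by
    rw [Finset.sum_comm, ← x1]
    refine Finset.sum_congr rfl fun i _ => Finset.sum_congr rfl fun j _ => hsym _ _
  rw [x1, x2] at hsplit
  rw [CombI_sum2_add_const] at hgain hC0
  rw [CombI_sum2_add_const] at hgain
  rw [he] at hgain hC0
  rw [hk] at hgain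
  set SU := sum2 (R.filter (fun i => cn i ≠ none)) ρ
  set S0 := sum2 (R.filter (fun i => cn i = none)) ρ
  set G := sum3 R (gi cn ρ q)
  set K := sum3 R (ci cn ep cl)
  set S2 := sum2 R ρ
  have hk1' : (1 : ℚ) ≤ k := by exact_mod_cast hk1
  have he1' : (1 : ℚ) ≤ e0 := by exact_mod_cast he1
  have y1 : SU ≤ e0 * SU := by nlinarith
  have y2 : (e0 : ℚ) * (e0 - 1) * q + S0 ≤ k * ((e0 : ℚ) * (e0 - 1) * q + S0) := by nlinarith
  have y3 : (e0 : ℚ) * (k * (k - 1) * q + SU) = m * (k * (k - 1)) + e0 * SU := by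
    rw [← hq]; ring
  have y4 : (e0 : ℚ) * (e0 - 1) * q = m * (e0 - 1) := by rw [← hq]; ring
  have y5 : (e0 : ℚ) * k * q = m * k := by rw [← hq]; ring
  constructor
  · have : m * ((k : ℚ) ^ 2 + k + e0 - 1) + S2 ≤ G := by
      rw [hsplit, y5]
      calc m * ((k : ℚ) ^ 2 + k + e0 - 1) + (S0 + SU + -(m * k) + -(m * k))
          = m * (k * (k - 1)) + SU + (m * (e0 - 1) + S0) := by ring
        _ ≤ e0 * (k * (k - 1) * q + SU) + k * (e0 * (e0 - 1) * q + S0) := by
            rw [y3]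
            rw [y4] at y2 ⊢
            linarith
        _ ≤ G := hgain
    linarith
  · have : m * ((k : ℚ) * (k - 1)) ≤ G := by
      calc m * ((k : ℚ) * (k - 1)) ≤ e0 * (k * (k - 1) * q + SU) + k * (e0 * (e0 - 1) * q + S0) := by
            rw [y3]
            linarith
        _ ≤ G := hgain
    linarith

end WR
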