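import Pool.Agent.helper51.WR.CombC

/-!
# WR-CombS: savings in the abstract inequality F1

The sum of the savings `sv` over all triples, and `F1s_abs`: F1 with a weight `f` and savings `s`.
-/

namespace WR

variable {A : Type}

open Classical in
/-- the saving of the element `i` against two elements of other classes -/
noncomputable def sv (cn : A → Option ℂ) (s : A → ℚ) (i j l : A) : ℚ :=
  if cn j ≠ cn i ∧ cn l ≠ cn i then s i else 0

open Classical in
theorem CombS_sum (R : Finset A) (cn : A → Option ℂ) (s : A → ℚ) :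
    sum3 R (sv cn s) = ∑ i ∈ R, s i * (((R.filter (fun j => cn j ≠ cn i)).card : ℚ) *
      ((R.filter (fun j => cn j ≠ cn i)).card - 1)) := by
  rw [CombI_sum3_iter]
  refine Finset.sum_congr rfl fun i _ => ?_
  have h1 : sum2 (R.filter (fun j => cn j ≠ cn i)) (fun _ _ => s i) =
      s i * (((R.filter (fun j => cn j ≠ cn i)).card : ℚ) *
      ((R.filter (fun j => cn j ≠ cn i)).card - 1)) := by
    unfold sum2
    rw [Finset.sum_const, nsmul_eq_mul, card_prs]
    ring
  rw [← h1, CombI_sum2_iter, Finset.sum_filter]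
  refine Finset.sum_congr rfl fun j _ => ?_
  by_cases hj : cn j ≠ cn i
  · rw [if_pos hj, Finset.sum_filter]
    refine Finset.sum_congr rfl fun l _ => ?_
    by_cases hl : cn l ≠ cn i
    · have hij : i ≠ j := fun h => hj (by rw [h])
      have hil : i ≠ l := fun h => hl (by rw [h])
      rw [if_pos hl]
      by_cases hjl : j ≠ l
      · rw [if_pos ⟨hij, hil, hjl⟩, if_pos hjl]
        unfold sv
        rw [if_pos ⟨hj, hl⟩]
      · rw [if_neg (fun h : i ≠ j ∧ i ≠ l ∧ j ≠ l => hjl h.2.2), if_neg hjl]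
    · rw [if_neg hl]
      have h2 : sv cn s i j l = 0 := by
        unfold sv
        rw [if_neg (fun h : cn j ≠ cn i ∧ cn l ≠ cn i => hl h.2)]
      rw [h2, ite_self]
  · rw [if_neg hj]
    refine Finset.sum_eq_zero fun l _ => ?_
    have h2 : sv cn s i j l = 0 := by
      unfold sv
      rw [if_neg (fun h : cn j ≠ cn i ∧ cn l ≠ cn i => hj h.1)]
    rw [h2, ite_self]

open Classical in
/-- Inequality F1 with the weight `f` and savings. -/
theorem F1s_abs (R : Finset A) (cn : A → Option ℂ) (ρ : A → A → ℚ)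
    (om : A → A → A → ℚ) (ep s : A → ℚ) (f : ℕ)
    (h : ∀ p ∈ tri R, 2 / 3 * (ρ p.1 p.2.1 + ρ p.1 p.2.2 + ρ p.2.1 p.2.2)
      - (ep p.1 + ep p.2.1 + ep p.2.2)
      + (sv cn s p.1 p.2.1 p.2.2 + sv cn s p.2.1 p.1 p.2.2 + sv cn s p.2.2 p.1 p.2.1)
      + 1 / 3 * (gn cn ρ p.1 p.2.1 p.2.2 + gn cn ρ p.2.1 p.1 p.2.2 + gn cn ρ p.2.2 p.1 p.2.1)
        ≤ om p.1 p.2.1 p.2.2)
    (hd : ∀ p ∈ prs R, cn p.1 ≠ cn p.2 → ρ p.1 p.2 = 0)
    (hs : ∀ p ∈ prs R, 0 ≤ ρ p.1 p.2)
    (hlt : ∀ i ∈ R, (R.filter (fun j => cn j = cn i)).card + f ≤ R.card) :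
    (2 * ((R.card : ℚ) - 2) + f) * sum2 R ρ
      - 3 * ((R.card : ℚ) - 1) * ((R.card : ℚ) - 2) * ∑ i ∈ R, ep i
      + 3 * ∑ i ∈ R, s i * (((R.filter (fun j => cn j ≠ cn i)).card : ℚ) *
        ((R.filter (fun j => cn j ≠ cn i)).card - 1)) ≤ sum3 R om := by
  have key := F1c_abs R cn ρ (fun i j l => om i j l - (sv cn s i j l + sv cn s j i l + sv cn s l i j))
    ep f (by
      intro p hp
      have := h p hp
      linarith) hd hs hlt
  have h1 : sum3 R (fun i j l => om i j l - (sv cn s i j l + sv cn s j i l + sv cn s l i j)) =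
      sum3 R om - 3 * sum3 R (sv cn s) := by
    rw [CombI_sum3_sub]
    have h2 := Comb_gains R (sv cn s)
    have h3 : sum3 R (fun i j l => sv cn s i j l + sv cn s j i l + sv cn s l i j) =
        3 * ∑ p ∈ tri R, 1 / 3 * (sv cn s p.1 p.2.1 p.2.2 + sv cn s p.2.1 p.1 p.2.2 +
          sv cn s p.2.2 p.1 p.2.1) := by
      unfold sum3
      rw [Finset.mul_sum]
      refine Finset.sum_congr rfl fun p _ => ?_
      ring
    rw [h3, h2]
  rw [h1, CombS_sum] at key
  linarith

end WR
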