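import Mathlib

/-!
# WR: definitions

`M` = Laurent series in `s`; `Cur` = normalized parametrization of a rational cuspidal plane curve with
a cusp at the image `(0:0:1)` of infinity; places of the line of the projection, sheets, Wronskians.
-/

namespace WR

open Polynomial

/-! ## Laurent series -/

/-- Laurent series in `s` -/
abbrev M : Type := LaurentSeries ℂ

/-- the monomial `s^N` -/
noncomputable def sp (N : ℤ) : M := HahnSeries.single N (1 : ℂ)

/-- order at least `r` -/
def Ge (f : M) (r : ℤ) : Prop := ∀ n : ℤ, n < r → f.coeff n = 0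

/-- the Euler derivation `s d/ds` -/
noncomputable def eul (f : M) : M where
  coeff l := (l : ℂ) * f.coeff l
  isPWO_support' := f.isPWO_support.mono (by
    intro l hl
    simp only [Function.mem_support, HahnSeries.mem_support] at hl ⊢
    exact right_ne_zero_of_mul hl)

open Classical in
/-- the centre of `τ`: its value at `s = 0`, `none` for infinity -/
noncomputable def cen (τ : M) : Option ℂ := if Ge τ 0 then some (τ.coeff 0) else none

/-! ## The curve -/

/-- A rational cuspidal plane curve of degree `n + m` in normal form: `φ = (a : b : c)`, injective on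
`ℂ ∪ {∞}`, `φ(∞) = (0 : 0 : 1)` is a point of multiplicity `m` with tangent line `b = 0`, which meets the
curve in another point (`1 ≤ k`). -/
structure Cur where
  a : ℂ[X]
  b : ℂ[X]
  c : ℂ[X]
  n : ℕ
  k : ℕ
  m : ℕ
  ha : a.natDegree = n
  hb : b.natDegree = k
  hc : c.natDegree = n + m
  hk : 1 ≤ k
  hkn : k < n
  hm : 2 ≤ m
  inj : ∀ t t' : ℂ, a.eval t * b.eval t' = a.eval t' * b.eval t →
    b.eval t * c.eval t' = b.eval t' * c.eval t →
    a.eval t * c.eval t' = a.eval t' * c.eval t → t = t'
  nz : ∀ t : ℂ, a.eval t ≠ 0 ∨ b.eval t ≠ 0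

namespace Cur

variable (S : Cur)

/-- `x - v = al / be` at the place `some v`, `1 / x = al / be` at the place `none` -/
noncomputable def al : Option ℂ → ℂ[X]
  | some v => S.a - C v * S.b
  | none => S.b

/-- the denominator at a place -/
noncomputable def be : Option ℂ → ℂ[X]
  | some _ => S.b
  | none => S.a

/-- numerator of `dy/dx` -/
noncomputable def num (P : Option ℂ) : ℂ[X] :=
  derivative S.c * S.be P - S.c * derivative (S.be P)

/-- denominator of `dy/dx` -/
noncomputable def jac (P : Option ℂ) : ℂ[X] :=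
  derivative (S.al P) * S.be P - S.al P * derivative (S.be P)

/-- `y = c / be` -/
noncomputable def y (P : Option ℂ) {F : Type} [Field F] [Algebra ℂ F] (τ : F) : F :=
  aeval τ S.c / aeval τ (S.be P)

/-- `g = dy/dx` -/
noncomputable def g (P : Option ℂ) {F : Type} [Field F] [Algebra ℂ F] (τ : F) : F :=
  aeval τ (S.num P) / aeval τ (S.jac P)

/-- the Wronskian of three sheets -/
noncomputable def W (P : Option ℂ) {F : Type} [Field F] [Algebra ℂ F] (τ₁ τ₂ τ₃ : F) : F :=
  (S.y P τ₂ - S.y P τ₁) * (S.g P τ₃ - S.g P τ₁) - (S.y P τ₃ - S.y P τ₁) * (S.g P τ₂ - S.g P τ₁)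

/-- the polynomial of the sheets -/
noncomputable def shp (P : Option ℂ) (N : ℕ) : M[X] :=
  (S.al P).map (algebraMap ℂ M) - C (sp N) * (S.be P).map (algebraMap ℂ M)

open Classical in
/-- the sheets at the place `P` -/
noncomputable def sh (P : Option ℂ) (N : ℕ) : Finset M := (S.shp P N).roots.toFinset

/-- the multiplicity of `t` in the fibre of the place `P` -/
noncomputable def e (P : Option ℂ) (t : ℂ) : ℕ := rootMultiplicity t (S.al P)

/-- `N` is divisible by all ramification indices at the place `P` -/
def Adm (P : Option ℂ) (N : ℕ) : Prop :=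
  0 < N ∧ (∀ t : ℂ, (S.al P).IsRoot t → S.e P t ∣ N) ∧ (P = none → S.n - S.k ∣ N)

/-- `∑ (e_t - 1)` over the finite points `t` of the fibre -/
noncomputable def Ram (P : Option ℂ) : ℕ := by
  classical exact ∑ t ∈ (S.al P).roots.toFinset, (S.e P t - 1)

/-- `φ` is not immersive at `t`: the point `φ(t)` is a cusp -/
def IsCusp (t : ℂ) : Prop :=
  S.a.eval t * (derivative S.b).eval t = (derivative S.a).eval t * S.b.eval t ∧
  S.b.eval t * (derivative S.c).eval t = (derivative S.b).eval t * S.c.eval t ∧
  S.a.eval t * (derivative S.c).eval t = (derivative S.a).eval t * S.c.eval t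

/-- normalized order of `y - y'` -/
noncomputable def rho (P : Option ℂ) (N : ℕ) (τ τ' : M) : ℚ :=
  ((S.y P τ - S.y P τ').order : ℚ) / N

open Classical in
/-- normalized order of the Wronskian (two thirds of the pair orders for collinear triples) -/
noncomputable def om (P : Option ℂ) (N : ℕ) (τ₁ τ₂ τ₃ : M) : ℚ :=
  if S.W P τ₁ τ₂ τ₃ = 0 then
    2 / 3 * (S.rho P N τ₁ τ₂ + S.rho P N τ₁ τ₃ + S.rho P N τ₂ τ₃)
  else ((S.W P τ₁ τ₂ τ₃).order : ℚ) / N

end Cur

/-! ## sums over pairs and triples -/

section sums

variable {A : Type}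

open Classical in
/-- ordered triples of distinct elements -/
noncomputable def tri (R : Finset A) : Finset (A × A × A) :=
  (R ×ˢ R ×ˢ R).filter (fun p => p.1 ≠ p.2.1 ∧ p.1 ≠ p.2.2 ∧ p.2.1 ≠ p.2.2)

open Classical in
/-- ordered pairs of distinct elements -/
noncomputable def prs (R : Finset A) : Finset (A × A) :=
  (R ×ˢ R).filter (fun p => p.1 ≠ p.2)

/-- sum over the ordered pairs of distinct elements -/
noncomputable def sum2 (R : Finset A) (f : A → A → ℚ) : ℚ := ∑ p ∈ prs R, f p.1 p.2

/-- sum over the ordered triples of distinct elements -/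
noncomputable def sum3 (R : Finset A) (f : A → A → A → ℚ) : ℚ :=
  ∑ p ∈ tri R, f p.1 p.2.1 p.2.2

end sums

namespace Cur

variable (S : Cur)

/-- the sum of all pair orders at a place -/
noncomputable def S2 (P : Option ℂ) (N : ℕ) : ℚ := sum2 (S.sh P N) (S.rho P N)

/-- the sum of all triple orders at a place -/
noncomputable def S3 (P : Option ℂ) (N : ℕ) : ℚ := sum3 (S.sh P N) (S.om P N)

open Classical in
/-- the number of collinear ordered triples -/
noncomputable def col (P : Option ℂ) (N : ℕ) : ℕ :=
  ((tri (S.sh P N)).filter (fun p => S.W P p.1 p.2.1 p.2.2 = 0)).card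

end Cur

end WR
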