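import Pool.Agent.helper51.WR.Hens
import Pool.Agent.helper51.WR.Chain

/-!
# WR-Root: there are `n` sheets at every admissible place

For every root `t` of `al P` the sheets of `hens` (with `h = N / e_t`) have centre `t`; at infinity the
sheets of `hens_inf` have centre `none`. Altogether at least `∑ e_t + (n - deg al) = n` sheets; the
polynomial `shp` has degree at most `n`. So all counts are equalities.
-/

namespace WR

open Polynomial

namespace Cur

variable (S : Cur)

theorem root_natDegree_be (P : Option ℂ) : (S.be P).natDegree ≤ S.n := by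
  cases P with
  | none => exact le_of_eq S.ha
  | some v => exact le_of_eq_of_le S.hb (le_of_lt S.hkn)

theorem root_natDegree_al (P : Option ℂ) : (S.al P).natDegree ≤ S.n := by
  rw [S.natDegree_al P]
  split_ifs
  · exact le_of_lt S.hkn
  · exact le_rfl

theorem root_sh_le (P : Option ℂ) (N : ℕ) : (S.sh P N).card ≤ S.n := by
  classical
  have h1 : (S.shp P N).natDegree ≤ S.n := by
    unfold shp
    refine le_trans (natDegree_sub_le _ _) (max_le ?_ ?_)
    · exact le_trans natDegree_map_le (S.root_natDegree_al P)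
    · exact le_trans (natDegree_C_mul_le _ _) (le_trans natDegree_map_le (S.root_natDegree_be P))
  calc (S.sh P N).card ≤ Multiset.card (S.shp P N).roots := by
        unfold sh
        exact Multiset.toFinset_card_le _
    _ ≤ (S.shp P N).natDegree := card_roots' _
    _ ≤ S.n := h1

theorem root_sum_e (P : Option ℂ) :
    ∑ t ∈ (S.al P).roots.toFinset, S.e P t = (S.al P).natDegree := by
  have h1 : Multiset.card (S.al P).roots = (S.al P).natDegree :=
    splits_iff_card_roots.1 (IsAlgClosed.splits (S.al P))
  rw [← h1, ← Multiset.toFinset_sum_count_eq]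
  refine Finset.sum_congr rfl fun t _ => ?_
  rw [count_roots]
  rfl

open Classical in
theorem root_fin_ge (P : Option ℂ) {N : ℕ} (hN : S.Adm P N) (t : ℂ) :
    S.e P t ≤ ((S.sh P N).filter (fun τ => cen τ = some t)).card := by
  by_cases hr : (S.al P).IsRoot t
  · have hd := hN.2.1 t hr
    obtain ⟨h, hh⟩ := hd
    have he : 0 < S.e P t := (rootMultiplicity_pos (S.al_ne P)).2 hr
    have hh0 : 0 < h := by
      rcases Nat.eq_zero_or_pos h with h0 | h0
      · rw [h0, mul_zero] at hh
        exact absurd hN.1 (by rw [hh]; exact lt_irrefl 0)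
      · exact h0
    have hβ : (S.be P).eval t ≠ 0 := by
      intro hb
      obtain ⟨u, w, huw⟩ := S.coprime P
      have h2 := congrArg (eval t) huw
      rw [eval_add, eval_mul, eval_mul, hb, (hr : (S.al P).eval t = 0), mul_zero, mul_zero,
        add_zero, eval_one] at h2
      exact zero_ne_one h2
    obtain ⟨Z, hZ, hZ2⟩ := hens (S.al P) (S.be P) t h hh0 (S.al_ne P) hr hβ
    have hZ' : Z.card = S.e P t := hZ
    rw [← hZ']
    refine Finset.card_le_card fun τ hτ => ?_
    obtain ⟨h3, _, _, h4, h5⟩ := hZ2 τ hτ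
    rw [Finset.mem_filter]
    refine ⟨?_, ?_⟩
    · rw [S.mem_sh P hN.1]
      have h6 : ((rootMultiplicity t (S.al P) * h : ℕ) : ℤ) = (N : ℤ) := by
        rw [hh]
        rfl
      rw [h3, h6]
    · unfold cen
      rw [if_pos h4, h5]
  · have h0 : S.e P t = 0 := rootMultiplicity_eq_zero hr
    rw [h0]
    exact Nat.zero_le _

open Classical in
theorem root_inf_ge (P : Option ℂ) {N : ℕ} (hN : S.Adm P N) :
    (if P = none then S.n - S.k else 0) ≤
      ((S.sh P N).filter (fun τ => cen τ = none)).card := by
  split_ifs with hP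
  · obtain ⟨h, hh⟩ := hN.2.2 hP
    subst hP
    have hh0 : 0 < h := by
      rcases Nat.eq_zero_or_pos h with h0 | h0
      · rw [h0, mul_zero] at hh
        exact absurd hN.1 (by rw [hh]; exact lt_irrefl 0)
      · exact h0
    have ha : (S.be none).natDegree = S.n := S.ha
    have hb : (S.al none).natDegree = S.k := S.hb
    obtain ⟨Z, hZ, hZ2⟩ := hens_inf (S.al none) (S.be none) h hh0 (S.al_ne none)
      (by rw [ha, hb]; exact S.hkn)
    rw [ha, hb] at hZ hZ2
    rw [← hZ]
    refine Finset.card_le_card fun τ hτ => ?_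
    obtain ⟨h3, h4, h5⟩ := hZ2 τ hτ
    rw [Finset.mem_filter]
    refine ⟨?_, ?_⟩
    · rw [S.mem_sh none hN.1, h3, hh]
    · unfold cen
      rw [if_neg]
      intro h6
      have h7 := (ge_iff h4).1 h6
      rw [h5] at h7
      have h8 : (0 : ℤ) < (h : ℤ) := by exact_mod_cast hh0
      linarith
  · exact Nat.zero_le _

open Classical in
/-- the places which occur as centres -/
noncomputable def rootT (P : Option ℂ) : Finset (Option ℂ) :=
  insert none ((S.al P).roots.toFinset.image some)

open Classical in
theorem root_sum_T (P : Option ℂ) (f : Option ℂ → ℕ) :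
    ∑ o ∈ S.rootT P, f o = f none + ∑ t ∈ (S.al P).roots.toFinset, f (some t) := by
  unfold rootT
  rw [Finset.sum_insert (by simp), Finset.sum_image (by simp)]

open Classical in
/-- the expected number of sheets with a given centre -/
noncomputable def rootc (P : Option ℂ) : Option ℂ → ℕ
  | none => if P = none then S.n - S.k else 0
  | some t => S.e P t

theorem root_sum_c (P : Option ℂ) : ∑ o ∈ S.rootT P, S.rootc P o = S.n := by
  rw [root_sum_T]
  change (if P = none then S.n - S.k else 0) + ∑ t ∈ (S.al P).roots.toFinset, S.e P t = S.n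
  rw [S.root_sum_e P, S.natDegree_al P]
  split_ifs
  · have := S.hkn
    omega
  · omega

open Classical in
theorem root_c_le (P : Option ℂ) {N : ℕ} (hN : S.Adm P N) (o : Option ℂ) :
    S.rootc P o ≤ ((S.sh P N).filter (fun τ => cen τ = o)).card := by
  cases o with
  | none => exact S.root_inf_ge P hN
  | some t => exact S.root_fin_ge P hN t

open Classical in
theorem root_sum_le (P : Option ℂ) (N : ℕ) :
    ∑ o ∈ S.rootT P, ((S.sh P N).filter (fun τ => cen τ = o)).card =
      ((S.sh P N).filter (fun τ => cen τ ∈ S.rootT P)).card := by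
  rw [Finset.card_eq_sum_card_fiberwise (f := cen) (t := S.rootT P)]
  · refine Finset.sum_congr rfl fun o ho => ?_
    congr 1
    ext τ
    simp only [Finset.mem_filter]
    constructor
    · rintro ⟨h1, h2⟩
      exact ⟨⟨h1, h2 ▸ ho⟩, h2⟩
    · rintro ⟨⟨h1, _⟩, h2⟩
      exact ⟨h1, h2⟩
  · intro τ hτ
    have h1 : τ ∈ (S.sh P N).filter (fun τ => cen τ ∈ S.rootT P) := hτ
    exact (Finset.mem_filter.1 h1).2

open Classical in
theorem root_all (P : Option ℂ) {N : ℕ} (hN : S.Adm P N) :
    (S.sh P N).card = S.n ∧
    ((S.sh P N).filter (fun τ => cen τ ∈ S.rootT P)).card = (S.sh P N).card ∧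
    ∀ o ∈ S.rootT P, ((S.sh P N).filter (fun τ => cen τ = o)).card = S.rootc P o := by
  have h1 := S.root_sh_le P N
  have h2 : ((S.sh P N).filter (fun τ => cen τ ∈ S.rootT P)).card ≤ (S.sh P N).card :=
    Finset.card_le_card (Finset.filter_subset _ _)
  have h3 := S.root_sum_le P N
  have h4 := S.root_sum_c P
  have h5 : ∑ o ∈ S.rootT P, S.rootc P o ≤
      ∑ o ∈ S.rootT P, ((S.sh P N).filter (fun τ => cen τ = o)).card :=
    Finset.sum_le_sum fun o _ => S.root_c_le P hN o
  have h6 : ∑ o ∈ S.rootT P, S.rootc P o =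
      ∑ o ∈ S.rootT P, ((S.sh P N).filter (fun τ => cen τ = o)).card := by omega
  refine ⟨by omega, by omega, fun o ho => ?_⟩
  have h7 := (Finset.sum_eq_sum_iff_of_le fun o _ => S.root_c_le P hN o).1 h6 o ho
  exact h7.symm

theorem sh_card (P : Option ℂ) {N : ℕ} (hN : S.Adm P N) : (S.sh P N).card = S.n :=
  (S.root_all P hN).1

open Classical in
theorem card_cen (P : Option ℂ) {N : ℕ} (hN : S.Adm P N) (t : ℂ) :
    ((S.sh P N).filter (fun τ => cen τ = some t)).card = S.e P t := by
  obtain ⟨_, h2, h3⟩ := S.root_all P hN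
  by_cases hr : (S.al P).IsRoot t
  · refine h3 (some t) ?_
    unfold rootT
    rw [Finset.mem_insert, Finset.mem_image]
    refine Or.inr ⟨t, ?_, rfl⟩
    rw [Multiset.mem_toFinset, mem_roots (S.al_ne P)]
    exact hr
  · have h0 : S.e P t = 0 := rootMultiplicity_eq_zero hr
    rw [h0, Finset.card_eq_zero, Finset.filter_eq_empty_iff]
    intro τ hτ hc
    have h4 : (S.sh P N).filter (fun τ => cen τ ∈ S.rootT P) = S.sh P N :=
      Finset.eq_of_subset_of_card_le (Finset.filter_subset _ _) (le_of_eq h2.symm)
    rw [← h4, Finset.mem_filter] at hτ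
    have h5 := hτ.2
    rw [hc] at h5
    unfold rootT at h5
    rw [Finset.mem_insert, Finset.mem_image] at h5
    rcases h5 with h5 | ⟨t', h6, h7⟩
    · exact Option.some_ne_none t h5
    · rw [Multiset.mem_toFinset, mem_roots (S.al_ne P)] at h6
      have h8 : t' = t := Option.some_injective ℂ h7
      exact hr (h8 ▸ h6)

open Classical in
theorem card_cen_none (P : Option ℂ) {N : ℕ} (hN : S.Adm P N) :
    ((S.sh P N).filter (fun τ => cen τ = none)).card = if P = none then S.n - S.k else 0 := by
  obtain ⟨_, _, h3⟩ := S.root_all P hN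
  refine h3 none ?_
  unfold rootT
  exact Finset.mem_insert_self _ _

/-- `n!` is admissible everywhere -/
theorem adm_factorial (P : Option ℂ) : S.Adm P (Nat.factorial S.n) := by
  refine ⟨Nat.factorial_pos _, fun t hr => ?_, fun _ => ?_⟩
  · refine Nat.dvd_factorial ((rootMultiplicity_pos (S.al_ne P)).2 hr) ?_
    calc S.e P t ≤ (S.al P).natDegree := by
          unfold e
          rw [← count_roots]
          exact le_trans (Multiset.count_le_card _ _) (card_roots' _)
      _ ≤ S.n := S.root_natDegree_al P
  · refine Nat.dvd_factorial ?_ (Nat.sub_le _ _)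
    have := S.hkn
    omega

end Cur

end WR
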