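import Pool.Agent.helper51.WR.LDefs
import Pool.Agent.helper51.WR.Root

/-!
# WR-Emb: embeddings of the splitting field into Laurent series

`ℂ[X] → M`, `X ↦ xv P N` is injective (`xv` is not a constant: transcendental, compare orders), so it extends
to `ℂ(x) → M` (`RatFunc.liftRingHom`/`RatFunc.liftAlgHom` or `IsFractionRing.lift`). With the algebra
structure given by this map the polynomial `PK` becomes `shp P N` (finite places) or
`- s^(-N) shp none N` (infinity), which splits in `M` because it has `n` roots (`sh_card`) and degree `n`.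
So there is `SplittingField.lift`. Roots go to roots; the image is everything (the split polynomial has the
images of the roots as its roots).
-/

namespace WR

open Polynomial

theorem Emb_aux {R : Type*} [CommRing R] (a b u w : R) (h : u * w = 1) :
    a - u * b = (-u) * (b - w * a) := by
  linear_combination (-a) * h

theorem Emb_coeff (e : ℤ) (he : e ≠ 0) (q : ℂ[X]) (j : ℕ) :
    (aeval (sp e) q : M).coeff ((j : ℤ) * e) = q.coeff j := by
  rw [Polynomial.aeval_def, Polynomial.eval₂_eq_sum_range, HahnSeries.coeff_sum]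
  have h1 : ∀ i ∈ Finset.range (q.natDegree + 1),
      (algebraMap ℂ M (q.coeff i) * sp e ^ i : M).coeff ((j : ℤ) * e) = if i = j then q.coeff j else 0 := by
    intro i _
    rw [sp_pow, mul_comm, coeff_sp_mul, coeff_algebraMap]
    by_cases hij : i = j
    · subst hij
      rw [sub_self, if_pos rfl, if_pos rfl]
    · rw [if_neg hij, if_neg]
      intro h
      apply hij
      have := mul_right_cancel₀ he (sub_eq_zero.1 h)
      exact_mod_cast this.symm
  refine (Finset.sum_congr rfl h1).trans ?_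
  rw [Finset.sum_ite_eq']
  split_ifs with h
  · rfl
  · rw [Finset.mem_range, not_lt] at h
    rw [Polynomial.coeff_eq_zero_of_natDegree_lt (by omega)]

theorem Emb_inj (e : ℤ) (he : e ≠ 0) (q : ℂ[X]) (hq : (aeval (sp e) q : M) = 0) : q = 0 := by
  ext j
  rw [← Emb_coeff e he q j, hq]
  simp

namespace Cur

variable (S : Cur)

theorem Emb_xv_inj (P : Option ℂ) {N : ℕ} (hN : 0 < N) :
    Function.Injective ((aeval (xv P N) : ℂ[X] →ₐ[ℂ] M) : ℂ[X] →+* M) := by
  rw [injective_iff_map_eq_zero]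
  intro q hq
  have hN' : (N : ℤ) ≠ 0 := by exact_mod_cast hN.ne'
  cases P with
  | none => exact Emb_inj (-(N : ℤ)) (neg_ne_zero.2 hN') q hq
  | some v =>
    have h1 : (aeval (sp (N : ℤ)) (q.comp (X + C v)) : M) = 0 := by
      rw [Polynomial.aeval_comp, map_add, aeval_X, aeval_C, add_comm]
      exact hq
    have h2 := Emb_inj (N : ℤ) hN' _ h1
    have h3 : (q.comp (X + C v)).comp (X - C v) = 0 := by rw [h2, Polynomial.zero_comp]
    rw [Polynomial.comp_assoc] at h3
    simpa using h3

theorem Emb_PK_ne : S.PK ≠ 0 ∧ S.PK.natDegree = S.n := by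
  have hinj := (algebraMap ℂ (RatFunc ℂ)).injective
  have h1 : (S.a.map (algebraMap ℂ (RatFunc ℂ))).natDegree = S.n := by
    rw [Polynomial.natDegree_map, S.ha]
  have h2 : (C (RatFunc.X : RatFunc ℂ) * S.b.map (algebraMap ℂ (RatFunc ℂ))).natDegree < S.n := by
    refine lt_of_le_of_lt (Polynomial.natDegree_C_mul_le _ _) ?_
    rw [Polynomial.natDegree_map, S.hb]
    exact S.hkn
  have h3 : S.PK.natDegree = S.n := by
    unfold PK
    rw [Polynomial.natDegree_sub_eq_left_of_natDegree_lt (by rw [h1]; exact h2), h1]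
  refine ⟨?_, h3⟩
  intro h
  rw [h, Polynomial.natDegree_zero] at h3
  have := S.hkn
  omega

theorem mem_rt (θ : S.Lf) : θ ∈ S.rt ↔ aeval θ S.a = S.xL * aeval θ S.b := by
  classical
  unfold rt
  rw [Multiset.mem_toFinset, Polynomial.mem_roots_map S.Emb_PK_ne.1]
  have h1 : eval₂ (algebraMap (RatFunc ℂ) S.Lf) θ S.PK =
      aeval θ S.a - S.xL * aeval θ S.b := by
    rw [← Polynomial.aeval_def]
    have e1 : aeval θ S.PK = aeval θ (S.a.map (algebraMap ℂ (RatFunc ℂ)) -
        C RatFunc.X * S.b.map (algebraMap ℂ (RatFunc ℂ))) := rfl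
    rw [e1, map_sub, map_mul, Polynomial.aeval_C, Polynomial.aeval_map_algebraMap,
      Polynomial.aeval_map_algebraMap]
    rfl
  rw [h1, sub_eq_zero]

/-- the polynomial of the sheets over the field of `x` -/
theorem Emb_shp (P : Option ℂ) (N : ℕ) : ∃ u : M, u ≠ 0 ∧
    S.a.map (algebraMap ℂ M) - C (xv P N) * S.b.map (algebraMap ℂ M) = C u * S.shp P N := by
  cases P with
  | none =>
    refine ⟨-sp (-(N : ℤ)), ?_, ?_⟩
    · rw [neg_ne_zero]
      exact sp_ne _
    · unfold shp xv al be
      have h1 : sp (-(N : ℤ)) * sp (N : ℤ) = 1 := by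
        rw [← sp_add, neg_add_cancel, sp_zero]
      have h2 : C (sp (-(N : ℤ))) * C (sp (N : ℤ)) = (1 : M[X]) := by
        rw [← C_mul, h1, C_1]
      simp only
      rw [C_neg]
      exact Emb_aux (R := M[X]) _ _ _ _ h2
  | some v =>
    refine ⟨1, one_ne_zero, ?_⟩
    unfold shp xv al be
    simp only [Polynomial.map_sub, Polynomial.map_mul, Polynomial.map_C, C_add, C_1]
    ring

open Classical in
theorem emb (P : Option ℂ) {N : ℕ} (hN : S.Adm P N) :
    ∃ ι : S.Lf →ₐ[ℂ] M, ι S.xL = xv P N ∧ S.rt.image ι = S.sh P N := by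
  have hinj := Emb_xv_inj P hN.1
  obtain ⟨j, hj⟩ : ∃ j : RatFunc ℂ →+* M, ∀ p : ℂ[X],
      j (algebraMap ℂ[X] (RatFunc ℂ) p) = aeval (xv P N) p := by
    refine ⟨IsFractionRing.lift hinj, fun p => ?_⟩
    rw [IsFractionRing.lift_algebraMap]
    rfl
  have hjC : ∀ c : ℂ, j (algebraMap ℂ (RatFunc ℂ) c) = algebraMap ℂ M c := by
    intro c
    have h1 : algebraMap ℂ (RatFunc ℂ) c = algebraMap ℂ[X] (RatFunc ℂ) (C c) := by
      rw [IsScalarTower.algebraMap_apply ℂ ℂ[X] (RatFunc ℂ)]
      rfl
    rw [h1, hj, aeval_C]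
  have hjX : j RatFunc.X = xv P N := by
    rw [← RatFunc.algebraMap_X, hj, aeval_X]
  have hjcomp : j.comp (algebraMap ℂ (RatFunc ℂ)) = algebraMap ℂ M := RingHom.ext hjC
  have hmap : S.PK.map j =
      S.a.map (algebraMap ℂ M) - C (xv P N) * S.b.map (algebraMap ℂ M) := by
    unfold PK
    rw [Polynomial.map_sub, Polynomial.map_mul, Polynomial.map_C, Polynomial.map_map,
      Polynomial.map_map, hjcomp, hjX]
  obtain ⟨u, hu, hsh⟩ := S.Emb_shp P N
  have hroots : (S.PK.map j).roots = (S.shp P N).roots := by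
    rw [hmap, hsh, Polynomial.roots_C_mul _ hu]
  have hsplit : (S.PK.map j).Splits := by
    rw [Polynomial.splits_iff_card_roots]
    refine le_antisymm (Polynomial.card_roots' _) ?_
    rw [Polynomial.natDegree_map, S.Emb_PK_ne.2, ← S.sh_card P hN, hroots]
    exact Multiset.toFinset_card_le _
  let _ : Algebra (RatFunc ℂ) M := j.toAlgebra
  have hsplit' : (S.PK.map (algebraMap (RatFunc ℂ) M)).Splits := hsplit
  obtain ⟨l, hl⟩ : ∃ l : S.Lf →ₐ[RatFunc ℂ] M, l = SplittingField.lift S.PK hsplit' := ⟨_, rfl⟩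
  have hlc : ∀ x : RatFunc ℂ, l (algebraMap (RatFunc ℂ) S.Lf x) = j x := fun x => l.commutes x
  refine ⟨{ toRingHom := (l : S.Lf →+* M), commutes' := fun c => ?_ }, ?_, ?_⟩
  · show l (algebraMap ℂ S.Lf c) = algebraMap ℂ M c
    rw [IsScalarTower.algebraMap_apply ℂ (RatFunc ℂ) S.Lf, hlc, hjC]
  · show l S.xL = xv P N
    unfold xL
    rw [hlc, hjX]
  · have h1 : (S.PK.map (algebraMap (RatFunc ℂ) S.Lf)).Splits := SplittingField.splits S.PK
    have h2 : ((S.PK.map (algebraMap (RatFunc ℂ) S.Lf)).map (l : S.Lf →+* M)).roots =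
        (S.PK.map (algebraMap (RatFunc ℂ) S.Lf)).roots.map (l : S.Lf →+* M) :=
      h1.roots_map (l : S.Lf →+* M)
    have h3 : (l : S.Lf →+* M).comp (algebraMap (RatFunc ℂ) S.Lf) = j := RingHom.ext hlc
    rw [Polynomial.map_map, h3, hroots] at h2
    unfold rt sh
    rw [h2, Multiset.toFinset_map]
    rfl

theorem rt_card : S.rt.card = S.n := by
  classical
  have hN := S.adm_factorial none
  obtain ⟨ι, _, h2⟩ := S.emb none hN
  rw [← S.sh_card none hN, ← h2]
  exact (Finset.card_image_of_injective _ (ι : S.Lf →+* M).injective).symm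

end Cur

end WR
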