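import Pool.Agent.helper51.WR.Ge

/-!
# WR-Eul: the Euler derivation on Laurent series
-/

namespace WR

open Polynomial

theorem eul_coeff (f : M) (l : ℤ) : (eul f).coeff l = l * f.coeff l := rfl

theorem eul_add (f g : M) : eul (f + g) = eul f + eul g := by
  ext l
  rw [HahnSeries.coeff_add', Pi.add_apply, eul_coeff, eul_coeff, eul_coeff,
    HahnSeries.coeff_add', Pi.add_apply, mul_add]

theorem eul_neg (f : M) : eul (-f) = - eul f := by
  ext l
  rw [HahnSeries.coeff_neg', Pi.neg_apply, eul_coeff, eul_coeff,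
    HahnSeries.coeff_neg', Pi.neg_apply, mul_neg]

theorem eul_sub (f g : M) : eul (f - g) = eul f - eul g := by
  rw [sub_eq_add_neg, eul_add, eul_neg, ← sub_eq_add_neg]

/-- Leibniz rule. Compare the coefficients (`HahnSeries.coeff_mul`). -/
theorem eul_mul (f g : M) : eul (f * g) = eul f * g + f * eul g := by
  have hsf : (eul f).support ⊆ f.support := by
    intro l hl
    simp only [HahnSeries.mem_support, eul_coeff] at hl ⊢
    exact right_ne_zero_of_mul hl
  have hsg : (eul g).support ⊆ g.support := by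
    intro l hl
    simp only [HahnSeries.mem_support, eul_coeff] at hl ⊢
    exact right_ne_zero_of_mul hl
  ext l
  rw [HahnSeries.coeff_add', Pi.add_apply, eul_coeff, HahnSeries.coeff_mul,
    HahnSeries.coeff_mul_left' f.isPWO_support hsf,
    HahnSeries.coeff_mul_right' g.isPWO_support hsg, Finset.mul_sum, ← Finset.sum_add_distrib]
  refine Finset.sum_congr rfl fun ij hij => ?_
  have h1 : ij.1 + ij.2 = l := (Finset.mem_antidiagonal.1 hij).2.2
  rw [eul_coeff, eul_coeff, ← h1]
  push_cast
  ring

theorem eul_algebraMap (c : ℂ) : eul (algebraMap ℂ M c) = 0 := by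
  ext l
  rw [eul_coeff, coeff_algebraMap]
  by_cases h : l = 0
  · simp [h]
  · simp [h]

theorem Eul_pow (τ : M) (n : ℕ) : eul (τ ^ (n + 1)) = ((n : M) + 1) * τ ^ n * eul τ := by
  induction n with
  | zero => simp
  | succ n ih =>
    rw [pow_succ, eul_mul, ih]
    push_cast
    ring

theorem eul_sp (N : ℤ) : eul (sp N) = (N : M) * sp N := by
  have h1 : (N : M) * sp N = HahnSeries.single N (N : ℂ) := by
    have h2 : (N : M) = HahnSeries.C (N : ℂ) := by
      rw [map_intCast]
    rw [h2, HahnSeries.C_mul_eq_smul, sp]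
    ext l
    rw [HahnSeries.coeff_smul, smul_eq_mul]
    by_cases h : l = N
    · rw [h]; simp
    · rw [HahnSeries.coeff_single_of_ne h, HahnSeries.coeff_single_of_ne h, mul_zero]
  rw [h1]
  ext l
  rw [eul_coeff, sp]
  by_cases h : l = N
  · rw [h]; simp
  · simp [HahnSeries.coeff_single_of_ne h]

/-- `E(f/g) = (E f g - f E g) / g^2` -/
theorem eul_div (f : M) {g : M} (hg : g ≠ 0) : eul (f / g) = (eul f * g - f * eul g) / g ^ 2 := by
  have h1 : f = f / g * g := by rw [div_mul_cancel₀ _ hg]
  have h2 : eul f = eul (f / g) * g + f / g * eul g := by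
    conv_lhs => rw [h1]
    rw [eul_mul]
  rw [h2, eq_div_iff (pow_ne_zero 2 hg)]
  field_simp
  ring

/-- chain rule -/
theorem eul_aeval (τ : M) (p : ℂ[X]) : eul (aeval τ p) = aeval τ (derivative p) * eul τ := by
  induction p using Polynomial.induction_on' with
  | add p q hp hq =>
    rw [map_add, eul_add, hp, hq, derivative_add, map_add, add_mul]
  | monomial n a =>
    cases n with
    | zero =>
      rw [derivative_monomial, aeval_monomial, pow_zero, mul_one, eul_algebraMap]
      simp
    | succ n =>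
      rw [derivative_monomial, aeval_monomial, aeval_monomial, eul_mul, eul_algebraMap, zero_mul,
        zero_add, Eul_pow, Nat.add_sub_cancel, map_mul, map_natCast]
      push_cast
      ring

theorem ge_eul {f : M} {r : ℤ} (h : Ge f r) : Ge (eul f) r := by
  intro n hn
  rw [eul_coeff, h n hn, mul_zero]

/-- the constant term disappears -/
theorem ge_eul_one {f : M} (h : Ge f 0) : Ge (eul f) 1 := by
  intro n hn
  rw [eul_coeff]
  rcases (show n ≤ 0 by omega).lt_or_eq with h1 | h1
  · rw [h n h1, mul_zero]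
  · rw [h1, Int.cast_zero, zero_mul]

/-- if the only possible coefficient of `f` below `h` is the constant one -/
theorem ge_eul_of {f : M} {c : ℂ} {h : ℤ} (hf : Ge (f - algebraMap ℂ M c) h) : Ge (eul f) h := by
  have h1 := ge_eul hf
  rwa [eul_sub, eul_algebraMap, sub_zero] at h1

theorem eul_eq_zero {f : M} (h : eul f = 0) : ∃ c : ℂ, f = algebraMap ℂ M c := by
  refine ⟨f.coeff 0, ?_⟩
  ext l
  rw [coeff_algebraMap]
  by_cases h0 : l = 0
  · rw [if_pos h0, h0]
  · rw [if_neg h0]
    have h1 : (eul f).coeff l = 0 := by rw [h]; rfl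
    rw [eul_coeff] at h1
    exact (mul_eq_zero.1 h1).resolve_left (Int.cast_ne_zero.2 h0)

/-- the naive bound of the Wronskian -/
theorem wr_ge {f g : M} {r r' : ℤ} (hf : Ge f r) (hg : Ge g r') :
    Ge (f * eul g - g * eul f) (r + r') := by
  refine ge_sub (ge_mul hf (ge_eul hg)) ?_
  rw [add_comm]
  exact ge_mul hg (ge_eul hf)

/-- for equal orders the leading terms cancel -/
theorem wr_ge_eq {f g : M} {r : ℤ} (hf : Ge f r) (hg : Ge g r) :
    Ge (f * eul g - g * eul f) (2 * r + 1) := by
  intro n hn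
  rcases (show n ≤ r + r by omega).lt_or_eq with h1 | h1
  · exact wr_ge hf hg n h1
  · rw [h1, HahnSeries.coeff_sub', Pi.sub_apply, coeff_mul_ord hf (ge_eul hg),
      coeff_mul_ord hg (ge_eul hf), eul_coeff, eul_coeff]
    ring

/-- a vanishing Wronskian means proportionality: `E(g/f) = 0` -/
theorem wr_zero {f g : M} (hf : f ≠ 0) (h : f * eul g - g * eul f = 0) :
    ∃ c : ℂ, g = algebraMap ℂ M c * f := by
  have h1 : eul (g / f) = 0 := by
    rw [eul_div g hf, mul_comm (eul g) f, h, zero_div]
  obtain ⟨c, hc⟩ := eul_eq_zero h1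
  exact ⟨c, by rw [← hc, div_mul_cancel₀ _ hf]⟩

end WR
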