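import Pool.Agent.helper51.WR.Fine

/-!
# WR-Fine4: `n = 4`

At `v₁` (`N = 4`, `class_four`): `S2 = 2 B₁ + B₂`; each of the 24 triples contains exactly one of the two pairs
with order `B₂/4`; not collinear (`col = 0`): `S3 ≥ 6 (B₁ + B₂) - 24` if `B₂ > B₁` (`om_naive`),
`S3 ≥ 12 B₁ - 18` if `B₁ = B₂` (`om_eq`). At infinity (`N = 3`, `class_prime`): three sheets with centre
infinity, `rho = B'/3`, `3 ∤ B'`, `B' ≥ - m`; one with finite centre, `rho = - m/3`: `S2 = 2 B' - 2 m`;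
the 6 triples without the finite one: `om ≥ 2 B'/3 - 2/3`; the 18 others: `om ≥ (B' - m)/3 - 1` if
`B' > - m`, `om ≥ - 2 m/3 - 2/3` if `B' = - m`. T2: `2 B₁ + B₂ + o - 2 m + 2 B' = 12`. Four cases:
`B₂ > B₁`, `B' > - m`: `6 B₁ + 6 B₂ - 6 m + 10 B' + 6 o ≤ 58`, so `3 B₁ ≥ 3 m - B' + 7`; and
`B₂ ≥ B₁ + 1`: `3 B₁ ≤ 11 - o + 2 m - 2 B'`; so `m + B' ≤ 4 - o ≤ 1`: `B' = 1 - m`, `o = 3`,
`3 B₁ = 4 m + 6`, `B₂ = B₁ + 1`; `3 ∣ m`: `m = 3 K`, `B₁ = 4 K + 2`. The other three cases are impossible: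
`B₁ = B₂`, `B' > - m`: `o + m + B' ≤ 2`; `B₂ > B₁`, `B' = - m`: `20 + 8 m ≤ 6 B₁ ≤ 22 - 2 o + 8 m`;
`B₁ = B₂`, `B' = - m`: `2 + 2 o ≤ 0`. (`3 ∣ m`: otherwise the coefficient of `y none τ` at `- m`, which is
not zero by `y_inf`, contradicts the minimality of `B' = 1 - m` in `class_prime`; or from `3 B₁ = 4 m + 6`.)
-/

namespace WR

open Polynomial

open Classical in
theorem Fine4_mem_tri {A : Type} {R : Finset A} {p : A × A × A} (h : p ∈ tri R) :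
    p.1 ∈ R ∧ p.2.1 ∈ R ∧ p.2.2 ∈ R ∧ p.1 ≠ p.2.1 ∧ p.1 ≠ p.2.2 ∧ p.2.1 ≠ p.2.2 := by
  unfold tri at h
  rw [Finset.mem_filter, Finset.mem_product, Finset.mem_product] at h
  exact ⟨h.1.1, h.1.2.1, h.1.2.2, h.2.1, h.2.2.1, h.2.2.2⟩

open Classical in
theorem Fine4_mem_prs {A : Type} {R : Finset A} {p : A × A} (h : p ∈ prs R) :
    p.1 ∈ R ∧ p.2 ∈ R ∧ p.1 ≠ p.2 := by
  unfold prs at h
  rw [Finset.mem_filter, Finset.mem_product] at h
  exact ⟨h.1.1, h.1.2, h.2⟩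

theorem Fine4_sum3_le {A : Type} {R : Finset A} {f g : A → A → A → ℚ}
    (h : ∀ i ∈ R, ∀ j ∈ R, ∀ l ∈ R, i ≠ j → i ≠ l → j ≠ l → f i j l ≤ g i j l) :
    sum3 R f ≤ sum3 R g := by
  unfold sum3
  refine Finset.sum_le_sum fun p hp => ?_
  obtain ⟨h1, h2, h3, h4, h5, h6⟩ := Fine4_mem_tri hp
  exact h _ h1 _ h2 _ h3 h4 h5 h6

theorem Fine4_sum3_const {A : Type} (R : Finset A) (c : ℚ) :
    sum3 R (fun _ _ _ => c) = (R.card : ℚ) * (R.card - 1) * (R.card - 2) * c := by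
  unfold sum3
  rw [Finset.sum_const, nsmul_eq_mul, card_tri]

/-- sums of `c - d (χ i + χ j + χ l)` -/
theorem Fine4_sum3_lin {A : Type} (R : Finset A) (c d : ℚ) (χ : A → ℚ) :
    sum3 R (fun i j l => c - d * (χ i + χ j + χ l)) =
      (R.card : ℚ) * (R.card - 1) * (R.card - 2) * c -
        3 * d * (((R.card : ℚ) - 1) * ((R.card : ℚ) - 2) * ∑ i ∈ R, χ i) := by
  have h1 := sum3_one R χ
  have h2 : sum3 R (fun _ j _ => χ j) = sum3 R (fun i _ _ => χ i) :=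
    sum3_swap12 R (fun i _ _ => χ i)
  have h3 : sum3 R (fun _ _ l => χ l) = sum3 R (fun _ j _ => χ j) :=
    sum3_swap23 R (fun _ j _ => χ j)
  have h4 := Fine4_sum3_const R c
  have h5 : sum3 R (fun i j l => c - d * (χ i + χ j + χ l)) =
      sum3 R (fun _ _ _ => c) - d * (sum3 R (fun i _ _ => χ i) + sum3 R (fun _ j _ => χ j) +
        sum3 R (fun _ _ l => χ l)) := by
    unfold sum3
    rw [← Finset.sum_add_distrib, ← Finset.sum_add_distrib, Finset.mul_sum,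
      ← Finset.sum_sub_distrib]
  rw [h5, h3, h2, h1, h4]
  ring

theorem Fine4_sum2_congr {A : Type} {R : Finset A} {f g : A → A → ℚ}
    (h : ∀ i ∈ R, ∀ j ∈ R, i ≠ j → f i j = g i j) : sum2 R f = sum2 R g := by
  unfold sum2
  refine Finset.sum_congr rfl fun p hp => ?_
  obtain ⟨h1, h2, h3⟩ := Fine4_mem_prs hp
  exact h _ h1 _ h2 h3

theorem Fine4_sum2_lin {A : Type} (R : Finset A) (hR : R.card = 4) (c d : ℚ) (χ : A → ℚ) :
    sum2 R (fun i j => c - d * (χ i + χ j)) = 12 * c - 6 * d * ∑ i ∈ R, χ i := by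
  have h0 := sum3_pair R (fun i j => c - d * (χ i + χ j))
  have h1 := sum3_one R χ
  have h2 : sum3 R (fun _ j _ => χ j) = sum3 R (fun i _ _ => χ i) :=
    sum3_swap12 R (fun i _ _ => χ i)
  have h4 := Fine4_sum3_const R c
  have h5 : sum3 R (fun i j _ => c - d * (χ i + χ j)) =
      sum3 R (fun _ _ _ => c) - d * (sum3 R (fun i _ _ => χ i) + sum3 R (fun _ j _ => χ j)) := by
    unfold sum3
    rw [← Finset.sum_add_distrib, Finset.mul_sum, ← Finset.sum_sub_distrib]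
  rw [h5, h2, h1, h4, hR] at h0
  push_cast at h0
  linarith

open Classical in
theorem Fine4_sum2_four {A : Type} {x₀ x₁ x₂ x₃ : A} (h01 : x₀ ≠ x₁) (h02 : x₀ ≠ x₂)
    (h03 : x₀ ≠ x₃) (h12 : x₁ ≠ x₂) (h13 : x₁ ≠ x₃) (h23 : x₂ ≠ x₃) (f : A → A → ℚ)
    (hf : ∀ i j, f i j = f j i) :
    sum2 ({x₀, x₁, x₂, x₃} : Finset A) f =
      2 * (f x₀ x₁ + f x₀ x₂ + f x₀ x₃ + f x₁ x₂ + f x₁ x₃ + f x₂ x₃) := by
  unfold sum2 prs
  rw [Finset.sum_filter, Finset.sum_product]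
  have n0 : x₀ ∉ ({x₁, x₂, x₃} : Finset A) := by simp [h01, h02, h03]
  have n1 : x₁ ∉ ({x₂, x₃} : Finset A) := by simp [h12, h13]
  have n2 : x₂ ∉ ({x₃} : Finset A) := by simp [h23]
  have hsum : ∀ g : A → ℚ, ∑ i ∈ ({x₀, x₁, x₂, x₃} : Finset A), g i =
      g x₀ + (g x₁ + (g x₂ + g x₃)) := by
    intro g
    rw [Finset.sum_insert n0, Finset.sum_insert n1, Finset.sum_insert n2, Finset.sum_singleton]
  simp only [hsum]
  rw [hf x₁ x₀, hf x₂ x₀, hf x₃ x₀, hf x₂ x₁, hf x₃ x₁, hf x₃ x₂]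
  simp only [ne_eq, not_true_eq_false, if_false, h01, h02, h03, h12, h13, h23, h01.symm,
    h02.symm, h03.symm, h12.symm, h13.symm, h23.symm, not_false_eq_true, if_true]
  ring

open Classical in
theorem Fine4_ne {A : Type} {x₀ x₁ x₂ x₃ : A} (h : ({x₀, x₁, x₂, x₃} : Finset A).card = 4) :
    x₀ ≠ x₁ ∧ x₀ ≠ x₂ ∧ x₀ ≠ x₃ ∧ x₁ ≠ x₂ ∧ x₁ ≠ x₃ ∧ x₂ ≠ x₃ := by
  have key : ∀ a b c : A, ¬ ({x₀, x₁, x₂, x₃} : Finset A) ⊆ {a, b, c} := fun a b c hs => by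
    have := (Finset.card_le_card hs).trans Finset.card_le_three
    omega
  refine ⟨fun e => key x₀ x₂ x₃ ?_, fun e => key x₀ x₁ x₃ ?_, fun e => key x₀ x₁ x₂ ?_,
    fun e => key x₀ x₁ x₃ ?_, fun e => key x₀ x₁ x₂ ?_, fun e => key x₀ x₁ x₂ ?_⟩ <;>
  · intro w hw
    simp only [Finset.mem_insert, Finset.mem_singleton] at hw ⊢
    subst e
    tauto

namespace Cur

variable {S : Cur}

open Classical in
theorem Fine4_W {P : Option ℂ} {N : ℕ} (h : S.col P N = 0) {i j l : M} (hi : i ∈ S.sh P N)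
    (hj : j ∈ S.sh P N) (hl : l ∈ S.sh P N) (hij : i ≠ j) (hil : i ≠ l) (hjl : j ≠ l) :
    S.W P i j l ≠ 0 := by
  intro h0
  unfold col at h
  rw [Finset.card_eq_zero] at h
  have h1 : (i, j, l) ∈ (tri (S.sh P N)).filter (fun p => S.W P p.1 p.2.1 p.2.2 = 0) := by
    rw [Finset.mem_filter]
    refine ⟨?_, h0⟩
    unfold tri
    rw [Finset.mem_filter, Finset.mem_product, Finset.mem_product]
    exact ⟨⟨hi, hj, hl⟩, hij, hil, hjl⟩
  rw [h] at h1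
  exact Finset.notMem_empty _ h1

theorem Fine4_naive {P : Option ℂ} {N : ℕ} (hN : 0 < N) (h : S.col P N = 0) {i j l : M}
    (hi : i ∈ S.sh P N) (hj : j ∈ S.sh P N) (hl : l ∈ S.sh P N) (hij : i ≠ j) (hil : i ≠ l)
    (hjl : j ≠ l) :
    S.rho P N i j + S.rho P N i l - 1 ≤ S.om P N i j l ∧
    S.rho P N i j + S.rho P N j l - 1 ≤ S.om P N i j l ∧
    S.rho P N i l + S.rho P N j l - 1 ≤ S.om P N i j l := by
  have h1 := om_naive hN hi hj hl hij hil hjl (Fine4_W h hi hj hl hij hil hjl)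
  have h2 := om_naive hN hj hi hl hij.symm hjl hil (Fine4_W h hj hi hl hij.symm hjl hil)
  have h3 := om_naive hN hl hi hj hil.symm hjl.symm hij
    (Fine4_W h hl hi hj hil.symm hjl.symm hij)
  rw [om_swap12 (τ₁ := i) (τ₂ := j) (τ₃ := l), rho_symm (τ := j) (τ' := i)] at h2
  rw [om_swap12 (τ₁ := i) (τ₂ := l) (τ₃ := j), om_swap23 (τ₁ := i) (τ₂ := j) (τ₃ := l),
    rho_symm (τ := l) (τ' := i), rho_symm (τ := l) (τ' := j)] at h3
  exact ⟨h1, h2, h3⟩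

open Classical in
theorem Fine4_v1 {P : Option ℂ} (hN : S.Adm P 4) (hcol : S.col P 4 = 0) {τ : M}
    (hτ : τ ∈ S.sh P 4) (hc : ((S.sh P 4).filter (fun τ' => cen τ' = cen τ)).card = 4)
    (hcard : (S.sh P 4).card = 4) :
    ∃ B₁ B₂ : ℤ, B₁ ≤ B₂ ∧ (S.y P τ).coeff B₁ ≠ 0 ∧ (S.y P τ).coeff B₂ ≠ 0 ∧
      (∀ l < B₁, ¬ (4 : ℤ) ∣ l → (S.y P τ).coeff l = 0) ∧
      S.S2 P 4 = 2 * B₁ + B₂ ∧ 6 * ((B₁ : ℚ) + B₂) - 24 ≤ S.S3 P 4 ∧
      (B₁ = B₂ → 12 * (B₁ : ℚ) - 18 ≤ S.S3 P 4) := by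
  have h4 : 0 < 4 := by norm_num
  obtain ⟨B₁, B₂, hB, -, -, hc1, hc2, hm1, -, τ₀, τ₁, τ₂, τ₃, hf, r02, r13, r01, r03, r12, r23⟩ :=
    class_four hN hτ hc
  have hsub : S.sh P 4 = ({τ₀, τ₁, τ₂, τ₃} : Finset M) := by
    rw [← hf]
    exact (Finset.eq_of_subset_of_card_le (Finset.filter_subset _ _) (by rw [hc, hcard])).symm
  have hcd : ({τ₀, τ₁, τ₂, τ₃} : Finset M).card = 4 := by rw [← hsub, hcard]
  obtain ⟨n01, n02, n03, n12, n13, n23⟩ := Fine4_ne hcd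
  refine ⟨B₁, B₂, hB, hc1, hc2, hm1, ?_, ?_, ?_⟩
  · unfold S2
    rw [hsub, Fine4_sum2_four n01 n02 n03 n12 n13 n23 _ (fun i j => rho_symm), r01, r02, r03, r12,
      r13, r23]
    ring
  · have h5 := Fine4_sum3_const (S.sh P 4) (((B₁ : ℚ) + B₂) / 4 - 1)
    rw [hcard] at h5
    have h6 : sum3 (S.sh P 4) (fun _ _ _ => ((B₁ : ℚ) + B₂) / 4 - 1) ≤ S.S3 P 4 := by
      refine Fine4_sum3_le fun i hi j hj l hl hij hil hjl => ?_
      obtain ⟨a1, a2, a3⟩ := Fine4_naive h4 hcol hi hj hl hij hil hjl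
      rw [hsub] at hi hj hl
      have r10 : S.rho P 4 τ₁ τ₀ = (B₁ : ℚ) / 4 := by rw [rho_symm, r01]
      have r20 : S.rho P 4 τ₂ τ₀ = (B₂ : ℚ) / 4 := by rw [rho_symm, r02]
      have r30 : S.rho P 4 τ₃ τ₀ = (B₁ : ℚ) / 4 := by rw [rho_symm, r03]
      have r21 : S.rho P 4 τ₂ τ₁ = (B₁ : ℚ) / 4 := by rw [rho_symm, r12]
      have r31 : S.rho P 4 τ₃ τ₁ = (B₂ : ℚ) / 4 := by rw [rho_symm, r13]
      have r32 : S.rho P 4 τ₃ τ₂ = (B₁ : ℚ) / 4 := by rw [rho_symm, r23]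
      simp only [Finset.mem_insert, Finset.mem_singleton] at hi hj hl
      rcases hi with rfl | rfl | rfl | rfl <;> rcases hj with rfl | rfl | rfl | rfl <;>
        first
          | exact absurd rfl hij
          | (rcases hl with rfl | rfl | rfl | rfl <;>
              first
                | exact absurd rfl hil
                | exact absurd rfl hjl
                | linarith)
    push_cast at h5
    linarith
  · intro hBB
    have h5 := Fine4_sum3_const (S.sh P 4) ((B₁ : ℚ) / 2 - 3 / 4)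
    rw [hcard] at h5
    have h6 : sum3 (S.sh P 4) (fun _ _ _ => (B₁ : ℚ) / 2 - 3 / 4) ≤ S.S3 P 4 := by
      refine Fine4_sum3_le fun i hi j hj l hl hij hil hjl => ?_
      have hW := Fine4_W hcol hi hj hl hij hil hjl
      have ha := om_eq h4 hi hj hl hij hil hjl hW
      rw [hsub] at hi hj hl
      have r10 : S.rho P 4 τ₁ τ₀ = (B₁ : ℚ) / 4 := by rw [rho_symm, r01]
      have r20 : S.rho P 4 τ₂ τ₀ = (B₂ : ℚ) / 4 := by rw [rho_symm, r02]
      have r30 : S.rho P 4 τ₃ τ₀ = (B₁ : ℚ) / 4 := by rw [rho_symm, r03]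
      have r21 : S.rho P 4 τ₂ τ₁ = (B₁ : ℚ) / 4 := by rw [rho_symm, r12]
      have r31 : S.rho P 4 τ₃ τ₁ = (B₂ : ℚ) / 4 := by rw [rho_symm, r13]
      have r32 : S.rho P 4 τ₃ τ₂ = (B₁ : ℚ) / 4 := by rw [rho_symm, r23]
      rw [← hBB] at r02 r13 r20 r31
      have hall : ∀ x ∈ ({τ₀, τ₁, τ₂, τ₃} : Finset M), ∀ y ∈ ({τ₀, τ₁, τ₂, τ₃} : Finset M),
          x ≠ y → S.rho P 4 x y = (B₁ : ℚ) / 4 := by
        intro x hx y hy hxy
        simp only [Finset.mem_insert, Finset.mem_singleton] at hx hy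
        rcases hx with rfl | rfl | rfl | rfl <;> rcases hy with rfl | rfl | rfl | rfl <;>
          first
            | exact absurd rfl hxy
            | assumption
      rw [hall i hi j hj hij, hall i hi l hl hil] at ha
      have hb := ha rfl
      push_cast at hb
      linarith
    push_cast at h5
    linarith

open Classical in
theorem Fine4_inf (hn : S.n = 4) (hk : S.k = 1) (hN : S.Adm none 3) (hcol : S.col none 3 = 0) :
    ∃ (B : ℤ) (τ : M), τ ∈ S.sh none 3 ∧ cen τ = none ∧ (S.y none τ).coeff B ≠ 0 ∧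
      -(S.m : ℤ) ≤ B ∧ S.S2 none 3 = 2 * B - 2 * S.m ∧
      10 * (B : ℚ) - 6 * S.m - 22 ≤ S.S3 none 3 ∧
      (B = -(S.m : ℤ) → -16 * (S.m : ℚ) - 16 ≤ S.S3 none 3) := by
  have h3 : 0 < 3 := by norm_num
  have hcard : (S.sh none 3).card = 4 := by rw [sh_card S none hN, hn]
  have hcn := card_cen_none S none hN
  rw [if_pos rfl, hn, hk] at hcn
  have hcf : ((S.sh none 3).filter (fun τ => ¬ cen τ = none)).card = 1 := by
    have h5 := Finset.card_filter_add_card_filter_not (s := S.sh none 3)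
      (fun τ : M => cen τ = none)
    omega
  obtain ⟨τ, hτ'⟩ : ((S.sh none 3).filter (fun τ => cen τ = none)).Nonempty := by
    rw [← Finset.card_pos, hcn]
    norm_num
  obtain ⟨hτ, hτc⟩ := Finset.mem_filter.1 hτ'
  have hc : ((S.sh none 3).filter (fun τ' => cen τ' = cen τ)).card = 3 := by
    rw [hτc]
    exact hcn
  obtain ⟨B, -, hcB, -, hrho⟩ := class_prime hN Nat.prime_three hτ hc
  have hq : (S.m : ℚ) / ((S.n : ℚ) - S.k) = S.m / 3 := by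
    rw [hn, hk]
    norm_num
  have hfin : ∀ i ∈ S.sh none 3, ∀ j ∈ S.sh none 3, i ≠ j → cen i ≠ none → cen j ≠ none →
      False := by
    intro i hi j hj hij ci cj
    exact hij (Finset.card_le_one.1 hcf.le i (Finset.mem_filter.2 ⟨hi, ci⟩) j
      (Finset.mem_filter.2 ⟨hj, cj⟩))
  set χ : M → ℚ := fun i => if cen i = none then 0 else 1 with hχ
  have hχ0 : ∀ i, cen i = none → χ i = 0 := fun i hi => if_pos hi
  have hχ1 : ∀ i, cen i ≠ none → χ i = 1 := fun i hi => if_neg hi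
  have hχs : ∑ i ∈ S.sh none 3, χ i = 1 := by
    rw [← Finset.sum_filter_add_sum_filter_not (S.sh none 3) (fun τ : M => cen τ = none),
      Finset.sum_congr rfl (g := fun _ => (0 : ℚ)) (fun i hi => hχ0 i (Finset.mem_filter.1 hi).2),
      Finset.sum_congr rfl (s₁ := (S.sh none 3).filter (fun τ => ¬ cen τ = none))
        (g := fun _ => (1 : ℚ)) (fun i hi => hχ1 i (Finset.mem_filter.1 hi).2),
      Finset.sum_const_zero, Finset.sum_const, hcf]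
    norm_num
  have r00 : ∀ i ∈ S.sh none 3, ∀ j ∈ S.sh none 3, i ≠ j → cen i = none → cen j = none →
      S.rho none 3 i j = (B : ℚ) / 3 := by
    intro i hi j hj hij ci cj
    have := hrho i hi j hj hij (by rw [ci, hτc]) (by rw [cj, hτc])
    rw [this]
    norm_num
  have r01 : ∀ i ∈ S.sh none 3, ∀ j ∈ S.sh none 3, cen i = none → cen j ≠ none →
      S.rho none 3 i j = -((S.m : ℚ) / 3) := by
    intro i hi j hj ci cj
    rw [rho_mix h3 hi hj ci cj, hq]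
  have r10 : ∀ i ∈ S.sh none 3, ∀ j ∈ S.sh none 3, cen i ≠ none → cen j = none →
      S.rho none 3 i j = -((S.m : ℚ) / 3) := by
    intro i hi j hj ci cj
    rw [rho_symm, r01 j hj i hi cj ci]
  have hBm : -(S.m : ℤ) ≤ B := by
    obtain ⟨τ', hτ2, hne⟩ : ∃ τ' ∈ (S.sh none 3).filter (fun τ => cen τ = none), τ' ≠ τ := by
      by_contra hcon
      push Not at hcon
      have h5 := Finset.card_le_one.2 (fun a ha b hb => (hcon a ha).trans (hcon b hb).symm)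
      rw [hcn] at h5
      norm_num at h5
    obtain ⟨h6, h7⟩ := Finset.mem_filter.1 hτ2
    have h8 := rho_inf h3 h6 hτ h7 hτc
    rw [r00 _ h6 _ hτ hne h7 hτc, hq] at h8
    have h9 : -(S.m : ℚ) ≤ B := by linarith
    exact_mod_cast h9
  have hrho2 : ∀ i ∈ S.sh none 3, ∀ j ∈ S.sh none 3, i ≠ j →
      S.rho none 3 i j = (B : ℚ) / 3 - ((B : ℚ) + S.m) / 3 * (χ i + χ j) := by
    intro i hi j hj hij
    by_cases ci : cen i = none <;> by_cases cj : cen j = none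
    · rw [r00 i hi j hj hij ci cj, hχ0 i ci, hχ0 j cj]
      ring
    · rw [r01 i hi j hj ci cj, hχ0 i ci, hχ1 j cj]
      ring
    · rw [r10 i hi j hj ci cj, hχ1 i ci, hχ0 j cj]
      ring
    · exact (hfin i hi j hj hij ci cj).elim
  refine ⟨B, τ, hτ, hτc, hcB, hBm, ?_, ?_, ?_⟩
  · unfold S2
    rw [Fine4_sum2_congr hrho2, Fine4_sum2_lin _ hcard, hχs]
    ring
  · have h5 := Fine4_sum3_lin (S.sh none 3) (2 * (B : ℚ) / 3 - 2 / 3) (((B : ℚ) + S.m + 1) / 3) χ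
    rw [hcard, hχs] at h5
    have h6 : sum3 (S.sh none 3) (fun i j l => 2 * (B : ℚ) / 3 - 2 / 3 -
        ((B : ℚ) + S.m + 1) / 3 * (χ i + χ j + χ l)) ≤ S.S3 none 3 := by
      refine Fine4_sum3_le fun i hi j hj l hl hij hil hjl => ?_
      obtain ⟨a1, a2, a3⟩ := Fine4_naive h3 hcol hi hj hl hij hil hjl
      by_cases ci : cen i = none <;> by_cases cj : cen j = none <;>
        by_cases cl : cen l = none
      · have hW := Fine4_W hcol hi hj hl hij hil hjl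
        have ha := om_eq h3 hi hj hl hij hil hjl hW
        rw [r00 i hi j hj hij ci cj, r00 i hi l hl hil ci cl] at ha
        have hb := ha rfl
        rw [hχ0 i ci, hχ0 j cj, hχ0 l cl]
        push_cast at hb
        linarith
      · rw [r00 i hi j hj hij ci cj, r01 i hi l hl ci cl] at a1
        rw [hχ0 i ci, hχ0 j cj, hχ1 l cl]
        linarith
      · rw [r01 i hi j hj ci cj, r00 i hi l hl hil ci cl] at a1
        rw [hχ0 i ci, hχ1 j cj, hχ0 l cl]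
        linarith
      · exact (hfin j hj l hl hjl cj cl).elim
      · rw [r10 i hi j hj ci cj, r00 j hj l hl hjl cj cl] at a2
        rw [hχ1 i ci, hχ0 j cj, hχ0 l cl]
        linarith
      · exact (hfin i hi l hl hil ci cl).elim
      · exact (hfin i hi j hj hij ci cj).elim
      · exact (hfin i hi j hj hij ci cj).elim
    push_cast at h5
    linarith
  · intro hB
    have hB' : (B : ℚ) = -(S.m : ℚ) := by rw [hB]; push_cast; rfl
    have h5 := Fine4_sum3_const (S.sh none 3) (-2 * (S.m : ℚ) / 3 - 2 / 3)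
    rw [hcard] at h5
    have h6 : sum3 (S.sh none 3) (fun _ _ _ => -2 * (S.m : ℚ) / 3 - 2 / 3) ≤ S.S3 none 3 := by
      refine Fine4_sum3_le fun i hi j hj l hl hij hil hjl => ?_
      have hW := Fine4_W hcol hi hj hl hij hil hjl
      have ha := om_eq h3 hi hj hl hij hil hjl hW
      rw [hrho2 i hi j hj hij, hrho2 i hi l hl hil, hB'] at ha
      have hb := ha (by ring)
      push_cast at hb
      have e : (-(S.m : ℚ) + S.m) / 3 * (χ i + χ j) = 0 := by ring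
      rw [e] at hb
      linarith
    push_cast at h5
    linarith

theorem data4 (S : Cur) (hn : S.n = 4) (hk : S.k = 1) {v₁ t₁ : ℂ} (he : S.e (some v₁) t₁ = S.n)
    (h2 : ∃ t t' : ℂ, t ≠ t' ∧ S.IsCusp t ∧ S.IsCusp t') :
    ∃ (v₂ t₂ : ℂ) (K : ℕ), t₂ ≠ t₁ ∧ (∀ t, S.IsCusp t ↔ t = t₁ ∨ t = t₂) ∧
      S.e (some v₂) t₂ = 2 ∧ 1 ≤ K ∧ S.m = 3 * K ∧
      (∃ τ ∈ S.sh (some v₁) 4, cen τ = some t₁ ∧ (S.y (some v₁) τ).coeff (4 * K + 2) ≠ 0 ∧
        (S.y (some v₁) τ).coeff (4 * K + 3) ≠ 0 ∧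
        ∀ l : ℤ, l < 4 * K + 2 → ¬ (4 : ℤ) ∣ l → (S.y (some v₁) τ).coeff l = 0) ∧
      (∃ τ ∈ S.sh (some v₂) 2, cen τ = some t₂ ∧ (S.y (some v₂) τ).coeff 3 ≠ 0 ∧
        ∀ l : ℤ, l < 3 → ¬ (2 : ℤ) ∣ l → (S.y (some v₂) τ).coeff l = 0) ∧
      ∃ τ ∈ S.sh none 3, cen τ = none ∧ (S.y none τ).coeff (1 - 3 * K) ≠ 0 := by
  classical
  obtain ⟨v₂, t₂, o, ht, hcusp, he2, hN1, hNi, ho3, -, ⟨τ₂, hτ2, hτ2c, hτ2o, hτ2m⟩, hT2, hT3,
    hcol⟩ := fine S hk he h2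
  have hm := S.hm
  obtain ⟨hc1, hci⟩ := hcol (by omega)
  rw [hn] at hN1 hNi hT2 hT3 hc1 hci
  have hNi' : S.Adm none 3 := hNi
  have hci' : S.col none 3 = 0 := hci
  have hcard : (S.sh (some v₁) 4).card = 4 := by rw [sh_card S _ hN1, hn]
  have hcc : ((S.sh (some v₁) 4).filter (fun τ => cen τ = some t₁)).card = 4 := by
    rw [card_cen S _ hN1 t₁, he, hn]
  obtain ⟨τ, hτ'⟩ : ((S.sh (some v₁) 4).filter (fun τ => cen τ = some t₁)).Nonempty := by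
    rw [← Finset.card_pos, hcc]
    norm_num
  obtain ⟨hτ, hτc⟩ := Finset.mem_filter.1 hτ'
  obtain ⟨B₁, B₂, hB, hb1, hb2, hbm, hS2, hS3, hS3'⟩ := Fine4_v1 hN1 hc1 hτ (by
    rw [hτc]
    exact hcc) hcard
  obtain ⟨B, τi, hτi, hτic, hBc, hBm, hI2, hI3, hI3'⟩ := Fine4_inf hn hk hNi' hci'
  have e3 : (4 - 1 : ℕ) = 3 := rfl
  rw [e3, hS2, hI2] at hT2
  rw [e3] at hT3
  push_cast at hT2 hT3
  -- integer forms
  have hZ2 : 2 * B₁ + B₂ + o + 2 * B - 2 * S.m = 12 := by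
    have : (2 * B₁ + B₂ + o + 2 * B - 2 * S.m : ℚ) = 12 := by linarith
    exact_mod_cast this
  have hZ3 : 6 * (B₁ + B₂) - 24 + (10 * B - 6 * S.m - 22) + (6 * o - 12) ≤ 0 := by
    have : (6 * (B₁ + B₂) - 24 + (10 * B - 6 * S.m - 22) + (6 * o - 12) : ℚ) ≤ 0 := by linarith
    exact_mod_cast this
  have hZ4 : B₁ = B₂ → 12 * B₁ - 18 + (10 * B - 6 * S.m - 22) + (6 * o - 12) ≤ 0 := by
    intro h
    have h5 := hS3' h
    have : (12 * B₁ - 18 + (10 * B - 6 * S.m - 22) + (6 * o - 12) : ℚ) ≤ 0 := by linarith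
    exact_mod_cast this
  have hZ5 : B = -(S.m : ℤ) →
      6 * (B₁ + B₂) - 24 + (-16 * S.m - 16) + (6 * o - 12) ≤ 0 := by
    intro h
    have h5 := hI3' h
    have : (6 * (B₁ + B₂) - 24 + (-16 * S.m - 16) + (6 * o - 12) : ℚ) ≤ 0 := by linarith
    exact_mod_cast this
  have hZ6 : B₁ = B₂ → B = -(S.m : ℤ) →
      12 * B₁ - 18 + (-16 * S.m - 16) + (6 * o - 12) ≤ 0 := by
    intro h h'
    have h5 := hS3' h
    have h6 := hI3' h'
    have : (12 * B₁ - 18 + (-16 * S.m - 16) + (6 * o - 12) : ℚ) ≤ 0 := by linarith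
    exact_mod_cast this
  have hfinal : o = 3 ∧ B = 1 - S.m ∧ 3 * B₁ = 4 * S.m + 6 ∧ B₂ = B₁ + 1 := by
    rcases eq_or_lt_of_le hB with h | h <;> rcases eq_or_lt_of_le hBm with h' | h'
    · have := hZ6 h h'.symm
      omega
    · have := hZ4 h
      omega
    · have := hZ5 h'.symm
      omega
    · omega
  obtain ⟨ho, hBB, hB1, hB2⟩ := hfinal
  obtain ⟨K, hK⟩ : ∃ K : ℕ, S.m = 3 * K := ⟨S.m / 3, by omega⟩
  have hB1K : B₁ = 4 * K + 2 := by omega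
  have hB2K : B₂ = 4 * K + 3 := by omega
  have hBK : B = 1 - 3 * K := by omega
  subst ho
  refine ⟨v₂, t₂, K, ht, hcusp, he2, by omega, hK, ⟨τ, hτ, hτc, ?_, ?_, ?_⟩,
    ⟨τ₂, hτ2, hτ2c, hτ2o, hτ2m⟩, τi, hτi, hτic, ?_⟩
  · rw [← hB1K]
    exact hb1
  · rw [← hB2K]
    exact hb2
  · rw [← hB1K]
    exact hbm
  · rw [← hBK]
    exact hBc

end Cur

end WR
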