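import Pool.Agent.helper51.WR.Emb

/-!
# WR-Gal: Galois theory of the splitting field

`PK` is irreducible over `ℂ(x)` (degree one in `x` with coprime coefficients; e.g. it is irreducible in
`ℂ[x][T]` and primitive; or: as `a - x b`, Gauss lemma), separable (characteristic `0`, or `rt_card`), so the
extension is Galois and the group is transitive on the roots. `y`, `W`, `V` are rational expressions with
complex coefficients, so they commute with the group; products over all pairs or triples of roots are fixed.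
-/

namespace WR

open Polynomial

namespace Cur

variable {S : Cur}

theorem Gal_isGalois (S : Cur) : IsGalois (RatFunc ℂ) S.Lf := by
  have : CharZero (RatFunc ℂ) :=
    charZero_of_injective_algebraMap (algebraMap ℂ (RatFunc ℂ)).injective
  exact { }

theorem Gal_b_ne : S.b ≠ 0 := by
  intro h
  have h1 := S.hb
  rw [h, natDegree_zero] at h1
  have h2 := S.hk
  omega

theorem Gal_coprime : IsCoprime S.a S.b := by
  rw [isCoprime_iff_aeval_ne_zero_of_isAlgClosed ℂ ℂ]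
  intro t
  rcases S.nz t with h | h
  · left
    rwa [coe_aeval_eq_eval]
  · right
    rwa [coe_aeval_eq_eval]

/-- `a - x b` over `ℂ[x]` -/
noncomputable def Gal_Q (S : Cur) : ℂ[X][X] :=
  S.a.map (algebraMap ℂ ℂ[X]) - C X * S.b.map (algebraMap ℂ ℂ[X])

theorem Gal_Q_irr : Irreducible (Gal_Q S) := by
  have : Gal_Q S = Bivariate.swap (C S.a - X * C S.b) := by
    rw [map_sub, map_mul, Bivariate.swap_C, Bivariate.swap_C, Bivariate.swap_Y]
    rfl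
  rw [this, MulEquiv.irreducible_iff]
  have h := irreducible_C_mul_X_add_C (neg_ne_zero.mpr (Gal_b_ne (S := S)))
      ((IsCoprime.neg_right_iff _ _).mpr (Gal_coprime (S := S))).symm.isRelPrime
  have h2 : C S.a - X * C S.b = C (-S.b) * X + C S.a := by
    rw [map_neg, X_mul_C]
    ring
  rw [h2]
  exact h

theorem Gal_Q_map : (Gal_Q S).map (algebraMap ℂ[X] (RatFunc ℂ)) = S.PK := by
  unfold Gal_Q PK
  rw [Polynomial.map_sub, Polynomial.map_mul, Polynomial.map_C, Polynomial.map_map, Polynomial.map_map,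
    ← IsScalarTower.algebraMap_eq, RatFunc.algebraMap_X]

theorem Gal_PK_irr : Irreducible S.PK := by
  rw [← Gal_Q_map, ← IsPrimitive.irreducible_iff_irreducible_map_fraction_map]
  · exact Gal_Q_irr
  · apply Gal_Q_irr.isPrimitive
    intro H
    have h1 : (Gal_Q S).coeff S.n ≠ 0 := by
      intro h0
      have h2 : (Gal_Q S).coeff S.n = C (S.a.coeff S.n) - X * C (S.b.coeff S.n) := by
        simp [Gal_Q, coeff_map]
      have h3 : S.b.coeff S.n = 0 := coeff_eq_zero_of_natDegree_lt (by rw [S.hb]; exact S.hkn)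
      rw [h2, h3, C_0, mul_zero, sub_zero, C_eq_zero, ← S.ha] at h0
      have h4 : S.a = 0 := leadingCoeff_eq_zero.mp h0
      have h5 := S.ha
      rw [h4, natDegree_zero] at h5
      have h6 := S.hkn
      omega
    exact h1 (coeff_eq_zero_of_natDegree_lt (by rw [H]; have := S.hkn; omega))

theorem fixed {z : S.Lf} (h : ∀ σ : S.Lf ≃ₐ[RatFunc ℂ] S.Lf, σ z = z) :
    ∃ r : RatFunc ℂ, algebraMap (RatFunc ℂ) S.Lf r = z := by
  have := Gal_isGalois S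
  exact (IsGalois.mem_range_algebraMap_iff_fixed (F := RatFunc ℂ) z).mpr h

theorem gal_aeval (σ : S.Lf ≃ₐ[RatFunc ℂ] S.Lf) (θ : S.Lf) (p : ℂ[X]) :
    σ (aeval θ p) = aeval (σ θ) p :=
  (aeval_algHom_apply ((σ.restrictScalars ℂ : S.Lf ≃ₐ[ℂ] S.Lf) : S.Lf →ₐ[ℂ] S.Lf) θ p).symm

theorem Gal_aeval_PK {θ : S.Lf} (h : θ ∈ S.rt) : aeval θ S.PK = 0 := by
  rw [mem_rt] at h
  have h1 : aeval θ S.PK = aeval θ (S.a.map (algebraMap ℂ (RatFunc ℂ))) -
      aeval θ (C (RatFunc.X : RatFunc ℂ)) * aeval θ (S.b.map (algebraMap ℂ (RatFunc ℂ))) := by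
    rw [← aeval_mul, ← aeval_sub]
    rfl
  rw [h1, aeval_map_algebraMap, aeval_map_algebraMap, aeval_C, h]
  exact sub_self _

theorem gal_trans {θ θ' : S.Lf} (h : θ ∈ S.rt) (h' : θ' ∈ S.rt) :
    ∃ σ : S.Lf ≃ₐ[RatFunc ℂ] S.Lf, σ θ = θ' := by
  have h1 := minpoly.eq_of_irreducible (Gal_PK_irr (S := S)) (Gal_aeval_PK h)
  have h2 := minpoly.eq_of_irreducible (Gal_PK_irr (S := S)) (Gal_aeval_PK h')
  have h3 : IsConjRoot (RatFunc ℂ) θ' θ := by
    show minpoly (RatFunc ℂ) θ' = minpoly (RatFunc ℂ) θ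
    rw [← h1, ← h2]
  exact isConjRoot_iff_exists_algEquiv.mp h3

theorem gal_rt (σ : S.Lf ≃ₐ[RatFunc ℂ] S.Lf) {θ : S.Lf} (h : θ ∈ S.rt) : σ θ ∈ S.rt := by
  rw [mem_rt] at h ⊢
  rw [← gal_aeval, ← gal_aeval, h, map_mul]
  congr 1
  exact σ.commutes _

theorem gal_y (σ : S.Lf ≃ₐ[RatFunc ℂ] S.Lf) (P : Option ℂ) (θ : S.Lf) :
    σ (S.y P θ) = S.y P (σ θ) := by
  unfold y
  rw [map_div₀, gal_aeval, gal_aeval]

theorem Gal_g (σ : S.Lf ≃ₐ[RatFunc ℂ] S.Lf) (P : Option ℂ) (θ : S.Lf) :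
    σ (S.g P θ) = S.g P (σ θ) := by
  unfold g
  rw [map_div₀, gal_aeval, gal_aeval]

theorem gal_W (σ : S.Lf ≃ₐ[RatFunc ℂ] S.Lf) (P : Option ℂ) (θ₁ θ₂ θ₃ : S.Lf) :
    σ (S.W P θ₁ θ₂ θ₃) = S.W P (σ θ₁) (σ θ₂) (σ θ₃) := by
  unfold W
  simp only [map_sub, map_mul, gal_y, Gal_g]

theorem Gal_V (σ : S.Lf ≃ₐ[RatFunc ℂ] S.Lf) (P : Option ℂ) (θ₁ θ₂ θ₃ : S.Lf) :
    σ (S.V P θ₁ θ₂ θ₃) = S.V P (σ θ₁) (σ θ₂) (σ θ₃) := by
  by_cases h : S.W P θ₁ θ₂ θ₃ = 0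
  · have h' : S.W P (σ θ₁) (σ θ₂) (σ θ₃) = 0 := by rw [← gal_W, h, map_zero]
    unfold V
    rw [if_pos h, if_pos h']
    simp only [map_sub, map_mul, map_pow, gal_y]
  · have h' : S.W P (σ θ₁) (σ θ₂) (σ θ₃) ≠ 0 := by
      rw [← gal_W]
      exact (map_ne_zero σ).mpr h
    unfold V
    rw [if_neg h, if_neg h', map_pow, gal_W]

theorem Gal_mem_prs {A : Type} (R : Finset A) (p : A × A) :
    p ∈ prs R ↔ p.1 ∈ R ∧ p.2 ∈ R ∧ p.1 ≠ p.2 := by
  simp only [prs, Finset.mem_filter, Finset.mem_product, and_assoc]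

theorem Gal_mem_tri {A : Type} (R : Finset A) (p : A × A × A) :
    p ∈ tri R ↔ p.1 ∈ R ∧ p.2.1 ∈ R ∧ p.2.2 ∈ R ∧ p.1 ≠ p.2.1 ∧ p.1 ≠ p.2.2 ∧ p.2.1 ≠ p.2.2 := by
  simp only [tri, Finset.mem_filter, Finset.mem_product, and_assoc]

theorem prod2_fixed : ∃ r : RatFunc ℂ, algebraMap (RatFunc ℂ) S.Lf r =
    ∏ p ∈ prs S.rt, (S.y (some 0) p.1 - S.y (some 0) p.2) := by
  refine fixed fun σ => ?_
  rw [map_prod]
  refine Finset.prod_nbij' (fun p => (σ p.1, σ p.2)) (fun p => (σ.symm p.1, σ.symm p.2)) ?_ ?_ ?_ ?_ ?_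
  · intro p hp
    rw [Gal_mem_prs] at hp ⊢
    exact ⟨gal_rt σ hp.1, gal_rt σ hp.2.1, fun h => hp.2.2 (σ.injective h)⟩
  · intro p hp
    rw [Gal_mem_prs] at hp ⊢
    exact ⟨gal_rt σ.symm hp.1, gal_rt σ.symm hp.2.1, fun h => hp.2.2 (σ.symm.injective h)⟩
  · intro p _
    simp
  · intro p _
    simp
  · intro p _
    rw [map_sub, gal_y, gal_y]

theorem prod3_fixed : ∃ r : RatFunc ℂ, algebraMap (RatFunc ℂ) S.Lf r =
    ∏ p ∈ tri S.rt, S.V (some 0) p.1 p.2.1 p.2.2 := by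
  refine fixed fun σ => ?_
  rw [map_prod]
  refine Finset.prod_nbij' (fun p => (σ p.1, σ p.2.1, σ p.2.2))
    (fun p => (σ.symm p.1, σ.symm p.2.1, σ.symm p.2.2)) ?_ ?_ ?_ ?_ ?_
  · intro p hp
    rw [Gal_mem_tri] at hp ⊢
    exact ⟨gal_rt σ hp.1, gal_rt σ hp.2.1, gal_rt σ hp.2.2.1, fun h => hp.2.2.2.1 (σ.injective h),
      fun h => hp.2.2.2.2.1 (σ.injective h), fun h => hp.2.2.2.2.2 (σ.injective h)⟩
  · intro p hp
    rw [Gal_mem_tri] at hp ⊢
    exact ⟨gal_rt σ.symm hp.1, gal_rt σ.symm hp.2.1, gal_rt σ.symm hp.2.2.1,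
      fun h => hp.2.2.2.1 (σ.symm.injective h),
      fun h => hp.2.2.2.2.1 (σ.symm.injective h), fun h => hp.2.2.2.2.2 (σ.symm.injective h)⟩
  · intro p _
    simp
  · intro p _
    simp
  · intro p _
    exact Gal_V σ (some 0) p.1 p.2.1 p.2.2

end Cur

end WR
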