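import Pool.Agent.helper51.WR.Defs

/-!
# WR-LDefs: the splitting field of `a - x b` over `ℂ(x)`
-/

namespace WR

open Polynomial

namespace Cur

variable (S : Cur)

/-- `a - x b` over `ℂ(x)` -/
noncomputable def PK : (RatFunc ℂ)[X] :=
  S.a.map (algebraMap ℂ (RatFunc ℂ)) - C RatFunc.X * S.b.map (algebraMap ℂ (RatFunc ℂ))

/-- its splitting field -/
abbrev Lf : Type := S.PK.SplittingField

/-- the element `x` -/
noncomputable def xL : S.Lf := algebraMap (RatFunc ℂ) S.Lf RatFunc.X

open Classical in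
/-- the roots -/
noncomputable def rt : Finset S.Lf :=
  (S.PK.map (algebraMap (RatFunc ℂ) S.Lf)).roots.toFinset

/-- the value of `x` at the place `P` -/
noncomputable def xv (P : Option ℂ) (N : ℕ) : M :=
  match P with
  | some v => algebraMap ℂ M v + sp N
  | none => sp (-(N : ℤ))

open Classical in
/-- `W^3`, or the square of the product of the differences for collinear triples -/
noncomputable def V (P : Option ℂ) {F : Type} [Field F] [Algebra ℂ F] (τ₁ τ₂ τ₃ : F) : F :=
  if S.W P τ₁ τ₂ τ₃ = 0 then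
    ((S.y P τ₁ - S.y P τ₂) * (S.y P τ₁ - S.y P τ₃) * (S.y P τ₂ - S.y P τ₃)) ^ 2
  else S.W P τ₁ τ₂ τ₃ ^ 3

end Cur

end WR
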