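import Pool.Agent.helper51.WR.Ge
import Pool.Agent.helper51.WR.LDefs

/-!
# WR-Prod: the product formula for `ℂ(x)`

For a polynomial `p ≠ 0`: `p(v + s^N)` has order `N * rootMultiplicity v p`, `p(s^(-N))` has order
`- N * deg p` (`ord_aeval`, `ord_aeval_inf`). Write `r = p / q`; the sum of the root multiplicities over a
finite set containing all roots of `p q` is the degree.
-/

namespace WR

open Polynomial

/-- order of a polynomial at a finite place -/
theorem Prod_fin (v : ℂ) {N : ℕ} (hN : 0 < N) {p : ℂ[X]} (hp : p ≠ 0) :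
    aeval (Cur.xv (some v) N) p ≠ 0 ∧
      (aeval (Cur.xv (some v) N) p).order = rootMultiplicity v p * (N : ℤ) := by
  have hx : Cur.xv (some v) N = algebraMap ℂ M v + sp N := rfl
  have hNz : (0 : ℤ) < N := by exact_mod_cast hN
  have h1 : Ge (sp N) 0 := by
    rw [ge_iff (sp_ne N), ord_sp]
    exact hNz.le
  have h2 : Ge (Cur.xv (some v) N) 0 := by
    rw [hx]
    exact ge_add (ge_algebraMap v) h1
  have h3 : (Cur.xv (some v) N).coeff 0 = v := by
    rw [hx, HahnSeries.coeff_add, coeff_algebraMap, if_pos rfl, sp, HahnSeries.coeff_single,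
      if_neg hNz.ne, add_zero]
  have h4 : Cur.xv (some v) N - algebraMap ℂ M ((Cur.xv (some v) N).coeff 0) = sp N := by
    rw [h3, hx, add_sub_cancel_left]
  have h5 := ord_aeval h2 (by rw [h4]; exact sp_ne _) hp
  rw [h4, ord_sp, h3] at h5
  exact h5

/-- order of a polynomial at infinity -/
theorem Prod_inf {N : ℕ} (hN : 0 < N) {p : ℂ[X]} (hp : p ≠ 0) :
    aeval (Cur.xv none N) p ≠ 0 ∧
      (aeval (Cur.xv none N) p).order = p.natDegree * (-(N : ℤ)) := by
  have hx : Cur.xv none N = sp (-(N : ℤ)) := rfl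
  have hNz : (0 : ℤ) < N := by exact_mod_cast hN
  have h1 : ¬ Ge (Cur.xv none N) 0 := by
    rw [hx, ge_iff (sp_ne _), ord_sp]
    omega
  have h5 := ord_aeval_inf h1 hp
  rw [hx, ord_sp] at h5
  rw [hx]
  exact h5

/-- the sum of the root multiplicities -/
theorem Prod_sum (p : ℂ[X]) (V : Finset ℂ) (hV : ∀ v ∈ p.roots, v ∈ V) :
    ∑ v ∈ V, rootMultiplicity v p = p.natDegree := by
  classical
  have h1 := Multiset.sum_count_eq_card (s := V) (m := p.roots) hV
  have h2 : p.roots.card = p.natDegree :=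
    (Polynomial.splits_iff_card_roots.1 (IsAlgClosed.splits p))
  rw [← h2, ← h1]
  exact Finset.sum_congr rfl fun v _ => (count_roots p).symm

/-- an embedding on a quotient of polynomials -/
theorem Prod_map {x : M} (j : RatFunc ℂ →ₐ[ℂ] M) (hj : j RatFunc.X = x) (r : RatFunc ℂ) :
    j r = aeval x r.num / aeval x r.denom := by
  have h1 : ∀ p : ℂ[X], j (algebraMap ℂ[X] (RatFunc ℂ) p) = aeval x p := by
    intro p
    rw [← hj, Polynomial.aeval_algHom_apply]
    congr 1
    rw [← RatFunc.algebraMap_X, Polynomial.aeval_algebraMap_apply, Polynomial.aeval_X_left_apply]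
  conv_lhs => rw [← RatFunc.num_div_denom r]
  rw [map_div₀, h1, h1]

theorem prodf (N : Option ℂ → ℕ) (hN : ∀ P, 0 < N P) (j : Option ℂ → (RatFunc ℂ →ₐ[ℂ] M))
    (hj : ∀ P, j P RatFunc.X = Cur.xv P (N P)) (r : RatFunc ℂ) (hr : r ≠ 0) :
    ∃ V₀ : Finset ℂ, ∀ V : Finset ℂ, V₀ ⊆ V →
      ∑ v ∈ V, ((j (some v) r).order : ℚ) / N (some v) + ((j none r).order : ℚ) / N none = 0 := by
  classical
  have hp : r.num ≠ 0 := RatFunc.num_ne_zero hr
  have hq : r.denom ≠ 0 := r.denom_ne_zero
  refine ⟨r.num.roots.toFinset ∪ r.denom.roots.toFinset, fun V hV => ?_⟩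
  have hV1 : ∀ v ∈ r.num.roots, v ∈ V := fun v hv =>
    hV (Finset.mem_union_left _ (Multiset.mem_toFinset.2 hv))
  have hV2 : ∀ v ∈ r.denom.roots, v ∈ V := fun v hv =>
    hV (Finset.mem_union_right _ (Multiset.mem_toFinset.2 hv))
  have hfin : ∀ v : ℂ, ((j (some v) r).order : ℚ) / N (some v) =
      (rootMultiplicity v r.num : ℚ) - (rootMultiplicity v r.denom : ℚ) := by
    intro v
    obtain ⟨h1, h2⟩ := Prod_fin v (hN (some v)) hp
    obtain ⟨h3, h4⟩ := Prod_fin v (hN (some v)) hq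
    have h5 : ((N (some v) : ℕ) : ℚ) ≠ 0 := by exact_mod_cast (hN (some v)).ne'
    rw [Prod_map (j (some v)) (hj (some v)) r, ord_div h1 h3, h2, h4]
    push_cast
    field_simp
  have hinf : ((j none r).order : ℚ) / N none =
      (r.denom.natDegree : ℚ) - (r.num.natDegree : ℚ) := by
    obtain ⟨h1, h2⟩ := Prod_inf (hN none) hp
    obtain ⟨h3, h4⟩ := Prod_inf (hN none) hq
    have h5 : ((N none : ℕ) : ℚ) ≠ 0 := by exact_mod_cast (hN none).ne'
    rw [Prod_map (j none) (hj none) r, ord_div h1 h3, h2, h4]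
    push_cast
    field_simp
    ring
  rw [hinf, Finset.sum_congr rfl fun v _ => hfin v, Finset.sum_sub_distrib]
  have h1 := Prod_sum r.num V hV1
  have h2 := Prod_sum r.denom V hV2
  rw [← Nat.cast_sum, ← Nat.cast_sum, h1, h2]
  ring

end WR
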