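import Pool.Agent.helper51.WR.GlobA
import Pool.Agent.helper51.WR.Gal
import Pool.Agent.helper51.WR.Prod

/-!
# WR-Glob: (T2) and (T3)

Choose `ι P` by `emb`; `j P = ι P ∘ algebraMap`. `prod2_fixed`, `prod3_fixed`, `prodf`, `ord_prod2`,
`ord_prod3`, `col_eq`.
-/

namespace WR

open Polynomial

namespace Cur

theorem glob (S : Cur) (N : Option ℂ → ℕ) (hN : ∀ P, S.Adm P (N P)) :
    ∃ c₃ : ℕ, (∀ P, S.col P (N P) = c₃) ∧ ∃ V₀ : Finset ℂ, ∀ V : Finset ℂ, V₀ ⊆ V →
      ∑ v ∈ V, S.S2 (some v) (N (some v)) + S.S2 none (N none) = (S.n : ℚ) * (S.n - 1) ∧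
      ∑ v ∈ V, S.S3 (some v) (N (some v)) + S.S3 none (N none) = 2 * (c₃ : ℚ) := by
  classical
  choose ι hι1 hι2 using fun P => S.emb P (hN P)
  have hcol : ∀ P, S.col P (N P) =
      ((tri S.rt).filter (fun p => S.W (some 0) p.1 p.2.1 p.2.2 = 0)).card :=
    fun P => col_eq (hN P) (ι P) (hι2 P)
  have hj : ∀ P, ((ι P).comp (IsScalarTower.toAlgHom ℂ (RatFunc ℂ) S.Lf)) RatFunc.X =
      Cur.xv P (N P) := fun P => hι1 P
  have hpos : ∀ P, 0 < N P := fun P => (hN P).1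
  obtain ⟨r2, h2⟩ := prod2_fixed (S := S)
  obtain ⟨r3, h3⟩ := prod3_fixed (S := S)
  have e2 : ∀ P, ((ι P).comp (IsScalarTower.toAlgHom ℂ (RatFunc ℂ) S.Lf)) r2 =
      ι P (∏ p ∈ prs S.rt, (S.y (some 0) p.1 - S.y (some 0) p.2)) := by
    intro P
    rw [← h2]
    rfl
  have e3 : ∀ P, ((ι P).comp (IsScalarTower.toAlgHom ℂ (RatFunc ℂ) S.Lf)) r3 =
      ι P (∏ p ∈ tri S.rt, S.V (some 0) p.1 p.2.1 p.2.2) := by
    intro P
    rw [← h3]
    rfl
  have n2 : r2 ≠ 0 := by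
    rintro rfl
    have h := (ord_prod2 (hN none) (ι none) (hι2 none)).1
    rw [← e2, map_zero] at h
    exact h rfl
  have n3 : r3 ≠ 0 := by
    rintro rfl
    have h := (ord_prod3 (hN none) (ι none) (hι2 none)).1
    rw [← e3, map_zero] at h
    exact h rfl
  obtain ⟨V2, hV2⟩ := prodf N hpos _ hj r2 n2
  obtain ⟨V3, hV3⟩ := prodf N hpos _ hj r3 n3
  refine ⟨_, hcol, V2 ∪ V3, fun V hV => ?_⟩
  have s2 := hV2 V (Finset.union_subset_left hV)
  have s3 := hV3 V (Finset.union_subset_right hV)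
  constructor
  · have f1 : ∀ v : ℂ, ((((ι (some v)).comp (IsScalarTower.toAlgHom ℂ (RatFunc ℂ) S.Lf)) r2).order : ℚ) /
        N (some v) = S.S2 (some v) (N (some v)) := by
      intro v
      rw [e2, (ord_prod2 (hN (some v)) (ι (some v)) (hι2 (some v))).2]
      simp
    have f2 : ((((ι none).comp (IsScalarTower.toAlgHom ℂ (RatFunc ℂ) S.Lf)) r2).order : ℚ) /
        N none = S.S2 none (N none) - (S.n : ℚ) * (S.n - 1) := by
      rw [e2, (ord_prod2 (hN none) (ι none) (hι2 none)).2]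
      simp
    rw [Finset.sum_congr rfl (fun v _ => f1 v), f2] at s2
    linarith
  · have f1 : ∀ v : ℂ, ((((ι (some v)).comp (IsScalarTower.toAlgHom ℂ (RatFunc ℂ) S.Lf)) r3).order : ℚ) /
        N (some v) = 3 * S.S3 (some v) (N (some v)) := by
      intro v
      rw [e3, (ord_prod3 (hN (some v)) (ι (some v)) (hι2 (some v))).2]
      simp
    have f2 : ((((ι none).comp (IsScalarTower.toAlgHom ℂ (RatFunc ℂ) S.Lf)) r3).order : ℚ) /
        N none = 3 * S.S3 none (N none) - 6 * (S.col none (N none) : ℚ) := by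
      rw [e3, (ord_prod3 (hN none) (ι none) (hι2 none)).2]
      simp
    rw [Finset.sum_congr rfl (fun v _ => f1 v), f2, ← Finset.mul_sum, hcol none] at s3
    linarith

end Cur

end WR
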