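import Pool.Agent.helper51.WR.PlI
import Pool.Agent.helper51.WR.Glob

/-!
# WR-Gen: the general inequality

`N P = n!` (`adm_factorial`), `glob`, `V` = the set of `glob` (and `v₁`). With `c₃` collinear triples and
`N' = n(n-1)(n-2) - c₃ ≥ 0` (`card_tri`):
If `e < n` everywhere: the sum of `F1a` over `V` and `I1a`, `ram_le`:
`2 c₃ ≥ (2n-3) n(n-1) - N' - 3(n-1)(n-2)(n+k-1) + m(k^2+n-1)`, so
`m (k^2+n-1) ≤ 3(n-1)(n-2)(n+k-1)`, and `n+k-1 ≤ k^2+n-1`.
If `e (some v₁) t₁ = n`: `F2` at `v₁`, `F1b` at the others, `I1b`, `ram_le_tot`: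
`2 c₃ ≥ 2(n-2)n(n-1) - 2 N' - 3(n-1)(n-2) k + m k(k-1)`, `2(n-2)n(n-1) = 2 N' + 2 c₃`, so
`m k (k-1) ≤ 3(n-1)(n-2) k`.
-/

namespace WR

open Polynomial

namespace Cur

theorem Gen_e_le (S : Cur) (v t : ℂ) : S.e (some v) t ≤ S.n := by
  classical
  have h1 := S.card_cen (some v) (S.adm_factorial (some v)) t
  have h2 := S.sh_card (some v) (S.adm_factorial (some v))
  rw [← h1]
  refine le_trans ?_ h2.le
  apply Finset.card_filter_le

theorem Gen_col_le (S : Cur) {P : Option ℂ} {N : ℕ} (hN : S.Adm P N) :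
    (S.col P N : ℚ) ≤ (S.n : ℚ) * (S.n - 1) * (S.n - 2) := by
  classical
  have h1 := card_tri (S.sh P N)
  rw [S.sh_card P hN] at h1
  rw [← h1]
  unfold Cur.col
  exact_mod_cast Finset.card_filter_le _ _

theorem Gen_cast (S : Cur) {x : ℕ} (h : (x : ℚ) ≤ 3 * ((S.n : ℚ) - 1) * ((S.n : ℚ) - 2)) :
    x ≤ 3 * (S.n - 1) * (S.n - 2) := by
  have h2 : 2 ≤ S.n := by
    have := S.hk
    have := S.hkn
    omega
  obtain ⟨r, hr⟩ := Nat.exists_eq_add_of_le h2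
  have e1 : S.n - 1 = r + 1 := by omega
  have e2 : S.n - 2 = r := by omega
  rw [e1, e2]
  have h3 : (x : ℚ) ≤ ((3 * (r + 1) * r : ℕ) : ℚ) := by
    rw [hr] at h
    push_cast at h ⊢
    linarith
  exact_mod_cast h3

/-- no totally ramified place -/
theorem Gen_A (S : Cur) (h : ∀ v t : ℂ, S.e (some v) t < S.n) : S.m ≤ 3 * (S.n - 1) * (S.n - 2) := by
  apply Gen_cast
  have hN : ∀ P, S.Adm P (Nat.factorial S.n) := fun P => S.adm_factorial P
  obtain ⟨c₃, hc, V, hV⟩ := S.glob (fun _ => Nat.factorial S.n) hN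
  obtain ⟨g2, g3⟩ := hV V (Finset.Subset.refl _)
  have hk := S.hk
  have hkn := S.hkn
  have hI := I1a (hN none)
  have hcl := Gen_col_le S (hN none)
  rw [hc none] at hI hcl
  have hF := Finset.sum_le_sum (s := V) fun v _ => F1a (hN (some v)) (h v)
  rw [Finset.sum_sub_distrib, ← Finset.mul_sum, ← Finset.mul_sum] at hF
  have hR := S.ram_le V
  have hR' : ∑ v ∈ V, (S.Ram (some v) : ℚ) + S.Ram none ≤ S.n + S.k - 1 := by
    have : ((∑ v ∈ V, S.Ram (some v) + S.Ram none : ℕ) : ℚ) ≤ ((S.n + S.k - 1 : ℕ) : ℚ) := by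
      exact_mod_cast hR
    rw [Nat.cast_sub (by omega)] at this
    push_cast at this
    exact this
  have k1 : (1 : ℚ) ≤ S.k := by exact_mod_cast hk
  have n2 : (2 : ℚ) ≤ S.n := by
    have : 2 ≤ S.n := by omega
    exact_mod_cast this
  have m0 : (0 : ℚ) ≤ S.m := Nat.cast_nonneg _
  set n : ℚ := (S.n : ℚ) with hn
  set k : ℚ := (S.k : ℚ) with hkk
  set m : ℚ := (S.m : ℚ) with hmm
  set A2 : ℚ := ∑ v ∈ V, S.S2 (some v) (Nat.factorial S.n)
  set B2 : ℚ := S.S2 none (Nat.factorial S.n)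
  set A3 : ℚ := ∑ v ∈ V, S.S3 (some v) (Nat.factorial S.n)
  set B3 : ℚ := S.S3 none (Nat.factorial S.n)
  set AR : ℚ := ∑ v ∈ V, (S.Ram (some v) : ℚ)
  set BR : ℚ := (S.Ram none : ℚ)
  have hD : 0 ≤ 3 * (n - 1) * (n - 2) := by nlinarith
  have e1 : (2 * (n - 2) + 1) * A2 + (2 * (n - 2) + 1) * B2 = (2 * (n - 2) + 1) * (n * (n - 1)) := by
    rw [← mul_add, g2]
  have e2 : 3 * (n - 1) * (n - 2) * AR + 3 * (n - 1) * (n - 2) * BR ≤
      3 * (n - 1) * (n - 2) * (n + k - 1) := by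
    rw [← mul_add]
    exact mul_le_mul_of_nonneg_left hR' hD
  have e3 : 3 * (n - 1) * (n - 2) * (n + k - 1) ≤ 3 * (n - 1) * (n - 2) * (k ^ 2 + n - 1) :=
    mul_le_mul_of_nonneg_left (by nlinarith) hD
  have e4 : m * (k ^ 2 + n - 1) ≤ 3 * (n - 1) * (n - 2) * (k ^ 2 + n - 1) := by
    nlinarith
  have hpos : 0 < k ^ 2 + n - 1 := by nlinarith
  exact le_of_mul_le_mul_right e4 hpos

/-- a totally ramified place, `2 ≤ k` -/
theorem Gen_B (S : Cur) {v₁ t₁ : ℂ} (he : S.e (some v₁) t₁ = S.n) (hk2 : 2 ≤ S.k) :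
    S.m ≤ 3 * (S.n - 1) * (S.n - 2) := by
  classical
  apply Gen_cast
  have hN : ∀ P, S.Adm P (Nat.factorial S.n) := fun P => S.adm_factorial P
  obtain ⟨c₃, hc, V₀, hV⟩ := S.glob (fun _ => Nat.factorial S.n) hN
  obtain ⟨g2, g3⟩ := hV (insert v₁ (V₀.erase v₁)) (by
    intro x hx
    by_cases hxv : x = v₁
    · rw [hxv]
      exact Finset.mem_insert_self _ _
    · exact Finset.mem_insert_of_mem (Finset.mem_erase.2 ⟨hxv, hx⟩))
  rw [Finset.sum_insert (Finset.notMem_erase _ _)] at g2 g3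
  have hkn := S.hkn
  have hI := I1b (hN none)
  rw [hc none] at hI
  have hF2 := F2 (hN (some v₁))
  rw [hc (some v₁)] at hF2
  have hF := Finset.sum_le_sum (s := V₀.erase v₁) fun v _ => F1b (hN (some v))
  rw [Finset.sum_sub_distrib, ← Finset.mul_sum, ← Finset.mul_sum] at hF
  have hR := S.ram_le_tot he (V₀.erase v₁) (Finset.notMem_erase _ _)
  have hR' : ∑ v ∈ V₀.erase v₁, (S.Ram (some v) : ℚ) + S.Ram none ≤ S.k := by
    exact_mod_cast hR
  have k1 : (2 : ℚ) ≤ S.k := by exact_mod_cast hk2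
  have n2 : (2 : ℚ) ≤ S.n := by
    have : 2 ≤ S.n := by omega
    exact_mod_cast this
  have m0 : (0 : ℚ) ≤ S.m := Nat.cast_nonneg _
  set n : ℚ := (S.n : ℚ) with hn
  set k : ℚ := (S.k : ℚ) with hkk
  set m : ℚ := (S.m : ℚ) with hmm
  set A2 : ℚ := ∑ v ∈ V₀.erase v₁, S.S2 (some v) (Nat.factorial S.n)
  set B2 : ℚ := S.S2 none (Nat.factorial S.n)
  set C2 : ℚ := S.S2 (some v₁) (Nat.factorial S.n)
  set A3 : ℚ := ∑ v ∈ V₀.erase v₁, S.S3 (some v) (Nat.factorial S.n)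
  set B3 : ℚ := S.S3 none (Nat.factorial S.n)
  set C3 : ℚ := S.S3 (some v₁) (Nat.factorial S.n)
  set AR : ℚ := ∑ v ∈ V₀.erase v₁, (S.Ram (some v) : ℚ)
  set BR : ℚ := (S.Ram none : ℚ)
  have hD : 0 ≤ 3 * (n - 1) * (n - 2) := by nlinarith
  have e1 : 2 * (n - 2) * C2 + 2 * (n - 2) * A2 + 2 * (n - 2) * B2 = 2 * (n - 2) * (n * (n - 1)) := by
    rw [← mul_add, ← mul_add, g2]
  have e2 : 3 * (n - 1) * (n - 2) * AR + 3 * (n - 1) * (n - 2) * BR ≤
      3 * (n - 1) * (n - 2) * k := by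
    rw [← mul_add]
    exact mul_le_mul_of_nonneg_left hR' hD
  have e4 : m * (k - 1) * k ≤ 3 * (n - 1) * (n - 2) * k := by
    nlinarith
  have hpos : 0 < k := by linarith
  have e5 := le_of_mul_le_mul_right e4 hpos
  have e6 : m * 1 ≤ m * (k - 1) := mul_le_mul_of_nonneg_left (by linarith) m0
  linarith

theorem gen (S : Cur) : S.m ≤ 3 * (S.n - 1) * (S.n - 2) ∨
    (S.k = 1 ∧ ∃ v t : ℂ, S.e (some v) t = S.n) := by
  by_cases h : ∃ v t : ℂ, S.e (some v) t = S.n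
  · obtain ⟨v, t, hvt⟩ := h
    by_cases hk : S.k = 1
    · exact Or.inr ⟨hk, v, t, hvt⟩
    · left
      have := S.hk
      exact Gen_B S hvt (by omega)
  · left
    apply Gen_A
    intro v t
    refine lt_of_le_of_ne (Gen_e_le S v t) fun he => h ⟨v, t, he⟩

end Cur

end WR
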