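import Pool.Agent.helper51.WR.Defs

/-!
# WR-Ge: orders of Laurent series
-/

namespace WR

open Polynomial

theorem ge_iff {f : M} (hf : f ≠ 0) {r : ℤ} : Ge f r ↔ r ≤ f.order := by
  constructor
  · intro h
    by_contra hlt
    push Not at hlt
    exact HahnSeries.coeff_order_eq_zero.not.2 hf (h _ hlt)
  · intro h n hn
    exact HahnSeries.coeff_eq_zero_of_lt_order (lt_of_lt_of_le hn h)

theorem ge_zero (r : ℤ) : Ge 0 r := fun _ _ => rfl

theorem ge_mono {f : M} {r r' : ℤ} (h : Ge f r) (h' : r' ≤ r) : Ge f r' :=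
  fun n hn => h n (lt_of_lt_of_le hn h')

theorem ge_add {f g : M} {r : ℤ} (hf : Ge f r) (hg : Ge g r) : Ge (f + g) r := fun n hn => by
  rw [HahnSeries.coeff_add, hf n hn, hg n hn, add_zero]

theorem ge_neg {f : M} {r : ℤ} (hf : Ge f r) : Ge (-f) r := fun n hn => by
  rw [HahnSeries.coeff_neg, hf n hn, neg_zero]

theorem ge_sub {f g : M} {r : ℤ} (hf : Ge f r) (hg : Ge g r) : Ge (f - g) r := fun n hn => by
  rw [HahnSeries.coeff_sub, hf n hn, hg n hn, sub_zero]

theorem coeff_order_ne {f : M} (hf : f ≠ 0) : f.coeff f.order ≠ 0 :=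
  HahnSeries.coeff_order_eq_zero.not.2 hf

theorem ord_mul {f g : M} (hf : f ≠ 0) (hg : g ≠ 0) : (f * g).order = f.order + g.order :=
  HahnSeries.order_mul hf hg

theorem ge_mul {f g : M} {r r' : ℤ} (hf : Ge f r) (hg : Ge g r') : Ge (f * g) (r + r') := by
  by_cases h1 : f = 0
  · rw [h1, zero_mul]; exact ge_zero _
  by_cases h2 : g = 0
  · rw [h2, mul_zero]; exact ge_zero _
  rw [ge_iff (mul_ne_zero h1 h2), ord_mul h1 h2]
  exact add_le_add ((ge_iff h1).1 hf) ((ge_iff h2).1 hg)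

theorem coeff_algebraMap (c : ℂ) (l : ℤ) : (algebraMap ℂ M c).coeff l = if l = 0 then c else 0 := by
  have h : (algebraMap ℂ M c) = HahnSeries.single 0 c := LaurentSeries.algebraMap_apply ℂ c
  rw [h, HahnSeries.coeff_single]
  split_ifs <;> rfl

theorem ge_algebraMap (c : ℂ) : Ge (algebraMap ℂ M c) 0 := fun n hn => by
  rw [coeff_algebraMap, if_neg hn.ne]

theorem ord_div {f g : M} (hf : f ≠ 0) (hg : g ≠ 0) : (f / g).order = f.order - g.order := by
  have h := ord_mul (div_ne_zero hf hg) hg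
  rw [div_mul_cancel₀ _ hg] at h
  linarith

theorem ord_pow (f : M) (n : ℕ) : (f ^ n).order = n * f.order := by
  rw [HahnSeries.order_pow, nsmul_eq_mul]

/-- leading coefficients multiply -/
theorem coeff_mul_ord {f g : M} {r r' : ℤ} (hf : Ge f r) (hg : Ge g r') :
    (f * g).coeff (r + r') = f.coeff r * g.coeff r' := by
  by_cases h1 : f = 0
  · rw [h1, zero_mul, HahnSeries.coeff_zero, HahnSeries.coeff_zero, zero_mul]
  by_cases h2 : g = 0
  · rw [h2, mul_zero, HahnSeries.coeff_zero, HahnSeries.coeff_zero, mul_zero]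
  have h3 := (ge_iff h1).1 hf
  have h4 := (ge_iff h2).1 hg
  rcases eq_or_lt_of_le h3 with h5 | h5
  · rcases eq_or_lt_of_le h4 with h6 | h6
    · rw [h5, h6, HahnSeries.coeff_mul_order_add_order, HahnSeries.leadingCoeff_eq,
        HahnSeries.leadingCoeff_eq]
    · rw [HahnSeries.coeff_eq_zero_of_lt_order (x := g) h6, mul_zero]
      apply HahnSeries.coeff_eq_zero_of_lt_order
      rw [ord_mul h1 h2]
      linarith
  · rw [HahnSeries.coeff_eq_zero_of_lt_order (x := f) h5, zero_mul]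
    apply HahnSeries.coeff_eq_zero_of_lt_order
    rw [ord_mul h1 h2]
    linarith

theorem ge_div {f g : M} {r : ℤ} (hf : Ge f r) (hg : g ≠ 0) : Ge (f / g) (r - g.order) := by
  by_cases h1 : f = 0
  · rw [h1, zero_div]; exact ge_zero _
  rw [ge_iff (div_ne_zero h1 hg), ord_div h1 hg]
  have := (ge_iff h1).1 hf
  linarith

theorem sp_ne (N : ℤ) : sp N ≠ 0 := HahnSeries.single_ne_zero one_ne_zero

theorem ord_sp (N : ℤ) : (sp N).order = N := HahnSeries.order_single one_ne_zero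

theorem sp_add (N N' : ℤ) : sp (N + N') = sp N * sp N' := by
  rw [sp, sp, sp, HahnSeries.single_mul_single, one_mul]

theorem sp_zero : sp 0 = 1 := rfl

theorem sp_pow (N : ℤ) (n : ℕ) : sp N ^ n = sp (n * N) := by
  induction n with
  | zero => rw [pow_zero, Nat.cast_zero, zero_mul, sp_zero]
  | succ n ih => rw [pow_succ, ih, ← sp_add, Nat.cast_succ, add_mul, one_mul]

theorem coeff_sp_mul (N : ℤ) (f : M) (l : ℤ) : (sp N * f).coeff l = f.coeff (l - N) := by
  have h := HahnSeries.coeff_single_mul_add (r := (1 : ℂ)) (x := f) (a := l - N) (b := N)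
  rw [sub_add_cancel, one_mul] at h
  exact h

/-- if `Ge f r` and the coefficient at `r` is not zero, then `r` is the order -/
theorem ord_eq {f : M} {r : ℤ} (h : Ge f r) (h0 : f.coeff r ≠ 0) : f ≠ 0 ∧ f.order = r := by
  have hf : f ≠ 0 := by
    rintro rfl
    exact h0 rfl
  refine ⟨hf, le_antisymm ?_ ((ge_iff hf).1 h)⟩
  exact HahnSeries.order_le_of_coeff_ne_zero h0

/-- the difference with a series of larger order -/
theorem ord_sub_of_lt {f g : M} (hf : f ≠ 0) (h : Ge g (f.order + 1)) :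
    f - g ≠ 0 ∧ (f - g).order = f.order := by
  refine ord_eq (ge_sub ((ge_iff hf).2 le_rfl) (ge_mono h (by linarith))) ?_
  rw [HahnSeries.coeff_sub, h f.order (by linarith), sub_zero]
  exact coeff_order_ne hf

/-- values at `s = 0` of polynomials -/
theorem ge_aeval {τ : M} (h : Ge τ 0) (p : ℂ[X]) :
    Ge (aeval τ p) 0 ∧ (aeval τ p).coeff 0 = p.eval (τ.coeff 0) := by
  induction p using Polynomial.induction_on with
  | C a =>
    rw [aeval_C, eval_C]
    exact ⟨ge_algebraMap a, by rw [coeff_algebraMap, if_pos rfl]⟩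
  | add p q hp hq =>
    rw [map_add, eval_add, HahnSeries.coeff_add]
    exact ⟨ge_add hp.1 hq.1, by rw [hp.2, hq.2]⟩
  | monomial n a hn =>
    obtain ⟨h1, h2⟩ := hn
    have e : aeval τ (C a * X ^ (n + 1)) = aeval τ (C a * X ^ n) * τ := by
      rw [pow_succ, ← mul_assoc, map_mul, aeval_X]
    have e1 := ge_mul h1 h
    have e2 := coeff_mul_ord h1 h
    rw [add_zero] at e1 e2
    rw [e]
    refine ⟨e1, ?_⟩
    have e3 : (C a * X ^ (n + 1) : ℂ[X]) = C a * X ^ n * X := by rw [pow_succ, mul_assoc]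
    rw [e2, h2, e3, eval_mul_X]

/-- the order of a polynomial at a series with finite centre. Factor `p = (X - t)^e q`, `q(t) ≠ 0`. -/
theorem ord_aeval {τ : M} (h : Ge τ 0) (hne : τ - algebraMap ℂ M (τ.coeff 0) ≠ 0) {p : ℂ[X]}
    (hp : p ≠ 0) : aeval τ p ≠ 0 ∧ (aeval τ p).order =
      rootMultiplicity (τ.coeff 0) p * (τ - algebraMap ℂ M (τ.coeff 0)).order := by
  obtain ⟨q, hq, hdvd⟩ := exists_eq_pow_rootMultiplicity_mul_and_not_dvd p hp (τ.coeff 0)
  have h1 : q.eval (τ.coeff 0) ≠ 0 := fun h0 => hdvd (dvd_iff_isRoot.2 h0)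
  obtain ⟨h2, h3⟩ := ge_aeval h q
  obtain ⟨h4, h5⟩ := ord_eq h2 (by rw [h3]; exact h1)
  have h6 : aeval τ p = (τ - algebraMap ℂ M (τ.coeff 0)) ^ rootMultiplicity (τ.coeff 0) p *
      aeval τ q := by
    conv_lhs => rw [hq]
    rw [map_mul, map_pow, map_sub, aeval_X, aeval_C]
  rw [h6]
  refine ⟨mul_ne_zero (pow_ne_zero _ hne) h4, ?_⟩
  rw [ord_mul (pow_ne_zero _ hne) h4, ord_pow, h5, add_zero]

/-- the order of a polynomial at a series with a pole -/
theorem ord_aeval_inf {τ : M} (h : ¬ Ge τ 0) {p : ℂ[X]} (hp : p ≠ 0) :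
    aeval τ p ≠ 0 ∧ (aeval τ p).order = p.natDegree * τ.order := by
  have hτ : τ ≠ 0 := by
    rintro rfl
    exact h (ge_zero 0)
  have hord : τ.order < 0 := by
    by_contra h1
    push Not at h1
    exact h ((ge_iff hτ).2 h1)
  have hi : (τ⁻¹).order = -τ.order := by
    have h1 := ord_mul (inv_ne_zero hτ) hτ
    rw [inv_mul_cancel₀ hτ, HahnSeries.order_one] at h1
    linarith
  have hge : Ge τ⁻¹ 1 := (ge_iff (inv_ne_zero hτ)).2 (by rw [hi]; linarith)
  have h0 : (τ⁻¹).coeff 0 = 0 := hge 0 one_pos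
  obtain ⟨h2, h3⟩ := ge_aeval (ge_mono hge (by norm_num)) p.reverse
  rw [h0, ← coeff_zero_eq_eval_zero, coeff_zero_reverse] at h3
  obtain ⟨h4, h5⟩ := ord_eq h2 (by rw [h3]; exact leadingCoeff_ne_zero.2 hp)
  have h6 : aeval τ p = aeval τ⁻¹ p.reverse * τ ^ p.natDegree := by
    let _ : Invertible τ := invertibleOfNonzero hτ
    have h7 := eval₂_reverse_mul_pow (algebraMap ℂ M) τ p
    rw [invOf_eq_inv] at h7
    rw [aeval_def, aeval_def, h7]
  rw [h6]
  refine ⟨mul_ne_zero h4 (pow_ne_zero _ hτ), ?_⟩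
  rw [ord_mul h4 (pow_ne_zero _ hτ), h5, ord_pow, zero_add]

end WR
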