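import Pool.Agent.helper51.WR.ResDefs
import Pool.Agent.helper51.WR.Ge

/-!
# WR-ResA: resolutions at the finite cusps

`u = s^e`, `v` = series without constant term. Blow-ups `left` with `c` = coefficient of `v` at `s^e`
(`c` may be zero or not; the flag `q` is `false`): `v ↦ v/s^e - c`; the first has flags `false false`, the
following ones `true false`.
`e = 2`, exponent `2 l + 1`: contributions `0`, then `1` (`l - 1` times), then `(s^2, v')`, `v'` of
order `1`, flags `true false`: `right` with contribution `1 - 2 + 1 = 0`, `(s^2/v', v')` flags `true true`, both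
of order `1`: `left` with contribution `1`, `c ≠ 0`, then done.
`e = 3`, exponent `3 K + 1`: `1`, `2` (`K - 1` times), `(s^3, v')`: `right` `0`, `right` `1` (order `2` and `1`),
`left` `1` (order `1`, `1`), done.
`e = 4`, exponents `4K+2`, `4K+3`: `2`, `3` (`K - 1` times), `(s^4, v')`, `v'` of order `2` with nonzero
coefficient at `s^3`: `right` `2 - 2 + 1 = 1`, `(s^4/v', v')` orders `2, 2`, flags `true true`: `left` `2`,
`c ≠ 0`, `v'' = v'^2/s^4 - c` of order exactly `1`, flags `true false`, `(order 2, order 1)`: `right` `0`,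
`(order 1, order 1)` flags `true true`: `left` `1`, done.
For the induction prove the statement with flags `true false` (result one larger).
-/

namespace WR

open Polynomial

theorem ResA_coeff_div (f : M) (e : ℤ) (j : ℤ) : (f / sp e).coeff j = f.coeff (j + e) := by
  have h1 : f / sp e = sp (-e) * f := by
    rw [div_eq_iff (sp_ne e), mul_comm, ← mul_assoc, ← sp_add, add_neg_cancel, sp_zero, one_mul]
  rw [h1, coeff_sp_mul, sub_neg_eq_add]

theorem ResA_coeff_sub (f g : M) (j : ℤ) : (f - g).coeff j = f.coeff j - g.coeff j := by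
  simp

theorem ResA_pos {f : M} (h : Ge f 1) : Pos (fun f : M => f.order) f := by
  by_cases hf : f = 0
  · exact Or.inl hf
  · right
    have h1 := (ge_iff hf).1 h
    show 0 < f.order
    omega

/-- `left` with the new value of the sum -/
theorem ResA_left {u v : M} {p q q' : Bool} {c : ℂ} {s s' : ℤ}
    (hd : ¬ Done (fun f : M => f.order) u v p q) (hu : u ≠ 0)
    (hu1 : 0 < u.order) (hv : v = 0 ∨ u.order ≤ v.order)
    (hc : Pos (fun f : M => f.order) (v / u - algebraMap ℂ M c))
    (hq : q' = true ↔ (q = true ∧ c = 0))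
    (h : Res (fun f : M => f.order) u (v / u - algebraMap ℂ M c) true q' s)
    (hs : s' = s + (u.order - 2 + bi p + bi q)) :
    Res (fun f : M => f.order) u v p q s' := by
  subst hs
  exact Res.left u v p q q' c s hd hu hu1 hv hc hq h

/-- `right` with the new value of the sum -/
theorem ResA_right {u v : M} {p q : Bool} {s s' : ℤ}
    (hd : ¬ Done (fun f : M => f.order) u v p q) (hv : v ≠ 0)
    (hv1 : 0 < v.order) (hu : u = 0 ∨ v.order < u.order)
    (h : Res (fun f : M => f.order) (u / v) v p true s)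
    (hs : s' = s + (v.order - 2 + bi p + bi q)) :
    Res (fun f : M => f.order) u v p q s' := by
  subst hs
  exact Res.right u v p q s hd hv hv1 hu h

theorem ResA_not_done {u v : M} {p : Bool} (hu : u.order ≠ 1) :
    ¬ Done (fun f : M => f.order) u v p false := by
  rintro (⟨_, _, _, h⟩ | ⟨_, h, _⟩)
  · exact hu h
  · exact absurd h (by decide)

theorem ResA_not_done' {u v : M} : ¬ Done (fun f : M => f.order) u v true true := by
  rintro (⟨_, h, _⟩ | ⟨h, _⟩)
  · exact absurd h (by decide)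
  · exact absurd h (by decide)

/-- the step `v ↦ v/s^e - c` -/
theorem ResA_step {e : ℕ} (he : 2 ≤ e) {f : M} {p : Bool} {s s' : ℤ} (hf : Ge f e)
    (h : ∀ g : M, (∀ j : ℤ, g.coeff j = if j = 0 then 0 else f.coeff (j + e)) →
      Res (fun f : M => f.order) (sp ((e : ℕ) : ℤ)) g true false s)
    (hs : s' = s + ((e : ℤ) - 2 + bi p)) :
    Res (fun f : M => f.order) (sp ((e : ℕ) : ℤ)) f p false s' := by
  have ho : (sp ((e : ℕ) : ℤ)).order = e := ord_sp _
  have hco : ∀ j : ℤ, (f / sp ((e : ℕ) : ℤ) - algebraMap ℂ M (f.coeff e)).coeff j =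
      if j = 0 then 0 else f.coeff (j + e) := by
    intro j
    rw [ResA_coeff_sub, ResA_coeff_div, coeff_algebraMap]
    split_ifs with hj
    · subst hj
      rw [zero_add, sub_self]
    · rw [sub_zero]
  refine ResA_left (c := f.coeff e) (q' := false) (s := s)
    (ResA_not_done (by rw [ho]; omega)) (sp_ne _) (by rw [ho]; omega) ?_ ?_ (by simp)
    (h _ hco) ?_
  · by_cases h0 : f = 0
    · exact Or.inl h0
    · right
      rw [ho]
      exact (ge_iff h0).1 hf
  · refine ResA_pos fun j hj => ?_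
    rw [hco]
    split_ifs with h0
    · rfl
    · exact hf _ (by omega)
  · rw [hs, ho]
    simp [bi]

/-- the chain of the steps with the flags `true false` -/
theorem ResA_chain {e : ℕ} (he : 2 ≤ e) {r0 : ℤ} (K : ℕ) : ∀ f : M, Ge f 1 →
    (∀ i : ℤ, i < e * K + 1 → ¬ (e : ℤ) ∣ i → f.coeff i = 0) →
    (∀ g : M, Ge g 1 → (∀ j : ℤ, 0 < j → g.coeff j = f.coeff (j + e * K)) →
      Res (fun f : M => f.order) (sp ((e : ℕ) : ℤ)) g true false r0) →
    Res (fun f : M => f.order) (sp ((e : ℕ) : ℤ)) f true false (K * (e - 1) + r0) := by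
  induction K with
  | zero =>
    intro f hf _ hb
    have h1 := hb f hf (fun j _ => by simp)
    simpa using h1
  | succ K ih =>
    intro f hf h0 hb
    have hK : (e : ℤ) * ((K + 1 : ℕ) : ℤ) = e * K + e := by
      push_cast
      ring
    have heK : (0 : ℤ) ≤ e * K := by positivity
    have hfe : Ge f e := by
      intro n hn
      by_cases h1 : n < 1
      · exact hf n h1
      · refine h0 n (by rw [hK]; omega) ?_
        rintro ⟨q, hq⟩
        have h2 : 0 < q := by
          by_contra h3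
          push Not at h3
          have : (e : ℤ) * q ≤ 0 := mul_nonpos_of_nonneg_of_nonpos (by positivity) h3
          omega
        have h3 : (e : ℤ) * 1 ≤ e * q := mul_le_mul_of_nonneg_left (by omega) (by positivity)
        omega
    refine ResA_step he hfe (s := K * (e - 1) + r0) (fun g hg => ?_) ?_
    · refine ih g ?_ ?_ ?_
      · intro n hn
        rw [hg]
        split_ifs with h1
        · rfl
        · exact hfe _ (by omega)
      · intro i hi hdi
        rw [hg]
        split_ifs with h1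
        · rfl
        · refine h0 _ (by rw [hK]; omega) ?_
          intro hd
          exact hdi ((Int.dvd_add_left (dvd_refl _)).1 hd)
      · intro g' hg' hj
        refine hb g' hg' fun j hj0 => ?_
        rw [hj j hj0, hg, if_neg (by omega), hK]
        congr 1
        ring
    · simp [bi]
      ring

/-- the whole resolution after the last step -/
theorem ResA_all {e : ℕ} (he : 2 ≤ e) {r0 r1 : ℤ} (K : ℕ) (hK : 1 ≤ K) (f : M) (hf : Ge f 1)
    (h0 : ∀ i : ℤ, i < e * K + 1 → ¬ (e : ℤ) ∣ i → f.coeff i = 0)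
    (hb : ∀ g : M, Ge g 1 → (∀ j : ℤ, 0 < j → g.coeff j = f.coeff (j + e * K)) →
      Res (fun f : M => f.order) (sp ((e : ℕ) : ℤ)) g true false r0)
    (hr : r1 = K * (e - 1) + r0 - 1) :
    Res (fun f : M => f.order) (sp ((e : ℕ) : ℤ)) f false false r1 := by
  obtain ⟨K, rfl⟩ : ∃ k, K = k + 1 := ⟨K - 1, by omega⟩
  have hK1 : (e : ℤ) * ((K + 1 : ℕ) : ℤ) = e * K + e := by
    push_cast
    ring
  have heK : (0 : ℤ) ≤ e * K := by positivity
  have hfe : Ge f e := by
    intro n hn
    by_cases h1 : n < 1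
    · exact hf n h1
    · refine h0 n (by rw [hK1]; omega) ?_
      rintro ⟨q, hq⟩
      have h2 : 0 < q := by
        by_contra h3
        push Not at h3
        have : (e : ℤ) * q ≤ 0 := mul_nonpos_of_nonneg_of_nonpos (by positivity) h3
        omega
      have h3 : (e : ℤ) * 1 ≤ e * q := mul_le_mul_of_nonneg_left (by omega) (by positivity)
      omega
  refine ResA_step he hfe (s := K * (e - 1) + r0) (fun g hg => ?_) ?_
  · refine ResA_chain he K g ?_ ?_ ?_
    · intro n hn
      rw [hg]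
      split_ifs with h1
      · rfl
      · exact hfe _ (by omega)
    · intro i hi hdi
      rw [hg]
      split_ifs with h1
      · rfl
      · refine h0 _ (by rw [hK1]; omega) ?_
        intro hd
        exact hdi ((Int.dvd_add_left (dvd_refl _)).1 hd)
    · intro g' hg' hj
      refine hb g' hg' fun j hj0 => ?_
      rw [hj j hj0, hg, if_neg (by omega), hK1]
      congr 1
      ring
  · rw [hr]
    simp [bi]
    ring

/-- two coordinates of order `1` with both flags: one more blow-up -/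
theorem ResA_fin {u v : M} (hu : u ≠ 0) (hv : v ≠ 0) (hu1 : u.order = 1) (hv1 : v.order = 1) :
    Res (fun f : M => f.order) u v true true 1 := by
  have hge : Ge (v / u) 0 := by
    have h1 : v / u ≠ 0 := div_ne_zero hv hu
    rw [ge_iff h1, ord_div hv hu, hu1, hv1]
    norm_num
  have hc0 : (v / u).coeff 0 ≠ 0 := by
    have h1 : v / u ≠ 0 := div_ne_zero hv hu
    have h2 := coeff_order_ne h1
    rwa [ord_div hv hu, hu1, hv1, sub_self] at h2
  have hpos : Ge (v / u - algebraMap ℂ M ((v / u).coeff 0)) 1 := by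
    intro n hn
    rw [ResA_coeff_sub, coeff_algebraMap]
    split_ifs with h1
    · subst h1
      rw [sub_self]
    · rw [sub_zero]
      exact hge n (by omega)
  refine ResA_left (c := (v / u).coeff 0) (q' := false) (s := 0) ResA_not_done' hu
    (by omega) (Or.inr (by omega)) (ResA_pos hpos) (by simp [hc0]) ?_ (by simp [bi, hu1])
  refine Res.fin _ _ _ _ (Or.inr ?_) (ResA_pos hpos) (Or.inl ⟨rfl, rfl, hu, hu1⟩)
  show 0 < u.order
  omega

theorem resF2 (f : M) (l : ℕ) (hl : 1 ≤ l) (hf : Ge f 1)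
    (h0 : ∀ i : ℤ, i < 2 * l + 1 → ¬ (2 : ℤ) ∣ i → f.coeff i = 0)
    (h1 : f.coeff (2 * l + 1) ≠ 0) :
    Res (fun f : M => f.order) (sp ((2 : ℕ) : ℤ)) f false false l := by
  refine ResA_all (e := 2) (r0 := 1) le_rfl l hl f hf h0 (fun g hg hj => ?_) (by push_cast; ring)
  have h2 : g.coeff 1 ≠ 0 := by
    rw [hj 1 one_pos]
    have h3 : (1 : ℤ) + ((2 : ℕ) : ℤ) * l = 2 * l + 1 := by
      push_cast
      ring
    rw [h3]
    exact h1
  obtain ⟨hg0, hg1⟩ := ord_eq hg h2
  have ho : (sp ((2 : ℕ) : ℤ)).order = 2 := ord_sp _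
  have hu : sp ((2 : ℕ) : ℤ) / g ≠ 0 := div_ne_zero (sp_ne _) hg0
  have hu1 : (sp ((2 : ℕ) : ℤ) / g).order = 1 := by
    rw [ord_div (sp_ne _) hg0, ho, hg1]
    norm_num
  refine ResA_right (s := 1) (ResA_not_done (by rw [ho]; norm_num)) hg0 (by rw [hg1]; norm_num)
    (Or.inr (by rw [ho, hg1]; norm_num)) (ResA_fin hu hg0 hu1 hg1) (by rw [hg1]; simp [bi])

theorem resF3 (f : M) (K : ℕ) (hK : 1 ≤ K) (hf : Ge f 1)
    (h0 : ∀ i : ℤ, i < 3 * K + 1 → ¬ (3 : ℤ) ∣ i → f.coeff i = 0)
    (h1 : f.coeff (3 * K + 1) ≠ 0) :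
    Res (fun f : M => f.order) (sp ((3 : ℕ) : ℤ)) f false false (2 * K + 1) := by
  refine ResA_all (e := 3) (r0 := 2) (by norm_num) K hK f hf h0 (fun g hg hj => ?_)
    (by push_cast; ring)
  have h2 : g.coeff 1 ≠ 0 := by
    rw [hj 1 one_pos]
    have h3 : (1 : ℤ) + ((3 : ℕ) : ℤ) * K = 3 * K + 1 := by
      push_cast
      ring
    rw [h3]
    exact h1
  obtain ⟨hg0, hg1⟩ := ord_eq hg h2
  have ho : (sp ((3 : ℕ) : ℤ)).order = 3 := ord_sp _
  have hu : sp ((3 : ℕ) : ℤ) / g ≠ 0 := div_ne_zero (sp_ne _) hg0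
  have hu1 : (sp ((3 : ℕ) : ℤ) / g).order = 2 := by
    rw [ord_div (sp_ne _) hg0, ho, hg1]
    norm_num
  have hw : sp ((3 : ℕ) : ℤ) / g / g ≠ 0 := div_ne_zero hu hg0
  have hw1 : (sp ((3 : ℕ) : ℤ) / g / g).order = 1 := by
    rw [ord_div hu hg0, hu1, hg1]
    norm_num
  refine ResA_right (s := 2) (ResA_not_done (by rw [ho]; norm_num)) hg0 (by rw [hg1]; norm_num)
    (Or.inr (by rw [ho, hg1]; norm_num)) ?_ (by rw [hg1]; simp [bi])
  exact ResA_right (s := 1) ResA_not_done' hg0 (by rw [hg1]; norm_num)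
    (Or.inr (by rw [hu1, hg1]; norm_num)) (ResA_fin hw hg0 hw1 hg1) (by rw [hg1]; simp [bi])

theorem resF4 (f : M) (K : ℕ) (hK : 1 ≤ K) (hf : Ge f 1)
    (h0 : ∀ i : ℤ, i < 4 * K + 2 → ¬ (4 : ℤ) ∣ i → f.coeff i = 0)
    (h1 : f.coeff (4 * K + 2) ≠ 0) (h2 : f.coeff (4 * K + 3) ≠ 0) :
    Res (fun f : M => f.order) (sp ((4 : ℕ) : ℤ)) f false false (3 * K + 3) := by
  refine ResA_all (e := 4) (r0 := 4) (by norm_num) K hK f hf
    (fun i hi hd => h0 i (by push_cast at hi; omega) (by exact_mod_cast hd)) (fun g hg hj => ?_)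
    (by push_cast; ring)
  have hg1 : g.coeff 1 = 0 := by
    rw [hj 1 one_pos]
    refine h0 _ (by push_cast; omega) ?_
    rintro ⟨q, hq⟩
    push_cast at hq
    omega
  have hg2 : g.coeff 2 ≠ 0 := by
    rw [hj 2 two_pos]
    have h3 : (2 : ℤ) + ((4 : ℕ) : ℤ) * K = 4 * K + 2 := by
      push_cast
      ring
    rw [h3]
    exact h1
  have hg3 : g.coeff 3 ≠ 0 := by
    rw [hj 3 three_pos]
    have h3 : (3 : ℤ) + ((4 : ℕ) : ℤ) * K = 4 * K + 3 := by
      push_cast
      ring
    rw [h3]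
    exact h2
  have hge : Ge g 2 := by
    intro n hn
    by_cases h3 : n < 1
    · exact hg n h3
    · obtain rfl : n = 1 := by omega
      exact hg1
  obtain ⟨hg0, hgo⟩ := ord_eq hge hg2
  have ho : (sp ((4 : ℕ) : ℤ)).order = 4 := ord_sp _
  have hu : sp ((4 : ℕ) : ℤ) / g ≠ 0 := div_ne_zero (sp_ne _) hg0
  have hu1 : (sp ((4 : ℕ) : ℤ) / g).order = 2 := by
    rw [ord_div (sp_ne _) hg0, ho, hgo]
    norm_num
  -- the quotient
  have hq : g / (sp ((4 : ℕ) : ℤ) / g) = g * g / sp ((4 : ℕ) : ℤ) := by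
    rw [div_div_eq_mul_div]
  have hqc : ∀ j : ℤ, (g / (sp ((4 : ℕ) : ℤ) / g)).coeff j = (g * g).coeff (j + 4) := by
    intro j
    rw [hq, ResA_coeff_div]
    norm_num
  have hc0 : (g * g).coeff 4 = g.coeff 2 * g.coeff 2 := coeff_mul_ord hge hge
  -- write g = h + w, h = monomial of order 2
  have hc1 : (g * g).coeff 5 = 2 * (g.coeff 2 * g.coeff 3) := by
    have hgs : g = algebraMap ℂ M (g.coeff 2) * sp 2 + (g - algebraMap ℂ M (g.coeff 2) * sp 2) := by
      ring
    have hA : Ge (algebraMap ℂ M (g.coeff 2) * sp 2) 2 := by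
      have h3 : Ge (sp 2) 2 := by
        rw [ge_iff (sp_ne _), ord_sp]
      have h4 := ge_mul (ge_algebraMap (g.coeff 2)) h3
      simpa using h4
    have hAc : ∀ j : ℤ, (algebraMap ℂ M (g.coeff 2) * sp 2).coeff j = if j = 2 then g.coeff 2 else 0 := by
      intro j
      rw [mul_comm, coeff_sp_mul, coeff_algebraMap]
      by_cases hj2 : j = 2
      · subst hj2
        simp
      · rw [if_neg hj2, if_neg (by omega)]
    have hB : Ge (g - algebraMap ℂ M (g.coeff 2) * sp 2) 3 := by
      intro n hn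
      rw [ResA_coeff_sub, hAc]
      split_ifs with h3
      · subst h3
        rw [sub_self]
      · rw [sub_zero]
        exact hge n (by omega)
    have hBc : (g - algebraMap ℂ M (g.coeff 2) * sp 2).coeff 3 = g.coeff 3 := by
      rw [ResA_coeff_sub, hAc, if_neg (by norm_num), sub_zero]
    have hAA : (algebraMap ℂ M (g.coeff 2) * sp 2 * (algebraMap ℂ M (g.coeff 2) * sp 2)).coeff 5 = 0 := by
      have h3 : algebraMap ℂ M (g.coeff 2) * sp 2 * (algebraMap ℂ M (g.coeff 2) * sp 2) =
          sp 2 * (sp 2 * algebraMap ℂ M (g.coeff 2 * g.coeff 2)) := by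
        rw [map_mul]
        ring
      rw [h3, coeff_sp_mul, coeff_sp_mul, coeff_algebraMap, if_neg (by norm_num)]
    have hAB : (algebraMap ℂ M (g.coeff 2) * sp 2 *
        (g - algebraMap ℂ M (g.coeff 2) * sp 2)).coeff 5 = g.coeff 2 * g.coeff 3 := by
      have h3 := coeff_mul_ord hA hB
      rw [hAc, if_pos rfl, hBc] at h3
      exact h3
    have hBB : ((g - algebraMap ℂ M (g.coeff 2) * sp 2) *
        (g - algebraMap ℂ M (g.coeff 2) * sp 2)).coeff 5 = 0 :=
      ge_mul hB hB 5 (by norm_num)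
    have h5 : g * g = algebraMap ℂ M (g.coeff 2) * sp 2 * (algebraMap ℂ M (g.coeff 2) * sp 2) +
        algebraMap ℂ M (g.coeff 2) * sp 2 * (g - algebraMap ℂ M (g.coeff 2) * sp 2) +
        algebraMap ℂ M (g.coeff 2) * sp 2 * (g - algebraMap ℂ M (g.coeff 2) * sp 2) +
        (g - algebraMap ℂ M (g.coeff 2) * sp 2) * (g - algebraMap ℂ M (g.coeff 2) * sp 2) := by
      ring
    rw [h5, HahnSeries.coeff_add, HahnSeries.coeff_add, HahnSeries.coeff_add, hAA, hAB, hBB]
    ring
  set c : ℂ := g.coeff 2 * g.coeff 2 with hc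
  have hcne : c ≠ 0 := mul_ne_zero hg2 hg2
  set w : M := g / (sp ((4 : ℕ) : ℤ) / g) - algebraMap ℂ M c with hw
  have hwge : Ge w 1 := by
    intro n hn
    rw [hw, ResA_coeff_sub, hqc, coeff_algebraMap]
    split_ifs with h3
    · subst h3
      rw [zero_add, hc0, sub_self]
    · rw [sub_zero]
      exact ge_mul hge hge _ (by omega)
  have hw1 : w.coeff 1 ≠ 0 := by
    rw [hw, ResA_coeff_sub, hqc, coeff_algebraMap, if_neg (by norm_num), sub_zero]
    have h3 : (1 : ℤ) + 4 = 5 := by norm_num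
    rw [h3, hc1]
    exact mul_ne_zero two_ne_zero (mul_ne_zero hg2 hg3)
  obtain ⟨hw0, hwo⟩ := ord_eq hwge hw1
  have hx : sp ((4 : ℕ) : ℤ) / g / w ≠ 0 := div_ne_zero hu hw0
  have hx1 : (sp ((4 : ℕ) : ℤ) / g / w).order = 1 := by
    rw [ord_div hu hw0, hu1, hwo]
    norm_num
  refine ResA_right (s := 3) (ResA_not_done (by rw [ho]; norm_num)) hg0 (by rw [hgo]; norm_num)
    (Or.inr (by rw [ho, hgo]; norm_num)) ?_ (by rw [hgo]; simp [bi])
  refine ResA_left (c := c) (q' := false) (s := 1) ResA_not_done' hu (by rw [hu1]; norm_num)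
    (Or.inr (by rw [hu1, hgo])) (ResA_pos hwge) (by simp [hcne]) ?_ (by rw [hu1]; simp [bi])
  exact ResA_right (s := 1) (ResA_not_done (by rw [hu1]; norm_num)) hw0 (by rw [hwo]; norm_num)
    (Or.inr (by rw [hu1, hwo]; norm_num)) (ResA_fin hx hw0 hx1 hwo) (by rw [hwo]; simp [bi])

end WR
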