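import Pool.Agent.helper51.WR.ResDefs
import Pool.Agent.helper51.WR.Ge

/-!
# WR-ResB: resolutions at the big cusp

`u = 1/f`, `v = s^N/f`, `f` of order `-m`, `m = N K`. First blow-up `left` with `c = 0`: contribution
`m - 2`, then `(1/f, s^N)`, flags `true false`. Then `right` while the order of the first coordinate is
larger than `N` (`u ↦ u/s^N`), and finally `left` when the orders are equal to `N` (`c ≠ 0`). Contributions of
these `K` blow-ups: `N - 1` for the first and `N` for the others.
`N = 1`: after these `K = m` blow-ups: `(u', s/u' - c)`, flags `true false`, `u'` of order `1`: done; total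
`m - 2 + 0 + (m - 1)`.
`N = 2, 3`: now `u'` has order `N`, `v' = s^N/u' - c` has order `1` because the coefficient of `f` at
`1 - m` is not zero (`s^N/u' = s^m f`); flags `true false`: `right` `0`, then `right` with flags `true true`,
contribution `1`, while the order of the first is larger than `1` (`N = 3`: once), and `left` with contribution
`1` when both orders are `1`; done. Totals: `N = 2`: `2K - 2 + 1 + 2(K-1) + 0 + 1 = 4K - 2`;
`N = 3`: `3K - 2 + 2 + 3(K-1) + 0 + 1 + 1 = 6K - 1`.
-/

namespace WR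

open Polynomial

/-- the value at `s = 0` -/
theorem ResB_pos {h : M} (hh : Ge h 0) :
    Pos (fun f : M => f.order) (h - algebraMap ℂ M (h.coeff 0)) := by
  by_cases h0 : h - algebraMap ℂ M (h.coeff 0) = 0
  · exact Or.inl h0
  · right
    have h1 : Ge (h - algebraMap ℂ M (h.coeff 0)) 1 := by
      intro l hl
      rw [HahnSeries.coeff_sub, coeff_algebraMap]
      rcases lt_or_eq_of_le (Int.lt_add_one_iff.1 (show l < 0 + 1 by omega)) with h2 | h2
      · rw [hh l h2, if_neg h2.ne, sub_zero]
      · rw [if_pos h2, h2, sub_self]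
    have h2 := (ge_iff h0).1 h1
    show (0 : ℤ) < (h - algebraMap ℂ M (h.coeff 0)).order
    omega

theorem ResB_done_tt (u v : M) : ¬ Done (fun f : M => f.order) u v true true := by
  rintro (⟨-, h, -⟩ | ⟨h, -⟩) <;> exact absurd h (by decide)

theorem ResB_done_ff (u v : M) : ¬ Done (fun f : M => f.order) u v false false := by
  rintro (⟨h, -⟩ | ⟨-, h, -⟩) <;> exact absurd h (by decide)

theorem ResB_done_tf {u v : M} (h : u.order ≠ 1) : ¬ Done (fun f : M => f.order) u v true false := by
  rintro (⟨-, -, -, h1⟩ | ⟨h1, -⟩)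
  · exact h h1
  · exact absurd h1 (by decide)

/-- the last blow-up: both orders are `1` -/
theorem ResB_last {u v : M} (hu : u ≠ 0) (hu1 : u.order = 1) (hv : v ≠ 0) (hv1 : v.order = 1) :
    Res (fun f : M => f.order) u v true true 1 := by
  have hq : v / u ≠ 0 := div_ne_zero hv hu
  have ho : (v / u).order = 0 := by rw [ord_div hv hu, hu1, hv1, sub_self]
  have hge : Ge (v / u) 0 := (ge_iff hq).2 ho.ge
  have hc : (v / u).coeff 0 ≠ 0 := by
    have := coeff_order_ne hq
    rwa [ho] at this
  have hfin : Res (fun f : M => f.order) u (v / u - algebraMap ℂ M ((v / u).coeff 0)) true false 0 :=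
    Res.fin _ _ _ _ (Or.inr (by show (0 : ℤ) < u.order; omega)) (ResB_pos hge)
      (Or.inl ⟨rfl, rfl, hu, hu1⟩)
  have h := Res.left (ord := fun f : M => f.order) u v true true false ((v / u).coeff 0) 0
    (ResB_done_tt u v) hu (by show (0 : ℤ) < u.order; omega)
    (Or.inr (by show u.order ≤ v.order; omega)) (ResB_pos hge) (by simp [hc]) hfin
  have e : (0 : ℤ) + (u.order - 2 + bi true + bi true) = 1 := by
    rw [hu1]
    simp [bi]
  simpa only [e] using h

/-- blow-ups with flags `true true` -/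
theorem ResB_chain {N : ℕ} (hN : 0 < N) {c : ℂ} (hc0 : c ≠ 0) {s : ℤ} (j : ℕ) :
    ∀ w X : M, w ≠ 0 → w.order = ((j : ℤ) + 1) * N → w = X * sp ((j : ℤ) * N) →
      Pos (fun f : M => f.order) (sp (N : ℤ) / X - algebraMap ℂ M c) →
      Res (fun f : M => f.order) X (sp (N : ℤ) / X - algebraMap ℂ M c) true false s →
      Res (fun f : M => f.order) w (sp (N : ℤ)) true true (s + ((j : ℤ) + 1) * N) := by
  have hN' : (0 : ℤ) < N := by exact_mod_cast hN
  induction j with
  | zero =>
    intro w X hw ho hX hp hr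
    have hX' : w = X := by
      rw [hX]
      simp [sp_zero]
    subst hX'
    have ho' : w.order = N := by
      rw [ho]
      push_cast
      ring
    have h := Res.left (ord := fun f : M => f.order) w (sp (N : ℤ)) true true false c s
      (ResB_done_tt _ _) hw (by show (0 : ℤ) < w.order; omega)
      (Or.inr (by show w.order ≤ (sp (N : ℤ)).order; rw [ord_sp, ho'])) hp (by simp [hc0]) hr
    have e : s + (w.order - 2 + bi true + bi true) = s + (((0 : ℕ) : ℤ) + 1) * N := by
      rw [ho']
      simp only [bi, if_true]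
      push_cast
      ring
    simpa only [e] using h
  | succ j ih =>
    intro w X hw ho hX hp hr
    have hdiv : w / sp (N : ℤ) ≠ 0 := div_ne_zero hw (sp_ne _)
    have ho1 : (w / sp (N : ℤ)).order = ((j : ℤ) + 1) * N := by
      rw [ord_div hw (sp_ne _), ord_sp, ho]
      push_cast
      ring
    have hX1 : w / sp (N : ℤ) = X * sp ((j : ℤ) * N) := by
      rw [div_eq_iff (sp_ne _), hX, mul_assoc, ← sp_add]
      congr 2
      push_cast
      ring
    have h1 := ih (w / sp (N : ℤ)) X hdiv ho1 hX1 hp hr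
    have hlt : (N : ℤ) < w.order := by
      rw [ho]
      push_cast
      nlinarith [mul_nonneg (Nat.cast_nonneg (α := ℤ) j) hN'.le]
    have h := Res.right (ord := fun f : M => f.order) w (sp (N : ℤ)) true true _
      (ResB_done_tt _ _) (sp_ne _) (by show (0 : ℤ) < (sp (N : ℤ)).order; rw [ord_sp]; exact hN')
      (Or.inr (by show (sp (N : ℤ)).order < w.order; rw [ord_sp]; exact hlt)) h1
    have e : s + ((j : ℤ) + 1) * N + ((sp (N : ℤ)).order - 2 + bi true + bi true) =
        s + (((j + 1 : ℕ) : ℤ) + 1) * N := by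
      rw [ord_sp]
      simp only [bi, if_true]
      push_cast
      ring
    simpa only [e] using h

/-- all blow-ups up to the end of the chain -/
theorem ResB_main {N K : ℕ} (hN : 0 < N) (hK : 1 ≤ K) (hm : 2 ≤ N * K) {f : M} (hf : f ≠ 0)
    (ho : f.order = -((N : ℤ) * K)) {s : ℤ}
    (hr : ∀ X Y : M, X ≠ 0 → X.order = N → Y = sp ((N : ℤ) * K) * f -
      algebraMap ℂ M (f.coeff (-((N : ℤ) * K))) → Res (fun f : M => f.order) X Y true false s) :
    Res (fun f : M => f.order) (1 / f) (sp (N : ℤ) / f) false false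
      (s + (2 * ((N : ℤ) * K) - 3)) := by
  have hN' : (0 : ℤ) < N := by exact_mod_cast hN
  have hm' : (2 : ℤ) ≤ (N : ℤ) * K := by exact_mod_cast hm
  obtain ⟨j, rfl⟩ : ∃ j, K = j + 1 := ⟨K - 1, by omega⟩
  have hw : (1 : M) / f ≠ 0 := div_ne_zero one_ne_zero hf
  have ho1 : ((1 : M) / f).order = (N : ℤ) * ((j + 1 : ℕ) : ℤ) := by
    rw [ord_div one_ne_zero hf, HahnSeries.order_one, ho]
    ring
  -- the last first coordinate
  set X : M := (1 / f) / sp ((j : ℤ) * N) with hX
  have hX0 : X ≠ 0 := div_ne_zero hw (sp_ne _)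
  have hXo : X.order = N := by
    rw [hX, ord_div hw (sp_ne _), ord_sp, ho1]
    push_cast
    ring
  have hwX : (1 : M) / f = X * sp ((j : ℤ) * N) := by
    rw [hX, div_mul_cancel₀ _ (sp_ne _)]
  have hquo : sp (N : ℤ) / X = sp ((N : ℤ) * ((j + 1 : ℕ) : ℤ)) * f := by
    rw [div_eq_iff hX0, hX, mul_comm (sp ((N : ℤ) * ((j + 1 : ℕ) : ℤ))) f]
    have e : sp ((N : ℤ) * ((j + 1 : ℕ) : ℤ)) = sp (N : ℤ) * sp ((j : ℤ) * N) := by
      rw [← sp_add]
      congr 1
      push_cast
      ring
    rw [e]
    have h1 := sp_ne ((j : ℤ) * N)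
    field_simp
  have hge : Ge (sp ((N : ℤ) * ((j + 1 : ℕ) : ℤ)) * f) 0 := by
    intro l hl
    rw [coeff_sp_mul]
    exact (ge_iff hf).2 ho.ge _ (by omega)
  have hcf : (sp ((N : ℤ) * ((j + 1 : ℕ) : ℤ)) * f).coeff 0 =
      f.coeff (-((N : ℤ) * ((j + 1 : ℕ) : ℤ))) := by
    rw [coeff_sp_mul, zero_sub]
  have hc0 : f.coeff (-((N : ℤ) * ((j + 1 : ℕ) : ℤ))) ≠ 0 := by
    have := coeff_order_ne hf
    rwa [ho] at this
  have hp : Pos (fun f : M => f.order)
      (sp (N : ℤ) / X - algebraMap ℂ M (f.coeff (-((N : ℤ) * ((j + 1 : ℕ) : ℤ))))) := by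
    rw [hquo, ← hcf]
    exact ResB_pos hge
  have hres := hr X _ hX0 hXo rfl
  rw [← hquo] at hres
  -- after the first blow-up
  have h2 : Res (fun f : M => f.order) (1 / f) (sp (N : ℤ)) true false
      (s + ((j : ℤ) + 1) * N - 1) := by
    have hne1 : ((1 : M) / f).order ≠ 1 := by
      rw [ho1]
      omega
    rcases Nat.eq_zero_or_pos j with hj | hj
    · subst hj
      have hXw : (1 : M) / f = X := by
        rw [hwX]
        simp [sp_zero]
      rw [← hXw] at hp hres hXo
      have h := Res.left (ord := fun f : M => f.order) (1 / f) (sp (N : ℤ)) true false false _ s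
        (ResB_done_tf hne1) hw (by show (0 : ℤ) < ((1 : M) / f).order; omega)
        (Or.inr (by show ((1 : M) / f).order ≤ (sp (N : ℤ)).order; rw [ord_sp, hXo])) hp
        (by simp) hres
      have e : s + (((1 : M) / f).order - 2 + bi true + bi false) =
          s + (((0 : ℕ) : ℤ) + 1) * N - 1 := by
        rw [hXo]
        simp [bi]
        ring
      simpa only [e] using h
    · obtain ⟨i, rfl⟩ : ∃ i, j = i + 1 := ⟨j - 1, by omega⟩
      have hdiv : (1 : M) / f / sp (N : ℤ) ≠ 0 := div_ne_zero hw (sp_ne _)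
      have ho2 : ((1 : M) / f / sp (N : ℤ)).order = ((i : ℤ) + 1) * N := by
        rw [ord_div hw (sp_ne _), ord_sp, ho1]
        push_cast
        ring
      have hX1 : (1 : M) / f / sp (N : ℤ) = X * sp ((i : ℤ) * N) := by
        rw [div_eq_iff (sp_ne _), hwX, mul_assoc, ← sp_add]
        congr 2
        push_cast
        ring
      have h1 := ResB_chain hN hc0 (s := s) i _ X hdiv ho2 hX1 hp hres
      have hlt : (N : ℤ) < ((1 : M) / f).order := by
        rw [ho1]
        push_cast
        nlinarith [mul_nonneg (Nat.cast_nonneg (α := ℤ) i) hN'.le]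
      have h := Res.right (ord := fun f : M => f.order) (1 / f) (sp (N : ℤ)) true false _
        (ResB_done_tf hne1) (sp_ne _)
        (by show (0 : ℤ) < (sp (N : ℤ)).order; rw [ord_sp]; exact hN')
        (Or.inr (by show (sp (N : ℤ)).order < ((1 : M) / f).order; rw [ord_sp]; exact hlt)) h1
      have e : s + ((i : ℤ) + 1) * N + ((sp (N : ℤ)).order - 2 + bi true + bi false) =
          s + (((i + 1 : ℕ) : ℤ) + 1) * N - 1 := by
        rw [ord_sp]
        simp [bi]
        ring
      simpa only [e] using h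
  -- the first blow-up
  have hv : sp (N : ℤ) / f ≠ 0 := div_ne_zero (sp_ne _) hf
  have hvo : (sp (N : ℤ) / f).order = N + (N : ℤ) * ((j + 1 : ℕ) : ℤ) := by
    rw [ord_div (sp_ne _) hf, ord_sp, ho]
    ring
  have hvu : sp (N : ℤ) / f / (1 / f) = sp (N : ℤ) := by
    field_simp
  have h3 : Res (fun f : M => f.order) (1 / f)
      (sp (N : ℤ) / f / (1 / f) - algebraMap ℂ M 0) true false (s + ((j : ℤ) + 1) * N - 1) := by
    rw [hvu, map_zero, sub_zero]
    exact h2
  have hp3 : Pos (fun f : M => f.order) (sp (N : ℤ) / f / (1 / f) - algebraMap ℂ M 0) := by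
    rw [hvu, map_zero, sub_zero]
    right
    show (0 : ℤ) < (sp (N : ℤ)).order
    rw [ord_sp]
    exact hN'
  have h := Res.left (ord := fun f : M => f.order) (1 / f) (sp (N : ℤ) / f) false false false 0 _
    (ResB_done_ff _ _) hw (by show (0 : ℤ) < ((1 : M) / f).order; omega)
    (Or.inr (by show ((1 : M) / f).order ≤ (sp (N : ℤ) / f).order; omega)) hp3 (by simp) h3
  have e : s + ((j : ℤ) + 1) * N - 1 + (((1 : M) / f).order - 2 + bi false + bi false) =
      s + (2 * ((N : ℤ) * ((j + 1 : ℕ) : ℤ)) - 3) := by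
    rw [ho1]
    simp [bi]
    ring
  simpa only [e] using h

/-- the second coordinate at the end of the chain has order `1` -/
theorem ResB_Y {m : ℤ} {f : M} (hf : f ≠ 0) (ho : f.order = -m) (h1 : f.coeff (1 - m) ≠ 0) :
    sp m * f - algebraMap ℂ M (f.coeff (-m)) ≠ 0 ∧
      (sp m * f - algebraMap ℂ M (f.coeff (-m))).order = 1 := by
  refine ord_eq (fun l hl => ?_) ?_
  · rw [HahnSeries.coeff_sub, coeff_sp_mul, coeff_algebraMap]
    rcases lt_or_eq_of_le (Int.lt_add_one_iff.1 (show l < 0 + 1 by omega)) with h2 | h2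
    · rw [(ge_iff hf).2 ho.ge _ (by omega), if_neg h2.ne, sub_zero]
    · rw [if_pos h2, h2, zero_sub, sub_self]
  · rw [HahnSeries.coeff_sub, coeff_sp_mul, coeff_algebraMap, if_neg one_ne_zero, sub_zero]
    exact h1

theorem resI2 (f : M) (m : ℕ) (hm : 2 ≤ m) (hf : f ≠ 0) (ho : f.order = -(m : ℤ)) :
    Res (fun f : M => f.order) (1 / f) (sp ((1 : ℕ) : ℤ) / f) false false (2 * m - 3) := by
  have hc : Ge (sp (((1 : ℕ) : ℤ) * m) * f) 0 := by
    intro l hl
    rw [coeff_sp_mul]
    refine (ge_iff hf).2 ho.ge _ ?_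
    push_cast
    omega
  have h := ResB_main (N := 1) (K := m) (f := f) (s := 0) one_pos (by omega) (by omega) hf
    (by rw [ho]; push_cast; ring) (fun X Y hX hXo hY => by
      refine Res.fin _ _ _ _ (Or.inr (by show (0 : ℤ) < X.order; rw [hXo]; norm_num)) ?_
        (Or.inl ⟨rfl, rfl, hX, by show X.order = 1; rw [hXo]; norm_num⟩)
      rw [hY]
      have h1 := ResB_pos hc
      rw [coeff_sp_mul, zero_sub] at h1
      exact h1)
  have e : (0 : ℤ) + (2 * (((1 : ℕ) : ℤ) * m) - 3) = 2 * m - 3 := by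
    push_cast
    ring
  rw [e] at h
  exact h

theorem resI3 (f : M) (K : ℕ) (hK : 1 ≤ K) (hf : f ≠ 0) (ho : f.order = -(2 * K : ℤ))
    (h1 : f.coeff (1 - 2 * K) ≠ 0) :
    Res (fun f : M => f.order) (1 / f) (sp ((2 : ℕ) : ℤ) / f) false false (4 * K - 2) := by
  have h := ResB_main (N := 2) (K := K) (f := f) (s := 1) two_pos hK (by omega) hf
    (by rw [ho]; push_cast; ring) (fun X Y hX hXo hY => by
      obtain ⟨hY0, hY1⟩ := ResB_Y (m := ((2 : ℕ) : ℤ) * K) hf (by rw [ho]; push_cast; ring)
        (by push_cast; exact h1)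
      rw [← hY] at hY0 hY1
      have hq : X / Y ≠ 0 := div_ne_zero hX hY0
      have hqo : (X / Y).order = 1 := by rw [ord_div hX hY0, hXo, hY1]; norm_num
      have h2 := ResB_last hq hqo hY0 hY1
      have h3 := Res.right (ord := fun f : M => f.order) X Y true false 1
        (ResB_done_tf (by rw [hXo]; norm_num)) hY0 (by show (0 : ℤ) < Y.order; omega)
        (Or.inr (by show Y.order < X.order; rw [hXo, hY1]; norm_num)) h2
      have e : (1 : ℤ) + (Y.order - 2 + bi true + bi false) = 1 := by
        rw [hY1]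
        simp [bi]
      simpa only [e] using h3)
  have e : (1 : ℤ) + (2 * (((2 : ℕ) : ℤ) * K) - 3) = 4 * K - 2 := by
    push_cast
    ring
  rw [e] at h
  exact h

theorem resI4 (f : M) (K : ℕ) (hK : 1 ≤ K) (hf : f ≠ 0) (ho : f.order = -(3 * K : ℤ))
    (h1 : f.coeff (1 - 3 * K) ≠ 0) :
    Res (fun f : M => f.order) (1 / f) (sp ((3 : ℕ) : ℤ) / f) false false (6 * K - 1) := by
  have h := ResB_main (N := 3) (K := K) (f := f) (s := 2) three_pos hK (by omega) hf
    (by rw [ho]; push_cast; ring) (fun X Y hX hXo hY => by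
      obtain ⟨hY0, hY1⟩ := ResB_Y (m := ((3 : ℕ) : ℤ) * K) hf (by rw [ho]; push_cast; ring)
        (by push_cast; exact h1)
      rw [← hY] at hY0 hY1
      have hq : X / Y ≠ 0 := div_ne_zero hX hY0
      have hqo : (X / Y).order = 2 := by rw [ord_div hX hY0, hXo, hY1]; norm_num
      have hq2 : X / Y / Y ≠ 0 := div_ne_zero hq hY0
      have hqo2 : (X / Y / Y).order = 1 := by rw [ord_div hq hY0, hqo, hY1]; norm_num
      have h2 := ResB_last hq2 hqo2 hY0 hY1
      have h3 := Res.right (ord := fun f : M => f.order) (X / Y) Y true true 1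
        (ResB_done_tt _ _) hY0 (by show (0 : ℤ) < Y.order; omega)
        (Or.inr (by show Y.order < (X / Y).order; rw [hqo, hY1]; norm_num)) h2
      have e3 : (1 : ℤ) + (Y.order - 2 + bi true + bi true) = 2 := by
        rw [hY1]
        simp [bi]
      have h3' : Res (fun f : M => f.order) (X / Y) Y true true 2 := by
        simpa only [e3] using h3
      have h4 := Res.right (ord := fun f : M => f.order) X Y true false 2
        (ResB_done_tf (by rw [hXo]; norm_num)) hY0 (by show (0 : ℤ) < Y.order; omega)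
        (Or.inr (by show Y.order < X.order; rw [hXo, hY1]; norm_num)) h3'
      have e4 : (2 : ℤ) + (Y.order - 2 + bi true + bi false) = 2 := by
        rw [hY1]
        simp [bi]
      simpa only [e4] using h4)
  have e : (2 : ℤ) + (2 * (((3 : ℕ) : ℤ) * K) - 3) = 6 * K - 1 := by
    push_cast
    ring
  rw [e] at h
  exact h

end WR
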