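import Pool.Agent.helper51.WR.ResDefs
import Pool.Agent.helper51.WR.Loc

/-!
# WR-ResMap: transport of resolutions from Laurent series to rational functions

`res_map` by induction on `Res` (with `u' = j u`, `v' = j v` generalized; `j (v/u - c) = j v / j u - c`).
`res_fin`: `j : RatFunc ℂ → M`, `X ↦ τ` (`τ` is not a constant; `RatFunc.liftAlgHom` or similar),
`order (j f) = ordAt t f` by `ord_aeval` because `τ - t` has order `1`. `j ((a - v b)/b) = s^N`,
`j ((c - y₀ b)/b) = y τ - y₀`. Matrix `!![1, -v, 0; 0, -y₀, 1; 0, 1, 0]`, `y₀ = c(t)/b(t)`.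
`res_inf`: `X ↦ τ` of order `-1`, `order (j f) = ordInf f` by `ord_aeval_inf`; `j (a/c) = 1 / y none τ`,
`j (b/c) = s^N / y none τ`; the identity matrix (`deg a, deg b < deg c`).
-/

namespace WR

open Polynomial

theorem ResMap_pos {F F' : Type} [Field F] [Algebra ℂ F] [Field F'] [Algebra ℂ F'] {ord : F → ℤ}
    {ord' : F' → ℤ} {j : F →ₐ[ℂ] F'} (hj : ∀ f : F, f ≠ 0 → ord' (j f) = ord f) (u : F) :
    Pos ord' (j u) ↔ Pos ord u := by
  unfold Pos
  by_cases h : u = 0
  · subst h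
    simp
  · have h1 : j u ≠ 0 := fun h' => h ((map_eq_zero j).1 h')
    rw [hj u h]
    constructor
    · rintro (h2 | h2)
      · exact absurd h2 h1
      · exact Or.inr h2
    · rintro (h2 | h2)
      · exact absurd h2 h
      · exact Or.inr h2

theorem ResMap_done {F F' : Type} [Field F] [Algebra ℂ F] [Field F'] [Algebra ℂ F'] {ord : F → ℤ}
    {ord' : F' → ℤ} {j : F →ₐ[ℂ] F'} (hj : ∀ f : F, f ≠ 0 → ord' (j f) = ord f) (u v : F)
    (p q : Bool) : Done ord' (j u) (j v) p q ↔ Done ord u v p q := by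
  have key : ∀ w : F, (j w ≠ 0 ∧ ord' (j w) = 1) ↔ (w ≠ 0 ∧ ord w = 1) := by
    intro w
    by_cases h : w = 0
    · subst h
      simp
    · have h1 : j w ≠ 0 := fun h' => h ((map_eq_zero j).1 h')
      rw [hj w h]
      exact ⟨fun h2 => ⟨h, h2.2⟩, fun h2 => ⟨h1, h2.2⟩⟩
  unfold Done
  rw [key u, key v]

theorem res_map {F F' : Type} [Field F] [Algebra ℂ F] [Field F'] [Algebra ℂ F'] (ord : F → ℤ)
    (ord' : F' → ℤ) (j : F →ₐ[ℂ] F') (hj : ∀ f : F, f ≠ 0 → ord' (j f) = ord f) (u v : F)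
    (p q : Bool) (s : ℤ) (h : Res ord' (j u) (j v) p q s) : Res ord u v p q s := by
  have main : ∀ (U V : F') (p q : Bool) (s : ℤ), Res ord' U V p q s → ∀ u v : F, U = j u → V = j v →
      Res ord u v p q s := by
    intro U V p q s h
    induction h with
    | fin U V p q hu hv hd =>
      rintro u v rfl rfl
      exact Res.fin u v p q ((ResMap_pos hj u).1 hu) ((ResMap_pos hj v).1 hv)
        ((ResMap_done hj u v p q).1 hd)
    | left U V p q q' c s hd hu hu1 hv hc hq h ih =>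
      rintro u v rfl rfl
      have hu0 : u ≠ 0 := fun h' => hu (by rw [h', map_zero])
      have e : j v / j u - algebraMap ℂ F' c = j (v / u - algebraMap ℂ F c) := by
        rw [map_sub, map_div₀, AlgHom.commutes]
      rw [hj u hu0]
      refine Res.left u v p q q' c s (fun h' => hd ((ResMap_done hj u v p q).2 h')) hu0 ?_ ?_ ?_ hq
        (ih u (v / u - algebraMap ℂ F c) rfl e)
      · rw [← hj u hu0]
        exact hu1
      · rcases hv with h1 | h1
        · exact Or.inl ((map_eq_zero j).1 h1)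
        · by_cases hv0 : v = 0
          · exact Or.inl hv0
          · rw [hj u hu0, hj v hv0] at h1
            exact Or.inr h1
      · rw [e] at hc
        exact (ResMap_pos hj _).1 hc
    | right U V p q s hd hv hv1 hu h ih =>
      rintro u v rfl rfl
      have hv0 : v ≠ 0 := fun h' => hv (by rw [h', map_zero])
      have e : j u / j v = j (u / v) := by
        rw [map_div₀]
      rw [hj v hv0]
      refine Res.right u v p q s (fun h' => hd ((ResMap_done hj u v p q).2 h')) hv0 ?_ ?_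
        (ih (u / v) v e rfl)
      · rw [← hj v hv0]
        exact hv1
      · rcases hu with h1 | h1
        · exact Or.inl ((map_eq_zero j).1 h1)
        · by_cases hu0 : u = 0
          · exact Or.inl hu0
          · rw [hj u hu0, hj v hv0] at h1
            exact Or.inr h1
  exact main _ _ _ _ _ h u v rfl rfl

theorem ResMap_const {f : M} {c c' : ℂ} (h : Pos (fun f : M => f.order) (f - algebraMap ℂ M c))
    (h' : Pos (fun f : M => f.order) (f - algebraMap ℂ M c')) : c = c' := by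
  have key : ∀ c : ℂ, Pos (fun f : M => f.order) (f - algebraMap ℂ M c) → f.coeff 0 = c := by
    intro c h
    have h1 : (f - algebraMap ℂ M c).coeff 0 = 0 := by
      rcases h with h | h
      · rw [h]
        rfl
      · exact HahnSeries.coeff_eq_zero_of_lt_order h
    rw [HahnSeries.coeff_sub, coeff_algebraMap, if_pos rfl] at h1
    exact sub_eq_zero.1 h1
  rw [← key c h, ← key c' h']

/-- the orders determine the result: `Res` is deterministic for the order of Laurent series -/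
theorem res_unique (u v : M) (p q : Bool) (s s' : ℤ)
    (h : Res (fun f : M => f.order) u v p q s) (h' : Res (fun f : M => f.order) u v p q s') :
    s = s' := by
  induction h generalizing s' with
  | fin u v p q hu hv hd =>
    cases h' with
    | fin _ _ _ _ _ _ _ => rfl
    | left _ _ _ _ q' c s hd' => exact absurd hd hd'
    | right _ _ _ _ s hd' => exact absurd hd hd'
  | left u v p q q' c s hd hu hu1 hv hc hq h ih =>
    cases h' with
    | fin _ _ _ _ _ _ hd' => exact absurd hd' hd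
    | left _ _ _ _ q'' c' s'' hd' hu' hu1' hv' hc' hq' h'' =>
      have e : c = c' := ResMap_const hc hc'
      subst e
      have e : q' = q'' := by
        rw [Bool.eq_iff_iff, hq, hq']
      subst e
      rw [ih _ h'']
    | right _ _ _ _ s'' hd' hv' hv1' hu' h'' =>
      exfalso
      rcases hu' with h1 | h1
      · exact hu h1
      · rcases hv with h2 | h2
        · exact hv' h2
        · exact absurd h1 (not_lt.2 h2)
  | right u v p q s hd hv hv1 hu h ih =>
    cases h' with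
    | fin _ _ _ _ _ _ hd' => exact absurd hd' hd
    | left _ _ _ _ q'' c' s'' hd' hu' hu1' hv' hc' hq' h'' =>
      exfalso
      rcases hu with h1 | h1
      · exact hu' h1
      · rcases hv' with h2 | h2
        · exact hv h2
        · exact absurd h1 (not_lt.2 h2)
    | right _ _ _ _ s'' hd' hv' hv1' hu' h'' =>
      rw [ih _ h'']

namespace Cur

variable {S : Cur}

theorem ResMap_nz {τ : M} (h : ∀ p : ℂ[X], p ≠ 0 → aeval τ p ≠ 0) :
    nonZeroDivisors ℂ[X] ≤ (nonZeroDivisors M).comap (aeval τ : ℂ[X] →ₐ[ℂ] M) := by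
  intro p hp
  rw [Submonoid.mem_comap, mem_nonZeroDivisors_iff_ne_zero]
  exact h p (nonZeroDivisors.ne_zero hp)

theorem ResMap_root {P : Option ℂ} {N : ℕ} {τ : M} (hτ : τ ∈ S.sh P N) :
    aeval τ (S.al P) = sp N * aeval τ (S.be P) := by
  classical
  unfold Cur.sh at hτ
  rw [Multiset.mem_toFinset] at hτ
  have h1 := (mem_roots'.1 hτ).2
  unfold Cur.shp at h1
  rw [IsRoot.def, eval_sub, eval_mul, eval_C, eval_map_algebraMap, eval_map_algebraMap] at h1
  exact sub_eq_zero.1 h1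

theorem ResMap_cen {τ : M} {t : ℂ} (ht : cen τ = some t) : Ge τ 0 ∧ τ.coeff 0 = t := by
  unfold cen at ht
  split_ifs at ht with h
  exact ⟨h, Option.some.inj ht⟩

theorem res_fin {v t : ℂ} {N : ℕ} (hN : 0 < N) (he : S.e (some v) t = N) {τ : M}
    (hτ : τ ∈ S.sh (some v) N) (ht : cen τ = some t) {s : ℤ}
    (h : Res (fun f : M => f.order) (sp N)
      (S.y (some v) τ - algebraMap ℂ M ((S.y (some v) τ).coeff 0)) false false s) :
    BrAt ![S.a, S.b, S.c] t s := by
  obtain ⟨hroot, hbe, k, hk, hNk, -, hne, hord⟩ := loc_fin hN hτ ht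
  obtain ⟨hG, hc0⟩ := ResMap_cen ht
  have hk1 : k = 1 := by
    rw [he] at hNk
    exact (Nat.eq_of_mul_eq_mul_left hN (by rw [mul_one]; exact hNk)).symm
  rw [hk1] at hord
  have hne' : τ - algebraMap ℂ M (τ.coeff 0) ≠ 0 := by
    rw [hc0]
    exact hne
  have hnz : ∀ p : ℂ[X], p ≠ 0 → aeval τ p ≠ 0 := fun p hp => (ord_aeval hG hne' hp).1
  have hordp : ∀ p : ℂ[X], p ≠ 0 → (aeval τ p).order = rootMultiplicity t p := by
    intro p hp
    rw [(ord_aeval hG hne' hp).2, hc0, hord]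
    simp
  set j : RatFunc ℂ →ₐ[ℂ] M := RatFunc.liftAlgHom (aeval τ) (ResMap_nz hnz) with hjdef
  have hj : ∀ f : RatFunc ℂ, f ≠ 0 → (j f).order = ordAt t f := by
    intro f hf
    rw [hjdef, RatFunc.liftAlgHom_apply]
    have h1 : f.num ≠ 0 := RatFunc.num_ne_zero hf
    have h2 : f.denom ≠ 0 := RatFunc.denom_ne_zero f
    rw [ord_div (hnz _ h1) (hnz _ h2), hordp _ h1, hordp _ h2]
    rfl
  have hy0 := (y_fin hN hτ ht).2
  have hb : S.b.eval t ≠ 0 := hbe
  have hb0 : S.b ≠ 0 := by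
    rintro h0
    rw [h0, eval_zero] at hb
    exact hb rfl
  have hbτ := hnz _ hb0
  set y₀ : ℂ := (S.y (some v) τ).coeff 0 with hy0def
  refine ⟨!![1, -v, 0; 0, -y₀, 1; 0, 1, 0], ?_, ?_, ?_, ?_⟩
  · rw [Matrix.det_fin_three]
    simp
  · have h1 : S.a.eval t - v * S.b.eval t = 0 := by
      have h2 := hroot
      unfold Cur.al at h2
      rw [IsRoot.def, eval_sub, eval_mul, eval_C] at h2
      exact h2
    rw [Fin.sum_univ_three]
    simp
    linear_combination h1
  · have h1 : y₀ * S.b.eval t = S.c.eval t := by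
      rw [hy0]
      exact div_mul_cancel₀ _ hb
    rw [Fin.sum_univ_three]
    simp
    linear_combination -h1
  · have e0 : ∀ w : Fin 3 → ℂ, lin w ![S.a, S.b, S.c] =
        algebraMap ℂ[X] (RatFunc ℂ) (C (w 0) * S.a + C (w 1) * S.b + C (w 2) * S.c) := by
      intro w
      unfold lin
      rw [Fin.sum_univ_three]
      rfl
    apply res_map (ordAt t) (fun f : M => f.order) j hj
    rw [e0, e0, e0, hjdef, RatFunc.liftAlgHom_apply_div, RatFunc.liftAlgHom_apply_div]
    have e1 : (aeval τ : ℂ[X] →ₐ[ℂ] M) (C (!![1, -v, 0; 0, -y₀, 1; 0, 1, 0] 0 0) * S.a +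
        C (!![1, -v, 0; 0, -y₀, 1; 0, 1, 0] 0 1) * S.b +
        C (!![1, -v, 0; 0, -y₀, 1; 0, 1, 0] 0 2) * S.c) = sp N * aeval τ S.b := by
      have h1 := ResMap_root hτ
      unfold Cur.al Cur.be at h1
      rw [← h1]
      congr 1
      simp
      ring
    have e2 : (aeval τ : ℂ[X] →ₐ[ℂ] M) (C (!![1, -v, 0; 0, -y₀, 1; 0, 1, 0] 2 0) * S.a +
        C (!![1, -v, 0; 0, -y₀, 1; 0, 1, 0] 2 1) * S.b +
        C (!![1, -v, 0; 0, -y₀, 1; 0, 1, 0] 2 2) * S.c) = aeval τ S.b := by
      congr 1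
      simp
    have e3 : (aeval τ : ℂ[X] →ₐ[ℂ] M) (C (!![1, -v, 0; 0, -y₀, 1; 0, 1, 0] 1 0) * S.a +
        C (!![1, -v, 0; 0, -y₀, 1; 0, 1, 0] 1 1) * S.b +
        C (!![1, -v, 0; 0, -y₀, 1; 0, 1, 0] 1 2) * S.c) =
        aeval τ S.c - algebraMap ℂ M y₀ * aeval τ S.b := by
      have h2 : C (!![1, -v, 0; 0, -y₀, 1; 0, 1, 0] 1 0) * S.a +
        C (!![1, -v, 0; 0, -y₀, 1; 0, 1, 0] 1 1) * S.b +
        C (!![1, -v, 0; 0, -y₀, 1; 0, 1, 0] 1 2) * S.c = S.c - C y₀ * S.b := by
        simp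
        ring
      rw [h2, map_sub, map_mul, aeval_C]
    rw [e1, e2, e3, mul_div_cancel_right₀ _ hbτ, sub_div, mul_div_cancel_right₀ _ hbτ]
    exact h

theorem res_inf {N : ℕ} (hN : 0 < N) (he : S.n - S.k = N) {τ : M} (hτ : τ ∈ S.sh none N)
    (ht : cen τ = none) {s : ℤ}
    (h : Res (fun f : M => f.order) (1 / S.y none τ) (sp N / S.y none τ) false false s) :
    BrInf ![S.a, S.b, S.c] (S.n + S.m) s := by
  obtain ⟨-, k, hk, hNk, hne, hord⟩ := loc_inf hN hτ ht
  have hG : ¬ Ge τ 0 := by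
    intro hG
    unfold cen at ht
    rw [if_pos hG] at ht
    exact absurd ht (by simp)
  have hk1 : k = 1 := by
    rw [he] at hNk
    exact (Nat.eq_of_mul_eq_mul_left hN (by rw [mul_one]; exact hNk)).symm
  rw [hk1] at hord
  have hnz : ∀ p : ℂ[X], p ≠ 0 → aeval τ p ≠ 0 := fun p hp => (ord_aeval_inf hG hp).1
  have hordp : ∀ p : ℂ[X], p ≠ 0 → (aeval τ p).order = -(p.natDegree : ℤ) := by
    intro p hp
    rw [(ord_aeval_inf hG hp).2, hord]
    simp
  set j : RatFunc ℂ →ₐ[ℂ] M := RatFunc.liftAlgHom (aeval τ) (ResMap_nz hnz) with hjdef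
  have hj : ∀ f : RatFunc ℂ, f ≠ 0 → (j f).order = ordInf f := by
    intro f hf
    rw [hjdef, RatFunc.liftAlgHom_apply]
    have h1 : f.num ≠ 0 := RatFunc.num_ne_zero hf
    have h2 : f.denom ≠ 0 := RatFunc.denom_ne_zero f
    rw [ord_div (hnz _ h1) (hnz _ h2), hordp _ h1, hordp _ h2]
    unfold ordInf
    ring
  have ha0 : S.a ≠ 0 := by
    intro h0
    have h1 := S.ha
    rw [h0, natDegree_zero] at h1
    have := S.hkn
    omega
  have haτ := hnz _ ha0
  refine ⟨1, ?_, ?_, ?_, ?_⟩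
  · rw [Matrix.det_one]
    exact one_ne_zero
  · rw [Fin.sum_univ_three]
    have h1 : S.a.coeff (S.n + S.m) = 0 := by
      apply coeff_eq_zero_of_natDegree_lt
      rw [S.ha]
      have := S.hm
      omega
    simp [h1]
  · rw [Fin.sum_univ_three]
    have h1 : S.b.coeff (S.n + S.m) = 0 := by
      apply coeff_eq_zero_of_natDegree_lt
      rw [S.hb]
      have := S.hkn
      omega
    simp [h1]
  · have e0 : ∀ w : Fin 3 → ℂ, lin w ![S.a, S.b, S.c] =
        algebraMap ℂ[X] (RatFunc ℂ) (C (w 0) * S.a + C (w 1) * S.b + C (w 2) * S.c) := by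
      intro w
      unfold lin
      rw [Fin.sum_univ_three]
      rfl
    apply res_map ordInf (fun f : M => f.order) j hj
    rw [e0, e0, e0, hjdef, RatFunc.liftAlgHom_apply_div, RatFunc.liftAlgHom_apply_div]
    have e1 : C ((1 : Matrix (Fin 3) (Fin 3) ℂ) 0 0) * S.a +
        C ((1 : Matrix (Fin 3) (Fin 3) ℂ) 0 1) * S.b +
        C ((1 : Matrix (Fin 3) (Fin 3) ℂ) 0 2) * S.c = S.a := by
      simp
    have e2 : C ((1 : Matrix (Fin 3) (Fin 3) ℂ) 1 0) * S.a +
        C ((1 : Matrix (Fin 3) (Fin 3) ℂ) 1 1) * S.b +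
        C ((1 : Matrix (Fin 3) (Fin 3) ℂ) 1 2) * S.c = S.b := by
      simp
    have e3 : C ((1 : Matrix (Fin 3) (Fin 3) ℂ) 2 0) * S.a +
        C ((1 : Matrix (Fin 3) (Fin 3) ℂ) 2 1) * S.b +
        C ((1 : Matrix (Fin 3) (Fin 3) ℂ) 2 2) * S.c = S.c := by
      simp
    rw [e1, e2, e3]
    have hroot : aeval τ S.b = sp N * aeval τ S.a := ResMap_root hτ
    have hy : S.y none τ = aeval τ S.c / aeval τ S.a := rfl
    have e4 : (aeval τ : ℂ[X] →ₐ[ℂ] M) S.a / aeval τ S.c = 1 / S.y none τ := by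
      rw [hy, one_div_div]
    have e5 : (aeval τ : ℂ[X] →ₐ[ℂ] M) S.b / aeval τ S.c = sp N / S.y none τ := by
      rw [hy, hroot, div_div_eq_mul_div]
    rw [e4, e5]
    exact h

end Cur

end WR
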