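import Pool.Agent.helper51.WR.Fine23
import Pool.Agent.helper51.WR.Fine4
import Pool.Agent.helper51.WR.Gen
import Pool.Agent.helper51.WR.ResMap
import Pool.Agent.helper51.WR.ResA
import Pool.Agent.helper51.WR.ResB

/-!
# WR-Final: assembly

`gen`: `k = 1` and `e = n` somewhere. `n_le_four`, `data2`, `data3`, `data4`, then `res_fin`, `res_inf` with
`resF2`, `resF3`, `resF4`, `resI2`, `resI3`, `resI4` (the series is `y τ` minus its constant term, `y_fin`; the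
sheet at infinity by `y_inf`). Sums: `n = 2`: `(2m-3) + l₁ + l₂ = 3(m+2-3)`; `n = 3`:
`(4K-2) + (2K+1) + 1 = 3(2K+3-3)`; `n = 4`: `(6K-1) + (3K+3) + 1 = 3(3K+4-3)`.
-/

namespace WR

open Polynomial

namespace Cur

/-- the series without its constant term -/
theorem Final_sub {f : M} (hf : Ge f 0) : Ge (f - algebraMap ℂ M (f.coeff 0)) 1 ∧
    ∀ l : ℤ, l ≠ 0 → (f - algebraMap ℂ M (f.coeff 0)).coeff l = f.coeff l := by
  have h : ∀ l : ℤ, (f - algebraMap ℂ M (f.coeff 0)).coeff l =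
      f.coeff l - if l = 0 then f.coeff 0 else 0 := by
    intro l
    rw [HahnSeries.coeff_sub, coeff_algebraMap]
  refine ⟨fun l hl => ?_, fun l hl => ?_⟩
  · rw [h]
    by_cases h0 : l = 0
    · rw [if_pos h0, h0, sub_self]
    · rw [if_neg h0, sub_zero]
      exact hf l (by omega)
  · rw [h, if_neg hl, sub_zero]

theorem Final_two {S : Cur} {v t : ℂ} (he : S.e (some v) t = 2) (l : ℕ) (hl : 1 ≤ l)
    (h : ∃ τ ∈ S.sh (some v) 2, cen τ = some t ∧ (S.y (some v) τ).coeff (2 * l + 1) ≠ 0 ∧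
        ∀ i : ℤ, i < 2 * l + 1 → ¬ (2 : ℤ) ∣ i → (S.y (some v) τ).coeff i = 0) :
    BrAt ![S.a, S.b, S.c] t l := by
  obtain ⟨τ, hτ, ht, h1, h2⟩ := h
  have h3 := y_fin two_pos hτ ht
  obtain ⟨h4, h5⟩ := Final_sub h3.1
  refine res_fin two_pos he hτ ht (resF2 _ l hl h4 (fun i hi hd => ?_) ?_)
  · rw [h5 i (by rintro rfl; exact hd (dvd_zero 2))]
    exact h2 i hi hd
  · rw [h5 _ (by omega)]
    exact h1

theorem Final_three {S : Cur} {v t : ℂ} (he : S.e (some v) t = 3) (K : ℕ) (hK : 1 ≤ K)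
    (h : ∃ τ ∈ S.sh (some v) 3, cen τ = some t ∧ (S.y (some v) τ).coeff (3 * K + 1) ≠ 0 ∧
        ∀ i : ℤ, i < 3 * K + 1 → ¬ (3 : ℤ) ∣ i → (S.y (some v) τ).coeff i = 0) :
    BrAt ![S.a, S.b, S.c] t (2 * K + 1) := by
  obtain ⟨τ, hτ, ht, h1, h2⟩ := h
  have h3 := y_fin three_pos hτ ht
  obtain ⟨h4, h5⟩ := Final_sub h3.1
  refine res_fin three_pos he hτ ht (resF3 _ K hK h4 (fun i hi hd => ?_) ?_)
  · rw [h5 i (by rintro rfl; exact hd (dvd_zero 3))]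
    exact h2 i hi hd
  · rw [h5 _ (by omega)]
    exact h1

theorem Final_four {S : Cur} {v t : ℂ} (he : S.e (some v) t = 4) (K : ℕ) (hK : 1 ≤ K)
    (h : ∃ τ ∈ S.sh (some v) 4, cen τ = some t ∧ (S.y (some v) τ).coeff (4 * K + 2) ≠ 0 ∧
        (S.y (some v) τ).coeff (4 * K + 3) ≠ 0 ∧
        ∀ i : ℤ, i < 4 * K + 2 → ¬ (4 : ℤ) ∣ i → (S.y (some v) τ).coeff i = 0) :
    BrAt ![S.a, S.b, S.c] t (3 * K + 3) := by
  obtain ⟨τ, hτ, ht, h1, h1', h2⟩ := h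
  have h3 := y_fin four_pos hτ ht
  obtain ⟨h4, h5⟩ := Final_sub h3.1
  refine res_fin four_pos he hτ ht (resF4 _ K hK h4 (fun i hi hd => ?_) ?_ ?_)
  · rw [h5 i (by rintro rfl; exact hd (dvd_zero 4))]
    exact h2 i hi hd
  · rw [h5 _ (by omega)]
    exact h1
  · rw [h5 _ (by omega)]
    exact h1'

/-- the cusp with the exponent `3` -/
theorem Final_cusp {S : Cur} {v t : ℂ} (he : S.e (some v) t = 2)
    (h : ∃ τ ∈ S.sh (some v) 2, cen τ = some t ∧ (S.y (some v) τ).coeff 3 ≠ 0 ∧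
        ∀ i : ℤ, i < 3 → ¬ (2 : ℤ) ∣ i → (S.y (some v) τ).coeff i = 0) :
    BrAt ![S.a, S.b, S.c] t 1 := by
  have e : (2 * ((1 : ℕ) : ℤ) + 1) = 3 := by norm_num
  have h1 := Final_two he 1 le_rfl (by rw [e]; exact h)
  exact_mod_cast h1

theorem final (S : Cur) (hm : 3 * (S.n - 1) * (S.n - 2) < S.m)
    (h2 : ∃ t t' : ℂ, t ≠ t' ∧ S.IsCusp t ∧ S.IsCusp t') :
    ∃ (t₁ t₂ : ℂ) (s₀ s₁ s₂ : ℤ), t₁ ≠ t₂ ∧ (∀ t, S.IsCusp t ↔ t = t₁ ∨ t = t₂) ∧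
      BrInf ![S.a, S.b, S.c] (S.n + S.m) s₀ ∧ BrAt ![S.a, S.b, S.c] t₁ s₁ ∧
      BrAt ![S.a, S.b, S.c] t₂ s₂ ∧ 9 - 3 * ((S.n : ℤ) + S.m) + (s₀ + s₁ + s₂) = 0 ∧
      ((S.n = 2 ∧ s₀ = 2 * S.m - 3 ∧ 1 ≤ s₁ ∧ 1 ≤ s₂ ∧ s₁ + s₂ = S.m) ∨
       (∃ K : ℕ, S.n = 3 ∧ S.m = 2 * K ∧ s₀ = 4 * K - 2 ∧ s₁ = 2 * K + 1 ∧ s₂ = 1) ∨
       (∃ K : ℕ, S.n = 4 ∧ S.m = 3 * K ∧ s₀ = 6 * K - 1 ∧ s₁ = 3 * K + 3 ∧ s₂ = 1)) := by
  obtain h0 | ⟨hk, v₁, t₁, he⟩ := gen S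
  · omega
  have hn4 := n_le_four S hk he h2
  have hn2 := S.hkn
  have hm2 := S.hm
  obtain hn | hn | hn : S.n = 2 ∨ S.n = 3 ∨ S.n = 4 := by omega
  · obtain ⟨v₂, t₂, l₁, l₂, hne, hc, he₂, hl₁, hl₂, hl, hb₁, hb₂, τ, hτ, ht⟩ := data2 S hn hk he h2
    obtain ⟨hy, ho⟩ := y_inf one_pos hτ ht
    have ho' : (S.y none τ).order = -(S.m : ℤ) := by
      rw [hn, hk] at ho
      push_cast at ho
      linarith
    refine ⟨t₁, t₂, 2 * S.m - 3, l₁, l₂, hne.symm, hc,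
      res_inf one_pos (by omega) hτ ht (resI2 _ S.m hm2 hy ho'),
      Final_two (he.trans hn) l₁ hl₁ hb₁, Final_two he₂ l₂ hl₂ hb₂, ?_,
      Or.inl ⟨hn, rfl, by exact_mod_cast hl₁, by exact_mod_cast hl₂, by exact_mod_cast hl⟩⟩
    have hn' : (S.n : ℤ) = 2 := by exact_mod_cast hn
    have hl' : (l₁ : ℤ) + l₂ = S.m := by exact_mod_cast hl
    rw [hn']
    linarith
  · obtain ⟨v₂, t₂, K, hne, hc, he₂, hK, hmK, hb₁, hb₂, τ, hτ, ht, h1⟩ := data3 S hn hk he h2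
    obtain ⟨hy, ho⟩ := y_inf two_pos hτ ht
    have ho' : (S.y none τ).order = -(2 * K : ℤ) := by
      rw [hn, hk, hmK] at ho
      push_cast at ho
      linarith
    refine ⟨t₁, t₂, 4 * K - 2, 2 * K + 1, 1, hne.symm, hc,
      res_inf two_pos (by omega) hτ ht (resI3 _ K hK hy ho' h1),
      Final_three (he.trans hn) K hK hb₁, Final_cusp he₂ hb₂, ?_,
      Or.inr (Or.inl ⟨K, hn, hmK, rfl, rfl, rfl⟩)⟩
    have hn' : (S.n : ℤ) = 3 := by exact_mod_cast hn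
    have hm' : (S.m : ℤ) = 2 * K := by exact_mod_cast hmK
    rw [hn', hm']
    ring
  · obtain ⟨v₂, t₂, K, hne, hc, he₂, hK, hmK, hb₁, hb₂, τ, hτ, ht, h1⟩ := data4 S hn hk he h2
    obtain ⟨hy, ho⟩ := y_inf three_pos hτ ht
    have ho' : (S.y none τ).order = -(3 * K : ℤ) := by
      rw [hn, hk, hmK] at ho
      push_cast at ho
      linarith
    refine ⟨t₁, t₂, 6 * K - 1, 3 * K + 3, 1, hne.symm, hc,
      res_inf three_pos (by omega) hτ ht (resI4 _ K hK hy ho' h1),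
      Final_four (he.trans hn) K hK hb₁, Final_cusp he₂ hb₂, ?_,
      Or.inr (Or.inr ⟨K, hn, hmK, rfl, rfl, rfl⟩)⟩
    have hn' : (S.n : ℤ) = 4 := by exact_mod_cast hn
    have hm' : (S.m : ℤ) = 3 * K := by exact_mod_cast hmK
    rw [hn', hm']
    ring

end Cur

end WR
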