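import Pool.Agent.helper51.WR.PlC
import Pool.Agent.helper51.WR.Glob

/-!
# WR-GenC: the general inequality with the largest ramification index

`E = e_t₁` is the largest ramification index over the finite places, `f ≤ n - E`, `f ≤ k`, `f ≤ n - k`. `F2c` at
`v₁`, `F1c` at the other finite places, `I1c` at infinity, `glob`, and Riemann-Hurwitz:
`m (f (n+k-1) + k(k-1)) + f n (n-1) ≤ 3 (n-1)(n-2)(n+k-E)`.
-/

namespace WR

open Polynomial

namespace Cur

/-- the ramification outside of the place `v₁` -/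
theorem ram_le_E (S : Cur) {v₁ t₁ : ℂ} {E : ℕ} (he : S.e (some v₁) t₁ = E) (hE : 1 ≤ E)
    (V : Finset ℂ) (hv : v₁ ∉ V) :
    ∑ v ∈ V, S.Ram (some v) + S.Ram none + E ≤ S.n + S.k := by
  classical
  have hkn := S.hkn
  have hk := S.hk
  have h1 := S.ram_le (insert v₁ V)
  rw [Finset.sum_insert hv] at h1
  have ht : (S.al (some v₁)).IsRoot t₁ := by
    have h2 : 0 < rootMultiplicity t₁ (S.al (some v₁)) := by
      have : rootMultiplicity t₁ (S.al (some v₁)) = E := he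
      omega
    exact (rootMultiplicity_pos (RH_al_ne S _)).1 h2
  have h3 : E - 1 ≤ S.Ram (some v₁) := by
    unfold Ram
    rw [← he]
    exact Finset.single_le_sum (f := fun t => S.e (some v₁) t - 1) (fun _ _ => Nat.zero_le _)
      ((RH_mem S _ _).2 ht)
  omega

theorem genC (S : Cur) {v₁ t₁ : ℂ} {E f : ℕ} (he : S.e (some v₁) t₁ = E) (hE1 : 1 ≤ E)
    (hE : ∀ v t : ℂ, S.e (some v) t ≤ E) (hfE : f + E ≤ S.n) (hfk : f ≤ S.k) (hfn : f + S.k ≤ S.n) :
    (S.m : ℚ) * (f * ((S.n : ℚ) + S.k - 1) + S.k * (S.k - 1)) + f * (S.n * (S.n - 1)) ≤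
      3 * ((S.n : ℚ) - 1) * (S.n - 2) * (S.n + S.k - E) := by
  classical
  have hN : ∀ P, S.Adm P (Nat.factorial S.n) := fun P => S.adm_factorial P
  obtain ⟨c₃, hc, V₀, hV⟩ := S.glob (fun _ => Nat.factorial S.n) hN
  obtain ⟨g2, g3⟩ := hV (insert v₁ (V₀.erase v₁)) (by
    intro x hx
    by_cases hxv : x = v₁
    · rw [hxv]
      exact Finset.mem_insert_self _ _
    · exact Finset.mem_insert_of_mem (Finset.mem_erase.2 ⟨hxv, hx⟩))
  rw [Finset.sum_insert (Finset.notMem_erase _ _)] at g2 g3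
  have hkn := S.hkn
  have hk := S.hk
  have hI := I1c (hN none) hfk hfn
  rw [hc none] at hI
  have hle : ∀ v t : ℂ, S.e (some v) t + f ≤ S.n := fun v t => by
    have := hE v t
    omega
  have hF2 := F2c (hN (some v₁)) (hle v₁)
  rw [hc (some v₁)] at hF2
  have hF := Finset.sum_le_sum (s := V₀.erase v₁) fun v _ => F1c (hN (some v)) (hle v)
  rw [Finset.sum_sub_distrib, ← Finset.mul_sum, ← Finset.mul_sum] at hF
  have hR := S.ram_le_E he hE1 (V₀.erase v₁) (Finset.notMem_erase _ _)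
  have hR' : ∑ v ∈ V₀.erase v₁, (S.Ram (some v) : ℚ) + S.Ram none + E ≤ S.n + S.k := by
    exact_mod_cast hR
  have n2 : (2 : ℚ) ≤ S.n := by
    have : 2 ≤ S.n := by omega
    exact_mod_cast this
  set n : ℚ := (S.n : ℚ) with hn
  set k : ℚ := (S.k : ℚ) with hkk
  set m : ℚ := (S.m : ℚ) with hmm
  set A2 : ℚ := ∑ v ∈ V₀.erase v₁, S.S2 (some v) (Nat.factorial S.n)
  set B2 : ℚ := S.S2 none (Nat.factorial S.n)
  set C2 : ℚ := S.S2 (some v₁) (Nat.factorial S.n)
  set A3 : ℚ := ∑ v ∈ V₀.erase v₁, S.S3 (some v) (Nat.factorial S.n)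
  set B3 : ℚ := S.S3 none (Nat.factorial S.n)
  set C3 : ℚ := S.S3 (some v₁) (Nat.factorial S.n)
  set AR : ℚ := ∑ v ∈ V₀.erase v₁, (S.Ram (some v) : ℚ)
  set BR : ℚ := (S.Ram none : ℚ)
  have hD : 0 ≤ 3 * (n - 1) * (n - 2) := by nlinarith
  have e1 : (2 * (n - 2) + f) * C2 + (2 * (n - 2) + f) * A2 + (2 * (n - 2) + f) * B2 =
      (2 * (n - 2) + f) * (n * (n - 1)) := by
    rw [← mul_add, ← mul_add, g2]
  have e2 : 3 * (n - 1) * (n - 2) * AR + 3 * (n - 1) * (n - 2) * BR ≤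
      3 * (n - 1) * (n - 2) * (n + k - E) := by
    rw [← mul_add]
    exact mul_le_mul_of_nonneg_left (by linarith) hD
  nlinarith

end Cur

end WR
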