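import Pool.Agent.helper51.WR.Final
import Pool.Agent.helper51.WR.GenC

/-!
# WR-FinalC: assembly without a bound for `m`

The conclusion of `final` from `k = 1` and a totally ramified finite place; `finalC` with the hypothesis in terms
of `k` and `E`.
-/

namespace WR

open Polynomial

namespace Cur

theorem final_tot (S : Cur) (hk : S.k = 1) {v₁ t₁ : ℂ} (he : S.e (some v₁) t₁ = S.n)
    (h2 : ∃ t t' : ℂ, t ≠ t' ∧ S.IsCusp t ∧ S.IsCusp t') :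
    ∃ (t₁ t₂ : ℂ) (s₀ s₁ s₂ : ℤ), t₁ ≠ t₂ ∧ (∀ t, S.IsCusp t ↔ t = t₁ ∨ t = t₂) ∧
      BrInf ![S.a, S.b, S.c] (S.n + S.m) s₀ ∧ BrAt ![S.a, S.b, S.c] t₁ s₁ ∧
      BrAt ![S.a, S.b, S.c] t₂ s₂ ∧ 9 - 3 * ((S.n : ℤ) + S.m) + (s₀ + s₁ + s₂) = 0 ∧
      ((S.n = 2 ∧ s₀ = 2 * S.m - 3 ∧ 1 ≤ s₁ ∧ 1 ≤ s₂ ∧ s₁ + s₂ = S.m) ∨
       (∃ K : ℕ, S.n = 3 ∧ S.m = 2 * K ∧ s₀ = 4 * K - 2 ∧ s₁ = 2 * K + 1 ∧ s₂ = 1) ∨
       (∃ K : ℕ, S.n = 4 ∧ S.m = 3 * K ∧ s₀ = 6 * K - 1 ∧ s₁ = 3 * K + 3 ∧ s₂ = 1)) := by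
  have hn4 := n_le_four S hk he h2
  have hn2 := S.hkn
  have hm2 := S.hm
  obtain hn | hn | hn : S.n = 2 ∨ S.n = 3 ∨ S.n = 4 := by omega
  · obtain ⟨v₂, t₂, l₁, l₂, hne, hc, he₂, hl₁, hl₂, hl, hb₁, hb₂, τ, hτ, ht⟩ := data2 S hn hk he h2
    obtain ⟨hy, ho⟩ := y_inf one_pos hτ ht
    have ho' : (S.y none τ).order = -(S.m : ℤ) := by
      rw [hn, hk] at ho
      push_cast at ho
      linarith
    refine ⟨t₁, t₂, 2 * S.m - 3, l₁, l₂, hne.symm, hc,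
      res_inf one_pos (by omega) hτ ht (resI2 _ S.m hm2 hy ho'),
      Final_two (he.trans hn) l₁ hl₁ hb₁, Final_two he₂ l₂ hl₂ hb₂, ?_,
      Or.inl ⟨hn, rfl, by exact_mod_cast hl₁, by exact_mod_cast hl₂, by exact_mod_cast hl⟩⟩
    have hn' : (S.n : ℤ) = 2 := by exact_mod_cast hn
    have hl' : (l₁ : ℤ) + l₂ = S.m := by exact_mod_cast hl
    rw [hn']
    linarith
  · obtain ⟨v₂, t₂, K, hne, hc, he₂, hK, hmK, hb₁, hb₂, τ, hτ, ht, h1⟩ := data3 S hn hk he h2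
    obtain ⟨hy, ho⟩ := y_inf two_pos hτ ht
    have ho' : (S.y none τ).order = -(2 * K : ℤ) := by
      rw [hn, hk, hmK] at ho
      push_cast at ho
      linarith
    refine ⟨t₁, t₂, 4 * K - 2, 2 * K + 1, 1, hne.symm, hc,
      res_inf two_pos (by omega) hτ ht (resI3 _ K hK hy ho' h1),
      Final_three (he.trans hn) K hK hb₁, Final_cusp he₂ hb₂, ?_,
      Or.inr (Or.inl ⟨K, hn, hmK, rfl, rfl, rfl⟩)⟩
    have hn' : (S.n : ℤ) = 3 := by exact_mod_cast hn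
    have hm' : (S.m : ℤ) = 2 * K := by exact_mod_cast hmK
    rw [hn', hm']
    ring
  · obtain ⟨v₂, t₂, K, hne, hc, he₂, hK, hmK, hb₁, hb₂, τ, hτ, ht, h1⟩ := data4 S hn hk he h2
    obtain ⟨hy, ho⟩ := y_inf three_pos hτ ht
    have ho' : (S.y none τ).order = -(3 * K : ℤ) := by
      rw [hn, hk, hmK] at ho
      push_cast at ho
      linarith
    refine ⟨t₁, t₂, 6 * K - 1, 3 * K + 3, 1, hne.symm, hc,
      res_inf three_pos (by omega) hτ ht (resI4 _ K hK hy ho' h1),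
      Final_four (he.trans hn) K hK hb₁, Final_cusp he₂ hb₂, ?_,
      Or.inr (Or.inr ⟨K, hn, hmK, rfl, rfl, rfl⟩)⟩
    have hn' : (S.n : ℤ) = 4 := by exact_mod_cast hn
    have hm' : (S.m : ℤ) = 3 * K := by exact_mod_cast hmK
    rw [hn', hm']
    ring

end Cur

end WR
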