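import Pool.Agent.helper51.WR.Emb
import Pool.Agent.helper51.WR.Rho

/-!
# WR-GlobA: local orders of the products

`ι` maps `rt` bijectively (injective ring homomorphism of fields) to `sh P N` and commutes with `y`, `g`, `W`
(rational expressions over `ℂ`). At finite places `y (some 0) = y (some v)`, `W (some 0) = W (some v)` on all
elements (`jac` and `num` agree). At infinity: for `τ ∈ sh none N`: `b(τ) = s^N a(τ)`,
`y (some 0) τ = s^(-N) y none τ`, `g (some 0) τ = y none τ - s^N g none τ` (`jac ≠ 0`),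
`W (some 0) = - W none` (`W_inf`).
-/

namespace WR

open Polynomial

namespace Cur

variable {S : Cur}

theorem GlobA_jac_some (S : Cur) (v : ℂ) : S.jac (some v) = S.jac (some 0) := by
  simp only [jac, al, be, derivative_sub, derivative_C_mul]
  ring

theorem GlobA_g_some (v : ℂ) {F : Type} [Field F] [Algebra ℂ F] (τ : F) :
    S.g (some v) τ = S.g (some 0) τ := by
  unfold g
  rw [GlobA_jac_some S v]
  rfl

theorem y_some (v : ℂ) {F : Type} [Field F] [Algebra ℂ F] (τ : F) :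
    S.y (some v) τ = S.y (some 0) τ := by
  rfl

theorem W_some (v : ℂ) {F : Type} [Field F] [Algebra ℂ F] (τ₁ τ₂ τ₃ : F) :
    S.W (some v) τ₁ τ₂ τ₃ = S.W (some 0) τ₁ τ₂ τ₃ := by
  unfold W
  simp only [y_some v, GlobA_g_some v]

theorem GlobA_sp_neg (N : ℤ) : sp (-N) = (sp N)⁻¹ := by
  have h : sp (-N) * sp N = 1 := by
    rw [← sp_add, neg_add_cancel, sp_zero]
  exact eq_inv_of_mul_eq_one_left h

theorem y_none {N : ℕ} (hN : 0 < N) {τ : M} (hτ : τ ∈ S.sh none N) :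
    S.y (some 0) τ = sp (-(N : ℤ)) * S.y none τ := by
  have h := (S.mem_sh none hN τ).1 hτ
  have hs : sp (N : ℤ) ≠ 0 := sp_ne _
  rw [GlobA_sp_neg]
  simp only [y, be, al] at h ⊢
  rw [h]
  by_cases hA : aeval τ S.a = 0
  · rw [hA]; simp
  · field_simp

theorem GlobA_g_none {N : ℕ} (hN : 0 < N) {τ : M} (hτ : τ ∈ S.sh none N) :
    S.g (some 0) τ = S.y none τ - sp (N : ℤ) * S.g none τ := by
  have h := (S.mem_sh none hN τ).1 hτ
  have hA := be_ne h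
  have hj := jac_ne hN h
  simp only [g, y, num, jac, be, al, map_zero, zero_mul, sub_zero, map_sub, map_mul] at h hA hj ⊢
  generalize aeval τ S.a = A at h hA hj ⊢
  generalize aeval τ S.b = B at h hj ⊢
  generalize aeval τ S.c = C'' at ⊢
  generalize aeval τ (derivative S.a) = A' at hj ⊢
  generalize aeval τ (derivative S.b) = B' at hj ⊢
  generalize aeval τ (derivative S.c) = C' at ⊢
  generalize sp (N : ℤ) = s at h ⊢
  subst h
  have hD : s * A' - B' ≠ 0 := by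
    intro h0
    apply hj
    linear_combination -A * h0
  rw [show A' * (s * A) - A * B' = A * (s * A' - B') by ring,
    show B' * A - s * A * A' = -(A * (s * A' - B')) by ring]
  obtain ⟨D, hDe⟩ : ∃ D, D = s * A' - B' := ⟨_, rfl⟩
  have hB : B' = s * A' - D := by rw [hDe]; ring
  rw [← hDe] at hD ⊢
  rw [hB]
  field_simp
  ring

theorem W_none {N : ℕ} (hN : 0 < N) {τ₁ τ₂ τ₃ : M} (h₁ : τ₁ ∈ S.sh none N)
    (h₂ : τ₂ ∈ S.sh none N) (h₃ : τ₃ ∈ S.sh none N) :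
    S.W (some 0) τ₁ τ₂ τ₃ = - S.W none τ₁ τ₂ τ₃ := by
  have hs : sp (-(N : ℤ)) * sp (N : ℤ) = 1 := by
    rw [← sp_add, neg_add_cancel, sp_zero]
  unfold W
  rw [y_none hN h₁, y_none hN h₂, y_none hN h₃, GlobA_g_none hN h₁, GlobA_g_none hN h₂,
    GlobA_g_none hN h₃]
  linear_combination (-(S.y none τ₂ - S.y none τ₁) * (S.g none τ₃ - S.g none τ₁)
    + (S.y none τ₃ - S.y none τ₁) * (S.g none τ₂ - S.g none τ₁)) * hs

theorem map_y {F F' : Type} [Field F] [Algebra ℂ F] [Field F'] [Algebra ℂ F'] (ι : F →ₐ[ℂ] F')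
    (P : Option ℂ) (τ : F) : ι (S.y P τ) = S.y P (ι τ) := by
  unfold y
  rw [map_div₀, ← aeval_algHom_apply, ← aeval_algHom_apply]

theorem GlobA_map_g {F F' : Type} [Field F] [Algebra ℂ F] [Field F'] [Algebra ℂ F']
    (ι : F →ₐ[ℂ] F') (P : Option ℂ) (τ : F) : ι (S.g P τ) = S.g P (ι τ) := by
  unfold g
  rw [map_div₀, ← aeval_algHom_apply, ← aeval_algHom_apply]

theorem map_W {F F' : Type} [Field F] [Algebra ℂ F] [Field F'] [Algebra ℂ F'] (ι : F →ₐ[ℂ] F')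
    (P : Option ℂ) (τ₁ τ₂ τ₃ : F) : ι (S.W P τ₁ τ₂ τ₃) = S.W P (ι τ₁) (ι τ₂) (ι τ₃) := by
  unfold W
  simp only [map_sub, map_mul, map_y, GlobA_map_g]

theorem GlobA_map_V {F F' : Type} [Field F] [Algebra ℂ F] [Field F'] [Algebra ℂ F']
    (ι : F →ₐ[ℂ] F') (P : Option ℂ) (τ₁ τ₂ τ₃ : F) :
    ι (S.V P τ₁ τ₂ τ₃) = S.V P (ι τ₁) (ι τ₂) (ι τ₃) := by
  unfold V
  have h : S.W P τ₁ τ₂ τ₃ = 0 ↔ S.W P (ι τ₁) (ι τ₂) (ι τ₃) = 0 := by
    rw [← map_W ι P]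
    exact (map_eq_zero ι).symm
  by_cases h0 : S.W P τ₁ τ₂ τ₃ = 0
  · rw [if_pos h0, if_pos (h.1 h0)]
    simp only [map_pow, map_mul, map_sub, map_y]
  · rw [if_neg h0, if_neg (fun h1 => h0 (h.2 h1)), map_pow, map_W]

/-! ### combinatorics of images -/

open Classical in
theorem GlobA_prs_image {A B : Type} (ι : A → B) (hι : Function.Injective ι) (R : Finset A) :
    prs (R.image ι) = (prs R).image (fun p => (ι p.1, ι p.2)) := by
  ext ⟨x, y⟩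
  simp only [prs, Finset.mem_filter, Finset.mem_product, Finset.mem_image, Prod.mk.injEq,
    Prod.exists]
  constructor
  · rintro ⟨⟨⟨a, ha, rfl⟩, ⟨b, hb, rfl⟩⟩, hne⟩
    exact ⟨a, b, ⟨⟨ha, hb⟩, fun h => hne (by simpa using congrArg ι h)⟩, rfl, rfl⟩
  · rintro ⟨a, b, ⟨⟨ha, hb⟩, hne⟩, rfl, rfl⟩
    exact ⟨⟨⟨a, ha, rfl⟩, ⟨b, hb, rfl⟩⟩, fun h => hne (hι h)⟩

open Classical in
theorem GlobA_tri_image {A B : Type} (ι : A → B) (hι : Function.Injective ι) (R : Finset A) :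
    tri (R.image ι) = (tri R).image (fun p => (ι p.1, ι p.2.1, ι p.2.2)) := by
  ext ⟨x, y, z⟩
  simp only [tri, Finset.mem_filter, Finset.mem_product, Finset.mem_image, Prod.mk.injEq,
    Prod.exists]
  constructor
  · rintro ⟨⟨⟨a, ha, rfl⟩, ⟨b, hb, rfl⟩, ⟨c, hc, rfl⟩⟩, h1, h2, h3⟩
    exact ⟨a, b, c, ⟨⟨ha, hb, hc⟩, fun h => h1 (by simpa using congrArg ι h),
      fun h => h2 (by simpa using congrArg ι h), fun h => h3 (by simpa using congrArg ι h)⟩,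
      rfl, rfl, rfl⟩
  · rintro ⟨a, b, c, ⟨⟨ha, hb, hc⟩, h1, h2, h3⟩, rfl, rfl, rfl⟩
    exact ⟨⟨⟨a, ha, rfl⟩, ⟨b, hb, rfl⟩, ⟨c, hc, rfl⟩⟩, fun h => h1 (hι h), fun h => h2 (hι h),
      fun h => h3 (hι h)⟩

theorem GlobA_inj2 {A B : Type} {ι : A → B} (hι : Function.Injective ι) :
    Function.Injective (fun p : A × A => (ι p.1, ι p.2)) := by
  rintro ⟨a, b⟩ ⟨a', b'⟩ h
  simp only [Prod.mk.injEq] at h
  rw [hι h.1, hι h.2]

theorem GlobA_inj3 {A B : Type} {ι : A → B} (hι : Function.Injective ι) :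
    Function.Injective (fun p : A × A × A => (ι p.1, ι p.2.1, ι p.2.2)) := by
  rintro ⟨a, b, c⟩ ⟨a', b', c'⟩ h
  simp only [Prod.mk.injEq] at h
  rw [hι h.1, hι h.2.1, hι h.2.2]

theorem GlobA_ord_prod {I : Type} (s : Finset I) (f : I → M) (h : ∀ i ∈ s, f i ≠ 0) :
    ∏ i ∈ s, f i ≠ 0 ∧ (∏ i ∈ s, f i).order = ∑ i ∈ s, (f i).order := by
  classical
  induction s using Finset.induction_on with
  | empty =>
    refine ⟨by simp, ?_⟩
    simp only [Finset.prod_empty, Finset.sum_empty]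
    rw [← sp_zero, ord_sp]
  | insert a s ha ih =>
    have h1 := ih (fun i hi => h i (Finset.mem_insert_of_mem hi))
    have h2 := h a (Finset.mem_insert_self a s)
    rw [Finset.prod_insert ha, Finset.sum_insert ha]
    exact ⟨mul_ne_zero h2 h1.1, by rw [ord_mul h2 h1.1, h1.2]⟩

theorem GlobA_card_prs {A : Type} (R : Finset A) :
    ((prs R).card : ℚ) = (R.card : ℚ) * (R.card - 1) := by
  classical
  have h : prs R = R.offDiag := by
    ext ⟨x, y⟩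
    simp only [prs, Finset.mem_filter, Finset.mem_product, Finset.mem_offDiag]
    tauto
  rw [h, Finset.offDiag_card, Nat.cast_sub (Nat.le_mul_self _)]
  push_cast
  ring

theorem GlobA_mem_prs {A : Type} {R : Finset A} {p : A × A} :
    p ∈ prs R ↔ (p.1 ∈ R ∧ p.2 ∈ R) ∧ p.1 ≠ p.2 := by
  simp only [prs, Finset.mem_filter, Finset.mem_product]

theorem GlobA_mem_tri {A : Type} {R : Finset A} {p : A × A × A} :
    p ∈ tri R ↔ (p.1 ∈ R ∧ p.2.1 ∈ R ∧ p.2.2 ∈ R) ∧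
      (p.1 ≠ p.2.1 ∧ p.1 ≠ p.2.2 ∧ p.2.1 ≠ p.2.2) := by
  simp only [tri, Finset.mem_filter, Finset.mem_product]

/-! ### the local factors -/

/-- the difference of two sheets -/
theorem GlobA_fac2 {P : Option ℂ} {N : ℕ} (hN : 0 < N) {τ τ' : M} (h : τ ∈ S.sh P N)
    (h' : τ' ∈ S.sh P N) (hne : τ ≠ τ') :
    S.y (some 0) τ - S.y (some 0) τ' ≠ 0 ∧
    ((S.y (some 0) τ - S.y (some 0) τ').order : ℚ) / N =
      S.rho P N τ τ' - (if P = none then 1 else 0) := by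
  have hY := Y_ne hN h h' hne
  have hN' : (N : ℚ) ≠ 0 := by exact_mod_cast hN.ne'
  cases P with
  | some v =>
    rw [y_some v, y_some v] at hY
    refine ⟨hY, ?_⟩
    rw [if_neg (by simp), sub_zero]
    rfl
  | none =>
    have h1 : S.y (some 0) τ - S.y (some 0) τ' =
        sp (-(N : ℤ)) * (S.y none τ - S.y none τ') := by
      rw [y_none hN h, y_none hN h', mul_sub]
    rw [h1]
    refine ⟨mul_ne_zero (sp_ne _) hY, ?_⟩
    rw [ord_mul (sp_ne _) hY, ord_sp, if_pos rfl, rho]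
    push_cast
    field_simp
    ring

theorem GlobA_W_iff {P : Option ℂ} {N : ℕ} (hN : 0 < N) {τ₁ τ₂ τ₃ : M} (h₁ : τ₁ ∈ S.sh P N)
    (h₂ : τ₂ ∈ S.sh P N) (h₃ : τ₃ ∈ S.sh P N) :
    S.W (some 0) τ₁ τ₂ τ₃ = 0 ↔ S.W P τ₁ τ₂ τ₃ = 0 := by
  cases P with
  | some v => rw [W_some v]
  | none => rw [W_none hN h₁ h₂ h₃, neg_eq_zero]

theorem GlobA_W_ord {P : Option ℂ} {N : ℕ} (hN : 0 < N) {τ₁ τ₂ τ₃ : M} (h₁ : τ₁ ∈ S.sh P N)
    (h₂ : τ₂ ∈ S.sh P N) (h₃ : τ₃ ∈ S.sh P N) :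
    (S.W (some 0) τ₁ τ₂ τ₃).order = (S.W P τ₁ τ₂ τ₃).order := by
  cases P with
  | some v => rw [W_some v]
  | none =>
    rw [W_none hN h₁ h₂ h₃]
    by_cases h0 : S.W none τ₁ τ₂ τ₃ = 0
    · rw [h0, neg_zero]
    · have h1 : - S.W none τ₁ τ₂ τ₃ = (-1) * S.W none τ₁ τ₂ τ₃ := by ring
      have h2 : ((-1 : M)).order = 0 := by
        have h3 := ord_mul (f := (-1 : M)) (g := (-1 : M)) (by simp) (by simp)
        have h5 : (-1 : M) * (-1) = 1 := by ring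
        have h4 : ((-1 : M) * (-1)).order = 0 := by
          rw [h5, ← sp_zero, ord_sp]
        omega
      rw [h1, ord_mul (by simp) h0, h2, zero_add]

open Classical in
theorem GlobA_fac3 {P : Option ℂ} {N : ℕ} (hN : 0 < N) {τ₁ τ₂ τ₃ : M} (h₁ : τ₁ ∈ S.sh P N)
    (h₂ : τ₂ ∈ S.sh P N) (h₃ : τ₃ ∈ S.sh P N) (h12 : τ₁ ≠ τ₂) (h13 : τ₁ ≠ τ₃) (h23 : τ₂ ≠ τ₃) :
    S.V (some 0) τ₁ τ₂ τ₃ ≠ 0 ∧
    ((S.V (some 0) τ₁ τ₂ τ₃).order : ℚ) / N =
      3 * S.om P N τ₁ τ₂ τ₃ -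
        (if P = none then (if S.W P τ₁ τ₂ τ₃ = 0 then 6 else 0) else 0) := by
  have hN' : (N : ℚ) ≠ 0 := by exact_mod_cast hN.ne'
  have hW := GlobA_W_iff hN h₁ h₂ h₃
  obtain ⟨a1, b1⟩ := GlobA_fac2 hN h₁ h₂ h12
  obtain ⟨a2, b2⟩ := GlobA_fac2 hN h₁ h₃ h13
  obtain ⟨a3, b3⟩ := GlobA_fac2 hN h₂ h₃ h23
  unfold V om
  by_cases h0 : S.W P τ₁ τ₂ τ₃ = 0
  · rw [if_pos (hW.2 h0), if_pos h0, if_pos h0]
    refine ⟨pow_ne_zero _ (mul_ne_zero (mul_ne_zero a1 a2) a3), ?_⟩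
    rw [ord_pow, ord_mul (mul_ne_zero a1 a2) a3, ord_mul a1 a2]
    push_cast
    rw [show (2 : ℚ) * (((S.y (some 0) τ₁ - S.y (some 0) τ₂).order : ℚ)
        + ((S.y (some 0) τ₁ - S.y (some 0) τ₃).order : ℚ)
        + ((S.y (some 0) τ₂ - S.y (some 0) τ₃).order : ℚ)) / N =
        2 * (((S.y (some 0) τ₁ - S.y (some 0) τ₂).order : ℚ) / N
        + ((S.y (some 0) τ₁ - S.y (some 0) τ₃).order : ℚ) / N
        + ((S.y (some 0) τ₂ - S.y (some 0) τ₃).order : ℚ) / N) by field_simp]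
    rw [b1, b2, b3]
    split_ifs <;> ring
  · have h0' : S.W (some 0) τ₁ τ₂ τ₃ ≠ 0 := fun h => h0 (hW.1 h)
    rw [if_neg h0', if_neg h0, if_neg h0]
    refine ⟨pow_ne_zero _ h0', ?_⟩
    rw [ord_pow, GlobA_W_ord hN h₁ h₂ h₃]
    push_cast
    split_ifs <;> ring

open Classical in
theorem ord_prod2 {P : Option ℂ} {N : ℕ} (hN : S.Adm P N) (ι : S.Lf →ₐ[ℂ] M)
    (hi : S.rt.image ι = S.sh P N) :
    ι (∏ p ∈ prs S.rt, (S.y (some 0) p.1 - S.y (some 0) p.2)) ≠ 0 ∧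
    ((ι (∏ p ∈ prs S.rt, (S.y (some 0) p.1 - S.y (some 0) p.2))).order : ℚ) / N =
      S.S2 P N - (if P = none then (S.n : ℚ) * (S.n - 1) else 0) := by
  have hN0 : 0 < N := hN.1
  have hinj : Function.Injective ι := ι.toRingHom.injective
  have h1 : ι (∏ p ∈ prs S.rt, (S.y (some 0) p.1 - S.y (some 0) p.2)) =
      ∏ q ∈ prs (S.sh P N), (S.y (some 0) q.1 - S.y (some 0) q.2) := by
    rw [← hi, GlobA_prs_image ι hinj, Finset.prod_image (fun x _ y _ h => GlobA_inj2 hinj h),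
      map_prod]
    refine Finset.prod_congr rfl (fun p _ => ?_)
    rw [map_sub, map_y, map_y]
  have h2 := GlobA_ord_prod (prs (S.sh P N))
    (fun q => S.y (some 0) q.1 - S.y (some 0) q.2) (fun q hq => by
      rw [GlobA_mem_prs] at hq
      exact (GlobA_fac2 hN0 hq.1.1 hq.1.2 hq.2).1)
  rw [h1]
  refine ⟨h2.1, ?_⟩
  rw [h2.2, S2, sum2]
  push_cast
  rw [Finset.sum_div]
  have h3 : ∑ q ∈ prs (S.sh P N), ((S.y (some 0) q.1 - S.y (some 0) q.2).order : ℚ) / N =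
      ∑ q ∈ prs (S.sh P N), (S.rho P N q.1 q.2 - (if P = none then (1 : ℚ) else 0)) :=
    Finset.sum_congr rfl (fun q hq => by
      rw [GlobA_mem_prs] at hq
      exact (GlobA_fac2 hN0 hq.1.1 hq.1.2 hq.2).2)
  rw [h3, Finset.sum_sub_distrib, Finset.sum_const, nsmul_eq_mul, GlobA_card_prs, S.sh_card P hN]
  split_ifs <;> ring

open Classical in
theorem ord_prod3 {P : Option ℂ} {N : ℕ} (hN : S.Adm P N) (ι : S.Lf →ₐ[ℂ] M)
    (hi : S.rt.image ι = S.sh P N) :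
    ι (∏ p ∈ tri S.rt, S.V (some 0) p.1 p.2.1 p.2.2) ≠ 0 ∧
    ((ι (∏ p ∈ tri S.rt, S.V (some 0) p.1 p.2.1 p.2.2)).order : ℚ) / N =
      3 * S.S3 P N - (if P = none then 6 * (S.col P N : ℚ) else 0) := by
  have hN0 : 0 < N := hN.1
  have hinj : Function.Injective ι := ι.toRingHom.injective
  have h1 : ι (∏ p ∈ tri S.rt, S.V (some 0) p.1 p.2.1 p.2.2) =
      ∏ q ∈ tri (S.sh P N), S.V (some 0) q.1 q.2.1 q.2.2 := by
    rw [← hi, GlobA_tri_image ι hinj, Finset.prod_image (fun x _ y _ h => GlobA_inj3 hinj h),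
      map_prod]
    refine Finset.prod_congr rfl (fun p _ => ?_)
    rw [GlobA_map_V]
  have h2 := GlobA_ord_prod (tri (S.sh P N))
    (fun q => S.V (some 0) q.1 q.2.1 q.2.2) (fun q hq => by
      rw [GlobA_mem_tri] at hq
      exact (GlobA_fac3 hN0 hq.1.1 hq.1.2.1 hq.1.2.2 hq.2.1 hq.2.2.1 hq.2.2.2).1)
  rw [h1]
  refine ⟨h2.1, ?_⟩
  rw [h2.2, S3, sum3]
  push_cast
  rw [Finset.sum_div]
  have h3 : ∑ q ∈ tri (S.sh P N), ((S.V (some 0) q.1 q.2.1 q.2.2).order : ℚ) / N =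
      ∑ q ∈ tri (S.sh P N), (3 * S.om P N q.1 q.2.1 q.2.2 -
        (if P = none then (if S.W P q.1 q.2.1 q.2.2 = 0 then (6 : ℚ) else 0) else 0)) :=
    Finset.sum_congr rfl (fun q hq => by
      rw [GlobA_mem_tri] at hq
      exact (GlobA_fac3 hN0 hq.1.1 hq.1.2.1 hq.1.2.2 hq.2.1 hq.2.2.1 hq.2.2.2).2)
  rw [h3, Finset.sum_sub_distrib, ← Finset.mul_sum]
  congr 1
  by_cases hP : P = none
  · simp only [if_pos hP]
    rw [Finset.sum_ite, Finset.sum_const_zero, add_zero, Finset.sum_const, nsmul_eq_mul, col,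
      mul_comm]
  · simp only [if_neg hP]
    rw [Finset.sum_const_zero]

open Classical in
theorem col_eq {P : Option ℂ} {N : ℕ} (hN : S.Adm P N) (ι : S.Lf →ₐ[ℂ] M)
    (hi : S.rt.image ι = S.sh P N) :
    S.col P N = ((tri S.rt).filter (fun p => S.W (some 0) p.1 p.2.1 p.2.2 = 0)).card := by
  have hN0 : 0 < N := hN.1
  have hinj : Function.Injective ι := ι.toRingHom.injective
  have hmem : ∀ θ ∈ S.rt, ι θ ∈ S.sh P N := fun θ hθ => by
    rw [← hi]; exact Finset.mem_image_of_mem ι hθ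
  have h1 : tri (S.sh P N) = (tri S.rt).image (fun p => (ι p.1, ι p.2.1, ι p.2.2)) := by
    rw [← hi, GlobA_tri_image ι hinj]
  rw [col, h1, Finset.filter_image, Finset.card_image_of_injective _ (GlobA_inj3 hinj)]
  congr 1
  refine Finset.filter_congr (fun p hp => ?_)
  rw [GlobA_mem_tri] at hp
  show S.W P (ι p.1) (ι p.2.1) (ι p.2.2) = 0 ↔ _
  rw [← GlobA_W_iff hN0 (hmem _ hp.1.1) (hmem _ hp.1.2.1) (hmem _ hp.1.2.2), ← map_W ι (some 0)]
  exact map_eq_zero ι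

end Cur

end WR
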