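import Pool.Agent.helper51.WR.Rot
import Pool.Agent.helper51.WR.GlobA
import Pool.Agent.helper51.WR.Gal

/-!
# WR-NoCol: no collinear triples in the case `k = 1`

`Adm none (n-1)`, `N = n - 1`; `ι` from `emb none`. By `card_cen_none` exactly one sheet `u ∈ sh none N` has a
finite centre; `θ_u` the root with `ι θ_u = u`. If `col P N ≠ 0` for some `P`: by `col_eq` there is a
collinear triple of roots; by `gal_trans`, `gal_W` (and `W_swap12`, `W_swap23`) there is one
`(θ_u, θ_i, θ_j)`. Under `ι`, `W none (u, τ_i, τ_j) = 0` (`W_none`), `τ_i`, `τ_j` have centre `none`;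
`W_eul`, `wr_zero`: `y_j - y_u = λ (y_i - y_u)`, `λ ≠ 1`. `u` is invariant under `rot ζ`, `ζ` a primitive
`N`-th root of unity (`rot_sh`, uniqueness of `u`), `τ_j = rot (ζ^r) τ_i` (`class_rot`). So
`f = y_i - y_u` satisfies `ζ^(r l) f_l = λ f_l` for all `l`; `f_l = 0` if `N ∣ l`. Sum over the class:
`∑_{τ of centre none} (y none τ - y none u) = ∑_i rot (ζ^i) f = 0`. So `n y none u = ∑_{τ ∈ sh} y none τ`,
multiply by `s^(-N)`: `n y(θ_u) = ∑_{θ ∈ rt} y(θ)` (`y (some 0)`, `y_none`, `ι` injective), the right side is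
fixed by the group, so is `y(θ_u)`; by transitivity all `y(θ)` are equal; contradiction with `y_ne`.
-/

namespace WR

open Polynomial

namespace Cur

open Classical in
/-- exactly one sheet at infinity has a finite centre -/
theorem NoCol_uniq (S : Cur) (hk : S.k = 1) (hinf : S.Adm none (S.n - 1)) :
    ∃ u ∈ S.sh none (S.n - 1), cen u ≠ none ∧
      ∀ τ ∈ S.sh none (S.n - 1), cen τ ≠ none → τ = u := by
  have h1 := S.sh_card none hinf
  have h2 := S.card_cen_none none hinf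
  rw [if_pos rfl, hk] at h2
  have h3 := Finset.card_filter_add_card_filter_not (s := S.sh none (S.n - 1))
    (fun τ => cen τ = none)
  rw [h1, h2] at h3
  have h4 : ((S.sh none (S.n - 1)).filter (fun τ => ¬ cen τ = none)).card = 1 := by
    have := hinf.1
    omega
  obtain ⟨u, hu⟩ := Finset.card_eq_one.1 h4
  have hu' : u ∈ (S.sh none (S.n - 1)).filter (fun τ => ¬ cen τ = none) := by
    rw [hu]; exact Finset.mem_singleton_self u
  refine ⟨u, (Finset.mem_filter.1 hu').1, (Finset.mem_filter.1 hu').2, fun τ hτ hc => ?_⟩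
  have : τ ∈ (S.sh none (S.n - 1)).filter (fun τ => ¬ cen τ = none) :=
    Finset.mem_filter.2 ⟨hτ, hc⟩
  rw [hu] at this
  exact Finset.mem_singleton.1 this

/-- powers of a primitive root sum up to zero -/
theorem NoCol_geom {ζ : ℂ} {N : ℕ} (hζ : IsPrimitiveRoot ζ N) (hN : 0 < N) (l : ℤ)
    (hl : ¬ (N : ℤ) ∣ l) : ∑ i ∈ Finset.range N, (ζ ^ i) ^ l = 0 := by
  have hζ0 : ζ ≠ 0 := hζ.ne_zero hN.ne'
  have h1 : ∀ i : ℕ, (ζ ^ i) ^ l = (ζ ^ l) ^ i := by
    intro i
    rw [← zpow_natCast, ← zpow_natCast, ← zpow_mul, ← zpow_mul, mul_comm]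
  simp_rw [h1]
  have h2 : ζ ^ l ≠ 1 := by
    intro h
    exact hl ((hζ.zpow_eq_one_iff_dvd l).1 h)
  have h3 : (ζ ^ l) ^ N = 1 := by
    rw [← h1, hζ.pow_eq_one, one_zpow]
  have h4 := geom_sum_mul (ζ ^ l) N
  rw [h3, sub_self] at h4
  rcases mul_eq_zero.1 h4 with h5 | h5
  · exact h5
  · exact absurd (sub_eq_zero.1 h5) h2

theorem NoCol_coeff (lam : ℂ) (f : M) (l : ℤ) :
    (algebraMap ℂ M lam * f).coeff l = lam * f.coeff l := by
  have h : algebraMap ℂ M lam = HahnSeries.single 0 lam := by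
    ext i
    rw [coeff_algebraMap]
    by_cases hi : i = 0
    · subst hi; simp
    · rw [HahnSeries.coeff_single_of_ne hi]; simp [hi]
  rw [h]
  simp

open Classical in
theorem NoCol_sum (S : Cur) (hk : S.k = 1) (hn : 3 ≤ S.n) (hinf : S.Adm none (S.n - 1))
    {u τi τj : M} (hu : u ∈ S.sh none (S.n - 1)) (hcu : cen u ≠ none)
    (hun : ∀ τ ∈ S.sh none (S.n - 1), cen τ ≠ none → τ = u)
    (hi : τi ∈ S.sh none (S.n - 1)) (hj : τj ∈ S.sh none (S.n - 1)) (hiu : τi ≠ u)
    (hju : τj ≠ u) (hij : τi ≠ τj) (hW : S.W none u τi τj = 0) :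
    ∑ τ ∈ S.sh none (S.n - 1), S.y none τ = (S.n : M) * S.y none u := by
  set N := S.n - 1 with hNdef
  have hN : 0 < N := hinf.1
  obtain ⟨ζ, hζ⟩ : ∃ ζ : ℂ, IsPrimitiveRoot ζ N := ⟨_, Complex.isPrimitiveRoot_exp N hN.ne'⟩
  have hζ0 : ζ ≠ 0 := hζ.ne_zero hN.ne'
  have hci : cen τi = none := by
    by_contra h
    exact hiu (hun _ hi h)
  have hcj : cen τj = none := by
    by_contra h
    exact hju (hun _ hj h)
  -- the class
  have hcard : ((S.sh none N).filter (fun τ' => cen τ' = cen τi)).card = N := by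
    rw [hci, S.card_cen_none none hinf, if_pos rfl, hk]
  obtain ⟨hcl, hinj⟩ := class_rot hinf hζ hi hcard
  rw [hci] at hcl
  obtain ⟨r, _, hr⟩ : ∃ r ∈ Finset.range N, rot (ζ ^ r) τi = τj := by
    have : τj ∈ (S.sh none N).filter (fun τ' => cen τ' = none) :=
      Finset.mem_filter.2 ⟨hj, hcj⟩
    rw [hcl] at this
    exact Finset.mem_image.1 this
  -- invariance of u
  have hru : ∀ i : ℕ, rot (ζ ^ i) u = u := by
    intro i
    refine hun _ (rot_sh hN ?_ hu) ?_
    · rw [← pow_mul, mul_comm, pow_mul, hζ.pow_eq_one, one_pow]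
    · rw [cen_rot (pow_ne_zero _ hζ0)]
      exact hcu
  have hyu : ∀ i : ℕ, rot (ζ ^ i) (S.y none u) = S.y none u := by
    intro i
    rw [← rot_y (pow_ne_zero _ hζ0), hru]
  -- proportional
  have hYi : S.y none τi - S.y none u ≠ 0 := Y_ne hN hi hu hiu
  have hW0 := W_eul hN hu hi hj
  rw [hW, mul_zero] at hW0
  obtain ⟨lam, hlam⟩ := wr_zero hYi hW0.symm
  set f := S.y none τi - S.y none u with hf
  have hj' : S.y none τj - S.y none u = rot (ζ ^ r) f := by
    rw [hf, rot_sub, ← rot_y (pow_ne_zero _ hζ0), hr, hyu]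
  have hlam1 : lam ≠ 1 := by
    rintro rfl
    rw [map_one, one_mul, hf] at hlam
    exact Y_ne hN hj hi (Ne.symm hij) (sub_eq_zero.2 (sub_left_injective hlam))
  have hf0 : ∀ l : ℤ, (N : ℤ) ∣ l → f.coeff l = 0 := by
    intro l hl
    have h1 := congrArg (fun F : M => F.coeff l) (hj'.symm.trans hlam)
    simp only [rot_coeff] at h1
    have h2 : (ζ ^ r) ^ l = 1 := by
      obtain ⟨t, rfl⟩ := hl
      rw [zpow_mul, zpow_natCast, ← pow_mul, mul_comm r N, pow_mul, hζ.pow_eq_one, one_pow,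
        one_zpow]
    have h3 : (algebraMap ℂ M lam * f).coeff l = lam * f.coeff l := NoCol_coeff lam f l
    rw [h2, one_mul, h3] at h1
    have h4 : (1 - lam) * f.coeff l = 0 := by
      rw [sub_mul, one_mul, ← h1, sub_self]
    exact (mul_eq_zero.1 h4).resolve_left (sub_ne_zero.2 (Ne.symm hlam1))
  have hsum0 : ∑ i ∈ Finset.range N, rot (ζ ^ i) f = 0 := by
    ext l
    rw [HahnSeries.coeff_sum]
    simp only [rot_coeff, HahnSeries.coeff_zero]
    rw [← Finset.sum_mul]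
    by_cases hl : (N : ℤ) ∣ l
    · rw [hf0 l hl, mul_zero]
    · rw [NoCol_geom hζ hN l hl, zero_mul]
  have hsum1 : ∑ τ ∈ (S.sh none N).filter (fun τ' => cen τ' = none),
      (S.y none τ - S.y none u) = 0 := by
    rw [hcl, Finset.sum_image hinj, ← hsum0]
    refine Finset.sum_congr rfl fun i _ => ?_
    rw [hf, rot_sub, rot_y (pow_ne_zero _ hζ0), hyu]
  have hfil : (S.sh none N).filter (fun τ' => ¬ cen τ' = none) = {u} := by
    ext τ
    rw [Finset.mem_filter, Finset.mem_singleton]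
    constructor
    · rintro ⟨h1, h2⟩
      exact hun _ h1 h2
    · rintro rfl
      exact ⟨hu, hcu⟩
  rw [Finset.sum_sub_distrib, Finset.sum_const, sub_eq_zero] at hsum1
  have hcard' : ((S.sh none N).filter (fun τ' => cen τ' = none)).card = N := by
    have := S.card_cen_none none hinf
    rw [if_pos rfl, hk] at this
    convert this
  rw [hcard', nsmul_eq_mul] at hsum1
  rw [← Finset.sum_filter_add_sum_filter_not (S.sh none N) (fun τ' => cen τ' = none), hsum1,
    hfil, Finset.sum_singleton]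
  have hnN : S.n = N + 1 := by omega
  rw [hnN]
  push_cast
  ring

theorem nocol (S : Cur) (hk : S.k = 1) (hn : 3 ≤ S.n) (hinf : S.Adm none (S.n - 1))
    {P : Option ℂ} {N : ℕ} (hN : S.Adm P N) : S.col P N = 0 := by
  classical
  by_contra hcol
  obtain ⟨ιP, _, hιP⟩ := S.emb P hN
  rw [col_eq hN ιP (by convert hιP)] at hcol
  obtain ⟨⟨θ₁, θ₂, θ₃⟩, hθ⟩ := Finset.card_pos.1 (Nat.pos_of_ne_zero hcol)
  rw [Finset.mem_filter] at hθ
  obtain ⟨hθt, hθW⟩ := hθ
  simp only [tri, Finset.mem_filter, Finset.mem_product] at hθt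
  obtain ⟨⟨h1, h2, h3⟩, h12, h13, h23⟩ := hθt
  simp only at hθW
  obtain ⟨ι, _, hι⟩ := S.emb none hinf
  have hinjι : Function.Injective ι := ι.injective
  obtain ⟨u, hu, hcu, hun⟩ := S.NoCol_uniq hk hinf
  have hmem : ∀ θ ∈ S.rt, ι θ ∈ S.sh none (S.n - 1) := by
    intro θ hθ
    rw [← hι]
    exact Finset.mem_image_of_mem _ hθ
  obtain ⟨θu, hθu, rfl⟩ : ∃ θ ∈ S.rt, ι θ = u := by
    rw [← hι] at hu
    exact Finset.mem_image.1 hu
  obtain ⟨σ, hσ⟩ := gal_trans h1 hθu
  have hWσ : S.W (some 0) θu (σ θ₂) (σ θ₃) = 0 := by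
    rw [← hσ, ← gal_W, hθW, map_zero]
  have m2 := gal_rt σ h2
  have m3 := gal_rt σ h3
  have d12 : σ θ₂ ≠ θu := by
    rw [← hσ]
    exact fun h => h12 (σ.injective h).symm
  have d13 : σ θ₃ ≠ θu := by
    rw [← hσ]
    exact fun h => h13 (σ.injective h).symm
  have d23 : σ θ₂ ≠ σ θ₃ := fun h => h23 (σ.injective h)
  have hWM : S.W none (ι θu) (ι (σ θ₂)) (ι (σ θ₃)) = 0 := by
    have e1 := W_none hinf.1 (hmem _ hθu) (hmem _ m2) (hmem _ m3)
    rw [← map_W, hWσ, map_zero] at e1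
    exact neg_eq_zero.1 e1.symm
  have hs := S.NoCol_sum hk hn hinf hu hcu hun (hmem _ m2) (hmem _ m3)
    (fun h => d12 (hinjι h)) (fun h => d13 (hinjι h)) (fun h => d23 (hinjι h)) hWM
  -- back to the splitting field
  have hs' : ∑ θ ∈ S.rt, S.y (some 0) θ = (S.n : S.Lf) * S.y (some 0) θu := by
    apply hinjι
    rw [map_sum, map_mul, map_natCast, map_y, y_none hinf.1 (hmem _ hθu), mul_left_comm, ← hs,
      ← hι, Finset.sum_image (fun a _ b _ h => hinjι h), Finset.mul_sum]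
    refine Finset.sum_congr rfl fun θ hθ => ?_
    rw [map_y, y_none hinf.1 (hmem _ hθ)]
  -- invariance
  have himg : ∀ σ : S.Lf ≃ₐ[RatFunc ℂ] S.Lf, S.rt.image σ = S.rt := by
    intro σ
    refine Finset.eq_of_subset_of_card_le ?_ ?_
    · intro x hx
      obtain ⟨θ, hθ, rfl⟩ := Finset.mem_image.1 hx
      exact gal_rt σ hθ
    · rw [Finset.card_image_of_injective _ σ.injective]
  have hn0 : (S.n : S.Lf) ≠ 0 := by
    have : (S.n : ℕ) ≠ 0 := by omega
    exact_mod_cast this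
  obtain ⟨σ', hσ'⟩ := gal_trans hθu m2
  have e1 := congrArg σ' hs'
  rw [map_sum, map_mul, map_natCast, gal_y, hσ'] at e1
  have e2 : ∑ θ ∈ S.rt, σ' (S.y (some 0) θ) = ∑ θ ∈ S.rt, S.y (some 0) θ := by
    conv_rhs => rw [← himg σ']
    rw [Finset.sum_image (fun a _ b _ h => σ'.injective h)]
    refine Finset.sum_congr rfl fun θ _ => ?_
    rw [gal_y]
  rw [e2, hs'] at e1
  have e3 : S.y (some 0) θu = S.y (some 0) (σ θ₂) := mul_left_cancel₀ hn0 e1
  have key : ∀ θ ∈ S.rt, aeval θ (S.al (some 0)) = S.xL * aeval θ (S.be (some 0)) := by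
    intro θ hθ
    have := (S.mem_rt θ).1 hθ
    simp only [al, be, map_zero, zero_mul, sub_zero]
    exact this
  exact S.y_ne (some 0) (key _ hθu) (key _ m2) (Ne.symm d12) e3

end Cur

end WR
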