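import Pool.Agent.helper51.WR.RH

/-!
# WR-Tot: the fibres in the case `k = 1`, `e = n`

`jac (some 0) = const (X - t₁)^(n-1) (X - t₂)` (degree `n`, order exactly `n - 1` at `t₁` by `rootMult_jac`, so
`t₂ ≠ t₁`). `al (some v₁) = const (X - t₁)^n`, so the fibre of `v₁` is `{t₁}`. `b` has one simple root `u`,
`e = 1` there, so `jac u ≠ 0`, `u ≠ t₂`; `v₂ = a(t₂)/b(t₂)`. For every other finite point `e = 1`
(`rootMult_jac`). A cusp `t` (`IsCusp`): `a b' = a' b` at `t`: `jac (some 0)` vanishes.
-/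

namespace WR

open Polynomial

namespace Cur

theorem Tot_rm_jac (S : Cur) (P : Option ℂ) (t : ℂ) :
    rootMultiplicity t (S.jac P) = rootMultiplicity t (S.jac (some 0)) := by
  rcases S.jac_eq P with h | h
  · rw [h]
  · rw [h, ← count_roots, ← count_roots, roots_neg]

theorem Tot_e_pos (S : Cur) {P : Option ℂ} {t : ℂ} (ht : (S.al P).IsRoot t) : 1 ≤ S.e P t := by
  unfold e
  exact (rootMultiplicity_pos (S.al_ne P)).2 ht

theorem Tot_rm (S : Cur) {P : Option ℂ} {t : ℂ} (ht : (S.al P).IsRoot t) :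
    S.e P t = rootMultiplicity t (S.jac (some 0)) + 1 := by
  have h1 := (rootMult_jac ht).2
  rw [Tot_rm_jac] at h1
  have h2 := S.Tot_e_pos ht
  omega

theorem tot (S : Cur) (hk : S.k = 1) {v₁ t₁ : ℂ} (he : S.e (some v₁) t₁ = S.n) :
    ∃ v₂ t₂ : ℂ, v₂ ≠ v₁ ∧ t₂ ≠ t₁ ∧ S.e (some v₂) t₂ = 2 ∧
      (∀ t, (S.al (some v₁)).IsRoot t → t = t₁) ∧
      (∀ v t, (S.al (some v)).IsRoot t → t ≠ t₁ → t ≠ t₂ → S.e (some v) t = 1) ∧
      (∀ v, (S.al (some v)).IsRoot t₂ → v = v₂) ∧
      (∀ t, S.b.IsRoot t → S.e none t = 1) ∧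
      (∀ t, S.IsCusp t → t = t₁ ∨ t = t₂) ∧
      S.Adm (some v₁) S.n ∧ S.Adm (some v₂) 2 ∧ S.Adm none (S.n - 1) ∧
      (∀ v, v ≠ v₁ → v ≠ v₂ → S.Adm (some v) 1 ∧ S.Ram (some v) = 0) := by
  classical
  have hn : 2 ≤ S.n := by
    have := S.hkn
    omega
  have hr1 : (S.al (some v₁)).IsRoot t₁ := by
    have h0 : 0 < rootMultiplicity t₁ (S.al (some v₁)) := by
      have : rootMultiplicity t₁ (S.al (some v₁)) = S.n := he
      omega
    exact (rootMultiplicity_pos (S.al_ne _)).1 h0
  have hJ0 : S.jac (some 0) ≠ 0 := by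
    intro h0
    have h1 := (rootMult_jac hr1).1
    rcases S.jac_eq (some v₁) with h | h
    · exact h1 (h.trans h0)
    · rw [h0, neg_zero] at h
      exact h1 h
  have hJ1 : rootMultiplicity t₁ (S.jac (some 0)) = S.n - 1 := by
    have := S.Tot_rm hr1
    omega
  have hJd : (S.jac (some 0)).natDegree = S.n := by
    rw [S.natDegree_jac, hk]
    omega
  have hcard : Multiset.card (S.jac (some 0)).roots = S.n := by
    rw [← hJd]
    exact (IsAlgClosed.splits (S.jac (some 0))).natDegree_eq_card_roots.symm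
  have hcnt : (S.jac (some 0)).roots.count t₁ = S.n - 1 := by
    rw [count_roots, hJ1]
  have hs : Multiset.card ((S.jac (some 0)).roots.filter (fun t => ¬ t₁ = t)) = 1 := by
    have h1 := Multiset.filter_add_not (fun t => t₁ = t) (S.jac (some 0)).roots
    have h2 := congrArg Multiset.card h1
    rw [Multiset.card_add, hcard] at h2
    have h3 : Multiset.card ((S.jac (some 0)).roots.filter (fun t => t₁ = t)) = S.n - 1 := by
      rw [← hcnt, Multiset.count_eq_card_filter_eq]
    omega
  obtain ⟨t₂, ht₂⟩ := Multiset.card_eq_one.1 hs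
  have hne : t₂ ≠ t₁ := by
    have h1 : t₂ ∈ (S.jac (some 0)).roots.filter (fun t => ¬ t₁ = t) := by
      rw [ht₂]
      exact Multiset.mem_singleton_self _
    exact fun h => (Multiset.mem_filter.1 h1).2 h.symm
  have hother : ∀ t, t ≠ t₁ → rootMultiplicity t (S.jac (some 0)) = if t = t₂ then 1 else 0 := by
    intro t ht
    rw [← count_roots]
    have h1 : (S.jac (some 0)).roots.count t
        = ((S.jac (some 0)).roots.filter (fun t => ¬ t₁ = t)).count t := by
      rw [Multiset.count_filter_of_pos]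
      exact fun h => ht h.symm
    rw [h1, ht₂, Multiset.count_singleton]
  have hm2 : rootMultiplicity t₂ (S.jac (some 0)) = 1 := by
    rw [hother t₂ hne, if_pos rfl]
  have hb1 : ∀ t, S.b.IsRoot t → S.e none t = 1 := by
    intro t ht
    have h1 : 1 ≤ S.e none t := S.Tot_e_pos (P := none) ht
    have h2 : S.e none t ≤ 1 := by
      have h3 : S.e none t ≤ S.b.natDegree := by
        have : S.e none t = S.b.roots.count t := by
          rw [count_roots]
          rfl
        rw [this]
        exact (Multiset.count_le_card _ _).trans (card_roots' _)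
      rw [S.hb, hk] at h3
      exact h3
    omega
  have hbt2 : S.b.eval t₂ ≠ 0 := by
    intro h
    have h1 : (S.al none).IsRoot t₂ := h
    have h2 := S.Tot_rm h1
    have h3 := hb1 t₂ h
    rw [hm2] at h2
    omega
  have alev : ∀ v t : ℂ, (S.al (some v)).IsRoot t ↔ S.a.eval t = v * S.b.eval t := by
    intro v t
    unfold al
    simp only [IsRoot.def, eval_sub, eval_mul, eval_C]
    exact sub_eq_zero
  have hfib : ∀ t, (S.al (some v₁)).IsRoot t → t = t₁ := by
    intro t ht
    by_contra hne'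
    have hd : (X - C t₁) ^ S.n ∣ S.al (some v₁) := by
      have := pow_rootMultiplicity_dvd (S.al (some v₁)) t₁
      have h2 : rootMultiplicity t₁ (S.al (some v₁)) = S.n := he
      rwa [h2] at this
    have hdeg : (S.al (some v₁)).natDegree = S.n := by
      rw [S.natDegree_al]
      simp
    have hmon : ((X - C t₁) ^ S.n).Monic := (monic_X_sub_C t₁).pow _
    have hpd : ((X - C t₁) ^ S.n : ℂ[X]).natDegree = S.n := by
      rw [natDegree_pow, natDegree_X_sub_C, mul_one]
    have heq : S.al (some v₁) = C (S.al (some v₁)).leadingCoeff * (X - C t₁) ^ S.n :=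
      eq_leadingCoeff_mul_of_monic_of_dvd_of_natDegree_le hmon hd (by rw [hpd, hdeg])
    have hev := ht
    rw [heq, IsRoot.def, eval_mul, eval_C, eval_pow, eval_sub, eval_X, eval_C] at hev
    rcases mul_eq_zero.1 hev with h | h
    · exact S.al_ne (some v₁) (leadingCoeff_eq_zero.1 h)
    · exact hne' (sub_eq_zero.1 ((pow_eq_zero_iff (by omega : S.n ≠ 0)).1 h))
  have hb_t1 : S.b.eval t₁ ≠ 0 := by
    intro h
    have h1 := (alev v₁ t₁).1 hr1
    rw [h, mul_zero] at h1
    exact (S.nz t₁).elim (fun h2 => h2 h1) (fun h2 => h2 h)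
  have huniq : ∀ v, (S.al (some v)).IsRoot t₁ → v = v₁ := by
    intro v hv
    have h1 := (alev v₁ t₁).1 hr1
    have h2 := (alev v t₁).1 hv
    rw [h1] at h2
    exact (mul_right_cancel₀ hb_t1 h2).symm
  set v₂ : ℂ := S.a.eval t₂ / S.b.eval t₂ with hv₂
  have hr2 : (S.al (some v₂)).IsRoot t₂ := by
    rw [alev, hv₂, div_mul_cancel₀ _ hbt2]
  have huniq2 : ∀ v, (S.al (some v)).IsRoot t₂ → v = v₂ := by
    intro v hv
    rw [hv₂, (alev v t₂).1 hv, mul_div_assoc, div_self hbt2, mul_one]
  have hv12 : v₂ ≠ v₁ := by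
    intro h
    rw [h] at hr2
    exact hne (hfib t₂ hr2)
  have hone : ∀ v t, (S.al (some v)).IsRoot t → t ≠ t₁ → t ≠ t₂ → S.e (some v) t = 1 := by
    intro v t ht h1 h2
    rw [S.Tot_rm ht, hother t h1, if_neg h2]
  have he2 : S.e (some v₂) t₂ = 2 := by
    rw [S.Tot_rm hr2, hm2]
  refine ⟨v₂, t₂, hv12, hne, he2, hfib, hone, huniq2, hb1, ?_, ?_, ?_, ?_, ?_⟩
  · intro t ht
    by_contra hcon
    push Not at hcon
    have h1 : (S.jac (some 0)).IsRoot t := by
      unfold jac al be
      simp only [IsRoot.def, map_zero, zero_mul, sub_zero, eval_sub, eval_mul]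
      rw [sub_eq_zero]
      exact ht.1.symm
    have h2 := (rootMultiplicity_pos hJ0).2 h1
    rw [hother t hcon.1, if_neg hcon.2] at h2
    exact lt_irrefl _ h2
  · refine ⟨by omega, fun t ht => ?_, fun h => by simp at h⟩
    rw [hfib t ht, he]
  · refine ⟨by omega, fun t ht => ?_, fun h => by simp at h⟩
    have h1 : t ≠ t₁ := by
      intro h
      rw [h] at ht
      exact hv12 (huniq v₂ ht)
    by_cases h2 : t = t₂
    · rw [h2, he2]
    · rw [hone v₂ t ht h1 h2]
      exact one_dvd _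
  · refine ⟨by omega, fun t ht => ?_, fun _ => ?_⟩
    · rw [hb1 t ht]
      exact one_dvd _
    · rw [hk]
  · intro v h1 h2
    have hall : ∀ t, (S.al (some v)).IsRoot t → S.e (some v) t = 1 := by
      intro t ht
      refine hone v t ht ?_ ?_
      · intro h
        rw [h] at ht
        exact h1 (huniq v ht)
      · intro h
        rw [h] at ht
        exact h2 (huniq2 v ht)
    refine ⟨⟨one_pos, fun t ht => ?_, fun h => by simp at h⟩, ?_⟩
    · rw [hall t ht]
    · unfold Ram
      refine Finset.sum_eq_zero fun t ht => ?_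
      have h3 : (S.al (some v)).IsRoot t := (mem_roots (S.al_ne _)).1 (Multiset.mem_toFinset.1 ht)
      rw [hall t h3, Nat.sub_self]

end Cur

end WR
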