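import Pool.Agent.helper51.WR.X2
import Pool.Agent.helper51.WR.Tot
import Pool.Agent.helper51.WR.Glob
import Pool.Agent.helper51.WR.NoCol
import Pool.Agent.helper51.WR.PlI

/-!
# WR-Fine: the sums in the case `k = 1`, `e = n`

`tot`; at least two finite cusps, so they are exactly `t₁` and `t₂`. `N (some v₁) = n`, `N (some v₂) = 2`,
`N none = n - 1`, `N (some v) = 1` otherwise. `glob` with a set `V` containing `V₀`, `v₁`, `v₂`; `x2` at `v₂`; at
the other places `S2_unram` and `F1b` with `Ram = 0`: `S2 = 0`, `S3 ≥ 0`. For `n ≥ 3`: `c₃ = 0` by `nocol`; for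
`n = 2` there are no triples.
-/

namespace WR

open Polynomial

namespace Cur

theorem fine (S : Cur) (hk : S.k = 1) {v₁ t₁ : ℂ} (he : S.e (some v₁) t₁ = S.n)
    (h2 : ∃ t t' : ℂ, t ≠ t' ∧ S.IsCusp t ∧ S.IsCusp t') :
    ∃ (v₂ t₂ : ℂ) (o : ℤ), t₂ ≠ t₁ ∧ (∀ t, S.IsCusp t ↔ t = t₁ ∨ t = t₂) ∧
      S.e (some v₂) t₂ = 2 ∧ S.Adm (some v₁) S.n ∧ S.Adm none (S.n - 1) ∧ 3 ≤ o ∧
      ¬ (2 : ℤ) ∣ o ∧
      (∃ τ ∈ S.sh (some v₂) 2, cen τ = some t₂ ∧ (S.y (some v₂) τ).coeff o ≠ 0 ∧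
        ∀ l < o, ¬ (2 : ℤ) ∣ l → (S.y (some v₂) τ).coeff l = 0) ∧
      S.S2 (some v₁) S.n + o + S.S2 none (S.n - 1) = (S.n : ℚ) * (S.n - 1) ∧
      S.S3 (some v₁) S.n + S.S3 none (S.n - 1) + 6 * ((S.n : ℚ) - 2) * ((o : ℚ) / 2 - 1) ≤ 0 ∧
      (3 ≤ S.n → S.col (some v₁) S.n = 0 ∧ S.col none (S.n - 1) = 0) := by
  classical
  have hn : 2 ≤ S.n := by
    have h1 := S.hk
    have h3 := S.hkn
    omega
  obtain ⟨v₂, t₂, hv, ht, he2, hroot1, he1, hroot2, hb1, hcusp, hA1, hA2, hAn, hAo⟩ := tot S hk he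
  -- the cusps
  have hcc : S.IsCusp t₁ ∧ S.IsCusp t₂ := by
    obtain ⟨t, t', hne, hc, hc'⟩ := h2
    rcases hcusp t hc with rfl | rfl <;> rcases hcusp t' hc' with rfl | rfl
    · exact absurd rfl hne
    · exact ⟨hc, hc'⟩
    · exact ⟨hc', hc⟩
    · exact absurd rfl hne
  have hciff : ∀ t, S.IsCusp t ↔ t = t₁ ∨ t = t₂ := by
    intro t
    refine ⟨hcusp t, ?_⟩
    rintro (rfl | rfl)
    · exact hcc.1
    · exact hcc.2
  -- the simple place
  have hsimp : ∀ t', (S.al (some v₂)).IsRoot t' → t' ≠ t₂ → S.e (some v₂) t' = 1 := by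
    intro t' hr hne
    refine he1 v₂ t' hr ?_ hne
    rintro rfl
    have hr1 : (S.al (some v₁)).IsRoot t' := by
      have h0 : 0 < rootMultiplicity t' (S.al (some v₁)) := by
        have : rootMultiplicity t' (S.al (some v₁)) = S.n := he
        omega
      by_contra hc
      rw [rootMultiplicity_eq_zero hc] at h0
      exact lt_irrefl _ h0
    simp only [al, IsRoot.def, eval_sub, eval_mul, eval_C] at hr hr1
    have hb : S.b.eval t' = 0 := by
      have h3 : (v₂ - v₁) * S.b.eval t' = 0 := by linear_combination hr1 - hr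
      rcases mul_eq_zero.1 h3 with h4 | h4
      · exact absurd (sub_eq_zero.1 h4) hv
      · exact h4
    have ha : S.a.eval t' = 0 := by
      rw [hb, mul_zero, sub_zero] at hr
      exact hr
    rcases S.nz t' with h5 | h5
    · exact h5 ha
    · exact h5 hb
  obtain ⟨o, ho3, hodd, hS2, hS3, hτ⟩ := x2 hA2 he2 hsimp hcc.2
  -- the choice of `N`
  let N : Option ℂ → ℕ := fun P => match P with
    | none => S.n - 1
    | some v => if v = v₁ then S.n else if v = v₂ then 2 else 1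
  have hN0 : N none = S.n - 1 := rfl
  have hN1 : N (some v₁) = S.n := by simp [N]
  have hN2 : N (some v₂) = 2 := by simp [N, hv]
  have hNo : ∀ v, v ≠ v₁ → v ≠ v₂ → N (some v) = 1 := by
    intro v h3 h4
    simp [N, h3, h4]
  have hN : ∀ P, S.Adm P (N P) := by
    intro P
    cases P with
    | none => exact hAn
    | some v =>
      by_cases h3 : v = v₁
      · rw [h3, hN1]
        exact hA1
      · by_cases h4 : v = v₂
        · rw [h4, hN2]
          exact hA2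
        · rw [hNo v h3 h4]
          exact (hAo v h3 h4).1
  obtain ⟨c₃, hc₃, V₀, hV⟩ := glob S N hN
  obtain ⟨hT2, hT3⟩ := hV (insert v₁ (insert v₂ V₀)) (by
    intro x hx
    exact Finset.mem_insert_of_mem (Finset.mem_insert_of_mem hx))
  have hc₃0 : c₃ = 0 := by
    by_cases h3 : 3 ≤ S.n
    · rw [← hc₃ none, hN0]
      exact nocol S hk h3 hAn hAn
    · have hn2 : S.n = 2 := by omega
      rw [← hc₃ none, hN0]
      have h4 := card_tri (S.sh none (S.n - 1))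
      rw [sh_card S none hAn, hn2] at h4
      norm_num at h4
      rw [hn2]
      unfold col
      rw [h4]
      simp
  have hoth2 : ∀ v, v ≠ v₁ → v ≠ v₂ → S.S2 (some v) (N (some v)) = 0 := by
    intro v h3 h4
    rw [hNo v h3 h4]
    exact S2_unram (hAo v h3 h4).1 (hAo v h3 h4).2
  have hoth3 : ∀ v, v ≠ v₁ → v ≠ v₂ → 0 ≤ S.S3 (some v) (N (some v)) := by
    intro v h3 h4
    have h5 := F1b (hAo v h3 h4).1
    rw [S2_unram (hAo v h3 h4).1 (hAo v h3 h4).2, (hAo v h3 h4).2] at h5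
    rw [hNo v h3 h4]
    simpa using h5
  set V := insert v₁ (insert v₂ V₀) with hVdef
  have hm1 : v₁ ∈ V := Finset.mem_insert_self _ _
  have hm2 : v₂ ∈ V.erase v₁ :=
    Finset.mem_erase.2 ⟨hv, Finset.mem_insert_of_mem (Finset.mem_insert_self _ _)⟩
  have hrest : ∀ v ∈ (V.erase v₁).erase v₂, v ≠ v₁ ∧ v ≠ v₂ := by
    intro v h3
    rw [Finset.mem_erase, Finset.mem_erase] at h3
    exact ⟨h3.2.1, h3.1⟩
  rw [← Finset.add_sum_erase V _ hm1, ← Finset.add_sum_erase (V.erase v₁) _ hm2] at hT2 hT3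
  rw [Finset.sum_eq_zero (s := (V.erase v₁).erase v₂)
    (fun v h3 => hoth2 v (hrest v h3).1 (hrest v h3).2)] at hT2
  have hge : 0 ≤ ∑ v ∈ (V.erase v₁).erase v₂, S.S3 (some v) (N (some v)) :=
    Finset.sum_nonneg fun v h3 => hoth3 v (hrest v h3).1 (hrest v h3).2
  rw [hN1, hN2, hN0] at hT2 hT3
  rw [hS2] at hT2
  rw [hc₃0] at hT3
  refine ⟨v₂, t₂, o, ht, hciff, he2, hA1, hAn, ho3, hodd, hτ, ?_, ?_, ?_⟩
  · linarith
  · push_cast at hT3
    linarith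
  · intro h3
    exact ⟨nocol S hk h3 hAn hA1, nocol S hk h3 hAn hAn⟩

theorem Fine_int (S : Cur) {v₁ : ℂ} {o : ℚ} (hn : 5 ≤ S.n)
    (hA1 : S.Adm (some v₁) S.n) (hAn : S.Adm none (S.n - 1))
    (hT2 : S.S2 (some v₁) S.n + o + S.S2 none (S.n - 1) = (S.n : ℚ) * (S.n - 1))
    (hT3 : S.S3 (some v₁) S.n + S.S3 none (S.n - 1) + 6 * ((S.n : ℚ) - 2) * (o / 2 - 1) ≤ 0)
    (hc : S.col (some v₁) S.n = 0 ∧ S.col none (S.n - 1) = 0) :
    (2 * (S.n : ℚ) - 1) / 3 + o ≤ 6 := by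
  have h1 := F2int hA1
  have h2 := F2int hAn
  rw [hc.1] at h1
  rw [hc.2] at h2
  have hq : (5 : ℚ) ≤ S.n := by exact_mod_cast hn
  have hcast : ((S.n - 1 : ℕ) : ℚ) = (S.n : ℚ) - 1 := by
    rw [Nat.cast_sub (by omega)]
    simp
  rw [hcast] at h2
  simp only [Nat.cast_zero, sub_zero] at h1 h2
  set n : ℚ := (S.n : ℚ) with hndef
  have hn0 : n ≠ 0 := by linarith
  have hn1 : n - 1 ≠ 0 := by
    have : (4 : ℚ) ≤ n - 1 := by linarith
    linarith
  have e1 : (1 - 1 / (3 * n)) * (n * (n - 1) * (n - 2)) =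
      n * (n - 1) * (n - 2) - (n - 1) * (n - 2) / 3 := by
    field_simp
  have e2 : (1 - 1 / (3 * (n - 1))) * (n * (n - 1) * (n - 2)) =
      n * (n - 1) * (n - 2) - n * (n - 2) / 3 := by
    field_simp
  rw [e1] at h1
  rw [e2] at h2
  have h3 : (n - 2) * ((2 * n - 1) / 3 + o - 6) ≤ 0 := by
    have h4 : S.S2 (some v₁) S.n = n * (n - 1) - o - S.S2 none (S.n - 1) := by linarith
    rw [h4] at h1
    nlinarith
  by_contra hcon
  rw [not_le] at hcon
  have h5 : 0 < (n - 2) * ((2 * n - 1) / 3 + o - 6) :=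
    mul_pos (by linarith) (by linarith)
  linarith

/-- `n ≤ 4`. For `n ≥ 5` use `F2int` at both places:
`2(n-2)(n(n-1) - o) - n(n-1)(n-2)(2 - 1/(3n) - 1/(3(n-1))) + 6(n-2)(o/2-1) ≤ 0`, that is
`(2n-1)/3 + o ≤ 6`, `2 n - 1 ≤ 18 - 3 o ≤ 9`: `n ≤ 5`. For `n = 5` all sheets at `v₁` form one class:
`class_prime`: all `rho = B/5`, `om_eq`: `om ≥ 2/3 sigma - 1 + 1/5`; `F2_abs` with `κ = 4/5`:
`6 (20 - o) - 48 - 55 + 18 (o/2 - 1) ≤ 0`, `3 o ≤ 1`. -/
theorem n_le_four (S : Cur) (hk : S.k = 1) {v₁ t₁ : ℂ} (he : S.e (some v₁) t₁ = S.n)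
    (h2 : ∃ t t' : ℂ, t ≠ t' ∧ S.IsCusp t ∧ S.IsCusp t') : S.n ≤ 4 := by
  classical
  by_contra hcon
  have hn5 : 5 ≤ S.n := by omega
  obtain ⟨v₂, t₂, o, -, -, -, hA1, hAn, ho3, -, -, hT2, hT3, hcol⟩ := fine S hk he h2
  have hc := hcol (by omega)
  have hoq : (3 : ℚ) ≤ (o : ℚ) := by exact_mod_cast ho3
  have hb := Fine_int S hn5 hA1 hAn hT2 hT3 hc
  have hn : S.n = 5 := by
    have h3 : (S.n : ℚ) ≤ 5 := by linarith
    have h4 : S.n ≤ 5 := by exact_mod_cast h3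
    omega
  -- all sheets at `v₁` form one class
  have hcard := sh_card S (some v₁) hA1
  have hcen := card_cen S (some v₁) hA1 t₁
  rw [he] at hcen
  have hfil : (S.sh (some v₁) S.n).filter (fun τ => cen τ = some t₁) = S.sh (some v₁) S.n :=
    Finset.eq_of_subset_of_card_le (Finset.filter_subset _ _) (by rw [hcen, hcard])
  have hall : ∀ τ ∈ S.sh (some v₁) S.n, cen τ = some t₁ := by
    intro τ hτ
    rw [← hfil] at hτ
    exact (Finset.mem_filter.1 hτ).2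
  obtain ⟨τ, hτ⟩ : (S.sh (some v₁) S.n).Nonempty := by
    rw [← Finset.card_pos, hcard]
    omega
  have hprime : S.n.Prime := by
    rw [hn]
    norm_num
  have hcl : ((S.sh (some v₁) S.n).filter (fun τ' => cen τ' = cen τ)).card = S.n := by
    rw [hall τ hτ]
    exact hcen
  obtain ⟨B, -, -, -, hB⟩ := class_prime hA1 hprime hτ hcl
  have hN0 : 0 < S.n := by omega
  have hrho : ∀ τ₁ ∈ S.sh (some v₁) S.n, ∀ τ₂ ∈ S.sh (some v₁) S.n, τ₁ ≠ τ₂ →
      S.rho (some v₁) S.n τ₁ τ₂ = (B : ℚ) / S.n := by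
    intro τ₁ h₁ τ₂ h₂ hne
    exact hB τ₁ h₁ τ₂ h₂ hne (by rw [hall τ₁ h₁, hall τ hτ]) (by rw [hall τ₂ h₂, hall τ hτ])
  have hmem : ∀ p ∈ tri (S.sh (some v₁) S.n), p.1 ∈ S.sh (some v₁) S.n ∧
      p.2.1 ∈ S.sh (some v₁) S.n ∧ p.2.2 ∈ S.sh (some v₁) S.n ∧
      p.1 ≠ p.2.1 ∧ p.1 ≠ p.2.2 ∧ p.2.1 ≠ p.2.2 := by
    intro p hp
    simp only [tri, Finset.mem_filter, Finset.mem_product] at hp
    exact ⟨hp.1.1, hp.1.2.1, hp.1.2.2, hp.2.1, hp.2.2.1, hp.2.2.2⟩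
  have hWne : ∀ p ∈ tri (S.sh (some v₁) S.n), S.W (some v₁) p.1 p.2.1 p.2.2 ≠ 0 := by
    intro p hp h0
    have h3 := hc.1
    unfold col at h3
    rw [Finset.card_eq_zero] at h3
    have h4 : p ∈ (tri (S.sh (some v₁) S.n)).filter
        (fun p => S.W (some v₁) p.1 p.2.1 p.2.2 = 0) := Finset.mem_filter.2 ⟨hp, h0⟩
    rw [h3] at h4
    exact absurd h4 (Finset.notMem_empty _)
  have hF := F2_abs (S.sh (some v₁) S.n) (S.rho (some v₁) S.n) (fun i j => rho_symm)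
    (S.om (some v₁) S.n) (fun _ _ _ => False) (4 / 5) (fun p _ h => h.elim)
    (fun p hp _ => by
      obtain ⟨m1, m2, m3, n12, n13, n23⟩ := hmem p hp
      have e12 := hrho _ m1 _ m2 n12
      have e13 := hrho _ m1 _ m3 n13
      have e23 := hrho _ m2 _ m3 n23
      have h3 := om_eq hN0 m1 m2 m3 n12 n13 n23 (hWne p hp) (by rw [e12, e13])
      rw [e12] at h3
      rw [e12, e13, e23]
      have h4 : (1 : ℚ) / ((S.n : ℕ) : ℚ) = 1 / 5 := by rw [hn]; norm_num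
      rw [h4] at h3
      linarith)
  have hF' : 2 * ((S.n : ℚ) - 2) * S.S2 (some v₁) S.n
      - 4 / 5 * ((S.n : ℚ) * (S.n - 1) * (S.n - 2)) ≤ S.S3 (some v₁) S.n := by
    have h3 := hF
    simp only [not_false_eq_true, Finset.filter_true, card_tri, hcard] at h3
    exact h3
  have hG := F2int hAn
  rw [hc.2] at hG
  have hcast : ((S.n - 1 : ℕ) : ℚ) = 4 := by rw [hn]; norm_num
  have hcast' : (S.n : ℚ) = 5 := by rw [hn]; norm_num
  rw [hcast, hcast'] at hG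
  rw [hcast'] at hF' hT2 hT3
  simp only [Nat.cast_zero, sub_zero] at hG
  norm_num at hG hF' hT2 hT3
  linarith

end Cur

end WR
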