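import Pool.Agent.helper51.WR.Fine

/-!
# WR-Fine23: `n = 2` and `n = 3`

`n = 2`: `fine`; `class_prime` (`N = 2`) at `v₁`: pair order `B/2`, `S2 = B`; at infinity `N = 1`: one sheet with
finite centre, one with centre infinity, `rho = - m` (`rho_mix`), `S2 = - 2 m`. `B + o - 2 m = 2`. `B ≥ 3`: all odd
coefficients below `0` vanish, the one at `1` vanishes by the cusp (as in `X2`; or apply `x2` at `v₁`).
`n = 3`: at `v₁` (`N = 3`, `class_prime`): all `rho = B/3`, `S2 = 2 B`, `S3 ≥ 4 B - 4` (`om_eq`; `col = 0`).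
At infinity (`N = 2`): two sheets with centre infinity with `rho = B'/2`, `B'` odd, `B' ≥ - m`, one with finite
centre, `rho = - m/2`: `S2 = - 2 m + B'`, `S3 ≥ - 3 m + 3 B' - 6` if `B' > - m`, `S3 ≥ - 6 m - 3` if
`B' = - m`. `T2`: `2 B + o - 2 m + B' = 6`. Case `B' > - m`: `4 B - 4 - 3 m + 3 B' - 6 + 3 o - 6 ≤ 0` gives
`o + m + B' ≤ 4`, so `B' = 1 - m`, `o = 3`; `B'` odd: `m = 2 K`, `B = 3 K + 1`. Case `B' = - m`:
`4 B - 4 - 6 m - 3 + 3 o - 6 ≤ 0` gives `o ≤ 1`: impossible. The coefficient of `y none τ` at `B' = 1 - m` is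
not zero (`class_prime`).
-/

namespace WR

open Polynomial

theorem Fine23_sum2_const {A : Type} (R : Finset A) (f : A → A → ℚ) (c : ℚ)
    (h : ∀ x ∈ R, ∀ y ∈ R, x ≠ y → f x y = c) :
    sum2 R f = (R.card : ℚ) * (R.card - 1) * c := by
  classical
  have h1 : sum2 R f = ∑ _p ∈ prs R, c := by
    unfold sum2
    refine Finset.sum_congr rfl ?_
    intro p hp
    unfold prs at hp
    rw [Finset.mem_filter, Finset.mem_product] at hp
    exact h _ hp.1.1 _ hp.1.2 hp.2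
  rw [h1, Finset.sum_const, nsmul_eq_mul, card_prs]

theorem Fine23_sum3_ge {A : Type} (R : Finset A) (f : A → A → A → ℚ) (c : ℚ)
    (h : ∀ x ∈ R, ∀ y ∈ R, ∀ z ∈ R, x ≠ y → x ≠ z → y ≠ z → c ≤ f x y z) :
    (R.card : ℚ) * (R.card - 1) * (R.card - 2) * c ≤ sum3 R f := by
  classical
  have h1 : ∑ _p ∈ tri R, c ≤ sum3 R f := by
    unfold sum3
    refine Finset.sum_le_sum ?_
    intro p hp
    unfold tri at hp
    rw [Finset.mem_filter, Finset.mem_product, Finset.mem_product] at hp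
    exact h _ hp.1.1 _ hp.1.2.1 _ hp.1.2.2 hp.2.1 hp.2.2.1 hp.2.2.2
  rw [Finset.sum_const, nsmul_eq_mul, card_tri] at h1
  exact h1

open Classical in
theorem Fine23_sum2_three {A : Type} {a b u : A} (hab : a ≠ b) (hau : a ≠ u) (hbu : b ≠ u)
    (f : A → A → ℚ) :
    sum2 ({a, b, u} : Finset A) f = f a b + f a u + f b a + f b u + f u a + f u b := by
  have h1 : sum2 ({a, b, u} : Finset A) f =
      ∑ x ∈ ({a, b, u} : Finset A), ∑ y ∈ ({a, b, u} : Finset A), if x ≠ y then f x y else 0 := by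
    unfold sum2 prs
    rw [Finset.sum_filter, Finset.sum_product]
  have ha : a ∉ ({b, u} : Finset A) := by
    rw [Finset.mem_insert, Finset.mem_singleton]
    rintro (h | h)
    · exact hab h
    · exact hau h
  have hb : b ∉ ({u} : Finset A) := by
    rw [Finset.mem_singleton]
    exact hbu
  rw [h1]
  simp only [Finset.sum_insert ha, Finset.sum_insert hb, Finset.sum_singleton]
  simp [hab, hau, hbu, hab.symm, hau.symm, hbu.symm]
  ring

namespace Cur

/-- no collinear triples -/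
theorem Fine23_W_ne {S : Cur} {P : Option ℂ} {N : ℕ} (h : S.col P N = 0) {x y z : M}
    (hx : x ∈ S.sh P N) (hy : y ∈ S.sh P N) (hz : z ∈ S.sh P N) (hxy : x ≠ y) (hxz : x ≠ z)
    (hyz : y ≠ z) : S.W P x y z ≠ 0 := by
  classical
  intro hW
  unfold col at h
  rw [Finset.card_eq_zero] at h
  have hm : (x, y, z) ∈ (tri (S.sh P N)).filter (fun p => S.W P p.1 p.2.1 p.2.2 = 0) := by
    unfold tri
    rw [Finset.mem_filter, Finset.mem_filter, Finset.mem_product, Finset.mem_product]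
    exact ⟨⟨⟨hx, hy, hz⟩, hxy, hxz, hyz⟩, hW⟩
  rw [h] at hm
  exact Finset.notMem_empty _ hm

open Classical in
/-- all sheets have the centre `t` if `e = n` -/
theorem Fine23_cen {S : Cur} {P : Option ℂ} {N : ℕ} (hN : S.Adm P N) {t : ℂ}
    (he : S.e P t = S.n) : ∀ τ ∈ S.sh P N, cen τ = some t := by
  have h1 : (S.sh P N).filter (fun τ => cen τ = some t) = S.sh P N := by
    refine Finset.eq_of_subset_of_card_le (Finset.filter_subset _ _) ?_
    rw [S.card_cen P hN t, S.sh_card P hN, he]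
  intro τ hτ
  rw [← h1, Finset.mem_filter] at hτ
  exact hτ.2

open Classical in
theorem Fine23_class {S : Cur} {P : Option ℂ} {N : ℕ} (hN : S.Adm P N) {t : ℂ}
    (he : S.e P t = S.n) {τ : M} (hτ : τ ∈ S.sh P N) :
    ((S.sh P N).filter (fun τ' => cen τ' = cen τ)).card = S.n := by
  rw [Fine23_cen hN he τ hτ, S.card_cen P hN t, he]

theorem Fine23_exists {S : Cur} {P : Option ℂ} {N : ℕ} (hN : S.Adm P N) :
    ∃ τ, τ ∈ S.sh P N := by
  have h1 := S.sh_card P hN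
  have h2 := S.hkn
  have h3 : 0 < (S.sh P N).card := by omega
  exact Finset.card_pos.mp h3

/-- the coefficient of `y` at `1` vanishes at a cusp with `e = 2`, `N = 2` -/
theorem Fine23_cusp {S : Cur} {P : Option ℂ} {t : ℂ} (he : S.e P t = 2) {τ : M}
    (hτ : τ ∈ S.sh P 2) (ht : cen τ = some t) (hc : S.IsCusp t) :
    (S.y P τ).coeff 1 = 0 := by
  have h1 : Ge (S.g P τ) (2 * ((1 : ℕ) : ℤ) - ((2 : ℕ) : ℤ)) :=
    g_cusp (N := 2) (h := 1) (by norm_num) hτ ht (by rw [he]) hc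
  have h2 := chain (S := S) (P := P) (N := 2) (by norm_num) ((S.mem_sh P (by norm_num) τ).mp hτ)
  have h3 : Ge (((2 : ℕ) : M) * sp ((2 : ℕ) : ℤ) * S.g P τ) 2 := by
    have h4 : ((2 : ℕ) : M) = algebraMap ℂ M 2 := by
      rw [map_ofNat]
      norm_num
    have h5 : Ge (sp ((2 : ℕ) : ℤ)) 2 := by
      rw [ge_iff (sp_ne _), ord_sp]
      norm_num
    have h6 := ge_mul (ge_mul (ge_algebraMap (2 : ℂ)) h5) h1
    rw [← h4] at h6
    exact ge_mono h6 (by norm_num)
  rw [h2] at h3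
  have h7 := h3 1 (by norm_num)
  rw [eul_coeff] at h7
  simpa using h7

open Classical in
theorem Fine23_none {S : Cur} {N : ℕ} (hN : S.Adm none N) (hk : S.k = 1) :
    ∃ u, (S.sh none N).filter (fun τ => cen τ ≠ none) = {u} := by
  have h1 := S.card_cen_none none hN
  rw [if_pos rfl] at h1
  have h2 := S.sh_card none hN
  have h3 := Finset.card_filter_add_card_filter_not (s := S.sh none N) (fun τ => cen τ = none)
  have h4 := S.hkn
  have h5 : ((S.sh none N).filter (fun τ => cen τ ≠ none)).card = 1 := by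
    have h6 : ((S.sh none N).filter (fun τ => cen τ ≠ none)).card =
      ((S.sh none N).filter (fun τ => ¬ (cen τ = none))).card := rfl
    rw [h6]
    omega
  exact Finset.card_eq_one.mp h5

theorem data2 (S : Cur) (hn : S.n = 2) (hk : S.k = 1) {v₁ t₁ : ℂ} (he : S.e (some v₁) t₁ = S.n)
    (h2 : ∃ t t' : ℂ, t ≠ t' ∧ S.IsCusp t ∧ S.IsCusp t') :
    ∃ (v₂ t₂ : ℂ) (l₁ l₂ : ℕ), t₂ ≠ t₁ ∧ (∀ t, S.IsCusp t ↔ t = t₁ ∨ t = t₂) ∧
      S.e (some v₂) t₂ = 2 ∧ 1 ≤ l₁ ∧ 1 ≤ l₂ ∧ l₁ + l₂ = S.m ∧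
      (∃ τ ∈ S.sh (some v₁) 2, cen τ = some t₁ ∧ (S.y (some v₁) τ).coeff (2 * l₁ + 1) ≠ 0 ∧
        ∀ l : ℤ, l < 2 * l₁ + 1 → ¬ (2 : ℤ) ∣ l → (S.y (some v₁) τ).coeff l = 0) ∧
      (∃ τ ∈ S.sh (some v₂) 2, cen τ = some t₂ ∧ (S.y (some v₂) τ).coeff (2 * l₂ + 1) ≠ 0 ∧
        ∀ l : ℤ, l < 2 * l₂ + 1 → ¬ (2 : ℤ) ∣ l → (S.y (some v₂) τ).coeff l = 0) ∧
      ∃ τ ∈ S.sh none 1, cen τ = none := by
  classical
  obtain ⟨v₂, t₂, o, hne, hcu, he2, hA1, hA0, ho3, ho2, hx2, hS2, -, -⟩ := fine S hk he h2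
  rw [hn] at hA1 hA0 hS2
  have hA0' : S.Adm none 1 := hA0
  have hcen := Fine23_cen hA1 he
  obtain ⟨τ, hτ⟩ := Fine23_exists hA1
  have hcard := Fine23_class hA1 he hτ
  rw [hn] at hcard
  obtain ⟨B, hB2, hB0, hBl, hBr⟩ := class_prime hA1 Nat.prime_two hτ hcard
  -- the sum at `v₁`
  have hS1 : S.S2 (some v₁) 2 = B := by
    unfold S2
    rw [Fine23_sum2_const (S.sh (some v₁) 2) (S.rho (some v₁) 2) ((B : ℚ) / (2 : ℕ)), S.sh_card _ hA1, hn]
    · push_cast
      ring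
    · intro x hx y hy hxy
      exact hBr x hx y hy hxy (by rw [hcen x hx, hcen τ hτ]) (by rw [hcen y hy, hcen τ hτ])
  -- the sum at infinity
  obtain ⟨u, hu⟩ := Fine23_none hA0' hk
  have huu : ∀ x ∈ S.sh none 1, cen x ≠ none → x = u := by
    intro x hx hx'
    have h1 : x ∈ (S.sh none 1).filter (fun τ => cen τ ≠ none) := Finset.mem_filter.mpr ⟨hx, hx'⟩
    rw [hu] at h1
    exact Finset.mem_singleton.mp h1
  have hcn := S.card_cen_none none hA0'
  rw [if_pos rfl, hn, hk] at hcn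
  obtain ⟨w, hw⟩ := Finset.card_eq_one.mp hcn
  have hww : ∀ x ∈ S.sh none 1, cen x = none → x = w := by
    intro x hx hx'
    have h1 : x ∈ (S.sh none 1).filter (fun τ => cen τ = none) := Finset.mem_filter.mpr ⟨hx, hx'⟩
    rw [hw] at h1
    exact Finset.mem_singleton.mp h1
  have hS0 : S.S2 none 1 = - 2 * (S.m : ℚ) := by
    unfold S2
    rw [Fine23_sum2_const (S.sh none 1) (S.rho none 1) (-(S.m : ℚ)), S.sh_card _ hA0', hn]
    · push_cast
      ring
    · intro x hx y hy hxy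
      have hq : -((S.m : ℚ) / ((S.n : ℚ) - S.k)) = -(S.m : ℚ) := by
        rw [hn, hk]
        norm_num
      by_cases hcx : cen x = none
      · by_cases hcy : cen y = none
        · exact absurd ((hww x hx hcx).trans (hww y hy hcy).symm) hxy
        · rw [rho_mix (by norm_num) hx hy hcx hcy, hq]
      · by_cases hcy : cen y = none
        · rw [rho_symm, rho_mix (by norm_num) hy hx hcy hcx, hq]
        · exact absurd ((huu x hx hcx).trans (huu y hy hcy).symm) hxy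
  have hS0' : S.S2 none (2 - 1) = - 2 * (S.m : ℚ) := hS0
  rw [hS1, hS0'] at hS2
  have hS2' : ((B + o - 2 * (S.m : ℤ) : ℤ) : ℚ) = ((2 : ℤ) : ℚ) := by
    push_cast
    push_cast at hS2
    linarith
  have hI : B + o - 2 * (S.m : ℤ) = 2 := by exact_mod_cast hS2'
  -- `B ≥ 3`
  have hB1 : B ≠ 1 := by
    intro h
    have h1 := Fine23_cusp (P := some v₁) (by rw [he, hn]) hτ (hcen τ hτ)
      ((hcu t₁).mpr (Or.inl rfl))
    rw [h] at hB0
    exact hB0 h1
  have hBn : 0 ≤ B := by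
    by_contra h
    exact hB0 ((y_fin (by norm_num) hτ (hcen τ hτ)).1 B (by omega))
  have hB2' : ¬ (2 : ℤ) ∣ B := by exact_mod_cast hB2
  have hB3 : 3 ≤ B := by omega
  obtain ⟨l₁, hl₁⟩ : ∃ l₁ : ℕ, B = 2 * l₁ + 1 := ⟨((B - 1) / 2).toNat, by omega⟩
  obtain ⟨l₂, hl₂⟩ : ∃ l₂ : ℕ, o = 2 * l₂ + 1 := ⟨((o - 1) / 2).toNat, by omega⟩
  refine ⟨v₂, t₂, l₁, l₂, hne, hcu, he2, by omega, by omega, by omega, ?_, ?_, ?_⟩
  · refine ⟨τ, hτ, hcen τ hτ, ?_, ?_⟩
    · rw [← hl₁]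
      exact hB0
    · intro l hl hl'
      rw [← hl₁] at hl
      exact hBl l hl (by exact_mod_cast hl')
  · obtain ⟨τ', h1, h2, h3, h4⟩ := hx2
    refine ⟨τ', h1, h2, ?_, ?_⟩
    · rw [← hl₂]
      exact h3
    · intro l hl hl'
      rw [← hl₂] at hl
      exact h4 l hl hl'
  · have h1 : w ∈ (S.sh none 1).filter (fun τ => cen τ = none) := by
      rw [hw]
      exact Finset.mem_singleton_self w
    rw [Finset.mem_filter] at h1
    exact ⟨w, h1.1, h1.2⟩

theorem data3 (S : Cur) (hn : S.n = 3) (hk : S.k = 1) {v₁ t₁ : ℂ} (he : S.e (some v₁) t₁ = S.n)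
    (h2 : ∃ t t' : ℂ, t ≠ t' ∧ S.IsCusp t ∧ S.IsCusp t') :
    ∃ (v₂ t₂ : ℂ) (K : ℕ), t₂ ≠ t₁ ∧ (∀ t, S.IsCusp t ↔ t = t₁ ∨ t = t₂) ∧
      S.e (some v₂) t₂ = 2 ∧ 1 ≤ K ∧ S.m = 2 * K ∧
      (∃ τ ∈ S.sh (some v₁) 3, cen τ = some t₁ ∧ (S.y (some v₁) τ).coeff (3 * K + 1) ≠ 0 ∧
        ∀ l : ℤ, l < 3 * K + 1 → ¬ (3 : ℤ) ∣ l → (S.y (some v₁) τ).coeff l = 0) ∧
      (∃ τ ∈ S.sh (some v₂) 2, cen τ = some t₂ ∧ (S.y (some v₂) τ).coeff 3 ≠ 0 ∧
        ∀ l : ℤ, l < 3 → ¬ (2 : ℤ) ∣ l → (S.y (some v₂) τ).coeff l = 0) ∧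
      ∃ τ ∈ S.sh none 2, cen τ = none ∧ (S.y none τ).coeff (1 - 2 * K) ≠ 0 := by
  classical
  obtain ⟨v₂, t₂, o, hne, hcu, he2, hA1, hA0, ho3, ho2, hx2, hS2, hS3, hcol⟩ := fine S hk he h2
  obtain ⟨hcol1, hcol0⟩ := hcol (by omega)
  rw [hn] at hA1 hA0 hS2 hS3 hcol1 hcol0
  have hA0' : S.Adm none 2 := hA0
  have hcol0' : S.col none 2 = 0 := hcol0
  have hcen := Fine23_cen hA1 he
  obtain ⟨τ, hτ⟩ := Fine23_exists hA1
  have hcard := Fine23_class hA1 he hτ
  rw [hn] at hcard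
  obtain ⟨B, hB3, hB0, hBl, hBr⟩ := class_prime hA1 Nat.prime_three hτ hcard
  have hBr' : ∀ x ∈ S.sh (some v₁) 3, ∀ y ∈ S.sh (some v₁) 3, x ≠ y →
      S.rho (some v₁) 3 x y = (B : ℚ) / 3 := by
    intro x hx y hy hxy
    have h1 := hBr x hx y hy hxy (by rw [hcen x hx, hcen τ hτ]) (by rw [hcen y hy, hcen τ hτ])
    rw [h1]
    norm_num
  -- the sums at `v₁`
  have hS21 : S.S2 (some v₁) 3 = 2 * (B : ℚ) := by
    unfold S2
    rw [Fine23_sum2_const (S.sh (some v₁) 3) (S.rho (some v₁) 3) ((B : ℚ) / 3) hBr',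
      S.sh_card _ hA1, hn]
    push_cast
    ring
  have hS31 : 4 * (B : ℚ) - 4 ≤ S.S3 (some v₁) 3 := by
    have h1 := Fine23_sum3_ge (S.sh (some v₁) 3) (S.om (some v₁) 3) (2 * ((B : ℚ) / 3) - 2 / 3) (by
      intro x hx y hy z hz hxy hxz hyz
      have h2 := om_eq (by norm_num) hx hy hz hxy hxz hyz
        (Fine23_W_ne hcol1 hx hy hz hxy hxz hyz) (by rw [hBr' x hx y hy hxy, hBr' x hx z hz hxz])
      rw [hBr' x hx y hy hxy] at h2
      have h3 : ((3 : ℕ) : ℚ) = 3 := by norm_num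
      rw [h3] at h2
      linarith)
    rw [S.sh_card _ hA1, hn] at h1
    unfold S3
    push_cast at h1
    linarith
  -- infinity
  obtain ⟨u, hu⟩ := Fine23_none hA0' hk
  have huu : ∀ x ∈ S.sh none 2, cen x ≠ none → x = u := by
    intro x hx hx'
    have h1 : x ∈ (S.sh none 2).filter (fun τ => cen τ ≠ none) := Finset.mem_filter.mpr ⟨hx, hx'⟩
    rw [hu] at h1
    exact Finset.mem_singleton.mp h1
  have hum : u ∈ S.sh none 2 ∧ cen u ≠ none := by
    have h1 : u ∈ (S.sh none 2).filter (fun τ => cen τ ≠ none) := by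
      rw [hu]
      exact Finset.mem_singleton_self u
    exact Finset.mem_filter.mp h1
  have hcn := S.card_cen_none none hA0'
  rw [if_pos rfl, hn, hk] at hcn
  obtain ⟨a, b, hab, hw⟩ := Finset.card_eq_two.mp hcn
  have ham : a ∈ S.sh none 2 ∧ cen a = none := by
    have h1 : a ∈ (S.sh none 2).filter (fun τ => cen τ = none) := by
      rw [hw]
      exact Finset.mem_insert_self a _
    exact Finset.mem_filter.mp h1
  have hbm : b ∈ S.sh none 2 ∧ cen b = none := by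
    have h1 : b ∈ (S.sh none 2).filter (fun τ => cen τ = none) := by
      rw [hw]
      exact Finset.mem_insert_of_mem (Finset.mem_singleton_self b)
    exact Finset.mem_filter.mp h1
  have hau : a ≠ u := by
    intro h
    exact hum.2 (h ▸ ham.2)
  have hbu : b ≠ u := by
    intro h
    exact hum.2 (h ▸ hbm.2)
  have hR : S.sh none 2 = {a, b, u} := by
    ext x
    rw [Finset.mem_insert, Finset.mem_insert, Finset.mem_singleton]
    constructor
    · intro hx
      by_cases hcx : cen x = none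
      · have h1 : x ∈ (S.sh none 2).filter (fun τ => cen τ = none) :=
          Finset.mem_filter.mpr ⟨hx, hcx⟩
        rw [hw, Finset.mem_insert, Finset.mem_singleton] at h1
        rcases h1 with h1 | h1
        · exact Or.inl h1
        · exact Or.inr (Or.inl h1)
      · exact Or.inr (Or.inr (huu x hx hcx))
    · rintro (h | h | h)
      · rw [h]
        exact ham.1
      · rw [h]
        exact hbm.1
      · rw [h]
        exact hum.1
  have hca : ((S.sh none 2).filter (fun τ' => cen τ' = cen a)).card = 2 := by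
    rw [ham.2]
    exact hcn
  obtain ⟨B', hB'2, hB'0, hB'l, hB'r⟩ := class_prime hA0' Nat.prime_two ham.1 hca
  have hrab : S.rho none 2 a b = (B' : ℚ) / 2 := by
    have h1 := hB'r a ham.1 b hbm.1 hab rfl (by rw [ham.2, hbm.2])
    rw [h1]
    norm_num
  have hq : -((S.m : ℚ) / ((S.n : ℚ) - S.k)) = -((S.m : ℚ) / 2) := by
    rw [hn, hk]
    norm_num
  have hrau : S.rho none 2 a u = -((S.m : ℚ) / 2) := by
    rw [rho_mix (by norm_num) ham.1 hum.1 ham.2 hum.2, hq]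
  have hrbu : S.rho none 2 b u = -((S.m : ℚ) / 2) := by
    rw [rho_mix (by norm_num) hbm.1 hum.1 hbm.2 hum.2, hq]
  have hge : -((S.m : ℚ) / 2) ≤ (B' : ℚ) / 2 := by
    have h1 := rho_inf (by norm_num) ham.1 hbm.1 ham.2 hbm.2
    rw [hrab, hq] at h1
    exact h1
  have hS20 : S.S2 none 2 = (B' : ℚ) - 2 * (S.m : ℚ) := by
    unfold S2
    rw [hR, Fine23_sum2_three hab hau hbu (S.rho none 2)]
    have e1 : S.rho none 2 b a = S.rho none 2 a b := rho_symm
    have e2 : S.rho none 2 u a = S.rho none 2 a u := rho_symm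
    have e3 : S.rho none 2 u b = S.rho none 2 b u := rho_symm
    rw [e1, e2, e3, hrab, hrau, hrbu]
    ring
  have hWab : S.W none a b u ≠ 0 :=
    Fine23_W_ne hcol0' ham.1 hbm.1 hum.1 hab hau hbu
  -- all six triples have the same order
  have e1 : S.om none 2 a u b = S.om none 2 a b u := om_swap23
  have e2 : S.om none 2 b a u = S.om none 2 a b u := om_swap12
  have e3 : S.om none 2 b u a = S.om none 2 a b u := om_swap23.trans e2
  have e4 : S.om none 2 u a b = S.om none 2 a b u := om_swap12.trans e1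
  have e5 : S.om none 2 u b a = S.om none 2 a b u := om_swap23.trans e4
  have hperm : ∀ x ∈ S.sh none 2, ∀ y ∈ S.sh none 2, ∀ z ∈ S.sh none 2, x ≠ y → x ≠ z → y ≠ z →
      S.om none 2 a b u ≤ S.om none 2 x y z := by
    intro x hx y hy z hz hxy hxz hyz
    rw [hR, Finset.mem_insert, Finset.mem_insert, Finset.mem_singleton] at hx hy hz
    rcases hx with hx | hx | hx <;> rcases hy with hy | hy | hy <;>
      rcases hz with hz | hz | hz <;>
      first
        | exact absurd (hx.trans hy.symm) hxy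
        | exact absurd (hx.trans hz.symm) hxz
        | exact absurd (hy.trans hz.symm) hyz
        | (rw [hx, hy, hz]
           done)
        | (rw [hx, hy, hz]
           simp only [e1, e2, e3, e4, e5, le_refl])
  have hS30 : 6 * S.om none 2 a b u ≤ S.S3 none 2 := by
    have h1 := Fine23_sum3_ge (S.sh none 2) (S.om none 2) (S.om none 2 a b u) hperm
    rw [S.sh_card _ hA0', hn] at h1
    unfold S3
    push_cast at h1
    linarith
  have hS20' : S.S2 none (3 - 1) = (B' : ℚ) - 2 * (S.m : ℚ) := hS20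
  rw [hS21, hS20'] at hS2
  have hS30' : 6 * S.om none 2 a b u ≤ S.S3 none (3 - 1) := hS30
  push_cast at hS2 hS3
  have hI2 : 2 * B + o + (B' - 2 * (S.m : ℤ)) = 6 := by
    have h1 : ((2 * B + o + (B' - 2 * (S.m : ℤ)) : ℤ) : ℚ) = ((6 : ℤ) : ℚ) := by
      push_cast
      linarith
    exact_mod_cast h1
  have hB'm : -(S.m : ℤ) ≤ B' := by
    have h1 : ((-(S.m : ℤ) : ℤ) : ℚ) ≤ ((B' : ℤ) : ℚ) := by
      push_cast
      linarith
    exact_mod_cast h1
  have hB'2' : ¬ (2 : ℤ) ∣ B' := by exact_mod_cast hB'2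
  have hmm := S.hm
  have hmain : o = 3 ∧ B' = 1 - (S.m : ℤ) := by
    by_cases hBm : B' = -(S.m : ℤ)
    · exfalso
      have hBq : (B' : ℚ) = -(S.m : ℚ) := by
        rw [hBm]
        push_cast
        ring
      have h1 := om_eq (by norm_num) ham.1 hbm.1 hum.1 hab hau hbu hWab (by
        rw [hrab, hrau, hBq]
        ring)
      rw [hrab] at h1
      have h3 : ((2 : ℕ) : ℚ) = 2 := by norm_num
      rw [h3] at h1
      have h2 : ((4 * B - 4 + 6 * B' - 3 + 3 * o - 6 : ℤ) : ℚ) ≤ ((0 : ℤ) : ℚ) := by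
        push_cast
        linarith
      have h4 : 4 * B - 4 + 6 * B' - 3 + 3 * o - 6 ≤ 0 := by exact_mod_cast h2
      omega
    · have h1 := om_naive (by norm_num) ham.1 hbm.1 hum.1 hab hau hbu hWab
      rw [hrab, hrau] at h1
      have h2 : ((4 * B - 4 + 3 * B' - 3 * (S.m : ℤ) - 6 + 3 * o - 6 : ℤ) : ℚ) ≤
          ((0 : ℤ) : ℚ) := by
        push_cast
        linarith
      have h4 : 4 * B - 4 + 3 * B' - 3 * (S.m : ℤ) - 6 + 3 * o - 6 ≤ 0 := by exact_mod_cast h2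
      omega
  obtain ⟨ho, hB'e⟩ := hmain
  obtain ⟨K, hK⟩ : ∃ K : ℕ, S.m = 2 * K := ⟨S.m / 2, by omega⟩
  have hBe : B = 3 * (K : ℤ) + 1 := by omega
  refine ⟨v₂, t₂, K, hne, hcu, he2, by omega, hK, ?_, ?_, ?_⟩
  · refine ⟨τ, hτ, hcen τ hτ, ?_, ?_⟩
    · rw [← hBe]
      exact hB0
    · intro l hl hl'
      rw [← hBe] at hl
      exact hBl l hl (by exact_mod_cast hl')
  · obtain ⟨τ', h1, h2, h3, h4⟩ := hx2
    rw [ho] at h3 h4
    exact ⟨τ', h1, h2, h3, h4⟩
  · refine ⟨a, ham.1, ham.2, ?_⟩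
    have h1 : (1 - 2 * (K : ℤ)) = B' := by
      rw [hB'e, hK]
      push_cast
      ring
    rw [h1]
    exact hB'0

end Cur

end WR
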