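import Pool.Agent.helper51.WR.CombC
import Pool.Agent.helper51.WR.PlI

/-!
# WR-PlC: the inequalities at a place with a weight `f`

`F1c`, `F2c`: at a finite place with `e_t + f ≤ n` for all `t`. `I1c`: at infinity, `f ≤ k`, `f ≤ n - k`.
-/

namespace WR

open Polynomial

namespace Cur

variable {S : Cur}

theorem PlC_diff {v : ℂ} {N : ℕ} (hN : S.Adm (some v) N) {x y : M} (hx : x ∈ S.sh (some v) N)
    (hy : y ∈ S.sh (some v) N) (hne : cen x ≠ cen y) : S.rho (some v) N x y = 0 := by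
  obtain ⟨t, ht⟩ := Option.ne_none_iff_exists'.1 (PlF_cen hN hx)
  obtain ⟨t', ht'⟩ := Option.ne_none_iff_exists'.1 (PlF_cen hN hy)
  refine rho_diff hN.1 hx hy ht ht' ?_
  rintro rfl
  exact hne (ht.trans ht'.symm)

open Classical in
theorem PlC_class {v : ℂ} {N : ℕ} (hN : S.Adm (some v) N) {f : ℕ}
    (hf : ∀ t, S.e (some v) t + f ≤ S.n) (i : M) (hi : i ∈ S.sh (some v) N) :
    ((S.sh (some v) N).filter (fun j => cen j = cen i)).card + f ≤ (S.sh (some v) N).card := by
  have hn : (S.sh (some v) N).card = S.n := S.sh_card (some v) hN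
  obtain ⟨t, ht⟩ := Option.ne_none_iff_exists'.1 (PlF_cen hN hi)
  have h1 := S.card_cen (some v) hN t
  have h2 := hf t
  rw [hn, ht]
  have h3 : ((S.sh (some v) N).filter (fun τ => cen τ = some t)).card = S.e (some v) t := by
    convert h1
  omega

theorem F1c {v : ℂ} {N : ℕ} (hN : S.Adm (some v) N) {f : ℕ}
    (hf : ∀ t, S.e (some v) t + f ≤ S.n) :
    (2 * ((S.n : ℚ) - 2) + f) * S.S2 (some v) N
      - 3 * ((S.n : ℚ) - 1) * ((S.n : ℚ) - 2) * S.Ram (some v) ≤ S.S3 (some v) N := by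
  classical
  have hn : (S.sh (some v) N).card = S.n := S.sh_card (some v) hN
  have key := F1c_abs (S.sh (some v) N) cen (S.rho (some v) N)
    (S.om (some v) N) (S.PlF_ep (some v)) f
    (by
      intro p hp
      obtain ⟨a1, a2, a3, a4, a5, a6⟩ := PlF_mem_tri hp
      exact pw_fin hN a1 a2 a3 a4 a5 a6 (PlF_cen hN a1) (PlF_cen hN a2) (PlF_cen hN a3))
    (by
      intro p hp hne
      obtain ⟨a1, a2, a3⟩ := PlF_mem_prs hp
      exact PlC_diff hN a1 a2 hne)
    (by
      intro p hp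
      obtain ⟨a1, a2, a3⟩ := PlF_mem_prs hp
      exact rho_nonneg hN.1 a1 a2 (PlF_cen hN a1) (PlF_cen hN a2))
    (by
      intro i hi
      convert PlC_class hN hf i hi)
  rw [hn, PlF_sum hN] at key
  exact key

open Classical in
/-- the pointwise inequality with cost `1` -/
theorem PlC_pw {v : ℂ} {N : ℕ} (hN : S.Adm (some v) N) {τ₁ τ₂ τ₃ : M} (h₁ : τ₁ ∈ S.sh (some v) N)
    (h₂ : τ₂ ∈ S.sh (some v) N) (h₃ : τ₃ ∈ S.sh (some v) N) (h12 : τ₁ ≠ τ₂) (h13 : τ₁ ≠ τ₃)
    (h23 : τ₂ ≠ τ₃) :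
    2 / 3 * (S.rho (some v) N τ₁ τ₂ + S.rho (some v) N τ₁ τ₃ + S.rho (some v) N τ₂ τ₃)
      - (if ¬ (S.W (some v) τ₁ τ₂ τ₃ = 0) then 1 else 0)
      + 1 / 3 * (gn cen (S.rho (some v) N) τ₁ τ₂ τ₃ + gn cen (S.rho (some v) N) τ₂ τ₁ τ₃
        + gn cen (S.rho (some v) N) τ₃ τ₁ τ₂) ≤ S.om (some v) N τ₁ τ₂ τ₃ := by
  have hN0 : 0 < N := hN.1
  by_cases hW : S.W (some v) τ₁ τ₂ τ₃ = 0
  · obtain ⟨g1, g2, g3⟩ := om_col hN0 h₁ h₂ h₃ h12 h13 h23 hW
    have z1 : gn cen (S.rho (some v) N) τ₁ τ₂ τ₃ = 0 := by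
      unfold gn
      split_ifs with h
      · have := PlC_diff hN h₁ h₂ h.2
        linarith
      · rfl
    have z2 : gn cen (S.rho (some v) N) τ₂ τ₁ τ₃ = 0 := by
      unfold gn
      split_ifs with h
      · have := PlC_diff hN h₁ h₂ (Ne.symm h.2)
        linarith
      · rfl
    have z3 : gn cen (S.rho (some v) N) τ₃ τ₁ τ₂ = 0 := by
      unfold gn
      split_ifs with h
      · have := PlC_diff hN h₁ h₃ (Ne.symm h.2)
        linarith
      · rfl
    rw [z1, z2, z3, if_neg (fun h => h hW)]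
    linarith
  · obtain ⟨b1, b2, b3⟩ := PlF_naive hN0 h₁ h₂ h₃ h12 h13 h23 hW
    rw [if_pos hW]
    unfold gn
    by_cases e12 : cen τ₁ = cen τ₂
    · by_cases e13 : cen τ₁ = cen τ₃
      · have e23 : cen τ₂ = cen τ₃ := e12.symm.trans e13
        rw [if_neg (fun h => h.2 e12), if_neg (fun h => h.2 e12.symm), if_neg (fun h => h.2 e13.symm)]
        linarith
      · have e23 : cen τ₂ ≠ cen τ₃ := fun h => e13 (e12.trans h)
        have r13 := PlC_diff hN h₁ h₃ e13
        have r23 := PlC_diff hN h₂ h₃ e23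
        rw [if_neg (fun h => e23 h.1), if_neg (fun h => e13 h.1),
          if_pos ⟨e12, fun h => e13 h.symm⟩]
        linarith
    · by_cases e13 : cen τ₁ = cen τ₃
      · have e23 : cen τ₂ ≠ cen τ₃ := fun h => e12 (e13.trans h.symm)
        have r12 := PlC_diff hN h₁ h₂ e12
        have r23 := PlC_diff hN h₂ h₃ e23
        rw [if_neg (fun h => e23 h.1), if_pos ⟨e13, fun h => e12 h.symm⟩,
          if_neg (fun h => e12 h.1)]
        linarith
      · have r12 := PlC_diff hN h₁ h₂ e12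
        have r13 := PlC_diff hN h₁ h₃ e13
        by_cases e23 : cen τ₂ = cen τ₃
        · rw [if_pos ⟨e23, e12⟩, if_neg (fun h => e13 h.1), if_neg (fun h => e12 h.1)]
          linarith
        · have r23 := PlC_diff hN h₂ h₃ e23
          rw [if_neg (fun h => e23 h.1), if_neg (fun h => e13 h.1), if_neg (fun h => e12 h.1)]
          linarith

theorem F2c {v : ℂ} {N : ℕ} (hN : S.Adm (some v) N) {f : ℕ}
    (hf : ∀ t, S.e (some v) t + f ≤ S.n) :
    (2 * ((S.n : ℚ) - 2) + f) * S.S2 (some v) N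
      - ((S.n : ℚ) * (S.n - 1) * (S.n - 2) - S.col (some v) N) ≤ S.S3 (some v) N := by
  classical
  have hn : (S.sh (some v) N).card = S.n := S.sh_card (some v) hN
  have key := F2c_abs (S.sh (some v) N) cen (S.rho (some v) N)
    (S.om (some v) N) (fun x y z => S.W (some v) x y z = 0) f
    (by
      intro p hp
      obtain ⟨a1, a2, a3, a4, a5, a6⟩ := PlF_mem_tri hp
      convert PlC_pw hN a1 a2 a3 a4 a5 a6)
    (by
      intro p hp hne
      obtain ⟨a1, a2, a3⟩ := PlF_mem_prs hp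
      exact PlC_diff hN a1 a2 hne)
    (by
      intro p hp
      obtain ⟨a1, a2, a3⟩ := PlF_mem_prs hp
      exact rho_nonneg hN.1 a1 a2 (PlF_cen hN a1) (PlF_cen hN a2))
    (by
      intro i hi
      convert PlC_class hN hf i hi)
  have hc := PlF_ncol hN
  have hc' : (((tri (S.sh (some v) N)).filter
      (fun p => ¬ (S.W (some v) p.1 p.2.1 p.2.2 = 0))).card : ℚ) =
      (S.n : ℚ) * (S.n - 1) * (S.n - 2) - S.col (some v) N := by
    convert hc
  rw [← hc', ← hn]
  change (2 * (((S.sh (some v) N).card : ℚ) - 2) + f) * sum2 (S.sh (some v) N) (S.rho (some v) N) - _ ≤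
    sum3 (S.sh (some v) N) (S.om (some v) N)
  convert key

open Classical in
theorem I1c {N : ℕ} (hN : S.Adm none N) {f : ℕ} (hf1 : f ≤ S.k) (hf2 : f + S.k ≤ S.n) :
    (2 * ((S.n : ℚ) - 2) + f) * S.S2 none N
      - ((S.n : ℚ) * (S.n - 1) * (S.n - 2) - S.col none N)
      - 3 * ((S.n : ℚ) - 1) * ((S.n : ℚ) - 2) * S.Ram none
      + S.m * (f * ((S.n : ℚ) + S.k - 1) + S.k * (S.k - 1)) ≤ S.S3 none N := by
  have hN0 : 0 < N := hN.1
  have hkn := S.hkn
  have hn : (S.sh none N).card = S.n := S.sh_card none hN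
  have he : ((S.sh none N).filter (fun τ => cen τ = none)).card = S.n - S.k := by
    have := S.card_cen_none none hN
    rwa [if_pos rfl] at this
  have hk : ((S.sh none N).filter (fun τ => cen τ ≠ none)).card = S.k := by
    have h1 := Finset.card_filter_add_card_filter_not (s := S.sh none N) (fun τ => cen τ = none)
    have h2 : ((S.sh none N).filter (fun τ => cen τ ≠ none)).card =
        ((S.sh none N).filter (fun τ => ¬ cen τ = none)).card := rfl
    rw [h2]
    omega
  have hcast : ((S.n - S.k : ℕ) : ℚ) = (S.n : ℚ) - S.k := Nat.cast_sub (le_of_lt hkn)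
  have hne : (S.n : ℚ) - S.k ≠ 0 := by
    have : (S.k : ℚ) < S.n := by exact_mod_cast hkn
    intro h
    linarith
  have hq : S.PlIq * ((S.n - S.k : ℕ) : ℚ) = S.m := by
    rw [hcast]
    unfold PlIq
    field_simp
  have hcol : (((tri (S.sh none N)).filter
      (fun p => ¬ (S.W none p.1 p.2.1 p.2.2 = 0))).card : ℚ) =
      (S.n : ℚ) * (S.n - 1) * (S.n - 2) - S.col none N := by
    have h1 := Finset.card_filter_add_card_filter_not (s := tri (S.sh none N))
      (fun p => S.W none p.1 p.2.1 p.2.2 = 0)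
    have h2 : S.col none N = ((tri (S.sh none N)).filter
      (fun p => S.W none p.1 p.2.1 p.2.2 = 0)).card := rfl
    have h3 := card_tri (S.sh none N)
    rw [hn] at h3
    have h4 : (((tri (S.sh none N)).filter (fun p => S.W none p.1 p.2.1 p.2.2 = 0)).card : ℚ) +
      (((tri (S.sh none N)).filter
      (fun p => ¬ (S.W none p.1 p.2.1 p.2.2 = 0))).card : ℚ) = ((tri (S.sh none N)).card : ℚ) := by
      exact_mod_cast h1
    rw [h2]
    linarith
  have hram : ∑ τ ∈ (S.sh none N).filter (fun τ => cen τ ≠ none), S.PlIep τ = S.Ram none :=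
    S.sum_ep none hN
  have key := I1c_abs (S.sh none N) cen (S.rho none N) (fun i j => rho_symm) (S.om none N) S.PlIep
    (fun x y z => S.W none x y z = 0) S.PlIq S.k (S.n - S.k) S.m f hk he hf1 (by omega) hq
    (by
      intro p hp
      unfold tri at hp
      rw [Finset.mem_filter, Finset.mem_product, Finset.mem_product] at hp
      exact PlI_pw hN hp.1.1 hp.1.2.1 hp.1.2.2 hp.2.1 hp.2.2.1 hp.2.2.2)
    (fun i _ => S.PlIep_nonneg i)
    (by
      intro p hp h1 h2
      unfold prs at hp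
      rw [Finset.mem_filter, Finset.mem_product] at hp
      exact rho_nonneg hN0 hp.1.1 hp.1.2 h1 h2)
    (by
      intro p hp h1 h2
      unfold prs at hp
      rw [Finset.mem_filter, Finset.mem_product] at hp
      exact rho_mix hN0 hp.1.1 hp.1.2 h1 h2)
    (by
      intro p hp h1 h2
      unfold prs at hp
      rw [Finset.mem_filter, Finset.mem_product] at hp
      exact rho_inf hN0 hp.1.1 hp.1.2 h1 h2)
  rw [hn, hram, hcol, hcast] at key
  have h5 : (S.m : ℚ) * (f * ((S.n : ℚ) + S.k - 1) + S.k * (S.k - 1)) =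
      S.m * (f * (2 * (S.k : ℚ) + ((S.n : ℚ) - S.k) - 1) + S.k * (S.k - 1)) := by ring
  rw [h5]
  exact key

end Cur

end WR
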