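import Pool.Agent.helper51.WR.CombD
import Pool.Agent.helper51.WR.PlC

/-!
# WR-PlD: the inequality at infinity with cost one

`PlD_pw`: the pointwise inequality (every noncollinear triple has cost one). `I1d`: the sum.
-/

namespace WR

open Polynomial

namespace Cur

variable {S : Cur}

open Classical in
/-- the pointwise inequality at infinity, cost `1` -/
theorem PlD_pw {N : ℕ} (hN : S.Adm none N) {i j l : M} (hi : i ∈ S.sh none N)
    (hj : j ∈ S.sh none N) (hl : l ∈ S.sh none N) (hij : i ≠ j) (hil : i ≠ l) (hjl : j ≠ l) :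
    2 / 3 * (S.rho none N i j + S.rho none N i l + S.rho none N j l)
      - (if ¬ (S.W none i j l = 0) then 1 else 0)
      + 1 / 3 * (gi cen (S.rho none N) S.PlIq i j l + gi cen (S.rho none N) S.PlIq j i l
        + gi cen (S.rho none N) S.PlIq l i j) ≤ S.om none N i j l := by
  have hN0 : 0 < N := hN.1
  by_cases hfin : cen i ≠ none ∧ cen j ≠ none ∧ cen l ≠ none
  · obtain ⟨ci0, cj0, cl0⟩ := hfin
    have diff : ∀ {x y : M}, x ∈ S.sh none N → y ∈ S.sh none N → cen x ≠ none → cen y ≠ none →
        cen x ≠ cen y → S.rho none N x y = 0 := by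
      intro x y hx hy hcx hcy hne
      obtain ⟨t, ht⟩ := Option.ne_none_iff_exists'.1 hcx
      obtain ⟨t', ht'⟩ := Option.ne_none_iff_exists'.1 hcy
      refine rho_diff hN0 hx hy ht ht' ?_
      rintro rfl
      exact hne (ht.trans ht'.symm)
    have g : ∀ x y z : M, cen x ≠ none → cen y ≠ none → cen z ≠ none →
        gi cen (S.rho none N) S.PlIq x y z = gn cen (S.rho none N) x y z := by
      intro x y z hx hy hz
      unfold gi gn
      rw [if_pos ⟨hy, hz⟩, if_neg hx]
    rw [g i j l ci0 cj0 cl0, g j i l cj0 ci0 cl0, g l i j cl0 ci0 cj0]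
    by_cases hW : S.W none i j l = 0
    · obtain ⟨g1, g2, g3⟩ := om_col hN0 hi hj hl hij hil hjl hW
      have z1 : gn cen (S.rho none N) i j l = 0 := by
        unfold gn
        split_ifs with h
        · have := diff hi hj ci0 cj0 h.2
          linarith
        · rfl
      have z2 : gn cen (S.rho none N) j i l = 0 := by
        unfold gn
        split_ifs with h
        · have := diff hi hj ci0 cj0 (Ne.symm h.2)
          linarith
        · rfl
      have z3 : gn cen (S.rho none N) l i j = 0 := by
        unfold gn
        split_ifs with h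
        · have := diff hi hl ci0 cl0 (Ne.symm h.2)
          linarith
        · rfl
      rw [z1, z2, z3, if_neg (fun h => h hW)]
      linarith
    · obtain ⟨b1, b2, b3⟩ := PlI_naive hN0 hi hj hl hij hil hjl hW
      rw [if_pos hW]
      unfold gn
      by_cases e12 : cen i = cen j
      · by_cases e13 : cen i = cen l
        · have e23 : cen j = cen l := e12.symm.trans e13
          rw [if_neg (fun h => h.2 e12), if_neg (fun h => h.2 e12.symm),
            if_neg (fun h => h.2 e13.symm)]
          linarith
        · have e23 : cen j ≠ cen l := fun h => e13 (e12.trans h)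
          have r13 := diff hi hl ci0 cl0 e13
          have r23 := diff hj hl cj0 cl0 e23
          rw [if_neg (fun h => e23 h.1), if_neg (fun h => e13 h.1),
            if_pos ⟨e12, fun h => e13 h.symm⟩]
          linarith
      · by_cases e13 : cen i = cen l
        · have e23 : cen j ≠ cen l := fun h => e12 (e13.trans h.symm)
          have r12 := diff hi hj ci0 cj0 e12
          have r23 := diff hj hl cj0 cl0 e23
          rw [if_neg (fun h => e23 h.1), if_pos ⟨e13, fun h => e12 h.symm⟩,
            if_neg (fun h => e12 h.1)]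
          linarith
        · have r12 := diff hi hj ci0 cj0 e12
          have r13 := diff hi hl ci0 cl0 e13
          by_cases e23 : cen j = cen l
          · rw [if_pos ⟨e23, e12⟩, if_neg (fun h => e13 h.1), if_neg (fun h => e12 h.1)]
            linarith
          · have r23 := diff hj hl cj0 cl0 e23
            rw [if_neg (fun h => e23 h.1), if_neg (fun h => e13 h.1), if_neg (fun h => e12 h.1)]
            linarith
  · have h := PlI_pw hN hi hj hl hij hil hjl
    have hc : ci cen S.PlIep (fun x y z => S.W none x y z = 0) i j l =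
        if ¬ (S.W none i j l = 0) then 1 else 0 := by
      unfold ci
      rw [if_neg hfin]
      by_cases hW : S.W none i j l = 0
      · rw [if_pos hW, if_neg (fun h => h hW)]
      · rw [if_neg hW, if_pos hW]
    rw [hc] at h
    exact h

open Classical in
theorem I1d {N : ℕ} (hN : S.Adm none N) {f : ℕ} (hf1 : f ≤ S.k)
    (hf2 : ∀ t, S.e none t + f ≤ S.n) :
    (2 * ((S.n : ℚ) - 2) + f) * S.S2 none N
      - ((S.n : ℚ) * (S.n - 1) * (S.n - 2) - S.col none N)
      + S.m * (f * ((S.n : ℚ) + S.k - 1) + S.k * (S.k - 1)) ≤ S.S3 none N := by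
  have hN0 : 0 < N := hN.1
  have hkn := S.hkn
  have hn : (S.sh none N).card = S.n := S.sh_card none hN
  have he : ((S.sh none N).filter (fun τ => cen τ = none)).card = S.n - S.k := by
    have := S.card_cen_none none hN
    rwa [if_pos rfl] at this
  have hk : ((S.sh none N).filter (fun τ => cen τ ≠ none)).card = S.k := by
    have h1 := Finset.card_filter_add_card_filter_not (s := S.sh none N) (fun τ => cen τ = none)
    have h2 : ((S.sh none N).filter (fun τ => cen τ ≠ none)).card =
        ((S.sh none N).filter (fun τ => ¬ cen τ = none)).card := rfl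
    rw [h2]
    omega
  have hcast : ((S.n - S.k : ℕ) : ℚ) = (S.n : ℚ) - S.k := Nat.cast_sub (le_of_lt hkn)
  have hne : (S.n : ℚ) - S.k ≠ 0 := by
    have : (S.k : ℚ) < S.n := by exact_mod_cast hkn
    intro h
    linarith
  have hq : S.PlIq * ((S.n - S.k : ℕ) : ℚ) = S.m := by
    rw [hcast]
    unfold PlIq
    field_simp
  have hcol : (((tri (S.sh none N)).filter
      (fun p => ¬ (S.W none p.1 p.2.1 p.2.2 = 0))).card : ℚ) =
      (S.n : ℚ) * (S.n - 1) * (S.n - 2) - S.col none N := by
    have h1 := Finset.card_filter_add_card_filter_not (s := tri (S.sh none N))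
      (fun p => S.W none p.1 p.2.1 p.2.2 = 0)
    have h2 : S.col none N = ((tri (S.sh none N)).filter
      (fun p => S.W none p.1 p.2.1 p.2.2 = 0)).card := rfl
    have h3 := card_tri (S.sh none N)
    rw [hn] at h3
    have h4 : (((tri (S.sh none N)).filter (fun p => S.W none p.1 p.2.1 p.2.2 = 0)).card : ℚ) +
      (((tri (S.sh none N)).filter
      (fun p => ¬ (S.W none p.1 p.2.1 p.2.2 = 0))).card : ℚ) = ((tri (S.sh none N)).card : ℚ) := by
      exact_mod_cast h1
    rw [h2]
    linarith
  have key := I1d_abs (S.sh none N) cen (S.rho none N) (fun i j => rho_symm) (S.om none N)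
    (fun x y z => S.W none x y z = 0) S.PlIq S.k (S.n - S.k) S.m f hk he hf1 hq
    (by
      intro p hp
      unfold tri at hp
      rw [Finset.mem_filter, Finset.mem_product, Finset.mem_product] at hp
      exact PlD_pw hN hp.1.1 hp.1.2.1 hp.1.2.2 hp.2.1 hp.2.2.1 hp.2.2.2)
    (by
      intro p hp h1 h2 h3
      unfold prs at hp
      rw [Finset.mem_filter, Finset.mem_product] at hp
      obtain ⟨t, ht⟩ := Option.ne_none_iff_exists'.1 h1
      obtain ⟨t', ht'⟩ := Option.ne_none_iff_exists'.1 h2
      refine rho_diff hN0 hp.1.1 hp.1.2 ht ht' ?_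
      rintro rfl
      exact h3 (ht.trans ht'.symm))
    (by
      intro p hp h1 h2
      unfold prs at hp
      rw [Finset.mem_filter, Finset.mem_product] at hp
      exact rho_nonneg hN0 hp.1.1 hp.1.2 h1 h2)
    (by
      intro p hp h1 h2
      unfold prs at hp
      rw [Finset.mem_filter, Finset.mem_product] at hp
      exact rho_mix hN0 hp.1.1 hp.1.2 h1 h2)
    (by
      intro p hp h1 h2
      unfold prs at hp
      rw [Finset.mem_filter, Finset.mem_product] at hp
      exact rho_inf hN0 hp.1.1 hp.1.2 h1 h2)
    (by
      intro i hi hci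
      obtain ⟨t, ht⟩ := Option.ne_none_iff_exists'.1 hci
      have h1 := S.card_cen none hN t
      have h2 := hf2 t
      rw [hn, ht]
      have h3 : ((S.sh none N).filter (fun τ => cen τ = some t)).card = S.e none t := by
        convert h1
      omega)
  rw [hn, hcol, hcast] at key
  have h5 : (S.m : ℚ) * (f * ((S.n : ℚ) + S.k - 1) + S.k * (S.k - 1)) =
      S.m * (f * (2 * (S.k : ℚ) + ((S.n : ℚ) - S.k) - 1) + S.k * (S.k - 1)) := by ring
  rw [h5]
  exact key

end Cur

end WR
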