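import Pool.Agent.helper51.WR.CombI
import Pool.Agent.helper51.WR.PlD

/-!
# WR-InfB: the inequality at infinity if the tangent line meets the curve in one more point

`CombI_gain` and `PlD_pw` (cost one). All sheets with finite centre have the centre `tu`, so `rho ≥ 1 / k` for
them (`y - value` has the order at least `h`, `N = k h`); the sum over the `k (k - 1)` pairs is at least `k - 1`.
-/

namespace WR

open Polynomial

open Classical in
theorem J1_abs {A : Type} (R : Finset A) (cn : A → Option ℂ) (ρ : A → A → ℚ)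
    (om : A → A → A → ℚ) (cl : A → A → A → Prop) (q : ℚ) (k e0 m : ℕ)
    (hk : (R.filter (fun i => cn i ≠ none)).card = k)
    (he : (R.filter (fun i => cn i = none)).card = e0) (hk1 : 1 ≤ k)
    (hq : q * e0 = m)
    (h : ∀ p ∈ tri R, 2 / 3 * (ρ p.1 p.2.1 + ρ p.1 p.2.2 + ρ p.2.1 p.2.2)
      - (if ¬ cl p.1 p.2.1 p.2.2 then 1 else 0)
      + 1 / 3 * (gi cn ρ q p.1 p.2.1 p.2.2 + gi cn ρ q p.2.1 p.1 p.2.2 + gi cn ρ q p.2.2 p.1 p.2.1)
        ≤ om p.1 p.2.1 p.2.2)
    (hu : ∀ p ∈ prs R, cn p.1 ≠ none → cn p.2 ≠ none → 1 / (k : ℚ) ≤ ρ p.1 p.2)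
    (h0 : ∀ p ∈ prs R, cn p.1 = none → cn p.2 = none → - q ≤ ρ p.1 p.2) :
    2 * ((R.card : ℚ) - 2) * sum2 R ρ
        - ((tri R).filter (fun p => ¬ cl p.1 p.2.1 p.2.2)).card
        + m * (k * (k - 1)) + e0 * (k - 1) ≤ sum3 R om := by
  have hk1' : (1 : ℚ) ≤ k := by exact_mod_cast hk1
  have hk0 : (k : ℚ) ≠ 0 := by linarith
  have h1 := Finset.sum_le_sum h
  rw [Finset.sum_add_distrib, Finset.sum_sub_distrib, Comb_pairs,
    Comb_gains R (gi cn ρ q), ← Finset.sum_filter, Finset.sum_const, nsmul_eq_mul, mul_one] at h1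
  change _ ≤ sum3 R om at h1
  have hgain := CombI_gain R cn ρ q (fun p hp a b => le_trans (by positivity) (hu p hp a b))
  rw [CombI_sum2_add_const, he, hk] at hgain
  have hU : ((k : ℚ) - 1) ≤ sum2 (R.filter (fun i => cn i ≠ none)) ρ := by
    have h2 : sum2 (R.filter (fun i => cn i ≠ none)) (fun _ _ => 1 / (k : ℚ)) ≤
        sum2 (R.filter (fun i => cn i ≠ none)) ρ := by
      refine Finset.sum_le_sum fun p hp => ?_
      obtain ⟨a, b, c⟩ := CombI_mem_prs_of_filter R _ p hp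
      exact hu p a b c
    have h3 : sum2 (R.filter (fun i => cn i ≠ none)) (fun _ _ => 1 / (k : ℚ)) = (k : ℚ) - 1 := by
      unfold sum2
      rw [Finset.sum_const, nsmul_eq_mul, card_prs, hk]
      field_simp
    linarith
  have hC0 : 0 ≤ sum2 (R.filter (fun i => cn i = none)) (fun j l => q + ρ j l) := by
    refine CombI_sum2_nonneg _ _ fun p hp => ?_
    obtain ⟨a, b, c⟩ := CombI_mem_prs_of_filter R _ p hp
    have := h0 p a b c
    linarith
  have he0 : (0 : ℚ) ≤ e0 := Nat.cast_nonneg _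
  have h4 : (e0 : ℚ) * (k - 1) ≤ e0 * sum2 (R.filter (fun i => cn i ≠ none)) ρ :=
    mul_le_mul_of_nonneg_left hU he0
  have h5 : 0 ≤ (k : ℚ) * sum2 (R.filter (fun i => cn i = none)) (fun j l => q + ρ j l) :=
    mul_nonneg (by linarith) hC0
  have h6 : (e0 : ℚ) * (k * (k - 1) * q) = m * (k * (k - 1)) := by
    rw [← hq]
    ring
  have h7 : (e0 : ℚ) * (k * (k - 1) * q + sum2 (R.filter (fun i => cn i ≠ none)) ρ) =
      e0 * (k * (k - 1) * q) + e0 * sum2 (R.filter (fun i => cn i ≠ none)) ρ := by ring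
  rw [h7, h6] at hgain
  linarith

namespace Cur

variable {S : Cur}

/-- the order of `y - value` -/
theorem InfB_ge {P : Option ℂ} {N h : ℕ} (hN : 0 < N) {τ : M} (hτ : τ ∈ S.sh P N) {t : ℂ}
    (ht : cen τ = some t) (hh : N = S.e P t * h) :
    Ge (S.y P τ - algebraMap ℂ M (S.c.eval t / (S.be P).eval t)) h := by
  obtain ⟨hroot, hbe, h', h0', hh', hG, hne, ho⟩ := loc_fin hN hτ ht
  obtain ⟨hg, h0⟩ := Loc_cen_some ht
  have he : 0 < S.e P t := (rootMultiplicity_pos (S.al_ne P)).2 hroot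
  have heq : h' = h := Nat.eq_of_mul_eq_mul_left he (by rw [← hh', hh])
  subst heq
  have hb := be_ne ((S.mem_sh P hN τ).1 hτ)
  have hob : (aeval τ (S.be P)).order = 0 := by
    have h1 := ge_aeval hg (S.be P)
    rw [h0] at h1
    exact (ord_eq h1.1 (by rw [h1.2]; exact hbe)).2
  obtain ⟨w, hw⟩ : ∃ w : ℂ, w = S.c.eval t / (S.be P).eval t := ⟨_, rfl⟩
  rw [← hw]
  have hr : (S.c - C w * S.be P).IsRoot t := by
    rw [IsRoot.def, eval_sub, eval_mul, eval_C, hw, div_mul_cancel₀ _ hbe, sub_self]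
  obtain ⟨q, hq⟩ := dvd_iff_isRoot.2 hr
  have h1 : S.y P τ - algebraMap ℂ M w =
      (τ - algebraMap ℂ M t) * aeval τ q / aeval τ (S.be P) := by
    have h2 := congrArg (aeval τ) hq
    rw [map_sub, map_mul, map_mul, map_sub, aeval_C, aeval_C, aeval_X] at h2
    rw [← h2]
    unfold y
    rw [sub_div, mul_div_cancel_right₀ _ hb]
  rw [h1]
  have h3 := ge_div (ge_mul hG (ge_aeval hg q).1) hb
  rw [hob, add_zero, sub_zero] at h3
  exact h3

/-- two sheets with the same finite centre -/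
theorem InfB_rho {P : Option ℂ} {N : ℕ} (hN : 0 < N) {τ τ' : M} (hτ : τ ∈ S.sh P N)
    (hτ' : τ' ∈ S.sh P N) (hne : τ ≠ τ') {t : ℂ} (ht : cen τ = some t) (ht' : cen τ' = some t) :
    1 / (S.e P t : ℚ) ≤ S.rho P N τ τ' := by
  obtain ⟨hroot, -, h, h0, hh, -⟩ := loc_fin hN hτ ht
  have h1 := ge_sub (InfB_ge hN hτ ht hh) (InfB_ge hN hτ' ht' hh)
  rw [sub_sub_sub_cancel_right] at h1
  have h2 := (ge_iff (Y_ne hN hτ hτ' hne)).1 h1
  have he : 0 < S.e P t := (rootMultiplicity_pos (S.al_ne P)).2 hroot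
  unfold rho
  have h3 : (0 : ℚ) < N := by exact_mod_cast hN
  have h4 : (0 : ℚ) < S.e P t := by exact_mod_cast he
  rw [div_le_div_iff₀ h4 h3, one_mul]
  have h5 : (N : ℚ) = (S.e P t : ℚ) * h := by exact_mod_cast hh
  have h6 : (h : ℚ) ≤ ((S.y P τ - S.y P τ').order : ℚ) := by exact_mod_cast h2
  rw [h5, mul_comm]
  exact mul_le_mul_of_nonneg_right h6 h4.le

open Classical in
theorem J1 {N : ℕ} (hN : S.Adm none N) {tu : ℂ} (hu : ∀ t, S.b.IsRoot t → t = tu)
    (he : S.e none tu = S.k) :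
    2 * ((S.n : ℚ) - 2) * S.S2 none N
      - ((S.n : ℚ) * (S.n - 1) * (S.n - 2) - S.col none N)
      + S.m * (S.k * (S.k - 1)) + ((S.n : ℚ) - S.k) * (S.k - 1) ≤ S.S3 none N := by
  have hN0 : 0 < N := hN.1
  have hkn := S.hkn
  have hk1 := S.hk
  have hn : (S.sh none N).card = S.n := S.sh_card none hN
  have he0 : ((S.sh none N).filter (fun τ => cen τ = none)).card = S.n - S.k := by
    have := S.card_cen_none none hN
    rwa [if_pos rfl] at this
  have hk : ((S.sh none N).filter (fun τ => cen τ ≠ none)).card = S.k := by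
    have h1 := Finset.card_filter_add_card_filter_not (s := S.sh none N) (fun τ => cen τ = none)
    have h2 : ((S.sh none N).filter (fun τ => cen τ ≠ none)).card =
        ((S.sh none N).filter (fun τ => ¬ cen τ = none)).card := rfl
    rw [h2]
    omega
  have hcast : ((S.n - S.k : ℕ) : ℚ) = (S.n : ℚ) - S.k := Nat.cast_sub (le_of_lt hkn)
  have hne : (S.n : ℚ) - S.k ≠ 0 := by
    have : (S.k : ℚ) < S.n := by exact_mod_cast hkn
    intro h
    linarith
  have hq : S.PlIq * ((S.n - S.k : ℕ) : ℚ) = S.m := by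
    rw [hcast]
    unfold PlIq
    field_simp
  have hcol : (((tri (S.sh none N)).filter
      (fun p => ¬ (S.W none p.1 p.2.1 p.2.2 = 0))).card : ℚ) =
      (S.n : ℚ) * (S.n - 1) * (S.n - 2) - S.col none N := by
    have h1 := Finset.card_filter_add_card_filter_not (s := tri (S.sh none N))
      (fun p => S.W none p.1 p.2.1 p.2.2 = 0)
    have h2 : S.col none N = ((tri (S.sh none N)).filter
      (fun p => S.W none p.1 p.2.1 p.2.2 = 0)).card := rfl
    have h3 := card_tri (S.sh none N)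
    rw [hn] at h3
    have h4 : (((tri (S.sh none N)).filter (fun p => S.W none p.1 p.2.1 p.2.2 = 0)).card : ℚ) +
      (((tri (S.sh none N)).filter
      (fun p => ¬ (S.W none p.1 p.2.1 p.2.2 = 0))).card : ℚ) = ((tri (S.sh none N)).card : ℚ) := by
      exact_mod_cast h1
    rw [h2]
    linarith
  have key := J1_abs (S.sh none N) cen (S.rho none N) (S.om none N)
    (fun x y z => S.W none x y z = 0) S.PlIq S.k (S.n - S.k) S.m hk he0 hk1 hq
    (by
      intro p hp
      unfold tri at hp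
      rw [Finset.mem_filter, Finset.mem_product, Finset.mem_product] at hp
      exact PlD_pw hN hp.1.1 hp.1.2.1 hp.1.2.2 hp.2.1 hp.2.2.1 hp.2.2.2)
    (by
      intro p hp h1 h2
      unfold prs at hp
      rw [Finset.mem_filter, Finset.mem_product] at hp
      obtain ⟨t, ht⟩ := Option.ne_none_iff_exists'.1 h1
      obtain ⟨t', ht'⟩ := Option.ne_none_iff_exists'.1 h2
      have e1 : t = tu := hu t (loc_fin hN0 hp.1.1 ht).1
      have e2 : t' = tu := hu t' (loc_fin hN0 hp.1.2 ht').1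
      rw [e1] at ht
      rw [e2] at ht'
      have h3 := InfB_rho hN0 hp.1.1 hp.1.2 hp.2 ht ht'
      rw [he] at h3
      exact h3)
    (by
      intro p hp h1 h2
      unfold prs at hp
      rw [Finset.mem_filter, Finset.mem_product] at hp
      exact rho_inf hN0 hp.1.1 hp.1.2 h1 h2)
  rw [hn, hcol, hcast] at key
  exact key

end Cur

end WR
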