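import Pool.Agent.helper51.WR.NoCol

/-!
# WR-NoColB: no collinear triples if there is a simple branch point

Let the fibre of `v` have exactly one double point `t`, all other points simple. If there is a collinear
triple, there is one containing the sheet `a` with centre `t` (`N = 2`), by transitivity of the group. Let `b` be
the other sheet with centre `t`. A collinear triple `(a, b, j)` is impossible, since the pair orders are not
equal. If `y_a - y_i = λ (y_j - y_i)` with `i, j ≠ b`, then `s ↦ - s` fixes `i`, `j` and gives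
`y_b - y_i = λ (y_j - y_i)`, so `y_a = y_b`: impossible.
-/

namespace WR

open Polynomial

namespace Cur

theorem NoColB_cen (S : Cur) {v : ℂ} {N : ℕ} (hN : 0 < N) {τ : M} (h : τ ∈ S.sh (some v) N) :
    ∃ t : ℂ, cen τ = some t := by
  rcases hc : cen τ with _ | t
  · exact absurd (loc_inf hN h hc).1 (by simp)
  · exact ⟨t, rfl⟩

/-- no collinear triple of sheets at `v` contains a sheet with centre `t` -/
theorem NoColB_key (S : Cur) {v t : ℂ} (hN2 : S.Adm (some v) 2) (he : S.e (some v) t = 2)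
    (h1 : ∀ t', (S.al (some v)).IsRoot t' → t' ≠ t → S.e (some v) t' = 1) {a i j : M}
    (ha : a ∈ S.sh (some v) 2) (hi : i ∈ S.sh (some v) 2) (hj : j ∈ S.sh (some v) 2)
    (hai : a ≠ i) (haj : a ≠ j) (hij : i ≠ j) (hca : cen a = some t)
    (hW : S.W (some v) a i j = 0) : False := by
  classical
  have hcl : ((S.sh (some v) 2).filter (fun τ' => cen τ' = cen a)).card = 2 := by
    rw [hca, S.card_cen (some v) hN2 t, he]
  have uniq : ∀ x ∈ S.sh (some v) 2, ∀ y ∈ S.sh (some v) 2, cen x = cen y → cen x ≠ some t →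
      x = y := by
    intro x hx y hy hxy hne
    obtain ⟨t', ht'⟩ := S.NoColB_cen hN2.1 hx
    have hne' : t' ≠ t := by
      rintro rfl
      exact hne ht'
    have hr := (loc_fin hN2.1 hx ht').1
    have hcard := S.card_cen (some v) hN2 t'
    rw [h1 t' hr hne'] at hcard
    exact Finset.card_le_one.1 hcard.le x (Finset.mem_filter.2 ⟨hx, ht'⟩) y
      (Finset.mem_filter.2 ⟨hy, by rw [← hxy]; exact ht'⟩)
  have hζ : IsPrimitiveRoot (-1 : ℂ) 2 := IsPrimitiveRoot.neg_one 0 (by norm_num)
  have hz : (-1 : ℂ) ≠ 0 := by norm_num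
  have hsq : (-1 : ℂ) ^ 2 = 1 := by norm_num
  obtain ⟨himg, hinj⟩ := class_rot hN2 hζ ha hcl
  -- a sheet `x ≠ a` with centre `t` is the rotation of `a`
  have hrot : ∀ x ∈ S.sh (some v) 2, cen x = some t → x ≠ a → x = rot (-1) a := by
    intro x hx hcx hxa
    have hm : x ∈ (S.sh (some v) 2).filter (fun τ' => cen τ' = cen a) :=
      Finset.mem_filter.2 ⟨hx, by rw [hca]; exact hcx⟩
    rw [himg] at hm
    obtain ⟨l, hl, rfl⟩ := Finset.mem_image.1 hm
    rw [Finset.mem_range] at hl
    interval_cases l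
    · exact absurd (by rw [pow_zero, rot_one]) hxa
    · rw [pow_one]
  obtain ⟨c1, c2, -⟩ := om_col hN2.1 ha hi hj hai haj hij hW
  by_cases hci : cen i = some t
  · -- then `j` has another centre
    have hcj : cen j ≠ some t := by
      intro hcj
      have e1 := hrot i hi hci hai.symm
      have e2 := hrot j hj hcj haj.symm
      exact hij (e1.trans e2.symm)
    obtain ⟨B, hB, -, -, hBr⟩ := class_prime hN2 Nat.prime_two ha hcl
    have e1 := hBr a ha i hi hai rfl (by rw [hca]; exact hci)
    obtain ⟨tj, htj⟩ := S.NoColB_cen hN2.1 hj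
    have hne : t ≠ tj := by
      rintro rfl
      exact hcj htj
    have e2 := rho_diff hN2.1 ha hj hca htj hne
    rw [c1, e2] at e1
    have hB0 : (B : ℚ) = 0 := by
      have h3 : (B : ℚ) / ((2 : ℕ) : ℚ) = 0 := e1.symm
      have h4 : ((2 : ℕ) : ℚ) ≠ 0 := by norm_num
      rcases div_eq_zero_iff.1 h3 with h5 | h5
      · exact h5
      · exact absurd h5 h4
    have hB1 : B = 0 := by exact_mod_cast hB0
    rw [hB1] at hB
    exact hB (dvd_zero _)
  · by_cases hcj : cen j = some t
    · obtain ⟨B, hB, -, -, hBr⟩ := class_prime hN2 Nat.prime_two ha hcl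
      have e1 := hBr a ha j hj haj rfl (by rw [hca]; exact hcj)
      obtain ⟨ti, hti⟩ := S.NoColB_cen hN2.1 hi
      have hne : t ≠ ti := by
        rintro rfl
        exact hci hti
      have e2 := rho_diff hN2.1 ha hi hca hti hne
      rw [← c1, e2] at e1
      have hB0 : (B : ℚ) = 0 := by
        have h3 : (B : ℚ) / ((2 : ℕ) : ℚ) = 0 := e1.symm
        have h4 : ((2 : ℕ) : ℚ) ≠ 0 := by norm_num
        rcases div_eq_zero_iff.1 h3 with h5 | h5
        · exact h5
        · exact absurd h5 h4
      have hB1 : B = 0 := by exact_mod_cast hB0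
      rw [hB1] at hB
      exact hB (dvd_zero _)
    · -- rotation
      have hri : rot (-1) i = i := by
        refine (uniq i hi _ (rot_sh hN2.1 hsq hi) ?_ hci).symm
        rw [cen_rot hz]
      have hrj : rot (-1) j = j := by
        refine (uniq j hj _ (rot_sh hN2.1 hsq hj) ?_ hcj).symm
        rw [cen_rot hz]
      have hra : rot (-1) a ≠ a := by
        intro h
        have h3 : rot ((-1) ^ 1) a = rot ((-1) ^ 0) a := by rw [pow_one, pow_zero, rot_one, h]
        have := hinj (by simp) (by simp) h3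
        omega
      have hra2 : rot (-1) a ∈ S.sh (some v) 2 := rot_sh hN2.1 hsq ha
      -- proportional
      have hYj : S.y (some v) j - S.y (some v) i ≠ 0 := Y_ne hN2.1 hj hi hij.symm
      have hW' : S.W (some v) i j a = 0 := by
        rw [S.W_swap23 (some v) i a j, S.W_swap12 (some v) a i j, hW, neg_zero, neg_zero]
      have hW0 := W_eul hN2.1 hi hj ha
      rw [hW', mul_zero] at hW0
      obtain ⟨lam, hlam⟩ := wr_zero hYj hW0.symm
      have h5 := congrArg (rot (-1)) hlam
      rw [rot_mul hz, rot_algebraMap, rot_sub, rot_sub, ← rot_y hz, ← rot_y hz, ← rot_y hz, hri, hrj,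
        ← hlam] at h5
      have h6 : S.y (some v) (rot (-1) a) - S.y (some v) a = 0 := by
        linear_combination h5
      exact Y_ne hN2.1 hra2 ha hra h6

theorem nocolB (S : Cur) {v t : ℂ} (hN2 : S.Adm (some v) 2) (he : S.e (some v) t = 2)
    (h1 : ∀ t', (S.al (some v)).IsRoot t' → t' ≠ t → S.e (some v) t' = 1)
    {P : Option ℂ} {N : ℕ} (hN : S.Adm P N) : S.col P N = 0 := by
  classical
  by_contra hcol
  obtain ⟨ιP, _, hιP⟩ := S.emb P hN
  rw [col_eq hN ιP (by convert hιP)] at hcol
  obtain ⟨⟨θ₁, θ₂, θ₃⟩, hθ⟩ := Finset.card_pos.1 (Nat.pos_of_ne_zero hcol)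
  rw [Finset.mem_filter] at hθ
  obtain ⟨hθt, hθW⟩ := hθ
  simp only [tri, Finset.mem_filter, Finset.mem_product] at hθt
  obtain ⟨⟨m1, m2, m3⟩, h12, h13, h23⟩ := hθt
  simp only at hθW
  obtain ⟨ι, _, hι⟩ := S.emb (some v) hN2
  have hinjι : Function.Injective ι := ι.injective
  have hcard := S.card_cen (some v) hN2 t
  rw [he] at hcard
  obtain ⟨a, ha⟩ : ((S.sh (some v) 2).filter (fun τ => cen τ = some t)).Nonempty := by
    rw [← Finset.card_pos, hcard]
    norm_num
  obtain ⟨ha1, ha2⟩ := Finset.mem_filter.1 ha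
  have hmem : ∀ θ ∈ S.rt, ι θ ∈ S.sh (some v) 2 := by
    intro θ hθ
    rw [← hι]
    exact Finset.mem_image_of_mem _ hθ
  obtain ⟨θu, hθu, rfl⟩ : ∃ θ ∈ S.rt, ι θ = a := by
    rw [← hι] at ha1
    exact Finset.mem_image.1 ha1
  obtain ⟨σ, hσ⟩ := gal_trans m1 hθu
  have hWσ : S.W (some 0) θu (σ θ₂) (σ θ₃) = 0 := by
    rw [← hσ, ← gal_W, hθW, map_zero]
  have k2 := gal_rt σ m2
  have k3 := gal_rt σ m3
  have d12 : σ θ₂ ≠ θu := by
    rw [← hσ]
    exact fun h => h12 (σ.injective h).symm
  have d13 : σ θ₃ ≠ θu := by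
    rw [← hσ]
    exact fun h => h13 (σ.injective h).symm
  have d23 : σ θ₂ ≠ σ θ₃ := fun h => h23 (σ.injective h)
  have hWM : S.W (some v) (ι θu) (ι (σ θ₂)) (ι (σ θ₃)) = 0 := by
    have e1 : S.W (some v) (ι θu) (ι (σ θ₂)) (ι (σ θ₃)) =
        S.W (some 0) (ι θu) (ι (σ θ₂)) (ι (σ θ₃)) := by
      unfold W g y num jac al be
      simp only [derivative_sub, derivative_C_mul]
      have e2 : ∀ F : M, aeval F ((derivative S.a - C v * derivative S.b) * S.b -
          (S.a - C v * S.b) * derivative S.b) =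
          aeval F ((derivative S.a - C 0 * derivative S.b) * S.b -
          (S.a - C 0 * S.b) * derivative S.b) := by
        intro F
        congr 1
        simp only [map_zero, zero_mul, sub_zero]
        ring
      rw [e2, e2, e2]
    rw [e1, ← map_W, hWσ, map_zero]
  exact S.NoColB_key hN2 he h1 (hmem _ hθu) (hmem _ k2) (hmem _ k3)
    (fun h => d12 (hinjι h).symm) (fun h => d13 (hinjι h).symm) (fun h => d23 (hinjι h)) ha2 hWM

end Cur

end WR
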