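import Pool.Agent.helper51.WR.Root
import Pool.Agent.helper51.WR.Rho

/-!
# WR-Rot: the substitution `s ↦ ζ s`
-/

namespace WR

open Polynomial

/-- the substitution `s ↦ ζ s` -/
noncomputable def rot (ζ : ℂ) (f : M) : M where
  coeff l := ζ ^ l * f.coeff l
  isPWO_support' := f.isPWO_support.mono (by
    intro l hl
    simp only [Function.mem_support, HahnSeries.mem_support] at hl ⊢
    exact right_ne_zero_of_mul hl)

theorem rot_coeff (ζ : ℂ) (f : M) (l : ℤ) : (rot ζ f).coeff l = ζ ^ l * f.coeff l := rfl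

theorem rot_one (f : M) : rot 1 f = f := by
  ext l
  rw [rot_coeff, one_zpow, one_mul]

theorem rot_rot {ζ ζ' : ℂ} (f : M) : rot ζ (rot ζ' f) = rot (ζ * ζ') f := by
  ext l
  rw [rot_coeff, rot_coeff, rot_coeff, mul_zpow, mul_assoc]

theorem rot_add (ζ : ℂ) (f g : M) : rot ζ (f + g) = rot ζ f + rot ζ g := by
  ext l
  rw [rot_coeff, HahnSeries.coeff_add, HahnSeries.coeff_add, rot_coeff, rot_coeff, mul_add]

theorem rot_sub (ζ : ℂ) (f g : M) : rot ζ (f - g) = rot ζ f - rot ζ g := by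
  ext l
  rw [rot_coeff, HahnSeries.coeff_sub, HahnSeries.coeff_sub, rot_coeff, rot_coeff, mul_sub]

theorem Rot_support {ζ : ℂ} (hζ : ζ ≠ 0) (f : M) : (rot ζ f).support = f.support := by
  ext l
  simp only [HahnSeries.mem_support, rot_coeff]
  constructor
  · intro h h0
    exact h (by rw [h0, mul_zero])
  · intro h h0
    rcases mul_eq_zero.mp h0 with h1 | h1
    · exact zpow_ne_zero l hζ h1
    · exact h h1

theorem rot_mul {ζ : ℂ} (hζ : ζ ≠ 0) (f g : M) : rot ζ (f * g) = rot ζ f * rot ζ g := by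
  ext l
  rw [rot_coeff, HahnSeries.coeff_mul, HahnSeries.coeff_mul, Finset.mul_sum]
  refine Finset.sum_congr ?_ ?_
  · ext ij
    simp only [Finset.mem_antidiagonal, Rot_support hζ]
  · intro ij hij
    rw [Finset.mem_antidiagonal] at hij
    rw [rot_coeff, rot_coeff, ← hij.2.2, zpow_add₀ hζ]
    ring

theorem Rot_zero (ζ : ℂ) : rot ζ 0 = 0 := by
  ext l
  rw [rot_coeff, HahnSeries.coeff_zero, mul_zero]

theorem Rot_ne {ζ : ℂ} (hζ : ζ ≠ 0) {f : M} (hf : f ≠ 0) : rot ζ f ≠ 0 := by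
  intro h
  apply hf
  have h1 : (rot ζ f).support = ∅ := by rw [h]; exact HahnSeries.support_zero
  rw [Rot_support hζ] at h1
  exact HahnSeries.support_eq_empty_iff.mp h1

theorem rot_div {ζ : ℂ} (hζ : ζ ≠ 0) (f g : M) : rot ζ (f / g) = rot ζ f / rot ζ g := by
  by_cases hg : g = 0
  · rw [hg, Rot_zero, div_zero, div_zero, Rot_zero]
  · rw [eq_div_iff (Rot_ne hζ hg), ← rot_mul hζ, div_mul_cancel₀ f hg]

theorem rot_algebraMap (ζ : ℂ) (c : ℂ) : rot ζ (algebraMap ℂ M c) = algebraMap ℂ M c := by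
  ext l
  rw [rot_coeff, coeff_algebraMap]
  split_ifs with h
  · rw [h, zpow_zero, one_mul]
  · rw [mul_zero]

theorem rot_sp {ζ : ℂ} {N : ℕ} (h : ζ ^ N = 1) : rot ζ (sp N) = sp N := by
  ext l
  rw [rot_coeff, sp]
  by_cases hl : l = (N : ℤ)
  · rw [hl, zpow_natCast, h, one_mul]
  · rw [HahnSeries.coeff_single_of_ne hl, mul_zero]

/-- the substitution as an algebra homomorphism -/
noncomputable def Rot_hom {ζ : ℂ} (hζ : ζ ≠ 0) : M →ₐ[ℂ] M where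
  toFun := rot ζ
  map_one' := by
    have := rot_algebraMap ζ 1
    rwa [map_one] at this
  map_mul' := rot_mul hζ
  map_zero' := Rot_zero ζ
  map_add' := rot_add ζ
  commutes' := rot_algebraMap ζ

theorem rot_aeval {ζ : ℂ} (hζ : ζ ≠ 0) (τ : M) (p : ℂ[X]) :
    aeval (rot ζ τ) p = rot ζ (aeval τ p) := by
  have := Polynomial.aeval_algHom_apply (Rot_hom hζ) τ p
  exact this

theorem Rot_ge {ζ : ℂ} (hζ : ζ ≠ 0) (f : M) (r : ℤ) : Ge (rot ζ f) r ↔ Ge f r := by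
  constructor
  · intro h l hl
    have h1 := h l hl
    rw [rot_coeff] at h1
    exact (mul_eq_zero.mp h1).resolve_left (zpow_ne_zero l hζ)
  · intro h l hl
    rw [rot_coeff, h l hl, mul_zero]

theorem cen_rot {ζ : ℂ} (hζ : ζ ≠ 0) (τ : M) : cen (rot ζ τ) = cen τ := by
  unfold cen
  by_cases h : Ge τ 0
  · rw [if_pos h, if_pos ((Rot_ge hζ τ 0).mpr h), rot_coeff, zpow_zero, one_mul]
  · rw [if_neg h, if_neg (fun h' => h ((Rot_ge hζ τ 0).mp h'))]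

/-- for a primitive `N`-th root of unity the coefficient of `rot (ζ^i) f - rot (ζ^j) f` at `l` vanishes iff
`f_l = 0` or `N ∣ (i - j) l` -/
theorem rot_sub_coeff {ζ : ℂ} {N : ℕ} (hN : 0 < N) (hζ : IsPrimitiveRoot ζ N) (f : M) (i j : ℕ)
    (l : ℤ) : (rot (ζ ^ i) f - rot (ζ ^ j) f).coeff l = 0 ↔
      f.coeff l = 0 ∨ (N : ℤ) ∣ ((i : ℤ) - j) * l := by
  have hz : ζ ≠ 0 := hζ.ne_zero hN.ne'
  rw [HahnSeries.coeff_sub, rot_coeff, rot_coeff, ← sub_mul, mul_eq_zero, or_comm]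
  apply or_congr_right
  rw [← hζ.zpow_eq_one_iff_dvd, sub_eq_zero, sub_mul, zpow_sub₀ hz, zpow_mul, zpow_mul,
    zpow_natCast, zpow_natCast]
  rw [div_eq_one_iff_eq (zpow_ne_zero l (pow_ne_zero j hz))]

namespace Cur

variable {S : Cur}

theorem rot_y {ζ : ℂ} (hζ : ζ ≠ 0) (P : Option ℂ) (τ : M) :
    S.y P (rot ζ τ) = rot ζ (S.y P τ) := by
  rw [y, y, rot_aeval hζ, rot_aeval hζ, rot_div hζ]

theorem rot_sh {P : Option ℂ} {N : ℕ} (hN : 0 < N) {ζ : ℂ} (h : ζ ^ N = 1) {τ : M}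
    (hτ : τ ∈ S.sh P N) : rot ζ τ ∈ S.sh P N := by
  have hz : ζ ≠ 0 := by
    rintro rfl
    rw [zero_pow hN.ne'] at h
    exact zero_ne_one h
  rw [mem_sh S P hN] at hτ ⊢
  rw [rot_aeval hz, hτ, rot_mul hz, rot_sp h, rot_aeval hz]

theorem Rot_pow {ζ : ℂ} {N : ℕ} (h : ζ ^ N = 1) (i : ℕ) : (ζ ^ i) ^ N = 1 := by
  rw [← pow_mul, mul_comm, pow_mul, h, one_pow]

open Classical in
/-- in a full class some coefficient at `s^(±1)` does not vanish -/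
theorem Rot_unit {P : Option ℂ} {N : ℕ} (hN : S.Adm P N) {τ : M} (hτ : τ ∈ S.sh P N)
    (hc : ((S.sh P N).filter (fun τ' => cen τ' = cen τ)).card = N) :
    τ.coeff 1 ≠ 0 ∨ τ.coeff (-1) ≠ 0 := by
  cases hcen : cen τ with
  | none =>
    right
    rw [hcen, S.card_cen_none P hN] at hc
    obtain ⟨hP, h, hh, hNh, hne, hord⟩ := loc_inf hN.1 hτ hcen
    rw [if_pos hP] at hc
    have h1 : h = 1 := by
      have hpos := hN.1
      rw [hc] at hNh
      have : N * h = N * 1 := by rw [mul_one]; exact hNh.symm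
      exact Nat.eq_of_mul_eq_mul_left hpos this
    rw [h1] at hord
    have := coeff_order_ne hne
    rw [hord] at this
    exact_mod_cast this
  | some t =>
    left
    rw [hcen, S.card_cen P hN t] at hc
    obtain ⟨_, _, h, hh, hNh, _, hne, hord⟩ := loc_fin hN.1 hτ hcen
    have h1 : h = 1 := by
      have hpos := hN.1
      rw [hc] at hNh
      have : N * h = N * 1 := by rw [mul_one]; exact hNh.symm
      exact Nat.eq_of_mul_eq_mul_left hpos this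
    rw [h1] at hord
    have h2 := coeff_order_ne hne
    rw [hord, HahnSeries.coeff_sub, coeff_algebraMap] at h2
    simpa using h2

theorem Rot_inj {N : ℕ} (hN : 0 < N) {ζ : ℂ} (hζ : IsPrimitiveRoot ζ N) {τ : M}
    (hu : τ.coeff 1 ≠ 0 ∨ τ.coeff (-1) ≠ 0) :
    Set.InjOn (fun i => rot (ζ ^ i) τ) (Finset.range N : Set ℕ) := by
  intro i hi j hj hij
  simp only [Finset.coe_range, Set.mem_Iio] at hi hj
  have hij' : rot (ζ ^ i) τ = rot (ζ ^ j) τ := hij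
  have hd : (N : ℤ) ∣ (i : ℤ) - j := by
    rcases hu with hu | hu
    · have := (rot_sub_coeff hN hζ τ i j 1).mp (by rw [hij', sub_self, HahnSeries.coeff_zero])
      have := this.resolve_left hu
      rwa [mul_one] at this
    · have := (rot_sub_coeff hN hζ τ i j (-1)).mp (by rw [hij', sub_self, HahnSeries.coeff_zero])
      have := this.resolve_left hu
      rwa [mul_neg, mul_one, dvd_neg] at this
  have h0 : (i : ℤ) - j = 0 := by
    apply Int.eq_zero_of_abs_lt_dvd hd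
    rw [abs_lt]
    constructor <;> omega
  omega

open Classical in
/-- A class (sheets with one centre) with exactly `N` elements consists of the rotations of one of them:
the coefficient of `τ` at `s^h`, `h = 1` (`loc_fin`), respectively `s^(-1)` (`loc_inf`), is not zero, so the
`rot (ζ^i) τ`, `i < N`, are different. -/
theorem class_rot {P : Option ℂ} {N : ℕ} (hN : S.Adm P N) {ζ : ℂ} (hζ : IsPrimitiveRoot ζ N)
    {τ : M} (hτ : τ ∈ S.sh P N)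
    (hc : ((S.sh P N).filter (fun τ' => cen τ' = cen τ)).card = N) :
    (S.sh P N).filter (fun τ' => cen τ' = cen τ) =
      (Finset.range N).image (fun i => rot (ζ ^ i) τ) ∧
    Set.InjOn (fun i => rot (ζ ^ i) τ) (Finset.range N : Set ℕ) := by
  have hinj := Rot_inj hN.1 hζ (Rot_unit hN hτ hc)
  have hz : ζ ≠ 0 := hζ.ne_zero hN.1.ne'
  refine ⟨?_, hinj⟩
  symm
  apply Finset.eq_of_subset_of_card_le
  · intro x hx
    obtain ⟨i, hi, rfl⟩ := Finset.mem_image.mp hx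
    rw [Finset.mem_filter]
    exact ⟨rot_sh hN.1 (Rot_pow hζ.pow_eq_one i) hτ, cen_rot (pow_ne_zero i hz) τ⟩
  · rw [hc, Finset.card_image_of_injOn hinj, Finset.card_range]

theorem Rot_least (f : M) (p : ℤ → Prop) (hex : ∃ l, p l ∧ f.coeff l ≠ 0) :
    ∃ B : ℤ, p B ∧ f.coeff B ≠ 0 ∧ ∀ l < B, p l → f.coeff l = 0 := by
  classical
  have hf : f ≠ 0 := by
    rintro rfl
    obtain ⟨l, _, h⟩ := hex
    exact h HahnSeries.coeff_zero
  obtain ⟨B, hB, hmin⟩ := Int.exists_least_of_bdd (P := fun l => p l ∧ f.coeff l ≠ 0)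
    ⟨f.order, fun z hz => by
      by_contra hlt
      exact hz.2 (HahnSeries.coeff_eq_zero_of_lt_order (not_le.mp hlt))⟩ hex
  refine ⟨B, hB.1, hB.2, ?_⟩
  intro l hl hp
  by_contra h
  exact absurd (hmin l ⟨hp, h⟩) (not_le.mpr hl)

/-- order of the difference of two rotations -/
theorem Rot_order {N : ℕ} (hN : 0 < N) {ζ : ℂ} (hζ : IsPrimitiveRoot ζ N) (f : M) (i j : ℕ)
    (p : ℤ → Prop) (hp : ∀ l, (N : ℤ) ∣ ((i : ℤ) - j) * l ↔ ¬ p l) {B : ℤ} (hB : p B)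
    (h0 : f.coeff B ≠ 0) (hlt : ∀ l < B, p l → f.coeff l = 0) :
    (rot (ζ ^ i) f - rot (ζ ^ j) f).order = B := by
  refine (ord_eq ?_ ?_).2
  · intro l hl
    rw [rot_sub_coeff hN hζ]
    by_cases h : p l
    · exact Or.inl (hlt l hl h)
    · exact Or.inr ((hp l).mpr h)
  · rw [Ne, rot_sub_coeff hN hζ, not_or]
    exact ⟨h0, fun h => (hp B).mp h hB⟩

theorem Rot_exists {P : Option ℂ} {N : ℕ} (hN : 0 < N) {ζ : ℂ} (hζ : IsPrimitiveRoot ζ N) {τ : M}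
    (hτ : τ ∈ S.sh P N) {i : ℕ} (hi : rot (ζ ^ i) τ ≠ τ) :
    ∃ l : ℤ, ¬ (N : ℤ) ∣ (i : ℤ) * l ∧ (S.y P τ).coeff l ≠ 0 := by
  have hz : ζ ≠ 0 := hζ.ne_zero hN.ne'
  have hne := Y_ne hN (rot_sh hN (Rot_pow hζ.pow_eq_one i) hτ) hτ hi
  rw [rot_y (pow_ne_zero i hz)] at hne
  by_contra hcon
  push Not at hcon
  apply hne
  ext l
  have := (rot_sub_coeff hN hζ (S.y P τ) i 0 l).mpr (by
    by_cases h : (N : ℤ) ∣ (i : ℤ) * l
    · right
      simpa using h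
    · left
      exact hcon l h)
  rw [pow_zero, rot_one] at this
  rw [this, HahnSeries.coeff_zero]

open Classical in
/-- A class with `N` elements, `N` prime: all pair orders in the class are equal to the smallest `B` with
`N ∤ B`, `f_B ≠ 0`, `f = y τ`. (Existence: `f - rot ζ f ≠ 0`.) -/
theorem class_prime {P : Option ℂ} {N : ℕ} (hN : S.Adm P N) (hp : N.Prime) {τ : M}
    (hτ : τ ∈ S.sh P N)
    (hc : ((S.sh P N).filter (fun τ' => cen τ' = cen τ)).card = N) :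
    ∃ B : ℤ, ¬ (N : ℤ) ∣ B ∧ (S.y P τ).coeff B ≠ 0 ∧
      (∀ l < B, ¬ (N : ℤ) ∣ l → (S.y P τ).coeff l = 0) ∧
      ∀ τ₁ ∈ S.sh P N, ∀ τ₂ ∈ S.sh P N, τ₁ ≠ τ₂ → cen τ₁ = cen τ → cen τ₂ = cen τ →
        S.rho P N τ₁ τ₂ = (B : ℚ) / N := by
  have hζ := Complex.isPrimitiveRoot_exp N hN.1.ne'
  set ζ := Complex.exp (2 * Real.pi * Complex.I / N) with hζdef
  have hz : ζ ≠ 0 := hζ.ne_zero hN.1.ne'
  obtain ⟨himg, hinj⟩ := class_rot hN hζ hτ hc
  have h1 : rot (ζ ^ 1) τ ≠ τ := by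
    intro h
    have h0 : rot (ζ ^ 1) τ = rot (ζ ^ 0) τ := by rw [h, pow_zero, rot_one]
    have := hinj (by simpa using hp.one_lt) (by simpa using hN.1) h0
    omega
  obtain ⟨B, hB1, hB2, hB3⟩ := Rot_least (S.y P τ) (fun l => ¬ (N : ℤ) ∣ l) (by
    obtain ⟨l, hl, hl'⟩ := Rot_exists hN.1 hζ hτ h1
    exact ⟨l, by simpa using hl, hl'⟩)
  refine ⟨B, hB1, hB2, hB3, ?_⟩
  intro τ₁ h₁ τ₂ h₂ hne hc₁ hc₂
  have m₁ : τ₁ ∈ (S.sh P N).filter (fun τ' => cen τ' = cen τ) := Finset.mem_filter.mpr ⟨h₁, hc₁⟩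
  have m₂ : τ₂ ∈ (S.sh P N).filter (fun τ' => cen τ' = cen τ) := Finset.mem_filter.mpr ⟨h₂, hc₂⟩
  rw [himg] at m₁ m₂
  obtain ⟨i, hi, rfl⟩ := Finset.mem_image.mp m₁
  obtain ⟨j, hj, rfl⟩ := Finset.mem_image.mp m₂
  have hij : i ≠ j := by
    rintro rfl
    exact hne rfl
  rw [Finset.mem_range] at hi hj
  unfold rho
  rw [rot_y (pow_ne_zero i hz), rot_y (pow_ne_zero j hz),
    Rot_order hN.1 hζ (S.y P τ) i j (fun l => ¬ (N : ℤ) ∣ l) ?_ hB1 hB2 hB3]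
  intro l
  rw [not_not]
  constructor
  · intro h
    rcases (Nat.prime_iff_prime_int.mp hp).dvd_or_dvd h with h | h
    · exfalso
      have : (i : ℤ) - j = 0 := by
        apply Int.eq_zero_of_abs_lt_dvd h
        rw [abs_lt]
        constructor <;> omega
      omega
    · exact h
  · intro h
    exact Dvd.dvd.mul_left h _

open Classical in
/-- A class with `4` elements, `N = 4`. `f = y τ`: `B₁` smallest exponent not divisible by `4` with
`f ≠ 0`, `B₂` the smallest odd one. Pairs `i - j` odd have order `B₁`, the pairs `i - j = 2` order `B₂`.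
The sheets are `τ, rot I τ, rot (-1) τ, rot (-I) τ`. -/
theorem class_four {P : Option ℂ} (hN : S.Adm P 4) {τ : M} (hτ : τ ∈ S.sh P 4)
    (hc : ((S.sh P 4).filter (fun τ' => cen τ' = cen τ)).card = 4) :
    ∃ B₁ B₂ : ℤ, B₁ ≤ B₂ ∧ ¬ (4 : ℤ) ∣ B₁ ∧ ¬ (2 : ℤ) ∣ B₂ ∧ (S.y P τ).coeff B₁ ≠ 0 ∧
      (S.y P τ).coeff B₂ ≠ 0 ∧ (∀ l < B₁, ¬ (4 : ℤ) ∣ l → (S.y P τ).coeff l = 0) ∧
      (∀ l < B₂, ¬ (2 : ℤ) ∣ l → (S.y P τ).coeff l = 0) ∧
      ∃ τ₀ τ₁ τ₂ τ₃ : M, (S.sh P 4).filter (fun τ' => cen τ' = cen τ) = {τ₀, τ₁, τ₂, τ₃} ∧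
        S.rho P 4 τ₀ τ₂ = (B₂ : ℚ) / 4 ∧ S.rho P 4 τ₁ τ₃ = (B₂ : ℚ) / 4 ∧
        S.rho P 4 τ₀ τ₁ = (B₁ : ℚ) / 4 ∧ S.rho P 4 τ₀ τ₃ = (B₁ : ℚ) / 4 ∧
        S.rho P 4 τ₁ τ₂ = (B₁ : ℚ) / 4 ∧ S.rho P 4 τ₂ τ₃ = (B₁ : ℚ) / 4 := by
  have hζ := Complex.isPrimitiveRoot_exp 4 (by norm_num)
  set ζ := Complex.exp (2 * Real.pi * Complex.I / (4 : ℕ)) with hζdef
  have h4 : (0 : ℕ) < 4 := by norm_num
  have hz : ζ ≠ 0 := hζ.ne_zero (by norm_num)
  obtain ⟨himg, hinj⟩ := class_rot hN hζ hτ hc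
  have h2 : rot (ζ ^ 2) τ ≠ τ := by
    intro h
    have h0 : rot (ζ ^ 2) τ = rot (ζ ^ 0) τ := by rw [h, pow_zero, rot_one]
    have := hinj (by simp) (by simp) h0
    omega
  have hodd : ∃ l : ℤ, ¬ (2 : ℤ) ∣ l ∧ (S.y P τ).coeff l ≠ 0 := by
    obtain ⟨l, hl, hl'⟩ := Rot_exists h4 hζ hτ h2
    refine ⟨l, ?_, hl'⟩
    intro h
    apply hl
    push_cast
    omega
  obtain ⟨B₂, hB1, hB2, hB3⟩ := Rot_least (S.y P τ) (fun l => ¬ (2 : ℤ) ∣ l) hodd
  obtain ⟨B₁, hA1, hA2, hA3⟩ := Rot_least (S.y P τ) (fun l => ¬ (4 : ℤ) ∣ l)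
    ⟨B₂, by intro h; exact hB1 (by omega), hB2⟩
  have hle : B₁ ≤ B₂ := by
    by_contra hlt
    exact hB2 (hA3 B₂ (not_le.mp hlt) (by intro h; exact hB1 (by omega)))
  have key : ∀ i j : ℕ, (∀ l : ℤ, ((4 : ℕ) : ℤ) ∣ ((i : ℤ) - j) * l ↔ ¬ ¬ (2 : ℤ) ∣ l) →
      S.rho P 4 (rot (ζ ^ i) τ) (rot (ζ ^ j) τ) = (B₂ : ℚ) / 4 := by
    intro i j hij
    unfold rho
    rw [rot_y (pow_ne_zero i hz), rot_y (pow_ne_zero j hz),
      Rot_order h4 hζ (S.y P τ) i j (fun l => ¬ (2 : ℤ) ∣ l) hij hB1 hB2 hB3]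
    norm_num
  have key' : ∀ i j : ℕ, (∀ l : ℤ, ((4 : ℕ) : ℤ) ∣ ((i : ℤ) - j) * l ↔ ¬ ¬ (4 : ℤ) ∣ l) →
      S.rho P 4 (rot (ζ ^ i) τ) (rot (ζ ^ j) τ) = (B₁ : ℚ) / 4 := by
    intro i j hij
    unfold rho
    rw [rot_y (pow_ne_zero i hz), rot_y (pow_ne_zero j hz),
      Rot_order h4 hζ (S.y P τ) i j (fun l => ¬ (4 : ℤ) ∣ l) hij hA1 hA2 hA3]
    norm_num
  refine ⟨B₁, B₂, hle, hA1, hB1, hA2, hB2, hA3, hB3, rot (ζ ^ 0) τ, rot (ζ ^ 1) τ, rot (ζ ^ 2) τ,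
    rot (ζ ^ 3) τ, ?_, ?_, ?_, ?_, ?_, ?_, ?_⟩
  · rw [himg]
    ext x
    simp only [Finset.mem_image, Finset.mem_range, Finset.mem_insert, Finset.mem_singleton]
    constructor
    · rintro ⟨i, hi, rfl⟩
      interval_cases i
      · exact Or.inl rfl
      · exact Or.inr (Or.inl rfl)
      · exact Or.inr (Or.inr (Or.inl rfl))
      · exact Or.inr (Or.inr (Or.inr rfl))
    · rintro (rfl | rfl | rfl | rfl)
      · exact ⟨0, by norm_num, rfl⟩
      · exact ⟨1, by norm_num, rfl⟩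
      · exact ⟨2, by norm_num, rfl⟩
      · exact ⟨3, by norm_num, rfl⟩
  · exact key 0 2 (by intro l; push_cast; rw [not_not]; omega)
  · exact key 1 3 (by intro l; push_cast; rw [not_not]; omega)
  · exact key' 0 1 (by intro l; push_cast; rw [not_not]; omega)
  · exact key' 0 3 (by intro l; push_cast; rw [not_not]; omega)
  · exact key' 1 2 (by intro l; push_cast; rw [not_not]; omega)
  · exact key' 2 3 (by intro l; push_cast; rw [not_not]; omega)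

end Cur

end WR
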