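import Pool.Agent.helper51.WR.PlF
import Pool.Agent.helper51.WR.Rot

/-!
# WR-X2: the place of the simple cusp `t₂` (`e = 2`, `N = 2`)

`class_prime` with `N = 2`: the two sheets with centre `t₂` have pair order `o/2`, `o` odd; `o ≥ 3`: all
coefficients of `y τ` at odd exponents below `0` vanish (`y_fin`), the one at `1` vanishes because of the
cusp: `2 s^2 g = E y` (`chain`), `g ≥ 0` (`g_cusp` with `h = 1`), so `Ge (eul y) 2`. All other centres are
different and unramified there: their pairs have order `0`. `S2 = 2 (o/2) = o`.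
`S3`: if the ordered triple contains both sheets with centre `t₂`: `om ≥ o/2 - 1` (collinear: `om_col`
would give `o/2 = 0`; so not collinear, `om_naive`). Otherwise `om ≥ 0`: all three `y`
have order `≥ 0` and all three `g` have order `≥ 0` (`g_fin` with `e = 1`, `h = N = 2`; `g_cusp` for `t₂`), or
collinear and `om = 2 rho ≥ 0`. There are `6 (n - 2)` triples of the first kind.
-/

namespace WR

open Polynomial

/-- a function on ordered pairs supported in `(a,b)`, `(b,a)` -/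
theorem X2_sum2 {A : Type} (R : Finset A) {a b : A} (ha : a ∈ R) (hb : b ∈ R) (hab : a ≠ b)
    (f : A → A → ℚ)
    (h : ∀ i ∈ R, ∀ j ∈ R, i ≠ j → ¬ ((i = a ∧ j = b) ∨ (i = b ∧ j = a)) → f i j = 0) :
    sum2 R f = f a b + f b a := by
  classical
  have hne : ((a, b) : A × A) ≠ (b, a) := fun h => hab (Prod.ext_iff.1 h).1
  have hsub : ({(a, b), (b, a)} : Finset (A × A)) ⊆ prs R := by
    intro p hp
    simp only [Finset.mem_insert, Finset.mem_singleton] at hp
    rcases hp with rfl | rfl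
    · simp [prs, ha, hb, hab]
    · simp [prs, ha, hb, hab.symm]
  have h0 : ∀ p ∈ prs R, p ∉ ({(a, b), (b, a)} : Finset (A × A)) → f p.1 p.2 = 0 := by
    rintro ⟨i, j⟩ hp hn
    have hp' : (i ∈ R ∧ j ∈ R) ∧ i ≠ j := by simpa [prs] using hp
    refine h i hp'.1.1 j hp'.1.2 hp'.2 ?_
    rintro (⟨rfl, rfl⟩ | ⟨rfl, rfl⟩)
    · exact hn (by simp)
    · exact hn (by simp)
  unfold sum2
  rw [← Finset.sum_subset hsub h0, Finset.sum_pair hne]

open Classical in
/-- triples containing `a` and `b` have value at least `q`, the others at least `0` -/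
theorem X2_sum3 {A : Type} (R : Finset A) {a b : A} (ha : a ∈ R) (hb : b ∈ R) (hab : a ≠ b)
    (f : A → A → A → ℚ) (q : ℚ)
    (h0 : ∀ i ∈ R, ∀ j ∈ R, ∀ l ∈ R, i ≠ j → i ≠ l → j ≠ l → 0 ≤ f i j l)
    (h1 : ∀ i ∈ R, ∀ j ∈ R, ∀ l ∈ R, i ≠ j → i ≠ l → j ≠ l →
      ((i = a ∧ j = b) ∨ (i = b ∧ j = a)) → q ≤ f i j l ∧ q ≤ f i l j ∧ q ≤ f l i j) :
    6 * ((R.card : ℚ) - 2) * q ≤ sum3 R f := by
  let c : A → A → ℚ := fun i j => if (i = a ∧ j = b) ∨ (i = b ∧ j = a) then q else 0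
  have hc : sum2 R c = 2 * q := by
    rw [X2_sum2 R ha hb hab c]
    · have e1 : c a b = q := if_pos (Or.inl ⟨rfl, rfl⟩)
      have e2 : c b a = q := if_pos (Or.inr ⟨rfl, rfl⟩)
      rw [e1, e2]
      ring
    · intro i _ j _ _ hn
      exact if_neg hn
  have e1 : sum3 R (fun i j _ => c i j) = ((R.card : ℚ) - 2) * (2 * q) := by
    rw [sum3_pair, hc]
  have e2 : sum3 R (fun i _ l => c i l) = ((R.card : ℚ) - 2) * (2 * q) := by
    rw [← e1]
    exact sum3_swap23 R (fun i j _ => c i j)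
  have e3 : sum3 R (fun _ j l => c j l) = ((R.card : ℚ) - 2) * (2 * q) := by
    rw [← e2]
    exact sum3_swap12 R (fun i _ l => c i l)
  have e4 : sum3 R (fun i j l => c i j + c i l + c j l) = 6 * ((R.card : ℚ) - 2) * q := by
    have : sum3 R (fun i j l => c i j + c i l + c j l) =
        sum3 R (fun i j _ => c i j) + sum3 R (fun i _ l => c i l) + sum3 R (fun _ j l => c j l) := by
      unfold sum3
      rw [← Finset.sum_add_distrib, ← Finset.sum_add_distrib]
    rw [this, e1, e2, e3]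
    ring
  rw [← e4]
  unfold sum3
  refine Finset.sum_le_sum ?_
  rintro ⟨i, j, l⟩ hp
  have hp' : (i ∈ R ∧ j ∈ R ∧ l ∈ R) ∧ i ≠ j ∧ i ≠ l ∧ j ≠ l := by simpa [tri] using hp
  obtain ⟨⟨hi, hj, hl⟩, hij, hil, hjl⟩ := hp'
  show c i j + c i l + c j l ≤ f i j l
  simp only [c]
  by_cases c1 : (i = a ∧ j = b) ∨ (i = b ∧ j = a)
  · have n2 : ¬ ((i = a ∧ l = b) ∨ (i = b ∧ l = a)) := by
      rintro (⟨h2, h3⟩ | ⟨h2, h3⟩) <;> rcases c1 with ⟨h4, h5⟩ | ⟨h4, h5⟩
      · exact hjl (h5.trans h3.symm)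
      · exact hab (h2.symm.trans h4)
      · exact hab (h4.symm.trans h2)
      · exact hjl (h5.trans h3.symm)
    have n3 : ¬ ((j = a ∧ l = b) ∨ (j = b ∧ l = a)) := by
      rintro (⟨h2, h3⟩ | ⟨h2, h3⟩) <;> rcases c1 with ⟨h4, h5⟩ | ⟨h4, h5⟩
      · exact hab (h2.symm.trans h5)
      · exact hil (h4.trans h3.symm)
      · exact hil (h4.trans h3.symm)
      · exact hab (h5.symm.trans h2)
    rw [if_pos c1, if_neg n2, if_neg n3, add_zero, add_zero]
    exact (h1 i hi j hj l hl hij hil hjl c1).1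
  · rw [if_neg c1, zero_add]
    by_cases c2 : (i = a ∧ l = b) ∨ (i = b ∧ l = a)
    · have n3 : ¬ ((j = a ∧ l = b) ∨ (j = b ∧ l = a)) := by
        rintro (⟨h2, h3⟩ | ⟨h2, h3⟩) <;> rcases c2 with ⟨h4, h5⟩ | ⟨h4, h5⟩
        · exact hij (h4.trans h2.symm)
        · exact hab (h5.symm.trans h3)
        · exact hab (h3.symm.trans h5)
        · exact hij (h4.trans h2.symm)
      rw [if_pos c2, if_neg n3, add_zero]
      exact (h1 i hi l hl j hj hil hij hjl.symm c2).2.1
    · rw [if_neg c2, zero_add]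
      by_cases c3 : (j = a ∧ l = b) ∨ (j = b ∧ l = a)
      · rw [if_pos c3]
        exact (h1 j hj l hl i hi hjl hij.symm hil.symm c3).2.2
      · rw [if_neg c3]
        exact h0 i hi j hj l hl hij hil hjl

namespace Cur

variable {S : Cur}

theorem X2_cen {v : ℂ} {N : ℕ} (hN : 0 < N) {τ : M} (h : τ ∈ S.sh (some v) N) :
    ∃ t : ℂ, cen τ = some t := by
  rcases hc : cen τ with _ | t
  · exact absurd (loc_inf hN h hc).1 (by simp)
  · exact ⟨t, rfl⟩

theorem X2_uniq {v t : ℂ} {N : ℕ} (hN : S.Adm (some v) N)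
    (h1 : ∀ t', (S.al (some v)).IsRoot t' → t' ≠ t → S.e (some v) t' = 1) {τ τ' : M} {t' : ℂ}
    (h : τ ∈ S.sh (some v) N) (h' : τ' ∈ S.sh (some v) N) (hc : cen τ = some t')
    (hc' : cen τ' = some t') (hne : t' ≠ t) : τ = τ' := by
  classical
  have hr := (loc_fin hN.1 h hc).1
  have hcard := S.card_cen (some v) hN t'
  rw [h1 t' hr hne] at hcard
  exact Finset.card_le_one.1 hcard.le τ (Finset.mem_filter.2 ⟨h, hc⟩) τ'
    (Finset.mem_filter.2 ⟨h', hc'⟩)

theorem X2_g {v t : ℂ} (hN : S.Adm (some v) 2) (he : S.e (some v) t = 2)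
    (h1 : ∀ t', (S.al (some v)).IsRoot t' → t' ≠ t → S.e (some v) t' = 1)
    (hc : S.IsCusp t) {τ : M} (h : τ ∈ S.sh (some v) 2) : Ge (S.g (some v) τ) 0 := by
  obtain ⟨t', ht'⟩ := X2_cen hN.1 h
  by_cases hne : t' = t
  · subst hne
    have := g_cusp (h := 1) hN.1 h ht' (by rw [he]) hc
    simpa using this
  · have := g_fin (h := 2) hN.1 h ht' (by rw [h1 t' (loc_fin hN.1 h ht').1 hne])
    simpa using this

theorem X2_y {v : ℂ} {N : ℕ} (hN : 0 < N) {τ : M} (h : τ ∈ S.sh (some v) N) :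
    Ge (S.y (some v) τ) 0 := by
  obtain ⟨t', ht'⟩ := X2_cen hN h
  exact (y_fin hN h ht').1

theorem X2_om {v t : ℂ} (hN : S.Adm (some v) 2) (he : S.e (some v) t = 2)
    (h1 : ∀ t', (S.al (some v)).IsRoot t' → t' ≠ t → S.e (some v) t' = 1)
    (hc : S.IsCusp t) {i j l : M} (hi : i ∈ S.sh (some v) 2) (hj : j ∈ S.sh (some v) 2)
    (hl : l ∈ S.sh (some v) 2) (hij : i ≠ j) (hil : i ≠ l) (hjl : j ≠ l) :
    0 ≤ S.om (some v) 2 i j l := by
  by_cases hW : S.W (some v) i j l = 0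
  · rw [(om_col hN.1 hi hj hl hij hil hjl hW).2.2]
    obtain ⟨ti, hti⟩ := X2_cen hN.1 hi
    obtain ⟨tj, htj⟩ := X2_cen hN.1 hj
    have := rho_nonneg hN.1 hi hj (by rw [hti]; simp) (by rw [htj]; simp)
    linarith
  · have gi := X2_g hN he h1 hc hi
    have gj := X2_g hN he h1 hc hj
    have gl := X2_g hN he h1 hc hl
    have yi := X2_y hN.1 hi
    have yj := X2_y hN.1 hj
    have yl := X2_y hN.1 hl
    have hge : Ge (S.W (some v) i j l) 0 := by
      unfold W
      have a1 := ge_mul (ge_sub yj yi) (ge_sub gl gi)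
      have a2 := ge_mul (ge_sub yl yi) (ge_sub gj gi)
      rw [add_zero] at a1 a2
      exact ge_sub a1 a2
    unfold om
    rw [if_neg hW]
    have h3 : (0 : ℤ) ≤ (S.W (some v) i j l).order := (ge_iff hW).1 hge
    have h4 : (0 : ℚ) ≤ ((S.W (some v) i j l).order : ℚ) := by exact_mod_cast h3
    positivity

theorem X2_coeff_one {v t : ℂ} (hN : S.Adm (some v) 2) (he : S.e (some v) t = 2)
    (h1 : ∀ t', (S.al (some v)).IsRoot t' → t' ≠ t → S.e (some v) t' = 1)
    (hc : S.IsCusp t) {τ : M} (h : τ ∈ S.sh (some v) 2) : (S.y (some v) τ).coeff 1 = 0 := by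
  have hg := X2_g hN he h1 hc h
  have hch := chain hN.1 ((S.mem_sh (some v) hN.1 τ).1 h)
  have h2 : Ge ((2 : ℕ) : M) 0 := by
    rw [← map_natCast (algebraMap ℂ M) 2]
    exact ge_algebraMap _
  have h3 : Ge (sp ((2 : ℕ) : ℤ)) 2 := by
    rw [ge_iff (sp_ne _), ord_sp]
    norm_num
  have h4 : Ge (eul (S.y (some v) τ)) 2 := by
    rw [← hch]
    have := ge_mul (ge_mul h2 h3) hg
    simpa using this
  have h5 := h4 1 (by norm_num)
  rw [eul_coeff] at h5
  simpa using h5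

theorem x2 {v t : ℂ} (hN : S.Adm (some v) 2) (he : S.e (some v) t = 2)
    (h1 : ∀ t', (S.al (some v)).IsRoot t' → t' ≠ t → S.e (some v) t' = 1)
    (hc : S.IsCusp t) :
    ∃ o : ℤ, 3 ≤ o ∧ ¬ (2 : ℤ) ∣ o ∧ S.S2 (some v) 2 = o ∧
      6 * ((S.n : ℚ) - 2) * ((o : ℚ) / 2 - 1) ≤ S.S3 (some v) 2 ∧
      ∃ τ ∈ S.sh (some v) 2, cen τ = some t ∧ (S.y (some v) τ).coeff o ≠ 0 ∧
        ∀ l < o, ¬ (2 : ℤ) ∣ l → (S.y (some v) τ).coeff l = 0 := by
  classical
  have hcard := S.card_cen (some v) hN t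
  rw [he] at hcard
  obtain ⟨a, b, hab, hcl⟩ := Finset.card_eq_two.1 hcard
  have ha : a ∈ S.sh (some v) 2 ∧ cen a = some t := by
    have : a ∈ (S.sh (some v) 2).filter (fun τ => cen τ = some t) := by rw [hcl]; simp
    exact Finset.mem_filter.1 this
  have hb : b ∈ S.sh (some v) 2 ∧ cen b = some t := by
    have : b ∈ (S.sh (some v) 2).filter (fun τ => cen τ = some t) := by rw [hcl]; simp
    exact Finset.mem_filter.1 this
  have hmem : ∀ τ ∈ S.sh (some v) 2, cen τ = some t → τ = a ∨ τ = b := by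
    intro τ hτ hτc
    have : τ ∈ (S.sh (some v) 2).filter (fun τ => cen τ = some t) :=
      Finset.mem_filter.2 ⟨hτ, hτc⟩
    rw [hcl] at this
    simpa using this
  obtain ⟨B, hB, hB0, hBl, hBr⟩ := class_prime hN Nat.prime_two ha.1
    (by rw [ha.2]; exact hcard)
  have hB' : ¬ (2 : ℤ) ∣ B := by exact_mod_cast hB
  have hBl' : ∀ l < B, ¬ (2 : ℤ) ∣ l → (S.y (some v) a).coeff l = 0 := by
    intro l hl hd
    exact hBl l hl (by exact_mod_cast hd)
  have hB3 : 3 ≤ B := by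
    have h0 : 0 ≤ B := by
      by_contra hneg
      exact hB0 (X2_y hN.1 ha.1 B (by omega))
    have hne1 : B ≠ 1 := by
      rintro rfl
      exact hB0 (X2_coeff_one hN he h1 hc ha.1)
    omega
  have hrab : S.rho (some v) 2 a b = (B : ℚ) / 2 := by
    have := hBr a ha.1 b hb.1 hab rfl (hb.2.trans ha.2.symm)
    exact_mod_cast this
  have hrba : S.rho (some v) 2 b a = (B : ℚ) / 2 := by rw [rho_symm]; exact hrab
  -- pairs other than the class
  have hr0 : ∀ i ∈ S.sh (some v) 2, ∀ j ∈ S.sh (some v) 2, i ≠ j →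
      ¬ ((i = a ∧ j = b) ∨ (i = b ∧ j = a)) → S.rho (some v) 2 i j = 0 := by
    intro i hi j hj hij hn
    obtain ⟨ti, hti⟩ := X2_cen hN.1 hi
    obtain ⟨tj, htj⟩ := X2_cen hN.1 hj
    by_cases htt : ti = tj
    · subst htt
      by_cases htt' : ti = t
      · subst htt'
        exfalso
        rcases hmem i hi hti with rfl | rfl <;> rcases hmem j hj htj with rfl | rfl
        · exact hij rfl
        · exact hn (Or.inl ⟨rfl, rfl⟩)
        · exact hn (Or.inr ⟨rfl, rfl⟩)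
        · exact hij rfl
      · exact absurd (X2_uniq hN h1 hi hj hti htj htt') hij
    · exact rho_diff hN.1 hi hj hti htj htt
  refine ⟨B, hB3, hB', ?_, ?_, a, ha.1, ha.2, hB0, hBl'⟩
  · unfold S2
    rw [X2_sum2 (S.sh (some v) 2) ha.1 hb.1 hab (S.rho (some v) 2) hr0, hrab, hrba]
    ring
  · have hB3' : (3 : ℚ) ≤ (B : ℚ) := by exact_mod_cast hB3
    rw [← S.sh_card (some v) hN]
    unfold S3
    refine X2_sum3 (S.sh (some v) 2) ha.1 hb.1 hab (S.om (some v) 2) _ ?_ ?_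
    · intro i hi j hj l hl hij hil hjl
      exact X2_om hN he h1 hc hi hj hl hij hil hjl
    · intro i hi j hj l hl hij hil hjl hcase
      have hrij : S.rho (some v) 2 i j = (B : ℚ) / 2 := by
        rcases hcase with ⟨rfl, rfl⟩ | ⟨rfl, rfl⟩
        · exact hrab
        · exact hrba
      have hril : S.rho (some v) 2 i l = 0 := by
        refine hr0 i hi l hl hil ?_
        rintro (⟨h2, h3⟩ | ⟨h2, h3⟩) <;> rcases hcase with ⟨h4, h5⟩ | ⟨h4, h5⟩
        · exact hjl (h5.trans h3.symm)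
        · exact hab (h2.symm.trans h4)
        · exact hab (h4.symm.trans h2)
        · exact hjl (h5.trans h3.symm)
      have hW : S.W (some v) i j l ≠ 0 := by
        intro hW
        have := (om_col hN.1 hi hj hl hij hil hjl hW).1
        rw [hrij, hril] at this
        linarith
      have hkey : (B : ℚ) / 2 - 1 ≤ S.om (some v) 2 i j l := by
        have := om_naive hN.1 hi hj hl hij hil hjl hW
        rw [hrij, hril] at this
        linarith
      refine ⟨hkey, ?_, ?_⟩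
      · rw [om_swap23]
        exact hkey
      · rw [om_swap12, om_swap23]
        exact hkey

end Cur

end WR
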