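import Pool.Agent.helper51.WR.TotB
import Pool.Agent.helper51.WR.InfB
import Pool.Agent.helper51.WR.X2
import Pool.Agent.helper51.WR.NoColB
import Pool.Agent.helper51.WR.Glob

/-!
# WR-FineB: the tangent line and another line meet the curve in one more point each

If there is a cusp off the two lines, then `k = 1`. `F2int` at `v₁`, `x2` at the place of the cusp, `J1` at
infinity; there are no collinear triples by `nocolB`. The sum is
`(n-1)(n-2)/3 + m k (k-1) + (n-k)(k-1) ≤ (n-2)(6-o) ≤ 3 (n-2)`, impossible for `k ≥ 2`.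
-/

namespace WR

open Polynomial

namespace Cur

theorem FineB_num {n k m o A B A3 B3 C3 : ℚ} (hk2 : 2 ≤ k) (hkn : k + 1 ≤ n) (hm : 2 ≤ m)
    (ho : 3 ≤ o) (hT2 : A + o + B = n * (n - 1)) (hT3 : A3 + C3 + B3 ≤ 0)
    (hA : 2 * (n - 2) * A - (1 - 1 / (3 * n)) * (n * (n - 1) * (n - 2)) ≤ A3)
    (hB : 2 * (n - 2) * B - n * (n - 1) * (n - 2) + m * (k * (k - 1)) + (n - k) * (k - 1) ≤ B3)
    (hC : 6 * (n - 2) * (o / 2 - 1) ≤ C3) : False := by
  have hn0 : n ≠ 0 := by linarith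
  have e1 : (1 - 1 / (3 * n)) * (n * (n - 1) * (n - 2)) =
      n * (n - 1) * (n - 2) - (n - 1) * (n - 2) / 3 := by
    field_simp
  rw [e1] at hA
  have hB' : B = n * (n - 1) - A - o := by linarith
  rw [hB'] at hB
  have h1 : (n - 2) * (o - 6) + (n - 1) * (n - 2) / 3 + m * (k * (k - 1)) + (n - k) * (k - 1) ≤ 0 := by
    nlinarith
  have h2 : 0 ≤ (n - 2) * (o - 3) := mul_nonneg (by linarith) (by linarith)
  have h3 : 0 ≤ (m - 2) * (k * (k - 1)) :=
    mul_nonneg (by linarith) (mul_nonneg (by linarith) (by linarith))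
  have h4 : 0 ≤ (k - 2) * (n + k) := mul_nonneg (by linarith) (by linarith)
  nlinarith [sq_nonneg (2 * n - 9)]

theorem kOne (S : Cur) {v₁ t₁ tu t₂ : ℂ} (he : S.e (some v₁) t₁ = S.n)
    (hu : ∀ t, S.b.IsRoot t → t = tu) (hc : S.IsCusp t₂) (h1 : t₂ ≠ t₁) (h2 : t₂ ≠ tu) :
    S.k = 1 := by
  classical
  obtain ⟨hek, v₂, hv, he2, hsimp, hA1, hA2, hAo⟩ := totB S he hu hc h1 h2
  by_contra hk1
  have hk2 : 2 ≤ S.k := by
    have := S.hk
    omega
  obtain ⟨o, ho3, -, hS2, hS3, -⟩ := x2 hA2 he2 hsimp hc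
  have hAn : S.Adm none S.n.factorial := S.adm_factorial none
  -- the choice of `N`
  let N : Option ℂ → ℕ := fun P => match P with
    | none => S.n.factorial
    | some v => if v = v₁ then S.n else if v = v₂ then 2 else 1
  have hN0 : N none = S.n.factorial := rfl
  have hN1 : N (some v₁) = S.n := by simp [N]
  have hN2 : N (some v₂) = 2 := by simp [N, hv]
  have hNo : ∀ v, v ≠ v₁ → v ≠ v₂ → N (some v) = 1 := by
    intro v h3 h4
    simp [N, h3, h4]
  have hN : ∀ P, S.Adm P (N P) := by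
    intro P
    cases P with
    | none => exact hAn
    | some v =>
      by_cases h3 : v = v₁
      · rw [h3, hN1]
        exact hA1
      · by_cases h4 : v = v₂
        · rw [h4, hN2]
          exact hA2
        · rw [hNo v h3 h4]
          exact (hAo v h3 h4).1
  obtain ⟨c₃, hc₃, V₀, hV⟩ := glob S N hN
  obtain ⟨hT2, hT3⟩ := hV (insert v₁ (insert v₂ V₀)) (by
    intro x hx
    exact Finset.mem_insert_of_mem (Finset.mem_insert_of_mem hx))
  have hc₃0 : c₃ = 0 := by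
    rw [← hc₃ none]
    exact nocolB S hA2 he2 hsimp (hN none)
  have hcol1 : S.col (some v₁) S.n = 0 := nocolB S hA2 he2 hsimp hA1
  have hcoln : S.col none S.n.factorial = 0 := nocolB S hA2 he2 hsimp hAn
  have hoth2 : ∀ v, v ≠ v₁ → v ≠ v₂ → S.S2 (some v) (N (some v)) = 0 := by
    intro v h3 h4
    rw [hNo v h3 h4]
    exact S2_unram (hAo v h3 h4).1 (hAo v h3 h4).2
  have hoth3 : ∀ v, v ≠ v₁ → v ≠ v₂ → 0 ≤ S.S3 (some v) (N (some v)) := by
    intro v h3 h4
    have h5 := F1b (hAo v h3 h4).1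
    rw [S2_unram (hAo v h3 h4).1 (hAo v h3 h4).2, (hAo v h3 h4).2] at h5
    rw [hNo v h3 h4]
    simpa using h5
  set V := insert v₁ (insert v₂ V₀) with hVdef
  have hm1 : v₁ ∈ V := Finset.mem_insert_self _ _
  have hm2 : v₂ ∈ V.erase v₁ :=
    Finset.mem_erase.2 ⟨hv, Finset.mem_insert_of_mem (Finset.mem_insert_self _ _)⟩
  have hrest : ∀ v ∈ (V.erase v₁).erase v₂, v ≠ v₁ ∧ v ≠ v₂ := by
    intro v h3
    rw [Finset.mem_erase, Finset.mem_erase] at h3
    exact ⟨h3.2.1, h3.1⟩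
  rw [← Finset.add_sum_erase V _ hm1, ← Finset.add_sum_erase (V.erase v₁) _ hm2] at hT2 hT3
  rw [Finset.sum_eq_zero (s := (V.erase v₁).erase v₂)
    (fun v h3 => hoth2 v (hrest v h3).1 (hrest v h3).2)] at hT2
  have hge : 0 ≤ ∑ v ∈ (V.erase v₁).erase v₂, S.S3 (some v) (N (some v)) :=
    Finset.sum_nonneg fun v h3 => hoth3 v (hrest v h3).1 (hrest v h3).2
  rw [hN1, hN2, hN0] at hT2 hT3
  rw [hS2] at hT2
  rw [hc₃0] at hT3
  have hJ := J1 hAn hu hek
  have hF := F2int hA1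
  rw [hcoln] at hJ
  rw [hcol1] at hF
  simp only [Nat.cast_zero, sub_zero] at hJ hF
  have hkn := S.hkn
  have hm := S.hm
  refine FineB_num (n := (S.n : ℚ)) (k := (S.k : ℚ)) (m := (S.m : ℚ)) (o := (o : ℚ))
    (A := S.S2 (some v₁) S.n) (B := S.S2 none S.n.factorial) (A3 := S.S3 (some v₁) S.n)
    (B3 := S.S3 none S.n.factorial) (C3 := S.S3 (some v₂) 2)
    (by exact_mod_cast hk2) (by exact_mod_cast hkn) (by exact_mod_cast hm) (by exact_mod_cast ho3)
    ?_ ?_ hF hJ hS3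
  · linarith
  · push_cast at hT3
    linarith

end Cur

end WR
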