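import Pool.Agent.helper51.WR.PlD
import Pool.Agent.helper51.WR.Glob

/-!
# WR-GenD: the general inequality with the numbers of points on two lines

`u` = number of points of the curve on the tangent line at the point at infinity, `r` = number of points on
the line `x = v₁` (both without the point at infinity). `F2c` at `v₁`, `F1c` at the other finite places,
`I1d` at infinity, `glob`, and Riemann-Hurwitz:
`m (f (n+k-1) + k(k-1)) + f n (n-1) ≤ 3 (n-1)(n-2)(u + r - 1)`.
-/

namespace WR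

open Polynomial

namespace Cur

/-- the number of points of a fibre -/
theorem ram_card (S : Cur) (P : Option ℂ) :
    S.Ram P + (S.al P).roots.toFinset.card = (S.al P).natDegree := by
  classical
  have h1 : Multiset.card (S.al P).roots = (S.al P).natDegree :=
    (IsAlgClosed.splits (S.al P)).natDegree_eq_card_roots.symm
  have h2 : ∑ t ∈ (S.al P).roots.toFinset, (S.al P).roots.count t = Multiset.card (S.al P).roots :=
    Multiset.toFinset_sum_count_eq _
  have h3 : (S.al P).roots.toFinset.card = ∑ t ∈ (S.al P).roots.toFinset, 1 := by simp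
  rw [← h1, ← h2, h3]
  unfold Ram
  rw [← Finset.sum_add_distrib]
  refine Finset.sum_congr rfl fun t ht => ?_
  have h4 : 0 < (S.al P).roots.count t := Multiset.count_pos.2 (Multiset.mem_toFinset.1 ht)
  have h5 : S.e P t = (S.al P).roots.count t := by
    unfold e
    rw [count_roots]
  omega

theorem al_some_natDegree (S : Cur) (v : ℂ) : (S.al (some v)).natDegree = S.n := by
  have hkn := S.hkn
  change (S.a - C v * S.b).natDegree = S.n
  rw [natDegree_sub_eq_left_of_natDegree_lt]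
  · exact S.ha
  · refine lt_of_le_of_lt (natDegree_C_mul_le v S.b) ?_
    rw [S.hb, S.ha]
    exact hkn

theorem genD (S : Cur) (v₁ : ℂ) {f u r : ℕ} (hu : S.b.roots.toFinset.card = u)
    (hr : (S.al (some v₁)).roots.toFinset.card = r) (hfk : f ≤ S.k)
    (hf : ∀ v t : ℂ, S.e (some v) t + f ≤ S.n) (hf' : ∀ t : ℂ, S.e none t + f ≤ S.n) :
    (S.m : ℚ) * (f * ((S.n : ℚ) + S.k - 1) + S.k * (S.k - 1)) + f * (S.n * (S.n - 1)) ≤
      3 * ((S.n : ℚ) - 1) * (S.n - 2) * (u + r - 1) := by
  classical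
  have hN : ∀ P, S.Adm P (Nat.factorial S.n) := fun P => S.adm_factorial P
  obtain ⟨c₃, hc, V₀, hV⟩ := S.glob (fun _ => Nat.factorial S.n) hN
  obtain ⟨g2, g3⟩ := hV (insert v₁ (V₀.erase v₁)) (by
    intro x hx
    by_cases hxv : x = v₁
    · rw [hxv]
      exact Finset.mem_insert_self _ _
    · exact Finset.mem_insert_of_mem (Finset.mem_erase.2 ⟨hxv, hx⟩))
  rw [Finset.sum_insert (Finset.notMem_erase _ _)] at g2 g3
  have hkn := S.hkn
  have hk := S.hk
  have hI := I1d (hN none) hfk hf'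
  rw [hc none] at hI
  have hF2 := F2c (hN (some v₁)) (hf v₁)
  rw [hc (some v₁)] at hF2
  have hF := Finset.sum_le_sum (s := V₀.erase v₁) fun v _ => F1c (hN (some v)) (hf v)
  rw [Finset.sum_sub_distrib, ← Finset.mul_sum, ← Finset.mul_sum] at hF
  have hR := S.ram_le (insert v₁ (V₀.erase v₁))
  rw [Finset.sum_insert (Finset.notMem_erase _ _)] at hR
  have hR1 := S.ram_card (some v₁)
  rw [hr, S.al_some_natDegree] at hR1
  have hR2 : S.Ram none + S.b.roots.toFinset.card = S.b.natDegree := S.ram_card none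
  rw [hu, S.hb] at hR2
  have hR3 : ∑ v ∈ V₀.erase v₁, S.Ram (some v) + 1 ≤ u + r := by omega
  have hR' : ∑ v ∈ V₀.erase v₁, (S.Ram (some v) : ℚ) + 1 ≤ u + r := by
    exact_mod_cast hR3
  have n2 : (2 : ℚ) ≤ S.n := by
    have : 2 ≤ S.n := by omega
    exact_mod_cast this
  set n : ℚ := (S.n : ℚ) with hn
  set k : ℚ := (S.k : ℚ) with hkk
  set m : ℚ := (S.m : ℚ) with hmm
  set A2 : ℚ := ∑ v ∈ V₀.erase v₁, S.S2 (some v) (Nat.factorial S.n)
  set B2 : ℚ := S.S2 none (Nat.factorial S.n)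
  set C2 : ℚ := S.S2 (some v₁) (Nat.factorial S.n)
  set A3 : ℚ := ∑ v ∈ V₀.erase v₁, S.S3 (some v) (Nat.factorial S.n)
  set B3 : ℚ := S.S3 none (Nat.factorial S.n)
  set C3 : ℚ := S.S3 (some v₁) (Nat.factorial S.n)
  set AR : ℚ := ∑ v ∈ V₀.erase v₁, (S.Ram (some v) : ℚ)
  have hD : 0 ≤ 3 * (n - 1) * (n - 2) := by nlinarith
  have e1 : (2 * (n - 2) + f) * C2 + (2 * (n - 2) + f) * A2 + (2 * (n - 2) + f) * B2 =
      (2 * (n - 2) + f) * (n * (n - 1)) := by
    rw [← mul_add, ← mul_add, g2]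
  have e2 : 3 * (n - 1) * (n - 2) * AR ≤ 3 * (n - 1) * (n - 2) * (u + r - 1) :=
    mul_le_mul_of_nonneg_left (by linarith) hD
  nlinarith

end Cur

end WR
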