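import Pool.Agent.helper51.WR.CombE
import Pool.Agent.helper51.WR.BlkE
import Pool.Agent.helper51.WR.GenD

/-!
# WR-GenE: the general inequality with the blocks at infinity

As `genD`, with a weight `f ≤ n - e_t` for all `t` and `f ≤ n - gcd (n - k, m)`.
-/

namespace WR

open Polynomial

namespace Cur

variable {S : Cur}

open Classical in
/-- the pointwise inequality at infinity, cost `1`, with the gains in `C0` -/
theorem PlE_pw {N : ℕ} (hN : S.Adm none N) {i j l : M} (hi : i ∈ S.sh none N)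
    (hj : j ∈ S.sh none N) (hl : l ∈ S.sh none N) (hij : i ≠ j) (hil : i ≠ l) (hjl : j ≠ l) :
    2 / 3 * (S.rho none N i j + S.rho none N i l + S.rho none N j l)
      - (if ¬ (S.W none i j l = 0) then 1 else 0)
      + 1 / 3 * (gj cen (S.rho none N) S.PlIq i j l + gj cen (S.rho none N) S.PlIq j i l
        + gj cen (S.rho none N) S.PlIq l i j) ≤ S.om none N i j l := by
  have hN0 : 0 < N := hN.1
  by_cases hc : cen i = none ∧ cen j = none ∧ cen l = none
  · obtain ⟨ci0, cj0, cl0⟩ := hc
    have s1 : S.rho none N j i = S.rho none N i j := rho_symm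
    have s2 : S.rho none N l i = S.rho none N i l := rho_symm
    have s3 : S.rho none N l j = S.rho none N j l := rho_symm
    have g0 : ∀ x y z : M, cen x = none → cen y = none → cen z = none →
        gj cen (S.rho none N) S.PlIq x y z =
          if S.rho none N x y = - S.PlIq ∧ S.rho none N x z = - S.PlIq then
            S.PlIq + S.rho none N y z else 0 := by
      intro x y z hx hy hz
      unfold gj gi
      rw [if_neg (fun h : cen y ≠ none ∧ cen z ≠ none => h.1 hy),
        if_neg (fun h : cen y = none ∧ cen z = none ∧ cen x ≠ none => h.2.2 hx), zero_add]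
      by_cases h : S.rho none N x y = - S.PlIq ∧ S.rho none N x z = - S.PlIq
      · rw [if_pos h, if_pos ⟨hx, hy, hz, h.1, h.2⟩]
      · rw [if_neg h, if_neg (fun h' : cen x = none ∧ cen y = none ∧ cen z = none ∧
          S.rho none N x y = - S.PlIq ∧ S.rho none N x z = - S.PlIq => h h'.2.2.2)]
    rw [g0 i j l ci0 cj0 cl0, g0 j i l cj0 ci0 cl0, g0 l i j cl0 ci0 cj0, s1, s2, s3]
    have hu1 := rho_ultra hN0 hi hj hl hij hil hjl
    have hu2 := rho_ultra hN0 hj hi hl hij.symm hjl hil
    have hu3 := rho_ultra hN0 hl hi hj hil.symm hjl.symm hij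
    rw [s1] at hu2
    rw [s2, s3] at hu3
    by_cases hW : S.W none i j l = 0
    · obtain ⟨h1, h2, h3⟩ := om_col hN0 hi hj hl hij hil hjl hW
      rw [if_neg (fun h => h hW), h3, ← h1, ← h2]
      split_ifs with a
      · linarith [a.1]
      · linarith
    · obtain ⟨h1, h2, h3⟩ := PlI_naive hN0 hi hj hl hij hil hjl hW
      have b1 : - S.PlIq ≤ S.rho none N i j := rho_inf hN0 hi hj ci0 cj0
      have b2 : - S.PlIq ≤ S.rho none N i l := rho_inf hN0 hi hl ci0 cl0
      have b3 : - S.PlIq ≤ S.rho none N j l := rho_inf hN0 hj hl cj0 cl0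
      rw [if_pos hW]
      split_ifs with a1 a2 a3 a2 a3 a2 a3 a3
      all_goals
        first
          | (obtain ⟨p1, p2⟩ := a1; obtain ⟨p3, p4⟩ := a2; linarith)
          | (obtain ⟨p1, p2⟩ := a1; obtain ⟨p3, p4⟩ := a3; linarith)
          | (obtain ⟨p1, p2⟩ := a2; obtain ⟨p3, p4⟩ := a3; linarith)
          | (obtain ⟨p1, p2⟩ := a1; linarith)
          | (obtain ⟨p1, p2⟩ := a2; linarith)
          | (obtain ⟨p1, p2⟩ := a3; linarith)
          | linarith
  · have hgj : ∀ x y z : M, ¬ (cen x = none ∧ cen y = none ∧ cen z = none) →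
        gj cen (S.rho none N) S.PlIq x y z = gi cen (S.rho none N) S.PlIq x y z := by
      intro x y z h
      unfold gj
      rw [if_neg (fun h' : cen x = none ∧ cen y = none ∧ cen z = none ∧
          S.rho none N x y = - S.PlIq ∧ S.rho none N x z = - S.PlIq => h ⟨h'.1, h'.2.1, h'.2.2.1⟩),
        add_zero]
    rw [hgj i j l hc, hgj j i l (fun h => hc ⟨h.2.1, h.1, h.2.2⟩),
      hgj l i j (fun h => hc ⟨h.2.1, h.2.2, h.1⟩)]
    exact PlD_pw hN hi hj hl hij hil hjl

open Classical in
theorem I1e {N : ℕ} (hN : S.Adm none N) {f : ℕ} (hf1 : f + Nat.gcd (S.n - S.k) S.m ≤ S.n)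
    (hf2 : ∀ t, S.e none t + f ≤ S.n) :
    (2 * ((S.n : ℚ) - 2) + f) * S.S2 none N
      - ((S.n : ℚ) * (S.n - 1) * (S.n - 2) - S.col none N)
      + S.m * (f * ((S.n : ℚ) + S.k - 1) + S.k * (S.k - 1)) ≤ S.S3 none N := by
  have hN0 : 0 < N := hN.1
  have hkn := S.hkn
  have hn : (S.sh none N).card = S.n := S.sh_card none hN
  have he : ((S.sh none N).filter (fun τ => cen τ = none)).card = S.n - S.k := by
    have := S.card_cen_none none hN
    rwa [if_pos rfl] at this
  have hk : ((S.sh none N).filter (fun τ => cen τ ≠ none)).card = S.k := by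
    have h1 := Finset.card_filter_add_card_filter_not (s := S.sh none N) (fun τ => cen τ = none)
    have h2 : ((S.sh none N).filter (fun τ => cen τ ≠ none)).card =
        ((S.sh none N).filter (fun τ => ¬ cen τ = none)).card := rfl
    rw [h2]
    omega
  have hcast : ((S.n - S.k : ℕ) : ℚ) = (S.n : ℚ) - S.k := Nat.cast_sub (le_of_lt hkn)
  have hne : (S.n : ℚ) - S.k ≠ 0 := by
    have : (S.k : ℚ) < S.n := by exact_mod_cast hkn
    intro h
    linarith
  have hq : S.PlIq * ((S.n - S.k : ℕ) : ℚ) = S.m := by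
    rw [hcast]
    unfold PlIq
    field_simp
  have hcol : (((tri (S.sh none N)).filter
      (fun p => ¬ (S.W none p.1 p.2.1 p.2.2 = 0))).card : ℚ) =
      (S.n : ℚ) * (S.n - 1) * (S.n - 2) - S.col none N := by
    have h1 := Finset.card_filter_add_card_filter_not (s := tri (S.sh none N))
      (fun p => S.W none p.1 p.2.1 p.2.2 = 0)
    have h2 : S.col none N = ((tri (S.sh none N)).filter
      (fun p => S.W none p.1 p.2.1 p.2.2 = 0)).card := rfl
    have h3 := card_tri (S.sh none N)
    rw [hn] at h3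
    have h4 : (((tri (S.sh none N)).filter (fun p => S.W none p.1 p.2.1 p.2.2 = 0)).card : ℚ) +
      (((tri (S.sh none N)).filter
      (fun p => ¬ (S.W none p.1 p.2.1 p.2.2 = 0))).card : ℚ) = ((tri (S.sh none N)).card : ℚ) := by
      exact_mod_cast h1
    rw [h2]
    linarith
  have key := I1e_abs (S.sh none N) cen (S.rho none N) (fun i j => rho_symm) (S.om none N)
    (fun x y z => S.W none x y z = 0) S.PlIq S.k (S.n - S.k) S.m f (Nat.gcd (S.n - S.k) S.m)
    hk he (by omega) hq
    (by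
      intro p hp
      unfold tri at hp
      rw [Finset.mem_filter, Finset.mem_product, Finset.mem_product] at hp
      exact PlE_pw hN hp.1.1 hp.1.2.1 hp.1.2.2 hp.2.1 hp.2.2.1 hp.2.2.2)
    (by
      intro p hp h1 h2 h3
      unfold prs at hp
      rw [Finset.mem_filter, Finset.mem_product] at hp
      obtain ⟨t, ht⟩ := Option.ne_none_iff_exists'.1 h1
      obtain ⟨t', ht'⟩ := Option.ne_none_iff_exists'.1 h2
      refine rho_diff hN0 hp.1.1 hp.1.2 ht ht' ?_
      rintro rfl
      exact h3 (ht.trans ht'.symm))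
    (by
      intro p hp h1 h2
      unfold prs at hp
      rw [Finset.mem_filter, Finset.mem_product] at hp
      exact rho_nonneg hN0 hp.1.1 hp.1.2 h1 h2)
    (by
      intro p hp h1 h2
      unfold prs at hp
      rw [Finset.mem_filter, Finset.mem_product] at hp
      exact rho_mix hN0 hp.1.1 hp.1.2 h1 h2)
    (by
      intro p hp h1 h2
      unfold prs at hp
      rw [Finset.mem_filter, Finset.mem_product] at hp
      exact rho_inf hN0 hp.1.1 hp.1.2 h1 h2)
    (by
      intro i hi hci
      obtain ⟨t, ht⟩ := Option.ne_none_iff_exists'.1 hci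
      have h1 := S.card_cen none hN t
      have h2 := hf2 t
      rw [hn, ht]
      have h3 : ((S.sh none N).filter (fun τ => cen τ = some t)).card = S.e none t := by
        convert h1
      omega)
    (by
      intro j hj hcj
      convert blkE hN hj hcj)
    (by
      intro i hi j hj l hl hij hil hjl _ _ _
      have h1 := rho_ultra hN0 hl hi hj hil.symm hjl.symm hij
      have s2 : S.rho none N l i = S.rho none N i l := rho_symm
      have s3 : S.rho none N l j = S.rho none N j l := rho_symm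
      rw [s2, s3] at h1
      exact h1)
  rw [hn, hcol, hcast] at key
  have h5 : (S.m : ℚ) * (f * ((S.n : ℚ) + S.k - 1) + S.k * (S.k - 1)) =
      S.m * (f * (2 * (S.k : ℚ) + ((S.n : ℚ) - S.k) - 1) + S.k * (S.k - 1)) := by ring
  rw [h5]
  exact key

theorem genE (S : Cur) (v₁ : ℂ) {f u r : ℕ} (hu : S.b.roots.toFinset.card = u)
    (hr : (S.al (some v₁)).roots.toFinset.card = r)
    (hfg : f + Nat.gcd (S.n - S.k) S.m ≤ S.n)
    (hf : ∀ v t : ℂ, S.e (some v) t + f ≤ S.n) (hf' : ∀ t : ℂ, S.e none t + f ≤ S.n) :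
    (S.m : ℚ) * (f * ((S.n : ℚ) + S.k - 1) + S.k * (S.k - 1)) + f * (S.n * (S.n - 1)) ≤
      3 * ((S.n : ℚ) - 1) * (S.n - 2) * (u + r - 1) := by
  classical
  have hN : ∀ P, S.Adm P (Nat.factorial S.n) := fun P => S.adm_factorial P
  obtain ⟨c₃, hc, V₀, hV⟩ := S.glob (fun _ => Nat.factorial S.n) hN
  obtain ⟨g2, g3⟩ := hV (insert v₁ (V₀.erase v₁)) (by
    intro x hx
    by_cases hxv : x = v₁
    · rw [hxv]
      exact Finset.mem_insert_self _ _
    · exact Finset.mem_insert_of_mem (Finset.mem_erase.2 ⟨hxv, hx⟩))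
  rw [Finset.sum_insert (Finset.notMem_erase _ _)] at g2 g3
  have hkn := S.hkn
  have hk := S.hk
  have hI := I1e (hN none) hfg hf'
  rw [hc none] at hI
  have hF2 := F2c (hN (some v₁)) (hf v₁)
  rw [hc (some v₁)] at hF2
  have hF := Finset.sum_le_sum (s := V₀.erase v₁) fun v _ => F1c (hN (some v)) (hf v)
  rw [Finset.sum_sub_distrib, ← Finset.mul_sum, ← Finset.mul_sum] at hF
  have hR := S.ram_le (insert v₁ (V₀.erase v₁))
  rw [Finset.sum_insert (Finset.notMem_erase _ _)] at hR
  have hR1 := S.ram_card (some v₁)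
  rw [hr, S.al_some_natDegree] at hR1
  have hR2 : S.Ram none + S.b.roots.toFinset.card = S.b.natDegree := S.ram_card none
  rw [hu, S.hb] at hR2
  have hR3 : ∑ v ∈ V₀.erase v₁, S.Ram (some v) + 1 ≤ u + r := by omega
  have hR' : ∑ v ∈ V₀.erase v₁, (S.Ram (some v) : ℚ) + 1 ≤ u + r := by
    exact_mod_cast hR3
  have n2 : (2 : ℚ) ≤ S.n := by
    have : 2 ≤ S.n := by omega
    exact_mod_cast this
  set n : ℚ := (S.n : ℚ) with hn
  set k : ℚ := (S.k : ℚ) with hkk
  set m : ℚ := (S.m : ℚ) with hmm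
  set A2 : ℚ := ∑ v ∈ V₀.erase v₁, S.S2 (some v) (Nat.factorial S.n)
  set B2 : ℚ := S.S2 none (Nat.factorial S.n)
  set C2 : ℚ := S.S2 (some v₁) (Nat.factorial S.n)
  set A3 : ℚ := ∑ v ∈ V₀.erase v₁, S.S3 (some v) (Nat.factorial S.n)
  set B3 : ℚ := S.S3 none (Nat.factorial S.n)
  set C3 : ℚ := S.S3 (some v₁) (Nat.factorial S.n)
  set AR : ℚ := ∑ v ∈ V₀.erase v₁, (S.Ram (some v) : ℚ)
  have hD : 0 ≤ 3 * (n - 1) * (n - 2) := by nlinarith
  have e1 : (2 * (n - 2) + f) * C2 + (2 * (n - 2) + f) * A2 + (2 * (n - 2) + f) * B2 =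
      (2 * (n - 2) + f) * (n * (n - 1)) := by
    rw [← mul_add, ← mul_add, g2]
  have e2 : 3 * (n - 1) * (n - 2) * AR ≤ 3 * (n - 1) * (n - 2) * (u + r - 1) :=
    mul_le_mul_of_nonneg_left (by linarith) hD
  nlinarith

end Cur

end WR
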