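import Pool.Agent.helper51.WR.CombS
import Pool.Agent.helper51.WR.PlC
import Pool.Agent.helper65.N4.Base

/-!
# WR-PlS: the inequality at a place with savings for cusps

At a cusp `g = dy/dx` has order at least `2 h - N`, so the cost of a sheet whose centre is a cusp is
`1 - 2/e` instead of `1 - 1/e` in the triples with no other sheet of its class.
-/

namespace WR

open Polynomial

namespace Cur

variable {S : Cur}

open Classical in
/-- the saving of a sheet -/
noncomputable def PlS_s (S : Cur) (P : Option ℂ) (τ : M) : ℚ :=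
  if S.IsCusp ((cen τ).getD 0) then 1 / (S.e P ((cen τ).getD 0) : ℚ) else 0

theorem PlS_s_nonneg (S : Cur) (P : Option ℂ) (τ : M) : 0 ≤ S.PlS_s P τ := by
  unfold PlS_s
  split_ifs
  · positivity
  · exact le_rfl

theorem PlS_s_le {P : Option ℂ} {N : ℕ} (hN : 0 < N) {τ : M} (hτ : τ ∈ S.sh P N)
    (hc : cen τ ≠ none) : S.PlS_s P τ ≤ S.PlF_ep P τ := by
  unfold PlS_s
  split_ifs with h
  · obtain ⟨t, ht⟩ := Option.ne_none_iff_exists'.1 hc
    unfold PlF_ep
    rw [ht] at h ⊢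
    have h1 : S.IsCusp t := h
    have h2 := cusp_e (loc_fin hN hτ ht).1 h1
    change 1 / (S.e P t : ℚ) ≤ 1 - 1 / (S.e P t : ℚ)
    have h3 : (2 : ℚ) ≤ S.e P t := by exact_mod_cast h2
    have h4 : 1 / (S.e P t : ℚ) ≤ 1 / 2 := by
      rw [div_le_div_iff₀ (by linarith) (by norm_num)]
      linarith
    linarith
  · exact S.PlF_ep_nonneg P τ

theorem om_finS {P : Option ℂ} {N : ℕ} (hN : 0 < N) {τ₁ τ₂ τ₃ : M} (h₁ : τ₁ ∈ S.sh P N)
    (h₂ : τ₂ ∈ S.sh P N) (h₃ : τ₃ ∈ S.sh P N) (c₁ : cen τ₁ ≠ none) (c₂ : cen τ₂ ≠ none)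
    (c₃ : cen τ₃ ≠ none) (hW : S.W P τ₁ τ₂ τ₃ ≠ 0) :
    -((S.PlF_ep P τ₁ - S.PlS_s P τ₁) + (S.PlF_ep P τ₂ - S.PlS_s P τ₂) +
      (S.PlF_ep P τ₃ - S.PlS_s P τ₃)) ≤ S.om P N τ₁ τ₂ τ₃ := by
  have h7 : (0 : ℚ) < N := by exact_mod_cast hN
  have key : ∀ {τ : M}, τ ∈ S.sh P N → cen τ ≠ none →
      ∃ h : ℤ, h ≤ N ∧ Ge (S.g P τ) (h - N) ∧
        ((h - N : ℤ) : ℚ) / N = -(S.PlF_ep P τ - S.PlS_s P τ) ∧ Ge (S.y P τ) 0 := by
    intro τ hτ hc
    obtain ⟨t, ct⟩ := Option.ne_none_iff_exists'.1 hc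
    obtain ⟨hroot, -, h, hpos, hNh, -⟩ := loc_fin hN hτ ct
    have he : 0 < S.e P t := by
      rcases Nat.eq_zero_or_pos (S.e P t) with h0 | h0
      · rw [h0, zero_mul] at hNh
        omega
      · exact h0
    have e0 : (0 : ℚ) < S.e P t := by exact_mod_cast he
    have e1 : (N : ℚ) = S.e P t * h := by exact_mod_cast hNh
    have e2 : (0 : ℚ) < h := by exact_mod_cast hpos
    have e3 : S.PlF_ep P τ = 1 - 1 / (S.e P t : ℚ) := by
      unfold PlF_ep
      rw [ct]
      rfl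
    by_cases hcu : S.IsCusp t
    · have h2e := cusp_e hroot hcu
      refine ⟨2 * (h : ℤ), ?_, g_cusp hN hτ ct hNh hcu, ?_, (y_fin hN hτ ct).1⟩
      · have : 2 * h ≤ N := by
          rw [hNh]
          exact Nat.mul_le_mul_right h h2e
        exact_mod_cast this
      · have e4 : S.PlS_s P τ = 1 / (S.e P t : ℚ) := by
          unfold PlS_s
          rw [ct]
          rw [if_pos]
          · rfl
          · exact hcu
        rw [e3, e4]
        push_cast
        rw [e1]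
        field_simp
        ring
    · refine ⟨h, ?_, g_fin hN hτ ct hNh, ?_, (y_fin hN hτ ct).1⟩
      · have : h ≤ N := by
          rw [hNh]
          exact Nat.le_mul_of_pos_left h he
        exact_mod_cast this
      · have e4 : S.PlS_s P τ = 0 := by
          unfold PlS_s
          rw [ct]
          rw [if_neg]
          exact hcu
        rw [e3, e4]
        push_cast
        rw [e1]
        field_simp
        ring
  obtain ⟨a1, b1, g1, r1, y1⟩ := key h₁ c₁
  obtain ⟨a2, b2, g2, r2, y2⟩ := key h₂ c₂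
  obtain ⟨a3, b3, g3, r3, y3⟩ := key h₃ c₃
  obtain ⟨R, hR⟩ : ∃ R : ℤ, R = (a1 - N) + (a2 - N) + (a3 - N) := ⟨_, rfl⟩
  have g1' := ge_mono g1 (show R ≤ _ by omega)
  have g2' := ge_mono g2 (show R ≤ _ by omega)
  have g3' := ge_mono g3 (show R ≤ _ by omega)
  have hG : Ge (S.W P τ₁ τ₂ τ₃) R := by
    unfold W
    have p1 := ge_mul (ge_sub y2 y1) (ge_sub g3' g1')
    have p2 := ge_mul (ge_sub y3 y1) (ge_sub g2' g1')
    rw [zero_add] at p1 p2
    exact ge_sub p1 p2
  have hO := (ge_iff hW).mp hG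
  rw [Rho_om hW]
  have h8 : -((S.PlF_ep P τ₁ - S.PlS_s P τ₁) + (S.PlF_ep P τ₂ - S.PlS_s P τ₂) +
      (S.PlF_ep P τ₃ - S.PlS_s P τ₃)) = (R : ℚ) / N := by
    rw [hR]
    push_cast at r1 r2 r3 ⊢
    rw [add_div, add_div, r1, r2, r3]
    ring
  rw [h8]
  exact div_le_div_of_nonneg_right (by exact_mod_cast hO) h7.le

theorem PlS_sv {P : Option ℂ} {N : ℕ} (hN : 0 < N) {i j l : M} (hi : i ∈ S.sh P N)
    (hc : cen i ≠ none) : sv cen (S.PlS_s P) i j l ≤ S.PlF_ep P i := by
  unfold sv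
  split_ifs
  · exact PlS_s_le hN hi hc
  · exact S.PlF_ep_nonneg P i

/-- the pointwise inequality for three sheets with finite centres, with savings -/
theorem pw_finS {P : Option ℂ} {N : ℕ} (hN : S.Adm P N) {τ₁ τ₂ τ₃ : M} (h₁ : τ₁ ∈ S.sh P N)
    (h₂ : τ₂ ∈ S.sh P N) (h₃ : τ₃ ∈ S.sh P N) (h12 : τ₁ ≠ τ₂) (h13 : τ₁ ≠ τ₃) (h23 : τ₂ ≠ τ₃)
    (c₁ : cen τ₁ ≠ none) (c₂ : cen τ₂ ≠ none) (c₃ : cen τ₃ ≠ none) :
    2 / 3 * (S.rho P N τ₁ τ₂ + S.rho P N τ₁ τ₃ + S.rho P N τ₂ τ₃)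
      - (S.PlF_ep P τ₁ + S.PlF_ep P τ₂ + S.PlF_ep P τ₃)
      + (sv cen (S.PlS_s P) τ₁ τ₂ τ₃ + sv cen (S.PlS_s P) τ₂ τ₁ τ₃ + sv cen (S.PlS_s P) τ₃ τ₁ τ₂)
      + 1 / 3 * (gn cen (S.rho P N) τ₁ τ₂ τ₃ + gn cen (S.rho P N) τ₂ τ₁ τ₃
        + gn cen (S.rho P N) τ₃ τ₁ τ₂) ≤ S.om P N τ₁ τ₂ τ₃ := by
  have hN0 : 0 < N := hN.1
  have s1 := PlS_sv (j := τ₂) (l := τ₃) hN0 h₁ c₁
  have s2 := PlS_sv (j := τ₁) (l := τ₃) hN0 h₂ c₂
  have s3 := PlS_sv (j := τ₁) (l := τ₂) hN0 h₃ c₃
  have diff : ∀ {x y : M}, x ∈ S.sh P N → y ∈ S.sh P N → cen x ≠ none → cen y ≠ none →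
      cen x ≠ cen y → S.rho P N x y = 0 := by
    intro x y hx hy hcx hcy hne
    obtain ⟨t, ht⟩ := Option.ne_none_iff_exists'.1 hcx
    obtain ⟨t', ht'⟩ := Option.ne_none_iff_exists'.1 hcy
    refine rho_diff hN0 hx hy ht ht' ?_
    rintro rfl
    exact hne (ht.trans ht'.symm)
  have svz1 : ∀ {x y z : M}, cen y = cen x → sv cen (S.PlS_s P) x y z = 0 := by
    intro x y z h
    unfold sv
    rw [if_neg (fun h' : cen y ≠ cen x ∧ cen z ≠ cen x => h'.1 h)]
  have svz2 : ∀ {x y z : M}, cen z = cen x → sv cen (S.PlS_s P) x y z = 0 := by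
    intro x y z h
    unfold sv
    rw [if_neg (fun h' : cen y ≠ cen x ∧ cen z ≠ cen x => h'.2 h)]
  by_cases hW : S.W P τ₁ τ₂ τ₃ = 0
  · -- collinear
    obtain ⟨g1, g2, g3⟩ := om_col hN0 h₁ h₂ h₃ h12 h13 h23 hW
    have z1 : gn cen (S.rho P N) τ₁ τ₂ τ₃ = 0 := by
      unfold gn
      split_ifs with h
      · have := diff h₁ h₂ c₁ c₂ h.2
        linarith
      · rfl
    have z2 : gn cen (S.rho P N) τ₂ τ₁ τ₃ = 0 := by
      unfold gn
      split_ifs with h
      · have := diff h₁ h₂ c₁ c₂ (Ne.symm h.2)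
        linarith
      · rfl
    have z3 : gn cen (S.rho P N) τ₃ τ₁ τ₂ = 0 := by
      unfold gn
      split_ifs with h
      · have := diff h₁ h₃ c₁ c₃ (Ne.symm h.2)
        linarith
      · rfl
    rw [z1, z2, z3]
    linarith
  · obtain ⟨b1, b2, b3⟩ := PlF_naive hN0 h₁ h₂ h₃ h12 h13 h23 hW
    by_cases e12 : cen τ₁ = cen τ₂
    · by_cases e13 : cen τ₁ = cen τ₃
      · -- all centres agree
        have e23 : cen τ₂ = cen τ₃ := e12.symm.trans e13
        have k1 := PlF_two hN h₁ h₂ h12 e12 c₁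
        have k2 := PlF_two hN h₂ h₃ h23 e23 c₂
        have k3 := S.PlF_ep_nonneg P τ₃
        have z1 : gn cen (S.rho P N) τ₁ τ₂ τ₃ = 0 := by
          unfold gn
          rw [if_neg]
          exact fun h => h.2 e12
        have z2 : gn cen (S.rho P N) τ₂ τ₁ τ₃ = 0 := by
          unfold gn
          rw [if_neg]
          exact fun h => h.2 e12.symm
        have z3 : gn cen (S.rho P N) τ₃ τ₁ τ₂ = 0 := by
          unfold gn
          rw [if_neg]
          exact fun h => h.2 e13.symm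
        rw [z1, z2, z3, svz1 e12.symm, svz1 e12, svz1 e13]
        linarith
      · -- `1`, `2` agree
        have e23 : cen τ₂ ≠ cen τ₃ := fun h => e13 (e12.trans h)
        have r13 := diff h₁ h₃ c₁ c₃ e13
        have r23 := diff h₂ h₃ c₂ c₃ e23
        have k1 := PlF_two hN h₁ h₂ h12 e12 c₁
        have k2 := PlF_two hN h₂ h₁ h12.symm e12.symm c₂
        have z1 : gn cen (S.rho P N) τ₁ τ₂ τ₃ = 0 := by
          unfold gn
          rw [if_neg]
          exact fun h => e23 h.1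
        have z2 : gn cen (S.rho P N) τ₂ τ₁ τ₃ = 0 := by
          unfold gn
          rw [if_neg]
          exact fun h => e13 h.1
        have z3 : gn cen (S.rho P N) τ₃ τ₁ τ₂ = S.rho P N τ₁ τ₂ := by
          unfold gn
          rw [if_pos]
          exact ⟨e12, fun h => e13 h.symm⟩
        rw [z1, z2, z3, svz1 e12.symm, svz1 e12]
        linarith
    · by_cases e13 : cen τ₁ = cen τ₃
      · -- `1`, `3` agree
        have e23 : cen τ₂ ≠ cen τ₃ := fun h => e12 (e13.trans h.symm)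
        have r12 := diff h₁ h₂ c₁ c₂ e12
        have r23 := diff h₂ h₃ c₂ c₃ e23
        have k1 := PlF_two hN h₁ h₃ h13 e13 c₁
        have k2 := PlF_two hN h₃ h₁ h13.symm e13.symm c₃
        have z1 : gn cen (S.rho P N) τ₁ τ₂ τ₃ = 0 := by
          unfold gn
          rw [if_neg]
          exact fun h => e23 h.1
        have z2 : gn cen (S.rho P N) τ₂ τ₁ τ₃ = S.rho P N τ₁ τ₃ := by
          unfold gn
          rw [if_pos]
          exact ⟨e13, fun h => e12 h.symm⟩
        have z3 : gn cen (S.rho P N) τ₃ τ₁ τ₂ = 0 := by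
          unfold gn
          rw [if_neg]
          exact fun h => e12 h.1
        rw [z1, z2, z3, svz2 e13.symm, svz1 e13]
        linarith
      · have r12 := diff h₁ h₂ c₁ c₂ e12
        have r13 := diff h₁ h₃ c₁ c₃ e13
        have z2 : gn cen (S.rho P N) τ₂ τ₁ τ₃ = 0 := by
          unfold gn
          rw [if_neg]
          exact fun h => e13 h.1
        have z3 : gn cen (S.rho P N) τ₃ τ₁ τ₂ = 0 := by
          unfold gn
          rw [if_neg]
          exact fun h => e12 h.1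
        by_cases e23 : cen τ₂ = cen τ₃
        · have k1 := PlF_two hN h₂ h₃ h23 e23 c₂
          have k2 := PlF_two hN h₃ h₂ h23.symm e23.symm c₃
          have z1 : gn cen (S.rho P N) τ₁ τ₂ τ₃ = S.rho P N τ₂ τ₃ := by
            unfold gn
            rw [if_pos]
            exact ⟨e23, e12⟩
          rw [z1, z2, z3, svz2 e23.symm, svz2 e23]
          linarith
        · have r23 := diff h₂ h₃ c₂ c₃ e23
          have z1 : gn cen (S.rho P N) τ₁ τ₂ τ₃ = 0 := by
            unfold gn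
            rw [if_neg]
            exact fun h => e23 h.1
          have hf := om_finS hN0 h₁ h₂ h₃ c₁ c₂ c₃ hW
          have t1 : sv cen (S.PlS_s P) τ₁ τ₂ τ₃ = S.PlS_s P τ₁ := by
            unfold sv
            rw [if_pos]
            exact ⟨fun h => e12 h.symm, fun h => e13 h.symm⟩
          have t2 : sv cen (S.PlS_s P) τ₂ τ₁ τ₃ = S.PlS_s P τ₂ := by
            unfold sv
            rw [if_pos]
            exact ⟨e12, fun h => e23 h.symm⟩
          have t3 : sv cen (S.PlS_s P) τ₃ τ₁ τ₂ = S.PlS_s P τ₃ := by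
            unfold sv
            rw [if_pos]
            exact ⟨e13, e23⟩
          rw [z1, z2, z3, t1, t2, t3, r12, r13, r23]
          linarith

theorem F1s {v : ℂ} {N : ℕ} (hN : S.Adm (some v) N) {f : ℕ}
    (hf : ∀ t, S.e (some v) t + f ≤ S.n) {t₀ : ℂ} (ht₀ : (S.al (some v)).IsRoot t₀)
    (hc₀ : S.IsCusp t₀) :
    (2 * ((S.n : ℚ) - 2) + f) * S.S2 (some v) N
      - 3 * ((S.n : ℚ) - 1) * ((S.n : ℚ) - 2) * S.Ram (some v)
      + 3 * (((S.n : ℚ) - S.e (some v) t₀) * ((S.n : ℚ) - S.e (some v) t₀ - 1)) ≤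
        S.S3 (some v) N := by
  classical
  have hn : (S.sh (some v) N).card = S.n := S.sh_card (some v) hN
  have key := F1s_abs (S.sh (some v) N) cen (S.rho (some v) N)
    (S.om (some v) N) (S.PlF_ep (some v)) (S.PlS_s (some v)) f
    (by
      intro p hp
      obtain ⟨a1, a2, a3, a4, a5, a6⟩ := PlF_mem_tri hp
      exact pw_finS hN a1 a2 a3 a4 a5 a6 (PlF_cen hN a1) (PlF_cen hN a2) (PlF_cen hN a3))
    (by
      intro p hp hne
      obtain ⟨a1, a2, a3⟩ := PlF_mem_prs hp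
      exact PlC_diff hN a1 a2 hne)
    (by
      intro p hp
      obtain ⟨a1, a2, a3⟩ := PlF_mem_prs hp
      exact rho_nonneg hN.1 a1 a2 (PlF_cen hN a1) (PlF_cen hN a2))
    (by
      intro i hi
      convert PlC_class hN hf i hi)
  rw [hn, PlF_sum hN] at key
  have he0 : 0 < S.e (some v) t₀ := (rootMultiplicity_pos (S.al_ne _)).2 ht₀
  have hcls : ((S.sh (some v) N).filter (fun τ => cen τ = some t₀)).card = S.e (some v) t₀ := by
    have h1 := S.card_cen (some v) hN t₀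
    convert h1
  have hco : ∀ i ∈ (S.sh (some v) N).filter (fun τ => cen τ = some t₀),
      S.PlS_s (some v) i * ((((S.sh (some v) N).filter (fun j => cen j ≠ cen i)).card : ℚ) *
        (((S.sh (some v) N).filter (fun j => cen j ≠ cen i)).card - 1)) =
      1 / (S.e (some v) t₀ : ℚ) * (((S.n : ℚ) - S.e (some v) t₀) *
        ((S.n : ℚ) - S.e (some v) t₀ - 1)) := by
    intro i hi
    obtain ⟨-, hi2⟩ := Finset.mem_filter.1 hi
    have h1 := Finset.card_filter_add_card_filter_not (s := S.sh (some v) N)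
      (fun j => cen j = cen i)
    rw [hi2, hcls, hn] at h1
    have h2 : (((S.sh (some v) N).filter (fun j => ¬ cen j = some t₀)).card : ℚ) =
        (S.n : ℚ) - S.e (some v) t₀ := by
      have h3 : (S.e (some v) t₀ : ℚ) +
          (((S.sh (some v) N).filter (fun j => ¬ cen j = some t₀)).card : ℚ) = (S.n : ℚ) := by
        exact_mod_cast h1
      linarith
    have h4 : S.PlS_s (some v) i = 1 / (S.e (some v) t₀ : ℚ) := by
      unfold PlS_s
      rw [hi2, if_pos]
      · rfl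
      · exact hc₀
    rw [h4, hi2]
    change 1 / (S.e (some v) t₀ : ℚ) *
      ((((S.sh (some v) N).filter (fun j => ¬ cen j = some t₀)).card : ℚ) *
        ((((S.sh (some v) N).filter (fun j => ¬ cen j = some t₀)).card : ℚ) - 1)) = _
    rw [h2]
  have hnn : ∀ i ∈ S.sh (some v) N, 0 ≤
      S.PlS_s (some v) i * ((((S.sh (some v) N).filter (fun j => cen j ≠ cen i)).card : ℚ) *
        (((S.sh (some v) N).filter (fun j => cen j ≠ cen i)).card - 1)) := by
    intro i _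
    refine mul_nonneg (S.PlS_s_nonneg _ i) ?_
    rcases Nat.eq_zero_or_pos ((S.sh (some v) N).filter (fun j => cen j ≠ cen i)).card with h0 | h0
    · rw [h0]
      norm_num
    · have h5 : (1 : ℚ) ≤ (((S.sh (some v) N).filter (fun j => cen j ≠ cen i)).card : ℚ) := by
        exact_mod_cast h0
      exact mul_nonneg (by linarith) (by linarith)
  have hsum := Finset.sum_le_sum_of_subset_of_nonneg
    (Finset.filter_subset (fun τ => cen τ = some t₀) (S.sh (some v) N)) (fun i hi _ => hnn i hi)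
  rw [Finset.sum_congr rfl hco, Finset.sum_const, hcls, nsmul_eq_mul] at hsum
  have h6 : (S.e (some v) t₀ : ℚ) * (1 / (S.e (some v) t₀ : ℚ) * (((S.n : ℚ) - S.e (some v) t₀) *
        ((S.n : ℚ) - S.e (some v) t₀ - 1))) = ((S.n : ℚ) - S.e (some v) t₀) *
        ((S.n : ℚ) - S.e (some v) t₀ - 1) := by
    have h7 : (S.e (some v) t₀ : ℚ) ≠ 0 := by exact_mod_cast he0.ne'
    field_simp
  rw [h6] at hsum
  change (2 * ((S.n : ℚ) - 2) + f) * sum2 (S.sh (some v) N) (S.rho (some v) N)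
      - 3 * ((S.n : ℚ) - 1) * ((S.n : ℚ) - 2) * S.Ram (some v) + _ ≤
    sum3 (S.sh (some v) N) (S.om (some v) N)
  linarith

end Cur

end WR
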