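import Pool.Agent.helper51.WR.GenE
import Pool.Agent.helper51.WR.PlS

/-!
# WR-GenS: the general inequality with the saving for a cusp

As `genE`; the cusp `t₂` is neither on the tangent line at the point at infinity nor on the line `x = v₁`; it saves
`3 (n - e) (n - e - 1)`.
-/

namespace WR

open Polynomial

namespace Cur

theorem genS (S : Cur) (v₁ : ℂ) {f u r : ℕ} (hu : S.b.roots.toFinset.card = u)
    (hr : (S.al (some v₁)).roots.toFinset.card = r)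
    (hfg : f + Nat.gcd (S.n - S.k) S.m ≤ S.n)
    (hf : ∀ v t : ℂ, S.e (some v) t + f ≤ S.n) (hf' : ∀ t : ℂ, S.e none t + f ≤ S.n)
    {v₂ t₂ : ℂ} (hv : v₂ ≠ v₁) (ht₂ : (S.al (some v₂)).IsRoot t₂) (hc₂ : S.IsCusp t₂) :
    (S.m : ℚ) * (f * ((S.n : ℚ) + S.k - 1) + S.k * (S.k - 1)) + f * (S.n * (S.n - 1))
      + 3 * (((S.n : ℚ) - S.e (some v₂) t₂) * ((S.n : ℚ) - S.e (some v₂) t₂ - 1)) ≤
      3 * ((S.n : ℚ) - 1) * (S.n - 2) * (u + r - 1) := by
  classical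
  have hN : ∀ P, S.Adm P (Nat.factorial S.n) := fun P => S.adm_factorial P
  obtain ⟨c₃, hc, V₀, hV⟩ := S.glob (fun _ => Nat.factorial S.n) hN
  obtain ⟨W, hW⟩ : ∃ W : Finset ℂ, W = (V₀.erase v₁).erase v₂ := ⟨_, rfl⟩
  have hW2 : v₂ ∉ W := by
    rw [hW]
    exact Finset.notMem_erase _ _
  have hW1 : v₁ ∉ insert v₂ W := by
    rw [Finset.mem_insert, hW, Finset.mem_erase, Finset.mem_erase]
    rintro (h | ⟨-, h, -⟩)
    · exact hv h.symm
    · exact h rfl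
  obtain ⟨g2, g3⟩ := hV (insert v₁ (insert v₂ W)) (by
    intro x hx
    by_cases hxv : x = v₁
    · rw [hxv]
      exact Finset.mem_insert_self _ _
    · by_cases hxv2 : x = v₂
      · rw [hxv2]
        exact Finset.mem_insert_of_mem (Finset.mem_insert_self _ _)
      · refine Finset.mem_insert_of_mem (Finset.mem_insert_of_mem ?_)
        rw [hW]
        exact Finset.mem_erase.2 ⟨hxv2, Finset.mem_erase.2 ⟨hxv, hx⟩⟩)
  rw [Finset.sum_insert hW1, Finset.sum_insert hW2] at g2 g3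
  have hkn := S.hkn
  have hk := S.hk
  have hI := I1e (hN none) hfg hf'
  rw [hc none] at hI
  have hF2 := F2c (hN (some v₁)) (hf v₁)
  rw [hc (some v₁)] at hF2
  have hFs := F1s (hN (some v₂)) (hf v₂) ht₂ hc₂
  have hF := Finset.sum_le_sum (s := W) fun v _ => F1c (hN (some v)) (hf v)
  rw [Finset.sum_sub_distrib, ← Finset.mul_sum, ← Finset.mul_sum] at hF
  have hR := S.ram_le (insert v₁ (insert v₂ W))
  rw [Finset.sum_insert hW1, Finset.sum_insert hW2] at hR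
  have hR1 := S.ram_card (some v₁)
  rw [hr, S.al_some_natDegree] at hR1
  have hR2 : S.Ram none + S.b.roots.toFinset.card = S.b.natDegree := S.ram_card none
  rw [hu, S.hb] at hR2
  have hR3 : S.Ram (some v₂) + ∑ v ∈ W, S.Ram (some v) + 1 ≤ u + r := by omega
  have hR' : (S.Ram (some v₂) : ℚ) + ∑ v ∈ W, (S.Ram (some v) : ℚ) + 1 ≤ u + r := by
    exact_mod_cast hR3
  have n2 : (2 : ℚ) ≤ S.n := by
    have : 2 ≤ S.n := by omega
    exact_mod_cast this
  obtain ⟨x, hx⟩ : ∃ x : ℚ, x = 3 * (((S.n : ℚ) - S.e (some v₂) t₂) *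
      ((S.n : ℚ) - S.e (some v₂) t₂ - 1)) := ⟨_, rfl⟩
  rw [← hx] at hFs ⊢
  set n : ℚ := (S.n : ℚ) with hn
  set k : ℚ := (S.k : ℚ) with hkk
  set m : ℚ := (S.m : ℚ) with hmm
  set A2 : ℚ := ∑ v ∈ W, S.S2 (some v) (Nat.factorial S.n)
  set B2 : ℚ := S.S2 none (Nat.factorial S.n)
  set C2 : ℚ := S.S2 (some v₁) (Nat.factorial S.n)
  set D2 : ℚ := S.S2 (some v₂) (Nat.factorial S.n)
  set A3 : ℚ := ∑ v ∈ W, S.S3 (some v) (Nat.factorial S.n)
  set B3 : ℚ := S.S3 none (Nat.factorial S.n)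
  set C3 : ℚ := S.S3 (some v₁) (Nat.factorial S.n)
  set D3 : ℚ := S.S3 (some v₂) (Nat.factorial S.n)
  set AR : ℚ := ∑ v ∈ W, (S.Ram (some v) : ℚ)
  set DR : ℚ := (S.Ram (some v₂) : ℚ)
  have hD : 0 ≤ 3 * (n - 1) * (n - 2) := by nlinarith
  have e1 : (2 * (n - 2) + f) * C2 + (2 * (n - 2) + f) * D2 + (2 * (n - 2) + f) * A2 +
      (2 * (n - 2) + f) * B2 = (2 * (n - 2) + f) * (n * (n - 1)) := by
    rw [← mul_add, ← mul_add, ← mul_add]
    congr 1
    linarith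
  have e2 : 3 * (n - 1) * (n - 2) * (DR + AR) ≤ 3 * (n - 1) * (n - 2) * (u + r - 1) :=
    mul_le_mul_of_nonneg_left (by linarith) hD
  rw [mul_add] at e2
  linarith

end Cur

end WR
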