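import Pool.Agent.helper51.WR.Ge

/-!
# WR-Hens: local solutions of `α(τ) = s^(e h) β(τ)`

`α = (X - t)^e A`, `A(t) ≠ 0`. Put `τ = t + s^h z`, `z` a power series: the equation becomes
`z^e A(t + s^h z) = β(t + s^h z)`, a polynomial equation `Q(z) = 0` over the power series ring whose
reduction `A(t) z^e - β(t)` has `e` different simple roots in `ℂ`. Hensel (power series rings over a field
are complete; or directly: recursion for the coefficients of `z`) gives `e` power series `z` with different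
constant terms.
-/

namespace WR

open Polynomial

/-- Newton's method for a simple root modulo `I`; the polynomial is not assumed to be monic (same proof as
for `IsAdicComplete.henselianRing` in Mathlib). -/
theorem Hens_newton {R : Type*} [CommRing R] (I : Ideal R) [IsAdicComplete I R] (f : R[X]) (a₀ : R)
    (h₁ : f.eval a₀ ∈ I) (h₂ : IsUnit (Ideal.Quotient.mk I (f.derivative.eval a₀))) :
    ∃ a : R, f.IsRoot a ∧ a - a₀ ∈ I := by
  classical
  let f' := derivative f
  let c : ℕ → R := fun n => Nat.recOn n a₀ fun _ b => b - f.eval b * Ring.inverse (f'.eval b)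
  have hc : ∀ n, c (n + 1) = c n - f.eval (c n) * Ring.inverse (f'.eval (c n)) := by
    intro n
    simp only [c]
  have hc_mod : ∀ n, c n ≡ a₀ [SMOD I] := by
    intro n
    induction n with
    | zero => rfl
    | succ n ih => ?_
    rw [hc, sub_eq_add_neg, ← add_zero a₀]
    refine ih.add ?_
    rw [SModEq.zero, Ideal.neg_mem_iff]
    refine I.mul_mem_right _ ?_
    rw [← SModEq.zero] at h₁ ⊢
    exact (ih.eval f).trans h₁
  have hf'c : ∀ n, IsUnit (f'.eval (c n)) := by
    intro n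
    have := isLocalHom_of_le_jacobson_bot I (IsAdicComplete.le_jacobson_bot I)
    apply IsUnit.of_map (Ideal.Quotient.mk I)
    convert! h₂ using 1
    exact SModEq.def.mp ((hc_mod n).eval _)
  have hfcI : ∀ n, f.eval (c n) ∈ I ^ (n + 1) := by
    intro n
    induction n with
    | zero => simpa only [Nat.rec_zero, zero_add, pow_one] using! h₁
    | succ n ih => ?_
    rw [← taylor_eval_sub (c n), hc, sub_eq_add_neg, sub_eq_add_neg,
      add_neg_cancel_comm]
    rw [eval_eq_sum, sum_over_range' _ _ _ (lt_add_of_pos_right _ zero_lt_two), ←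
      Finset.sum_range_add_sum_Ico _ (Nat.le_add_left _ _)]
    swap
    · intro i
      rw [zero_mul]
    refine Ideal.add_mem _ ?_ ?_
    · rw [← one_add_one_eq_two, Finset.sum_range_succ, Finset.range_one, Finset.sum_singleton,
        taylor_coeff_zero, taylor_coeff_one, pow_zero, pow_one, mul_one, mul_neg,
        mul_left_comm, Ring.mul_inverse_cancel _ (hf'c n), mul_one, add_neg_cancel]
      exact Ideal.zero_mem _
    · refine Submodule.sum_mem _ ?_
      simp only [Finset.mem_Ico]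
      rintro i ⟨h2i, _⟩
      have aux : n + 2 ≤ i * (n + 1) := by trans 2 * (n + 1) <;> nlinarith only [h2i]
      refine Ideal.mul_mem_left _ _ (Ideal.pow_le_pow_right aux ?_)
      rw [pow_mul']
      exact Ideal.pow_mem_pow ((Ideal.neg_mem_iff _).2 <| Ideal.mul_mem_right _ _ ih) _
  have aux : ∀ m n, m ≤ n → c m ≡ c n [SMOD (I ^ m • ⊤ : Ideal R)] := by
    intro m n hmn
    rw [← Ideal.one_eq_top, Ideal.smul_eq_mul, mul_one]
    obtain ⟨k, rfl⟩ := Nat.exists_eq_add_of_le hmn
    clear hmn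
    induction k with
    | zero => rw [add_zero]
    | succ k ih => ?_
    rw [← add_assoc, hc, ← add_zero (c m), sub_eq_add_neg]
    refine ih.add ?_
    symm
    rw [SModEq.zero, Ideal.neg_mem_iff]
    refine Ideal.mul_mem_right _ _ (Ideal.pow_le_pow_right ?_ (hfcI _))
    rw [add_assoc]
    exact le_self_add
  obtain ⟨a, ha⟩ := IsPrecomplete.prec' c (aux _ _)
  refine ⟨a, ?_, ?_⟩
  · suffices ∀ n, f.eval a ≡ 0 [SMOD (I ^ n • ⊤ : Ideal R)] by exact IsHausdorff.haus' _ this
    intro n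
    specialize ha n
    rw [← Ideal.one_eq_top, Ideal.smul_eq_mul, mul_one] at ha ⊢
    refine (ha.symm.eval f).trans ?_
    rw [SModEq.zero]
    exact Ideal.pow_le_pow_right le_self_add (hfcI _)
  · specialize ha (0 + 1)
    rw [hc, pow_one, ← Ideal.one_eq_top, Ideal.smul_eq_mul, mul_one, sub_eq_add_neg] at ha
    rw [← SModEq.sub_mem, ← add_zero a₀]
    refine ha.symm.trans (SModEq.rfl.add ?_)
    rw [SModEq.zero, Ideal.neg_mem_iff]
    exact Ideal.mul_mem_right _ _ h₁

/-- one solution, as a power series -/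
theorem Hens_root (A β : ℂ[X]) (t : ℂ) (e h : ℕ) (he : 0 < e) (hh : 0 < h) (hA : A.eval t ≠ 0)
    (hβ : β.eval t ≠ 0) (ζ : ℂ) (hζ : ζ ^ e * A.eval t = β.eval t) :
    ∃ z : PowerSeries ℂ, PowerSeries.constantCoeff z = ζ ∧
      z ^ e * aeval (algebraMap ℂ (PowerSeries ℂ) t + PowerSeries.X ^ h * z) A =
        aeval (algebraMap ℂ (PowerSeries ℂ) t + PowerSeries.X ^ h * z) β := by
  set am : ℂ →+* PowerSeries ℂ := algebraMap ℂ (PowerSeries ℂ) with ham
  set cc : PowerSeries ℂ →+* ℂ := PowerSeries.constantCoeff with hcc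
  have hccam : cc.comp am = RingHom.id ℂ := by
    ext x; simp [hcc, ham]
  set L : (PowerSeries ℂ)[X] := C (am t) + C (PowerSeries.X ^ h) * X with hL
  set Q : (PowerSeries ℂ)[X] := X ^ e * (A.map am).comp L - (β.map am).comp L with hQ
  have hLcc : L.map cc = C t := by
    have h1 : cc (am t) = t := by
      have := congrArg (fun f => f t) hccam
      simpa using this
    have h2 : cc (PowerSeries.X ^ h) = 0 := by
      rw [map_pow, hcc, PowerSeries.constantCoeff_X, zero_pow hh.ne']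
    rw [hL]
    simp only [Polynomial.map_add, Polynomial.map_mul, Polynomial.map_C, Polynomial.map_X, h1, h2,
      map_zero, zero_mul, add_zero]
  have hcomp : ∀ p : ℂ[X], ((p.map am).comp L).map cc = C (p.eval t) := by
    intro p
    rw [Polynomial.map_comp, hLcc, Polynomial.map_map, hccam, Polynomial.map_id, comp_C]
  have hQcc : Q.map cc = X ^ e * C (A.eval t) - C (β.eval t) := by
    rw [hQ, Polynomial.map_sub, Polynomial.map_mul, hcomp, hcomp, Polynomial.map_pow, Polynomial.map_X]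
  have hev : ∀ (p : (PowerSeries ℂ)[X]) (x : PowerSeries ℂ), cc (p.eval x) = (p.map cc).eval (cc x) := by
    intro p x
    rw [eval_map, eval₂_at_apply]
  have hζ0 : ζ ≠ 0 := by
    rintro rfl
    rw [zero_pow he.ne', zero_mul] at hζ
    exact hβ hζ.symm
  have hccζ : cc (am ζ) = ζ := by
    have := congrArg (fun f => f ζ) hccam
    simpa using this
  have hmem : ∀ x : PowerSeries ℂ, x ∈ Ideal.span {(PowerSeries.X : PowerSeries ℂ)} ↔ cc x = 0 := by
    intro x
    rw [Ideal.mem_span_singleton, PowerSeries.X_dvd_iff]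
  have h1 : Q.eval (am ζ) ∈ Ideal.span {(PowerSeries.X : PowerSeries ℂ)} := by
    rw [hmem, hev, hQcc, hccζ]
    simp only [eval_sub, eval_mul, eval_pow, eval_X, eval_C]
    rw [hζ, sub_self]
  have h2 : IsUnit (Ideal.Quotient.mk (Ideal.span {(PowerSeries.X : PowerSeries ℂ)})
      (Q.derivative.eval (am ζ))) := by
    apply IsUnit.map
    rw [PowerSeries.isUnit_iff_constantCoeff]
    change IsUnit (cc _)
    rw [hev, ← derivative_map, hQcc, hccζ, isUnit_iff_ne_zero]
    simp only [derivative_sub, derivative_mul, derivative_X_pow, derivative_C, mul_zero, add_zero, sub_zero,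
      eval_mul, eval_C, eval_pow, eval_X]
    have : (e : ℂ) ≠ 0 := by exact_mod_cast he.ne'
    simp [hA, hζ0, this]
  obtain ⟨z, hz, hz0⟩ := Hens_newton _ Q (am ζ) h1 h2
  refine ⟨z, ?_, ?_⟩
  · rw [hmem, map_sub, hccζ] at hz0
    exact sub_eq_zero.1 hz0
  · have h3 : Q.eval z = 0 := hz
    have h4 : L.eval z = am t + PowerSeries.X ^ h * z := by
      rw [hL]; simp
    rw [hQ, eval_sub, eval_mul, eval_comp, eval_comp, h4, eval_pow, eval_X, eval_map, eval_map] at h3
    exact sub_eq_zero.1 h3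

/-- `e` solutions with centre `t`; their coefficients at `s^h` are different from zero. -/
theorem hens (α β : ℂ[X]) (t : ℂ) (h : ℕ) (hh : 0 < h) (hα : α ≠ 0) (hr : α.IsRoot t)
    (hβ : β.eval t ≠ 0) :
    ∃ Z : Finset M, Z.card = rootMultiplicity t α ∧ ∀ τ ∈ Z,
      aeval τ α = sp ((rootMultiplicity t α * h : ℕ) : ℤ) * aeval τ β ∧
      Ge (τ - algebraMap ℂ M t) h ∧ τ.coeff h ≠ 0 ∧ Ge τ 0 ∧ τ.coeff 0 = t := by
  classical
  obtain ⟨A, hA, hdvd⟩ := exists_eq_pow_rootMultiplicity_mul_and_not_dvd α hα t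
  set e := rootMultiplicity t α with he
  have he0 : 0 < e := (rootMultiplicity_pos hα).2 hr
  have hAt : A.eval t ≠ 0 := fun h0 => hdvd (dvd_iff_isRoot.2 h0)
  set w : ℂ := β.eval t / A.eval t with hw
  have hw0 : w ≠ 0 := div_ne_zero hβ hAt
  have hprim := Complex.isPrimitiveRoot_exp e he0.ne'
  set Zr : Finset ℂ := (nthRoots e w).toFinset with hZr
  have hcard : Zr.card = e := by
    rw [hZr, Multiset.toFinset_card_of_nodup (hprim.nthRoots_nodup hw0), hprim.card_nthRoots, if_pos]
    exact IsAlgClosed.exists_pow_nat_eq w he0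
  have hroot : ∀ ζ ∈ Zr, ζ ^ e * A.eval t = β.eval t ∧ ζ ≠ 0 := by
    intro ζ hζ
    rw [hZr, Multiset.mem_toFinset, mem_nthRoots he0] at hζ
    refine ⟨by rw [hζ, hw, div_mul_cancel₀ _ hAt], ?_⟩
    rintro rfl
    rw [zero_pow he0.ne'] at hζ
    exact hw0 hζ.symm
  have hex : ∀ ζ : ℂ, ∃ z : PowerSeries ℂ, ζ ∈ Zr → PowerSeries.constantCoeff z = ζ ∧
      z ^ e * aeval (algebraMap ℂ (PowerSeries ℂ) t + PowerSeries.X ^ h * z) A =
        aeval (algebraMap ℂ (PowerSeries ℂ) t + PowerSeries.X ^ h * z) β := by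
    intro ζ
    by_cases hζ : ζ ∈ Zr
    · obtain ⟨z, hz⟩ := Hens_root A β t e h he0 hh hAt hβ ζ (hroot ζ hζ).1
      exact ⟨z, fun _ => hz⟩
    · exact ⟨0, fun h => absurd h hζ⟩
  choose z hz using hex
  set φ : PowerSeries ℂ →+* M := HahnSeries.ofPowerSeries ℤ ℂ with hφ
  have hφC : ∀ c : ℂ, φ (algebraMap ℂ (PowerSeries ℂ) c) = algebraMap ℂ M c := by
    intro c
    ext l
    rw [coeff_algebraMap, hφ]
    change ((algebraMap ℂ (PowerSeries ℂ) c : PowerSeries ℂ) : LaurentSeries ℂ).coeff l = _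
    rw [PowerSeries.coeff_coe]
    by_cases hl : l = 0
    · subst hl; simp
    · rw [if_neg hl]
      split_ifs with h0
      · rfl
      · have : PowerSeries.coeff l.natAbs (algebraMap ℂ (PowerSeries ℂ) c) = 0 := by
          rw [PowerSeries.algebraMap_apply, PowerSeries.coeff_C, if_neg (by omega)]
        exact this
  have hφX : φ (PowerSeries.X ^ h) = sp (h : ℤ) := by
    rw [hφ, HahnSeries.ofPowerSeries_X_pow]; rfl
  have hφae : ∀ (p : ℂ[X]) (x : PowerSeries ℂ), φ (aeval x p) = aeval (φ x) p := by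
    intro p x
    rw [aeval_def, aeval_def, hom_eval₂]
    congr 1
  set τ : ℂ → M := fun ζ => φ (algebraMap ℂ (PowerSeries ℂ) t + PowerSeries.X ^ h * z ζ) with hτ
  have hτ1 : ∀ ζ, τ ζ = algebraMap ℂ M t + sp (h : ℤ) * φ (z ζ) := by
    intro ζ
    rw [hτ]
    simp only [map_add, map_mul, hφC, hφX]
  have hφcoeff : ∀ (x : PowerSeries ℂ) (l : ℤ), (φ x).coeff l = if l < 0 then 0 else PowerSeries.coeff l.natAbs x := by
    intro x l
    exact PowerSeries.coeff_coe x l
  have hcoeff : ∀ ζ l, (τ ζ - algebraMap ℂ M t).coeff l =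
      if l < h then 0 else PowerSeries.coeff (l - h).natAbs (z ζ) := by
    intro ζ l
    rw [hτ1, add_sub_cancel_left, coeff_sp_mul, hφcoeff]
    by_cases hl : l < h
    · rw [if_pos hl, if_pos (by omega)]
    · rw [if_neg hl, if_neg (by omega)]
  have hch : ∀ ζ ∈ Zr, (τ ζ).coeff h = ζ := by
    intro ζ hζ
    have h1 := hcoeff ζ h
    rw [HahnSeries.coeff_sub, coeff_algebraMap, if_neg (by omega), sub_zero, if_neg (lt_irrefl _), sub_self,
      Int.natAbs_zero, PowerSeries.coeff_zero_eq_constantCoeff_apply, (hz ζ hζ).1] at h1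
    exact h1
  refine ⟨Zr.image τ, ?_, ?_⟩
  · rw [Finset.card_image_of_injOn, hcard]
    intro ζ hζ ζ' hζ' heq
    rw [← hch ζ hζ, ← hch ζ' hζ']
    exact congrArg (fun f : M => f.coeff h) heq
  · intro τ' hτ'
    obtain ⟨ζ, hζ, rfl⟩ := Finset.mem_image.1 hτ'
    have hge : Ge (τ ζ - algebraMap ℂ M t) h := fun l hl => by rw [hcoeff, if_pos hl]
    have hge0 : Ge (τ ζ) 0 := by
      have := ge_add (ge_mono hge (Int.natCast_nonneg h)) (ge_algebraMap t)
      rwa [sub_add_cancel] at this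
    refine ⟨?_, hge, ?_, hge0, ?_⟩
    · have h1 := congrArg φ (hz ζ hζ).2
      rw [map_mul, map_pow, hφae, hφae] at h1
      change φ (z ζ) ^ e * aeval (τ ζ) A = aeval (τ ζ) β at h1
      have h2 : aeval (τ ζ) α = (τ ζ - algebraMap ℂ M t) ^ e * aeval (τ ζ) A := by
        conv_lhs => rw [hA]
        rw [map_mul, map_pow, map_sub, aeval_X, aeval_C]
      rw [h2, ← h1, hτ1, add_sub_cancel_left, mul_pow, sp_pow]
      push_cast
      ring
    · rw [hch ζ hζ]
      exact (hroot ζ hζ).2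
    · have h1 := hcoeff ζ 0
      rw [HahnSeries.coeff_sub, coeff_algebraMap, if_pos rfl, if_pos (by exact_mod_cast hh)] at h1
      exact sub_eq_zero.1 h1

/-- `e = deg β - deg α` solutions with centre infinity. Apply `hens` to the reversed polynomials
`X^n α(1/X) = X^e α.reverse` and `β.reverse` at `t = 0` and invert. -/
theorem hens_inf (α β : ℂ[X]) (h : ℕ) (hh : 0 < h) (hα : α ≠ 0)
    (hd : α.natDegree < β.natDegree) :
    ∃ Z : Finset M, Z.card = β.natDegree - α.natDegree ∧ ∀ τ ∈ Z,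
      aeval τ α = sp (((β.natDegree - α.natDegree) * h : ℕ) : ℤ) * aeval τ β ∧
      τ ≠ 0 ∧ τ.order = -(h : ℤ) := by
  classical
  have hβ : β ≠ 0 := by
    rintro rfl
    simp at hd
  set e := β.natDegree - α.natDegree with he
  have he0 : 0 < e := by omega
  have hrev0 : ∀ p : ℂ[X], p ≠ 0 → p.reverse.eval 0 ≠ 0 := by
    intro p hp
    rw [← coeff_zero_eq_eval_zero, coeff_zero_reverse]
    exact leadingCoeff_ne_zero.2 hp
  have hα' : (X ^ e * α.reverse : ℂ[X]) ≠ 0 :=
    mul_ne_zero (pow_ne_zero _ X_ne_zero) (by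
      intro h0
      have := hrev0 α hα
      rw [h0] at this
      simp at this)
  have hmult : rootMultiplicity 0 (X ^ e * α.reverse : ℂ[X]) = e := by
    rw [rootMultiplicity_mul hα', rootMultiplicity_eq_zero (p := α.reverse) (hrev0 α hα), add_zero]
    have := rootMultiplicity_X_sub_C_pow (0 : ℂ) e
    rwa [C_0, sub_zero] at this
  have hroot : (X ^ e * α.reverse : ℂ[X]).IsRoot 0 := by
    rw [IsRoot.def, eval_mul, eval_pow, eval_X, zero_pow he0.ne', zero_mul]
  obtain ⟨Z, hZ, hZ2⟩ := hens (X ^ e * α.reverse) β.reverse 0 h hh hα' hroot (hrev0 β hβ)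
  rw [hmult] at hZ hZ2
  refine ⟨Z.image (fun σ => σ⁻¹), ?_, ?_⟩
  · rw [Finset.card_image_of_injective _ inv_injective, hZ]
  · intro τ hτ
    obtain ⟨σ, hσ, rfl⟩ := Finset.mem_image.1 hτ
    obtain ⟨h1, h2, h3, -, -⟩ := hZ2 σ hσ
    rw [map_zero, sub_zero] at h2
    obtain ⟨hσ0, hord⟩ := ord_eq h2 h3
    have hrev : ∀ p : ℂ[X], aeval σ p.reverse * σ⁻¹ ^ p.natDegree = aeval σ⁻¹ p := by
      intro p
      let _ : Invertible σ⁻¹ := invertibleOfNonzero (inv_ne_zero hσ0)
      have := eval₂_reverse_mul_pow (algebraMap ℂ M) σ⁻¹ p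
      rw [invOf_eq_inv, inv_inv] at this
      exact this
    refine ⟨?_, inv_ne_zero hσ0, ?_⟩
    · rw [← hrev α, ← hrev β]
      rw [map_mul, map_pow, aeval_X] at h1
      have h4 : β.natDegree = e + α.natDegree := by omega
      have h5 : σ ^ e * σ⁻¹ ^ e = 1 := by rw [← mul_pow, mul_inv_cancel₀ hσ0, one_pow]
      calc aeval σ α.reverse * σ⁻¹ ^ α.natDegree
          = (σ ^ e * σ⁻¹ ^ e) * (aeval σ α.reverse * σ⁻¹ ^ α.natDegree) := by rw [h5, one_mul]
        _ = (σ ^ e * aeval σ α.reverse) * (σ⁻¹ ^ e * σ⁻¹ ^ α.natDegree) := by ring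
        _ = _ := by rw [h1, ← pow_add, ← h4]; ring
    · have h6 := ord_div one_ne_zero hσ0
      rw [one_div, HahnSeries.order_one, hord, zero_sub] at h6
      exact h6

end WR
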