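import Pool.Agent.helper51.WR.GenS
import Pool.Agent.helper51.WR.FineB
import Pool.Agent.helper51.WR.Gen

/-!
# WR-LinS: the tangent line meets the curve in one more point

Let `b` have only the root `tu` and let there be two cusps different from `tu`. If
`m ≥ 2 n + k + 3` and `(n - g)(m + n - 1) ≥ 3 (n-1)(n-2)`, `g = gcd (n - k, m)`, then `k = 1` and there is a totally
ramified point. Let `E` be the largest `e` at finite places, `E < n`. For `E ≥ g, k`: `genS` with `f = n - E` if one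
of the cusps is not on the line with `E`, `genE` otherwise; for `g ≥ E, k`: `genE` with `f = n - g`; for `k > E, g`:
`genE` with `f = n - k`. For `E = n`: `kOne`.
-/

namespace WR

open Polynomial

namespace Cur

theorem LinS_A {n k m f e r : ℚ} (hn : 3 ≤ n) (hk : 1 ≤ k) (hf : 1 ≤ f) (hm : 2 * n + k + 3 ≤ m)
    (he1 : e ≤ f + 2) (he2 : e ≤ n - f) (hr : r ≤ f + 1)
    (h : m * (f * (n + k - 1) + k * (k - 1)) + f * (n * (n - 1)) + 3 * ((n - e) * (n - e - 1)) ≤
      3 * (n - 1) * (n - 2) * r) : False := by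
  have h1 : 0 ≤ (f + 2 - e) * (2 * n - 2 * f - 5 + (f + 2 - e)) :=
    mul_nonneg (by linarith) (by linarith)
  have h2 : 0 ≤ (f - 1) * (2 * n + f - 4) := mul_nonneg (by linarith) (by linarith)
  have h3 : 0 ≤ (n - 1) * (n - 2) := mul_nonneg (by linarith) (by linarith)
  have h4 : (n - 1) * (n - 2) * r ≤ (n - 1) * (n - 2) * (f + 1) := mul_le_mul_of_nonneg_left hr h3
  have h5 : 0 ≤ m * (f * (k - 1)) :=
    mul_nonneg (by linarith) (mul_nonneg (by linarith) (by linarith))
  have h6 : 0 ≤ m * (k * (k - 1)) :=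
    mul_nonneg (by linarith) (mul_nonneg (by linarith) (by linarith))
  have h7 : f * (m * n + n * (n - 1)) ≤ f * (3 * (n - 1) * (n - 2) + 6 * (2 * n - 5)) := by
    nlinarith
  have h8 := le_of_mul_le_mul_left h7 (by linarith)
  have h9 : 0 ≤ (m - (2 * n + 4)) * n := mul_nonneg (by linarith) (by linarith)
  nlinarith

theorem LinS_B {n k m f r : ℚ} (hn : 3 ≤ n) (hk : 1 ≤ k) (hf : 1 ≤ f) (hm : 2 * n + k + 3 ≤ m)
    (hr : r ≤ f)
    (h : m * (f * (n + k - 1) + k * (k - 1)) + f * (n * (n - 1)) ≤ 3 * (n - 1) * (n - 2) * r) :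
    False := by
  have h3 : 0 ≤ (n - 1) * (n - 2) := mul_nonneg (by linarith) (by linarith)
  have h4 : (n - 1) * (n - 2) * r ≤ (n - 1) * (n - 2) * f := mul_le_mul_of_nonneg_left hr h3
  have h5 : 0 ≤ m * (f * (k - 1)) :=
    mul_nonneg (by linarith) (mul_nonneg (by linarith) (by linarith))
  have h6 : 0 ≤ m * (k * (k - 1)) :=
    mul_nonneg (by linarith) (mul_nonneg (by linarith) (by linarith))
  have h7 : f * (m * n + n * (n - 1)) ≤ f * (3 * (n - 1) * (n - 2)) := by nlinarith
  have h8 := le_of_mul_le_mul_left h7 (by linarith)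
  have h9 : 0 ≤ (m - (2 * n + 4)) * n := mul_nonneg (by linarith) (by linarith)
  nlinarith

theorem LinS_G {n k m f r : ℚ} (hn : 3 ≤ n) (hk : 1 ≤ k) (hf : 1 ≤ f) (hm : 0 ≤ m)
    (hr : r ≤ n - 1) (hg : 3 * (n - 1) * (n - 2) ≤ f * (m + n - 1))
    (h : m * (f * (n + k - 1) + k * (k - 1)) + f * (n * (n - 1)) ≤ 3 * (n - 1) * (n - 2) * r) :
    False := by
  have h3 : 0 < (n - 1) * (n - 2) := mul_pos (by linarith) (by linarith)
  have h4 : (n - 1) * (n - 2) * r ≤ (n - 1) * (n - 2) * (n - 1) := mul_le_mul_of_nonneg_left hr h3.le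
  have h5 : 0 ≤ m * (f * (k - 1)) := mul_nonneg hm (mul_nonneg (by linarith) (by linarith))
  have h6 : 0 ≤ m * (k * (k - 1)) := mul_nonneg hm (mul_nonneg (by linarith) (by linarith))
  have h7 : n * (3 * (n - 1) * (n - 2)) ≤ n * (f * (m + n - 1)) :=
    mul_le_mul_of_nonneg_left hg (by linarith)
  nlinarith

theorem LinS_K {n k m r : ℚ} (hn : 3 ≤ n) (hm : 2 * n + k + 3 ≤ m)
    (hr : r ≤ n - 1)
    (h : m * ((n - k) * (n + k - 1) + k * (k - 1)) + (n - k) * (n * (n - 1)) ≤
      3 * (n - 1) * (n - 2) * r) :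
    False := by
  have h3 : 0 < (n - 1) * (n - 2) := mul_pos (by linarith) (by linarith)
  have h4 : (n - 1) * (n - 2) * r ≤ (n - 1) * (n - 2) * (n - 1) := mul_le_mul_of_nonneg_left hr h3.le
  have h5 : (n - 1) * (n * (m + n - k)) ≤ (n - 1) * (3 * (n - 2) * (n - 1)) := by nlinarith
  have h6 := le_of_mul_le_mul_left h5 (by linarith)
  have h7 : 0 ≤ (m - (2 * n + k + 3)) * n := mul_nonneg (by linarith) (by linarith)
  nlinarith

theorem LinS_max (S : Cur) : ∃ v₁ t₁ : ℂ, ∀ v t : ℂ, S.e (some v) t ≤ S.e (some v₁) t₁ := by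
  classical
  obtain ⟨P, hP⟩ : ∃ P : ℕ → Prop, P = fun N => ∃ v t : ℂ, S.e (some v) t = N := ⟨_, rfl⟩
  have h1 : P (Nat.findGreatest P S.n) := by
    refine Nat.findGreatest_spec (m := S.e (some 0) 0) (S.Gen_e_le 0 0) ?_
    rw [hP]
    exact ⟨0, 0, rfl⟩
  have h2 : ∃ v t : ℂ, S.e (some v) t = Nat.findGreatest P S.n := by
    have := h1
    rw [hP] at this ⊢
    exact this
  obtain ⟨v₁, t₁, h3⟩ := h2
  refine ⟨v₁, t₁, fun v t => ?_⟩
  rw [h3]
  refine Nat.le_findGreatest (S.Gen_e_le v t) ?_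
  rw [hP]
  exact ⟨v, t, rfl⟩

theorem LinS_over (S : Cur) {t : ℂ} (hb : S.b.eval t ≠ 0) : ∃ v, (S.al (some v)).IsRoot t := by
  refine ⟨S.a.eval t / S.b.eval t, ?_⟩
  change (S.a - C (S.a.eval t / S.b.eval t) * S.b).eval t = 0
  rw [eval_sub, eval_mul, eval_C, div_mul_cancel₀ _ hb, sub_self]

theorem LinS_none (S : Cur) (t : ℂ) : S.e none t ≤ S.k := by
  classical
  have h1 : S.e none t = S.b.roots.count t := by
    rw [count_roots]
    rfl
  rw [h1, ← S.hb]
  exact (Multiset.count_le_card _ _).trans (card_roots' _)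

theorem linS (S : Cur) {tu : ℂ} (hu : ∀ t, S.b.IsRoot t → t = tu)
    (hm : 2 * S.n + S.k + 3 ≤ S.m)
    (hg : 3 * ((S.n : ℤ) - 1) * (S.n - 2) ≤
      ((S.n : ℤ) - Nat.gcd (S.n - S.k) S.m) * (S.m + S.n - 1))
    (h2 : ∃ t t' : ℂ, t ≠ t' ∧ S.IsCusp t ∧ S.IsCusp t' ∧ t ≠ tu ∧ t' ≠ tu) :
    S.k = 1 ∧ ∃ v t : ℂ, S.e (some v) t = S.n := by
  classical
  obtain ⟨v₁, t₁, hmax⟩ := S.LinS_max
  obtain ⟨q, q', hqq, hq, hq', hqu, hqu'⟩ := h2
  have hkn := S.hkn
  have hk1 := S.hk
  by_cases hEn : S.e (some v₁) t₁ = S.n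
  · refine ⟨?_, v₁, t₁, hEn⟩
    by_cases h1 : q = t₁
    · exact S.kOne hEn hu hq' (fun h => hqq (h1.trans h.symm)) hqu'
    · exact S.kOne hEn hu hq h1 hqu
  · exfalso
    obtain ⟨E, hE⟩ : ∃ E, E = S.e (some v₁) t₁ := ⟨_, rfl⟩
    have hbq : S.b.eval q ≠ 0 := fun h => hqu (hu q h)
    have hbq' : S.b.eval q' ≠ 0 := fun h => hqu' (hu q' h)
    obtain ⟨w, hw⟩ := S.LinS_over hbq
    obtain ⟨w', hw'⟩ := S.LinS_over hbq'
    have hwe := cusp_e hw hq
    have hwe' := cusp_e hw' hq'
    have hmw := hmax w q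
    have hmw' := hmax w' q'
    have hEle := S.Gen_e_le v₁ t₁
    rw [← hE] at hmw hmw' hEle hEn hmax
    have hE2 : 2 ≤ E := le_trans hwe hmw
    have hroot : (S.al (some v₁)).IsRoot t₁ := (e_pos_iff (some v₁) t₁).1 (by omega)
    obtain ⟨r, hr⟩ : ∃ r, (S.al (some v₁)).roots.toFinset.card = r := ⟨_, rfl⟩
    obtain ⟨u, hu'⟩ : ∃ u, S.b.roots.toFinset.card = u := ⟨_, rfl⟩
    have hu1 : u ≤ 1 := by
      rw [← hu', Finset.card_le_one]
      intro x hx y hy
      have hx' := hu x (isRoot_of_mem_roots (Multiset.mem_toFinset.1 hx))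
      have hy' := hu y (isRoot_of_mem_roots (Multiset.mem_toFinset.1 hy))
      rw [hx', hy']
    have hR1 := S.ram_card (some v₁)
    rw [hr, S.al_some_natDegree] at hR1
    have hRE := ram_ge hroot
    rw [← hE] at hRE
    obtain ⟨g, hgd⟩ : ∃ g, g = Nat.gcd (S.n - S.k) S.m := ⟨_, rfl⟩
    have hgle : g ≤ S.n - S.k := by
      rw [hgd]
      exact Nat.gcd_le_left _ (by omega)
    rw [← hgd] at hg
    have hn3 : 3 ≤ S.n := by omega
    have hn3q : (3 : ℚ) ≤ S.n := by exact_mod_cast hn3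
    have hk1q : (1 : ℚ) ≤ S.k := by exact_mod_cast hk1
    have hmq : 2 * (S.n : ℚ) + S.k + 3 ≤ S.m := by exact_mod_cast hm
    have hu1q : (u : ℚ) ≤ 1 := by exact_mod_cast hu1
    have hD : 0 ≤ 3 * ((S.n : ℚ) - 1) * (S.n - 2) :=
      mul_nonneg (mul_nonneg (by norm_num) (by linarith)) (by linarith)
    have hur : 3 * ((S.n : ℚ) - 1) * (S.n - 2) * (u + r - 1) ≤
        3 * ((S.n : ℚ) - 1) * (S.n - 2) * r := mul_le_mul_of_nonneg_left (by linarith) hD
    by_cases h1 : g ≤ E ∧ S.k ≤ E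
    · -- `f = n - E`
      obtain ⟨f, hf⟩ : ∃ f, f + E = S.n := ⟨S.n - E, by omega⟩
      have hf1 : 1 ≤ f := by omega
      have hf1q : (1 : ℚ) ≤ f := by exact_mod_cast hf1
      have a1 : f + Nat.gcd (S.n - S.k) S.m ≤ S.n := by
        rw [← hgd]
        omega
      have a2 : ∀ v t : ℂ, S.e (some v) t + f ≤ S.n := by
        intro v t
        have := hmax v t
        omega
      have a3 : ∀ t : ℂ, S.e none t + f ≤ S.n := by
        intro t
        have := S.LinS_none t
        omega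
      -- a cusp off the line `v₁`
      have hoff : ∀ {v s : ℂ}, v ≠ v₁ → (S.al (some v)).IsRoot s → S.IsCusp s → False := by
        intro v s hv hs hcs
        have b1 := S.genS v₁ hu' hr a1 a2 a3 hv hs hcs
        have b2 := S.ram_le {v₁, v}
        rw [Finset.sum_pair (Ne.symm hv)] at b2
        have b3 : S.Ram none + S.b.roots.toFinset.card = S.b.natDegree := S.ram_card none
        rw [hu', S.hb] at b3
        have b4 := ram_ge hs
        have b5 := hmax v s
        have b6 := cusp_e hs hcs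
        obtain ⟨e, he⟩ : ∃ e, e = S.e (some v) s := ⟨_, rfl⟩
        rw [← he] at b1 b4 b5 b6
        have c1 : e ≤ f + 2 := by omega
        have c2 : e + f ≤ S.n := by omega
        have c3 : r ≤ f + 1 := by omega
        have c1q : (e : ℚ) ≤ f + 2 := by exact_mod_cast c1
        have c2q : (e : ℚ) + f ≤ S.n := by exact_mod_cast c2
        have c3q : (r : ℚ) ≤ f + 1 := by exact_mod_cast c3
        exact LinS_A hn3q hk1q hf1q hmq c1q (by linarith) c3q (b1.trans hur)
      by_cases h3 : w = v₁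
      · by_cases h4 : w' = v₁
        · have b1 := S.genE v₁ hu' hr a1 a2 a3
          rw [h3] at hw
          rw [h4] at hw'
          have b2 : E ≤ S.Ram (some v₁) := by
            by_cases h5 : q = t₁
            · have h6 : q' ≠ t₁ := fun h => hqq (h5.trans h.symm)
              have h7 := ram_ge2 hroot hw' h6.symm
              rw [← hE] at h7
              rw [h4] at hwe'
              omega
            · have h7 := ram_ge2 hroot hw (Ne.symm h5)
              rw [← hE] at h7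
              rw [h3] at hwe
              omega
          have c3 : r ≤ f := by omega
          have c3q : (r : ℚ) ≤ f := by exact_mod_cast c3
          exact LinS_B hn3q hk1q hf1q hmq c3q (b1.trans hur)
        · exact hoff h4 hw' hq'
      · exact hoff h3 hw hq
    · have hr1 : r ≤ S.n - 1 := by omega
      have hr1q : (r : ℚ) ≤ (S.n : ℚ) - 1 := by
        have : (r : ℚ) + 1 ≤ S.n := by
          have h5 : r + 1 ≤ S.n := by omega
          exact_mod_cast h5
        linarith
      by_cases h6 : S.k ≤ g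
      · -- `f = n - g`
        obtain ⟨f, hf⟩ : ∃ f, f + g = S.n := ⟨S.n - g, by omega⟩
        have hf1 : 1 ≤ f := by omega
        have hf1q : (1 : ℚ) ≤ f := by exact_mod_cast hf1
        have b1 := S.genE v₁ (f := f) hu' hr (by rw [← hgd]; omega) (by
          intro v t
          have := hmax v t
          omega) (by
          intro t
          have := S.LinS_none t
          omega)
        have hfz : (S.n : ℤ) - g = f := by omega
        rw [hfz] at hg
        have hgq : 3 * ((S.n : ℚ) - 1) * (S.n - 2) ≤ (f : ℚ) * (S.m + S.n - 1) := by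
          exact_mod_cast hg
        exact LinS_G hn3q hk1q hf1q (Nat.cast_nonneg _) hr1q hgq (b1.trans hur)
      · -- `f = n - k`
        obtain ⟨f, hf⟩ : ∃ f, f + S.k = S.n := ⟨S.n - S.k, by omega⟩
        have b1 := S.genE v₁ (f := f) hu' hr (by rw [← hgd]; omega) (by
          intro v t
          have := hmax v t
          omega) (by
          intro t
          have := S.LinS_none t
          omega)
        have hfq : (f : ℚ) = (S.n : ℚ) - S.k := by
          have : (f : ℚ) + S.k = S.n := by exact_mod_cast hf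
          linarith
        rw [hfq] at b1
        exact LinS_K hn3q hmq hr1q (b1.trans hur)

end Cur

end WR
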