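import Pool.Agent.helper51.WR.LinS

/-!
# WR-LinU: any number of points on the tangent line

Let `b` have exactly `u` roots and let there be two cusps which are not roots of `b`. If `m ≥ 2 n + k + 3`,
`m (n + k^2 - 1) ≥ (3 u - 1) n^2 + 4 n` and `(n - g)(m + n - 1) ≥ 3 (n-1)(n-2)`, `g = gcd (n - k, m)`, or
`g ≤ e_t` for some `t`, and if `u = 1` or no fibre has only one point or `m k (k - 1) ≥ 3 (u - 1) n^2 + 3 n`,
then `k = 1` and there is a totally ramified point. Let `E` be the largest `e` at the places `v : ℂ`, `K = k - u + 1` (a bound for `e` at `none`). For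
`E < n`: if `E ≥ g, K`: `genS` with `f = n - E` if one of the cusps is not on the line with `E`, `genE` otherwise; if
`g ≥ E, K`: `genE` with `f = n - g`; if `K > E, g`: `genE` with `f = n - K`. For `E = n`: `kOne` or `genS` with
`f = 0`.
-/

namespace WR

open Polynomial

namespace Cur

theorem LinU_A {n k m f e r u : ℚ} (hn : 3 ≤ n) (hkn : k + 1 ≤ n) (hu1 : 1 ≤ u) (huk : u ≤ k)
    (hf : 1 ≤ f) (hm : 2 * n + k + 3 ≤ m)
    (hmu : (3 * u - 1) * n ^ 2 + 4 * n ≤ m * (n + k ^ 2 - 1))
    (he0 : 2 ≤ e) (he1 : e ≤ f + u + 1) (he2 : e ≤ n - f) (hr : r ≤ f + 1)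
    (h : m * (f * (n + k - 1) + k * (k - 1)) + f * (n * (n - 1)) + 3 * ((n - e) * (n - e - 1)) ≤
      3 * (n - 1) * (n - 2) * (u + r - 1)) : False := by
  have h1 : 0 ≤ (f - 1) * ((m - (2 * n + k + 3)) * (n + k - 1)) :=
    mul_nonneg (by linarith) (mul_nonneg (by linarith) (by linarith))
  have h2 : 0 ≤ (f + u + 1 - e) * ((n - e - f) + (n - u - 1)) :=
    mul_nonneg (by linarith) (by linarith)
  have h3 : 0 ≤ (n - 1) * (n - 2) := mul_nonneg (by linarith) (by linarith)
  have h4 : (n - 1) * (n - 2) * (u + r - 1) ≤ (n - 1) * (n - 2) * (u + f) :=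
    mul_le_mul_of_nonneg_left (by linarith) h3
  have h5 : m * (f * (n + k - 1) + k * (k - 1)) =
      m * (n + k ^ 2 - 1) + (f - 1) * ((m - (2 * n + k + 3)) * (n + k - 1)) +
      (f - 1) * ((2 * n + k + 3) * (n + k - 1)) := by ring
  have h6 : (n - e) * (n - e - 1) = (n - f - u - 1) * (n - f - u - 2) +
      (f + u + 1 - e) * ((n - e - f) + (n - u - 1)) - (f + u + 1 - e) := by ring
  have h7 : 0 ≤ (f - 1) * ((k + 3) * (k - 1)) :=
    mul_nonneg (by linarith) (mul_nonneg (by linarith) (by linarith))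
  have h8 : 0 ≤ (f - 1) * (k * n) :=
    mul_nonneg (by linarith) (mul_nonneg (by linarith) (by linarith))
  have h9 : 0 ≤ (f - 1) * n := mul_nonneg (by linarith) (by linarith)
  have h10 : 0 ≤ (u - 1) * n := mul_nonneg (by linarith) (by linarith)
  nlinarith [sq_nonneg (u + f)]

theorem LinU_B {n k m f r u : ℚ} (hn : 3 ≤ n) (hu1 : 1 ≤ u) (huk : u ≤ k)
    (hf : 1 ≤ f) (hm : 2 * n + k + 3 ≤ m)
    (hmu : (3 * u - 1) * n ^ 2 + 4 * n ≤ m * (n + k ^ 2 - 1)) (hr : r ≤ f)
    (h : m * (f * (n + k - 1) + k * (k - 1)) + f * (n * (n - 1)) ≤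
      3 * (n - 1) * (n - 2) * (u + r - 1)) : False := by
  have h1 : 0 ≤ (f - 1) * ((m - (2 * n + k + 3)) * (n + k - 1)) :=
    mul_nonneg (by linarith) (mul_nonneg (by linarith) (by linarith))
  have h3 : 0 ≤ (n - 1) * (n - 2) := mul_nonneg (by linarith) (by linarith)
  have h4 : (n - 1) * (n - 2) * (u + r - 1) ≤ (n - 1) * (n - 2) * (u + f - 1) :=
    mul_le_mul_of_nonneg_left (by linarith) h3
  have h5 : m * (f * (n + k - 1) + k * (k - 1)) =
      m * (n + k ^ 2 - 1) + (f - 1) * ((m - (2 * n + k + 3)) * (n + k - 1)) +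
      (f - 1) * ((2 * n + k + 3) * (n + k - 1)) := by ring
  have h7 : 0 ≤ (f - 1) * ((k + 3) * (k - 1)) :=
    mul_nonneg (by linarith) (mul_nonneg (by linarith) (by linarith))
  have h8 : 0 ≤ (f - 1) * (k * n) :=
    mul_nonneg (by linarith) (mul_nonneg (by linarith) (by linarith))
  have h9 : 0 ≤ (f - 1) * n := mul_nonneg (by linarith) (by linarith)
  have h10 : 0 ≤ (u - 1) * (n - 3) := mul_nonneg (by linarith) (by linarith)
  have h11 : 0 ≤ (f - 1) * (n - 3) := mul_nonneg (by linarith) (by linarith)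
  nlinarith

theorem LinU_G {n k m x r u : ℚ} (hn : 3 ≤ n) (hk : 1 ≤ k) (hkn : k + 1 ≤ n)
    (hu2 : u = 1 ∨ 2 ≤ u) (huk : u ≤ k)
    (hx : k ≤ x) (hm : 2 * n + k + 3 ≤ m)
    (hmu : (3 * u - 1) * n ^ 2 + 4 * n ≤ m * (n + k ^ 2 - 1)) (hr : r ≤ n - 1)
    (hg : 3 * (n - 1) * (n - 2) ≤ x * (m + n - 1))
    (h : m * (x * (n + k - 1) + k * (k - 1)) + x * (n * (n - 1)) ≤
      3 * (n - 1) * (n - 2) * (u + r - 1)) : False := by
  have h3 : 0 < (n - 1) * (n - 2) := mul_pos (by linarith) (by linarith)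
  have h4 : (n - 1) * (n - 2) * (u + r - 1) ≤ (n - 1) * (n - 2) * (u + n - 2) :=
    mul_le_mul_of_nonneg_left (by linarith) h3.le
  have h5 : m * (x * (n + k - 1) + k * (k - 1)) + x * (n * (n - 1)) =
      n * (x * (m + n - 1)) + (k - 1) * (m * (x + k)) := by ring
  have h6 : n * (3 * (n - 1) * (n - 2)) ≤ n * (x * (m + n - 1)) :=
    mul_le_mul_of_nonneg_left hg (by linarith)
  have h7 : (k - 1) * (m * (x + k)) ≤ 3 * ((n - 1) * (n - 2)) * (u - 2) := by nlinarith
  have h8 : 0 ≤ (k - 1) * (m * (x + k)) :=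
    mul_nonneg (by linarith) (mul_nonneg (by linarith) (by linarith))
  rcases hu2 with hu2 | hu2
  · rw [hu2] at h7
    nlinarith
  · have hk2 : 2 ≤ k := by linarith
    have hm0 : 0 < m := by linarith
    by_cases hc : n + k - 1 ≤ (k - 1) * x
    · have h9 : m * (n + k ^ 2 - 1) ≤ (k - 1) * (m * (x + k)) := by
        have : m * (n + k ^ 2 - 1) ≤ m * ((k - 1) * (x + k)) :=
          mul_le_mul_of_nonneg_left (by nlinarith) hm0.le
        calc m * (n + k ^ 2 - 1) ≤ m * ((k - 1) * (x + k)) := this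
          _ = (k - 1) * (m * (x + k)) := by ring
      have h10 : 0 ≤ (u - 2) * (n - 1) := mul_nonneg (by linarith) (by linarith)
      nlinarith
    · have hc' : (k - 1) * x ≤ n + k - 1 := le_of_lt (not_le.1 hc)
      have h9 : (k - 1) * (3 * (n - 1) * (n - 2)) ≤ (k - 1) * (x * (m + n - 1)) :=
        mul_le_mul_of_nonneg_left hg (by linarith)
      have h10 : (k - 1) * x * (n - 1) ≤ (n + k - 1) * (n - 1) :=
        mul_le_mul_of_nonneg_right hc' (by linarith)
      have h11 : (n - 1) * (n - 2) * (u - 2) ≤ (n - 1) * (n - 2) * (k - 2) :=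
        mul_le_mul_of_nonneg_left (by linarith) h3.le
      have h12 : 3 * ((n - 1) * (n - 2)) + (k - 1) * (k * m) ≤ (n + k - 1) * (n - 1) := by
        nlinarith
      have h13 : (n + k - 1) * (n - 1) ≤ (2 * n - 2) * (n - 1) :=
        mul_le_mul_of_nonneg_right (by linarith) (by linarith)
      have h14 : 2 * m ≤ (k - 1) * (k * m) := by
        have : 2 * m ≤ ((k - 1) * k) * m := mul_le_mul_of_nonneg_right (by nlinarith) hm0.le
        linarith
      nlinarith

theorem LinU_K {n k m r u : ℚ} (hn : 3 ≤ n) (hu1 : 1 ≤ u) (huk : u ≤ k)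
    (hm : 2 * n + k + 3 ≤ m) (hr : r ≤ n - 1)
    (h : m * ((n - k + u - 1) * (n + k - 1) + k * (k - 1)) + (n - k + u - 1) * (n * (n - 1)) ≤
      3 * (n - 1) * (n - 2) * (u + r - 1)) : False := by
  have h3 : 0 < (n - 1) * (n - 2) := mul_pos (by linarith) (by linarith)
  have h4 : (n - 1) * (n - 2) * (u + r - 1) ≤ (n - 1) * (n - 2) * (u + n - 2) :=
    mul_le_mul_of_nonneg_left (by linarith) h3.le
  have h5 : m * ((n - k + u - 1) * (n + k - 1) + k * (k - 1)) =
      m * (n * (n - 1) + (u - 1) * (n + k - 1)) := by ring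
  have h6 : (2 * n + k + 3) * (n * (n - 1) + (u - 1) * (n + k - 1)) ≤
      m * (n * (n - 1) + (u - 1) * (n + k - 1)) :=
    mul_le_mul_of_nonneg_right hm (add_nonneg (mul_nonneg (by linarith) (by linarith))
      (mul_nonneg (by linarith) (by linarith)))
  have h7 : 0 ≤ (u - 1) * (n - 1) := mul_nonneg (by linarith) (by linarith)
  have h8 : 0 ≤ (u - 1) * (k * n) :=
    mul_nonneg (by linarith) (mul_nonneg (by linarith) (by linarith))
  have h9 : 0 ≤ (u - 1) * ((k + 3) * (k - 1)) :=
    mul_nonneg (by linarith) (mul_nonneg (by linarith) (by linarith))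
  nlinarith

theorem LinU_N {n k m e u : ℚ} (hn : 3 ≤ n) (hkn : k + 1 ≤ n) (hu2 : 2 ≤ u) (huk : u ≤ k)
    (hmk : 3 * (u - 1) * n ^ 2 + 3 * n ≤ m * (k * (k - 1)))
    (he0 : 2 ≤ e) (he1 : e ≤ u + 1)
    (h : m * (0 * (n + k - 1) + k * (k - 1)) + 0 * (n * (n - 1)) + 3 * ((n - e) * (n - e - 1)) ≤
      3 * (n - 1) * (n - 2) * (u + 1 - 1)) : False := by
  have h2 : 0 ≤ (u + 1 - e) * ((u + 1 - e) + 2 * (n - u - 1)) :=
    mul_nonneg (by linarith) (by linarith)
  have h3 : 0 ≤ (u - 2) * n := mul_nonneg (by linarith) (by linarith)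
  have h6 : (n - e) * (n - e - 1) = (n - u - 1) * (n - u - 2) +
      (u + 1 - e) * ((u + 1 - e) + 2 * (n - u - 1)) - (u + 1 - e) := by ring
  nlinarith [sq_nonneg u]

theorem linU (S : Cur) {u : ℕ} (hu : S.b.roots.toFinset.card = u)
    (hm : 2 * S.n + S.k + 3 ≤ S.m)
    (hmu : (3 * (u : ℤ) - 1) * S.n ^ 2 + 4 * S.n ≤ S.m * (S.n + S.k ^ 2 - 1))
    (hg : 3 * ((S.n : ℤ) - 1) * (S.n - 2) ≤
        ((S.n : ℤ) - Nat.gcd (S.n - S.k) S.m) * (S.m + S.n - 1) ∨
      ∃ v t : ℂ, Nat.gcd (S.n - S.k) S.m ≤ S.e (some v) t)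
    (hL : u = 1 ∨ (∀ v : ℂ, (S.al (some v)).roots.toFinset.card ≠ 1) ∨
      3 * ((u : ℤ) - 1) * S.n ^ 2 + 3 * S.n ≤ S.m * (S.k * (S.k - 1)))
    (h2 : ∃ t t' : ℂ, t ≠ t' ∧ S.IsCusp t ∧ S.IsCusp t' ∧ S.b.eval t ≠ 0 ∧ S.b.eval t' ≠ 0) :
    S.k = 1 ∧ ∃ v t : ℂ, S.e (some v) t = S.n := by
  classical
  obtain ⟨v₁, t₁, hmax⟩ := S.LinS_max
  obtain ⟨q, q', hqq, hq, hq', hbq, hbq'⟩ := h2
  have hkn := S.hkn
  have hk1 := S.hk
  have hb0 : S.b ≠ 0 := by
    intro h
    apply hbq
    rw [h, eval_zero]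
  -- the number `u`
  have hR0 : S.Ram none + u = S.k := by
    have b3 : S.Ram none + S.b.roots.toFinset.card = S.b.natDegree := S.ram_card none
    rw [hu, S.hb] at b3
    exact b3
  have hu1 : 1 ≤ u := by
    have h1 : S.b.roots.card = S.k := by
      rw [← S.hb]
      exact (IsAlgClosed.splits S.b).natDegree_eq_card_roots.symm
    rw [← hu, Nat.one_le_iff_ne_zero, Finset.card_ne_zero]
    have h3 : 0 < S.b.roots.card := by omega
    obtain ⟨x, hx⟩ := Multiset.card_pos_iff_exists_mem.1 h3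
    exact ⟨x, Multiset.mem_toFinset.2 hx⟩
  have huk : u ≤ S.k := by omega
  have hnone : ∀ t : ℂ, S.e none t + u ≤ S.k + 1 := by
    intro t
    by_cases ht : (S.al none).IsRoot t
    · have h1 := ram_ge ht
      omega
    · have h1 : S.e none t = 0 := by
        by_contra h
        exact ht ((e_pos_iff none t).1 (Nat.pos_of_ne_zero h))
      omega
  obtain ⟨w, hw⟩ := S.LinS_over hbq
  obtain ⟨w', hw'⟩ := S.LinS_over hbq'
  have hwe := cusp_e hw hq
  have hwe' := cusp_e hw' hq'
  have hmw := hmax w q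
  have hmw' := hmax w' q'
  have hEle := S.Gen_e_le v₁ t₁
  obtain ⟨E, hE⟩ : ∃ E, E = S.e (some v₁) t₁ := ⟨_, rfl⟩
  rw [← hE] at hmw hmw' hEle hmax
  have hE2 : 2 ≤ E := le_trans hwe hmw
  have hroot : (S.al (some v₁)).IsRoot t₁ := (e_pos_iff (some v₁) t₁).1 (by omega)
  obtain ⟨r, hr⟩ : ∃ r, (S.al (some v₁)).roots.toFinset.card = r := ⟨_, rfl⟩
  have hR1 := S.ram_card (some v₁)
  rw [hr, S.al_some_natDegree] at hR1
  have hRE := ram_ge hroot
  rw [← hE] at hRE
  have hu1q : (1 : ℚ) ≤ u := by exact_mod_cast hu1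
  have hukq : (u : ℚ) ≤ S.k := by exact_mod_cast huk
  have hk1q : (1 : ℚ) ≤ S.k := by exact_mod_cast hk1
  have hknq : (S.k : ℚ) + 1 ≤ S.n := by exact_mod_cast hkn
  have hmq : 2 * (S.n : ℚ) + S.k + 3 ≤ S.m := by exact_mod_cast hm
  have hmuq : (3 * (u : ℚ) - 1) * S.n ^ 2 + 4 * S.n ≤ S.m * (S.n + S.k ^ 2 - 1) := by
    exact_mod_cast hmu
  by_cases hEn : E = S.n
  · have he : S.e (some v₁) t₁ = S.n := hE.symm.trans hEn
    refine ⟨?_, v₁, t₁, he⟩
    by_cases hu' : u = 1
    · obtain ⟨tu, htu⟩ := Finset.card_eq_one.1 (hu.trans hu')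
      have hroots : ∀ t, S.b.IsRoot t → t = tu := by
        intro t ht
        have h4 : t ∈ S.b.roots.toFinset := by
          rw [Multiset.mem_toFinset, mem_roots hb0]
          exact ht
        rw [htu, Finset.mem_singleton] at h4
        exact h4
      have htu' : S.b.eval tu = 0 := by
        have h4 : tu ∈ S.b.roots.toFinset := by
          rw [htu]
          exact Finset.mem_singleton_self _
        rw [Multiset.mem_toFinset, mem_roots hb0] at h4
        exact h4
      have hne : ∀ t, S.b.eval t ≠ 0 → t ≠ tu := by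
        rintro t ht rfl
        exact ht htu'
      by_cases h1 : q = t₁
      · exact S.kOne he hroots hq' (fun h => hqq (h1.trans h.symm)) (hne q' hbq')
      · exact S.kOne he hroots hq h1 (hne q hbq)
    · exfalso
      have hu2 : 2 ≤ u := by omega
      have hr1 : r = 1 := by
        have h4 : 0 < r := by
          rw [← hr]
          exact Finset.card_pos.2 ⟨t₁, Multiset.mem_toFinset.2
            ((mem_roots (S.RH_al_ne (some v₁))).2 hroot)⟩
        omega
      have hmk : 3 * ((u : ℤ) - 1) * S.n ^ 2 + 3 * S.n ≤ S.m * (S.k * (S.k - 1)) := by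
        rcases hL with h | h | h
        · exact absurd h hu'
        · exact absurd (hr.trans hr1) (h v₁)
        · exact h
      have hmkq : 3 * ((u : ℚ) - 1) * S.n ^ 2 + 3 * S.n ≤ S.m * (S.k * (S.k - 1)) := by
        exact_mod_cast hmk
      have hn3q : (3 : ℚ) ≤ S.n := by
        have : 3 ≤ S.n := by omega
        exact_mod_cast this
      have key : ∀ {v s : ℂ}, s ≠ t₁ → (S.al (some v)).IsRoot s → S.IsCusp s → False := by
        intro v s hst hs hcs
        have hv : v ≠ v₁ := by
          rintro rfl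
          obtain ⟨y, hy⟩ := Finset.card_eq_one.1 (hr.trans hr1)
          have h4 : s ∈ (S.al (some v)).roots.toFinset :=
            Multiset.mem_toFinset.2 ((mem_roots (S.RH_al_ne (some v))).2 hs)
          have h5 : t₁ ∈ (S.al (some v)).roots.toFinset :=
            Multiset.mem_toFinset.2 ((mem_roots (S.RH_al_ne (some v))).2 hroot)
          rw [hy, Finset.mem_singleton] at h4 h5
          exact hst (h4.trans h5.symm)
        have b1 := S.genS v₁ (f := 0) hu hr (by
          rw [zero_add]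
          exact (Nat.gcd_le_left _ (by omega)).trans (Nat.sub_le _ _)) (by
          intro v t
          have := hmax v t
          omega) (by
          intro t
          have := hnone t
          omega) hv hs hcs
        have b2 := S.ram_le {v₁, v}
        rw [Finset.sum_pair (Ne.symm hv)] at b2
        have b4 := ram_ge hs
        have b6 := cusp_e hs hcs
        obtain ⟨e, he'⟩ : ∃ e, e = S.e (some v) s := ⟨_, rfl⟩
        rw [← he'] at b1 b4 b6
        have c1 : e ≤ u + 1 := by omega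
        have c1q : (e : ℚ) ≤ u + 1 := by exact_mod_cast c1
        have b6q : (2 : ℚ) ≤ e := by exact_mod_cast b6
        have hu2q : (2 : ℚ) ≤ u := by exact_mod_cast hu2
        rw [hr1, Nat.cast_zero, Nat.cast_one] at b1
        exact LinU_N hn3q hknq hu2q hukq hmkq b6q c1q b1
      by_cases h1 : q = t₁
      · exact key (fun h => hqq (h1.trans h.symm)) hw' hq'
      · exact key h1 hw hq
  · exfalso
    obtain ⟨g, hgd⟩ : ∃ g, g = Nat.gcd (S.n - S.k) S.m := ⟨_, rfl⟩
    have hgle : g ≤ S.n - S.k := by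
      rw [hgd]
      exact Nat.gcd_le_left _ (by omega)
    rw [← hgd] at hg
    have hg2 : 3 * ((S.n : ℤ) - 1) * (S.n - 2) ≤ ((S.n : ℤ) - g) * (S.m + S.n - 1) ∨ g ≤ E := by
      rcases hg with h | ⟨v, t, h⟩
      · exact Or.inl h
      · exact Or.inr (h.trans (hmax v t))
    clear hg
    have hn3 : 3 ≤ S.n := by omega
    have hn3q : (3 : ℚ) ≤ S.n := by exact_mod_cast hn3
    by_cases h1 : g ≤ E ∧ S.k + 1 ≤ E + u
    · -- `f = n - E`
      obtain ⟨f, hf⟩ : ∃ f, f + E = S.n := ⟨S.n - E, by omega⟩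
      have hf1 : 1 ≤ f := by omega
      have hf1q : (1 : ℚ) ≤ f := by exact_mod_cast hf1
      have a1 : f + Nat.gcd (S.n - S.k) S.m ≤ S.n := by
        rw [← hgd]
        omega
      have a2 : ∀ v t : ℂ, S.e (some v) t + f ≤ S.n := by
        intro v t
        have := hmax v t
        omega
      have a3 : ∀ t : ℂ, S.e none t + f ≤ S.n := by
        intro t
        have := hnone t
        omega
      -- a cusp off the line `v₁`
      have hoff : ∀ {v s : ℂ}, v ≠ v₁ → (S.al (some v)).IsRoot s → S.IsCusp s → False := by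
        intro v s hv hs hcs
        have b1 := S.genS v₁ hu hr a1 a2 a3 hv hs hcs
        have b2 := S.ram_le {v₁, v}
        rw [Finset.sum_pair (Ne.symm hv)] at b2
        have b4 := ram_ge hs
        have b5 := hmax v s
        have b6 := cusp_e hs hcs
        obtain ⟨e, he⟩ : ∃ e, e = S.e (some v) s := ⟨_, rfl⟩
        rw [← he] at b1 b4 b5 b6
        have c1 : e ≤ f + u + 1 := by omega
        have c2 : e + f ≤ S.n := by omega
        have c3 : r ≤ f + 1 := by omega
        have c1q : (e : ℚ) ≤ f + u + 1 := by exact_mod_cast c1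
        have c2q : (e : ℚ) + f ≤ S.n := by exact_mod_cast c2
        have c3q : (r : ℚ) ≤ f + 1 := by exact_mod_cast c3
        have b6q : (2 : ℚ) ≤ e := by exact_mod_cast b6
        exact LinU_A hn3q hknq hu1q hukq hf1q hmq hmuq b6q c1q (by linarith) c3q b1
      by_cases h3 : w = v₁
      · by_cases h4 : w' = v₁
        · have b1 := S.genE v₁ hu hr a1 a2 a3
          rw [h3] at hw
          rw [h4] at hw'
          have b2 : E ≤ S.Ram (some v₁) := by
            by_cases h5 : q = t₁
            · have h6 : q' ≠ t₁ := fun h => hqq (h5.trans h.symm)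
              have h7 := ram_ge2 hroot hw' h6.symm
              rw [← hE] at h7
              rw [h4] at hwe'
              omega
            · have h7 := ram_ge2 hroot hw (Ne.symm h5)
              rw [← hE] at h7
              rw [h3] at hwe
              omega
          have c3 : r ≤ f := by omega
          have c3q : (r : ℚ) ≤ f := by exact_mod_cast c3
          exact LinU_B hn3q hu1q hukq hf1q hmq hmuq c3q b1
        · exact hoff h4 hw' hq'
      · exact hoff h3 hw hq
    · have hr1 : r ≤ S.n - 1 := by omega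
      have hr1q : (r : ℚ) ≤ (S.n : ℚ) - 1 := by
        have : (r : ℚ) + 1 ≤ S.n := by
          have h5 : r + 1 ≤ S.n := by omega
          exact_mod_cast h5
        linarith
      by_cases h6 : S.k + 1 ≤ g + u
      · -- `f = n - g`
        obtain ⟨f, hf⟩ : ∃ f, f + g = S.n := ⟨S.n - g, by omega⟩
        have hfk : S.k ≤ f := by omega
        have hfkq : (S.k : ℚ) ≤ f := by exact_mod_cast hfk
        have b1 := S.genE v₁ (f := f) hu hr (by rw [← hgd]; omega) (by
          intro v t
          have := hmax v t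
          omega) (by
          intro t
          have := hnone t
          omega)
        have hfz : (S.n : ℤ) - g = f := by omega
        have hg1 : 3 * ((S.n : ℤ) - 1) * (S.n - 2) ≤ (f : ℤ) * (S.m + S.n - 1) := by
          rw [← hfz]
          rcases hg2 with h | h
          · exact h
          · omega
        have hgq : 3 * ((S.n : ℚ) - 1) * (S.n - 2) ≤ (f : ℚ) * (S.m + S.n - 1) := by
          exact_mod_cast hg1
        have hu12 : (u : ℚ) = 1 ∨ (2 : ℚ) ≤ u := by
          rcases Nat.lt_or_ge u 2 with h | h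
          · left
            have : u = 1 := by omega
            exact_mod_cast this
          · right
            exact_mod_cast h
        exact LinU_G hn3q hk1q hknq hu12 hukq hfkq hmq hmuq hr1q hgq b1
      · -- `f = n - K`
        obtain ⟨f, hf⟩ : ∃ f, f + (S.k + 1) = S.n + u := ⟨S.n + u - (S.k + 1), by omega⟩
        have b1 := S.genE v₁ (f := f) hu hr (by rw [← hgd]; omega) (by
          intro v t
          have := hmax v t
          omega) (by
          intro t
          have := hnone t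
          omega)
        have hfq : (f : ℚ) = (S.n : ℚ) - S.k + u - 1 := by
          have : (f : ℚ) + (S.k + 1) = S.n + u := by exact_mod_cast hf
          linarith
        rw [hfq] at b1
        exact LinU_K hn3q hu1q hukq hmq hr1q b1

end Cur

end WR
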