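import Pool.Agent.helper51.WR.Chain

/-!
# WR-Null: injectivity holds over every field

Over `ℂ` the three polynomials `a(X)b(Y)-a(Y)b(X)`, `b(X)c(Y)-b(Y)c(X)`, `a(X)c(Y)-a(Y)c(X)` in
`MvPolynomial (Fin 2) ℂ` vanish simultaneously only for `X = Y` (`S.inj`). By the Nullstellensatz
(`MvPolynomial.vanishingIdeal_zeroLocus_eq_radical`) a power of `X - Y` lies in their ideal; evaluate
at `(τ, τ')`.
-/

namespace WR

open Polynomial

namespace Cur

/-- `p(X)` or `p(Y)` as a polynomial in two variables -/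
noncomputable def Null_two (i : Fin 2) (p : ℂ[X]) : MvPolynomial (Fin 2) ℂ :=
  aeval (MvPolynomial.X i) p

/-- the polynomial `p(X) q(Y) - p(Y) q(X)` -/
noncomputable def Null_det (p q : ℂ[X]) : MvPolynomial (Fin 2) ℂ :=
  Null_two 0 p * Null_two 1 q - Null_two 1 p * Null_two 0 q

theorem Null_aeval {F : Type} [Field F] [Algebra ℂ F] (x : Fin 2 → F) (i : Fin 2) (p : ℂ[X]) :
    MvPolynomial.aeval x (Null_two i p) = aeval (x i) p := by
  unfold Null_two
  rw [← aeval_algHom_apply, MvPolynomial.aeval_X]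

theorem Null_aeval_det {F : Type} [Field F] [Algebra ℂ F] (x : Fin 2 → F) (p q : ℂ[X]) :
    MvPolynomial.aeval x (Null_det p q) =
      aeval (x 0) p * aeval (x 1) q - aeval (x 1) p * aeval (x 0) q := by
  unfold Null_det
  rw [map_sub, map_mul, map_mul, Null_aeval, Null_aeval, Null_aeval, Null_aeval]

theorem null (S : Cur) {F : Type} [Field F] [Algebra ℂ F] {τ τ' : F}
    (h₁ : aeval τ S.a * aeval τ' S.b = aeval τ' S.a * aeval τ S.b)
    (h₂ : aeval τ S.b * aeval τ' S.c = aeval τ' S.b * aeval τ S.c)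
    (h₃ : aeval τ S.a * aeval τ' S.c = aeval τ' S.a * aeval τ S.c) : τ = τ' := by
  set J : Ideal (MvPolynomial (Fin 2) ℂ) :=
    Ideal.span {Null_det S.a S.b, Null_det S.b S.c, Null_det S.a S.c} with hJ
  have hmem : (MvPolynomial.X 0 - MvPolynomial.X 1 : MvPolynomial (Fin 2) ℂ) ∈ J.radical := by
    rw [← MvPolynomial.vanishingIdeal_zeroLocus_eq_radical (K := ℂ) J,
      MvPolynomial.mem_vanishingIdeal_iff]
    intro x hx
    rw [hJ, MvPolynomial.zeroLocus_span] at hx
    have e1 := hx (Null_det S.a S.b) (by simp)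
    have e2 := hx (Null_det S.b S.c) (by simp)
    have e3 := hx (Null_det S.a S.c) (by simp)
    rw [Null_aeval_det, sub_eq_zero] at e1 e2 e3
    simp only [coe_aeval_eq_eval] at e1 e2 e3
    have e4 : x 0 = x 1 := S.inj (x 0) (x 1) e1 e2 e3
    rw [map_sub, MvPolynomial.aeval_X, MvPolynomial.aeval_X, e4, sub_self]
  obtain ⟨k, hk⟩ := hmem
  have hJle : J ≤ RingHom.ker (MvPolynomial.aeval ![τ, τ'] : MvPolynomial (Fin 2) ℂ →ₐ[ℂ] F) := by
    rw [hJ, Ideal.span_le]
    rintro p (rfl | rfl | rfl)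
    · rw [SetLike.mem_coe, RingHom.mem_ker, Null_aeval_det, sub_eq_zero]
      exact h₁
    · rw [SetLike.mem_coe, RingHom.mem_ker, Null_aeval_det, sub_eq_zero]
      exact h₂
    · rw [SetLike.mem_coe, RingHom.mem_ker, Null_aeval_det, sub_eq_zero]
      exact h₃
  have h4 := hJle hk
  rw [RingHom.mem_ker, map_pow, map_sub, MvPolynomial.aeval_X, MvPolynomial.aeval_X] at h4
  simp only [Matrix.cons_val_zero, Matrix.cons_val_one] at h4
  by_contra h5
  exact pow_ne_zero k (sub_ne_zero.2 h5) h4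

/-- different sheets have different `y`: `al = z be`, `y = y'` give proportionality of
`(al, be, c)`, hence of `(a, b, c)` -/
theorem y_ne (S : Cur) (P : Option ℂ) {F : Type} [Field F] [Algebra ℂ F] {τ τ' z : F}
    (h : aeval τ (S.al P) = z * aeval τ (S.be P))
    (h' : aeval τ' (S.al P) = z * aeval τ' (S.be P)) (hne : τ ≠ τ') :
    S.y P τ ≠ S.y P τ' := by
  intro hy
  apply hne
  have hb := be_ne h
  have hb' := be_ne h'
  unfold Cur.y at hy
  rw [div_eq_div_iff hb hb'] at hy
  cases P with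
  | none =>
    simp only [Cur.al, Cur.be] at h h' hy
    refine S.null ?_ ?_ ?_
    · rw [h, h']
      ring
    · rw [h, h']
      linear_combination (-z) * hy
    · linear_combination -hy
  | some v =>
    simp only [Cur.al, Cur.be, map_sub, map_mul, aeval_C] at h h' hy
    refine S.null ?_ ?_ ?_
    · linear_combination (aeval τ' S.b) * h - (aeval τ S.b) * h'
    · linear_combination -hy
    · linear_combination (aeval τ' S.c) * h - (aeval τ S.c) * h' - (z + algebraMap ℂ F v) * hy

end Cur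

end WR
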