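import Pool.Agent.helper51.WR.ResDefs

/-!
# WR-RDefs: rational cuspidal plane curves, coordinate free
-/

namespace WR

open Polynomial

/-- A rational cuspidal plane curve of degree `d`, given by its normalization
`φ = (F 0 : F 1 : F 2) : ℙ¹ → ℙ²`, an injective map (all singular points are unibranch). `φ(t)` is the vector of
the values at `t`, `φ(∞)` the vector of the coefficients at `X^d`. -/
structure RatCusp where
  F : Fin 3 → ℂ[X]
  d : ℕ
  deg : ∀ i, (F i).natDegree ≤ d
  nz : ∀ t : ℂ, ∃ i, (F i).eval t ≠ 0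
  nzInf : ∃ i, (F i).coeff d ≠ 0
  inj : ∀ t t' : ℂ,
    (∀ i j, (F i).eval t * (F j).eval t' = (F j).eval t * (F i).eval t') → t = t'
  injInf : ∀ t : ℂ, ¬ ∀ i j, (F i).eval t * (F j).coeff d = (F j).eval t * (F i).coeff d

namespace RatCusp

variable (K : RatCusp)

/-- the linear form with coefficients `w` restricted to the curve -/
noncomputable def form (w : Fin 3 → ℂ) : ℂ[X] := ∑ j, C (w j) * K.F j

/-- the line `w = 0` passes through `φ(∞)` -/
def Thru (w : Fin 3 → ℂ) : Prop := ∑ j, w j * (K.F j).coeff K.d = 0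

/-- the multiplicity of the curve at `φ(∞)` is `m`: the smallest order of vanishing `d - deg` at `∞` of a linear
form through `φ(∞)` -/
def MultInf (m : ℕ) : Prop :=
  (∀ w, K.Thru w → (K.form w).natDegree + m ≤ K.d) ∧
    ∃ w, K.Thru w ∧ (K.form w).natDegree + m = K.d ∧ K.form w ≠ 0

/-- every line through `φ(∞)` (in particular the tangent line) meets the curve in another point -/
def Meets : Prop := ∀ w, w ≠ 0 → K.Thru w → 1 ≤ (K.form w).natDegree

/-- `φ(t)` is a cusp: `φ` is not immersive at `t` -/
def Cusp (t : ℂ) : Prop :=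
  ∀ i j, (K.F i).eval t * (derivative (K.F j)).eval t =
    (K.F j).eval t * (derivative (K.F i)).eval t

end RatCusp

end WR
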