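import Pool.Agent.helper51.WR.RDefs

/-!
# WR-RDefsC: the tangent line and the lines through the cusp at infinity
-/

namespace WR

open Polynomial

namespace RatCusp

variable (K : RatCusp)

/-- the tangent line at `φ(∞)` meets the curve in `k` further points, counted with multiplicity: `k` is the
smallest degree of a nonzero linear form through `φ(∞)` (`d` minus the order at `∞`) -/
def TanDeg (k : ℕ) : Prop :=
  (∀ w, w ≠ 0 → K.Thru w → k ≤ (K.form w).natDegree) ∧
    ∃ w, w ≠ 0 ∧ K.Thru w ∧ (K.form w).natDegree = k

/-- `E` is the largest intersection multiplicity at a point `φ(t)`, `t ≠ ∞`, of the curve with a line through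
`φ(∞)` different from the tangent line; the lines through `φ(∞)` different from the tangent line are those
whose form has degree `d - m`, `m` the multiplicity at `φ(∞)` -/
def MaxOrd (m E : ℕ) : Prop :=
  (∀ w, K.Thru w → (K.form w).natDegree + m = K.d → ∀ t : ℂ, rootMultiplicity t (K.form w) ≤ E) ∧
    ∃ w, K.Thru w ∧ (K.form w).natDegree + m = K.d ∧ ∃ t : ℂ, rootMultiplicity t (K.form w) = E

end RatCusp

end WR
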