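import Pool.Agent.helper51.WR.RDefs

/-!
# WR-RDefsD: lines through the cusp at infinity
-/

namespace WR

open Polynomial

namespace RatCusp

variable (K : RatCusp)

/-- `w = 0` is the tangent line at the point `φ(∞)` of multiplicity `m`: it meets the curve at `φ(∞)` with
multiplicity `d - deg > m`. The degree of its form is the number of further intersections with the curve,
counted with multiplicity. -/
def Tangent (m : ℕ) (w : Fin 3 → ℂ) : Prop :=
  w ≠ 0 ∧ K.Thru w ∧ (K.form w).natDegree + m < K.d

/-- `w = 0` is a line through `φ(∞)`, different from the tangent line: it meets the curve at the point `φ(∞)` of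
multiplicity `m` with multiplicity exactly `m`. -/
def Secant (m : ℕ) (w : Fin 3 → ℂ) : Prop :=
  K.Thru w ∧ (K.form w).natDegree + m = K.d

/-- the number of points of the curve on the line `w = 0`, without `φ(∞)` -/
noncomputable def pts (w : Fin 3 → ℂ) : ℕ := Set.ncard {t : ℂ | (K.form w).eval t = 0}

end RatCusp

end WR
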