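import Mathlib

/-!
# WR-ResDefs: minimal embedded resolution of a parametrized branch

`Res ord u v p q s`: the branch `(u, v)` at the origin of the local coordinates `u`, `v` (the function `ord` is the
order of vanishing along the branch); `p`, `q` say whether `u = 0`, `v = 0` is an exceptional curve; `s` is the
sum of `μ - 2 + c` over all blow-ups which are needed to reach a smooth branch which is transversal to the only
exceptional curve through the point; `μ` = multiplicity of the branch at the centre, `c` = number of
exceptional curves through the centre.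
-/

namespace WR

open Polynomial

section

variable {F : Type} [Field F] [Algebra ℂ F] (ord : F → ℤ)

/-- vanishing at the point of the branch -/
def Pos (f : F) : Prop := f = 0 ∨ 0 < ord f

/-- the branch is smooth and transversal to the only exceptional curve -/
def Done (u v : F) (p q : Bool) : Prop :=
  (p = true ∧ q = false ∧ u ≠ 0 ∧ ord u = 1) ∨ (p = false ∧ q = true ∧ v ≠ 0 ∧ ord v = 1)

/-- `0` or `1` -/
def bi (p : Bool) : ℤ := if p = true then 1 else 0

/-- the resolution process. `left`: the multiplicity is `ord u ≤ ord v`; in the chart `(u, v/u)` the branch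
passes through the point `v/u = c` of the new exceptional curve `u = 0`; the old curve `v = 0` passes through it
iff `c = 0`. `right`: the multiplicity is `ord v < ord u`; chart `(u/v, v)`. -/
inductive Res : F → F → Bool → Bool → ℤ → Prop
  | fin (u v : F) (p q : Bool) (hu : Pos ord u) (hv : Pos ord v) (h : Done ord u v p q) :
      Res u v p q 0
  | left (u v : F) (p q q' : Bool) (c : ℂ) (s : ℤ) (hd : ¬ Done ord u v p q) (hu : u ≠ 0)
      (hu1 : 0 < ord u) (hv : v = 0 ∨ ord u ≤ ord v) (hc : Pos ord (v / u - algebraMap ℂ F c))
      (hq : q' = true ↔ (q = true ∧ c = 0))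
      (h : Res u (v / u - algebraMap ℂ F c) true q' s) :
      Res u v p q (s + (ord u - 2 + bi p + bi q))
  | right (u v : F) (p q : Bool) (s : ℤ) (hd : ¬ Done ord u v p q) (hv : v ≠ 0)
      (hv1 : 0 < ord v) (hu : u = 0 ∨ ord v < ord u) (h : Res (u / v) v p true s) :
      Res u v p q (s + (ord v - 2 + bi p + bi q))

end

/-- order of vanishing of a rational function at `t` -/
noncomputable def ordAt (t : ℂ) (f : RatFunc ℂ) : ℤ :=
  (rootMultiplicity t f.num : ℤ) - rootMultiplicity t f.denom

/-- order of vanishing of a rational function at infinity -/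
noncomputable def ordInf (f : RatFunc ℂ) : ℤ := (f.denom.natDegree : ℤ) - f.num.natDegree

/-- a linear form with the coefficients `w` in the parametrization `F`, as a rational function -/
noncomputable def lin (w : Fin 3 → ℂ) (F : Fin 3 → ℂ[X]) : RatFunc ℂ :=
  algebraMap ℂ[X] (RatFunc ℂ) (∑ j, C (w j) * F j)

/-- `s` is the sum of `μ - 2 + c` for the branch of the plane curve `(F 0 : F 1 : F 2)` at the parameter `t`:
`A 0`, `A 1`, `A 2` are linear forms, a basis, the first two vanish at the point; local coordinates
`A 0 / A 2`, `A 1 / A 2`. -/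
def BrAt (F : Fin 3 → ℂ[X]) (t : ℂ) (s : ℤ) : Prop :=
  ∃ A : Matrix (Fin 3) (Fin 3) ℂ, A.det ≠ 0 ∧
    (∑ j, A 0 j * (F j).eval t = 0) ∧ (∑ j, A 1 j * (F j).eval t = 0) ∧
    Res (ordAt t) (lin (A 0) F / lin (A 2) F) (lin (A 1) F / lin (A 2) F) false false s

/-- the same at the parameter infinity of a parametrization of degree `d` -/
def BrInf (F : Fin 3 → ℂ[X]) (d : ℕ) (s : ℤ) : Prop :=
  ∃ A : Matrix (Fin 3) (Fin 3) ℂ, A.det ≠ 0 ∧
    (∑ j, A 0 j * (F j).coeff d = 0) ∧ (∑ j, A 1 j * (F j).coeff d = 0) ∧
    Res ordInf (lin (A 0) F / lin (A 2) F) (lin (A 1) F / lin (A 2) F) false false s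

end WR
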