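import Pool.Agent.helper51.WR.Tot

/-!
# WR-TotB: the fibres if the tangent line and another line meet the curve in one more point each

`b` has only the root `tu` (multiplicity `k`), `al (some v₁)` only the root `t₁` (multiplicity `n`). The degree of
`jac` is `n + k - 1 = (n - 1) + (k - 1) + 1`, so there is exactly one more root, the cusp `t₂`, it is simple.
-/

namespace WR

open Polynomial

namespace Cur

theorem TotB_sum (p : ℂ[X]) (T : Finset ℂ) : ∑ t ∈ T, rootMultiplicity t p ≤ p.natDegree := by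
  classical
  calc ∑ t ∈ T, rootMultiplicity t p ≤ ∑ t ∈ T ∪ p.roots.toFinset, rootMultiplicity t p :=
        Finset.sum_le_sum_of_subset (Finset.subset_union_left)
    _ = ∑ t ∈ T ∪ p.roots.toFinset, p.roots.count t :=
        Finset.sum_congr rfl fun t _ => (count_roots p).symm
    _ = Multiset.card p.roots := Multiset.sum_count_eq_card fun t ht =>
        Finset.mem_union_right _ (Multiset.mem_toFinset.2 ht)
    _ ≤ p.natDegree := card_roots' p

theorem totB (S : Cur) {v₁ t₁ tu t₂ : ℂ} (he : S.e (some v₁) t₁ = S.n)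
    (hu : ∀ t, S.b.IsRoot t → t = tu) (hc : S.IsCusp t₂) (h1 : t₂ ≠ t₁) (h2 : t₂ ≠ tu) :
    S.e none tu = S.k ∧ ∃ v₂ : ℂ, v₂ ≠ v₁ ∧ S.e (some v₂) t₂ = 2 ∧
      (∀ t', (S.al (some v₂)).IsRoot t' → t' ≠ t₂ → S.e (some v₂) t' = 1) ∧
      S.Adm (some v₁) S.n ∧ S.Adm (some v₂) 2 ∧
      (∀ v, v ≠ v₁ → v ≠ v₂ → S.Adm (some v) 1 ∧ S.Ram (some v) = 0) := by
  classical
  have hn : 2 ≤ S.n := by
    have := S.hk
    have := S.hkn
    omega
  have hk1 := S.hk
  have hr1 : (S.al (some v₁)).IsRoot t₁ := by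
    have h0 : 0 < rootMultiplicity t₁ (S.al (some v₁)) := by
      have : rootMultiplicity t₁ (S.al (some v₁)) = S.n := he
      omega
    exact (rootMultiplicity_pos (S.al_ne _)).1 h0
  have hJ0 : S.jac (some 0) ≠ 0 := by
    intro h0
    have h1 := (rootMult_jac hr1).1
    rcases S.jac_eq (some v₁) with h | h
    · exact h1 (h.trans h0)
    · rw [h0, neg_zero] at h
      exact h1 h
  have hJ1 : rootMultiplicity t₁ (S.jac (some 0)) + 1 = S.n := by
    have := S.Tot_rm hr1
    omega
  -- the root of `b`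
  have hbk : S.e none tu = S.k := by
    have h3 : Multiset.card S.b.roots = S.k := by
      rw [← S.hb]
      exact (IsAlgClosed.splits S.b).natDegree_eq_card_roots.symm
    have h4 : S.b.roots = Multiset.replicate S.k tu := by
      rw [Multiset.eq_replicate]
      exact ⟨h3, fun t ht => hu t (isRoot_of_mem_roots ht)⟩
    have h5 : S.e none tu = S.b.roots.count tu := by
      rw [count_roots]
      rfl
    rw [h5, h4, Multiset.count_replicate_self]
  have hbr : (S.al none).IsRoot tu := by
    have h0 : 0 < rootMultiplicity tu (S.al none) := by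
      have : rootMultiplicity tu (S.al none) = S.k := hbk
      omega
    exact (rootMultiplicity_pos (S.al_ne _)).1 h0
  have hbu : S.b.eval tu = 0 := hbr
  have hJu : rootMultiplicity tu (S.jac (some 0)) + 1 = S.k := by
    have := S.Tot_rm hbr
    omega
  have alev : ∀ v t : ℂ, (S.al (some v)).IsRoot t ↔ S.a.eval t = v * S.b.eval t := by
    intro v t
    unfold al
    simp only [IsRoot.def, eval_sub, eval_mul, eval_C]
    exact sub_eq_zero
  have hb_t1 : S.b.eval t₁ ≠ 0 := by
    intro h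
    have h1 := (alev v₁ t₁).1 hr1
    rw [h, mul_zero] at h1
    exact (S.nz t₁).elim (fun h2 => h2 h1) (fun h2 => h2 h)
  have hu1 : tu ≠ t₁ := by
    intro h
    rw [h] at hbu
    exact hb_t1 hbu
  have hbt2 : S.b.eval t₂ ≠ 0 := fun h => h2 (hu t₂ h)
  have hJr : (S.jac (some 0)).IsRoot t₂ := by
    unfold jac al be
    simp only [IsRoot.def, map_zero, zero_mul, sub_zero, eval_sub, eval_mul]
    rw [sub_eq_zero]
    exact hc.1.symm
  have hJ2 := (rootMultiplicity_pos hJ0).2 hJr
  have hdeg := S.natDegree_jac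
  have hT := TotB_sum (S.jac (some 0)) {t₁, tu, t₂}
  rw [Finset.sum_insert (by simp [hu1.symm, h1.symm]), Finset.sum_insert (by simp [h2.symm]),
    Finset.sum_singleton, hdeg] at hT
  have hm2 : rootMultiplicity t₂ (S.jac (some 0)) = 1 := by omega
  have hother : ∀ t, t ≠ t₁ → t ≠ tu → t ≠ t₂ → rootMultiplicity t (S.jac (some 0)) = 0 := by
    intro t g1 g2 g3
    have hT' := TotB_sum (S.jac (some 0)) {t, t₁, tu, t₂}
    rw [Finset.sum_insert (by simp [g1, g2, g3]), Finset.sum_insert (by simp [hu1.symm, h1.symm]),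
      Finset.sum_insert (by simp [h2.symm]), Finset.sum_singleton, hdeg] at hT'
    omega
  have hfib : ∀ t, (S.al (some v₁)).IsRoot t → t = t₁ := by
    intro t ht
    by_contra hne'
    have hd : (X - C t₁) ^ S.n ∣ S.al (some v₁) := by
      have := pow_rootMultiplicity_dvd (S.al (some v₁)) t₁
      have h2 : rootMultiplicity t₁ (S.al (some v₁)) = S.n := he
      rwa [h2] at this
    have hdeg : (S.al (some v₁)).natDegree = S.n := by
      rw [S.natDegree_al]
      simp
    have hmon : ((X - C t₁) ^ S.n).Monic := (monic_X_sub_C t₁).pow _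
    have hpd : ((X - C t₁) ^ S.n : ℂ[X]).natDegree = S.n := by
      rw [natDegree_pow, natDegree_X_sub_C, mul_one]
    have heq : S.al (some v₁) = C (S.al (some v₁)).leadingCoeff * (X - C t₁) ^ S.n :=
      eq_leadingCoeff_mul_of_monic_of_dvd_of_natDegree_le hmon hd (by rw [hpd, hdeg])
    have hev := ht
    rw [heq, IsRoot.def, eval_mul, eval_C, eval_pow, eval_sub, eval_X, eval_C] at hev
    rcases mul_eq_zero.1 hev with h | h
    · exact S.al_ne (some v₁) (leadingCoeff_eq_zero.1 h)
    · exact hne' (sub_eq_zero.1 ((pow_eq_zero_iff (by omega : S.n ≠ 0)).1 h))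
  have huniq : ∀ v, (S.al (some v)).IsRoot t₁ → v = v₁ := by
    intro v hv
    have h1 := (alev v₁ t₁).1 hr1
    have h2 := (alev v t₁).1 hv
    rw [h1] at h2
    exact (mul_right_cancel₀ hb_t1 h2).symm
  have hnu : ∀ v, ¬ (S.al (some v)).IsRoot tu := by
    intro v hv
    have h1 := (alev v tu).1 hv
    rw [hbu, mul_zero] at h1
    exact (S.nz tu).elim (fun h2 => h2 h1) (fun h2 => h2 hbu)
  set v₂ : ℂ := S.a.eval t₂ / S.b.eval t₂ with hv₂
  have hr2 : (S.al (some v₂)).IsRoot t₂ := by
    rw [alev, hv₂, div_mul_cancel₀ _ hbt2]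
  have huniq2 : ∀ v, (S.al (some v)).IsRoot t₂ → v = v₂ := by
    intro v hv
    rw [hv₂, (alev v t₂).1 hv, mul_div_assoc, div_self hbt2, mul_one]
  have hv12 : v₂ ≠ v₁ := by
    intro h
    rw [h] at hr2
    exact h1 (hfib t₂ hr2)
  have hone : ∀ v t, (S.al (some v)).IsRoot t → t ≠ t₁ → t ≠ t₂ → S.e (some v) t = 1 := by
    intro v t ht g1 g2
    have g3 : t ≠ tu := by
      intro h
      rw [h] at ht
      exact hnu v ht
    rw [S.Tot_rm ht, hother t g1 g3 g2]
  have he2 : S.e (some v₂) t₂ = 2 := by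
    rw [S.Tot_rm hr2, hm2]
  have hne1 : ∀ v t, v ≠ v₁ → (S.al (some v)).IsRoot t → t ≠ t₁ := by
    intro v t hv ht h
    rw [h] at ht
    exact hv (huniq v ht)
  refine ⟨hbk, v₂, hv12, he2, ?_, ?_, ?_, ?_⟩
  · intro t ht hne
    exact hone v₂ t ht (hne1 v₂ t hv12 ht) hne
  · refine ⟨by omega, fun t ht => ?_, fun h => by simp at h⟩
    rw [hfib t ht, he]
  · refine ⟨by omega, fun t ht => ?_, fun h => by simp at h⟩
    by_cases h2 : t = t₂
    · rw [h2, he2]
    · rw [hone v₂ t ht (hne1 v₂ t hv12 ht) h2]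
      exact one_dvd _
  · intro v g1 g2
    have hall : ∀ t, (S.al (some v)).IsRoot t → S.e (some v) t = 1 := by
      intro t ht
      refine hone v t ht (hne1 v t g1 ht) ?_
      intro h
      rw [h] at ht
      exact g2 (huniq2 v ht)
    refine ⟨⟨one_pos, fun t ht => ?_, fun h => by simp at h⟩, ?_⟩
    · rw [hall t ht]
    · unfold Ram
      refine Finset.sum_eq_zero fun t ht => ?_
      have h3 : (S.al (some v)).IsRoot t := (mem_roots (S.al_ne _)).1 (Multiset.mem_toFinset.1 ht)
      rw [hall t h3, Nat.sub_self]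

end Cur

end WR
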