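import Pool.Agent.helper51.WR.RDefs
import Pool.Agent.helper51.WR.Final

/-!
# WR-Wrap: reduction of the coordinate free theorem to the normal form

Linear forms: `wc` with `∑ wc j * (F j).coeff d ≠ 0` (`nzInf`), `wa` of `MultInf`, and `wb ≠ 0` in the plane
`Thru` (a kernel of a nonzero form, dimension two) with `deg < n = d - m` (take a vector of the plane not
proportional to `wa`; if its degree is `n`, subtract a multiple of `wa`). By `Meets` `1 ≤ k = deg`. The matrix
`A` with rows `wa, wb, wc` is invertible. `a = form wa`, `b = form wb`, `c = form wc` (degree `d = n + m`).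
The conditions of `Cur` are invariant under `A`: proportionality of the vectors `A φ(t)`, `A φ(t')` is
proportionality of `φ(t)`, `φ(t')` (2 by 2 minors); `nz`: `a(t) = b(t) = 0` would make `φ(t)` proportional to
`φ(∞)` (both lie in the line which is the common kernel of `wa`, `wb`), against `injInf`. Cusps are the same.
`BrAt`, `BrInf` of `A F` with the matrix `B` are `BrAt`, `BrInf` of `F` with the matrix `B A`.
-/

namespace WR

open Polynomial

namespace RatCusp

theorem Wrap_vec (K : RatCusp) (A : Matrix (Fin 3) (Fin 3) ℂ) :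
    ![K.form (A 0), K.form (A 1), K.form (A 2)] = fun j => K.form (A j) := by
  funext j
  fin_cases j <;> rfl

theorem Wrap_form (K : RatCusp) (A B : Matrix (Fin 3) (Fin 3) ℂ) (i : Fin 3) :
    ∑ j, C ((B * A) i j) * K.F j = ∑ j, C (B i j) * K.form (A j) := by
  simp only [Matrix.mul_apply, form, Fin.sum_univ_three, map_add, map_mul]
  ring

theorem Wrap_lin (K : RatCusp) (A B : Matrix (Fin 3) (Fin 3) ℂ) (i : Fin 3) :
    lin ((B * A) i) K.F = lin (B i) (fun j => K.form (A j)) := by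
  unfold lin
  rw [Wrap_form]

theorem Wrap_eval (K : RatCusp) (w : Fin 3 → ℂ) (t : ℂ) :
    (K.form w).eval t = ∑ j, w j * (K.F j).eval t := by
  simp only [form, eval_finsetSum, eval_mul, eval_C]

theorem Wrap_coeff (K : RatCusp) (w : Fin 3 → ℂ) (l : ℕ) :
    (K.form w).coeff l = ∑ j, w j * (K.F j).coeff l := by
  simp only [form, finsetSum_coeff, coeff_C_mul]

theorem Wrap_der (K : RatCusp) (w : Fin 3 → ℂ) (t : ℂ) :
    (derivative (K.form w)).eval t = ∑ j, w j * (derivative (K.F j)).eval t := by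
  simp only [form, derivative_sum, derivative_C_mul, eval_finsetSum, eval_mul, eval_C]

theorem br_at (K : RatCusp) (A : Matrix (Fin 3) (Fin 3) ℂ) (hA : A.det ≠ 0) (t : ℂ) (s : ℤ)
    (h : BrAt ![K.form (A 0), K.form (A 1), K.form (A 2)] t s) : BrAt K.F t s := by
  rw [Wrap_vec] at h
  obtain ⟨B, hB, h0, h1, hR⟩ := h
  have key : ∀ i, ∑ j, (B * A) i j * (K.F j).eval t = ∑ j, B i j * (K.form (A j)).eval t := by
    intro i
    simp only [Matrix.mul_apply, Wrap_eval, Fin.sum_univ_three]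
    ring
  refine ⟨B * A, ?_, ?_, ?_, ?_⟩
  · rw [Matrix.det_mul]
    exact mul_ne_zero hB hA
  · rw [key]
    exact h0
  · rw [key]
    exact h1
  · rw [Wrap_lin, Wrap_lin, Wrap_lin]
    exact hR

theorem br_inf (K : RatCusp) (A : Matrix (Fin 3) (Fin 3) ℂ) (hA : A.det ≠ 0) (s : ℤ)
    (h : BrInf ![K.form (A 0), K.form (A 1), K.form (A 2)] K.d s) : BrInf K.F K.d s := by
  rw [Wrap_vec] at h
  obtain ⟨B, hB, h0, h1, hR⟩ := h
  have key : ∀ i, ∑ j, (B * A) i j * (K.F j).coeff K.d =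
      ∑ j, B i j * (K.form (A j)).coeff K.d := by
    intro i
    simp only [Matrix.mul_apply, Wrap_coeff, Fin.sum_univ_three]
    ring
  refine ⟨B * A, ?_, ?_, ?_, ?_⟩
  · rw [Matrix.det_mul]
    exact mul_ne_zero hB hA
  · rw [key]
    exact h0
  · rw [key]
    exact h1
  · rw [Wrap_lin, Wrap_lin, Wrap_lin]
    exact hR

/-- the minors of two vectors vanish if the minors of their images vanish -/
theorem Wrap_minor {A : Matrix (Fin 3) (Fin 3) ℂ} (hA : A.det ≠ 0) (x y : Fin 3 → ℂ)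
    (h : ∀ i j, (A.mulVec x) i * (A.mulVec y) j = (A.mulVec x) j * (A.mulVec y) i) :
    ∀ i j, x i * y j = x j * y i := by
  by_cases hX : A.mulVec x = 0
  · have hx : x = 0 := by
      by_contra hne
      exact hA (Matrix.exists_mulVec_eq_zero_iff.1 ⟨x, hne, hX⟩)
    intro i j
    rw [hx]
    simp
  · obtain ⟨i, hi⟩ : ∃ i, A.mulVec x i ≠ 0 := by
      by_contra hc
      push Not at hc
      exact hX (funext hc)
    have h1 : A.mulVec ((A.mulVec y i) • x - (A.mulVec x i) • y) = 0 := by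
      rw [Matrix.mulVec_sub, Matrix.mulVec_smul, Matrix.mulVec_smul]
      funext j
      simp only [Pi.sub_apply, Pi.smul_apply, smul_eq_mul, Pi.zero_apply]
      linear_combination -h i j
    have h2 : (A.mulVec y i) • x - (A.mulVec x i) • y = 0 := by
      by_contra hne
      exact hA (Matrix.exists_mulVec_eq_zero_iff.1 ⟨_, hne, h1⟩)
    have h3 : ∀ p, (A.mulVec y i) * x p = (A.mulVec x i) * y p := by
      intro p
      have := congrFun h2 p
      simp only [Pi.sub_apply, Pi.smul_apply, smul_eq_mul, Pi.zero_apply] at this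
      linear_combination this
    intro p q
    have h4 : A.mulVec x i * (x p * y q - x q * y p) = 0 := by
      linear_combination x q * h3 p - x p * h3 q
    exact sub_eq_zero.1 ((mul_eq_zero.1 h4).resolve_left hi)

theorem Wrap_minor_iff {A : Matrix (Fin 3) (Fin 3) ℂ} (hA : A.det ≠ 0) (x y : Fin 3 → ℂ) :
    (∀ i j, (A.mulVec x) i * (A.mulVec y) j = (A.mulVec x) j * (A.mulVec y) i) ↔
    ∀ i j, x i * y j = x j * y i := by
  refine ⟨Wrap_minor hA x y, fun h i j => ?_⟩
  simp only [Matrix.mulVec, dotProduct, Fin.sum_univ_three]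
  linear_combination (A i 0 * A j 1 - A i 1 * A j 0) * h 0 1 +
    (A i 0 * A j 2 - A i 2 * A j 0) * h 0 2 + (A i 1 * A j 2 - A i 2 * A j 1) * h 1 2

theorem Wrap_three {X Y : Fin 3 → ℂ} (h01 : X 0 * Y 1 = X 1 * Y 0) (h12 : X 1 * Y 2 = X 2 * Y 1)
    (h02 : X 0 * Y 2 = X 2 * Y 0) : ∀ i j, X i * Y j = X j * Y i := by
  intro i j
  fin_cases i <;> fin_cases j <;> simp only [Fin.zero_eta, Fin.mk_one, Fin.reduceFinMk] <;>
    first
      | rfl
      | exact h01
      | exact h12
      | exact h02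
      | exact h01.symm
      | exact h12.symm
      | exact h02.symm

/-- a second vector of the plane of the lines through the point -/
theorem Wrap_plane (P wa : Fin 3 → ℂ) :
    ∃ w : Fin 3 → ℂ, ∑ j, w j * P j = 0 ∧ ∀ c : ℂ, w ≠ c • wa := by
  obtain ⟨f, hf⟩ : ∃ f : (Fin 3 → ℂ) →ₗ[ℂ] ℂ, ∀ w, f w = ∑ j, w j * P j := by
    refine ⟨∑ j, P j • LinearMap.proj j, fun w => ?_⟩
    simp only [LinearMap.coe_sum, Finset.sum_apply, LinearMap.smul_apply, LinearMap.proj_apply,
      smul_eq_mul]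
    exact Finset.sum_congr rfl fun j _ => mul_comm _ _
  have hrk := LinearMap.finrank_range_add_finrank_ker f
  have h1 : Module.finrank ℂ (LinearMap.range f) ≤ 1 := by
    have := Submodule.finrank_le (LinearMap.range f)
    rwa [Module.finrank_self] at this
  rw [Module.finrank_fin_fun] at hrk
  have h2 : ¬ LinearMap.ker f ≤ Submodule.span ℂ {wa} := by
    intro hle
    have h3 := Submodule.finrank_mono hle
    have h4 : Module.finrank ℂ (Submodule.span ℂ {wa}) ≤ 1 := by
      have := finrank_span_le_card (R := ℂ) ({wa} : Set (Fin 3 → ℂ))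
      simpa using this
    omega
  obtain ⟨w, hw, hw'⟩ := SetLike.not_le_iff_exists.1 h2
  refine ⟨w, ?_, fun c hc => hw' ?_⟩
  · rw [← hf]
    exact hw
  · rw [hc]
    exact Submodule.smul_mem _ _ (Submodule.mem_span_singleton_self wa)

theorem normal (K : RatCusp) (m : ℕ) (h2 : 2 ≤ m) (hm : K.MultInf m) (hT : K.Meets) :
    ∃ (S : Cur) (A : Matrix (Fin 3) (Fin 3) ℂ), A.det ≠ 0 ∧ S.a = K.form (A 0) ∧
      S.b = K.form (A 1) ∧ S.c = K.form (A 2) ∧ S.m = m ∧ S.n + m = K.d ∧
      ∀ t, S.IsCusp t ↔ K.Cusp t := by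
  obtain ⟨hm1, wa, hwa, hda, hfa⟩ := hm
  obtain ⟨i0, hi0⟩ := K.nzInf
  obtain ⟨P, hP⟩ : ∃ P : Fin 3 → ℂ, P = fun j => (K.F j).coeff K.d := ⟨_, rfl⟩
  have hP0 : P ≠ 0 := by
    intro h
    have := congrFun h i0
    rw [hP] at this
    exact hi0 this
  obtain ⟨n, hn⟩ : ∃ n, n = (K.form wa).natDegree := ⟨_, rfl⟩
  have hnd : n + m = K.d := by rw [hn]; exact hda
  -- the form `wc`
  obtain ⟨wc, hwc⟩ : ∃ wc : Fin 3 → ℂ, wc = Pi.single i0 1 := ⟨_, rfl⟩
  have hfc : K.form wc = K.F i0 := by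
    unfold form
    rw [hwc, Finset.sum_eq_single i0]
    · simp
    · intro j _ hj
      simp [Pi.single_eq_of_ne hj]
    · intro h
      exact absurd (Finset.mem_univ _) h
  have hdc : (K.form wc).natDegree = K.d := by
    rw [hfc]
    exact le_antisymm (K.deg i0) (le_natDegree_of_ne_zero hi0)
  have hwcP : ∑ j, wc j * P j ≠ 0 := by
    have h := Wrap_coeff K wc K.d
    rw [hfc] at h
    rw [hP]
    simp only
    rw [← h]
    exact hi0
  -- the form `wb`
  obtain ⟨w', hw'P, hw'⟩ := Wrap_plane P wa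
  have hwaP : ∑ j, wa j * P j = 0 := by
    rw [hP]
    exact hwa
  have hα : (K.form wa).coeff n ≠ 0 := by
    rw [hn]
    exact leadingCoeff_ne_zero.2 hfa
  obtain ⟨μ, hμ⟩ : ∃ μ, μ = (K.form w').coeff n / (K.form wa).coeff n := ⟨_, rfl⟩
  obtain ⟨wb, hwb⟩ : ∃ wb : Fin 3 → ℂ, wb = w' - μ • wa := ⟨_, rfl⟩
  have hwbP : ∑ j, wb j * P j = 0 := by
    rw [hwb]
    simp only [Pi.sub_apply, Pi.smul_apply, smul_eq_mul, sub_mul, Finset.sum_sub_distrib]
    rw [hw'P]
    simp only [mul_assoc]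
    rw [← Finset.mul_sum, hwaP]
    ring
  have hThb : K.Thru wb := by
    have h := hwbP
    rw [hP] at h
    exact h
  have hwb0 : wb ≠ 0 := by
    intro h
    rw [hwb, sub_eq_zero] at h
    exact hw' μ h
  have hk1 := hT wb hwb0 hThb
  have hkn : (K.form wb).natDegree < n := by
    have h1 := hm1 wb hThb
    refine lt_of_le_of_ne (by omega) fun h => ?_
    have h3 : (K.form wb).coeff n = 0 := by
      rw [Wrap_coeff, hwb]
      simp only [Pi.sub_apply, Pi.smul_apply, smul_eq_mul, sub_mul, Finset.sum_sub_distrib]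
      simp only [mul_assoc]
      rw [← Finset.mul_sum, ← Wrap_coeff, ← Wrap_coeff, hμ, div_mul_cancel₀ _ hα, sub_self]
    rw [← h] at h3
    have h4 : K.form wb = 0 := leadingCoeff_eq_zero.1 h3
    rw [h4] at hk1
    simp at hk1
  -- the matrix
  obtain ⟨A, hAdef⟩ : ∃ A : Matrix (Fin 3) (Fin 3) ℂ, A = Matrix.of ![wa, wb, wc] := ⟨_, rfl⟩
  have hA0 : A 0 = wa := by rw [hAdef]; rfl
  have hA1 : A 1 = wb := by rw [hAdef]; rfl
  have hA2 : A 2 = wc := by rw [hAdef]; rfl
  have hwa0 : wa ≠ 0 := by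
    intro h
    apply hfa
    unfold form
    rw [h]
    simp
  have hA : A.det ≠ 0 := by
    intro hdet
    obtain ⟨v, hv0, hv⟩ := Matrix.exists_vecMul_eq_zero_iff.2 hdet
    have h1 : ∀ j, v 0 * wa j + v 1 * wb j + v 2 * wc j = 0 := by
      intro j
      have := congrFun hv j
      simp only [Matrix.vecMul, dotProduct, Fin.sum_univ_three, hA0, hA1, hA2, Pi.zero_apply] at this
      exact this
    have e1 : v 2 * (∑ j, wc j * P j) = 0 := by
      have h3 : v 0 * (∑ j, wa j * P j) + v 1 * (∑ j, wb j * P j) + v 2 * (∑ j, wc j * P j) = 0 := by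
        simp only [Fin.sum_univ_three]
        linear_combination P 0 * h1 0 + P 1 * h1 1 + P 2 * h1 2
      rw [hwaP, hwbP] at h3
      linear_combination h3
    have hv2 : v 2 = 0 := (mul_eq_zero.1 e1).resolve_right hwcP
    have hv1 : v 1 = 0 := by
      by_contra hne
      refine hw' (μ - v 0 / v 1) ?_
      funext j
      have h3 := h1 j
      rw [hv2, hwb] at h3
      simp only [Pi.sub_apply, Pi.smul_apply, smul_eq_mul] at h3 ⊢
      field_simp
      linear_combination h3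
    have hv00 : v 0 = 0 := by
      by_contra hne
      apply hwa0
      funext j
      have h3 := h1 j
      rw [hv2, hv1] at h3
      have h4 : v 0 * wa j = 0 := by linear_combination h3
      exact (mul_eq_zero.1 h4).resolve_left hne
    apply hv0
    funext j
    fin_cases j
    · exact hv00
    · exact hv1
    · exact hv2
  -- values
  have hval : ∀ t : ℂ, ∀ i, A.mulVec (fun j => (K.F j).eval t) i = (K.form (A i)).eval t := by
    intro t i
    rw [Wrap_eval]
    rfl
  have hder : ∀ t : ℂ, ∀ i, A.mulVec (fun j => (derivative (K.F j)).eval t) i =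
      (derivative (K.form (A i))).eval t := by
    intro t i
    rw [Wrap_der]
    rfl
  have hinj : ∀ t t' : ℂ, (K.form (A 0)).eval t * (K.form (A 1)).eval t' =
        (K.form (A 0)).eval t' * (K.form (A 1)).eval t →
      (K.form (A 1)).eval t * (K.form (A 2)).eval t' =
        (K.form (A 1)).eval t' * (K.form (A 2)).eval t →
      (K.form (A 0)).eval t * (K.form (A 2)).eval t' =
        (K.form (A 0)).eval t' * (K.form (A 2)).eval t → t = t' := by
    intro t t' h01 h12 h02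
    refine K.inj t t' fun i j => ?_
    refine Wrap_minor hA (fun j => (K.F j).eval t) (fun j => (K.F j).eval t') ?_ i j
    refine Wrap_three ?_ ?_ ?_
    · rw [hval, hval, hval, hval]
      linear_combination h01
    · rw [hval, hval, hval, hval]
      linear_combination h12
    · rw [hval, hval, hval, hval]
      linear_combination h02
  have hnz : ∀ t : ℂ, (K.form (A 0)).eval t ≠ 0 ∨ (K.form (A 1)).eval t ≠ 0 := by
    intro t
    by_contra hc
    push Not at hc
    obtain ⟨c0, c1⟩ := hc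
    refine K.injInf t fun i j => ?_
    have hPv : ∀ i, A.mulVec (fun j => (K.F j).coeff K.d) i = ∑ j, A i j * P j := by
      intro i
      rw [hP]
      rfl
    have hP0' : A.mulVec (fun j => (K.F j).coeff K.d) 0 = 0 := by rw [hPv, hA0, hwaP]
    have hP1' : A.mulVec (fun j => (K.F j).coeff K.d) 1 = 0 := by rw [hPv, hA1, hwbP]
    refine Wrap_minor hA (fun j => (K.F j).eval t) (fun j => (K.F j).coeff K.d) ?_ i j
    refine Wrap_three ?_ ?_ ?_
    · rw [hval, hval, c0, c1, zero_mul, zero_mul]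
    · rw [hval, c1, hP1', zero_mul, mul_zero]
    · rw [hval, c0, hP0', zero_mul, mul_zero]
  refine ⟨⟨K.form (A 0), K.form (A 1), K.form (A 2), n, (K.form (A 1)).natDegree, m, ?_, rfl, ?_, ?_, ?_,
    h2, hinj, hnz⟩, A, hA, rfl, rfl, rfl, rfl, hnd, ?_⟩
  · rw [hA0, hn]
  · rw [hA2, hdc, hnd]
  · rw [hA1]
    exact hk1
  · rw [hA1]
    exact hkn
  · intro t
    have h1 := Wrap_minor_iff hA (fun j => (K.F j).eval t) (fun j => (derivative (K.F j)).eval t)
    unfold Cusp Cur.IsCusp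
    constructor
    · rintro ⟨h01, h12, h02⟩
      refine h1.1 (Wrap_three ?_ ?_ ?_)
      · rw [hval, hval, hder, hder]
        linear_combination h01
      · rw [hval, hval, hder, hder]
        linear_combination h12
      · rw [hval, hval, hder, hder]
        linear_combination h02
    · intro h
      have h3 := h1.2 h
      simp only [hval, hder] at h3
      refine ⟨?_, ?_, ?_⟩
      · linear_combination h3 0 1
      · linear_combination h3 1 2
      · linear_combination h3 0 2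

theorem main (K : RatCusp) (m : ℕ) (h2 : 2 ≤ m) (hm : K.MultInf m) (hT : K.Meets)
    (hbig : 3 * (K.d - m - 1) * (K.d - m - 2) < m)
    (h3 : ∃ t t' : ℂ, t ≠ t' ∧ K.Cusp t ∧ K.Cusp t') :
    ∃ (t₁ t₂ : ℂ) (s₀ s₁ s₂ : ℤ), t₁ ≠ t₂ ∧ (∀ t, K.Cusp t ↔ t = t₁ ∨ t = t₂) ∧
      BrInf K.F K.d s₀ ∧ BrAt K.F t₁ s₁ ∧ BrAt K.F t₂ s₂ ∧
      9 - 3 * (K.d : ℤ) + (s₀ + s₁ + s₂) = 0 ∧
      ((K.d = m + 2 ∧ s₀ = 2 * m - 3 ∧ 1 ≤ s₁ ∧ 1 ≤ s₂ ∧ s₁ + s₂ = m) ∨
       (∃ l : ℕ, K.d = m + 3 ∧ m = 2 * l ∧ s₀ = 4 * l - 2 ∧ s₁ = 2 * l + 1 ∧ s₂ = 1) ∨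
       (∃ l : ℕ, K.d = m + 4 ∧ m = 3 * l ∧ s₀ = 6 * l - 1 ∧ s₁ = 3 * l + 3 ∧ s₂ = 1)) := by
  obtain ⟨S, A, hA, ha, hb, hc, hSm, hSn, hcusp⟩ := K.normal m h2 hm hT
  have e1 : K.d - m = S.n := by omega
  rw [e1] at hbig
  obtain ⟨t, t', htt, ht, ht'⟩ := h3
  obtain ⟨t₁, t₂, s₀, s₁, s₂, hne, hcu, hB0, hB1, hB2, hsum, hcase⟩ := S.final (by rw [hSm]; exact hbig)
    ⟨t, t', htt, (hcusp t).2 ht, (hcusp t').2 ht'⟩
  rw [ha, hb, hc] at hB0 hB1 hB2
  rw [hSm, hSn] at hB0
  refine ⟨t₁, t₂, s₀, s₁, s₂, hne, fun t => (hcusp t).symm.trans (hcu t), K.br_inf A hA s₀ hB0,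
    K.br_at A hA t₁ s₁ hB1, K.br_at A hA t₂ s₂ hB2, ?_, ?_⟩
  · rw [hSm] at hsum
    have e2 : (K.d : ℤ) = (S.n : ℤ) + m := by exact_mod_cast hSn.symm
    rw [e2]
    exact hsum
  · rw [hSm] at hcase
    rcases hcase with ⟨h1, h4, h5⟩ | ⟨l, h1, h4, h5⟩ | ⟨l, h1, h4, h5⟩
    · exact Or.inl ⟨by omega, h4, h5⟩
    · exact Or.inr (Or.inl ⟨l, by omega, h4, h5⟩)
    · exact Or.inr (Or.inr ⟨l, by omega, h4, h5⟩)

end RatCusp

end WR
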