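import Pool.Agent.helper51.WR.RDefsC
import Pool.Agent.helper51.WR.Wrap
import Pool.Agent.helper51.WR.FinalC

/-!
# WR-WrapC: the coordinate free theorem with `k` and `E`

In the normal form `S` of `K` (`normal`): `S.k = k`, and the ramification indices of `S` are the intersection
multiplicities of `K` with the lines through `φ(∞)` different from the tangent line.
-/

namespace WR

open Polynomial

namespace RatCusp

theorem WrapC_form_comb (K : RatCusp) (A : Matrix (Fin 3) (Fin 3) ℂ) (v : Fin 3 → ℂ) :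
    K.form (fun j => v 0 * A 0 j + v 1 * A 1 j + v 2 * A 2 j) =
      C (v 0) * K.form (A 0) + C (v 1) * K.form (A 1) + C (v 2) * K.form (A 2) := by
  unfold form
  simp only [Fin.sum_univ_three, map_add, map_mul]
  ring

/-- every vector is a combination of the rows of an invertible matrix -/
theorem WrapC_span {A : Matrix (Fin 3) (Fin 3) ℂ} (hA : A.det ≠ 0) (w : Fin 3 → ℂ) :
    ∃ v : Fin 3 → ℂ, w = fun j => v 0 * A 0 j + v 1 * A 1 j + v 2 * A 2 j := by
  have hu : IsUnit A.det := isUnit_iff_ne_zero.2 hA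
  refine ⟨Matrix.vecMul w A⁻¹, ?_⟩
  have h1 : Matrix.vecMul (Matrix.vecMul w A⁻¹) A = w := by
    rw [Matrix.vecMul_vecMul, Matrix.nonsing_inv_mul A hu, Matrix.vecMul_one]
  funext j
  have h2 := congrFun h1 j
  simp only [Matrix.vecMul, dotProduct, Fin.sum_univ_three] at h2 ⊢
  exact h2.symm

theorem WrapC_thru (K : RatCusp) (w : Fin 3 → ℂ) : K.Thru w ↔ (K.form w).coeff K.d = 0 := by
  rw [Wrap_coeff]
  exact Iff.rfl

theorem WrapC_low (K : RatCusp) {w : Fin 3 → ℂ} (h : (K.form w).natDegree < K.d) : K.Thru w := by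
  rw [WrapC_thru]
  exact coeff_eq_zero_of_natDegree_lt h

/-- a form through the point at infinity is a combination of `a` and `b` -/
theorem WrapC_comb (K : RatCusp) {S : Cur} {A : Matrix (Fin 3) (Fin 3) ℂ} (hA : A.det ≠ 0)
    (ha : S.a = K.form (A 0)) (hb : S.b = K.form (A 1)) (hc : S.c = K.form (A 2))
    {m : ℕ} (hm : S.m = m) (hn : S.n + m = K.d) {w : Fin 3 → ℂ} (hw : K.Thru w) :
    ∃ α β : ℂ, K.form w = C α * S.a + C β * S.b ∧ (w ≠ 0 → α ≠ 0 ∨ β ≠ 0) := by
  obtain ⟨v, hv⟩ := WrapC_span hA w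
  have h1 : K.form w = C (v 0) * S.a + C (v 1) * S.b + C (v 2) * S.c := by
    rw [ha, hb, hc, ← WrapC_form_comb, ← hv]
  have hkn := S.hkn
  have hm2 := S.hm
  have ea : S.a.coeff K.d = 0 := coeff_eq_zero_of_natDegree_lt (by rw [S.ha]; omega)
  have eb : S.b.coeff K.d = 0 := coeff_eq_zero_of_natDegree_lt (by rw [S.hb]; omega)
  have ec : S.c.coeff K.d ≠ 0 := by
    have h2 : S.c.natDegree = K.d := by rw [S.hc, hm, hn]
    rw [← h2]
    refine leadingCoeff_ne_zero.2 fun h => ?_
    rw [h, natDegree_zero] at h2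
    omega
  have h3 := (K.WrapC_thru w).1 hw
  rw [h1, coeff_add, coeff_add, coeff_C_mul, coeff_C_mul, coeff_C_mul, ea, eb, mul_zero, mul_zero,
    zero_add, zero_add] at h3
  have hv2 : v 2 = 0 := (mul_eq_zero.1 h3).resolve_right ec
  refine ⟨v 0, v 1, ?_, fun hw0 => ?_⟩
  · rw [h1, hv2, C_0, zero_mul, add_zero]
  · by_contra hcon
    push Not at hcon
    apply hw0
    rw [hv]
    funext j
    rw [hcon.1, hcon.2, hv2]
    simp

theorem WrapC_k (K : RatCusp) {S : Cur} {A : Matrix (Fin 3) (Fin 3) ℂ} (hA : A.det ≠ 0)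
    (ha : S.a = K.form (A 0)) (hb : S.b = K.form (A 1)) (hc : S.c = K.form (A 2))
    {m : ℕ} (hm : S.m = m) (hn : S.n + m = K.d) {k : ℕ} (hk : K.TanDeg k) : S.k = k := by
  obtain ⟨h1, w, hw0, hwT, hwk⟩ := hk
  have hkn := S.hkn
  have hk1 := S.hk
  have hm2 := S.hm
  have hbT : K.Thru (A 1) := by
    apply WrapC_low
    rw [← hb, S.hb]
    omega
  have hb0 : A 1 ≠ 0 := by
    intro h
    have h2 : S.b = 0 := by
      rw [hb, h]
      unfold form
      simp
    have h3 := S.hb
    rw [h2, natDegree_zero] at h3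
    omega
  have e1 : k ≤ S.k := by
    have := h1 (A 1) hb0 hbT
    rwa [← hb, S.hb] at this
  obtain ⟨α, β, hf, hne⟩ := K.WrapC_comb hA ha hb hc hm hn hwT
  by_cases hα : α = 0
  · have hβ : β ≠ 0 := (hne hw0).resolve_left (fun h => h hα)
    rw [hf, hα, C_0, zero_mul, zero_add, natDegree_C_mul hβ, S.hb] at hwk
    exact hwk
  · exfalso
    have h2 : (C α * S.a + C β * S.b).natDegree = S.n := by
      rw [natDegree_add_eq_left_of_natDegree_lt]
      · rw [natDegree_C_mul hα, S.ha]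
      · rw [natDegree_C_mul hα, S.ha]
        refine lt_of_le_of_lt (natDegree_C_mul_le β S.b) ?_
        rw [S.hb]
        exact hkn
    rw [hf, h2] at hwk
    omega

theorem WrapC_E (K : RatCusp) {S : Cur} {A : Matrix (Fin 3) (Fin 3) ℂ} (hA : A.det ≠ 0)
    (ha : S.a = K.form (A 0)) (hb : S.b = K.form (A 1)) (hc : S.c = K.form (A 2))
    {m : ℕ} (hm : S.m = m) (hn : S.n + m = K.d) {E : ℕ} (hE : K.MaxOrd m E) :
    (∀ v t : ℂ, S.e (some v) t ≤ E) ∧ ∃ v t : ℂ, S.e (some v) t = E := by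
  obtain ⟨h1, w, hwT, hwd, t, ht⟩ := hE
  have hkn := S.hkn
  have hk1 := S.hk
  have hm2 := S.hm
  have hdeg : ∀ v : ℂ, (S.a - C v * S.b).natDegree = S.n := by
    intro v
    rw [natDegree_sub_eq_left_of_natDegree_lt]
    · exact S.ha
    · refine lt_of_le_of_lt (natDegree_C_mul_le v S.b) ?_
      rw [S.hb, S.ha]
      exact hkn
  constructor
  · intro v t
    have h2 : K.form (fun j => A 0 j + -v * A 1 j) = S.a - C v * S.b := by
      have h3 := K.WrapC_form_comb A ![1, -v, 0]
      have h4 : (fun j => (![1, -v, 0] : Fin 3 → ℂ) 0 * A 0 j + (![1, -v, 0] : Fin 3 → ℂ) 1 * A 1 j +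
          (![1, -v, 0] : Fin 3 → ℂ) 2 * A 2 j) = fun j => A 0 j + -v * A 1 j := by
        funext j
        simp
      rw [h4] at h3
      rw [h3, ha, hb]
      simp
      ring
    have h3 : (K.form (fun j => A 0 j + -v * A 1 j)).natDegree = S.n := by rw [h2]; exact hdeg v
    have h4 := h1 (fun j => A 0 j + -v * A 1 j) (WrapC_low K (by rw [h3]; omega))
      (by rw [h3]; exact hn) t
    rw [h2] at h4
    exact h4
  · obtain ⟨α, β, hf, -⟩ := K.WrapC_comb hA ha hb hc hm hn hwT
    have hα : α ≠ 0 := by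
      rintro rfl
      rw [C_0, zero_mul, zero_add] at hf
      have h2 : (K.form w).natDegree ≤ S.k := by
        rw [hf, ← S.hb]
        exact natDegree_C_mul_le β S.b
      omega
    refine ⟨-β / α, t, ?_⟩
    have h2 : K.form w = C α * (S.a - C (-β / α) * S.b) := by
      rw [hf, mul_sub, ← mul_assoc, ← C_mul, mul_div_cancel₀ _ hα, C_neg]
      ring
    rw [h2] at ht
    have h3 : rootMultiplicity t (C α * (S.a - C (-β / α) * S.b)) =
        rootMultiplicity t (S.a - C (-β / α) * S.b) := by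
      rw [← count_roots, ← count_roots, roots_C_mul _ hα]
    rw [h3] at ht
    exact ht

end RatCusp

end WR
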