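import Pool.Agent.helper51.WR.RDefsD
import Pool.Agent.helper51.WR.WrapC
import Pool.Agent.helper51.WR.GenD

/-!
# WR-WrapD: the coordinate free theorem with the points on two lines

In the normal form `S` of `K` (`normal`): the form of the tangent line is a multiple of `b`, the form of
another line through `φ(∞)` is a multiple of `a - v₁ b`.
-/

namespace WR

open Polynomial

namespace RatCusp

/-- the tangent line is unique -/
theorem WrapD_meets (K : RatCusp) {m : ℕ} (hm : K.MultInf m) (h2 : 2 ≤ m) {T : Fin 3 → ℂ}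
    (hT : K.Tangent m T) (hk1 : 1 ≤ (K.form T).natDegree) : K.Meets := by
  intro w hw0 hwT
  by_contra hcon
  have hw1 : (K.form w).natDegree = 0 := by omega
  obtain ⟨hT0, hTT, hTd⟩ := hT
  obtain ⟨-, wa, hwa, hda, hfa⟩ := hm
  obtain ⟨i0, hi0⟩ := K.nzInf
  obtain ⟨P, hP⟩ : ∃ P : Fin 3 → ℂ, P = fun j => (K.F j).coeff K.d := ⟨_, rfl⟩
  have hP0 : P ≠ 0 := by
    intro h
    have := congrFun h i0
    rw [hP] at this
    exact hi0 this
  obtain ⟨B, hB⟩ : ∃ B : Matrix (Fin 3) (Fin 3) ℂ, B = Matrix.of ![T, w, wa] := ⟨_, rfl⟩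
  have e0 : ∑ j, T j * P j = 0 := by rw [hP]; exact hTT
  have e1 : ∑ j, w j * P j = 0 := by rw [hP]; exact hwT
  have e2 : ∑ j, wa j * P j = 0 := by rw [hP]; exact hwa
  have hB0 : B.mulVec P = 0 := by
    funext i
    rw [hB]
    fin_cases i
    · exact e0
    · exact e1
    · exact e2
  have hdet : B.det = 0 := Matrix.exists_mulVec_eq_zero_iff.1 ⟨P, hP0, hB0⟩
  obtain ⟨v, hv0, hv⟩ := Matrix.exists_vecMul_eq_zero_iff.2 hdet
  have h1 : ∀ j, v 0 * T j + v 1 * w j + v 2 * wa j = 0 := by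
    intro j
    have := congrFun hv j
    rw [hB] at this
    simpa [Matrix.vecMul, dotProduct, Fin.sum_univ_three] using this
  have h3 : C (v 0) * K.form T + C (v 1) * K.form w + C (v 2) * K.form wa = 0 := by
    have h4 := K.WrapC_form_comb B v
    have h5 : (fun j => v 0 * B 0 j + v 1 * B 1 j + v 2 * B 2 j) = fun _ => (0 : ℂ) := by
      funext j
      rw [hB]
      exact h1 j
    rw [h5] at h4
    have h6 : K.form (fun _ => (0 : ℂ)) = 0 := by
      unfold form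
      simp
    rw [h6, hB] at h4
    exact h4.symm
  have hv2 : v 2 = 0 := by
    by_contra hne
    have h4 : K.form wa = C (-(v 0) / v 2) * K.form T + C (-(v 1) / v 2) * K.form w := by
      have h5 : C (v 2) * K.form wa = C (v 2) *
          (C (-(v 0) / v 2) * K.form T + C (-(v 1) / v 2) * K.form w) := by
        rw [mul_add, ← mul_assoc, ← mul_assoc, ← C_mul, ← C_mul, mul_div_cancel₀ _ hne,
          mul_div_cancel₀ _ hne, C_neg, C_neg]
        linear_combination h3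
      exact mul_left_cancel₀ (C_ne_zero.2 hne) h5
    have h5 : (K.form wa).natDegree ≤ (K.form T).natDegree := by
      rw [h4]
      refine (natDegree_add_le _ _).trans (max_le (natDegree_C_mul_le _ _) ?_)
      refine (natDegree_C_mul_le _ _).trans ?_
      omega
    omega
  have hv1 : v 1 ≠ 0 := by
    intro hv1
    have hv00 : v 0 ≠ 0 := by
      intro h
      apply hv0
      funext j
      fin_cases j
      · exact h
      · exact hv1
      · exact hv2
    apply hT0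
    funext j
    have h4 := h1 j
    rw [hv1, hv2] at h4
    have h5 : v 0 * T j = 0 := by linear_combination h4
    exact (mul_eq_zero.1 h5).resolve_left hv00
  have hv00 : v 0 ≠ 0 := by
    intro h
    apply hw0
    funext j
    have h4 := h1 j
    rw [h, hv2] at h4
    have h5 : v 1 * w j = 0 := by linear_combination h4
    exact (mul_eq_zero.1 h5).resolve_left hv1
  have h4 : C (v 0) * K.form T = C (-(v 1)) * K.form w := by
    rw [hv2, C_0, zero_mul, add_zero] at h3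
    rw [C_neg]
    linear_combination h3
  have h5 := congrArg natDegree h4
  rw [natDegree_C_mul hv00, natDegree_C_mul (neg_ne_zero.2 hv1)] at h5
  omega

theorem WrapD_T (K : RatCusp) {S : Cur} {A : Matrix (Fin 3) (Fin 3) ℂ} (hA : A.det ≠ 0)
    (ha : S.a = K.form (A 0)) (hb : S.b = K.form (A 1)) (hc : S.c = K.form (A 2))
    {m : ℕ} (hm : S.m = m) (hn : S.n + m = K.d) {T : Fin 3 → ℂ} (hT : K.Tangent m T) :
    ∃ β : ℂ, β ≠ 0 ∧ K.form T = C β * S.b := by
  obtain ⟨hT0, hTT, hTd⟩ := hT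
  have hkn := S.hkn
  obtain ⟨α, β, hf, hne⟩ := K.WrapC_comb hA ha hb hc hm hn hTT
  by_cases hα : α = 0
  · have hβ : β ≠ 0 := (hne hT0).resolve_left (fun h => h hα)
    refine ⟨β, hβ, ?_⟩
    rw [hf, hα, C_0, zero_mul, zero_add]
  · exfalso
    have h2 : (C α * S.a + C β * S.b).natDegree = S.n := by
      rw [natDegree_add_eq_left_of_natDegree_lt]
      · rw [natDegree_C_mul hα, S.ha]
      · rw [natDegree_C_mul hα, S.ha]
        refine lt_of_le_of_lt (natDegree_C_mul_le β S.b) ?_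
        rw [S.hb]
        exact hkn
    rw [hf, h2] at hTd
    omega

theorem WrapD_L (K : RatCusp) {S : Cur} {A : Matrix (Fin 3) (Fin 3) ℂ} (hA : A.det ≠ 0)
    (ha : S.a = K.form (A 0)) (hb : S.b = K.form (A 1)) (hc : S.c = K.form (A 2))
    {m : ℕ} (hm : S.m = m) (hn : S.n + m = K.d) {L : Fin 3 → ℂ} (hL : K.Secant m L) :
    ∃ v₁ α : ℂ, α ≠ 0 ∧ K.form L = C α * S.al (some v₁) := by
  obtain ⟨hLT, hLd⟩ := hL
  have hkn := S.hkn
  obtain ⟨α, β, hf, -⟩ := K.WrapC_comb hA ha hb hc hm hn hLT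
  have hα : α ≠ 0 := by
    rintro rfl
    rw [C_0, zero_mul, zero_add] at hf
    have h2 : (K.form L).natDegree ≤ S.k := by
      rw [hf, ← S.hb]
      exact natDegree_C_mul_le β S.b
    omega
  refine ⟨-β / α, α, hα, ?_⟩
  change K.form L = C α * (S.a - C (-β / α) * S.b)
  rw [hf, mul_sub, ← mul_assoc, ← C_mul, mul_div_cancel₀ _ hα, C_neg]
  ring

theorem WrapD_pts (K : RatCusp) {w : Fin 3 → ℂ} {α : ℂ} (hα : α ≠ 0) {p : ℂ[X]} (hp : p ≠ 0)
    (hf : K.form w = C α * p) : p.roots.toFinset.card = K.pts w := by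
  classical
  unfold pts
  have h1 : {t : ℂ | (K.form w).eval t = 0} = ((p.roots.toFinset : Finset ℂ) : Set ℂ) := by
    ext t
    rw [Set.mem_setOf_eq, hf, eval_mul, eval_C, Finset.mem_coe, Multiset.mem_toFinset, mem_roots hp,
      IsRoot.def]
    constructor
    · intro h
      exact (mul_eq_zero.1 h).resolve_left hα
    · intro h
      rw [h, mul_zero]
  rw [h1, Set.ncard_coe_finset]

/-- the forms of the lines through `φ(∞)` -/
theorem WrapD_e (K : RatCusp) {S : Cur} {A : Matrix (Fin 3) (Fin 3) ℂ} (hA : A.det ≠ 0)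
    (ha : S.a = K.form (A 0)) (hb : S.b = K.form (A 1))
    {m : ℕ} (hm : S.m = m) (hn : S.n + m = K.d) {f : ℕ}
    (hf : ∀ w, w ≠ 0 → K.Thru w → ∀ t : ℂ, rootMultiplicity t (K.form w) + f ≤ S.n) :
    (∀ v t : ℂ, S.e (some v) t + f ≤ S.n) ∧ ∀ t : ℂ, S.e none t + f ≤ S.n := by
  have hkn := S.hkn
  have hm2 := S.hm
  have hk1 := S.hk
  constructor
  · intro v t
    have h2 : K.form (fun j => A 0 j + -v * A 1 j) = S.a - C v * S.b := by
      have h3 := K.WrapC_form_comb A ![1, -v, 0]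
      have h4 : (fun j => (![1, -v, 0] : Fin 3 → ℂ) 0 * A 0 j + (![1, -v, 0] : Fin 3 → ℂ) 1 * A 1 j +
          (![1, -v, 0] : Fin 3 → ℂ) 2 * A 2 j) = fun j => A 0 j + -v * A 1 j := by
        funext j
        simp
      rw [h4] at h3
      rw [h3, ha, hb]
      simp
      ring
    have h3 : (K.form (fun j => A 0 j + -v * A 1 j)).natDegree = S.n := by
      rw [h2]
      exact S.al_some_natDegree v
    have h5 : (fun j => A 0 j + -v * A 1 j) ≠ (0 : Fin 3 → ℂ) := by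
      intro h
      rw [h] at h3
      have h6 : K.form 0 = 0 := by
        unfold form
        simp
      rw [h6, natDegree_zero] at h3
      omega
    have h4 := hf _ h5 (WrapC_low K (by rw [h3]; omega)) t
    rw [h2] at h4
    exact h4
  · intro t
    have h3 : (K.form (A 1)).natDegree = S.k := by rw [← hb, S.hb]
    have h5 : A 1 ≠ 0 := by
      intro h
      rw [h] at h3
      have h6 : K.form 0 = 0 := by
        unfold form
        simp
      rw [h6, natDegree_zero] at h3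
      omega
    have h4 := hf _ h5 (WrapC_low K (by rw [h3]; omega)) t
    rw [← hb] at h4
    exact h4

theorem mainD (K : RatCusp) (m : ℕ) (h2 : 2 ≤ m) (hm : K.MultInf m) (T L : Fin 3 → ℂ)
    (hT : K.Tangent m T) (hL : K.Secant m L) (n k f : ℕ) (hn : n + m = K.d)
    (hk : (K.form T).natDegree = k) (hk1 : 1 ≤ k) (hfk : f ≤ k)
    (hf : ∀ w, w ≠ 0 → K.Thru w → ∀ t : ℂ, rootMultiplicity t (K.form w) + f ≤ n)
    (hbig : (k = 1 ∧ K.pts L = 1) ∨
      3 * ((n : ℤ) - 1) * (n - 2) * (K.pts T + K.pts L - 1) <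
        m * (f * (n + k - 1) + k * (k - 1)) + f * (n * (n - 1)))
    (h3 : ∃ t t' : ℂ, t ≠ t' ∧ K.Cusp t ∧ K.Cusp t') :
    ∃ (t₁ t₂ : ℂ) (s₀ s₁ s₂ : ℤ), t₁ ≠ t₂ ∧ (∀ t, K.Cusp t ↔ t = t₁ ∨ t = t₂) ∧
      BrInf K.F K.d s₀ ∧ BrAt K.F t₁ s₁ ∧ BrAt K.F t₂ s₂ ∧
      9 - 3 * (K.d : ℤ) + (s₀ + s₁ + s₂) = 0 ∧
      ((K.d = m + 2 ∧ s₀ = 2 * m - 3 ∧ 1 ≤ s₁ ∧ 1 ≤ s₂ ∧ s₁ + s₂ = m) ∨
       (∃ l : ℕ, K.d = m + 3 ∧ m = 2 * l ∧ s₀ = 4 * l - 2 ∧ s₁ = 2 * l + 1 ∧ s₂ = 1) ∨
       (∃ l : ℕ, K.d = m + 4 ∧ m = 3 * l ∧ s₀ = 6 * l - 1 ∧ s₁ = 3 * l + 3 ∧ s₂ = 1)) := by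
  classical
  have hM : K.Meets := K.WrapD_meets hm h2 hT (by omega)
  obtain ⟨S, A, hA, ha, hb, hc, hSm, hSn, hcusp⟩ := K.normal m h2 hm hM
  have hnn : S.n = n := by omega
  obtain ⟨β, hβ, hTf⟩ := K.WrapD_T hA ha hb hc hSm hSn hT
  obtain ⟨v₁, α, hα, hLf⟩ := K.WrapD_L hA ha hb hc hSm hSn hL
  have hkk : S.k = k := by
    rw [← hk, hTf, natDegree_C_mul hβ, S.hb]
  have hb0 : S.b ≠ 0 := by
    intro h
    have h4 := S.hb
    rw [h, natDegree_zero] at h4
    have := S.hk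
    omega
  have hu := K.WrapD_pts hβ hb0 hTf
  have hr := K.WrapD_pts hα (S.RH_al_ne (some v₁)) hLf
  have hk0 : S.k = 1 ∧ ∃ v t : ℂ, S.e (some v) t = S.n := by
    rcases hbig with ⟨e1, e2⟩ | hbig
    · refine ⟨by omega, v₁, ?_⟩
      rw [e2] at hr
      obtain ⟨t₁, ht₁⟩ := Finset.card_eq_one.1 hr
      refine ⟨t₁, ?_⟩
      have h4 := S.ram_card (some v₁)
      rw [hr, S.al_some_natDegree] at h4
      have h5 : S.Ram (some v₁) = S.e (some v₁) t₁ - 1 := by
        unfold Cur.Ram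
        rw [ht₁, Finset.sum_singleton]
      have h6 : 0 < S.n := by omega
      have h7 := S.hkn
      have h8 := S.hk
      omega
    · exfalso
      obtain ⟨g1, g2⟩ := K.WrapD_e hA ha hb hSm hSn (f := f) (by rw [hnn]; exact hf)
      have h4 := S.genD v₁ (f := f) hu hr (by omega) g1 g2
      rw [hSm, hnn, hkk] at h4
      have h5 : (m : ℤ) * (f * ((n : ℤ) + k - 1) + k * (k - 1)) + f * (n * (n - 1)) ≤
          3 * ((n : ℤ) - 1) * (n - 2) * (K.pts T + K.pts L - 1) := by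
        exact_mod_cast h4
      omega
  obtain ⟨hk', v, t', he⟩ := hk0
  obtain ⟨t, t', htt, ht, ht'⟩ := h3
  obtain ⟨t₁, t₂, s₀, s₁, s₂, hne, hcu, hB0, hB1, hB2, hsum, hcase⟩ := S.final_tot hk' he
    ⟨t, t', htt, (hcusp t).2 ht, (hcusp t').2 ht'⟩
  rw [ha, hb, hc] at hB0 hB1 hB2
  rw [hSm, hSn] at hB0
  refine ⟨t₁, t₂, s₀, s₁, s₂, hne, fun t => (hcusp t).symm.trans (hcu t), K.br_inf A hA s₀ hB0,
    K.br_at A hA t₁ s₁ hB1, K.br_at A hA t₂ s₂ hB2, ?_, ?_⟩
  · rw [hSm] at hsum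
    have e2 : (K.d : ℤ) = (S.n : ℤ) + m := by exact_mod_cast hSn.symm
    rw [e2]
    exact hsum
  · rw [hSm] at hcase
    rcases hcase with ⟨h1, h4, h5⟩ | ⟨l, h1, h4, h5⟩ | ⟨l, h1, h4, h5⟩
    · exact Or.inl ⟨by omega, h4, h5⟩
    · exact Or.inr (Or.inl ⟨l, by omega, h4, h5⟩)
    · exact Or.inr (Or.inr ⟨l, by omega, h4, h5⟩)

end RatCusp

end WR
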