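import Pool.Agent.helper51.WR.WrapD
import Pool.Agent.helper51.WR.GenE
import Pool.Agent.helper51.WR.FineB
import Pool.Agent.helper65.N4.Fin

/-!
# WR-WrapE: the coordinate free theorem

`n = 4`, `8 ≤ m` (`gen4`); or: the tangent line `T` and a line `L` through `φ(∞)` meet the curve in one more point
each, and there is a cusp off these lines (`kOne`); or: the general inequality `genE` fails.
-/

namespace WR

open Polynomial

namespace RatCusp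

/-- the conclusion from `k = 1` and a totally ramified place -/
theorem WrapE_fin (K : RatCusp) {m : ℕ} {S : Cur} {A : Matrix (Fin 3) (Fin 3) ℂ} (hA : A.det ≠ 0)
    (ha : S.a = K.form (A 0)) (hb : S.b = K.form (A 1)) (hc : S.c = K.form (A 2))
    (hSm : S.m = m) (hSn : S.n + m = K.d) (hcusp : ∀ t, S.IsCusp t ↔ K.Cusp t)
    (hk' : S.k = 1) {v t' : ℂ} (he : S.e (some v) t' = S.n)
    (h3 : ∃ t t' : ℂ, t ≠ t' ∧ K.Cusp t ∧ K.Cusp t') :
    ∃ (t₁ t₂ : ℂ) (s₀ s₁ s₂ : ℤ), t₁ ≠ t₂ ∧ (∀ t, K.Cusp t ↔ t = t₁ ∨ t = t₂) ∧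
      BrInf K.F K.d s₀ ∧ BrAt K.F t₁ s₁ ∧ BrAt K.F t₂ s₂ ∧
      9 - 3 * (K.d : ℤ) + (s₀ + s₁ + s₂) = 0 ∧
      ((K.d = m + 2 ∧ s₀ = 2 * m - 3 ∧ 1 ≤ s₁ ∧ 1 ≤ s₂ ∧ s₁ + s₂ = m) ∨
       (∃ l : ℕ, K.d = m + 3 ∧ m = 2 * l ∧ s₀ = 4 * l - 2 ∧ s₁ = 2 * l + 1 ∧ s₂ = 1) ∨
       (∃ l : ℕ, K.d = m + 4 ∧ m = 3 * l ∧ s₀ = 6 * l - 1 ∧ s₁ = 3 * l + 3 ∧ s₂ = 1)) := by
  obtain ⟨t, t'', htt, ht, ht'⟩ := h3
  obtain ⟨t₁, t₂, s₀, s₁, s₂, hne, hcu, hB0, hB1, hB2, hsum, hcase⟩ := S.final_tot hk' he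
    ⟨t, t'', htt, (hcusp t).2 ht, (hcusp t'').2 ht'⟩
  rw [ha, hb, hc] at hB0 hB1 hB2
  rw [hSm, hSn] at hB0
  refine ⟨t₁, t₂, s₀, s₁, s₂, hne, fun t => (hcusp t).symm.trans (hcu t), K.br_inf A hA s₀ hB0,
    K.br_at A hA t₁ s₁ hB1, K.br_at A hA t₂ s₂ hB2, ?_, ?_⟩
  · rw [hSm] at hsum
    have e2 : (K.d : ℤ) = (S.n : ℤ) + m := by exact_mod_cast hSn.symm
    rw [e2]
    exact hsum
  · rw [hSm] at hcase
    rcases hcase with ⟨h1, h4, h5⟩ | ⟨l, h1, h4, h5⟩ | ⟨l, h1, h4, h5⟩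
    · exact Or.inl ⟨by omega, h4, h5⟩
    · exact Or.inr (Or.inl ⟨l, by omega, h4, h5⟩)
    · exact Or.inr (Or.inr ⟨l, by omega, h4, h5⟩)

theorem mainE (K : RatCusp) (m n : ℕ) (h2 : 2 ≤ m) (hn : n + m = K.d) (hm : K.MultInf m)
    (hM : K.Meets)
    (hbig : (n = 4 ∧ 8 ≤ m) ∨ ∃ T L : Fin 3 → ℂ, K.Tangent m T ∧ K.Secant m L ∧
      ((K.pts T = 1 ∧ K.pts L = 1 ∧
          ∃ t, K.Cusp t ∧ (K.form T).eval t ≠ 0 ∧ (K.form L).eval t ≠ 0) ∨
        ∃ k f : ℕ, (K.form T).natDegree = k ∧ f + Nat.gcd (n - k) m ≤ n ∧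
          (∀ w, w ≠ 0 → K.Thru w → ∀ t : ℂ, rootMultiplicity t (K.form w) + f ≤ n) ∧
          3 * ((n : ℤ) - 1) * (n - 2) * (K.pts T + K.pts L - 1) <
            m * (f * (n + k - 1) + k * (k - 1)) + f * (n * (n - 1))))
    (h3 : ∃ t t' : ℂ, t ≠ t' ∧ K.Cusp t ∧ K.Cusp t') :
    ∃ (t₁ t₂ : ℂ) (s₀ s₁ s₂ : ℤ), t₁ ≠ t₂ ∧ (∀ t, K.Cusp t ↔ t = t₁ ∨ t = t₂) ∧
      BrInf K.F K.d s₀ ∧ BrAt K.F t₁ s₁ ∧ BrAt K.F t₂ s₂ ∧
      9 - 3 * (K.d : ℤ) + (s₀ + s₁ + s₂) = 0 ∧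
      ((K.d = m + 2 ∧ s₀ = 2 * m - 3 ∧ 1 ≤ s₁ ∧ 1 ≤ s₂ ∧ s₁ + s₂ = m) ∨
       (∃ l : ℕ, K.d = m + 3 ∧ m = 2 * l ∧ s₀ = 4 * l - 2 ∧ s₁ = 2 * l + 1 ∧ s₂ = 1) ∨
       (∃ l : ℕ, K.d = m + 4 ∧ m = 3 * l ∧ s₀ = 6 * l - 1 ∧ s₁ = 3 * l + 3 ∧ s₂ = 1)) := by
  classical
  obtain ⟨S, A, hA, ha, hb, hc, hSm, hSn, hcusp⟩ := K.normal m h2 hm hM
  have hnn : S.n = n := by omega
  have hk0 : S.k = 1 ∧ ∃ v t : ℂ, S.e (some v) t = S.n := by
    rcases hbig with ⟨e1, e2⟩ | ⟨T, L, hT, hL, hbig⟩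
    · obtain ⟨t, t', htt, ht, ht'⟩ := h3
      exact S.gen4 (by omega) (by omega) ⟨t, t', htt, (hcusp t).2 ht, (hcusp t').2 ht'⟩
    · obtain ⟨β, hβ, hTf⟩ := K.WrapD_T hA ha hb hc hSm hSn hT
      obtain ⟨v₁, α, hα, hLf⟩ := K.WrapD_L hA ha hb hc hSm hSn hL
      have hb0 : S.b ≠ 0 := by
        intro h
        have h4 := S.hb
        rw [h, natDegree_zero] at h4
        have := S.hk
        omega
      have hu := K.WrapD_pts hβ hb0 hTf
      have hr := K.WrapD_pts hα (S.RH_al_ne (some v₁)) hLf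
      rcases hbig with ⟨e1, e2, t₂, hc₂, hT₂, hL₂⟩ | ⟨k, f, hk, hfg, hf, hbig⟩
      · rw [e1] at hu
        rw [e2] at hr
        obtain ⟨tu, htu⟩ := Finset.card_eq_one.1 hu
        obtain ⟨t₁, ht₁⟩ := Finset.card_eq_one.1 hr
        have he : S.e (some v₁) t₁ = S.n := by
          have h4 := S.ram_card (some v₁)
          rw [hr, S.al_some_natDegree] at h4
          have h5 : S.Ram (some v₁) = S.e (some v₁) t₁ - 1 := by
            unfold Cur.Ram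
            rw [ht₁, Finset.sum_singleton]
          have h6 := S.hkn
          have h7 := S.hk
          omega
        have hroot : ∀ t, S.b.IsRoot t → t = tu := by
          intro t ht
          have h4 : t ∈ S.b.roots.toFinset := by
            rw [Multiset.mem_toFinset, mem_roots hb0]
            exact ht
          rw [htu, Finset.mem_singleton] at h4
          exact h4
        have hne1 : t₂ ≠ t₁ := by
          rintro rfl
          apply hL₂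
          have h4 : t₂ ∈ (S.al (some v₁)).roots.toFinset := by
            rw [ht₁]
            exact Finset.mem_singleton_self _
          rw [Multiset.mem_toFinset, mem_roots (S.RH_al_ne (some v₁)), IsRoot.def] at h4
          rw [hLf, eval_mul, h4, mul_zero]
        have hne2 : t₂ ≠ tu := by
          rintro rfl
          apply hT₂
          have h4 : t₂ ∈ S.b.roots.toFinset := by
            rw [htu]
            exact Finset.mem_singleton_self _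
          rw [Multiset.mem_toFinset, mem_roots hb0, IsRoot.def] at h4
          rw [hTf, eval_mul, h4, mul_zero]
        exact ⟨S.kOne he hroot ((hcusp t₂).2 hc₂) hne1 hne2, v₁, t₁, he⟩
      · exfalso
        have hkk : S.k = k := by
          rw [← hk, hTf, natDegree_C_mul hβ, S.hb]
        obtain ⟨g1, g2⟩ := K.WrapD_e hA ha hb hSm hSn (f := f) (by rw [hnn]; exact hf)
        have h4 := S.genE v₁ (f := f) hu hr (by rw [hnn, hkk, hSm]; exact hfg) g1 g2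
        rw [hSm, hnn, hkk] at h4
        have h5 : (m : ℤ) * (f * ((n : ℤ) + k - 1) + k * (k - 1)) + f * (n * (n - 1)) ≤
            3 * ((n : ℤ) - 1) * (n - 2) * (K.pts T + K.pts L - 1) := by
          exact_mod_cast h4
        omega
  obtain ⟨hk', v, t', he⟩ := hk0
  exact K.WrapE_fin hA ha hb hc hSm hSn hcusp hk' he h3

end RatCusp

end WR
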