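import Pool.Agent.helper51.WR.WrapE
import Pool.Agent.helper51.WR.LinS

/-!
# WR-WrapS: the coordinate free theorem with the linear bound
-/

namespace WR

open Polynomial

namespace RatCusp

theorem WrapS_pos (K : RatCusp) {T : Fin 3 → ℂ} (hpT : K.pts T = 1) :
    1 ≤ (K.form T).natDegree := by
  by_contra hcon
  have h4 : (K.form T).natDegree = 0 := by omega
  obtain ⟨c, hc⟩ := natDegree_eq_zero.1 h4
  unfold RatCusp.pts at hpT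
  rw [← hc] at hpT
  simp only [eval_C] at hpT
  by_cases h5 : c = 0
  · rw [h5] at hpT
    have h6 : {t : ℂ | (0 : ℂ) = 0} = Set.univ := by
      ext t
      simp
    rw [h6, Set.Infinite.ncard Set.infinite_univ] at hpT
    omega
  · have h6 : {t : ℂ | c = 0} = ∅ := by
      ext t
      simp [h5]
    rw [h6, Set.ncard_empty] at hpT
    omega

theorem mainS (K : RatCusp) (m n k : ℕ) (hn : n + m = K.d) (hm : K.MultInf m) (T : Fin 3 → ℂ)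
    (hT : K.Tangent m T) (hpT : K.pts T = 1) (hk : (K.form T).natDegree = k)
    (hlin : 2 * n + k + 3 ≤ m)
    (hg : 3 * ((n : ℤ) - 1) * (n - 2) ≤ ((n : ℤ) - Nat.gcd (n - k) m) * (m + n - 1))
    (h3 : ∃ t t' : ℂ, t ≠ t' ∧ K.Cusp t ∧ K.Cusp t' ∧ (K.form T).eval t ≠ 0 ∧
      (K.form T).eval t' ≠ 0) :
    ∃ (t₁ t₂ : ℂ) (s₀ s₁ s₂ : ℤ), t₁ ≠ t₂ ∧ (∀ t, K.Cusp t ↔ t = t₁ ∨ t = t₂) ∧
      BrInf K.F K.d s₀ ∧ BrAt K.F t₁ s₁ ∧ BrAt K.F t₂ s₂ ∧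
      9 - 3 * (K.d : ℤ) + (s₀ + s₁ + s₂) = 0 ∧
      ((K.d = m + 2 ∧ s₀ = 2 * m - 3 ∧ 1 ≤ s₁ ∧ 1 ≤ s₂ ∧ s₁ + s₂ = m) ∨
       (∃ l : ℕ, K.d = m + 3 ∧ m = 2 * l ∧ s₀ = 4 * l - 2 ∧ s₁ = 2 * l + 1 ∧ s₂ = 1) ∨
       (∃ l : ℕ, K.d = m + 4 ∧ m = 3 * l ∧ s₀ = 6 * l - 1 ∧ s₁ = 3 * l + 3 ∧ s₂ = 1)) := by
  classical
  have h2 : 2 ≤ m := by omega
  have hM : K.Meets := K.WrapD_meets hm h2 hT (K.WrapS_pos hpT)
  obtain ⟨S, A, hA, ha, hb, hc, hSm, hSn, hcusp⟩ := K.normal m h2 hm hM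
  have hnn : S.n = n := by omega
  obtain ⟨β, hβ, hTf⟩ := K.WrapD_T hA ha hb hc hSm hSn hT
  have hkk : S.k = k := by
    rw [← hk, hTf, natDegree_C_mul hβ, S.hb]
  have hb0 : S.b ≠ 0 := by
    intro h
    have h4 := S.hb
    rw [h, natDegree_zero] at h4
    have := S.hk
    omega
  have hu := K.WrapD_pts hβ hb0 hTf
  rw [hpT] at hu
  obtain ⟨tu, htu⟩ := Finset.card_eq_one.1 hu
  have hmem : ∀ t, S.b.IsRoot t ↔ t = tu := by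
    intro t
    rw [← mem_roots hb0, ← Multiset.mem_toFinset, htu, Finset.mem_singleton]
  have hne : ∀ t, (K.form T).eval t ≠ 0 → t ≠ tu := by
    rintro t ht rfl
    apply ht
    rw [hTf, eval_mul, (hmem t).2 rfl, mul_zero]
  obtain ⟨t, t', htt, ht, ht', hnt, hnt'⟩ := h3
  obtain ⟨hk', v, t₁, he⟩ := S.linS (fun t ht => (hmem t).1 ht) (by omega)
    (by rw [hnn, hkk, hSm]; exact hg)
    ⟨t, t', htt, (hcusp t).2 ht, (hcusp t').2 ht', hne t hnt, hne t' hnt'⟩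
  exact K.WrapE_fin hA ha hb hc hSm hSn hcusp hk' he ⟨t, t', htt, ht, ht'⟩

end RatCusp

end WR
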