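import Pool.Agent.helper51.WR.WrapS
import Pool.Agent.helper51.WR.LinU

/-!
# WR-WrapU: the coordinate free theorem with any number of points on the tangent line
-/

namespace WR

open Polynomial

namespace RatCusp

theorem WrapU_pos (K : RatCusp) {T : Fin 3 → ℂ} (hpT : 1 ≤ K.pts T) :
    1 ≤ (K.form T).natDegree := by
  by_contra hcon
  have h4 : (K.form T).natDegree = 0 := by omega
  obtain ⟨c, hc⟩ := natDegree_eq_zero.1 h4
  unfold RatCusp.pts at hpT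
  rw [← hc] at hpT
  simp only [eval_C] at hpT
  by_cases h5 : c = 0
  · rw [h5] at hpT
    have h6 : {t : ℂ | (0 : ℂ) = 0} = Set.univ := by
      ext t
      simp
    rw [h6, Set.Infinite.ncard Set.infinite_univ] at hpT
    omega
  · have h6 : {t : ℂ | c = 0} = ∅ := by
      ext t
      simp [h5]
    rw [h6, Set.ncard_empty] at hpT
    omega

/-- every fibre of `S` is a line through `φ(∞)`, different from the tangent line -/
theorem WrapU_line (K : RatCusp) {S : Cur} {A : Matrix (Fin 3) (Fin 3) ℂ}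
    (ha : S.a = K.form (A 0)) (hb : S.b = K.form (A 1))
    {m : ℕ} (hm : S.m = m) (hn : S.n + m = K.d) (v : ℂ) :
    ∃ L : Fin 3 → ℂ, K.Secant m L ∧ K.form L = S.al (some v) := by
  have hm2 := S.hm
  have h2 : K.form (fun j => A 0 j + -v * A 1 j) = S.a - C v * S.b := by
    have h3 := K.WrapC_form_comb A ![1, -v, 0]
    have h4 : (fun j => (![1, -v, 0] : Fin 3 → ℂ) 0 * A 0 j + (![1, -v, 0] : Fin 3 → ℂ) 1 * A 1 j +
        (![1, -v, 0] : Fin 3 → ℂ) 2 * A 2 j) = fun j => A 0 j + -v * A 1 j := by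
      funext j
      simp
    rw [h4] at h3
    rw [h3, ha, hb]
    simp
    ring
  have h3 : (K.form (fun j => A 0 j + -v * A 1 j)).natDegree = S.n := by
    rw [h2]
    exact S.al_some_natDegree v
  exact ⟨_, ⟨WrapC_low K (by rw [h3]; omega), by rw [h3, hn]⟩, h2⟩

theorem mainU (K : RatCusp) (m n k u : ℕ) (hn : n + m = K.d) (hm : K.MultInf m) (T : Fin 3 → ℂ)
    (hT : K.Tangent m T) (hk : (K.form T).natDegree = k) (hu : K.pts T = u) (hu1 : 1 ≤ u)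
    (hlin : 2 * n + k + 3 ≤ m)
    (hmu : (3 * (u : ℤ) - 1) * n ^ 2 + 4 * n ≤ m * (n + k ^ 2 - 1))
    (hg : 3 * ((n : ℤ) - 1) * (n - 2) ≤ ((n : ℤ) - Nat.gcd (n - k) m) * (m + n - 1) ∨
      ∃ (L : Fin 3 → ℂ) (t : ℂ), K.Secant m L ∧
        Nat.gcd (n - k) m ≤ rootMultiplicity t (K.form L))
    (hL : u = 1 ∨ (∀ L, K.Secant m L → K.pts L ≠ 1) ∨
      3 * ((u : ℤ) - 1) * n ^ 2 + 3 * n ≤ m * (k * (k - 1)))
    (h3 : ∃ t t' : ℂ, t ≠ t' ∧ K.Cusp t ∧ K.Cusp t' ∧ (K.form T).eval t ≠ 0 ∧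
      (K.form T).eval t' ≠ 0) :
    ∃ (t₁ t₂ : ℂ) (s₀ s₁ s₂ : ℤ), t₁ ≠ t₂ ∧ (∀ t, K.Cusp t ↔ t = t₁ ∨ t = t₂) ∧
      BrInf K.F K.d s₀ ∧ BrAt K.F t₁ s₁ ∧ BrAt K.F t₂ s₂ ∧
      9 - 3 * (K.d : ℤ) + (s₀ + s₁ + s₂) = 0 ∧
      ((K.d = m + 2 ∧ s₀ = 2 * m - 3 ∧ 1 ≤ s₁ ∧ 1 ≤ s₂ ∧ s₁ + s₂ = m) ∨
       (∃ l : ℕ, K.d = m + 3 ∧ m = 2 * l ∧ s₀ = 4 * l - 2 ∧ s₁ = 2 * l + 1 ∧ s₂ = 1) ∨
       (∃ l : ℕ, K.d = m + 4 ∧ m = 3 * l ∧ s₀ = 6 * l - 1 ∧ s₁ = 3 * l + 3 ∧ s₂ = 1)) := by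
  classical
  have h2 : 2 ≤ m := by omega
  have hM : K.Meets := K.WrapD_meets hm h2 hT (K.WrapU_pos (by rw [hu]; exact hu1))
  obtain ⟨S, A, hA, ha, hb, hc, hSm, hSn, hcusp⟩ := K.normal m h2 hm hM
  have hnn : S.n = n := by omega
  obtain ⟨β, hβ, hTf⟩ := K.WrapD_T hA ha hb hc hSm hSn hT
  have hkk : S.k = k := by
    rw [← hk, hTf, natDegree_C_mul hβ, S.hb]
  have hb0 : S.b ≠ 0 := by
    intro h
    have h4 := S.hb
    rw [h, natDegree_zero] at h4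
    have := S.hk
    omega
  have hub := K.WrapD_pts hβ hb0 hTf
  rw [hu] at hub
  have hne : ∀ t, (K.form T).eval t ≠ 0 → S.b.eval t ≠ 0 := by
    intro t ht h
    apply ht
    rw [hTf, eval_mul, h, mul_zero]
  obtain ⟨t, t', htt, ht, ht', hnt, hnt'⟩ := h3
  obtain ⟨hk', v, t₁, he⟩ := S.linU hub (by omega)
    (by rw [hnn, hkk, hSm]; exact hmu)
    (by
      rw [hnn, hkk, hSm]
      rcases hg with h | ⟨L, s, hL1, h⟩
      · exact Or.inl h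
      · obtain ⟨v, α, hα, hLf⟩ := K.WrapD_L hA ha hb hc hSm hSn hL1
        refine Or.inr ⟨v, s, ?_⟩
        rw [hLf, ← count_roots, roots_C_mul _ hα, count_roots] at h
        exact h)
    (by
      rw [hnn, hkk, hSm]
      rcases hL with h | h | h
      · exact Or.inl h
      · refine Or.inr (Or.inl fun v hv => ?_)
        obtain ⟨L, hL1, hL2⟩ := K.WrapU_line ha hb hSm hSn v
        refine h L hL1 ?_
        rw [← hv]
        exact (K.WrapD_pts (α := 1) one_ne_zero (S.RH_al_ne (some v))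
          (by rw [hL2, C_1, one_mul])).symm
      · exact Or.inr (Or.inr h))
    ⟨t, t', htt, (hcusp t).2 ht, (hcusp t').2 ht', hne t hnt, hne t' hnt'⟩
  exact K.WrapE_fin hA ha hb hc hSm hSn hcusp hk' he ⟨t, t', htt, ht, ht'⟩

end RatCusp

end WR
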